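import Pool.Agent.Lib.MP_66609f_al.DN.Stmt
import Pool.Agent.Lib.MP_66609f_al.Main2

/-! The theorem of Dehn, Nielsen, Baer and Epstein, and the growth series. -/

namespace Pool.Agent.Lib.MP_66609f_al.DN

theorem dehn_nielsen_baer (g : ℕ) (hg : 2 ≤ g) : Nonempty (MCGtop g hg ≃* Mod g) :=
  let ⟨_, M, h1, h2⟩ := exists_model hg
  M.iso (by omega) (HomeoPlus g hg) (Homeo0 _) (fun _ => Iff.rfl) h2 fun φ _ => h1 φ

theorem main_top (g : ℕ) (hg : 2 ≤ g) (S0 : Finset (MCGtop g hg)) :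
    ∃ S : Finset (MCGtop g hg), S0 ⊆ S ∧ Subgroup.closure (S : Set (MCGtop g hg)) = ⊤ ∧
      ¬ IsRational (growthSeries (S : Set (MCGtop g hg))) :=
  let ⟨e⟩ := dehn_nielsen_baer g hg
  growth_transport e.symm (main_all g hg) S0

end Pool.Agent.Lib.MP_66609f_al.DN
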