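import Pool.Agent.Lib.MP_66609f_al.DN.Top
import Pool.Agent.Lib.MP_66609f_al.FGDefs

/-! Geometric markings: polygons with one vertex class that tile a space. -/

namespace Pool.Agent.Lib.MP_66609f_al.DN

open Set unitInterval

/-- The word of the polygon with opposite sides identified. -/
def oppWord (g : ℕ) : List (Fin (2 * g) × Bool) :=
  ((List.finRange (2 * g)).map fun i => (i, true)) ++ (List.finRange (2 * g)).map fun i => (i, false)

/-- The value of a word. -/
def val {X G : Type} [Group G] (f : X → G) (l : List (X × Bool)) : G :=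
  FreeGroup.lift f (FreeGroup.mk l)

variable {X G Y : Type} [Group G] [TopologicalSpace Y] [MulAction G Y]

/-- The edge of a dart: a path from the base vertex `v` to `val f [d] • v`. -/
def dart (f : X → G) (e : X → C(I, Y)) (d : X × Bool) (t : I) : Y :=
  if d.2 then e d.1 t else (f d.1)⁻¹ • e d.1 (σ t)

/-- The data of a polygon with boundary word `Q` and side pairings `f` that tiles `Y`. -/
structure GeoData (Y : Type) [TopologicalSpace Y] [MulAction G Y] (Q : List (X × Bool))
    (f : X → G) where
  v : Y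
  e : X → C(I, Y)
  φ : C(Disc, Y)
  e_zero : ∀ y, e y 0 = v
  e_one : ∀ y, e y 1 = f y • v
  side : ∀ l d r, Q = l ++ d :: r → ∀ t : I,
    φ (bd Q.length (l.length + t)) = val f l • dart f e d t
  cover : ∀ x : Y, ∃ (γ : G) (z : Disc), x = γ • φ z
  inner : ∀ (γ : G) (z z' : Disc), ‖(z : ℂ)‖ < 1 → γ • φ z = φ z' → z = z'
  edge : ∀ (γ : G) y y' (s t : I), s ≠ 0 → s ≠ 1 → γ • e y s = e y' t → y = y' ∧ s = t

/-- A geometric marking. -/
def GeoMark (Y : Type) [TopologicalSpace Y] [MulAction G Y] (Q : List (X × Bool)) (f : X → G) :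
    Prop :=
  Nonempty (GeoData Y Q f)

/-- The universal cover of the surface of genus `g` with a polygon as fundamental domain. -/
structure Model (g : ℕ) (Y : Type) [TopologicalSpace Y] [MulAction (SurfaceGroup g) Y] where
  p : Y → Surf g
  q : C(Disc, Y)
  cov : IsQuotientCoveringMap p (SurfaceGroup g)
  pq : ∀ z, p (q z) = Quot.mk _ z
  vtx : ∀ k : ℕ, k ≤ 4 * g → q (bd (4 * g) k) =
    val (G := SurfaceGroup g) PresentedGroup.of ((surfWord g).take k) • q (bd (4 * g) 0)

end Pool.Agent.Lib.MP_66609f_al.DN
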