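import Pool.Agent.Lib.MP_66609f_al.DN.BTile
import Pool.Agent.Lib.MP_66609f_al.DN.Geo

/-! A presentation of the kernel of the colouring. -/

namespace Pool.Agent.Lib.MP_66609f_al.DN

variable {g : ℕ}

theorem length_oppWord (g : ℕ) : (oppWord g).length = 2 * g + 2 * g := by simp [oppWord]

theorem oppWord_left {k : ℕ} (hk : k < 2 * g) : (oppWord g)[k]? = some (⟨k, hk⟩, true) := by
  rw [oppWord, List.getElem?_append_left (by simpa using hk)]
  simp [hk]

theorem oppWord_right {k : ℕ} (hk : k < 2 * g) :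
    (oppWord g)[2 * g + k]? = some (⟨k, hk⟩, false) := by
  rw [oppWord, List.getElem?_append_right (by simp)]
  simp [hk]

theorem cadj_of_getElem {α : Type*} {l : List α} {k : ℕ} {a b : α} (h1 : l[k]? = some a)
    (h2 : l[k + 1]? = some b) : CAdj l a b := by
  obtain ⟨h3, rfl⟩ := List.getElem?_eq_some_iff.1 h1
  obtain ⟨h4, rfl⟩ := List.getElem?_eq_some_iff.1 h2
  exact Or.inl ⟨l.take k, l.drop (k + 1 + 1), by
    rw [← List.drop_eq_getElem_cons h4, ← List.drop_eq_getElem_cons h3, List.take_append_drop]⟩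

theorem goodQ_oppWord (g : ℕ) : GoodQ (oppWord g) := by
  refine ⟨?_, ?_, ?_⟩
  · refine List.Nodup.append ((List.nodup_finRange _).map fun i j h => congrArg Prod.fst h)
      ((List.nodup_finRange _).map fun i j h => congrArg Prod.fst h) ?_
    simp [List.disjoint_left]
  · rintro ⟨i, _ | _⟩ <;> simp [oppWord]
  · rintro S ⟨⟨⟨i, hi⟩, b⟩, hx⟩ hc
    have h0 : 0 < 2 * g := by omega
    have hl : 2 * g - 1 < 2 * g := by omega
    have s1 : ∀ k (h : k + 1 < 2 * g) b, (⟨k, by omega⟩, b) ∈ S → (⟨k + 1, h⟩, !b) ∈ S := by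
      rintro k h (_ | _) hk
      · exact hc _ _ hk (cadj_of_getElem (oppWord_left _) (oppWord_left h))
      · exact hc _ _ hk (cadj_of_getElem (oppWord_right _) (oppWord_right h))
    have s2 : ∀ b, (⟨2 * g - 1, hl⟩, b) ∈ S → (⟨0, h0⟩, b) ∈ S := by
      rintro (_ | _) hk
      · refine hc _ _ hk (cadj_of_getElem (oppWord_left hl) ?_)
        rw [show 2 * g - 1 + 1 = 2 * g + 0 by omega]
        exact oppWord_right h0
      · refine hc _ _ hk (Or.inr ⟨?_, List.head?_eq_getElem?.trans (oppWord_left h0)⟩)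
        rw [List.getLast?_eq_getElem?, length_oppWord,
          show 2 * g + 2 * g - 1 = 2 * g + (2 * g - 1) by omega]
        exact oppWord_right hl
    have s3 : ∀ k (h : k < 2 * g) b, (⟨k, h⟩, b) ∈ S → ∀ m (h' : k + m < 2 * g),
        (⟨k + m, h'⟩, if m % 2 = 0 then b else !b) ∈ S := by
      intro k h b hk m
      induction m with
      | zero => exact fun _ => hk
      | succ m ih =>
        intro h'
        have := s1 (k + m) h' _ (ih (by omega))
        by_cases hm : m % 2 = 0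
        · rwa [if_neg (by omega), ← if_pos (t := b) (e := !b) hm]
        · rwa [if_neg hm, Bool.not_not, ← if_pos (t := b) (e := !b) (show (m + 1) % 2 = 0 by omega)]
            at this
    have s4 : ∀ b, (⟨0, h0⟩, b) ∈ S → (⟨0, h0⟩, !b) ∈ S := fun b hb => by
      have := s3 0 h0 b hb (2 * g - 1) (by omega)
      rw [if_neg (by omega)] at this
      exact s2 _ (by simpa using this)
    obtain ⟨c, hc⟩ : ∃ c, (⟨0, h0⟩, c) ∈ S := ⟨_, s2 _ (by
      simpa [show i + (2 * g - 1 - i) = 2 * g - 1 by omega] using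
        s3 i hi b hx (2 * g - 1 - i) (by omega))⟩
    have s5 : ∀ b, (⟨0, h0⟩, b) ∈ S := fun b => by
      by_cases h : b = c
      · exact h ▸ hc
      · exact Bool.eq_not.2 h ▸ s4 c hc
    refine Set.eq_univ_of_forall ?_
    rintro ⟨⟨k, hk⟩, b⟩
    by_cases hm : k % 2 = 0
    · simpa [hm] using s3 0 h0 b (s5 _) k (by omega)
    · simpa [hm] using s3 0 h0 (!b) (s5 _) k (by omega)

section Pre

variable {G : Type} [Group G] (f : Fin (2 * g) → G)

/-- The value of a prefix of the boundary word. -/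
def pre (k : ℕ) : G := val f ((oppWord g).take k)

theorem pre_zero : pre f 0 = 1 := map_one (FreeGroup.lift f)

theorem pre_succ {k : ℕ} {d : Fin (2 * g) × Bool} (h : (oppWord g)[k]? = some d) :
    pre f (k + 1) = pre f k * val f [d] := by
  rw [pre, List.take_add_one, h, val, ← FreeGroup.mul_mk, map_mul]
  rfl

theorem pre_left {k : ℕ} (hk : k < 2 * g) : pre f (k + 1) = pre f k * f ⟨k, hk⟩ :=
  (pre_succ f (oppWord_left hk)).trans (congrArg _ FreeGroup.lift_apply_of)

theorem pre_right {k : ℕ} (hk : k < 2 * g) :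
    pre f (2 * g + (k + 1)) = pre f (2 * g + k) * (f ⟨k, hk⟩)⁻¹ :=
  (pre_succ f (oppWord_right hk)).trans (congrArg _ (by simp [val]))

theorem pre_last : pre f (2 * g + 2 * g) = FreeGroup.lift f (FreeGroup.mk (oppWord g)) := by
  rw [pre, List.take_of_length_le (length_oppWord g).le, val]

end Pre

theorem colZ_zero : colZ (0 : ZMod (2 * g + 2)) = (1, 0) := if_pos (by simp)

theorem colZ_neg_one : colZ (-1 : ZMod (2 * g + 2)) = (0, 1) := by
  have h := colZ_succ (-1 : ZMod (2 * g + 2))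
  rw [neg_add_cancel, colZ_zero] at h
  rcases colZ_cases (-1 : ZMod (2 * g + 2)) with e | e
  · exact absurd (e ▸ h) (by decide)
  · exact e

theorem cast_last : ((2 * g + 1 : ℕ) : ZMod (2 * g + 2)) = -1 := by
  rw [eq_neg_iff_add_eq_zero, ← Nat.cast_succ]
  exact ZMod.natCast_self _

theorem colZ_two_mul : colZ ((2 * g : ℕ) : ZMod (2 * g + 2)) = (1, 0) :=
  if_pos (by rw [ZMod.val_natCast_of_lt (by omega)]; omega)

/-- Representatives of the four cosets; they fix the base vertex. -/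
def tW (g : ℕ) (c : ZMod 2 × ZMod 2) : W (2 * g + 2) :=
  (if c.1 = 0 then 1 else sg 0) * if c.2 = 0 then 1 else sg (-1)

theorem sg_comm_zero : Commute (sg (0 : ZMod (2 * g + 2))) (sg (-1)) := by
  simpa using (sg_comm (-1 : ZMod (2 * g + 2))).symm

theorem tW_zero : tW g 0 = 1 := by simp [tW]

theorem tW_10 : tW g (1, 0) = sg 0 := by simp [tW]

theorem tW_01 : tW g (0, 1) = sg (-1) := by simp [tW]

theorem tW_11 : tW g (1, 1) = sg 0 * sg (-1) := by simp [tW]

theorem four_cases (c : ZMod 2 × ZMod 2) : c = 0 ∨ c = (1, 0) ∨ c = (0, 1) ∨ c = (1, 1) := by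
  revert c
  decide

theorem tW_inv (c : ZMod 2 × ZMod 2) : (tW g c)⁻¹ = tW g c := by
  rcases four_cases c with rfl | rfl | rfl | rfl
  · rw [tW_zero, inv_one]
  · rw [tW_10, sg_inv]
  · rw [tW_01, sg_inv]
  · rw [tW_11, mul_inv_rev, sg_inv, sg_inv, sg_comm_zero.eq]

theorem colW_tW (c : ZMod 2 × ZMod 2) : colW g (tW g c) = Multiplicative.ofAdd c := by
  rcases four_cases c with rfl | rfl | rfl | rfl
  · rw [tW_zero, map_one, ofAdd_zero]
  · rw [tW_10, colW_sg, colZ_zero]
  · rw [tW_01, colW_sg, colZ_neg_one]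
  · rw [tW_11, map_mul, colW_sg, colW_sg, colZ_zero, colZ_neg_one]
    rfl

def wA (i : ZMod (2 * g + 2)) : W (2 * g + 2) := sg i * tW g (colZ i)

def wB (i : ZMod (2 * g + 2)) : W (2 * g + 2) := tW g (1, 1) * sg i * tW g (colZ (i + 1))

theorem colW_wA (i : ZMod (2 * g + 2)) : colW g (wA i) = 1 := by
  rw [wA, map_mul, colW_sg, colW_tW]
  generalize colZ i = c
  revert c
  decide

/-- The generators of the surface group. -/
def gen (g : ℕ) (k : Fin (2 * g)) : (colW g).ker :=
  ⟨(wA ((k : ℕ) : ZMod (2 * g + 2)))⁻¹ * wA ((k + 1 : ℕ) : ZMod (2 * g + 2)), by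
    rw [MonoidHom.mem_ker, map_mul, map_inv, colW_wA, colW_wA, inv_one, one_mul]⟩

theorem coe_gen (k : Fin (2 * g)) : (gen g k).1 =
    (wA ((k : ℕ) : ZMod (2 * g + 2)))⁻¹ * wA ((k + 1 : ℕ) : ZMod (2 * g + 2)) := rfl

theorem wA_zero : wA (0 : ZMod (2 * g + 2)) = 1 := by rw [wA, colZ_zero, tW_10, sg_mul_self]

theorem wA_last : wA (-1 : ZMod (2 * g + 2)) = 1 := by rw [wA, colZ_neg_one, tW_01, sg_mul_self]

theorem wB_zero : wB (0 : ZMod (2 * g + 2)) = 1 := by
  rw [wB, colZ_succ, colZ_zero, show ((1, 0) + (1, 1) : ZMod 2 × ZMod 2) = (0, 1) by decide, tW_01,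
    mul_assoc, ← tW_11, ← inv_eq_iff_mul_eq_one, tW_inv]

theorem wB_last : wB (-1 : ZMod (2 * g + 2)) = 1 := by
  rw [wB, neg_add_cancel, colZ_zero, tW_11, tW_10, mul_assoc (sg 0), sg_mul_self, mul_one,
    sg_mul_self]

theorem wB_succ (i : ZMod (2 * g + 2)) : wB (i + 1) = wB i * ((wA i)⁻¹ * wA (i + 1))⁻¹ := by
  have h : colZ (i + 1 + 1) = colZ i := by
    rw [colZ_succ, colZ_succ]
    generalize colZ i = c
    revert c
    decide
  have h1 : sg i * sg (i + 1) * sg i = sg (i + 1) := by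
    rw [(sg_comm i).eq, mul_assoc, sg_mul_self, mul_one]
  rw [wB, wB, wA, wA, h, mul_inv_rev, mul_inv_rev, inv_inv, sg_inv]
  conv_lhs => rw [← h1]
  simp only [mul_assoc, mul_inv_cancel_left]

theorem coe_pre_left {k : ℕ} (hk : k ≤ 2 * g) :
    (pre (gen g) k).1 = wA (k : ZMod (2 * g + 2)) := by
  induction k with
  | zero => rw [pre_zero, Nat.cast_zero, wA_zero, Subgroup.coe_one]
  | succ k ih => rw [pre_left _ hk, Subgroup.coe_mul, ih (by omega), coe_gen, mul_inv_cancel_left]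

theorem coe_pre_right {k : ℕ} (hk : k ≤ 2 * g) : (pre (gen g) (2 * g + k)).1 =
    wA ((2 * g : ℕ) : ZMod (2 * g + 2)) * wB (k : ZMod (2 * g + 2)) := by
  induction k with
  | zero => rw [add_zero, coe_pre_left le_rfl, Nat.cast_zero, wB_zero, mul_one]
  | succ k ih =>
    rw [pre_right _ hk, Subgroup.coe_mul, ih (by omega), Subgroup.coe_inv, coe_gen, Nat.cast_succ,
      wB_succ, mul_assoc]

theorem pre_gen_last : pre (gen g) (2 * g + 2 * g) = 1 := by
  have h := wB_succ ((2 * g : ℕ) : ZMod (2 * g + 2))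
  rw [← Nat.cast_succ, cast_last, wB_last, wA_last, mul_one, inv_inv] at h
  exact Subtype.ext ((coe_pre_right le_rfl).trans (mul_eq_one_comm.1 h.symm))

theorem exists_cast (i : ZMod (2 * g + 2)) : (∃ k ≤ 2 * g, i = (k : ℕ)) ∨ i = -1 := by
  have h := i.val_lt
  rcases Nat.lt_or_ge (2 * g) i.val with h1 | h1
  · exact Or.inr (by rw [← cast_last, show 2 * g + 1 = i.val by omega, ZMod.natCast_zmod_val])
  · exact Or.inl ⟨_, h1, (ZMod.natCast_zmod_val i).symm⟩

theorem col_cases {d : ZMod 2 × ZMod 2} (hd : d = (1, 0) ∨ d = (0, 1)) (c : ZMod 2 × ZMod 2) :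
    (c = 0 ∧ c + d = d) ∨ (c = d ∧ c + d = 0) ∨ (c = (1, 1) ∧ c + d = d + (1, 1)) ∨
      (c = d + (1, 1) ∧ c + d = (1, 1)) := by
  revert c d
  decide

theorem gen_surjective : Function.Surjective (FreeGroup.lift (gen g)) := by
  set H := (FreeGroup.lift (gen g)).range.map (colW g).ker.subtype
  have h0 : ∀ k, (pre (gen g) k).1 ∈ H := fun k => ⟨pre (gen g) k, ⟨_, rfl⟩, rfl⟩
  have h1 : ∀ i, wA i ∈ H ∧ wB i ∈ H := fun i => by
    rcases exists_cast i with ⟨k, hk, rfl⟩ | rfl
    · refine ⟨coe_pre_left hk ▸ h0 k, ?_⟩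
      have := mul_mem (inv_mem (h0 (2 * g))) (h0 (2 * g + k))
      rwa [coe_pre_right hk, coe_pre_left le_rfl, inv_mul_cancel_left] at this
    · rw [wA_last, wB_last]
      exact ⟨one_mem _, one_mem _⟩
  have h2 : ∀ w, w * tW g (colW g w).toAdd ∈ H := fun w => by
    induction w using cox_induction with
    | h1 => rw [map_one, toAdd_one, tW_zero, mul_one]; exact one_mem _
    | hs w i ih =>
      rw [map_mul, colW_sg, toAdd_mul, toAdd_ofAdd]
      generalize (colW g w).toAdd = c at ih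
      have e : w * sg i * tW g (c + colZ i) = w * tW g c * ((tW g c)⁻¹ * sg i * tW g (c + colZ i)) :=
        by group
      rw [e, tW_inv]
      refine mul_mem ih ?_
      rcases col_cases (colZ_cases i) c with ⟨a, b⟩ | ⟨a, b⟩ | ⟨a, b⟩ | ⟨a, b⟩ <;> rw [b, a]
      · rw [tW_zero, one_mul]
        exact (h1 i).1
      · simpa [wA, tW_zero, tW_inv, sg_inv] using inv_mem (h1 i).1
      · rw [← colZ_succ]
        exact (h1 i).2
      · simpa [wB, tW_inv, sg_inv, colZ_succ, mul_assoc] using inv_mem (h1 i).2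
  intro γ
  have h3 := h2 γ
  rw [MonoidHom.mem_ker.1 γ.2, toAdd_one, tW_zero, mul_one] at h3
  obtain ⟨_, ⟨u, rfl⟩, hu⟩ := h3
  exact ⟨u, Subtype.ext hu⟩

section Schreier

variable {G : Type} [Group G]

/-- The Schreier cocycle. -/
def tau (a b : G) (d c : ZMod 2 × ZMod 2) : G :=
  if c = 0 then a else if c = d then a⁻¹ else if c = (1, 1) then b else b⁻¹

/-- The action of a reflection on the cosets. -/
def piF (a b : G) (d : ZMod 2 × ZMod 2) (x : G × ZMod 2 × ZMod 2) : G × ZMod 2 × ZMod 2 :=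
  (x.1 * tau a b d x.2, x.2 + d)

theorem piF_invol (a b : G) {d : ZMod 2 × ZMod 2} (hd : d = (1, 0) ∨ d = (0, 1)) :
    Function.Involutive (piF a b d) := by
  rintro ⟨o, c⟩
  rcases hd with rfl | rfl <;> rcases four_cases c with rfl | rfl | rfl | rfl <;>
    simp +decide [piF, tau]

theorem piF_comm {a b a' b' : G} {d : ZMod 2 × ZMod 2} (hd : d = (1, 0) ∨ d = (0, 1))
    (h : b' = b * (a⁻¹ * a')⁻¹) (x : G × ZMod 2 × ZMod 2) :
    piF a b d (piF a' b' (d + (1, 1)) x) = piF a' b' (d + (1, 1)) (piF a b d x) := by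
  obtain ⟨o, c⟩ := x
  subst h
  rcases hd with rfl | rfl <;> rcases four_cases c with rfl | rfl | rfl | rfl <;>
    simp +decide [piF, tau, mul_assoc]

variable (A B : ZMod (2 * g + 2) → G) (h : ∀ i, B (i + 1) = B i * ((A i)⁻¹ * A (i + 1))⁻¹)

/-- The Schreier action. -/
def schreier : W (2 * g + 2) →* Equiv.Perm (G × ZMod 2 × ZMod 2) :=
  coxLift (fun i => (piF_invol (A i) (B i) (colZ_cases i)).toPerm)
    (fun i => Equiv.ext fun x => piF_invol (A i) (B i) (colZ_cases i) x)
    (fun i => Equiv.ext fun x => by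
      change piF (A i) (B i) (colZ i) (piF (A (i + 1)) (B (i + 1)) (colZ (i + 1))
        (piF (A i) (B i) (colZ i) (piF (A (i + 1)) (B (i + 1)) (colZ (i + 1)) x))) = x
      have e := piF_comm (colZ_cases i) (h i)
      rw [← colZ_succ] at e
      rw [e, piF_invol _ _ (colZ_cases i), piF_invol _ _ (colZ_cases (i + 1))])

theorem schreier_sg (i : ZMod (2 * g + 2)) (x : G × ZMod 2 × ZMod 2) :
    schreier A B h (sg i) x = piF (A i) (B i) (colZ i) x := by
  rw [schreier, coxLift_sg]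
  rfl

theorem schreier_wA (h0 : A 0 = 1) (h1 : A (-1) = 1) (i : ZMod (2 * g + 2)) (o : G) :
    schreier A B h (wA i) (o, 0) = (o * (A i)⁻¹, 0) := by
  rw [wA, map_mul, Equiv.Perm.mul_apply, schreier_sg]
  rcases colZ_cases i with e | e <;> rw [e]
  · rw [tW_10, schreier_sg, colZ_zero, h0]
    simp +decide [piF, tau]
  · rw [tW_01, schreier_sg, colZ_neg_one, h1]
    simp +decide [piF, tau]

end Schreier

theorem gen_ker :
    (FreeGroup.lift (gen g)).ker = Subgroup.normalClosure {FreeGroup.mk (oppWord g)} := by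
  refine le_antisymm ?_ (Subgroup.normalClosure_le_normal ?_)
  swap
  · rintro _ rfl
    exact (pre_last (gen g)).symm.trans pre_gen_last
  set N := Subgroup.normalClosure {FreeGroup.mk (oppWord g)}
  let x : Fin (2 * g) → FreeGroup (Fin (2 * g)) ⧸ N := fun k => QuotientGroup.mk' N (.of k)
  have hx : FreeGroup.lift x = QuotientGroup.mk' N := FreeGroup.ext_hom _ _ fun k => by simp [x]
  have h0 : pre x (2 * g + 2 * g) = 1 := by
    rw [pre_last, hx]
    exact (QuotientGroup.eq_one_iff _).2 (Subgroup.subset_normalClosure rfl)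
  let A : ZMod (2 * g + 2) → _ := fun i => if i.val ≤ 2 * g then pre x i.val else 1
  let B : ZMod (2 * g + 2) → _ := fun i =>
    if i.val ≤ 2 * g then (pre x (2 * g))⁻¹ * pre x (2 * g + i.val) else 1
  have hA : ∀ k ≤ 2 * g, A (k : ℕ) = pre x k ∧
      B (k : ℕ) = (pre x (2 * g))⁻¹ * pre x (2 * g + k) := fun k hk => by
    simp only [A, B, ZMod.val_natCast_of_lt (show k < 2 * g + 2 by omega), if_pos hk, and_self]
  have hA1 : A (-1) = 1 ∧ B (-1) = 1 := by
    simp only [A, B, ← cast_last, ZMod.val_natCast_of_lt (show 2 * g + 1 < 2 * g + 2 by omega),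
      if_neg (show ¬2 * g + 1 ≤ 2 * g by omega), and_self]
  have hA0 := hA 0 (by omega)
  rw [Nat.cast_zero, pre_zero, add_zero, inv_mul_cancel] at hA0
  have h : ∀ i, B (i + 1) = B i * ((A i)⁻¹ * A (i + 1))⁻¹ := fun i => by
    rcases exists_cast i with ⟨k, hk, rfl⟩ | rfl
    · rw [← Nat.cast_succ, (hA k hk).1, (hA k hk).2]
      rcases hk.eq_or_lt with rfl | hk
      · rw [cast_last, hA1.1, hA1.2, h0]
        group
      · rw [(hA _ hk).1, (hA _ hk).2, pre_left x hk, pre_right x hk]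
        group
    · rw [neg_add_cancel, hA0.1, hA0.2, hA1.1, hA1.2]
      group
  have key : ∀ (u : FreeGroup (Fin (2 * g))) o, schreier A B h (FreeGroup.lift (gen g) u) (o, 0) =
      (o * (QuotientGroup.mk' N u)⁻¹, 0) := fun u => by
    induction u using FreeGroup.induction_on with
    | C1 => simp
    | of k =>
      intro o
      rw [FreeGroup.lift_apply_of, coe_gen, map_mul, map_inv, Equiv.Perm.mul_apply,
        schreier_wA A B h hA0.1 hA1.1, Equiv.Perm.inv_eq_iff_eq, schreier_wA A B h hA0.1 hA1.1,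
        (hA k k.2.le).1, (hA _ k.2).1, pre_left x k.2, mul_inv_rev, mul_assoc]
    | inv_of k ih =>
      intro o
      rw [map_inv, Subgroup.coe_inv, map_inv, Equiv.Perm.inv_eq_iff_eq, ih, map_inv, inv_inv,
        mul_inv_cancel_right]
    | mul u v ihu ihv =>
      intro o
      rw [map_mul, Subgroup.coe_mul, map_mul, Equiv.Perm.mul_apply, ihv, ihu, map_mul, mul_inv_rev,
        mul_assoc]
  intro u hu
  have h1 := key u 1
  rw [MonoidHom.mem_ker.1 hu, Subgroup.coe_one, map_one, Equiv.Perm.one_apply, one_mul] at h1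
  exact (QuotientGroup.eq_one_iff u).1 (inv_eq_one.1 (congrArg Prod.fst h1).symm)

theorem isMarking_gen (g : ℕ) : IsMarking (oppWord g) (gen g) := ⟨gen_surjective, gen_ker⟩

end Pool.Agent.Lib.MP_66609f_al.DN
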