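import Pool.Agent.Lib.MP_66609f_al.Defs

/-! The closed surface of genus `g` as a polygon with sides identified, orientation-preserving
homeomorphisms, isotopy. -/

namespace Pool.Agent.Lib.MP_66609f_al.DN

open Set unitInterval

/-- The closed unit disc. -/
abbrev Disc : Type := Metric.closedBall (0 : ℂ) 1

/-- The boundary point `exp (2 π i t / N)`: the circle is cut into `N` sides of length one. -/
noncomputable def bd (N : ℕ) (t : ℝ) : Disc :=
  ⟨Complex.exp ((2 * Real.pi * t / N : ℝ) * Complex.I),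
    mem_closedBall_zero_iff.2 (Complex.norm_exp_ofReal_mul_I _).le⟩

/-- The side pairing of the `4g`-gon given by the word `[a_1,b_1] ... [a_g,b_g]`. -/
def sideRel (g : ℕ) (z w : Disc) : Prop :=
  ∃ i : Fin g, ∃ t ∈ Icc (0 : ℝ) 1,
    (z = bd (4 * g) (4 * i + t) ∧ w = bd (4 * g) (4 * i + 3 - t)) ∨
      (z = bd (4 * g) (4 * i + 1 + t) ∧ w = bd (4 * g) (4 * i + 4 - t))

/-- The closed orientable surface of genus `g`, with the quotient topology. -/
abbrev Surf (g : ℕ) : Type := Quot (sideRel g)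

/-- A homeomorphism preserves the orientation if, wherever it is given by a map `h` in the chart
of the open disc, it sends positive circles to loops of winding number one. -/
def OrPres (g : ℕ) (f : Surf g ≃ₜ Surf g) : Prop :=
  ∀ (h : ℂ → ℂ) (z : ℂ) (r : ℝ), 0 < r → ContinuousOn h (Metric.closedBall z r) →
    (∀ u ∈ Metric.closedBall z r, ∃ a b : Disc, (a : ℂ) = u ∧ (b : ℂ) = h u ∧ ‖u‖ < 1 ∧
      ‖h u‖ < 1 ∧ f (Quot.mk _ a) = Quot.mk _ b) →
    ∃ L : ℝ → ℂ, Continuous L ∧
      (∀ t : ℝ, Complex.exp (L t) = h (z + r * Complex.exp (t * Complex.I)) - h z) ∧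
      L (2 * Real.pi) - L 0 = 2 * Real.pi * Complex.I

/-- Two homeomorphisms are isotopic if they are homotopic through homeomorphisms. -/
def Isotopic {S : Type} [TopologicalSpace S] (f f' : S ≃ₜ S) : Prop :=
  ∃ H : C(I × S, S), (∀ t, IsHomeomorph fun x => H (t, x)) ∧ (∀ x, H (0, x) = f x) ∧
    ∀ x, H (1, x) = f' x

/-- The homeomorphisms isotopic to the identity. -/
def Homeo0 (S : Type) [TopologicalSpace S] : Subgroup (S ≃ₜ S) where
  carrier := {f | Isotopic 1 f}
  one_mem' := ⟨⟨Prod.snd, continuous_snd⟩, fun _ => IsHomeomorph.id, fun _ => rfl, fun _ => rfl⟩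
  mul_mem' := by
    rintro f f' ⟨H, h1, h2, h3⟩ ⟨H', h1', h2', h3'⟩
    refine ⟨⟨fun u => H (u.1, H' u), by fun_prop⟩, fun t => (h1 t).comp (h1' t), fun x => ?_,
      fun x => ?_⟩
    · exact (h2 _).trans (h2' x)
    · exact (h3 _).trans (congrArg f (h3' x))
  inv_mem' := by
    rintro f ⟨H, h1, h2, h3⟩
    refine ⟨⟨fun u => H (σ u.1, f.symm u.2), by fun_prop⟩,
      fun t => (h1 (σ t)).comp f.symm.isHomeomorph, fun x => ?_, fun x => ?_⟩
    · change H (σ 0, f.symm x) = x
      rw [symm_zero, h3, f.apply_symm_apply]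
    · change H (σ 1, f.symm x) = f.symm x
      rw [symm_one, h2]
      rfl

instance homeo0Normal (S : Type) [TopologicalSpace S] : (Homeo0 S).Normal where
  conj_mem := by
    rintro f ⟨H, h1, h2, h3⟩ k
    refine ⟨⟨fun u => k (H (u.1, k.symm u.2)), by fun_prop⟩,
      fun t => k.isHomeomorph.comp ((h1 t).comp k.symm.isHomeomorph), fun x => ?_, fun x => ?_⟩
    · change k (H (0, k.symm x)) = x
      rw [h2]
      exact k.apply_symm_apply x
    · change k (H (1, k.symm x)) = _
      rw [h3]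
      rfl

end Pool.Agent.Lib.MP_66609f_al.DN
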