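import Pool.Agent.Lib.MP_66609f_al.DN.BPoly
import Pool.Agent.Lib.MP_66609f_al.DN.Top

/-! A compact convex polygon in the Klein disc is a closed disc. -/

namespace Pool.Agent.Lib.MP_66609f_al.DN

open Real unitInterval

theorem kbd_eq_iff {N : ℕ} (hN : N ≠ 0) {x y : ℝ} : bd N x = bd N y ↔ ∃ m : ℤ, x = y + m * N := by
  have h1 : (N : ℝ) ≠ 0 := Nat.cast_ne_zero.2 hN
  rw [Subtype.ext_iff]
  refine Complex.exp_eq_exp_iff_exists_int.trans (exists_congr fun m => ?_)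
  rw [show ((2 * π * y / N : ℝ) : ℂ) * Complex.I + m * (2 * π * Complex.I) =
      (2 * π * (y + m * N) / N : ℝ) * Complex.I by
    have : (N : ℂ) ≠ 0 := Nat.cast_ne_zero.2 hN
    push_cast
    field_simp, mul_left_inj' Complex.I_ne_zero, Complex.ofReal_inj, div_left_inj' h1,
    mul_right_inj' two_pi_pos.ne']

theorem knorm_bd (N : ℕ) (x : ℝ) : ‖(bd N x : ℂ)‖ = 1 := Complex.norm_exp_ofReal_mul_I _

theorem kcontinuous_bd (N : ℕ) : Continuous (bd N) := Continuous.subtype_mk (by fun_prop) _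

theorem exists_polar {N : ℕ} (hN : N ≠ 0) (z : ℂ) :
    ∃ k < N, ∃ t : I, z = ‖z‖ • (bd N (k + t) : ℂ) := by
  have h1 : (0 : ℝ) < N := Nat.cast_pos.2 (Nat.pos_of_ne_zero hN)
  set x := N * Int.fract (z.arg / (2 * π)) with hx
  have h2 : 0 ≤ x := mul_nonneg h1.le (Int.fract_nonneg _)
  have h3 : x < N := mul_lt_of_lt_one_right h1 (Int.fract_lt_one _)
  refine ⟨⌊x⌋₊, (Nat.floor_lt h2).2 h3, ⟨x - ⌊x⌋₊, sub_nonneg.2 (Nat.floor_le h2),
    by linarith [Nat.lt_floor_add_one x]⟩, ?_⟩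
  have h4 : bd N (⌊x⌋₊ + (x - ⌊x⌋₊)) = bd N (N * (z.arg / (2 * π))) :=
    (kbd_eq_iff hN).2 ⟨-⌊z.arg / (2 * π)⌋, by rw [add_sub_cancel, hx, Int.fract]; push_cast; ring⟩
  have h5 : 2 * π * (N * (z.arg / (2 * π))) / N = z.arg := by field_simp
  change z = ‖z‖ • (bd N (⌊x⌋₊ + (x - ⌊x⌋₊)) : ℂ)
  rw [h4, bd, Subtype.coe_mk, h5, Complex.real_smul, Complex.norm_mul_exp_arg_mul_I]

/-- A compact convex polygon with vertices `p k`, side normals `ν k` and an inner point `O`. -/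
structure KPoly (N : ℕ) where
  p : ℕ → KD
  ν : ℕ → LV
  O : KD
  three : 3 ≤ N
  last : p N = p 0
  cen : ∀ k < N, lor (up O) (ν k) < 0
  left : ∀ k < N, lor (up (p k)) (ν k) = 0
  right : ∀ k < N, lor (up (p (k + 1))) (ν k) = 0
  neg : ∀ j < N, ∀ k < N, j ≠ k → j ≠ k + 1 → (j ≠ 0 ∨ k + 1 ≠ N) → lor (up (p j)) (ν k) < 0
  bdd : ∀ x : ℂ, (∀ k < N, lor (up x) (ν k) ≤ 0) → ‖x‖ < 1

theorem lor_up_comb (a : ℝ) (z z' : ℂ) (e : LV) :
    lor (up ((1 - a) • z + a • z')) e = (1 - a) * lor (up z) e + a * lor (up z') e := by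
  rw [up_comb, lor_add_left, lor_smul_left, lor_smul_left]

namespace KPoly

variable {N : ℕ} (P : KPoly N)

/-- The side `k`. -/
noncomputable def side (k : ℕ) (t : I) : KD := geo (P.p k) (P.p (k + 1)) t

theorem neg' {j k : ℕ} (hj : j ≤ N) (hk : k < N) (h1 : j ≠ k) (h2 : j ≠ k + 1)
    (h3 : j ≠ 0 ∨ k + 1 ≠ N) (h4 : j ≠ N ∨ k ≠ 0) : lor (up (P.p j)) (P.ν k) < 0 := by
  rcases hj.eq_or_lt with rfl | hj
  · rw [P.last]
    exact P.neg 0 (by omega) k hk (by omega) (by omega) (by omega)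
  · exact P.neg j hj k hk h1 h2 h3

theorem nonpos {j k : ℕ} (hj : j ≤ N) (hk : k < N) : lor (up (P.p j)) (P.ν k) ≤ 0 := by
  by_cases h1 : j = k
  · rw [h1]
    exact (P.left k hk).le
  by_cases h2 : j = k + 1
  · rw [h2]
    exact (P.right k hk).le
  by_cases h3 : j = 0 ∧ k + 1 = N
  · rw [h3.1, ← P.last, ← congrArg P.p h3.2]
    exact (P.right k hk).le
  by_cases h4 : j = N ∧ k = 0
  · rw [h4.1, P.last, h4.2]
    exact (P.left 0 (by omega)).le
  exact (P.neg' hj hk h1 h2 (by omega) (by omega)).le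

theorem of_eq_zero {j k : ℕ} (hj : j ≤ N) (hk : k < N) (h : lor (up (P.p j)) (P.ν k) = 0) :
    j = k ∨ j = k + 1 ∨ (j = 0 ∧ k + 1 = N) ∨ (j = N ∧ k = 0) := by
  by_contra hc
  exact (P.neg' hj hk (by omega) (by omega) (by omega) (by omega)).ne h

theorem exists_prev {k : ℕ} (hk : k < N) :
    ∃ l < N, lor (up (P.p k)) (P.ν l) = 0 ∧ lor (up (P.p (k + 1))) (P.ν l) < 0 := by
  have h3 := P.three
  rcases k with _ | k
  · refine ⟨N - 1, by omega, ?_, P.neg' (by omega) (by omega) (by omega) (by omega) (by omega)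
      (by omega)⟩
    have := P.right (N - 1) (by omega)
    rwa [show N - 1 + 1 = N by omega, P.last] at this
  · exact ⟨k, by omega, P.right k (by omega),
      P.neg' (by omega) (by omega) (by omega) (by omega) (by omega) (by omega)⟩

theorem exists_next {k : ℕ} (hk : k < N) :
    ∃ l < N, lor (up (P.p (k + 1))) (P.ν l) = 0 ∧ lor (up (P.p k)) (P.ν l) < 0 := by
  have h3 := P.three
  rcases (Nat.succ_le_of_lt hk).eq_or_lt with h | h
  · refine ⟨0, by omega, ?_, P.neg' (by omega) (by omega) (by omega) (by omega) (by omega)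
      (by omega)⟩
    rw [show k + 1 = N from h, P.last]
    exact P.left 0 (by omega)
  · exact ⟨k + 1, h, P.left _ h,
      P.neg' (by omega) (by omega) (by omega) (by omega) (by omega) (by omega)⟩

theorem p_inj {i j : ℕ} (hi : i ≤ N) (hj : j ≤ N) (h : P.p i = P.p j) :
    i = j ∨ (i = 0 ∧ j = N) ∨ (i = N ∧ j = 0) := by
  have h3 := P.three
  have key : ∀ {i j}, i < N → j < N → P.p i = P.p j → i = j := fun {i j} hi hj h => by
    have h1 := P.of_eq_zero hj.le hi (h ▸ P.left i hi)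
    have h2 := P.of_eq_zero hi.le hj (h ▸ P.left j hj)
    omega
  rcases hi.eq_or_lt with h1 | h1 <;> rcases hj.eq_or_lt with h2 | h2
  · omega
  · have := key (by omega) h2 (P.last.symm.trans (h1 ▸ h))
    omega
  · have := key h1 (by omega) ((h2 ▸ h).trans P.last)
    omega
  · exact Or.inl (key h1 h2 h)

theorem side_zero (k : ℕ) : P.side k 0 = P.p k := geo_zero _ _

theorem side_one (k : ℕ) : P.side k 1 = P.p (k + 1) := geo_one _ _

theorem side_nonpos {k l : ℕ} (hk : k < N) (hl : l < N) (t : I) :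
    lor (up (P.side k t)) (P.ν l) ≤ 0 := by
  rw [side, lor_up_geo]
  have h := geoPar_mem (P.p k) (P.p (k + 1)) t
  linarith [mul_nonpos_of_nonneg_of_nonpos (sub_nonneg.2 h.2) (P.nonpos hk.le hl),
    mul_nonpos_of_nonneg_of_nonpos h.1 (P.nonpos (j := k + 1) hk hl)]

theorem side_self {k : ℕ} (hk : k < N) (t : I) : lor (up (P.side k t)) (P.ν k) = 0 := by
  rw [side, lor_up_geo, P.left k hk, P.right k hk, mul_zero, mul_zero, add_zero]

theorem side_neg {k l : ℕ} (hk : k < N) (hl : l < N) (h : k ≠ l) {t : I} (h0 : t ≠ 0)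
    (h1 : t ≠ 1) : lor (up (P.side k t)) (P.ν l) < 0 := by
  have h3 := P.three
  have a0 := geoPar_lt (P.p k) (P.p (k + 1)) (unitInterval.pos_iff_ne_zero.2 h0)
  have a1 := geoPar_lt (P.p k) (P.p (k + 1)) (unitInterval.lt_one_iff_ne_one.2 h1)
  rw [Set.Icc.coe_zero, geoPar_zero] at a0
  rw [Set.Icc.coe_one, geoPar_one] at a1
  have b0 := P.nonpos hk.le hl
  have b1 := P.nonpos (j := k + 1) hk hl
  rw [side, lor_up_geo]
  rcases b0.eq_or_lt with b0 | b0
  · rcases b1.eq_or_lt with b1 | b1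
    · have := P.of_eq_zero hk.le hl b0
      have := P.of_eq_zero (j := k + 1) hk hl b1
      omega
    · rw [b0]
      linarith [mul_neg_of_pos_of_neg a0 b1]
  · linarith [mul_neg_of_pos_of_neg (sub_pos.2 a1) b0, mul_nonpos_of_nonneg_of_nonpos a0.le b1]

theorem side_injective {k : ℕ} (hk : k < N) : Function.Injective (P.side k) :=
  geo_injective fun h => by
    have := P.three
    have := P.p_inj hk.le hk h
    omega

theorem side_inj {k l : ℕ} (hk : k < N) (hl : l < N) {s t : I} (h0 : s ≠ 0) (h1 : s ≠ 1)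
    (h : P.side k s = P.side l t) : k = l ∧ s = t := by
  obtain rfl : k = l := by
    by_contra hc
    exact (P.side_neg hk hl hc h0 h1).ne (h ▸ P.side_self hl t)
  exact ⟨rfl, P.side_injective hk h⟩

theorem bd_eq_of_side {k l : ℕ} (hk : k < N) (hl : l < N) {s t : I}
    (h : P.side k s = P.side l t) : bd N (k + s) = bd N (l + t) := by
  have h3 := P.three
  have key : ∀ (k : ℕ) (s : I), s = 0 ∨ s = 1 → ∃ i, (i = k ∨ i = k + 1) ∧ P.side k s = P.p i ∧
      (k : ℝ) + s = i := by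
    rintro k s (rfl | rfl)
    · exact ⟨k, Or.inl rfl, P.side_zero k, by simp⟩
    · exact ⟨k + 1, Or.inr rfl, P.side_one k, by simp⟩
  by_cases hs : s = 0 ∨ s = 1
  swap
  · obtain ⟨rfl, rfl⟩ := P.side_inj hk hl (fun e => hs (Or.inl e)) (fun e => hs (Or.inr e)) h
    rfl
  by_cases ht : t = 0 ∨ t = 1
  swap
  · obtain ⟨rfl, rfl⟩ := P.side_inj hl hk (fun e => ht (Or.inl e)) (fun e => ht (Or.inr e)) h.symm
    rfl
  obtain ⟨i, hi, a1, a2⟩ := key k s hs
  obtain ⟨j, hj, b1, b2⟩ := key l t ht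
  rw [a2, b2, kbd_eq_iff (by omega)]
  rcases P.p_inj (by omega) (by omega) (a1.symm.trans (h.trans b1)) with e | ⟨e, e'⟩ | ⟨e, e'⟩
  · exact ⟨0, by simp [e]⟩
  · exact ⟨-1, by simp [e, e']⟩
  · exact ⟨1, by simp [e, e']⟩

theorem side_eq_of_bd {k l : ℕ} (hk : k < N) (hl : l < N) {s t : I}
    (h : bd N (k + s) = bd N (l + t)) : P.side k s = P.side l t := by
  have h3 := P.three
  have key : ∀ {k l : ℕ} {s t : I}, k < l → (l : ℝ) + t ≤ k + s → l = k + 1 ∧ s = 1 ∧ t = 0 := by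
    intro k l s t h1 h2
    have h4 : (k : ℝ) + 1 ≤ l := by exact_mod_cast h1
    have h5 : (l : ℝ) ≤ k + 1 := by linarith [s.2.2, t.2.1]
    exact ⟨by exact_mod_cast h5.antisymm h4, Subtype.ext (s.2.2.antisymm (by linarith [t.2.1])),
      Subtype.ext (le_antisymm (show (t : ℝ) ≤ 0 by linarith [s.2.2]) t.2.1)⟩
  have key2 : ∀ {k l : ℕ} {s t : I} {m : ℤ}, k < N → 0 < m → (k : ℝ) + s = l + t + m * N →
      P.side k s = P.side l t := by
    intro k l s t m hk hm e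
    have h4 : (1 : ℝ) ≤ m := by exact_mod_cast hm
    obtain ⟨a, rfl, rfl⟩ := key (k := k) (l := l + N) (s := s) (t := t) (by omega) (by
      push_cast
      nlinarith [Nat.cast_nonneg (α := ℝ) N])
    obtain rfl : l = 0 := by omega
    rw [side_one, side_zero, ← a, zero_add, P.last]
  obtain ⟨m, hm⟩ := (kbd_eq_iff (by omega)).1 h
  rcases lt_trichotomy m 0 with h1 | rfl | h1
  · exact (key2 (m := -m) hl (by omega) (by push_cast; linarith)).symm
  · rw [Int.cast_zero, zero_mul, add_zero] at hm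
    rcases lt_trichotomy k l with h1 | rfl | h1
    · obtain ⟨rfl, rfl, rfl⟩ := key h1 hm.ge
      rw [side_one, side_zero]
    · rw [Subtype.ext (add_left_cancel hm)]
    · obtain ⟨rfl, rfl, rfl⟩ := key h1 hm.le
      rw [side_one, side_zero]
  · exact key2 hk h1 hm

theorem exists_side {k : ℕ} (hk : k < N) {y : KD} (h : ∀ l < N, lor (up y) (P.ν l) ≤ 0)
    (h0 : lor (up y) (P.ν k) = 0) : ∃ t, P.side k t = y := by
  obtain ⟨l, hl, a1, a2⟩ := P.exists_prev hk
  obtain ⟨m, hm, b1, b2⟩ := P.exists_next hk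
  obtain ⟨a, b, c, e⟩ := exists_coords (P.left k hk) (P.right k hk) (P.cen k hk).ne a1 a2.ne b2.ne
    (up y)
  have h1 := h l hl
  have h2 := h m hm
  rw [e, lor_comb] at h0 h1 h2
  rw [P.left k hk, P.right k hk] at h0
  obtain rfl : c = 0 := by simpa [(P.cen k hk).ne] using h0
  rw [a1] at h1
  rw [b1] at h2
  refine mem_segment_iff.1 ⟨a, b, by nlinarith, by nlinarith, ?_, ?_⟩
  · simpa [up] using (congrArg Prod.fst e).symm
  · simpa [up] using (congrArg Prod.snd e).symm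

theorem exists_cone {x : ℂ} (h : ∀ k < N, lor (up x) (P.ν k) ≤ 0) :
    ∃ (r : I) (k : Fin N) (t : I), x = (1 - (r : ℝ)) • (P.O : ℂ) + (r : ℝ) • (P.side k t : ℂ) := by
  have h3 := P.three
  by_cases hx : x = P.O
  · exact ⟨0, ⟨0, by omega⟩, 0, by simp [hx]⟩
  have : Nonempty (Fin N) := ⟨⟨0, by omega⟩⟩
  obtain ⟨k, hk⟩ := Finite.exists_min fun k : Fin N => lor (up x) (P.ν k) / lor (up P.O) (P.ν k)
  set m := lor (up x) (P.ν k) / lor (up P.O) (P.ν k) with hm
  have h1 : 0 ≤ m := div_nonneg_of_nonpos (h k k.2) (P.cen k k.2).le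
  have h2 : ∀ l < N, lor (up x) (P.ν l) ≤ m * lor (up P.O) (P.ν l) := fun l hl =>
    (le_div_iff_of_neg (P.cen l hl)).1 (hk ⟨l, hl⟩)
  have h4 : m < 1 := by
    by_contra hc
    push Not at hc
    have h5 : 0 < ‖x - P.O‖ := norm_pos_iff.2 (sub_ne_zero.2 hx)
    have h6 := P.bdd ((1 - 2 / ‖x - P.O‖) • P.O + (2 / ‖x - P.O‖) • x) fun l hl => by
      rw [lor_up_comb]
      have := mul_nonneg (div_pos two_pos h5).le (sub_nonneg.2 ((h2 l hl).trans
        (mul_le_of_one_le_left (P.cen l hl).le hc)))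
      linarith [P.cen l hl]
    have h7 : ‖(2 / ‖x - P.O‖) • (x - P.O)‖ = 2 := by
      rw [norm_smul, Real.norm_of_nonneg (div_pos two_pos h5).le, div_mul_cancel₀ _ h5.ne']
    have h8 := norm_sub_le ((1 - 2 / ‖x - P.O‖) • (P.O : ℂ) + (2 / ‖x - P.O‖) • x) P.O
    rw [show (1 - 2 / ‖x - P.O‖) • (P.O : ℂ) + (2 / ‖x - P.O‖) • x - P.O =
      (2 / ‖x - P.O‖) • (x - P.O) by module, h7] at h8
    linarith [mem_ball_zero_iff.1 P.O.2]
  have h5 : 0 < 1 - m := sub_pos.2 h4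
  have h6 : ∀ e, (1 - m) * lor (up ((1 - (1 - m)⁻¹) • (P.O : ℂ) + (1 - m)⁻¹ • x)) e =
      lor (up x) e - m * lor (up P.O) e := fun e => by
    rw [lor_up_comb]
    field_simp
    ring
  have h7 : ∀ l < N, lor (up ((1 - (1 - m)⁻¹) • (P.O : ℂ) + (1 - m)⁻¹ • x)) (P.ν l) ≤ 0 :=
    fun l hl => nonpos_of_mul_nonpos_right (by rw [h6]; linarith [h2 l hl]) h5
  obtain ⟨t, ht⟩ := P.exists_side k.2 (y := ⟨_, mem_ball_zero_iff.2 (P.bdd _ h7)⟩) h7
    ((mul_eq_zero.1 (by rw [h6, hm, div_mul_cancel₀ _ (P.cen k k.2).ne, sub_self])).resolve_left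
      h5.ne')
  refine ⟨⟨1 - m, h5.le, by linarith⟩, k, t, ?_⟩
  rw [ht, smul_add, smul_smul, smul_smul, mul_inv_cancel₀ h5.ne', mul_sub, mul_inv_cancel₀ h5.ne']
  module

theorem exists_map : ∃ φ : C(Disc, KD), Function.Injective φ ∧
    (∀ k < N, ∀ t : I, φ (bd N (k + t)) = P.side k t) ∧
    (∀ x : KD, x ∈ Set.range φ ↔ ∀ k < N, lor (up x) (P.ν k) ≤ 0) ∧
    ∀ z : Disc, ‖(z : ℂ)‖ < 1 → ∀ k < N, lor (up (φ z)) (P.ν k) < 0 := by
  have h3 := P.three
  let q : C(I × Fin N × I, Disc) := ⟨fun a => ⟨(a.1 : ℝ) • (bd N (a.2.1 + a.2.2) : ℂ),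
    mem_closedBall_zero_iff.2 (by
      rw [norm_smul, knorm_bd, mul_one, Real.norm_of_nonneg a.1.2.1]; exact a.1.2.2)⟩,
    Continuous.subtype_mk ((continuous_subtype_val.comp continuous_fst).smul
      (continuous_subtype_val.comp ((kcontinuous_bd N).comp
        (((continuous_of_discreteTopology (f := fun k : Fin N => (k : ℝ))).comp
          continuous_snd.fst).add (continuous_subtype_val.comp continuous_snd.snd))))) _⟩
  let u : C(I × Fin N × I, KD) := ⟨fun a => ⟨(1 - (a.1 : ℝ)) • (P.O : ℂ) +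
      (a.1 : ℝ) • (P.side a.2.1 a.2.2 : ℂ),
      convex_ball (0 : ℂ) 1 P.O.2 (P.side a.2.1 a.2.2).2 (sub_nonneg.2 a.1.2.2) a.1.2.1 (by simp)⟩,
    Continuous.subtype_mk (((continuous_const.sub (continuous_subtype_val.comp continuous_fst)).smul
      continuous_const).add ((continuous_subtype_val.comp continuous_fst).smul
      (continuous_subtype_val.comp (continuous_geo
        ((continuous_of_discreteTopology (f := fun k : Fin N => P.p k)).comp continuous_snd.fst)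
        ((continuous_of_discreteTopology (f := fun k : Fin N => P.p (k + 1))).comp
          continuous_snd.fst) continuous_snd.snd)))) _⟩
  have hq : ∀ a, ‖(q a : ℂ)‖ = a.1 := fun a => by
    change ‖(a.1 : ℝ) • (bd N (a.2.1 + a.2.2) : ℂ)‖ = _
    rw [norm_smul, knorm_bd, mul_one, Real.norm_of_nonneg a.1.2.1]
  have hu : ∀ a e, lor (up (u a)) e =
      (1 - a.1) * lor (up P.O) e + a.1 * lor (up (P.side a.2.1 a.2.2)) e :=
    fun a e => lor_up_comb _ _ _ e
  have hs : Function.Surjective q := fun z => by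
    obtain ⟨k, hk, t, e⟩ := exists_polar (N := N) (by omega) z
    exact ⟨(⟨‖(z : ℂ)‖, norm_nonneg _, mem_closedBall_zero_iff.1 z.2⟩, ⟨k, hk⟩, t),
      Subtype.ext e.symm⟩
  have hf : Function.FactorsThrough u q := by
    rintro ⟨r, k, s⟩ ⟨r', l, t⟩ e
    obtain rfl : r = r' := Subtype.ext ((hq _).symm.trans ((congrArg (fun z : Disc => ‖(z : ℂ)‖)
      e).trans (hq _)))
    refine Subtype.ext ?_
    change (1 - (r : ℝ)) • (P.O : ℂ) + (r : ℝ) • (P.side k s : ℂ) =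
      (1 - (r : ℝ)) • (P.O : ℂ) + (r : ℝ) • (P.side l t : ℂ)
    by_cases hr : (r : ℝ) = 0
    · rw [hr, zero_smul, zero_smul]
    · rw [P.side_eq_of_bd k.2 l.2 (Subtype.ext (smul_right_injective ℂ hr
        (congrArg Subtype.val e)))]
  have hle : ∀ a b, u a = u b → (a.1 : ℝ) ≤ b.1 := fun a b e => by
    have h1 := hu a (P.ν a.2.1)
    rw [e, hu, P.side_self a.2.1.2] at h1
    have h2 := mul_nonpos_of_nonneg_of_nonpos b.1.2.1 (P.side_nonpos b.2.1.2 a.2.1.2 b.2.2)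
    nlinarith [P.cen _ a.2.1.2]
  have hQ : Topology.IsQuotientMap q := q.continuous.isClosedMap.isQuotientMap q.continuous hs
  have hφ : ∀ a, hQ.lift u hf (q a) = u a := fun a => DFunLike.congr_fun (hQ.lift_comp u hf) a
  refine ⟨hQ.lift u hf, fun z z' e => ?_, fun k hk t => ?_, fun x => ⟨?_, fun h => ?_⟩,
    fun z hz k hk => ?_⟩
  · obtain ⟨⟨r, k, s⟩, rfl⟩ := hs z
    obtain ⟨⟨r', l, t⟩, rfl⟩ := hs z'
    rw [hφ, hφ] at e
    obtain rfl : r = r' := Subtype.ext ((hle _ _ e).antisymm (hle _ _ e.symm))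
    refine Subtype.ext ?_
    change (r : ℝ) • (bd N (k + s) : ℂ) = (r : ℝ) • (bd N (l + t) : ℂ)
    by_cases hr : (r : ℝ) = 0
    · rw [hr, zero_smul, zero_smul]
    · rw [P.bd_eq_of_side k.2 l.2 (Subtype.ext (smul_right_injective ℂ hr
        (add_left_cancel (congrArg Subtype.val e))))]
  · have e : bd N (k + t) = q (1, ⟨k, hk⟩, t) := Subtype.ext (one_smul ℝ _).symm
    rw [e, hφ]
    exact Subtype.ext (by simp [u])
  · rintro ⟨z, rfl⟩ k hk
    obtain ⟨a, rfl⟩ := hs z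
    rw [hφ, hu]
    linarith [mul_nonpos_of_nonneg_of_nonpos (sub_nonneg.2 a.1.2.2) (P.cen k hk).le,
      mul_nonpos_of_nonneg_of_nonpos a.1.2.1 (P.side_nonpos a.2.1.2 hk a.2.2)]
  · obtain ⟨r, k, t, e⟩ := P.exists_cone h
    exact ⟨q (r, k, t), (hφ _).trans (Subtype.ext e.symm)⟩
  · obtain ⟨a, rfl⟩ := hs z
    rw [hq] at hz
    rw [hφ, hu]
    linarith [mul_neg_of_pos_of_neg (sub_pos.2 hz) (P.cen k hk),
      mul_nonpos_of_nonneg_of_nonpos a.1.2.1 (P.side_nonpos a.2.1.2 hk a.2.2)]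

end KPoly

end Pool.Agent.Lib.MP_66609f_al.DN
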