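import Pool.Agent.Lib.MP_66609f_al.DN.BCone
import Pool.Agent.Lib.MP_66609f_al.DN.BRad
import Pool.Agent.Lib.MP_66609f_al.DN.BAlg

/-! The polygon with opposite sides identified is a fundamental domain of the surface group. -/

namespace Pool.Agent.Lib.MP_66609f_al.DN

open unitInterval

/-- The colour of the side `k`. -/
def cZ (k : ℤ) : Multiplicative (ZMod 2 × ZMod 2) :=
  Multiplicative.ofAdd (if k % 2 = 0 then (1, 0) else (0, 1))

/-- The colour of a half-turn. -/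
def cO : Multiplicative (ZMod 2 × ZMod 2) := Multiplicative.ofAdd (1, 1)

theorem cZ_congr {j k : ℤ} (h : j % 2 = k % 2) : cZ j = cZ k := by rw [cZ, cZ, h]

theorem cZ_cases (k : ℤ) : (cZ k = .ofAdd (1, 0) ∧ cZ (k + 1) = .ofAdd (0, 1)) ∨
    (cZ k = .ofAdd (0, 1) ∧ cZ (k + 1) = .ofAdd (1, 0)) := by
  unfold cZ
  by_cases h : k % 2 = 0
  · rw [if_pos h, if_neg (by omega)]; simp
  · rw [if_neg h, if_pos (by omega)]; simp

theorem cZ_mul_self (k : ℤ) : cZ k * cZ k = 1 := by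
  rcases cZ_cases k with h | h <;> rw [h.1] <;> decide

theorem cZ_mul_succ (k : ℤ) : cZ k * cZ (k + 1) = cO := by
  rcases cZ_cases k with h | h <;> rw [h.1, h.2] <;> decide

theorem cO_mul (k : ℤ) : cO * cZ k = cZ (k + 1) := by
  rcases cZ_cases k with h | h <;> rw [h.1, h.2] <;> decide

theorem cO_mul_self : cO * cO = 1 := by decide

variable {n : ℕ} [hn : Fact (5 ≤ n)] {m : ℤ}

theorem mem_chamber {x : KD} : x ∈ chamber n ↔ PC n (up x) := pc_iff.symm

theorem exists_up_smul (w : W n) (x : KD) :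
    ∃ c : ℝ, 0 < c ∧ ∀ e, lor (up (w • x : KD)) e = c * lor (rho n w (up x)) e :=
  ⟨_, inv_pos.2 ((fut_up x).rho w).1, fun e => by rw [up_smul, lor_smul_left]⟩

theorem lor_up_smul_nonpos {w : W n} {x : KD} {e : LV} :
    lor (up (w • x : KD)) e ≤ 0 ↔ lor (rho n w (up x)) e ≤ 0 := by
  obtain ⟨c, hc, h⟩ := exists_up_smul w x
  rw [h]
  exact ⟨fun h => nonpos_of_mul_nonpos_right h hc, mul_nonpos_of_nonneg_of_nonpos hc.le⟩

theorem lor_up_smul_zero {w : W n} {x : KD} {e : LV} :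
    lor (up (w • x : KD)) e = 0 ↔ lor (rho n w (up x)) e = 0 := by
  obtain ⟨c, hc, h⟩ := exists_up_smul w x
  rw [h, mul_eq_zero, or_iff_right hc.ne']

theorem lor_up_smul_neg {w : W n} {x : KD} {e : LV} :
    lor (up (w • x : KD)) e < 0 ↔ lor (rho n w (up x)) e < 0 := by
  rw [lt_iff_le_and_ne, lt_iff_le_and_ne, lor_up_smul_nonpos, Ne, Ne, lor_up_smul_zero]

theorem fc_smul {w : W n} {x : KD} : FC n (up (w • x : KD)) ↔ FC n (rho n w (up x)) := by
  simp only [FC, lor_up_smul_nonpos]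

theorem gc_smul {w : W n} {x : KD} : GC n m (up (w • x : KD)) ↔ GC n m (rho n w (up x)) := by
  simp only [GC, ← lor_rho_zW, lor_up_smul_nonpos]

theorem sZ_smul_smul (k : ℤ) (x : KD) : sZ n k • sZ n k • x = x := by
  rw [smul_smul, sZ_mul_self, one_smul]

theorem zW_smul_smul (x : KD) : zW n m • zW n m • x = x := by
  rw [smul_smul, zW_mul_self, one_smul]

theorem exists_piece {x : KD} (h : FC n (up x)) : x ∈ chamber n ∨ ∃ i : ℤ, ∃ y ∈ chamber n,
    0 ≤ i ∧ i + 2 < n ∧ Tri n i (up y) ∧ lor (up y) (rootZ n (i + 1)) < 0 ∧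
      x = sZ n (i + 1) • y := by
  rcases h.cases with h | ⟨i, h0, h1, h2, h3⟩
  · exact Or.inl (mem_chamber.2 h)
  have h4 : Tri n i (up (sZ n (i + 1) • x : KD)) := by
    rw [up_smul]
    exact h3.smul (inv_pos.2 ((fut_up x).rho _).1).le
  exact Or.inr ⟨i, _, mem_chamber.2 (h4.pc h0 h1), h0, h1, h4, lor_up_smul_neg.2 (by
    rw [lor_sZ_self]; linarith), (sZ_smul_smul _ x).symm⟩

/-- The point lies on the line of one of the first `m` sides. -/
def Sd (n : ℕ) (m : ℤ) (x : KD) : Prop := ∃ k : ℤ, 0 ≤ k ∧ k < m ∧ lor (up x) (nuV n k) = 0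

theorem sd_vtx (hm : m + 2 = n) {j : ℤ} (j0 : 0 ≤ j) (j1 : j ≤ m) : Sd n m (sZ n j • vtx n 0) := by
  have h5 := hn.1
  rcases j1.eq_or_lt with rfl | j1
  · obtain ⟨k, rfl⟩ : ∃ k, j = k + 1 := ⟨j - 1, by ring⟩
    exact ⟨k, by omega, by omega, lor_up_smul_zero.2 (lor_pV_succ k)⟩
  · exact ⟨j, j0, j1, lor_up_smul_zero.2 (lor_pV_self j)⟩

theorem sd_zero (hm : m + 2 = n) {x : KD} (h : lor (up x) (rootZ n 0) = 0) : Sd n m x :=
  ⟨0, le_rfl, by have := hn.1; omega, by rw [lor_nuV_zero, h, mul_zero]⟩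

section Col

variable {col : W n →* Multiplicative (ZMod 2 × ZMod 2)} (hcol : ∀ k : ℤ, col (sZ n k) = cZ k)
include hcol

theorem wall_of_col {x : KD} (hx : x ∈ chamber n) {w : W n} (hw : w • x ∈ chamber n) (k : ℤ)
    (h : col w = cZ k ∨ col w = cO) :
    ∃ j : ℤ, 0 ≤ j ∧ j < n ∧ j % 2 = k % 2 ∧ lor (up x) (rootZ n j) = 0 := by
  by_contra hc
  have key : ∀ w ∈ WJ {i : ZMod n | ell i x = 0}, col w = 1 ∨ col w = cZ (k + 1) := by
    intro w hw
    induction hw using Subgroup.closure_induction with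
    | mem w hw =>
      obtain ⟨i, hi, rfl⟩ := hw
      have e : i = ((i.val : ℤ) : ZMod n) := by simp
      have h1 : lor (up x) (rootZ n i.val) = 0 := by rw [← root_intCast, ← e]; exact hi
      have h2 : (i.val : ℤ) % 2 ≠ k % 2 := fun h2 =>
        hc ⟨i.val, by omega, by have := i.val_lt; omega, h2, h1⟩
      exact Or.inr ((congrArg (fun i => col (sg i)) e).trans ((hcol _).trans (cZ_congr (by omega))))
    | one => exact Or.inl (map_one _)
    | mul u v _ _ hu hv =>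
      rw [map_mul]
      rcases hu with hu | hu <;> rcases hv with hv | hv <;> simp [hu, hv, cZ_mul_self]
    | inv u _ hu =>
      rw [map_inv]
      rcases hu with hu | hu <;> rw [hu]
      · exact Or.inl inv_one
      · exact Or.inr (inv_eq_of_mul_eq_one_right (cZ_mul_self _))
  have h1 := key w (chamber_stab hx hw).2
  rcases cZ_cases k with ⟨a, b⟩ | ⟨a, b⟩ <;> rw [a] at h <;> rw [b] at h1 <;>
    rcases h with h | h <;> rw [h] at h1 <;> exact absurd h1 (by decide)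

theorem vtx_of_col {x : KD} (hx : x ∈ chamber n) {w : W n}
    (hw : w • x ∈ chamber n) {i : ℤ} (h0 : 0 ≤ i) (h1 : i + 2 < n) (ht : Tri n i (up x))
    (hl : lor (up x) (rootZ n (i + 1)) < 0) (h : col w = cZ (i + 1) ∨ col w = cO) :
    x = vtx n 0 := by
  obtain ⟨j, j0, j1, j2, j3⟩ := wall_of_col hcol hx hw _ h
  exact (ht.wall h0 h1 hl j0 j1 j3).resolve_right (by omega)

theorem eq_of_fc (hm : m + 2 = n) {x x' : KD} (hx : FC n (up x))
    (hx' : FC n (up x')) {γ : W n} (hγ : col γ = 1) (e : γ • x = x') :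
    x = x' ∨ ∃ j : ℤ, 0 ≤ j ∧ j ≤ m ∧ x = sZ n j • vtx n 0 := by
  rcases exists_piece hx with hx | ⟨i, y, hy, i0, i1, i2, i3, rfl⟩ <;>
    rcases exists_piece hx' with hx' | ⟨j, y', hy', j0, j1, j2, j3, rfl⟩
  · exact Or.inl ((chamber_stab hx (e ▸ hx')).1.symm.trans e)
  · have h3 : (sZ n (j + 1) * γ) • x = y' := by rw [mul_smul, e, sZ_smul_smul]
    obtain rfl := (chamber_stab hx (h3 ▸ hy')).1.symm.trans h3
    exact Or.inr ⟨0, le_rfl, by omega, (vtx_of_col hcol hx (h3.symm ▸ hx) j0 j1 j2 j3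
      (Or.inl (by rw [map_mul, hγ, hcol, mul_one]))).trans (sZ_smul_eq (z := vtx n 0) (lor_uV_self 0)).symm⟩
  · rw [smul_smul] at e
    exact Or.inr ⟨i + 1, by omega, by omega, by
      rw [vtx_of_col hcol hy (e ▸ hx') i0 i1 i2 i3
        (Or.inl (by rw [map_mul, hγ, hcol, one_mul]))]⟩
  · have h3 : (sZ n (j + 1) * γ * sZ n (i + 1)) • y = y' := by
      rw [mul_smul, mul_smul, e, sZ_smul_smul]
    obtain rfl := (chamber_stab hy (h3 ▸ hy')).1.symm.trans h3
    by_cases hij : i = j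
    · exact Or.inl (by rw [hij])
    refine Or.inr ⟨i + 1, by omega, by omega, congrArg _ ?_⟩
    by_cases hp : i % 2 = j % 2
    · rcases lt_or_gt_of_ne hij with h | h
      · exact i2.far i0 (by omega) j1 j2
      · exact j2.far j0 (by omega) i1 i2
    · exact vtx_of_col hcol hy (h3.symm ▸ hy) i0 i1 i2 i3 (Or.inr (by
        rw [map_mul, map_mul, hγ, hcol, hcol, mul_one, cZ_congr (j := i + 1) (k := j + 1 + 1)
          (by omega), cZ_mul_succ]))

theorem eq_of_fc' (hm : m + 2 = n) {x x' : KD} (hx : FC n (up x))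
    (hx' : FC n (up x')) {γ : W n} (hγ : col γ = cO) (e : γ • x = x') :
    x' = zW n m • x ∨ Sd n m x := by
  rcases exists_piece hx with hx | ⟨i, y, hy, i0, i1, i2, i3, rfl⟩ <;>
    rcases exists_piece hx' with hx' | ⟨j, y', hy', j0, j1, j2, j3, rfl⟩
  · obtain ⟨a, a0, a1, a2, a3⟩ := wall_of_col hcol hx (e ▸ hx') 0 (Or.inr hγ)
    obtain ⟨b, b0, b1, b2, b3⟩ := wall_of_col hcol hx (e ▸ hx') 1 (Or.inr hγ)
    by_cases ha : a = 0
    · exact Or.inr (sd_zero hm (ha ▸ a3))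
    obtain ⟨k, k0, k1, k2, k3⟩ : ∃ k : ℤ, 0 ≤ k ∧ k ≤ m ∧ lor (up x) (rootZ n k) = 0 ∧
        lor (up x) (rootZ n (k + 1)) = 0 := by
      by_cases h : b = a + 1
      · exact ⟨a, a0, by omega, a3, h ▸ b3⟩
      by_cases h' : a = b + 1
      · exact ⟨b, b0, by omega, b3, h' ▸ a3⟩
      exfalso
      rcases le_total a b with h | h
      · linarith [(fut_up x).nonadjZ (n := n) (j := b) (k := a) (by omega) (by omega)]
      · linarith [(fut_up x).nonadjZ (n := n) (j := a) (k := b) (by omega) (by omega)]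
    rcases k1.eq_or_lt with rfl | k1
    · exact Or.inl (by
        rw [zW, mul_smul, sZ_smul_eq k3, sZ_smul_eq k2, ← e, (chamber_stab hx (e ▸ hx')).1])
    · exact Or.inr ⟨k, k0, k1, by rw [lor_nuV, k2, k3, mul_zero, mul_zero, add_zero]⟩
  · have h3 : (sZ n (j + 1) * γ) • x = y' := by rw [mul_smul, e, sZ_smul_smul]
    obtain rfl := (chamber_stab hx (h3 ▸ hy')).1.symm.trans h3
    obtain ⟨a, a0, a1, -, a3⟩ := wall_of_col hcol hx (h3.symm ▸ hx) _
      (Or.inl (by rw [map_mul, hγ, hcol, mul_comm, cO_mul]))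
    rcases j2.wall j0 j1 j3 a0 a1 a3 with rfl | ⟨rfl, -⟩ | ⟨rfl, h⟩
    · exact Or.inr (sd_zero hm (lor_uV_self 0))
    · exact Or.inr (sd_zero hm a3)
    · obtain rfl : m = j + 1 := by omega
      exact Or.inl (by rw [zW, mul_smul, sZ_smul_eq a3])
  · rw [smul_smul] at e
    obtain rfl := (chamber_stab hy (e ▸ hx')).1.symm.trans e
    obtain ⟨a, a0, a1, -, a3⟩ := wall_of_col hcol hy (e.symm ▸ hy) _
      (Or.inl (by rw [map_mul, hγ, hcol, cO_mul]))
    rcases i2.wall i0 i1 i3 a0 a1 a3 with rfl | ⟨rfl, rfl⟩ | ⟨rfl, h⟩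
    · exact Or.inr (sd_vtx hm (by omega) (by omega))
    · exact Or.inr (sd_zero hm (lor_up_smul_zero.2 ((lor_sZ_pred 0 _).trans a3)))
    · obtain rfl : m = i + 1 := by omega
      exact Or.inl (by rw [smul_smul, zW_mul, sZ_smul_eq a3])
  · have h3 : (sZ n (j + 1) * γ * sZ n (i + 1)) • y = y' := by
      rw [mul_smul, mul_smul, e, sZ_smul_smul]
    obtain rfl := (chamber_stab hy (h3 ▸ hy')).1.symm.trans h3
    right
    by_cases h4 : j = i + 1
    · subst h4
      exact ⟨i + 1, j0, by omega, lor_up_smul_zero.2 (by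
        rw [lor_sZ_nuV, (j2.mV_nonpos j0 j1).antisymm (i2.mV_nonneg i0 i1), neg_zero])⟩
    by_cases h5 : i = j + 1
    · subst h5
      exact ⟨j + 1, i0, by omega, lor_up_smul_zero.2 (by
        rw [lor_sZ_nuV', (i2.mV_nonpos i0 i1).antisymm (j2.mV_nonneg j0 j1)])⟩
    suffices h : y = vtx n 0 from h ▸ sd_vtx hm (by omega) (by omega)
    rcases lt_trichotomy i j with h | rfl | h
    · exact i2.far i0 (by omega) j1 j2
    · exact vtx_of_col hcol hy (h3.symm ▸ hy) i0 i1 i2 i3 (Or.inr (by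
        rw [map_mul, map_mul, hγ, hcol, mul_right_comm, cZ_mul_self, one_mul]))
    · exact j2.far j0 (by omega) i1 i2

omit hn in
theorem col_zW : col (zW n m) = cO := by rw [zW, map_mul, hcol, hcol, cZ_mul_succ]

theorem eq_of_gc (hm : m + 2 = n) {x x' : KD} (hx : GC n m (up x))
    (h3 : ¬Sd n m x) (h4 : ¬Sd n m (zW n m • x)) (hx' : GC n m (up x')) {γ : W n} (hγ : col γ = 1)
    (e : γ • x = x') : x = x' := by
  rcases hx.cases hm with hx | hx <;> rcases hx'.cases hm with hx' | hx'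
  · exact (eq_of_fc hcol hm hx hx' hγ e).resolve_right fun ⟨j, j0, j1, h⟩ =>
      h3 (h ▸ sd_vtx hm j0 j1)
  · exact (smul_left_cancel _ ((eq_of_fc' hcol hm hx (fc_smul.2 hx') (γ := zW n m * γ)
      (by rw [map_mul, hγ, col_zW hcol, mul_one]) (by rw [mul_smul, e])).resolve_right h3)).symm
  · rw [(eq_of_fc' hcol hm (fc_smul.2 hx) hx' (γ := γ * zW n m)
      (by rw [map_mul, hγ, col_zW hcol, one_mul])
      (by rw [mul_smul, zW_smul_smul, e])).resolve_right h4, zW_smul_smul]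
  · exact smul_left_cancel _ ((eq_of_fc hcol hm (fc_smul.2 hx) (fc_smul.2 hx')
      (γ := zW n m * γ * zW n m) (by rw [map_mul, map_mul, hγ, col_zW hcol, mul_one, cO_mul_self])
      (by rw [mul_smul, mul_smul, zW_smul_smul, e])).resolve_right fun ⟨j, j0, j1, h⟩ =>
        h4 (h ▸ sd_vtx hm j0 j1))

theorem exists_gc (hm : m + 2 = n) (x : KD) :
    ∃ (γ : W n) (y : KD), col γ = 1 ∧ GC n m (up y) ∧ x = γ • y := by
  obtain ⟨w, y, hy, rfl⟩ := exists_chamber (n := n) x
  have h1 := mem_chamber.1 hy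
  obtain ⟨i, i0, i1, h2⟩ := h1.exists_tri
  obtain ⟨r, h3, h4⟩ : ∃ r, col r = col w ∧ GC n m (rho n r (up y)) := by
    have h : col w = 1 ∨ col w = cZ (i + 1) ∨ col w = cO ∨ col w = cZ (i + 1 + 1) := by
      generalize col w = c
      rcases cZ_cases (i + 1) with ⟨a, b⟩ | ⟨a, b⟩ <;> rw [a, b] <;> revert c <;> decide
    rcases h with h | h | h | h <;> rw [h]
    · exact ⟨1, map_one _, by rw [rho_one]; exact h1.gc hm⟩
    · exact ⟨_, hcol _, h2.gc hm i0 i1⟩
    · exact ⟨_, col_zW hcol, (h1.gc hm).zW⟩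
    · exact ⟨zW n m * sZ n (i + 1), by rw [map_mul, col_zW hcol, hcol, cO_mul],
        by rw [rho_mul]; exact (h2.gc hm i0 i1).zW⟩
  exact ⟨w * r⁻¹, r • y, by rw [map_mul, map_inv, h3, mul_inv_cancel], gc_smul.2 h4, by
    rw [mul_smul, inv_smul_smul]⟩

end Col

variable {g : ℕ} [Fact (2 ≤ g)]

omit [Fact (2 ≤ g)] in
theorem colW_sZ (k : ℤ) : colW g (sZ (2 * g + 2) k) = cZ k := by
  have h := ZMod.val_intCast (n := 2 * g + 2) k
  have h1 : k % ((2 * g + 2 : ℕ) : ℤ) % 2 = k % 2 :=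
    Int.emod_emod_of_dvd k ⟨g + 1, by push_cast; ring⟩
  rw [sZ, colW_sg, colZ, cZ]
  by_cases hk : k % 2 = 0
  · rw [if_pos hk, if_pos (by omega)]
  · rw [if_neg hk, if_neg (by omega)]

omit [Fact (2 ≤ g)] in
theorem two_mul_add (g : ℕ) : (2 * g : ℤ) + 2 = (2 * g + 2 : ℕ) := by omega

theorem rho_tW (c : ZMod 2 × ZMod 2) :
    rho (2 * g + 2) (tW g c) (uV (2 * g + 2) 0) = uV (2 * g + 2) 0 := by
  have h0 : rho (2 * g + 2) (sg 0) (uV (2 * g + 2) 0) = uV (2 * g + 2) 0 := by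
    simpa [sZ] using rho_sZ_eq (lor_uV_self (n := 2 * g + 2) 0)
  have h1 : rho (2 * g + 2) (sg (-1)) (uV (2 * g + 2) 0) = uV (2 * g + 2) 0 := by
    simpa [sZ] using rho_sZ_eq (lor_uV_succ (n := 2 * g + 2) (-1))
  rcases four_cases c with rfl | rfl | rfl | rfl
  · rw [tW_zero, rho_one]
  · rw [tW_10, h0]
  · rw [tW_01, h1]
  · rw [tW_11, rho_mul, h1, h0]

theorem rho_pre_left {k : ℕ} (hk : k ≤ 2 * g) :
    rho (2 * g + 2) (pre (gen g) k).1 (uV (2 * g + 2) 0) = pV (2 * g + 2) k := by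
  rw [coe_pre_left hk, wA, rho_mul, rho_tW, pV, sZ, Int.cast_natCast]

theorem rho_pre_right {k : ℕ} (hk : k ≤ 2 * g) :
    rho (2 * g + 2) (pre (gen g) (2 * g + k)).1 (uV (2 * g + 2) 0) =
      rho (2 * g + 2) (zW (2 * g + 2) (2 * g)) (pV (2 * g + 2) k) := by
  have e : wA ((2 * g : ℕ) : ZMod (2 * g + 2)) * tW g (1, 1) = zW (2 * g + 2) (2 * g) := by
    rw [wA, colZ_two_mul, tW_10, tW_11, mul_assoc, ← mul_assoc (sg 0), sg_mul_self, one_mul,
      ← cast_last, zW, sZ, sZ]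
    push_cast
    rfl
  rw [coe_pre_right hk, wB, ← mul_assoc, ← mul_assoc, e, rho_mul, rho_mul, rho_tW, pV, sZ,
    Int.cast_natCast]

/-- The normals of the sides of the polygon. -/
noncomputable def nuG (g : ℕ) [Fact (2 ≤ g)] (k : ℕ) : LV :=
  if k < 2 * g then nuV (2 * g + 2) k
  else rho (2 * g + 2) (zW (2 * g + 2) (2 * g)) (nuV (2 * g + 2) (k - 2 * g : ℕ))

theorem nuG_left {k : ℕ} (hk : k < 2 * g) : nuG g k = nuV (2 * g + 2) k := if_pos hk

theorem nuG_right (k : ℕ) :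
    nuG g (2 * g + k) = rho (2 * g + 2) (zW (2 * g + 2) (2 * g)) (nuV (2 * g + 2) k) := by
  rw [nuG, if_neg (by omega), Nat.add_sub_cancel_left]

omit [Fact (2 ≤ g)] in
theorem half_cases {k : ℕ} (hk : k < 2 * g + 2 * g) :
    k < 2 * g ∨ ∃ l < 2 * g, k = 2 * g + l :=
  (Nat.lt_or_ge k (2 * g)).imp_right fun h => ⟨k - 2 * g, by omega, by omega⟩

theorem forall_nuG {p : ℝ → Prop} {v : LV} : (∀ k < 2 * g + 2 * g, p (lor v (nuG g k))) ↔
    ∀ k : ℤ, 0 ≤ k → k < 2 * g → p (lor v (nuV (2 * g + 2) k)) ∧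
      p (lor (rho (2 * g + 2) (zW (2 * g + 2) (2 * g)) v) (nuV (2 * g + 2) k)) := by
  refine ⟨fun h k k0 k1 => ?_, fun h k hk => ?_⟩
  · lift k to ℕ using k0
    rw [← lor_rho_zW, ← nuG_right, ← nuG_left (by omega)]
    exact ⟨h _ (by omega), h _ (by omega)⟩
  · rcases half_cases hk with hk | ⟨k, hk, rfl⟩
    · rw [nuG_left hk]
      exact (h k (by omega) (by omega)).1
    · rw [nuG_right, lor_rho_zW]
      exact (h k (by omega) (by omega)).2

/-- The fundamental polygon. -/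
noncomputable def fund (g : ℕ) [hg : Fact (2 ≤ g)] : KPoly (2 * g + 2 * g) where
  p k := (pre (gen g) k).1 • vtx (2 * g + 2) 0
  ν := nuG g
  O := vtx (2 * g + 2) (2 * g + 1)
  three := by have := hg.1; omega
  last := by rw [pre_gen_last, pre_zero]
  cen := (forall_nuG (p := (· < 0))).2 fun k k0 k1 => by
    rw [up_vtx, zW_cen, and_self]
    exact lor_cen (two_mul_add g) k0 k1
  left k hk := by
    rw [lor_up_smul_zero, up_vtx]
    rcases half_cases hk with h | ⟨k, h, rfl⟩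
    · rw [rho_pre_left h.le, nuG_left h, lor_pV_self]
    · rw [rho_pre_right h.le, nuG_right, lor_rho, lor_pV_self]
  right k hk := by
    rw [lor_up_smul_zero, up_vtx]
    rcases half_cases hk with h | ⟨k, h, rfl⟩
    · rw [rho_pre_left h, nuG_left h, Nat.cast_succ, lor_pV_succ]
    · rw [add_assoc, rho_pre_right h, nuG_right, lor_rho, Nat.cast_succ, lor_pV_succ]
  neg j hj k hk h1 h2 h3 := by
    rw [lor_up_smul_neg, up_vtx]
    rcases half_cases hk with hk | ⟨k, hk, rfl⟩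
    · rw [nuG_left hk]
      rcases Nat.lt_or_ge (2 * g) j with h | h
      · obtain ⟨j, rfl⟩ := Nat.exists_eq_add_of_le h.le
        rw [rho_pre_right (by omega)]
        exact lor_zW_pV_neg (two_mul_add g) (by omega) (by omega) (by omega) (by omega)
      · rw [rho_pre_left h]
        exact lor_pV_neg (by omega) (by omega) (by omega) (by omega) (by omega) (by omega)
    · rw [nuG_right]
      rcases half_cases hj with hj | ⟨j, hj', rfl⟩
      · rcases Nat.eq_zero_or_pos j with rfl | h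
        · rw [pre_zero, ← pre_gen_last, rho_pre_right le_rfl, lor_rho]
          exact lor_pV_neg (by omega) (by omega) (by omega) (by omega) (by omega) (by omega)
        · rw [rho_pre_left hj.le, lor_rho_zW]
          exact lor_zW_pV_neg (two_mul_add g) (by omega) (by omega) (by omega) (by omega)
      · rw [rho_pre_right hj'.le, lor_rho]
        exact lor_pV_neg (by omega) (by omega) (by omega) (by omega) (by omega) (by omega)
  bdd x h := fut_up_iff.1
    (GC.fut (two_mul_add g) ((forall_nuG (p := (· ≤ 0))).1 h) (up_ne_zero x))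

theorem fund_p {k : ℕ} (hk : k ≤ 2 * g) : (fund g).p k = sZ (2 * g + 2) k • vtx (2 * g + 2) 0 :=
  Subtype.ext (congrArg pr (rho_pre_left hk))

theorem fc_side {k : ℕ} (hk : k < 2 * g) (t : I) : FC (2 * g + 2) (up ((fund g).side k t)) := by
  have key : ∀ j ≤ 2 * g, FC (2 * g + 2) (up ((fund g).p j)) := fun j hj => by
    rw [fund_p hj, fc_smul]
    exact fc_pV (by omega) (by omega)
  intro l l0 l1
  have h := geoPar_mem ((fund g).p k) ((fund g).p (k + 1)) t
  rw [KPoly.side, lor_up_geo]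
  exact add_nonpos (mul_nonpos_of_nonneg_of_nonpos (sub_nonneg.2 h.2) (key k hk.le l l0 l1))
    (mul_nonpos_of_nonneg_of_nonpos h.1 (key (k + 1) hk l l0 l1))

theorem pre_smul_geo {k : ℕ} {d : Fin (2 * g) × Bool} (h : (oppWord g)[k]? = some d) (t : I) :
    pre (gen g) k • geo (vtx (2 * g + 2) 0) (val (gen g) [d] • vtx (2 * g + 2) 0) t =
      (fund g).side k t := by
  rw [Subgroup.smul_def, smul_geo, ← Subgroup.smul_def, ← Subgroup.smul_def, smul_smul,
    ← pre_succ _ h]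
  rfl

theorem geoMark_gen (g : ℕ) [Fact (2 ≤ g)] : GeoMark KD (oppWord g) (gen g) := by
  obtain ⟨φ, h1, h2, h3, h4⟩ := (fund g).exists_map
  have hv : ∀ y, val (gen g) [(y, true)] = gen g y := fun y => FreeGroup.lift_apply_of
  have hG : ∀ z, GC (2 * g + 2) (2 * g) (up (φ z)) := fun z =>
    (forall_nuG (p := (· ≤ 0))).1 ((h3 _).1 ⟨z, rfl⟩)
  refine ⟨⟨vtx (2 * g + 2) 0, fun y => ⟨geo (vtx (2 * g + 2) 0) (gen g y • vtx (2 * g + 2) 0),
    continuous_geo continuous_const continuous_const continuous_id⟩, φ, fun y => geo_zero _ _,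
    fun y => geo_one _ _, fun l d r e t => ?_, fun x => ?_, fun γ z z' hz e => h1 ?_,
    fun γ y y' s t s0 s1 e => ?_⟩⟩
  · have a : (oppWord g)[l.length]? = some d := by simp [e]
    have b : val (gen g) l = pre (gen g) l.length := by simp [pre, e]
    have c : l.length < 2 * g + 2 * g := by simp [← length_oppWord, e]
    rw [length_oppWord, h2 _ c, b, ← pre_smul_geo a]
    congr 1
    rcases d with ⟨y, _ | _⟩
    · rw [show val (gen g) [(y, false)] = (gen g y)⁻¹ by simp [val], ← geo_symm]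
      change _ = (gen g y)⁻¹ • geo _ _ _
      rw [Subgroup.smul_def _ (geo _ _ _), smul_geo, ← Subgroup.smul_def, ← Subgroup.smul_def,
        inv_smul_smul]
    · rw [hv]
      rfl
  · obtain ⟨γ, y, a, b, rfl⟩ := exists_gc colW_sZ (two_mul_add g) x
    obtain ⟨z, rfl⟩ := (h3 y).2 ((forall_nuG (p := (· ≤ 0))).2 b)
    exact ⟨⟨γ, a⟩, z, rfl⟩
  · have a := (forall_nuG (p := (· < 0))).1 (h4 z hz)
    exact eq_of_gc colW_sZ (two_mul_add g) (hG z)
      (fun ⟨k, k0, k1, h⟩ => (a k k0 k1).1.ne h)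
      (fun ⟨k, k0, k1, h⟩ => (a k k0 k1).2.ne (lor_up_smul_zero.1 h)) (hG z') γ.2 e
  · have a := fun (y : Fin (2 * g)) => pre_smul_geo (oppWord_left y.2)
    simp only [Fin.eta, hv] at a
    have b : (pre (gen g) y' * γ * (pre (gen g) y)⁻¹) • (fund g).side y s = (fund g).side y' t := by
      rw [← a, ← a, mul_smul, mul_smul, inv_smul_smul]
      exact congrArg _ e
    rcases eq_of_fc colW_sZ (two_mul_add g) (fc_side y.2 s) (fc_side y'.2 t)
      (pre (gen g) y' * γ * (pre (gen g) y)⁻¹).2 b with h | ⟨j, j0, j1, h⟩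
    · exact ((fund g).side_inj (by omega) (by omega) s0 s1 h).imp_left Fin.ext
    · lift j to ℕ using j0
      rw [← fund_p (by omega), ← KPoly.side_zero] at h
      exact absurd ((fund g).side_inj (by omega) (by have := y.2; omega) s0 s1 h).2 s0

instance kerCancel : IsCancelSMul (colW g).ker KD :=
  isCancelSMul_iff_eq_one_of_smul_eq.2 fun γ _ h => Subtype.ext (eq_one_of_col γ.2 h)

instance kdLocCompact : LocallyCompactSpace KD := Metric.isOpen_ball.locallyCompactSpace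

instance kerCont : ContinuousConstSMul (colW g).ker KD :=
  ⟨fun γ => continuous_const_smul γ.1⟩

end Pool.Agent.Lib.MP_66609f_al.DN
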