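import Pool.Agent.Lib.MP_66609f_al.DN.E0Wall

/-! The double chambers, and the wall system of the surface group. -/

namespace Pool.Agent.Lib.MP_66609f_al.DN

open Set BE Metric Filter Topology
open scoped Pointwise ComplexConjugate

theorem exists_dsc {D : Set ℂ} (hc : Convex ℝ D) (hK : IsCompact D) (hne : (interior D).Nonempty)
    (hb : D ⊆ ball 0 1) : ∃ E : Dsc KD, E.int = Subtype.val ⁻¹' interior D ∧
      E.cl = Subtype.val ⁻¹' D ∧ E.bd = Subtype.val ⁻¹' frontier D := by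
  classical
  obtain ⟨h, h1, h2, h3⟩ :=
    exists_homeomorph_image_interior_closure_frontier_eq_unitBall hc hne hK.isBounded
  rw [hK.isClosed.closure_eq] at h2
  let j : ℂ → KD := fun z => if hz : h.symm z ∈ ball (0 : ℂ) 1 then ⟨_, hz⟩ else ⟨0, by simp⟩
  have hj : ∀ z ∈ D, (j (h z) : ℂ) = z := fun z hz => by
    have : h.symm (h z) ∈ ball (0 : ℂ) 1 := by rw [h.symm_apply_apply]; exact hb hz
    simp only [j, dif_pos this, h.symm_apply_apply]
  have him : ∀ T ⊆ D, j '' (h '' T) = Subtype.val ⁻¹' T := fun T hT => by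
    ext x
    constructor
    · rintro ⟨_, ⟨z, hz, rfl⟩, rfl⟩
      rwa [mem_preimage, hj z (hT hz)]
    · exact fun hx => ⟨_, ⟨x, hx, rfl⟩, Subtype.ext (hj _ (hT hx))⟩
  have hj' : EqOn (Subtype.val ∘ j) h.symm (closedBall 0 1) := by
    rw [← h2]
    rintro _ ⟨z, hz, rfl⟩
    rw [Function.comp_apply, hj z hz, h.symm_apply_apply]
  refine ⟨⟨j, IsInducing.subtypeVal.continuousOn_iff.2 (h.symm.continuous.continuousOn.congr hj'),
    fun a ha b hb e => h.symm.injective ?_, ?_⟩, ?_, ?_, ?_⟩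
  · rw [← hj' ha, ← hj' hb, Function.comp_apply, e, Function.comp_apply]
  · have := him _ interior_subset
    rw [h1] at this
    rw [this]
    exact isOpen_interior.preimage continuous_subtype_val
  · exact (congrArg (j '' ·) h1.symm).trans (him _ interior_subset)
  · exact (congrArg (j '' ·) h2.symm).trans (him _ subset_rfl)
  · exact (congrArg (j '' ·) h3.symm).trans (him _ hK.isClosed.frontier_subset)

theorem lor_neg_of_interior {e : LV} (he : lor e e = 1) {S : Set ℂ}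
    (hS : ∀ z ∈ S, lor (up z) e ≤ 0) {z : ℂ} (hz : z ∈ interior S) : lor (up z) e < 0 := by
  have h1 : ∀ᶠ t : ℝ in 𝓝 0, z + t • e.2 ∈ interior S :=
    (show ContinuousAt (fun t : ℝ => z + t • e.2) 0 by fun_prop).eventually_mem
      (isOpen_interior.mem_nhds (by simpa using hz))
  obtain ⟨t, h2, h3⟩ := ((h1.filter_mono (nhdsWithin_le_nhds (s := Ioi 0))).and
    self_mem_nhdsWithin).exists
  have h4 := hS _ (interior_subset h2)
  have h5 : lor (up (z + t • e.2)) e =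
      lor (up z) e + t * (e.2.re * e.2.re + e.2.im * e.2.im) := by
    simp only [lor, up, Complex.add_re, Complex.add_im, Complex.smul_re, Complex.smul_im,
      smul_eq_mul]
    ring
  have h6 : 0 < e.2.re * e.2.re + e.2.im * e.2.im := by
    unfold lor at he
    nlinarith [sq_nonneg e.1]
  linarith [mul_pos (show 0 < t from h3) h6]

theorem convex_lor (e : LV) : Convex ℝ {z : ℂ | lor (up z) e ≤ 0} := by
  intro x hx y hy a b ha hb hab
  obtain rfl : a = 1 - b := by linarith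
  rw [mem_ofPred_eq, up_comb, lor_add_left, lor_smul_left, lor_smul_left]
  exact add_nonpos (mul_nonpos_of_nonneg_of_nonpos ha hx) (mul_nonpos_of_nonneg_of_nonpos hb hy)

section Double

variable {n : ℕ} [hn : Fact (5 ≤ n)]

theorem ell_sg_smul (i j : ZMod n) (x : KD) : ∃ c : ℝ, 0 < c ∧
    ell j (sg i • x : KD) = c * lor (up x) (rho n (sg i) (root j)) :=
  ⟨_, inv_pos.2 ((fut_up x).rho (sg i)).1, by rw [ell_smul, lor_rho_left, sg_inv]⟩

theorem sg_sg_smul (i : ZMod n) (x : KD) : sg i • sg i • x = x := by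
  rw [smul_smul, sg_mul_self, one_smul]

theorem chamber_or (i : ZMod n) {x : KD} (h : ∀ j ≠ i, ell j x ≤ 0 ∧ ell j (sg i • x : KD) ≤ 0) :
    x ∈ chamber n ∨ sg i • x ∈ chamber n := by
  rcases le_total (ell i x) 0 with h1 | h1
  · exact Or.inl fun j => (eq_or_ne j i).elim (fun e => e ▸ h1) fun e => (h j e).1
  · obtain ⟨c, hc, h2, -⟩ := exists_ell_sg i x
    exact Or.inr fun j => (eq_or_ne j i).elim
      (fun e => by rw [e, h2, neg_nonpos]; positivity) fun e => (h j e).2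

theorem exists_double (i : ZMod n) : ∃ E : Dsc KD,
    (∀ x, x ∈ E.int ↔ ∀ j ≠ i, ell j x < 0 ∧ ell j (sg i • x : KD) < 0) ∧
    (∀ x, x ∈ E.cl ↔ x ∈ chamber n ∨ sg i • x ∈ chamber n) ∧
    ∀ x ∈ E.bd, ∃ j ≠ i, ell j x = 0 ∨ ell j (sg i • x : KD) = 0 := by
  let D : Set ℂ := {z | ∀ j ≠ i, ell j z ≤ 0 ∧ lor (up z) (rho n (sg i) (root j)) ≤ 0}
  let O : Set ℂ := {z | ∀ j ≠ i, ell j z < 0 ∧ lor (up z) (rho n (sg i) (root j)) < 0}
  have hD : ∀ x : KD, (x : ℂ) ∈ D ↔ ∀ j ≠ i, ell j x ≤ 0 ∧ ell j (sg i • x : KD) ≤ 0 := fun x =>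
    forall₂_congr fun j _ => and_congr_right fun _ => by
      obtain ⟨c, hc, e⟩ := ell_sg_smul i j x
      rw [e]
      exact ⟨mul_nonpos_of_nonneg_of_nonpos hc.le, fun h => nonpos_of_mul_nonpos_right h hc⟩
  have hO : ∀ x : KD, (x : ℂ) ∈ O ↔ ∀ j ≠ i, ell j x < 0 ∧ ell j (sg i • x : KD) < 0 := fun x =>
    forall₂_congr fun j _ => and_congr_right fun _ => by
      obtain ⟨c, hc, e⟩ := ell_sg_smul i j x
      rw [e]
      exact ⟨mul_neg_of_pos_of_neg hc, fun h => neg_of_mul_neg_right h hc.le⟩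
  have hP : ∀ x ∈ chamber n, ∀ j ≠ i, ell j (sg i • x : KD) ≤ 0 := fun x hx j hj =>
    ell_smul_nonpos hx (by
      rw [← Bool.not_eq_true, side_sg]
      exact fun e => hj (coxNest_sg_inj e))
  have hcl : ∀ x : KD, (x : ℂ) ∈ D ↔ x ∈ chamber n ∨ sg i • x ∈ chamber n := fun x => by
    rw [hD]
    refine ⟨chamber_or i, ?_⟩
    rintro (h | h) j hj
    · exact ⟨h j, hP x h j hj⟩
    · exact ⟨by simpa only [sg_sg_smul] using hP _ h j hj, h j⟩
  have hb : D ⊆ ball 0 1 := fun z hz => by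
    rw [mem_ball_zero_iff, ← fut_up_iff]
    rcases le_total (ell i z) 0 with h1 | h1
    · exact (pc_iff.2 fun j => (eq_or_ne j i).elim (fun e => e ▸ h1) fun e => (hz j e).1).fut
        (up_ne_zero z)
    · have h2 : PC n (rho n (sg i) (up z)) := pc_iff.2 fun j => (eq_or_ne j i).elim
        (fun e => by rw [e, lor_rho_sg_self, neg_nonpos]; exact h1)
        fun e => by rw [lor_rho_left, sg_inv]; exact (hz j e).2
      have h3 := (h2.fut (by simpa using up_ne_zero z)).rho (sg i)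
      rwa [← rho_mul, sg_mul_self, rho_one] at h3
  have hK : IsCompact D := by
    have h1 := ((isCompact_chamber (n := n)).union
      ((isCompact_chamber (n := n)).smul (sg i))).image continuous_subtype_val
    convert h1
    ext z
    constructor
    · intro hz
      refine ⟨⟨z, hb hz⟩, ((hcl ⟨z, hb hz⟩).1 hz).imp id fun h => ⟨_, h, sg_sg_smul i _⟩, rfl⟩
    · rintro ⟨x, hx | ⟨y, hy, rfl⟩, rfl⟩
      · exact (hcl x).2 (Or.inl hx)
      · exact (hcl _).2 (Or.inr (by simpa only [sg_sg_smul] using hy))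
  have hc : Convex ℝ D := by
    intro x hx y hy a b ha hb hab j hj
    exact ⟨convex_lor _ (hx j hj).1 (hy j hj).1 ha hb hab,
      convex_lor _ (hx j hj).2 (hy j hj).2 ha hb hab⟩
  have hint : interior D = O := by
    refine Subset.antisymm (fun z hz j hj => ⟨?_, ?_⟩)
      (interior_maximal (fun z hz j hj => ⟨(hz j hj).1.le, (hz j hj).2.le⟩) ?_)
    · exact lor_neg_of_interior (lor_root_self j) (fun z hz => (hz j hj).1) hz
    · exact lor_neg_of_interior (by rw [lor_rho, lor_root_self]) (fun z hz => (hz j hj).2) hz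
    · simp only [O, ofPred_forall]
      exact isOpen_iInter_of_finite fun j => isOpen_iInter_of_finite fun _ => IsOpen.inter
        (isOpen_lt (continuous_ell j) continuous_const)
        (isOpen_lt (f := fun z => lor (up z) (rho n (sg i) (root j)))
          (by unfold lor up; fun_prop) continuous_const)
  obtain ⟨Φ, -, -, -, h1⟩ := exists_fermi i
  obtain ⟨h2, h3⟩ := h1 (1 / 4) (by norm_num) (by norm_num)
  obtain ⟨E, e1, e2, e3⟩ := exists_dsc hc hK ⟨Φ (1 / 4 : ℝ), by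
    rw [hint, hO, sg_smul_eq h2]
    exact fun j hj => ⟨h3 j hj, h3 j hj⟩⟩ hb
  refine ⟨E, fun x => by rw [e1, hint, mem_preimage, hO], fun x => by rw [e2, mem_preimage, hcl],
    fun x hx => ?_⟩
  rw [e3, mem_preimage, hK.isClosed.frontier_eq, hint, Set.mem_sdiff, hD, hO] at hx
  by_contra h
  push Not at h
  exact hx.2 fun j hj => ⟨(hx.1 j hj).1.lt_of_ne (h j hj).1, (hx.1 j hj).2.lt_of_ne (h j hj).2⟩

theorem double_stab {i : ZMod n} {w : W n} {x : KD}
    (h : ∀ j ≠ i, ell j x < 0 ∧ ell j (sg i • x : KD) < 0)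
    (h' : ∀ j ≠ i, ell j (w • x : KD) < 0 ∧ ell j (sg i • w • x : KD) < 0) : w = 1 ∨ w = sg i := by
  have key : ∀ {u : W n} {y : KD}, y ∈ chamber n → (∀ j ≠ i, ell j y < 0) → u • y ∈ chamber n →
      u = 1 ∨ u = sg i := fun {u y} h1 h2 h3 => by
    have h4 : u ∈ WJ {i, i} := Subgroup.closure_mono (image_mono fun j hj => by
      by_contra e
      exact (h2 j fun e' => e (Or.inl e')).ne hj) (chamber_stab h1 h3).2
    simpa only [sg_mul_self, one_zpow, one_mul, exists_const] using mem_WJ_pair _ _ u h4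
  rcases chamber_or i (fun j hj => ⟨(h j hj).1.le, (h j hj).2.le⟩) with h1 | h1 <;>
    rcases chamber_or i (fun j hj => ⟨(h' j hj).1.le, (h' j hj).2.le⟩) with h2 | h2
  · exact key h1 (fun j hj => (h j hj).1) h2
  · rcases key (u := sg i * w) h1 (fun j hj => (h j hj).1) (by rwa [mul_smul]) with e | e
    · exact Or.inr (by rw [eq_inv_of_mul_eq_one_right e, sg_inv])
    · exact Or.inl (mul_eq_left.1 e)
  · rcases key (u := w * sg i) h1 (fun j hj => (h j hj).2) (by rwa [mul_smul, sg_sg_smul])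
      with e | e
    · exact Or.inr (by rw [eq_inv_of_mul_eq_one_left e, sg_inv])
    · exact Or.inl (mul_eq_right.1 e)
  · rcases key (u := sg i * w * sg i) h1 (fun j hj => (h j hj).2)
      (by rwa [mul_smul, mul_smul, sg_sg_smul]) with e | e
    · refine Or.inl (conj_eq_one_iff.1 (by rwa [sg_inv]))
    · exact Or.inr (by rw [eq_inv_of_mul_eq_one_right (mul_eq_right.1 e), sg_inv])

/-- The translate of a disc. -/
noncomputable def dsmul (w : W n) (E : Dsc KD) : Dsc KD where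
  j z := w • E.j z
  cont := (continuous_const_smul w).comp_continuousOn E.cont
  inj := (MulAction.injective w).comp_injOn E.inj
  opn := by
    rw [← image_image (fun x => w • x) E.j]
    exact E.opn.smul w

theorem mem_dsmul {w : W n} {E : Dsc KD} {S : Set ℂ} {x : KD} :
    x ∈ (dsmul w E).j '' S ↔ w⁻¹ • x ∈ E.j '' S := by
  rw [← mem_smul_set_iff_inv_smul_mem, ← image_smul, image_image]
  rfl

end Double

variable {g : ℕ} [Fact (2 ≤ g)]

theorem dbl_smul {M : Set KD} {Φ : ℂ ≃ₜ KD} {E : Fin 2 → Dsc KD}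
    (h : Dbl (colW g).ker (wallF g) M Φ E) (w : W (2 * g + 2)) :
    Dbl (colW g).ker (wallF g) (w • M) (Φ.trans (Homeomorph.smul w)) fun k => dsmul w (E k) := by
  refine ⟨fun k t h0 h1 => mem_dsmul.2 ?_, fun k x hx κ L hL hx' => ?_, fun k x hx => ?_,
    fun k k' γ x hx hx' => ?_⟩
  · change w⁻¹ • w • Φ t ∈ _
    rw [inv_smul_smul]
    exact h.edge k t h0 h1
  · rw [← h.miss k _ (mem_dsmul.1 hx) κ _ (smul_mem_wallF w⁻¹ hL) (smul_mem_smul_set hx'),
      smul_inv_smul]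
  · obtain ⟨κ, L, h1, h2, h3⟩ := h.bdry k _ (mem_dsmul.1 hx)
    exact ⟨κ, _, smul_mem_wallF w h1, (MulAction.injective w).ne h2,
      mem_smul_set_iff_inv_smul_mem.2 h3⟩
  · obtain ⟨h1, h2⟩ := h.wand k k' (cj w⁻¹ γ) _ (mem_dsmul.1 hx) (by
      change (w⁻¹ * γ * w⁻¹⁻¹) • w⁻¹ • x ∈ _
      rw [mul_smul, mul_smul, inv_smul_smul]
      exact mem_dsmul.1 hx')
    exact ⟨Subtype.ext (conj_eq_one_iff.1 (congrArg Subtype.val h1)), h2⟩

theorem dbl_base (i : ZMod (2 * g + 2)) : ∃ (Φ : ℂ ≃ₜ KD) (γ : (colW g).ker) (E : Fin 2 → Dsc KD),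
    Chart (wallF g) (par i) (Wl (sg i)) Φ γ ∧ Dbl (colW g).ker (wallF g) (Wl (sg i)) Φ E ∧
      ∀ x, ∃ (k : Fin 2) (δ : (colW g).ker), δ • x ∈ (E k).cl := by
  obtain ⟨Φ, h0, h1, h2, h3⟩ := exists_fermi i
  obtain ⟨E, e1, e2, e3⟩ := exists_double i
  let u : Fin 2 → W (2 * g + 2) := ![1, sg (i - 1)]
  have hu : ∀ k, u k • Wl (sg i) = Wl (sg i) := fun k => by
    fin_cases k
    · exact one_smul _ _
    · change sg (i - 1) • _ = _
      rw [smul_Wl, (coxCent_comm_left i).eq, mul_inv_cancel_right]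
  have edge : ∀ t : ℝ, 0 < t → t < 1 / 2 → Φ t ∈ E.int := fun t a b => by
    rw [e1, sg_smul_eq (h3 t a b).1]
    exact fun j hj => ⟨(h3 t a b).2 j hj, (h3 t a b).2 j hj⟩
  have miss : ∀ x ∈ E.int, ∀ κ, ∀ L ∈ wallF g κ, x ∈ L → L = Wl (sg i) := by
    rintro x hx κ _ ⟨j, t, a, -, rfl⟩ b
    rw [e1] at hx
    rcases chamber_or i (fun j hj => ⟨(hx j hj).1.le, (hx j hj).2.le⟩) with c | c
    · obtain ⟨rfl, d⟩ := refl_fix a c b
      rw [not_ne_iff.1 fun e => (hx j e).1.ne d]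
    · obtain ⟨rfl, d⟩ := refl_fix' a c (w := sg i) (by rwa [sg_sg_smul])
      rw [not_ne_iff.1 fun e => (hx j e).2.ne d, mul_inv_cancel_right]
  have bdry : ∀ x ∈ E.bd, ∃ κ, ∃ L ∈ wallF g κ, L ≠ Wl (sg i) ∧ x ∈ L := fun x hx => by
    obtain ⟨j, hj, a | a⟩ := e3 x hx
    · exact ⟨_, _, ⟨j, _, coxNest_refl j, rfl, rfl⟩,
        fun e => hj (coxNest_sg_inj (Wl_inj (coxNest_refl j) (coxNest_refl i) e)), sg_smul_eq a⟩
    · refine ⟨_, _, ⟨j, _, ⟨sg i, rfl⟩, rfl, rfl⟩, fun e => hj (isReflOf_unique ⟨sg i, ?_⟩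
        (coxNest_refl i)), ?_⟩
      · exact (Wl_inj ⟨sg i, rfl⟩ (coxNest_refl i) e).symm
      · rw [← smul_Wl, mem_smul_set_iff_inv_smul_mem, sg_inv]
        exact sg_smul_eq a
  refine ⟨Φ, _, fun k => dsmul (u k) E, chart_base i h0 h1 h2,
    ⟨fun k t a b => mem_dsmul.2 ?_, fun k x hx κ L hL hx' => ?_, fun k x hx => ?_,
      fun k k' γ x hx hx' => ?_⟩, fun x => ?_⟩
  · fin_cases k
    · change (1 : W (2 * g + 2))⁻¹ • Φ t ∈ E.int
      rw [inv_one, one_smul]
      exact edge t (by simpa using a) (by simpa using b)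
    · change (sg (i - 1))⁻¹ • Φ t ∈ E.int
      rw [sg_inv, h2, Complex.conj_ofReal, ← Complex.ofReal_one, ← Complex.ofReal_sub]
      norm_num at a b
      exact edge _ (by linarith) (by linarith)
  · rw [← hu k, ← miss _ (mem_dsmul.1 hx) κ _ (smul_mem_wallF (u k)⁻¹ hL) (smul_mem_smul_set hx'),
      smul_inv_smul]
  · obtain ⟨κ, L, a, b, c⟩ := bdry _ (mem_dsmul.1 hx)
    exact ⟨κ, _, smul_mem_wallF (u k) a, hu k ▸ (MulAction.injective (u k)).ne b,
      mem_smul_set_iff_inv_smul_mem.2 c⟩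
  · have a := (e1 _).1 (mem_dsmul.1 hx)
    have b := (e1 _).1 (mem_dsmul.1 hx')
    have c : (u k')⁻¹ • γ • x = ((u k')⁻¹ * γ * u k) • (u k)⁻¹ • x := by
      rw [mul_smul, mul_smul, smul_inv_smul]
      rfl
    rw [c] at b
    have d := double_stab a b
    have e : colW g ((u k')⁻¹ * γ * u k) = (colW g (u k'))⁻¹ * colW g (u k) := by
      rw [map_mul, map_mul, map_inv, show colW g γ = 1 from γ.2, mul_one]
    have f : k = k' := by
      by_contra f
      have f' : colW g ((u k')⁻¹ * γ * u k) = Multiplicative.ofAdd (colZ i + (1, 1)) := by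
        rw [e, ← colZ_succ, ← colZ_pred, ← colW_sg]
        fin_cases k <;> fin_cases k'
        · exact absurd rfl f
        · simp [u, ← map_inv, sg_inv]
        · simp [u]
        · exact absurd rfl f
      rcases d with d | d <;> rw [d] at f' <;> simp only [map_one, colW_sg] at f' <;>
        rcases colZ_cases i with h5 | h5 <;> rw [h5] at f' <;> exact absurd f' (by decide)
    subst f
    rw [inv_mul_cancel] at e
    refine ⟨Subtype.ext ?_, rfl⟩
    rcases d with d | d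
    · exact conj_eq_one_iff.1 (by rwa [inv_inv])
    · rw [d, colW_sg] at e
      exact absurd e (colZ_ne i)
  · obtain ⟨w, z, hz, rfl⟩ := exists_chamber (n := 2 * g + 2) x
    have key : ∀ (k : Fin 2) (v : W (2 * g + 2)), (v = 1 ∨ v = sg i) →
        colW g w = colW g (u k * v) →
        ∃ (k : Fin 2) (δ : (colW g).ker), δ • w • z ∈ (dsmul (u k) E).cl := fun k v hv h => by
      refine ⟨k, ⟨u k * v * w⁻¹, by
        rw [MonoidHom.mem_ker, map_mul, map_inv, h, mul_inv_cancel]⟩, mem_dsmul.2 ((e2 _).2 ?_)⟩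
      change (u k)⁻¹ • (u k * v * w⁻¹) • w • z ∈ _ ∨ sg i • (u k)⁻¹ • (u k * v * w⁻¹) • w • z ∈ _
      rw [mul_smul, mul_smul, inv_smul_smul, inv_smul_smul]
      rcases hv with rfl | rfl
      · exact Or.inl (by rwa [one_smul])
      · exact Or.inr (by rwa [sg_sg_smul])
    rcases exists_rep i w with h | h | h | h
    · exact key 0 1 (Or.inl rfl) (by simpa [u] using h)
    · exact key 0 _ (Or.inr rfl) (by simpa [u] using h)
    · exact key 1 1 (Or.inl rfl) (by simpa [u] using h)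
    · exact key 1 _ (Or.inr rfl) h

/-- The walls of the tiling form a wall system for the surface group. -/
theorem exists_wallSys (g : ℕ) [Fact (2 ≤ g)] : Nonempty (WallSys (colW g).ker KD) := by
  obtain ⟨Φ, γ, E, h1, h2, h3⟩ := dbl_base (g := g) 0
  have key : ∀ κ, ∀ M ∈ wallF g κ, ∃ (Φ : ℂ ≃ₜ KD) (γ : (colW g).ker) (E : Fin 2 → Dsc KD),
      Chart (wallF g) κ M Φ γ ∧ Dbl (colW g).ker (wallF g) M Φ E := by
    rintro _ _ ⟨i, _, ⟨w, rfl⟩, rfl, rfl⟩
    obtain ⟨Φ, γ, E, h1, h2, -⟩ := dbl_base i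
    rw [← smul_Wl]
    exact ⟨_, _, _, chart_smul h1 w, dbl_smul h2 w⟩
  have hM : Wl (sg 0) ∈ wallF g (par 0) := ⟨0, _, coxNest_refl 0, rfl, rfl⟩
  refine ⟨⟨wallF g, Φ, fun κ γ L h => smul_mem_wallF γ.1 h, wallF_orb,
    fun κ C hC => wallF_locfin κ hC, fun κ L h L' h' => wallF_disj h h', fun κ L h => ?_,
    fun L h L' h' => wallF_maln h h', key true, 2, E,
    fun k δ x hx hx' => (h2.wand k k δ x hx hx').1, fun k x hx => ?_, fun k => ?_, h3⟩⟩
  · obtain ⟨Φ, γ, -, h, -⟩ := key κ L h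
    exact ⟨Φ, γ, h⟩
  · obtain ⟨κ, L, a, -, b⟩ := h2.bdry k x hx
    exact ⟨κ, L, a, b⟩
  · refine ⟨Φ ((k / 2 + 1 / 4 : ℝ) : ℂ), h2.edge k _ (by linarith) (by linarith), _, _, hM, ?_⟩
    rw [h1.axis]
    exact ⟨_, Complex.ofReal_im _, rfl⟩

end Pool.Agent.Lib.MP_66609f_al.DN
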