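import Pool.Agent.Lib.MP_66609f_al.DN.E5

/-! Equivariant isotopies of a plane with walls, part 6. -/

namespace Pool.Agent.Lib.MP_66609f_al.DN.BE

open Set Metric Topology Function unitInterval
open scoped Pointwise

set_option linter.unusedSectionVars false

variable {Γ X : Type} [Group Γ] [TopologicalSpace X] [MulAction Γ X] [T2Space X]
  [ContinuousConstSMul Γ X] [ProperlyDiscontinuousSMul Γ X]

namespace Ctx

variable {W : WallSys Γ X} {C : Ctx W}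

theorem t30_mem_ver {m : ℂ ≃ₜ X} {r : ℝ} {x : X} : x ∈ ver m r ↔ (m.symm x).re = r := by
  rw [← mem_ver (Φ := m), m.apply_symm_apply]

theorem exists_vert_chart (hC : C.Alpha) (k : ℤ) {x : X} (hx : x ∉ C.L) :
    ∃ (m : ℂ ≃ₜ X) (g : Γ), Chart W.wall true (ver C.Φ (k / 2)) m g ∧ C.L = ver m 0 ∧
      m 0 = C.Φ ((k / 2 : ℝ) : ℂ) ∧ 0 < (m.symm x).re := by
  have hM : ver C.Φ (k / 2) ∈ W.wall true := by simpa [hC.1] using C.ch.vert k
  have hL : C.L ∈ W.wall (!true) := by simpa [hC.1] using C.hL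
  have hp : C.Φ ((k / 2 : ℝ) : ℂ) ∈ ver C.Φ (k / 2) := mem_ver.2 (Complex.ofReal_re _)
  obtain ⟨m0, g, h0⟩ := W.chart true _ hM
  obtain ⟨j, hj⟩ := h0.meet _ hL ⟨_, C.ch.mem (k / 2), hp⟩
  obtain ⟨m, h, e⟩ := h0.shift j
  have hv : C.L = ver m 0 := by
    ext y
    obtain ⟨w, rfl⟩ := m.surjective y
    rw [mem_ver, e, hj, mem_ver, Complex.add_re, Complex.ofReal_re, add_eq_right]
  have hz : m 0 = C.Φ ((k / 2 : ℝ) : ℂ) := by
    have a := C.ch.mem (k / 2)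
    rw [h.axis] at hp
    generalize C.Φ ((k / 2 : ℝ) : ℂ) = y at a hp
    obtain ⟨w, rfl⟩ := m.surjective y
    rw [hv, mem_ver] at a
    exact congrArg m (Complex.ext a.symm (mem_hor.1 hp).symm)
  rcases lt_trichotomy (m.symm x).re 0 with a | a | a
  · obtain ⟨m', h', e'⟩ := h.neg
    refine ⟨m', _, h', ?_, by rw [e', neg_zero, hz], ?_⟩
    · ext y
      obtain ⟨w, rfl⟩ := m'.surjective y
      rw [mem_ver, e', hv, mem_ver, Complex.neg_re, neg_eq_zero]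
    · obtain ⟨w, rfl⟩ := m'.surjective x
      rw [e', m.symm_apply_apply, Complex.neg_re, neg_lt_zero] at a
      rwa [m'.symm_apply_apply]
  · exact absurd (hv ▸ t30_mem_ver.2 a) hx
  · exact ⟨m, g, h, hv, hz, a⟩

theorem exists_finger (hC : C.Alpha) {F : X ≃ₜ X} (hF : Equi Γ F)
    (hc : ∀ t, C.c F t ∉ W.A false) (k : ℤ) : ∃ t m g u, C.Finger F (k / 2) t m g u := by
  have hL : C.L ∈ W.wall false := hC.1 ▸ C.hL
  have hcL : ∀ t, C.c F t ∉ C.L := fun t h => hc t ⟨_, hL, h⟩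
  obtain ⟨m, g, h, hv, hz, hx⟩ := exists_vert_chart hC k (hcL 0)
  have hP : ver m (1 / 2) ∈ W.wall false := by simpa using h.vert 1
  have sv : ∀ {w w' : ℂ}, Same C.L (m w) (m w') ↔ 0 < w.re * w'.re := by
    intro w w'
    rw [hv, same_ver, sub_zero, sub_zero]
  have m0 : m 0 ∈ C.L := hz ▸ C.ch.mem _
  have hA : ∀ w, m w ∈ F '' C.L → 0 < w.re ∧ w.re < 1 / 2 := by
    rw [← C.range_c]
    rintro w ⟨t, e⟩
    have a : Same C.L (C.c F 0) (C.c F t) := same_of_preconnected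
      (isPreconnected_range (C.continuous_c F)) (disjoint_left.2 (forall_mem_range.2 hcL))
      ⟨0, rfl⟩ ⟨t, rfl⟩
    have b := no_sep hC hF hc hP (fun e => by
      have := mem_ver.1 (e.symm ▸ m0)
      norm_num at this) (k / 2) t
    rw [e, ← m.apply_symm_apply (C.c F 0), sv] at a
    rw [e, ← hz, same_ver, Complex.zero_re] at b
    exact ⟨pos_of_mul_pos_right a hx.le, by linarith⟩
  obtain ⟨w0, hw⟩ := m.surjective (F (m 0))
  have hw' := hA w0 ⟨_, m0, hw.symm⟩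
  have per : ∀ j : ℤ, F (m j) = m (w0 + j) := fun j => by
    rw [h.per_int, hw, ← hF, ← h.per_int, zero_add]
  have cv : ∀ {s : Set ℂ} {w w' : ℂ}, Convex ℝ s → (∀ z ∈ s, m z ∉ F '' C.L) → w ∈ s → w' ∈ s →
      Same (F '' C.L) (m w) (m w') := fun hs hd a b =>
    same_of_preconnected (hs.isPreconnected.image _ m.continuous.continuousOn)
      (disjoint_left.2 (forall_mem_image.2 hd)) ⟨_, a, rfl⟩ ⟨_, b, rfl⟩
  have seg : ∀ u : ℝ, 0 ≤ u → (∀ s : ℝ, 0 ≤ s → s ≤ u → m s ∉ F '' C.L) →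
      Same (F '' C.L) (F (m (-1 : ℤ))) (m u) := fun u hu hd => by
    rw [per]
    refine (cv (convex_halfSpace_re_le 0) (fun z a b => (hA z b).1.not_ge a) ?_
      (w' := (0 : ℝ)) (by simp)).trans ?_
    · simp only [mem_ofPred_eq, Complex.add_re, Complex.intCast_re]
      push_cast
      linarith [hw'.2]
    · exact same_of_preconnected (isPreconnected_Icc.image (fun s : ℝ => m s) (by fun_prop))
        (disjoint_left.2 (forall_mem_image.2 fun s a => hd s a.1 a.2)) ⟨_, ⟨le_rfl, hu⟩, rfl⟩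
        ⟨_, ⟨hu, le_rfl⟩, rfl⟩
  have hK : F '' C.L ⊆ C.K F := image_mono (subset_orb _)
  have hKA : ∀ y ∈ C.K F, y ∉ W.A false := fun y a b => by
    obtain ⟨d, t, rfl⟩ := (C.mem_K_iff hF).1 a
    exact hc t ((W.smul_mem_A d).1 b)
  have hne : (Icc (0 : ℝ) (1 / 2) ∩ (fun s : ℝ => m s) ⁻¹' C.K F).Nonempty := by
    by_contra hn
    have a := (seg (1 / 2) (by norm_num) fun s a b c => hn ⟨s, ⟨a, b⟩, hK c⟩).trans
      (cv (convex_halfSpace_re_ge (1 / 2)) (fun z a b => (hA z b).2.not_ge a) (w' := w0 + (1 : ℤ))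
        (by simp) (by
          simp only [mem_ofPred_eq, Complex.add_re, Complex.intCast_re]
          push_cast
          linarith [hw'.1]))
    rw [← per, same_image, sv] at a
    norm_num at a
  obtain ⟨u, ⟨⟨u0, u1⟩, hu⟩, hmin⟩ := (isCompact_Icc.inter_right
    ((C.isClosed_K F).preimage (by fun_prop))).exists_isLeast hne
  have hu : m u ∈ C.K F := hu
  have u0' : 0 < u := u0.lt_of_ne fun e => hKA _ hu ⟨_, hL, by rw [← e]; exact m0⟩
  have u1' : u < 1 / 2 := u1.lt_of_ne fun e =>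
    hKA _ hu ⟨_, hP, mem_ver.2 ((Complex.ofReal_re _).trans e)⟩
  have fr : ∀ s : ℝ, 0 ≤ s → s < u → m s ∉ C.K F := fun s a b c =>
    (hmin ⟨⟨a, b.le.trans u1⟩, c⟩).not_gt b
  have hd : m u ∈ F '' C.L := by
    by_contra hn
    have a := seg u u0 fun s a b c => b.lt_or_eq.elim (fun b => fr s a b (hK c)) fun b => hn (b ▸ c)
    obtain ⟨b, t, e⟩ := (C.mem_K_iff hF).1 hu
    rw [e, c, ← hF, same_image] at a
    have d := (same_smul b).2 (no_sep hC hF hc (W.smul_mem _ b⁻¹ _ hL) (fun e' =>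
      a.right_notMem (mem_inv_smul_set_iff.1 (e'.symm ▸ C.ch.mem t))) t t)
    rw [smul_inv_smul, ← e] at d
    have := sv.1 (a.trans d)
    simp at this
    linarith
  rw [← C.range_c] at hd
  obtain ⟨t, ht⟩ := hd
  refine ⟨t, m, g, u, h, by simpa [hC.1] using C.ch.vert k, hv, hz, u0', u1', ht.symm, fr,
    fun s hs => ?_⟩
  rw [← m.apply_symm_apply (C.c F 0), sv]
  exact mul_pos hx hs

theorem Finger.notMem_A {F : X ≃ₜ X} {v t : ℝ} {m : ℂ ≃ₜ X} {g : Γ} {u : ℝ}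
    (h : C.Finger F v t m g u) {s : ℝ} (h0 : 0 < s) (hs : s ≤ u) : m s ∉ W.A false := by
  intro hm
  obtain ⟨k, hk⟩ := (W.mem_other h.ch).1 hm
  have h1 : (0 : ℝ) < k := by linarith
  have h2 : (k : ℝ) < 1 := by linarith [h.lt]
  have h3 : 0 < k := by exact_mod_cast h1
  have h4 : k < 1 := by exact_mod_cast h2
  omega

theorem Finger.shift {F : X ≃ₜ X} (hF : Equi Γ F) {v t : ℝ} {m : ℂ ≃ₜ X} {g : Γ} {u : ℝ}
    (h : C.Finger F v t m g u) :
    ∃ m' g', C.Finger F (v + 1) (t + 1) m' g' u ∧ ∀ w, m' w = C.γ • m w := by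
  obtain ⟨m', h1, h2⟩ := h.ch.smul W.smul_mem C.γ
  have h3 : C.γ • ver C.Φ v = ver C.Φ (v + 1) := by simpa using C.ch.zpow_smul_ver 1 v
  have h4 : C.γ • C.L = C.L := by simpa using C.ch.zpow_smul 1
  refine ⟨m', _, ⟨h3 ▸ h1, h3 ▸ W.smul_mem _ _ _ h.mem, ?_, ?_, h.pos, h.lt, ?_,
    fun s s0 s1 => ?_, fun s s0 => ?_⟩, h2⟩
  · rw [← h4, h.axis, ver, ver, ← image_smul, image_image]
    exact image_congr fun w _ => (h2 w).symm
  · rw [h2, h.foot, ← C.ch.per, Complex.ofReal_add, Complex.ofReal_one]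
  · simpa [h2, h.head] using (C.c_add_int hF t 1).symm
  · rw [h2, C.smul_mem_K hF]
    exact h.free s s0 s1
  · rw [h2]
    exact (h.side s s0).trans (C.ch.same_of_stab h4 (h.side s s0).right_notMem)

theorem finger_disj (hC : C.Alpha) {F : X ≃ₜ X} (hF : Equi Γ F) {v t v' t' u u' : ℝ}
    {m m' : ℂ ≃ₜ X} {g g' : Γ} (h : C.Finger F v t m g u) (h' : C.Finger F v' t' m' g' u')
    {a : Γ} {s s' : ℝ} (hs : s ∈ Icc 0 u) (hs' : s' ∈ Icc 0 u') (he : a • m s = m' s') :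
    ∃ k : ℤ, a = C.γ ^ k ∧ v' = v + k := by
  have hL : C.L ∈ W.wall false := hC.1 ▸ C.hL
  have h1 : a • ver C.Φ v = ver C.Φ v' := W.disj true _ (W.smul_mem _ a _ h.mem) _ h'.mem
    ⟨a • m s, smul_mem_smul_set (h.ch.mem s), he ▸ h'.ch.mem s'⟩
  have h2 : a • C.L = C.L := by
    by_contra hne
    set f : ℝ → ℝ := fun r => (m'.symm (a • m r)).re with hf
    have hc : Continuous f := by fun_prop
    have h3 : ∀ r : ℝ, a • m r = m' (f r) := fun r => by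
      obtain ⟨y, hy⟩ := mem_hor_iff.1 (h'.ch.axis ▸ h1 ▸ smul_mem_smul_set (h.ch.mem r))
      rw [hf]
      simp only [hy, Homeomorph.symm_apply_apply, Complex.ofReal_re]
    have h4 : m (0 : ℝ) ∈ C.L := h.axis ▸ mem_ver.2 rfl
    have h5 : ∀ r ∈ Icc 0 u, f r ≠ 0 := fun r hr e => by
      have h6 : a • m r ∈ C.L := by
        rw [h3, e, h'.axis]
        exact mem_ver.2 rfl
      rcases hr.1.eq_or_lt with rfl | h7
      · exact hne (W.smul_eq hL h4 h6)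
      · exact h.notMem_A h7 hr.2 ((W.smul_mem_A a).1 ⟨_, hL, h6⟩)
    have h6 : f s = s' := by simp [hf, he]
    have h7 : 0 < f 0 := by
      by_contra hn
      obtain ⟨r, hr, e⟩ := intermediate_value_Icc hs.1 hc.continuousOn
        (show (0 : ℝ) ∈ Icc (f 0) (f s) from ⟨not_lt.1 hn, h6 ▸ hs'.1⟩)
      exact h5 r ⟨hr.1, hr.2.trans hs.2⟩ e
    obtain ⟨k, hk⟩ := (W.mem_other h'.ch (t := f 0)).1
      (h3 0 ▸ (W.smul_mem_A a).2 ⟨_, hL, h4⟩)
    have h8 : 0 < k := by exact_mod_cast (show (0 : ℝ) < k by linarith)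
    have h9 : (1 : ℝ) ≤ k := by exact_mod_cast h8
    obtain ⟨r, hr, e⟩ := intermediate_value_Icc' hs.1 hc.continuousOn
      (show u' ∈ Icc (f s) (f 0) from ⟨h6 ▸ hs'.2, by linarith [h'.lt]⟩)
    have h10 : a • m r = C.c F t' := by rw [h3, e, h'.head]
    obtain rfl : r = u := by
      by_contra hn
      exact h.free r hr.1 (lt_of_le_of_ne (hr.2.trans hs.2) hn)
        ((C.smul_mem_K hF a).1 (h10 ▸ C.c_mem_K F t'))
    obtain ⟨j, rfl, -⟩ := C.smul_c_eq hF (h.head ▸ h10)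
    exact hne (C.ch.zpow_smul j)
  obtain ⟨k, rfl⟩ := C.ch.stab a h2
  rw [C.ch.zpow_smul_ver] at h1
  exact ⟨k, rfl, mem_ver.1 (h1 ▸ mem_ver.2 rfl : C.Φ v' ∈ ver C.Φ (v + k))⟩

theorem t32_halves : ∃ L R : I → I, StrictMono L ∧ StrictMono R ∧ L 1 = R 0 ∧ L 0 = 0 ∧ R 1 = 1 ∧
    (∀ τ, ∃ s, τ = L s ∨ τ = R s) ∧ ∀ {x y z : X} (a : Path x y) (b : Path y z) (s : I),
      (a.trans b) (L s) = a s ∧ (a.trans b) (R s) = b s := by
  refine ⟨fun s => ⟨s / 2, by linarith [s.2.1], by linarith [s.2.2]⟩,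
    fun s => ⟨(s + 1) / 2, by linarith [s.2.1], by linarith [s.2.2]⟩, fun s t h => ?_,
    fun s t h => ?_, Subtype.ext (by simp), Subtype.ext (by simp), Subtype.ext (by simp),
    fun τ => ?_, fun a b s => ⟨?_, ?_⟩⟩
  · exact div_lt_div_of_pos_right (show (s : ℝ) < t from h) two_pos
  · exact div_lt_div_of_pos_right (add_lt_add_left (show (s : ℝ) < t from h) 1) two_pos
  · rcases le_total (τ : ℝ) (1 / 2) with h | h
    · exact ⟨⟨2 * τ, by linarith [τ.2.1], by linarith⟩, .inl (Subtype.ext (by simp))⟩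
    · exact ⟨⟨2 * τ - 1, by linarith, by linarith [τ.2.2]⟩, .inr (Subtype.ext (by simp))⟩
  · rw [Path.trans_apply, dif_pos (by linarith [s.2.2])]
    congr 1
    exact Subtype.ext (by simp only; ring)
  · rw [Path.trans_apply]
    split_ifs with h
    · obtain rfl : s = 0 := Subtype.ext (le_antisymm (show (s : ℝ) ≤ 0 by linarith) s.2.1)
      rw [b.source]
      convert a.target
      simp
    · congr 1
      exact Subtype.ext (by simp only; ring)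

theorem t32_finger {F : X ≃ₜ X} {v t u : ℝ} {m : ℂ ≃ₜ X} {g : Γ} (h : C.Finger F v t m g u) :
    ∃ e : Path (C.Φ v) (C.c F t), Injective e ∧ range e = (fun s : ℝ => m s) '' Icc 0 u ∧
      (∀ s, e s ∈ W.A false → s = 0) ∧ ∀ s, e s ∈ C.K F → s = 1 := by
  have hm : Continuous fun s : ℝ => m s := by fun_prop
  have h1 := fun s : I => param_mem_Icc h.pos.le s
  refine ⟨(subArc hm 0 u).cast (by simpa using h.foot.symm) h.head.symm,
    subArc_injective hm (m.injective.comp Complex.ofReal_injective).injOn h.pos.ne,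
    (range_subArc hm 0 u).trans (by rw [uIcc_of_le h.pos.le]), fun s hs => by_contra fun e => ?_,
    fun s hs => by_contra fun e => ?_⟩
  · refine h.notMem_A ?_ (h1 s).2 hs
    rw [zero_add, sub_zero]
    exact mul_pos (unitInterval.pos_iff_ne_zero.2 e) h.pos
  · refine h.free _ (h1 s).1 ?_ hs
    rw [zero_add, sub_zero]
    exact mul_lt_of_lt_one_left h.pos (unitInterval.lt_one_iff_ne_one.2 e)

theorem finger_path (hC : C.Alpha) {F : X ≃ₜ X} (hF : Equi Γ F) (hc : ∀ t, C.c F t ∉ W.A false)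
    {v t v' t' u u' : ℝ} {m m' : ℂ ≃ₜ X} {g g' : Γ} (h : C.Finger F v t m g u)
    (h' : C.Finger F v' t' m' g' u') (hv : v < v') :
    ∃ d : Path (C.c F t) (C.c F t'), Injective d ∧
      range d = (fun s : ℝ => m s) '' Icc 0 u ∪ (fun r : ℝ => C.Φ r) '' Icc v v' ∪
        (fun s : ℝ => m' s) '' Icc 0 u' ∧
      (∀ τ, d τ ∈ C.K F → τ = 0 ∨ τ = 1) ∧
      ∃ τ₁ τ₂ : I, τ₁ < τ₂ ∧ d τ₁ = C.Φ v ∧ d τ₂ = C.Φ v' ∧
        d '' Icc τ₁ τ₂ = (fun r : ℝ => C.Φ r) '' Icc v v' ∧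
        ∀ τ, τ < τ₁ ∨ τ₂ < τ → d τ ∉ W.A false := by
  obtain ⟨a, a1, a2, a3, a4⟩ := t32_finger h
  obtain ⟨e, e1, e2, e3, e4⟩ := t32_finger h'
  have hΦ : Continuous fun s : ℝ => C.Φ s := by fun_prop
  obtain ⟨b, b1, b2, b3⟩ : ∃ b : Path (C.Φ v) (C.Φ v'), Injective b ∧
      range b = (fun r : ℝ => C.Φ r) '' Icc v v' ∧ ∀ s, b s ∈ W.A false :=
    ⟨subArc hΦ v v', subArc_injective hΦ (C.Φ.injective.comp Complex.ofReal_injective).injOn hv.ne,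
      (range_subArc hΦ v v').trans (by rw [uIcc_of_le hv.le]),
      fun s => hC.1 ▸ C.L_subset_A (C.ch.mem _)⟩
  obtain ⟨L, R, hL, hR, l1, l0, r1, hs, hd⟩ := t32_halves (X := X)
  have d1 := fun s => ((hd (a.symm.trans b) e (L s)).1).trans (hd a.symm b s).1
  have d2 := fun s => ((hd (a.symm.trans b) e (R s)).1).trans (hd a.symm b s).2
  have d3 := fun s => (hd (a.symm.trans b) e s).2
  have hs' : ∀ τ, ∃ s, τ = L (L s) ∨ τ = L (R s) ∨ τ = R s := fun τ => by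
    obtain ⟨s, rfl | rfl⟩ := hs τ
    · obtain ⟨s, rfl | rfl⟩ := hs s
      exacts [⟨s, .inl rfl⟩, ⟨s, .inr (.inl rfl)⟩]
    · exact ⟨s, .inr (.inr rfl)⟩
  have h01 : L (R 0) < L (R 1) := hL (hR zero_lt_one)
  have r2 : R 0 = L (R 1) := by rw [r1, l1]
  have hb : ∀ s, L (R s) ∈ Icc (L (R 0)) (L (R 1)) := fun s =>
    ⟨hL.monotone (hR.monotone s.2.1), hL.monotone (hR.monotone s.2.2)⟩
  refine ⟨(a.symm.trans b).trans e, trans_injective (trans_injective (symm_injective a1) b1 ?_) e1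
    ?_, by rw [Path.trans_range, Path.trans_range, Path.symm_range, a2, b2, e2], fun τ hτ => ?_,
    L (R 0), L (R 1), h01, (d2 0).trans b.source, (d2 1).trans b.target, ?_, fun τ hτ hA => ?_⟩
  · rw [Path.symm_range]
    rintro _ ⟨⟨s, rfl⟩, r, hr⟩
    rw [a3 s (hr ▸ b3 r)]
    exact a.source
  · rw [Path.trans_range, Path.symm_range]
    rintro x ⟨hx | ⟨r, hr⟩, hx'⟩
    · rw [a2] at hx
      rw [e2] at hx'
      obtain ⟨s, h1, h2⟩ := hx
      obtain ⟨s', h3, h4⟩ := hx'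
      obtain ⟨k, h5, h6⟩ := finger_disj hC hF h h' (a := 1) h1 h3
        ((one_smul _ _).trans (h2.trans h4.symm))
      rw [C.ch.zpow_eq_one h5.symm, Int.cast_zero, add_zero] at h6
      exact absurd h6 hv.ne'
    · obtain ⟨s, rfl⟩ := hx'
      rw [e3 s (hr ▸ b3 r)]
      exact e.source
  · obtain ⟨s, rfl | rfl | rfl⟩ := hs' τ
    · rw [d1] at hτ
      rw [symm_eq_one.1 (a4 _ hτ), l0, l0]
      exact .inl rfl
    · rw [d2] at hτ
      obtain ⟨k, r, h1⟩ := (C.mem_K_iff hF).1 hτ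
      exact absurd ((W.smul_mem_A k).1 (h1 ▸ b3 s)) (hc r)
    · rw [d3] at hτ
      rw [e4 _ hτ, r1]
      exact .inr rfl
  · rw [← b2]
    refine Subset.antisymm ?_ ?_
    · rintro _ ⟨τ, hτ, rfl⟩
      obtain ⟨s, rfl | rfl | rfl⟩ := hs' τ
      · rw [← l1] at hτ
        rw [le_antisymm le_one' (hL.le_iff_le.1 (hL.le_iff_le.1 hτ.1)), l1, d2]
        exact mem_range_self _
      · exact ⟨s, (d2 s).symm⟩
      · rw [le_antisymm (hR.le_iff_le.1 (hτ.2.trans_eq r2.symm)) nonneg']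
        exact ⟨1, (d2 1).symm.trans (congrArg _ r2.symm)⟩
    · rintro _ ⟨s, rfl⟩
      exact ⟨_, hb s, d2 s⟩
  · obtain ⟨s, rfl | rfl | rfl⟩ := hs' τ
    · rw [d1] at hA
      rw [symm_eq_zero.1 (a3 _ hA), l1] at hτ
      exact hτ.elim (lt_irrefl _) h01.not_gt
    · exact hτ.elim (hb s).1.not_gt (hb s).2.not_gt
    · rw [d3] at hA
      rw [e3 _ hA] at hτ
      exact hτ.elim (h01.trans_eq r2.symm).not_gt r2.not_gt

theorem between (hC : C.Alpha) {F : X ≃ₜ X} (hF : Equi Γ F) (hc : ∀ t, C.c F t ∉ W.A false)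
    {t₁ t₂ u u' : ℝ} {m m' : ℂ ≃ₜ X} {g g' : Γ} (h : C.Finger F 0 t₁ m g u)
    (h' : C.Finger F (1 / 2) t₂ m' g' u') : t₁ < t₂ ∧ t₂ < t₁ + 1 := by
  obtain ⟨n, gn, hn, -⟩ := h.shift hF
  obtain ⟨d, hd, hr, hK, -⟩ := finger_path hC hF hc h hn (lt_add_one _)
  have cc := C.continuous_c F
  have hLA : C.L ⊆ W.A false := hC.1 ▸ C.L_subset_A
  have ha : range (subArc cc t₁ (t₁ + 1)) = C.c F '' Icc t₁ (t₁ + 1) := by
    rw [range_subArc, uIcc_of_le (lt_add_one _).le]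
  have hd' : ∀ t, C.c F t ∈ range d → C.c F t ∈ ({C.c F t₁, C.c F (t₁ + 1)} : Set X) := by
    rintro t ⟨τ, e⟩
    rcases hK τ (e ▸ C.c_mem_K F t) with rfl | rfl
    exacts [Or.inl (e.symm.trans d.source), Or.inr (e.symm.trans d.target)]
  obtain ⟨Ψ, hΨ⟩ := jordan2 W.base (subArc_injective cc (C.injective_c F).injOn (lt_add_one _).ne)
    hd (by
      rw [ha]
      rintro _ ⟨⟨t, -, rfl⟩, ht⟩
      exact hd' t ht)
  rw [ha] at hΨ
  have half : ∀ k : ℤ, (1 / 2 : ℝ) ≠ k := fun k e => by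
    have : (1 : ℤ) = 2 * k := by exact_mod_cast (by linarith : (1 : ℝ) = 2 * k)
    omega
  have n₁ : ∀ s ∈ Icc 0 u, ∀ s' ∈ Icc 0 u', m (s : ℝ) ≠ m' (s' : ℝ) := fun s hs s' hs' e => by
    obtain ⟨k, -, hk⟩ := finger_disj hC hF h h' hs hs' ((one_smul Γ _).trans e)
    exact half k (by linarith)
  have n₂ : ∀ s ∈ Icc 0 u, ∀ s' ∈ Icc 0 u', n (s : ℝ) ≠ m' (s' : ℝ) := fun s hs s' hs' e => by
    obtain ⟨k, -, hk⟩ := finger_disj hC hF hn h' hs hs' ((one_smul Γ _).trans e)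
    exact half (k + 1) (by push_cast; linarith)
  have cm : ∀ m : ℂ ≃ₜ X, Continuous fun s : ℝ => m s := fun m =>
    m.continuous.comp Complex.continuous_ofReal
  have fs : ∀ {v t m g}, C.Finger F v t m g u → ∀ s ∈ Icc (0 : ℝ) u,
      m (s : ℝ) ∈ C.L ∪ {y | Same C.L (C.c F 0) y} := fun {v t m g} h s hs => by
    rcases hs.1.eq_or_lt with rfl | h0
    exacts [Or.inl (h.foot ▸ C.ch.mem v :), Or.inr (h.side s h0)]
  have hz : m' (0 : ℝ) = C.Φ (1 / 2 : ℝ) := h'.foot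
  have h0 := left_mem_Icc.2 h'.pos.le
  obtain ⟨V, hV, hV'⟩ := local_inside (.ofHomeo Ψ) C.ch.isLine (fun e => hc 0 (hLA e))
    (z := m' (0 : ℝ))
    (by
      rw [hΨ, hr]
      rintro _ (⟨t, -, rfl⟩ | (⟨s, hs, rfl⟩ | ⟨s, -, rfl⟩) | ⟨s, hs, rfl⟩)
      exacts [Or.inr (same_of_preconnected (isPreconnected_range cc) (disjoint_left.2
        (forall_mem_range.2 fun t e => hc t (hLA e))) ⟨0, rfl⟩ ⟨t, rfl⟩), fs h s hs,
        Or.inl (C.ch.mem s), fs hn s hs])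
    (by rw [hΨ, hr]; exact Or.inr (Or.inl (Or.inr ⟨1 / 2, by norm_num, hz.symm⟩)))
    (hz ▸ C.ch.mem _)
    ⟨(C.c F '' Icc t₁ (t₁ + 1) ∪ ((fun s : ℝ => m s) '' Icc 0 u ∪
        (fun s : ℝ => n s) '' Icc 0 u))ᶜ, ((isCompact_Icc.image cc).union
      ((isCompact_Icc.image (cm m)).union (isCompact_Icc.image (cm n)))).isClosed.compl_mem_nhds
      (by
        rintro (⟨t, -, e⟩ | ⟨s, hs, e⟩ | ⟨s, hs, e⟩)
        exacts [hc t (hLA (e ▸ hz ▸ C.ch.mem _)), n₁ s hs 0 h0 e, n₂ s hs 0 h0 e]),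
      by
        rw [hΨ, hr]
        rintro _ ⟨e | (e | ⟨s, -, rfl⟩) | e, hy⟩
        exacts [absurd (Or.inl e) hy, absurd (Or.inr (Or.inl e)) hy, C.ch.mem s,
          absurd (Or.inr (Or.inr e)) hy]⟩
  obtain ⟨s, hs, hs'⟩ : ∃ s : ℝ, m' s ∈ V ∧ s ∈ Ioo 0 u' :=
    ((((cm m').continuousAt.eventually_mem hV).filter_mono nhdsWithin_le_nhds).and
      (Ioo_mem_nhdsGT h'.pos)).exists
  have hT := (Dsc.ofHomeo Ψ).subset_int (isPreconnected_Ioo.image _ (cm m').continuousOn)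
    (disjoint_left.2 (forall_mem_image.2 fun s hs => by
      rw [hΨ, hr]
      rintro (⟨t, -, e⟩ | (⟨r, hr, e⟩ | ⟨r, -, e⟩) | ⟨r, hr, e⟩)
      exacts [h'.free s hs.1.le hs.2 (e ▸ C.c_mem_K F t), n₁ r hr s (Ioo_subset_Icc_self hs) e,
        h'.notMem_A hs.1 hs.2.le (hLA (e ▸ C.ch.mem r)), n₂ r hr s (Ioo_subset_Icc_self hs) e]))
    ⟨_, mem_image_of_mem _ hs', Dsc.int_subset_cl _ (hV' _ hs (h'.side s hs'.1))⟩
  have hcl : C.c F t₂ ∈ (Dsc.ofHomeo Ψ).cl := by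
    rw [← h'.head, ← Dsc.closure_int]
    refine closure_mono hT (mem_closure_image (cm m').continuousAt ?_)
    rw [closure_Ioo h'.pos.ne]
    exact right_mem_Icc.2 h'.pos.le
  have key : ∀ S : Set ℝ, IsPreconnected S → Unb (C.c F '' S) → Disjoint S (Icc t₁ (t₁ + 1)) →
      t₂ ∉ S := fun S hS hu hS' ht => by
    refine disjoint_left.1 ((Dsc.ofHomeo Ψ).disjoint_cl (hS.image _ cc.continuousOn)
      (disjoint_left.2 (forall_mem_image.2 fun r hr' => ?_)) hu) (mem_image_of_mem _ ht) hcl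
    rw [hΨ]
    rintro (⟨t, ht, e⟩ | e)
    · exact disjoint_left.1 hS' hr' (C.injective_c F e ▸ ht)
    · rcases hd' r e with e | e <;> refine disjoint_left.1 hS' hr' ?_ <;>
        rw [C.injective_c F e] <;> constructor <;> linarith
  have hu := right_mem_Icc.2 h.pos.le
  have hu' := right_mem_Icc.2 h'.pos.le
  exact ⟨lt_of_le_of_ne (not_lt.1 (key _ isPreconnected_Iio (C.unb_c_Iio F t₁)
      (disjoint_left.2 fun r h h' => not_le.2 h h'.1)))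
      fun e => n₁ u hu u' hu' (h.head.trans (e ▸ h'.head.symm)),
    lt_of_le_of_ne (not_lt.1 (key _ isPreconnected_Ioi (C.unb_c_Ioi F (t₁ + 1))
      (disjoint_left.2 fun r h h' => not_le.2 h h'.2)))
      fun e => n₂ u hu u' hu' (hn.head.trans (e ▸ h'.head.symm))⟩

theorem strip_one (hC : C.Alpha) {F : X ≃ₜ X} (hF : C.Good F) (hc : ∀ t, C.c F t ∉ W.A false) :
    ∃ H s₁ s₂, C.Mv H ∧ C.Half (H * F) s₁ s₂ := by
  obtain ⟨t₁, m, g, u, h⟩ := exists_finger hC hF.1 hc 0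
  obtain ⟨t₂, m', g', u', h'⟩ := exists_finger hC hF.1 hc 1
  rw [Int.cast_zero, zero_div] at h
  rw [Int.cast_one] at h'
  obtain ⟨h1, h2⟩ := between hC hF.1 hc h h'
  obtain ⟨d, hi, hr, hK, τ₁, τ₂, hτ, e₁, e₂, him, hout⟩ :=
    finger_path hC hF.1 hc h h' one_half_pos
  have hLA : C.L ⊆ W.A false := hC.1 ▸ C.L_subset_A
  have hcl : ∀ x ∈ range d, x ∈ (fun r : ℝ => C.Φ r) '' Icc 0 (1 / 2) ∨
      (x ∉ W.A false ∧ ((∃ s ∈ Icc 0 u, m (s : ℝ) = x) ∨ ∃ s ∈ Icc 0 u', m' (s : ℝ) = x)) := by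
    rw [hr]
    rintro x ((⟨s, hs, rfl⟩ | hx) | ⟨s, hs, rfl⟩)
    · rcases hs.1.eq_or_lt with rfl | h0
      · exact Or.inl ⟨0, ⟨le_rfl, one_half_pos.le⟩, h.foot.symm⟩
      · exact Or.inr ⟨h.notMem_A h0 hs.2, Or.inl ⟨s, hs, rfl⟩⟩
    · exact Or.inl hx
    · rcases hs.1.eq_or_lt with rfl | h0
      · exact Or.inl ⟨1 / 2, ⟨one_half_pos.le, le_rfl⟩, h'.foot.symm⟩
      · exact Or.inr ⟨h'.notMem_A h0 hs.2, Or.inr ⟨s, hs, rfl⟩⟩
  have hseg : ∀ x ∈ (fun r : ℝ => C.Φ r) '' Icc 0 (1 / 2), x ∈ C.L := by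
    rintro _ ⟨r, -, rfl⟩
    exact C.ch.mem r
  have hk : ∀ {a : Γ} {v v' : ℝ}, (∃ k : ℤ, a = C.γ ^ k ∧ v' = v + k) → |v' - v| < 1 → a = 1 := by
    rintro a v v' ⟨k, rfl, rfl⟩ hv
    rw [add_sub_cancel_left, ← Int.cast_abs, ← Int.cast_one, Int.cast_lt, Int.abs_lt_one_iff] at hv
    rw [hv, zpow_zero]
  obtain ⟨H, hH, hd, hoff⟩ := arc_move hF h1 h2 d hi hK
    (disjoint_left.2 fun x hx hy => (hcl x hx).elim
      (fun hx => disjoint_left.1 hC.disjoint (hseg x hx) hy) fun hx => hx.1 (hC.Y_subset hy))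
    (fun t _ => hC.c_notMem_Y hF t) (by
      intro a x hx hax
      rcases hcl x hx with h3 | ⟨h3, h4⟩ <;> rcases hcl _ hax with h5 | ⟨h5, h6⟩
      · refine W.wand_seg C.hL C.ch (a := 0) (b := 1 / 2) (by norm_num [abs_lt]) a x ?_ ?_ <;>
          rwa [uIcc_of_le one_half_pos.le]
      · exact absurd ((W.smul_mem_A a).2 (hLA (hseg x h3))) h5
      · exact absurd ((W.smul_mem_A a).1 (hLA (hseg _ h5))) h3
      · rcases h4 with ⟨s, hs, rfl⟩ | ⟨s, hs, rfl⟩ <;> rcases h6 with ⟨s', hs', e⟩ | ⟨s', hs', e⟩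
        · exact hk (finger_disj hC hF.1 h h hs hs' e.symm) (by norm_num)
        · exact hk (finger_disj hC hF.1 h h' hs hs' e.symm) (by norm_num [abs_lt])
        · exact hk (finger_disj hC hF.1 h' h hs hs' e.symm) (by norm_num [abs_lt])
        · exact hk (finger_disj hC hF.1 h' h' hs hs' e.symm) (by norm_num))
  have hp := sub_pos.2 h1
  have hτ' : (τ₁ : ℝ) < τ₂ := hτ
  have b₁ := param_mem_Icc h1.le τ₁
  have b₂ := param_mem_Icc h1.le τ₂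
  have hlt : ∀ {a b : I}, t₁ + a * (t₂ - t₁) < t₁ + b * (t₂ - t₁) ↔ a < b := by
    intro a b
    rw [add_lt_add_iff_left, mul_lt_mul_iff_left₀ hp]
    rfl
  refine ⟨H, t₁ + τ₁ * (t₂ - t₁), t₁ + τ₂ * (t₂ - t₁), hH, hlt.2 hτ, by linarith [b₁.1, b₂.2],
    by rw [c_mul, hd, e₁, Complex.ofReal_zero], by rw [c_mul, hd, e₂], ?_, fun t h3 h4 => ?_⟩
  · rw [← him]
    ext x
    constructor
    · rintro ⟨t, ht, rfl⟩
      obtain ⟨τ, rfl⟩ := exists_param h1 (r := t) ⟨b₁.1.trans ht.1, ht.2.trans b₂.2⟩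
      exact ⟨τ, ⟨not_lt.1 fun h3 => (hlt.2 h3).not_ge ht.1,
        not_lt.1 fun h3 => (hlt.2 h3).not_ge ht.2⟩, by rw [c_mul, hd]⟩
    · rintro ⟨τ, hτ, rfl⟩
      exact ⟨_, ⟨not_lt.1 fun h3 => (hlt.1 h3).not_ge hτ.1,
        not_lt.1 fun h3 => (hlt.1 h3).not_ge hτ.2⟩, by rw [c_mul, hd]⟩
  rcases le_total t t₂ with h5 | h5
  · obtain ⟨τ, rfl⟩ := exists_param h1 (r := t) ⟨b₂.1.trans h3.le, h5⟩
    rw [c_mul, hd]
    exact hout τ (Or.inr (hlt.1 h3))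
  rcases le_total t (t₁ + 1) with h6 | h6
  · rw [c_mul, hoff t (off_of_mem h5 h6)]
    exact hc t
  · obtain ⟨τ, e⟩ := exists_param h1 (r := t - 1) ⟨by linarith, by linarith [b₁.2]⟩
    have h7 := hit_add_int (C := C) (hH.good.mul hF).1 (κ := false) (t - 1) 1
    rw [Int.cast_one, sub_add_cancel] at h7
    rw [h7, e, c_mul, hd]
    exact hout τ (Or.inl (hlt.1 (by linarith)))

theorem t35_red (a t : ℝ) : ∃ (t' : ℝ) (k : ℤ), a ≤ t' ∧ t' < a + 1 ∧ t = t' + k :=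
  ⟨a + Int.fract (t - a), ⌊t - a⌋, le_add_of_nonneg_right (Int.fract_nonneg _),
    add_lt_add_right (Int.fract_lt_one _) a, by rw [add_assoc, Int.fract_add_floor, add_sub_cancel]⟩

theorem strip_two (hC : C.Alpha) {F : X ≃ₜ X} (hF : C.Good F) {s₁ s₂ : ℝ} (h : C.Half F s₁ s₂) :
    ∃ H, C.Mv H ∧ (H * F) '' C.L = C.L := by
  have hΦ : Continuous fun s : ℝ => C.Φ s := by fun_prop
  have h1 : C.c F (s₁ + 1) = C.Φ (1 : ℝ) := by
    have e := C.c_add_int hF.1 s₁ 1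
    rw [Int.cast_one, zpow_one, h.left, ← C.ch.per, zero_add] at e
    exact e
  have h2 : (1 / 2 : ℝ) < 1 := one_half_lt_one
  obtain ⟨H, hH, e1, e2⟩ := arc_move hF h.lt' (add_lt_add_left h.lt 1)
    ((subArc hΦ (1 / 2) 1).cast h.right h1)
    (subArc_injective hΦ (C.Φ.injective.comp Complex.ofReal_injective).injOn h2.ne)
    (fun τ hK => by
      by_contra c
      rw [not_or] at c
      have c1 := param_mem_Ioo h2 c.1 c.2
      obtain ⟨g, t, c2⟩ := (C.mem_K_iff hF.1).1 hK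
      obtain ⟨t, k, c3, c4, rfl⟩ := t35_red s₁ t
      rw [C.c_add_int hF.1, smul_smul] at c2
      have c5 : t ≤ s₂ := not_lt.1 fun c => h.free t c c4 ((W.smul_mem_A (g * C.γ ^ k)).1
        (c2 ▸ hC.1 ▸ C.L_subset_A (C.ch.mem _)))
      obtain ⟨r, c6, c7⟩ := h.img.subset ⟨t, ⟨c3, c5⟩, rfl⟩
      obtain ⟨j, -, c8⟩ := W.smul_chart C.hL C.ch (s := r) ((congrArg _ c7).trans c2.symm)
      have c9 : (0 : ℝ) < j := by linarith [c1.1, c6.2]
      have c10 : (j : ℝ) < 1 := by linarith [c1.2, c6.1]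
      have c11 : j < 1 := by exact_mod_cast c10
      exact absurd (Int.cast_pos.1 c9) (by omega))
    (hC.disjoint.mono_left (range_subset_iff.2 fun τ => C.ch.mem _))
    (fun t _ => hC.c_notMem_Y hF t)
    ((W.wand_seg C.hL C.ch (a := 1 / 2) (b := 1) (by norm_num [abs_lt])).mono
      (range_subArc hΦ _ _).subset)
  have hE : Equi Γ (H * F) := hH.1.equi.mul hF.1
  have e3 : ∀ t ∈ Icc s₁ s₂, C.c (H * F) t = C.c F t := fun t ht =>
    (C.c_mul H F t).trans (e2 t (off_of_mem' (by linarith [ht.1]) ht.2))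
  refine ⟨H, hH, (C.range_c _).symm.trans (Subset.antisymm (range_subset_iff.2 fun t => ?_)
    fun x hx => ?_)⟩
  · obtain ⟨t, k, c1, c2, rfl⟩ := t35_red s₁ t
    rw [C.c_add_int hE, ← C.ch.zpow_smul k]
    refine smul_mem_smul_set ?_
    rcases le_total t s₂ with c | c
    · obtain ⟨r, -, c3⟩ := h.img.subset ⟨t, ⟨c1, c⟩, rfl⟩
      rw [e3 t ⟨c1, c⟩, ← c3]
      exact C.ch.mem r
    · obtain ⟨τ, rfl⟩ := exists_param h.lt' ⟨c, c2.le⟩
      rw [C.c_mul, e1]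
      exact C.ch.mem _
  · obtain ⟨r, rfl⟩ := mem_hor_iff.1 (C.ch.axis ▸ hx)
    obtain ⟨r, k, c1, c2, rfl⟩ := t35_red 0 r
    suffices c : ∃ t, C.c (H * F) t = C.Φ r by
      obtain ⟨t, ht⟩ := c
      exact ⟨t + k, by rw [C.c_add_int hE, ht, C.ch.per_real]⟩
    rcases le_total r (1 / 2) with c | c
    · obtain ⟨t, c3, c4⟩ := h.img.superset ⟨r, ⟨c1, c⟩, rfl⟩
      exact ⟨t, (e3 t c3).trans c4⟩
    · obtain ⟨τ, rfl⟩ := exists_param h2 ⟨c, by linarith⟩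
      exact ⟨_, (C.c_mul H F _).trans (e1 τ)⟩

theorem t36_per {H : X ≃ₜ X} (hH : C.Mv H) (k : ℤ) (r : ℝ) :
    H (C.Φ ((r + k : ℝ) : ℂ)) = C.γ ^ k • H (C.Φ r) := by
  rw [C.ch.per_real, hH.1.equi]

theorem reparam (hC : C.Alpha) {a b : ℝ} (hab : a < b) (hb : b < a + 1) {φ : ℝ → ℝ}
    (hφ : Continuous φ) (hm : StrictMonoOn φ (Icc a b)) (ha' : φ a = a) (hb' : φ b = b) :
    ∃ H, C.Mv H ∧ H '' C.L = C.L ∧ (∀ t ∈ Icc a b, H (C.Φ t) = C.Φ (φ t)) ∧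
      ∀ t : ℝ, Off a b t → H (C.Φ t) = C.Φ t := by
  obtain ⟨N, -, hN, -⟩ := alpha_box hC hab hb
  let η : Path (C.Φ a) (C.Φ b) :=
    { toFun := fun τ => C.Φ ((φ (a + τ * (b - a)) : ℝ) : ℂ)
      continuous_toFun := C.Φ.continuous.comp (by fun_prop)
      source' := by simp [ha']
      target' := by simp [hb'] }
  have hη : N.Proper η := by
    refine ⟨fun τ τ' h => ?_, hN.left, hN.right, fun τ h0 h1 => ?_⟩
    · have h1 := hm.injOn (param_mem_Icc hab.le τ) (param_mem_Icc hab.le τ')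
        (Complex.ofReal_injective (C.Φ.injective h))
      exact Subtype.ext (mul_right_cancel₀ (sub_pos.2 hab).ne' (add_left_cancel h1))
    · have h2 := param_mem_Ioo hab h0 h1
      exact hN.mid _ (ha'.symm.trans_lt (hm (left_mem_Icc.2 hab.le) (Ioo_subset_Icc_self h2) h2.1))
        ((hm (Ioo_subset_Icc_self h2) (right_mem_Icc.2 hab.le) h2.2).trans_eq hb')
  obtain ⟨H, hH, h1, h2⟩ := box_move hN η hη
  have h3 : ∀ t ∈ Icc a b, H (C.Φ t) = C.Φ (φ t) := fun t ht => by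
    obtain ⟨τ, rfl⟩ := exists_param hab ht
    exact h1 τ
  have hL : ∀ x ∈ C.L, ∃ t : ℝ, x = C.Φ t := fun x hx => mem_hor_iff.1 (C.ch.axis ▸ hx)
  refine ⟨H, hH, Subset.antisymm ?_ fun x hx => ?_, h3, h2⟩
  · rintro _ ⟨x, hx, rfl⟩
    obtain ⟨t, rfl⟩ := hL x hx
    by_cases ht : Off a b t
    · rw [h2 t ht]
      exact hx
    · obtain ⟨k, hk⟩ := not_off_iff.1 ht
      have h4 := t36_per hH (-k) (t + k)
      rw [h3 _ ⟨hk.1.le, hk.2.le⟩, ← C.ch.per_real, show t + k + (-k : ℤ) = t by simp] at h4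
      rw [h4]
      exact C.ch.mem _
  · obtain ⟨t, rfl⟩ := hL x hx
    by_cases ht : Off a b t
    · exact ⟨_, hx, h2 t ht⟩
    · obtain ⟨k, hk⟩ := not_off_iff.1 ht
      obtain ⟨r, hr, h4⟩ := intermediate_value_Icc hab.le hφ.continuousOn
        (show t + k ∈ Icc (φ a) (φ b) from ⟨ha'.trans_le hk.1.le, hk.2.le.trans_eq hb'.symm⟩)
      refine ⟨_, C.ch.mem (r + (-k : ℤ)), ?_⟩
      rw [t36_per hH, h3 r hr, h4, ← C.ch.per_real, show t + k + (-k : ℤ) = t by simp]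

theorem t36_mono {p q : ℝ} (hp : 0 < p) (hq : 0 < q) :
    StrictMono fun u : ℝ => p * min u 0 + q * max u 0 := by
  intro u v h
  dsimp only
  rcases le_total v 0 with hv | hv
  · have hu := h.le.trans hv
    rw [min_eq_left hv, min_eq_left hu, max_eq_right hv, max_eq_right hu]
    nlinarith
  · rcases le_total u 0 with hu | hu
    · rw [min_eq_right hv, min_eq_left hu, max_eq_left hv, max_eq_right hu]
      rcases hu.lt_or_eq with hu | hu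
      · nlinarith [mul_nonneg hq.le hv]
      · subst hu
        nlinarith
    · rw [min_eq_right hv, min_eq_right hu, max_eq_left hv, max_eq_left hu]
      nlinarith

theorem slide (hC : C.Alpha) {a b s s' : ℝ} (hb : b < a + 1) (hs : s ∈ Ioo a b)
    (hs' : s' ∈ Ioo a b) :
    ∃ H, C.Mv H ∧ H '' C.L = C.L ∧ H (C.Φ s) = C.Φ s' ∧
      ∀ t : ℝ, Off a b t → H (C.Φ t) = C.Φ t := by
  have h1 := sub_pos.2 hs.1
  have h2 := sub_pos.2 hs.2
  obtain ⟨H, hH, hL, h3, h4⟩ := reparam hC (hs.1.trans hs.2) hb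
    (φ := fun t => s' + ((s' - a) / (s - a) * min (t - s) 0 + (b - s') / (b - s) * max (t - s) 0))
    (by fun_prop)
    (fun u _ v _ h => add_lt_add_right (t36_mono (div_pos (sub_pos.2 hs'.1) h1)
      (div_pos (sub_pos.2 hs'.2) h2) (sub_lt_sub_right h s)) s')
    (by
      rw [min_eq_left (by linarith), max_eq_right (by linarith)]
      field_simp
      ring)
    (by
      rw [min_eq_right h2.le, max_eq_left h2.le]
      field_simp
      ring)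
  refine ⟨H, hH, hL, ?_, h4⟩
  simpa using h3 s (Ioo_subset_Icc_self hs)

theorem t36_steps (hC : C.Alpha) (s : ℝ) {d : ℝ} (hd : |d| ≤ 1 / 2) (n : ℕ) :
    ∃ H, C.Mv H ∧ H '' C.L = C.L ∧ H (C.Φ s) = C.Φ ((s + n * d : ℝ) : ℂ) := by
  induction n with
  | zero => exact ⟨1, C.mv_one, image_id _, by simp⟩
  | succ n ih =>
    obtain ⟨H, hH, hL, h⟩ := ih
    obtain ⟨h1, h2⟩ := abs_le.1 hd
    obtain ⟨H', hH', hL', h', -⟩ := slide hC (a := s + n * d + d / 2 - 3 / 8)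
      (b := s + n * d + d / 2 + 3 / 8) (s := s + n * d) (s' := s + (n + 1 : ℕ) * d)
      (by linarith) ⟨by linarith, by linarith⟩ ⟨by push_cast; linarith, by push_cast; linarith⟩
    refine ⟨H' * H, hH'.mul hH, ?_, ?_⟩
    · exact (image_comp H' H _).trans (by rw [hL, hL'])
    · rw [Homeomorph.mul_apply, h, h']

theorem slide_trans (hC : C.Alpha) (s s' : ℝ) :
    ∃ H, C.Mv H ∧ H '' C.L = C.L ∧ H (C.Φ s) = C.Φ s' := by
  obtain ⟨n, hn⟩ := exists_nat_gt (2 * |s' - s|)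
  have h0 : (0 : ℝ) < n := (mul_nonneg zero_le_two (abs_nonneg _)).trans_lt hn
  have h := t36_steps hC s (d := (s' - s) / n) (by
    rw [abs_div, abs_of_pos h0, div_le_iff₀ h0]
    linarith) n
  rwa [mul_div_cancel₀ _ h0.ne', add_sub_cancel] at h

theorem exists_phi {F : X ≃ₜ X} (hF : Equi Γ F) (hL : F '' C.L = C.L) :
    ∃ φ : ℝ → ℝ, Continuous φ ∧ StrictMono φ ∧ (∀ t, φ (t + 1) = φ t + 1) ∧
      ∀ t, C.c F t = C.Φ (φ t) := by
  have h1 : ∀ t, C.c F t = C.Φ ((C.Φ.symm (C.c F t)).re : ℝ) := fun t => by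
    have k : C.c F t ∈ hor C.Φ := by
      rw [← C.ch.axis, ← hL, ← C.range_c]
      exact mem_range_self t
    obtain ⟨r, hr⟩ := mem_hor_iff.1 k
    rw [hr, Homeomorph.symm_apply_apply, Complex.ofReal_re]
  have hc : Continuous fun t => (C.Φ.symm (C.c F t)).re :=
    Complex.continuous_re.comp (C.Φ.symm.continuous.comp (C.continuous_c F))
  have hp : ∀ t, (C.Φ.symm (C.c F (t + 1))).re = (C.Φ.symm (C.c F t)).re + 1 := fun t => by
    have k := C.c_add_int hF t 1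
    rw [Int.cast_one, zpow_one, h1 t, ← C.ch.per] at k
    rw [k, Homeomorph.symm_apply_apply, Complex.add_re, Complex.ofReal_re, Complex.one_re]
  have hi : Injective fun t => (C.Φ.symm (C.c F t)).re := fun s t h =>
    C.injective_c F (by rw [h1 s, h1 t]; exact congrArg (fun r : ℝ => C.Φ r) h)
  refine ⟨_, hc, (hc.strictMono_of_inj hi).resolve_right fun h => ?_, hp, h1⟩
  have k := h (lt_add_one 0)
  have k' := hp 0
  dsimp only at k
  linarith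

theorem t37_eq {s t : ℝ} (h : C.Φ s = C.Φ t) : s = t := Complex.ofReal_injective (C.Φ.injective h)

theorem t37_img {H F : X ≃ₜ X} (hH : H '' C.L = C.L) (hF : F '' C.L = C.L) :
    (H * F) '' C.L = C.L := by
  change (H ∘ F) '' C.L = C.L
  rw [image_comp, hF, hH]

theorem t37_two (hC : C.Alpha) {F : X ≃ₜ X} (hF : C.Good F) (hL : F '' C.L = C.L) :
    ∃ H, C.Mv H ∧ (H * F) '' C.L = C.L ∧ C.c (H * F) 0 = C.Φ (0 : ℝ) ∧
      C.c (H * F) (1 / 2) = C.Φ (1 / 2 : ℝ) := by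
  obtain ⟨φ, -, -, -, h0⟩ := exists_phi hF.1 hL
  obtain ⟨H₁, m1, i1, e1⟩ := slide_trans hC (φ 0) 0
  have l1 := t37_img i1 hL
  have z1 : C.c (H₁ * F) 0 = C.Φ (0 : ℝ) := by rw [C.c_mul, h0, e1]
  obtain ⟨ψ, -, hm, hp, h1⟩ := exists_phi (m1.good.mul hF).1 l1
  have p0 : ψ 0 = 0 := t37_eq ((h1 0).symm.trans z1)
  have p1 : ψ 1 = 1 := by
    have k := hp 0
    rwa [p0, zero_add] at k
  have q0 : 0 < ψ (1 / 2) := p0.symm.trans_lt (hm (by norm_num))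
  have q1 : ψ (1 / 2) < 1 := (hm (by norm_num)).trans_eq p1
  have a0 : 0 < min (ψ (1 / 2)) (1 / 2) := lt_min q0 (by norm_num)
  have a1 := min_le_left (ψ (1 / 2)) (1 / 2)
  have a2 := min_le_right (ψ (1 / 2)) (1 / 2)
  obtain ⟨H₂, m2, i2, e2, o2⟩ := slide hC (a := min (ψ (1 / 2)) (1 / 2) / 2) (b := 1)
    (s := ψ (1 / 2)) (s' := 1 / 2) (by linarith) ⟨by linarith, q1⟩ ⟨by linarith, by norm_num⟩
  refine ⟨H₂ * H₁, m2.mul m1, ?_, ?_, ?_⟩ <;> rw [mul_assoc]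
  · exact t37_img i2 l1
  · rw [C.c_mul, z1, o2 0 (off_of_mem' (by norm_num) (by linarith))]
  · rw [C.c_mul, h1, e2]

theorem param_fix (hC : C.Alpha) {F : X ≃ₜ X} (hF : C.Good F) (hL : F '' C.L = C.L) :
    ∃ H, C.Mv H ∧ ∀ x ∈ C.L, (H * F) x = x := by
  obtain ⟨H, m, l, z0, z1⟩ := t37_two hC hF hL
  have hG := m.good.mul hF
  obtain ⟨φ, hc, hm, hp, h1⟩ := exists_phi hG.1 l
  have p0 : φ 0 = 0 := t37_eq ((h1 0).symm.trans z0)
  have p2 : φ (1 / 2) = 1 / 2 := t37_eq ((h1 _).symm.trans z1)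
  have p1 : φ 1 = 1 := by
    have k := hp 0
    rwa [p0, zero_add] at k
  obtain ⟨H₃, m3, -, e3, o3⟩ := reparam hC (a := 0) (b := 1 / 2) (by norm_num) (by norm_num) hc
    (hm.strictMonoOn _) p0 p2
  obtain ⟨H₄, m4, -, e4, o4⟩ := reparam hC (a := 1 / 2) (b := 1) (by norm_num) (by norm_num) hc
    (hm.strictMonoOn _) p2 p1
  have key : ∀ t : ℝ, 0 ≤ t → t ≤ 1 → (H₃ * H₄) (C.Φ t) = (H * F) (C.Φ t) := fun t t0 t1 => by
    change H₃ (H₄ (C.Φ t)) = C.c (H * F) t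
    rw [h1]
    rcases le_total t (1 / 2) with h | h
    · rw [o4 t (off_of_mem' (by linarith) h), e3 t ⟨t0, h⟩]
    · rw [e4 t ⟨h, t1⟩, o3 _ (off_of_mem (p2.symm.trans_le (hm.monotone h)) ?_)]
      rw [zero_add]
      exact (hm.monotone t1).trans_eq p1
  have mv := (m3.mul m4).inv.mul m
  refine ⟨_, mv, fun x hx => ?_⟩
  obtain ⟨r, rfl⟩ := mem_hor_iff.1 (C.ch.axis.subset hx)
  rw [← Int.fract_add_floor r, C.ch.per_real, (mv.good.mul hF).1, mul_assoc]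
  congr 1
  change (H₃ * H₄).symm ((H * F) _) = _
  rw [← key _ (Int.fract_nonneg r) (Int.fract_lt_one r).le, Homeomorph.symm_apply_apply]

theorem alpha_step (hC : C.Alpha) {F : X ≃ₜ X} (hF : C.Good F) :
    ∃ F', C.Good F' ∧ (∀ x ∈ C.L, F' x = x) ∧ (EqIso Γ F' → EqIso Γ F) := by
  obtain ⟨H₁, m1, t1⟩ := tame_alpha hC hF
  have g1 := hF.mul m1.good
  obtain ⟨H₂, m2, t2, nb⟩ := no_bigon g1 t1
  have g2 := m2.good.mul g1
  have hc : ∀ t, C.c (H₂ * (F * H₁)) t ∉ W.A false := fun t ht => by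
    obtain ⟨a, b, L, h⟩ := exists_bigon_hit hC g2 t2 (hC.1 ▸ ht)
    exact nb a b L h
  obtain ⟨H₃, s₁, s₂, m3, hh⟩ := strip_one hC g2 hc
  have g3 := m3.good.mul g2
  obtain ⟨H₄, m4, l4⟩ := strip_two hC g3 hh
  have g4 := m4.good.mul g3
  obtain ⟨H₅, m5, e5⟩ := param_fix hC g4 l4
  exact ⟨_, m5.good.mul g4, e5, fun h => m1.1.of_mul_right (m2.1.of_mul_left (m3.1.of_mul_left
    (m4.1.of_mul_left (m5.1.of_mul_left h))))⟩

theorem t38_vtx (hC : C.Beta) (k : ℤ) {t : ℝ} (ht : t = k / 2) : C.Φ t ∈ C.Y :=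
  hC.vertex k (mem_ver.2 ht)

theorem beta_inside (hC : C.Beta) {F : X ≃ₜ X} (hF : C.Good F)
    (hc : ∀ t, ∀ L' ∈ W.wall true, C.c F t ∈ L' → L' = C.L) (k : ℤ) (E : Dsc X)
    (hb : ∀ x ∈ E.bd, ∃ κ, ∃ N ∈ W.wall κ, N ≠ C.L ∧ x ∈ N)
    (he : ∀ t : ℝ, k / 2 < t → t < (k + 1) / 2 → C.Φ t ∈ E.int) :
    ∀ t : ℝ, k / 2 < t → t < (k + 1) / 2 → C.c F t ∈ E.int := by
  intro t h1 h2
  refine E.subset_int (isPreconnected_Ioo.image _ (C.continuous_c F).continuousOn)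
    (disjoint_left.2 ?_) ?_ ⟨t, ⟨h1, h2⟩, rfl⟩
  · rintro _ ⟨s, hs, rfl⟩ h3
    obtain ⟨_ | _, N, h4, h5, h6⟩ := hb _ h3
    · exact disjoint_left.1 E.disjoint_int_bd (he s hs.1 hs.2)
        (hF.c_mem_Y ⟨N, hC.2 h4, h6⟩ ▸ h3)
    · exact h5 (hc s N h4 h6)
  · obtain ⟨r, hr, h3⟩ := half_ball (C := C) k (.inl rfl) E hb fun s c1 c2 =>
      he _ (by linarith) (by linarith)
    have h4 : ∀ᶠ s in 𝓝 (k / 2 : ℝ), dist (C.Φ.symm (C.c F s)) ((k / 2 : ℝ) : ℂ) < r := by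
      refine (C.Φ.symm.continuous.comp (C.continuous_c F)).continuousAt.eventually_mem
        (isOpen_ball.mem_nhds ?_)
      rw [comp_apply, Ctx.c, hF.2 _ (t38_vtx hC k rfl), C.Φ.symm_apply_apply]
      exact mem_ball_self hr
    obtain ⟨s, c1, c2⟩ := ((h4.filter_mono nhdsWithin_le_nhds).and
      (Ioo_mem_nhdsGT (h1.trans h2))).exists
    have c3 := (sides_pres C.ch.per hF.1 (r := k / 2)
      (EqOn.image_eq_self fun x hx => hF.2 x (hC.vertex k hx)) s).1 c2.1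
    have c4 := (h3 _ c1 (by rw [one_mul]; exact sub_pos.2 c3)).1
    rw [C.Φ.apply_symm_apply] at c4
    exact ⟨_, ⟨s, c2, rfl⟩, E.int_subset_cl c4⟩

theorem t38_move {F : X ≃ₜ X} {N : Dsc X} {a b : ℝ} (hN : C.Box N a b) (ha : C.c F a = C.Φ a)
    (hb : C.c F b = C.Φ b) (h : ∀ t, a < t → t < b → C.c F t ∈ N.int) :
    ∃ H, C.Mv H ∧ (∀ t ∈ Icc a b, H (C.c F t) = C.Φ t) ∧ ∀ z, z ∉ Orb Γ N.int → H z = z := by
  obtain ⟨H, h1, h2, h3⟩ := kmove W.base N hN.wand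
    ((subArc (C.continuous_c F) a b).cast ha.symm hb.symm) _
    ⟨subArc_injective (C.continuous_c F) (C.injective_c F).injOn hN.lt.ne, hN.left, hN.right,
      fun t h0 h1 => h _ (param_mem_Ioo hN.lt h0 h1).1 (param_mem_Ioo hN.lt h0 h1).2⟩ hN.proper
  refine ⟨H, ⟨h1, fun y hy => h3 y fun ⟨g, hg⟩ =>
    disjoint_left.1 hN.missY hg ((C.smul_mem_Y g).2 hy)⟩, fun t ht => ?_, h3⟩
  obtain ⟨τ, rfl⟩ := exists_param hN.lt ht
  exact h2 τ

theorem beta_final (hC : C.Beta) {E : Fin 2 → Dsc X} (hE : Dbl Γ W.wall C.L C.Φ E) {F : X ≃ₜ X}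
    (hF : C.Good F) (hc : ∀ t, ∀ L' ∈ W.wall true, C.c F t ∈ L' → L' = C.L) :
    ∃ H, C.Mv H ∧ ∀ x ∈ C.L, (H * F) x = x := by
  obtain ⟨b0, b1⟩ := dbl_box hC hE
  have y0 : C.Φ (0 : ℝ) ∈ C.Y := t38_vtx hC 0 (by simp)
  have y1 : C.Φ (1 / 2 : ℝ) ∈ C.Y := t38_vtx hC 1 (by simp)
  have y2 : C.Φ (1 : ℝ) ∈ C.Y := t38_vtx hC 2 (by simp)
  have i0 : ∀ t : ℝ, 0 < t → t < 1 / 2 → C.c F t ∈ (E 0).int := fun t c1 c2 =>
    beta_inside hC hF hc 0 _ (hE.bdry 0) (fun s c1 c2 => b0.mid s (by simpa using c1)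
      (by simpa using c2)) t (by simpa using c1) (by simpa using c2)
  have i1 : ∀ t : ℝ, 1 / 2 < t → t < 1 → C.c F t ∈ (E 1).int := fun t c1 c2 =>
    beta_inside hC hF hc 1 _ (hE.bdry 1) (fun s c1 c2 => b1.mid s (by simpa using c1)
      (by simpa using c2)) t (by simpa using c1) (by simpa using c2)
  obtain ⟨H₀, m0, e0, f0⟩ := t38_move b0 (hF.2 _ y0) (hF.2 _ y1) i0
  obtain ⟨H₁, m1, e1, f1⟩ := t38_move b1 (hF.2 _ y1) (hF.2 _ y2) i1
  have hm := m1.mul m0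
  refine ⟨H₁ * H₀, hm, fun x hx => ?_⟩
  obtain ⟨r, rfl⟩ := mem_hor_iff.1 (C.ch.axis ▸ hx)
  have key : ∀ t : ℝ, 0 ≤ t → t < 1 → C.c (H₁ * H₀ * F) t = C.Φ t := fun t c1 c2 => by
    change H₁ (H₀ (C.c F t)) = _
    rcases lt_trichotomy t (1 / 2) with c | rfl | c
    · rw [e0 t ⟨c1, c.le⟩]
      rcases c1.eq_or_lt with rfl | c1
      · exact m1.2 _ y0
      · exact f1 _ fun ⟨g, hg⟩ => absurd (hE.wand 0 1 g _ (b0.mid t c1 c) hg).2 (by decide)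
    · rw [e0 _ ⟨c1, le_rfl⟩, m1.2 _ y1]
    · rw [f0 _ fun ⟨g, hg⟩ => absurd (hE.wand 1 0 g _ (i1 t c c2) hg).2 (by decide),
        e1 t ⟨c.le, c2.le⟩]
  have h1 := C.c_add_int (hm.good.mul hF).1 (Int.fract r) ⌊r⌋
  rw [key _ (Int.fract_nonneg r) (Int.fract_lt_one r), ← C.ch.per_real, Int.fract_add_floor] at h1
  exact h1

theorem beta_step (hC : C.Beta) {E : Fin 2 → Dsc X} (hE : Dbl Γ W.wall C.L C.Φ E) {F : X ≃ₜ X}
    (hF : C.Good F) :
    ∃ F', C.Good F' ∧ (∀ x ∈ C.L, F' x = x) ∧ (EqIso Γ F' → EqIso Γ F) := by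
  obtain ⟨H₁, m1, h1⟩ := tame_beta hC hE hF
  have g1 := hF.mul m1.good
  obtain ⟨H₂, m2, h2, h3⟩ := no_bigon g1 h1
  have g2 := m2.good.mul g1
  obtain ⟨H₃, m3, h4⟩ := beta_final hC hE g2 fun t L' hL ht => by_contra fun e => by
    obtain ⟨t₁, t₂, L'', h5⟩ := exists_bigon_far g2 h2 (hC.1 ▸ hL) e ht
    exact h3 _ _ _ h5
  exact ⟨_, m3.good.mul g2, h4, fun h => m1.1.of_mul_right (m2.1.of_mul_left (m3.1.of_mul_left h))⟩

end Ctx

theorem t39_ind (W : WallSys Γ X) (κ : Bool) (f₀ : Set (Set X))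
    (inv : ∀ (g : Γ), ∀ N ∈ f₀, g • N ∈ f₀)
    (step : ∀ L ∈ W.wall κ, ∀ fam : Set (Set X), f₀ ⊆ fam → fam ⊆ f₀ ∪ W.wall κ →
      (∀ (g : Γ), ∀ N ∈ fam, g • N ∈ fam) → L ∉ fam → ∀ F : X ≃ₜ X, Equi Γ F →
      (∀ y ∈ ⋃₀ fam, F y = y) → ∃ F' : X ≃ₜ X, (Equi Γ F' ∧ ∀ y ∈ ⋃₀ fam, F' y = y) ∧
        (∀ x ∈ L, F' x = x) ∧ (EqIso Γ F' → EqIso Γ F))
    {F : X ≃ₜ X} (hF : Equi Γ F) (h0 : ∀ y ∈ ⋃₀ f₀, F y = y) :
    ∃ F' : X ≃ₜ X, Equi Γ F' ∧ (∀ y ∈ ⋃₀ (f₀ ∪ W.wall κ), F' y = y) ∧ (EqIso Γ F' → EqIso Γ F) := by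
  have key : ∀ S : Set (Set X), S.Finite → S ⊆ W.wall κ → ∃ F' : X ≃ₜ X, Equi Γ F' ∧
      (∀ y ∈ ⋃₀ (f₀ ∪ {N | ∃ g : Γ, g • N ∈ S}), F' y = y) ∧ (EqIso Γ F' → EqIso Γ F) := by
    intro S hS
    induction S, hS using Set.Finite.induction_on with
    | empty => exact fun _ => ⟨F, hF, by simpa using h0, id⟩
    | @insert L S _ _ ih =>
      intro hs
      obtain ⟨F₁, e1, f1, i1⟩ := ih ((subset_insert _ _).trans hs)
      obtain ⟨F₂, ⟨e2, f2⟩, l2, i2⟩ : ∃ F' : X ≃ₜ X, (Equi Γ F' ∧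
          ∀ y ∈ ⋃₀ (f₀ ∪ {N | ∃ g : Γ, g • N ∈ S}), F' y = y) ∧ (∀ x ∈ L, F' x = x) ∧
          (EqIso Γ F' → EqIso Γ F₁) := by
        by_cases hL : L ∈ f₀ ∪ {N | ∃ g : Γ, g • N ∈ S}
        · exact ⟨F₁, ⟨e1, f1⟩, fun x hx => f1 x ⟨L, hL, hx⟩, id⟩
        refine step L (hs (mem_insert _ _)) _ subset_union_left (union_subset_union_right _ ?_)
          ?_ hL F₁ e1 f1
        · rintro N ⟨g, hg⟩
          rw [← inv_smul_smul g N]
          exact W.smul_mem _ _ _ (hs (mem_insert_of_mem _ hg))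
        · rintro g N (hN | ⟨g', hg⟩)
          · exact .inl (inv g N hN)
          · exact .inr ⟨g' * g⁻¹, by rwa [mul_smul, inv_smul_smul]⟩
      refine ⟨F₂, e2, ?_, fun h => i1 (i2 h)⟩
      rintro y ⟨N, hN | ⟨g, rfl | hg⟩, hy⟩
      · exact f2 y ⟨N, .inl hN, hy⟩
      · exact MulAction.injective g ((e2 g y).symm.trans (l2 _ (smul_mem_smul_set hy)))
      · exact f2 y ⟨N, .inr ⟨g, hg⟩, hy⟩
  obtain ⟨S, h1, h2, h3⟩ := W.fin_orb κ
  obtain ⟨F', e, f, i⟩ := key S h1 h2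
  exact ⟨F', e, fun y hy => f y (sUnion_mono (union_subset_union_right _ h3) hy), i⟩

theorem walls_step (W : WallSys Γ X) {F : X ≃ₜ X} (hF : Equi Γ F) :
    ∃ F', Equi Γ F' ∧ (∀ κ, ∀ L ∈ W.wall κ, ∀ x ∈ L, F' x = x) ∧ (EqIso Γ F' → EqIso Γ F) := by
  obtain ⟨F₁, e1, f1, i1⟩ := t39_ind W false ∅ (fun _ _ h => h.elim)
    (fun L hL fam _ h2 h3 h4 F e f => by
      obtain ⟨Φ, γ, ch⟩ := W.chart _ L hL
      rw [empty_union] at h2
      exact Ctx.alpha_step (C := ⟨false, L, hL, Φ, γ, ch, fam, fun N h => ⟨_, h2 h⟩, h3, h4⟩)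
        ⟨rfl, h2⟩ ⟨e, f⟩) hF (by simp)
  rw [empty_union] at f1
  obtain ⟨F₂, e2, f2, i2⟩ := t39_ind W true (W.wall false) (W.smul_mem false)
    (fun L hL fam h1 h2 h3 h4 F e f => by
      obtain ⟨Φ, γ, E, ch, hE⟩ := W.dbl L hL
      exact Ctx.beta_step (C := ⟨true, L, hL, Φ, γ, ch, fam,
        fun N h => (h2 h).elim (⟨_, ·⟩) (⟨_, ·⟩), h3, h4⟩) ⟨rfl, h1⟩ hE ⟨e, f⟩) e1 f1
  refine ⟨F₂, e2, fun κ L hL x hx => f2 x ⟨L, ?_, hx⟩, fun h => i1 (i2 h)⟩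
  cases κ
  exacts [.inl hL, .inr hL]

theorem t40_step (e : ℂ ≃ₜ X) (E : Dsc X) (hw : Wand Γ E.int) {F : X ≃ₜ X} (hF : Equi Γ F)
    (hb : ∀ x ∈ E.bd, F x = x) (hi : ∃ x ∈ E.int, F x = x) :
    ∃ F' : X ≃ₜ X, Equi Γ F' ∧ (∀ x, F x = x → F' x = x) ∧ (∀ x ∈ E.cl, F' x = x) ∧
      (EqIso Γ F' → EqIso Γ F) := by
  obtain ⟨H, h1, h2, -, h4⟩ := disc_alex e E hw F hb hi
  have key : ∀ x, H x = F x → (H⁻¹ * F) x = x := by
    intro x hx
    change H.symm (F x) = x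
    rw [← hx, H.symm_apply_apply]
  refine ⟨H⁻¹ * F, h1.equi.inv.mul hF, fun x hx => key x ?_, fun x hx => key x (h2 x hx),
    fun h => EqIso.of_mul_left h1.inv h⟩
  by_cases ho : x ∈ Orb Γ E.int
  · obtain ⟨g, hg⟩ := ho
    have h5 := h2 _ (E.int_subset_cl hg)
    rw [h1.equi g x, hF g x] at h5
    exact MulAction.injective g h5
  · rw [h4 x ho, hx]

theorem chambers_step (W : WallSys Γ X) {F : X ≃ₜ X} (hF : Equi Γ F)
    (h : ∀ κ, ∀ L ∈ W.wall κ, ∀ x ∈ L, F x = x) : EqIso Γ F := by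
  classical
  obtain ⟨n, E, hw, hb, hi, hc⟩ := W.cover
  have main : ∀ s : Finset (Fin n), ∃ F' : X ≃ₜ X, Equi Γ F' ∧ (∀ x, F x = x → F' x = x) ∧
      (∀ i ∈ s, ∀ x ∈ (E i).cl, F' x = x) ∧ (EqIso Γ F' → EqIso Γ F) := by
    intro s
    induction s using Finset.induction_on with
    | empty => exact ⟨F, hF, fun _ hx => hx, fun i hi => absurd hi (Finset.notMem_empty i), id⟩
    | insert i s _ ih =>
      obtain ⟨F', a1, a2, a3, a4⟩ := ih
      obtain ⟨F'', b1, b2, b3, b4⟩ := t40_step W.base (E i) (hw i) a1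
        (fun x hx => by
          obtain ⟨κ, L, hL, hx'⟩ := hb i x hx
          exact a2 x (h κ L hL x hx'))
        (by
          obtain ⟨x, hx, κ, L, hL, hx'⟩ := hi i
          exact ⟨x, hx, a2 x (h κ L hL x hx')⟩)
      refine ⟨F'', b1, fun x hx => b2 x (a2 x hx), fun j hj x hx => ?_, fun h' => a4 (b4 h')⟩
      rcases Finset.mem_insert.1 hj with rfl | hj
      · exact b3 x hx
      · exact b2 x (a3 j hj x hx)
  obtain ⟨F', a1, -, a3, a4⟩ := main Finset.univ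
  have e1 : F' = 1 := by
    refine Homeomorph.ext fun x => ?_
    obtain ⟨i, g, hg⟩ := hc x
    have h5 := a3 i (Finset.mem_univ i) _ hg
    rw [a1 g x] at h5
    exact MulAction.injective g h5
  exact a4 (e1 ▸ eqIso_one)

theorem baer_epstein (W : WallSys Γ X) (F : X ≃ₜ X) (hF : Equi Γ F) : EqIso Γ F := by
  obtain ⟨F', h1, h2, h3⟩ := walls_step W hF
  exact h3 (chambers_step W h1 h2)

end Pool.Agent.Lib.MP_66609f_al.DN.BE
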