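import Pool.Agent.Lib.MP_66609f_al.DN.Sign3

/-! The mapping class group is the orientation-preserving outer automorphism group. -/

namespace Pool.Agent.Lib.MP_66609f_al.DN

open Set Topology unitInterval

theorem ball_image {A B : Type} [Group A] [Group B] (e : A ≃* B) (S : Set A) (n : ℕ) :
    ball (e '' S) n = e '' ball S n := by
  have key : ∀ {A B : Type} [Group A] [Group B] (e : A ≃* B) (S : Set A),
      e '' ball S n ⊆ ball (e '' S) n := by
    rintro A B _ _ e S _ ⟨_, ⟨l, h1, h2, rfl⟩, rfl⟩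
    refine ⟨l.map e, by simpa using h1, List.forall_mem_map.2 fun y hy => ?_,
      (map_list_prod e l).symm⟩
    exact (h2 y hy).imp (mem_image_of_mem e) fun h => ⟨_, h, map_inv e y⟩
  refine Subset.antisymm (fun x hx => ⟨e.symm x, ?_, e.apply_symm_apply x⟩) (key e S)
  simpa [image_image] using key e.symm _ ⟨x, hx, rfl⟩

theorem growth_transport {A B : Type} [Group A] [Group B] (e : A ≃* B)
    (h : ∀ S0 : Finset A, ∃ S : Finset A, S0 ⊆ S ∧ Subgroup.closure (S : Set A) = ⊤ ∧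
      ¬ IsRational (growthSeries (S : Set A))) (S0 : Finset B) :
    ∃ S : Finset B, S0 ⊆ S ∧ Subgroup.closure (S : Set B) = ⊤ ∧
      ¬ IsRational (growthSeries (S : Set B)) := by
  obtain ⟨S, h1, h2, h3⟩ := h (S0.map e.symm.toEquiv.toEmbedding)
  have h4 : (S.map e.toEquiv.toEmbedding : Set B) = e '' S := Finset.coe_map _ _
  refine ⟨S.map e.toEquiv.toEmbedding, fun x hx => Finset.mem_map.2
    ⟨_, h1 (Finset.mem_map_of_mem _ hx), e.apply_symm_apply x⟩, ?_, ?_⟩
  · rw [h4, ← MonoidHom.coe_coe, ← MonoidHom.map_closure, h2]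
    exact Subgroup.map_top_of_surjective _ e.surjective
  · simpa only [h4, growthSeries, ball_image, ncard_image_of_injective _ e.injective] using h3

section

variable {X S G : Type} [TopologicalSpace X] [TopologicalSpace S] [Group G] [MulAction G X]
  {p : X → S} [SimplyConnectedSpace X] [LocallyPathConnectedSpace X]

/-- If every homeomorphism commuting with the deck group is equivariantly isotopic to the identity,
the kernel of the outer action consists of the homeomorphisms isotopic to the identity. -/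
theorem mem_homeo0 (hp : IsQuotientCoveringMap p G)
    (E : ∀ F : X ≃ₜ X, (∀ (γ : G) x, F (γ • x) = γ • F x) → ∃ h : C(I × X, X),
      (∀ t, IsHomeomorph fun x => h (t, x)) ∧ (∀ t (γ : G) x, h (t, γ • x) = γ • h (t, x)) ∧
      (∀ x, h (0, x) = x) ∧ ∀ x, h (1, x) = F x) (f : S ≃ₜ S) :
    f ∈ Homeo0 S ↔ outHom hp f = 1 := by
  refine ⟨fun ⟨H, _, h0, h1⟩ => ?_, fun h => ?_⟩
  · rw [← map_one (outHom hp)]
    exact (outHom_eq_of_homotopic hp ⟨⟨H, h0, h1⟩⟩).symm
  obtain ⟨F, hF⟩ := (outHom_eq_one hp).1 h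
  obtain ⟨K, h1, h2, h3, h4⟩ := E F hF.eqv
  choose k hk using fun t => exists_desc hp (h1 t).homeomorph 1 (h2 t)
  obtain ⟨L, hL⟩ := exists_quot
    ((IsOpenQuotientMap.id (X := I)).prodMap hp.isOpenQuotientMap).isQuotientMap
    (hp.continuous.comp K.continuous) (by
      rintro ⟨t, x⟩ ⟨s, y⟩ e
      obtain ⟨rfl, e⟩ := Prod.ext_iff.1 e
      obtain ⟨γ, rfl⟩ := hp.apply_eq_iff_mem_orbit.1 e
      exact (congrArg p (h2 _ γ y)).trans (hp.map_smul γ))
  refine ⟨L, fun t => ?_, hp.surjective.forall.2 fun x => (hL (0, x)).trans (congrArg p (h3 x)),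
    hp.surjective.forall.2 fun x => (hL (1, x)).trans ((congrArg p (h4 x)).trans (hF.cov x))⟩
  convert (k t).isHomeomorph using 1
  exact funext (hp.surjective.forall.2 fun x => (hL (t, x)).trans ((hk t).cov x))

theorem homotopic_iff (hp : IsQuotientCoveringMap p G) (m : I → X → X → X)
    (hm : Continuous fun u : I × X × X => m u.1 u.2.1 u.2.2) (h0 : ∀ x y, m 0 x y = x)
    (h1 : ∀ x y, m 1 x y = y) (he : ∀ (γ : G) t x y, m t (γ • x) (γ • y) = γ • m t x y)
    (f : S ≃ₜ S) : ContinuousMap.Homotopic ((1 : S ≃ₜ S) : C(S, S)) (f : C(S, S)) ↔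
      outHom hp f = 1 := by
  rw [← map_one (outHom hp), eq_comm]
  exact ⟨outHom_eq_of_homotopic hp, homotopic_of_outHom_eq hp m hm h0 h1 he⟩

end

variable {g : ℕ} {X : Type} [TopologicalSpace X] [MulAction (SurfaceGroup g) X]
  [SimplyConnectedSpace X] [LocallyPathConnectedSpace X] (M : Model g X)

include M in
theorem Model.orPres_one (hg : 0 < g) : OrPres g 1 :=
  (M.orPres_iff_mem hg _).2 (map_one (outHom M.cov) ▸ one_mem _)

include M in
theorem Model.orPres_mul (hg : 0 < g) {f f' : Surf g ≃ₜ Surf g} (h : OrPres g f) (h' : OrPres g f') :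
    OrPres g (f * f') :=
  (M.orPres_iff_mem hg _).2 (map_mul (outHom M.cov) f f' ▸
    mul_mem ((M.orPres_iff_mem hg _).1 h) ((M.orPres_iff_mem hg _).1 h'))

include M in
theorem Model.orPres_inv (hg : 0 < g) {f : Surf g ≃ₜ Surf g} (h : OrPres g f) : OrPres g f⁻¹ :=
  (M.orPres_iff_mem hg _).2 (map_inv (outHom M.cov) f ▸ inv_mem ((M.orPres_iff_mem hg _).1 h))

/-- The theorem of Dehn, Nielsen and Baer, from realisation and from the description of the kernel. -/
theorem Model.iso (hg : 0 < g) (P N : Subgroup (Surf g ≃ₜ Surf g)) [N.Normal]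
    (hP : ∀ f, f ∈ P ↔ OrPres g f) (hN : ∀ f, f ∈ N ↔ outHom M.cov f = 1)
    (sur : ∀ φ ∈ AutPlus g, ∃ F : X ≃ₜ X, ∀ γ x, F (γ • x) = φ γ • F x) :
    Nonempty ((P ⧸ N.subgroupOf P) ≃* Mod g) := by
  let ρ : P →* Mod g := ((outHom M.cov).comp P.subtype).codRestrict _ fun f =>
    (M.orPres_iff_mem hg _).1 ((hP _).1 f.2)
  refine ⟨(QuotientGroup.quotientMulEquivOfEq (Subgroup.ext fun f => ?_)).trans
    (QuotientGroup.quotientKerEquivOfSurjective ρ ?_)⟩
  · exact (hN f).trans (Subtype.ext_iff (a1 := ρ f) (a2 := 1)).symm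
  rintro ⟨_, φ, hφ, rfl⟩
  obtain ⟨F, hF⟩ := sur φ hφ
  obtain ⟨f, hf⟩ := exists_desc M.cov F φ hF
  exact ⟨⟨f, (hP f).2 ((M.orPres_iff hg hf).2 hφ)⟩, Subtype.ext (hf.outHom M.cov)⟩

end Pool.Agent.Lib.MP_66609f_al.DN
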