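import Pool.Agent.Lib.MP_66609f_al.DN.CMain
import Pool.Agent.Lib.MP_66609f_al.DN.Trans
import Pool.Agent.Lib.MP_66609f_al.DN.BFund
import Pool.Agent.Lib.MP_66609f_al.DN.E0Main
import Pool.Agent.Lib.MP_66609f_al.DN.E6

/-! The hyperbolic model of the universal cover, with realisation and isotopy. -/

namespace Pool.Agent.Lib.MP_66609f_al.DN

theorem exists_model {g : ℕ} (hg : 2 ≤ g) : ∃ (_ : MulAction (SurfaceGroup g) KD) (M : Model g KD),
    (∀ φ : MulAut (SurfaceGroup g), ∃ F : KD ≃ₜ KD, ∀ c x, F (c • x) = φ c • F x) ∧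
      ∀ f, f ∈ Homeo0 (Surf g) ↔ outHom M.cov f = 1 := by
  have : Fact (2 ≤ g) := ⟨hg⟩
  have : ContinuousConstSMul (colW g).ker KD := ⟨fun c => continuous_const_smul c.1⟩
  have : LocallyCompactSpace KD := Metric.isOpen_ball.locallyCompactSpace
  have : IsCancelSMul (colW g).ker KD :=
    isCancelSMul_iff_eq_one_of_smul_eq.2 fun c _ h => Subtype.ext (eq_one_of_col c.2 h)
  obtain ⟨ι, h⟩ := exists_iso_geoMark (by omega) (goodQ_oppWord g) (isMarking_gen g) (geoMark_gen g)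
  obtain ⟨W⟩ := exists_wallSys g
  let A : MulAction (SurfaceGroup g) KD := MulAction.compHom KD ι.toMonoidHom
  have : ContinuousConstSMul (SurfaceGroup g) KD := ⟨fun c => continuous_const_smul (ι c)⟩
  have : ProperlyDiscontinuousSMul (SurfaceGroup g) KD := ⟨fun hK hL =>
    Set.Finite.preimage (f := ι) ι.injective.injOn
      (ProperlyDiscontinuousSMul.finite_disjoint_inter_image hK hL)⟩
  have : IsCancelSMul (SurfaceGroup g) KD := isCancelSMul_iff_eq_one_of_smul_eq.2 fun c _ h =>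
    ι.map_eq_one_iff.1 (IsCancelSMul.eq_one_of_smul h)
  replace h := h.transport ι fun _ _ => rfl
  obtain ⟨M⟩ := h.model (by omega)
  refine ⟨A, M, exists_homeo_of_aut hg h, mem_homeo0 M.cov fun F hF => ?_⟩
  obtain ⟨K, h1, h2, h3⟩ := BE.baer_epstein W F (ι.surjective.forall.2 hF)
  exact ⟨K, h1, fun t c => h2 t (ι c), h3⟩

theorem orPres_one {g : ℕ} (hg : 2 ≤ g) : OrPres g 1 :=
  let ⟨_, M, _⟩ := exists_model hg
  M.orPres_one (by omega)

theorem orPres_mul {g : ℕ} (hg : 2 ≤ g) {f f' : Surf g ≃ₜ Surf g} (h : OrPres g f)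
    (h' : OrPres g f') : OrPres g (f * f') :=
  let ⟨_, M, _⟩ := exists_model hg
  M.orPres_mul (by omega) h h'

theorem orPres_inv {g : ℕ} (hg : 2 ≤ g) {f : Surf g ≃ₜ Surf g} (h : OrPres g f) : OrPres g f⁻¹ :=
  let ⟨_, M, _⟩ := exists_model hg
  M.orPres_inv (by omega) h

end Pool.Agent.Lib.MP_66609f_al.DN
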