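import Pool.Agent.Lib.MP_66609f_al.DN.BPoly

/-! The polygon made of the chamber and the mirror images of its triangles, and its double. -/

namespace Pool.Agent.Lib.MP_66609f_al.DN

/-- The normal of the side from the vertex `k` to the vertex `k + 1`. -/
noncomputable def nuV (n : ℕ) (k : ℤ) : LV := aA n (k + 1) • rootZ n k + aA n k • rootZ n (k + 1)

/-- The cone over the half polygon. -/
def FC (n : ℕ) (v : LV) : Prop := ∀ k : ℤ, 0 ≤ k → k + 1 < n → lor v (nuV n k) ≤ 0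

/-- The reflection in the side `k`. -/
def sZ (n : ℕ) (k : ℤ) : W n := sg (k : ZMod n)

/-- The half-turn about the vertex `m + 1`. -/
def zW (n : ℕ) (m : ℤ) : W n := sZ n m * sZ n (m + 1)

theorem lor_nuV (n : ℕ) (v : LV) (k : ℤ) : lor v (nuV n k) =
    aA n (k + 1) * lor v (rootZ n k) + aA n k * lor v (rootZ n (k + 1)) := by
  rw [nuV, lor_add_right, lor_smul_right, lor_smul_right]

theorem sZ_mul_self (n : ℕ) (k : ℤ) : sZ n k * sZ n k = 1 := sg_mul_self _

theorem sZ_comm (n : ℕ) (k : ℤ) : Commute (sZ n k) (sZ n (k + 1)) := by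
  simpa [sZ] using sg_comm (k : ZMod n)

theorem zW_mul_self (n : ℕ) (m : ℤ) : zW n m * zW n m = 1 := by
  rw [zW, mul_assoc, ← mul_assoc (sZ n (m + 1)), ← (sZ_comm n m).eq, mul_assoc, sZ_mul_self,
    mul_one, sZ_mul_self]

theorem zW_mul (n : ℕ) (m : ℤ) : zW n m * sZ n m = sZ n (m + 1) := by
  rw [zW, (sZ_comm n m).eq, mul_assoc, sZ_mul_self, mul_one]

theorem Tri.smul {n : ℕ} {i : ℤ} {v : LV} (h : Tri n i v) {c : ℝ} (hc : 0 ≤ c) :
    Tri n i (c • v) := by
  obtain ⟨x, y, z, hx, hy, hz, rfl⟩ := h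
  exact ⟨c * x, c * y, c * z, mul_nonneg hc hx, mul_nonneg hc hy, mul_nonneg hc hz, by module⟩

variable {n : ℕ} [hn : Fact (5 ≤ n)] {m : ℤ}

/-- The vertices of the half polygon. -/
noncomputable def pV (n : ℕ) [Fact (5 ≤ n)] (j : ℤ) : LV := rho n (sZ n j) (uV n 0)

/-- The cone over the whole polygon. -/
def GC (n : ℕ) [Fact (5 ≤ n)] (m : ℤ) (v : LV) : Prop :=
  ∀ k : ℤ, 0 ≤ k → k < m → lor v (nuV n k) ≤ 0 ∧ lor (rho n (zW n m) v) (nuV n k) ≤ 0

theorem rho_sZ (k : ℤ) (v : LV) : rho n (sZ n k) v = v - (2 * lor v (rootZ n k)) • rootZ n k := by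
  rw [sZ, rho_sg, root_intCast]

theorem rho_sZ_eq {k : ℤ} {v : LV} (h : lor v (rootZ n k) = 0) : rho n (sZ n k) v = v := by
  rw [rho_sZ, h, mul_zero, zero_smul, sub_zero]

theorem sZ_smul_eq {k : ℤ} {z : KD} (h : lor (up z) (rootZ n k) = 0) : sZ n k • z = z :=
  sg_smul_eq (by rw [ell, root_intCast, h])

theorem rho_zW_zW (v : LV) : rho n (zW n m) (rho n (zW n m) v) = v := by
  rw [← rho_mul, zW_mul_self, rho_one]

theorem lor_rho_zW (u v : LV) : lor u (rho n (zW n m) v) = lor (rho n (zW n m) u) v := by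
  rw [← lor_rho (zW n m), rho_zW_zW]

omit hn in
theorem intCast_ne {a b : ℤ} (h0 : b < a) (h1 : a - b < n) : (a : ZMod n) ≠ b := fun h => by
  have := Int.le_of_dvd (by omega) ((ZMod.intCast_eq_intCast_iff_dvd_sub _ _ _).1 h.symm)
  omega

theorem lor_rootZ_self (k : ℤ) : lor (rootZ n k) (rootZ n k) = 1 := by
  rw [← root_intCast, lor_root_self]

theorem lor_rootZ_succ (k : ℤ) : lor (rootZ n k) (rootZ n (k + 1)) = 0 := by
  rw [← root_intCast, ← root_intCast, Int.cast_add, Int.cast_one, lor_root_succ]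

theorem rootZ_last (hm : m + 2 = n) : rootZ n (m + 1 + 1) = rootZ n 0 := by
  rw [← rootZ_add_mul n 0 1]
  congr 1
  omega

omit hn in
theorem nonadj_cast {j k : ℤ} (h0 : k + 2 ≤ j) (h1 : j - k + 2 ≤ n) :
    (j : ZMod n) ≠ k ∧ (j : ZMod n) ≠ k + 1 ∧ (k : ZMod n) ≠ j + 1 :=
  ⟨intCast_ne (by omega) (by omega), by
    exact_mod_cast intCast_ne (n := n) (a := j) (b := k + 1) (by omega) (by omega), by
    exact_mod_cast (intCast_ne (n := n) (a := j + 1) (b := k) (by omega) (by omega)).symm⟩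

theorem lor_rootZ_neg {j k : ℤ} (h0 : k + 2 ≤ j) (h1 : j - k + 2 ≤ n) :
    lor (rootZ n j) (rootZ n k) < 0 := by
  obtain ⟨a, b, c⟩ := nonadj_cast h0 h1
  have := lor_root_nonadj a b c
  rw [root_intCast, root_intCast] at this
  linarith

theorem Fut.nonadjZ {v : LV} (hv : Fut v) {j k : ℤ} (h0 : k + 2 ≤ j) (h1 : j - k + 2 ≤ n) :
    lor v (rootZ n j) + lor v (rootZ n k) < 0 := by
  obtain ⟨a, b, c⟩ := nonadj_cast h0 h1
  simpa only [root_intCast] using hv.nonadj a b c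

theorem lor_rootZ_nonpos {j k : ℤ} (h0 : j ≠ k) (h1 : j - k < n) (h2 : k - j < n) :
    lor (rootZ n j) (rootZ n k) ≤ 0 := by
  wlog h : k < j generalizing j k
  · rw [lor_comm]
    exact this h0.symm h2 h1 (by omega)
  by_cases h3 : j = k + 1
  · rw [h3, lor_comm, lor_rootZ_succ]
  by_cases h4 : k = j + 1 + n * (-1)
  · rw [h4, rootZ_add_mul, lor_rootZ_succ]
  exact (lor_rootZ_neg (by omega) (by omega)).le

theorem lor_sZ_self (k : ℤ) (v : LV) : lor (rho n (sZ n k) v) (rootZ n k) = -lor v (rootZ n k) := by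
  rw [rho_sZ, lor_sub_left, lor_smul_left, lor_rootZ_self]; ring

theorem lor_sZ_succ (k : ℤ) (v : LV) :
    lor (rho n (sZ n k) v) (rootZ n (k + 1)) = lor v (rootZ n (k + 1)) := by
  rw [rho_sZ, lor_sub_left, lor_smul_left, lor_rootZ_succ]; ring

theorem lor_sZ_pred (k : ℤ) (v : LV) :
    lor (rho n (sZ n (k + 1)) v) (rootZ n k) = lor v (rootZ n k) := by
  rw [rho_sZ, lor_sub_left, lor_smul_left, lor_comm (rootZ n (k + 1)), lor_rootZ_succ]; ring

theorem lor_sZ_nuV (k : ℤ) (v : LV) : lor (rho n (sZ n k) v) (nuV n k) = -lor v (mV n k) := by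
  rw [lor_nuV, lor_mV, lor_sZ_self, lor_sZ_succ]; ring

theorem lor_sZ_nuV' (k : ℤ) (v : LV) : lor (rho n (sZ n (k + 1)) v) (nuV n k) = lor v (mV n k) := by
  rw [lor_nuV, lor_mV, lor_sZ_self, lor_sZ_pred]; ring

theorem rho_sZ_sZ (k : ℤ) (v : LV) : rho n (sZ n k) (rho n (sZ n k) v) = v := by
  rw [← rho_mul, sZ_mul_self, rho_one]

theorem aA_succ (hm : m + 2 = n) : aA n (m + 1) = 0 := by
  rw [show m + 1 = n - 1 by omega, aA_last]

omit hn in
theorem lor_nuV_zero (v : LV) : lor v (nuV n 0) = aA n 1 * lor v (rootZ n 0) := by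
  rw [lor_nuV, aA_zero, zero_mul, add_zero, zero_add]

theorem lor_nuV_last (hm : m + 2 = n) (v : LV) :
    lor v (nuV n m) = aA n m * lor v (rootZ n (m + 1)) := by
  rw [lor_nuV, aA_succ hm, zero_mul, zero_add]

theorem FC.zero {v : LV} (h : FC n v) : lor v (rootZ n 0) ≤ 0 := by
  have h5 := hn.1
  have := h 0 le_rfl (by omega)
  rw [lor_nuV_zero] at this
  exact nonpos_of_mul_nonpos_right this (aA_pos one_pos (by omega))

theorem FC.last (hm : m + 2 = n) {v : LV} (h : FC n v) : lor v (rootZ n (m + 1)) ≤ 0 := by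
  have h5 := hn.1
  have := h m (by omega) (by omega)
  rw [lor_nuV_last hm] at this
  exact nonpos_of_mul_nonpos_right this (aA_pos (by omega) (by omega))

theorem FC.cases {v : LV} (h : FC n v) : PC n v ∨ ∃ i : ℤ, 0 ≤ i ∧ i + 2 < n ∧
    0 < lor v (rootZ n (i + 1)) ∧ Tri n i (rho n (sZ n (i + 1)) v) := by
  by_cases hp : PC n v
  · exact Or.inl hp
  simp only [PC, not_forall, not_le] at hp
  obtain ⟨k, k0, k1, hk⟩ := hp
  obtain ⟨i, rfl⟩ : ∃ i, k = i + 1 := ⟨k - 1, by ring⟩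
  have h0 : i + 1 ≠ 0 := fun e => (e ▸ hk).not_ge h.zero
  have h1 : i + 2 ≠ n := fun e => hk.not_ge (h.last e)
  refine Or.inr ⟨i, by omega, by omega, hk, tri_of_le (by omega) (by omega) ?_ ?_ ?_⟩
  · rw [lor_sZ_self]
    linarith
  · rw [← lor_sZ_nuV', rho_sZ_sZ]
    exact h i (by omega) (by omega)
  · rw [← neg_nonpos, ← lor_sZ_nuV, rho_sZ_sZ]
    exact h (i + 1) k0 (by omega)

theorem FC.fut {v : LV} (h : FC n v) (hv : v ≠ 0) : Fut v := by
  rcases h.cases with h | ⟨i, -, -, -, h⟩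
  · exact h.fut hv
  · rw [← rho_sZ_sZ (n := n) (i + 1) v]
    exact (h.fut (by simpa using hv)).rho _

theorem PC.fc {v : LV} (h : PC n v) : FC n v := fun k k0 k1 => by
  rw [lor_nuV]
  exact add_nonpos (mul_nonpos_of_nonneg_of_nonpos (aA_nonneg (by omega) k1) (h k k0 (by omega)))
    (mul_nonpos_of_nonneg_of_nonpos (aA_nonneg k0 (by omega)) (h _ (by omega) k1))

theorem pc_uV {j : ℤ} (h0 : 0 ≤ j) (h1 : j < n) : PC n (uV n j) := fun _ _ _ =>
  lor_uV_nonpos (by omega) (by omega)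

theorem lor_pV (j k : ℤ) :
    lor (pV n j) (rootZ n k) = -aA n k + 2 * (aA n j * lor (rootZ n j) (rootZ n k)) := by
  rw [pV, rho_sZ, lor_sub_left, lor_smul_left, lor_uV_zero, lor_uV_zero]; ring

theorem lor_pV_le {j k : ℤ} (j0 : 0 ≤ j) (j1 : j < n) (k0 : 0 ≤ k) (k1 : k < n) (h : j ≠ k) :
    lor (pV n j) (rootZ n k) ≤ -aA n k := by
  rw [lor_pV]
  linarith [mul_nonpos_of_nonneg_of_nonpos (aA_nonneg j0 j1)
    (lor_rootZ_nonpos (n := n) h (by omega) (by omega))]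

theorem lor_pV_self (k : ℤ) : lor (pV n k) (nuV n k) = 0 := by
  rw [pV, lor_sZ_nuV, lor_uV_mV_zero, neg_zero]

theorem lor_pV_succ (k : ℤ) : lor (pV n (k + 1)) (nuV n k) = 0 := by
  rw [pV, lor_sZ_nuV', lor_uV_mV_zero]

theorem fc_pV {j : ℤ} (j0 : 0 ≤ j) (j1 : j < n) : FC n (pV n j) := fun k k0 k1 => by
  by_cases h1 : j = k
  · rw [h1, lor_pV_self]
  by_cases h2 : j = k + 1
  · rw [h2, lor_pV_succ]
  have a := aA_nonneg (n := n) k0 (by omega)
  have b := aA_nonneg (n := n) (k := k + 1) (by omega) k1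
  rw [lor_nuV]
  exact add_nonpos
    (mul_nonpos_of_nonneg_of_nonpos b ((lor_pV_le j0 j1 k0 (by omega) h1).trans (by linarith)))
    (mul_nonpos_of_nonneg_of_nonpos a ((lor_pV_le j0 j1 (by omega) k1 h2).trans (by linarith)))

theorem lor_pV_zero {j : ℤ} (j0 : 2 ≤ j) (j1 : j + 1 < n) : lor (pV n j) (rootZ n 0) < 0 := by
  rw [lor_pV, aA_zero]
  linarith [mul_neg_of_pos_of_neg (aA_pos (n := n) (k := j) (by omega) j1)
    (lor_rootZ_neg (n := n) (j := j) (k := 0) (by omega) (by omega))]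

theorem lor_pV_neg {j k : ℤ} (j0 : 0 ≤ j) (j1 : j + 1 < n) (k0 : 0 ≤ k) (k1 : k + 2 < n)
    (h1 : j ≠ k) (h2 : j ≠ k + 1) : lor (pV n j) (nuV n k) < 0 := by
  have b := aA_pos (n := n) (k := k + 1) (by omega) (by omega)
  rcases k0.eq_or_lt with rfl | k0
  · rw [lor_nuV_zero]
    exact mul_neg_of_pos_of_neg b (lor_pV_zero (by omega) j1)
  have a := aA_pos (n := n) k0 (by omega)
  rw [lor_nuV]
  exact add_neg
    (mul_neg_of_pos_of_neg b ((lor_pV_le j0 (by omega) k0.le (by omega) h1).trans_lt (by linarith)))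
    (mul_neg_of_pos_of_neg a ((lor_pV_le j0 (by omega) (by omega) (by omega) h2).trans_lt
      (by linarith)))

theorem lor_zW (m : ℤ) (v e : LV) : lor (rho n (zW n m) v) e = lor v e -
    2 * (lor v (rootZ n m) * lor (rootZ n m) e) -
      2 * (lor v (rootZ n (m + 1)) * lor (rootZ n (m + 1)) e) := by
  rw [zW, rho_mul, rho_sZ, lor_sZ_pred, rho_sZ, lor_sub_left, lor_sub_left, lor_smul_left,
    lor_smul_left]
  ring

theorem exists_zW_last (hm : m + 2 = n) : ∃ a b : ℝ, 0 < a ∧ 0 < b ∧ ∀ v,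
    lor (rho n (zW n m) v) (nuV n (m - 1)) =
      a * lor v (rootZ n 0) + b * lor v (rootZ n (m + 1)) := by
  have h5 := hn.1
  have h1 : lor (uV n 0) (rootZ n (m + 1)) = 0 := by rw [lor_uV_zero, aA_succ hm, neg_zero]
  have h2 : lor (rootZ n 0) (rootZ n (m + 1)) = 0 := by
    rw [← rootZ_last hm, lor_comm, lor_rootZ_succ]
  obtain ⟨x, y, z, e⟩ := exists_coords ((lor_comm _ _).trans (lor_uV_self (n := n) 0))
    ((lor_comm _ _).trans h1) (fut_uV 0).2.ne h2 (by rw [lor_rootZ_self]; exact one_ne_zero)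
    (α := rootZ n 0) (by rw [lor_rootZ_self]; exact one_ne_zero) (mV n (m - 1))
  have h3 : ∀ v, lor v (mV n (m - 1)) =
      x * lor v (rootZ n 0) + y * lor v (rootZ n (m + 1)) + z * lor v (uV n 0) := fun v => by
    rw [e, lor_comm, lor_comb, lor_comm v, lor_comm v, lor_comm v]
  have h4 := h3 (uV n 0)
  rw [lor_uV_mV_zero, lor_uV_self, h1] at h4
  obtain rfl : z = 0 := by simpa [(fut_uV (n := n) 0).2.ne] using h4
  have h6 := lor_uV_mV_pos (n := n) (j := 0 + 1) (k := m - 1) (by omega) (by omega) (by omega)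
  have h7 := lor_uV_mV_neg (n := n) (j := m + 1) (k := m - 1) (by omega) (by omega) (by omega)
  rw [h3, lor_uV_succ] at h6
  rw [h3, lor_uV_self] at h7
  have h8 := lor_uV_neg (n := n) (j := 0 + 1) (k := m + 1) (by omega)
  have h9 := lor_uV_neg (n := n) (j := m + 1) (k := 0) (by omega)
  refine ⟨x, -y, by nlinarith, by nlinarith, fun v => ?_⟩
  have h10 := lor_sZ_nuV' (n := n) (m - 1) (rho n (sZ n (m + 1)) v)
  rw [sub_add_cancel] at h10
  rw [zW, rho_mul, h10, h3, lor_sZ_self, ← rootZ_last hm, lor_sZ_succ]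
  ring

theorem lor_root_nuV (hm : m + 2 = n) {k : ℤ} (k0 : 0 ≤ k) (k1 : k + 1 < m) :
    lor (rootZ n m) (nuV n k) < 0 ∧ lor (rootZ n (m + 1)) (nuV n k) ≤ 0 := by
  have a := aA_nonneg (n := n) k0 (by omega)
  have b := aA_pos (n := n) (k := k + 1) (by omega) (by omega)
  rw [lor_nuV, lor_nuV]
  exact ⟨add_neg_of_neg_of_nonpos (mul_neg_of_pos_of_neg b (lor_rootZ_neg (by omega) (by omega)))
    (mul_nonpos_of_nonneg_of_nonpos a (lor_rootZ_nonpos (by omega) (by omega) (by omega))),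
    add_nonpos
    (mul_nonpos_of_nonneg_of_nonpos b.le (lor_rootZ_nonpos (by omega) (by omega) (by omega)))
    (mul_nonpos_of_nonneg_of_nonpos a (lor_rootZ_nonpos (by omega) (by omega) (by omega)))⟩

theorem FC.gc (hm : m + 2 = n) {v : LV} (h : FC n v) (h1 : lor v (rootZ n m) ≤ 0) : GC n m v := by
  refine fun k k0 k1 => ⟨h k k0 (by omega), ?_⟩
  by_cases hk : k = m - 1
  · obtain ⟨a, b, ha, hb, e⟩ := exists_zW_last hm
    rw [hk, e]
    exact add_nonpos (mul_nonpos_of_nonneg_of_nonpos ha.le h.zero)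
      (mul_nonpos_of_nonneg_of_nonpos hb.le (h.last hm))
  · obtain ⟨a, b⟩ := lor_root_nuV hm k0 (by omega)
    rw [lor_zW]
    linarith [h k k0 (by omega), mul_nonneg_of_nonpos_of_nonpos h1 a.le,
      mul_nonneg_of_nonpos_of_nonpos (h.last hm) b]

theorem lor_zW_pV_neg (hm : m + 2 = n) {j k : ℤ} (j0 : 0 < j) (j1 : j < m) (k0 : 0 ≤ k)
    (k1 : k < m) : lor (rho n (zW n m) (pV n j)) (nuV n k) < 0 := by
  have h := fc_pV (n := n) j0.le (by omega)
  by_cases hk : k = m - 1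
  · obtain ⟨a, b, ha, hb, e⟩ := exists_zW_last hm
    rw [hk, e]
    refine add_neg_of_nonpos_of_neg (mul_nonpos_of_nonneg_of_nonpos ha.le h.zero)
      (mul_neg_of_pos_of_neg hb ?_)
    rw [lor_pV, aA_succ hm, lor_comm]
    linarith [mul_neg_of_pos_of_neg (aA_pos (n := n) j0 (by omega))
      (lor_rootZ_neg (n := n) (j := m + 1) (k := j) (by omega) (by omega))]
  · obtain ⟨a, b⟩ := lor_root_nuV hm k0 (by omega)
    have h1 := (lor_pV_le (n := n) j0.le (by omega) (by omega) (by omega) j1.ne).trans_lt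
      (neg_lt_zero.2 (aA_pos (by omega) (by omega)))
    rw [lor_zW]
    linarith [h k k0 (by omega), mul_pos_of_neg_of_neg h1 a,
      mul_nonneg_of_nonpos_of_nonpos (h.last hm) b]

theorem PC.gc (hm : m + 2 = n) {v : LV} (h : PC n v) : GC n m v :=
  h.fc.gc hm (h m (by have := hn.1; omega) (by omega))

theorem GC.zW {v : LV} (h : GC n m v) : GC n m (rho n (zW n m) v) := fun k k0 k1 =>
  ⟨(h k k0 k1).2, by rw [rho_zW_zW]; exact (h k k0 k1).1⟩

theorem zW_pV (hm : m + 2 = n) : rho n (zW n m) (pV n m) = uV n 0 := by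
  rw [pV, ← rho_mul, zW_mul, rho_sZ_eq (by rw [lor_uV_zero, aA_succ hm, neg_zero])]

theorem gc_pV (hm : m + 2 = n) {j : ℤ} (j0 : 0 ≤ j) (j1 : j ≤ m) : GC n m (pV n j) := by
  rcases j1.eq_or_lt with rfl | j1
  · rw [← rho_zW_zW (n := n) (m := j) (pV n j), zW_pV hm]
    exact ((pc_uV le_rfl (by omega)).gc hm).zW
  · exact (fc_pV j0 (by omega)).gc hm ((lor_pV_le j0 (by omega) (by omega) (by omega) j1.ne).trans
      (neg_nonpos.2 (aA_nonneg (by omega) (by omega))))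

theorem Tri.gc (hm : m + 2 = n) {i : ℤ} (h0 : 0 ≤ i) (h1 : i + 2 < n) {v : LV} (h : Tri n i v) :
    GC n m (rho n (sZ n (i + 1)) v) := by
  obtain ⟨x, y, z, hx, hy, hz, rfl⟩ := h
  have a := gc_pV hm (j := i + 1) (by omega) (by omega)
  have b := (pc_uV (n := n) (j := i + 1) (by omega) (by omega)).gc hm
  have c := (pc_uV (n := n) (j := i + 1 + 1) (by omega) (by omega)).gc hm
  intro k k0 k1
  simp only [map_add, map_smul, lor_comb, rho_sZ_eq (lor_uV_self _), rho_sZ_eq (lor_uV_succ _)]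
  exact ⟨add_nonpos (add_nonpos (mul_nonpos_of_nonneg_of_nonpos hx (a k k0 k1).1)
    (mul_nonpos_of_nonneg_of_nonpos hy (b k k0 k1).1))
    (mul_nonpos_of_nonneg_of_nonpos hz (c k k0 k1).1),
    add_nonpos (add_nonpos (mul_nonpos_of_nonneg_of_nonpos hx (a k k0 k1).2)
    (mul_nonpos_of_nonneg_of_nonpos hy (b k k0 k1).2))
    (mul_nonpos_of_nonneg_of_nonpos hz (c k k0 k1).2)⟩

theorem GC.cases (hm : m + 2 = n) {v : LV} (h : GC n m v) : FC n v ∨ FC n (rho n (DN.zW n m) v) := by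
  have h5 := hn.1
  have key : ∀ {v}, GC n m v → lor v (rootZ n (m + 1)) ≤ 0 → FC n v := fun h h1 k k0 k1 => by
    by_cases hk : k = m
    · rw [hk, lor_nuV_last hm]
      exact mul_nonpos_of_nonneg_of_nonpos (aA_nonneg (by omega) (by omega)) h1
    · exact (h k k0 (by omega)).1
  rcases le_total (lor v (rootZ n (m + 1))) 0 with h1 | h1
  · exact Or.inl (key h h1)
  · refine Or.inr (key h.zW ?_)
    rw [DN.zW, rho_mul, lor_sZ_succ, lor_sZ_self]
    linarith

theorem GC.fut (hm : m + 2 = n) {v : LV} (h : GC n m v) (hv : v ≠ 0) : Fut v := by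
  rcases h.cases hm with h | h
  · exact h.fut hv
  · rw [← rho_zW_zW (n := n) (m := m) v]
    exact (h.fut (by simpa using hv)).rho _

theorem lor_cen (hm : m + 2 = n) {k : ℤ} (k0 : 0 ≤ k) (k1 : k < m) :
    lor (uV n (m + 1)) (nuV n k) < 0 := by
  rw [lor_nuV]
  exact add_neg_of_neg_of_nonpos
    (mul_neg_of_pos_of_neg (aA_pos (by omega) (by omega)) (lor_uV_neg (by omega)))
    (mul_nonpos_of_nonneg_of_nonpos (aA_nonneg k0 (by omega)) (lor_uV_nonpos (by omega) (by omega)))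

theorem zW_cen (m : ℤ) : rho n (zW n m) (uV n (m + 1)) = uV n (m + 1) := by
  rw [zW, rho_mul, rho_sZ_eq (lor_uV_self _), rho_sZ_eq (lor_uV_succ _)]

theorem eq_vtx {x : KD} {a : ℝ} {u v : LV} (h : up x = a • uV n 0 + (0 : ℝ) • u + (0 : ℝ) • v) :
    x = vtx n 0 := by
  rw [zero_smul, zero_smul, add_zero, add_zero] at h
  obtain rfl : 1 = a := by simpa [up, uV] using congrArg Prod.fst h
  exact Subtype.ext (congrArg Prod.snd (h.trans (one_smul _ _)))

theorem Tri.wall {i j : ℤ} (h0 : 0 ≤ i) (h1 : i + 2 < n) {x : KD} (h : Tri n i (up x))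
    (h2 : lor (up x) (rootZ n (i + 1)) < 0) (j0 : 0 ≤ j) (j1 : j < n)
    (h3 : lor (up x) (rootZ n j) = 0) :
    x = vtx n 0 ∨ (j = 0 ∧ i = 0) ∨ (j = i + 1 + 1 ∧ i + 3 = n) := by
  obtain ⟨a, b, c, ha, hb, hc, e⟩ := h
  rw [e, lor_comb] at h2 h3
  rw [lor_uV_self, lor_uV_succ, mul_zero, mul_zero, add_zero, add_zero] at h2
  have a0 : a ≠ 0 := fun e => by simp [e] at h2
  have a1 := mul_nonpos_of_nonneg_of_nonpos ha
    (lor_uV_nonpos (n := n) (j := 0) (k := j) (by omega) (by omega))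
  have b1 := mul_nonpos_of_nonneg_of_nonpos hb
    (lor_uV_nonpos (n := n) (j := i + 1) (k := j) (by omega) (by omega))
  have c1 := mul_nonpos_of_nonneg_of_nonpos hc
    (lor_uV_nonpos (n := n) (j := i + 1 + 1) (k := j) (by omega) (by omega))
  have a2 := (mul_eq_zero.1 (a1.antisymm (by linarith))).resolve_left a0
  have h4 : j = 0 ∨ j + 1 = n := by
    by_contra hc
    exact (lor_uV_neg (by omega)).ne a2
  by_contra hcon
  obtain rfl := (mul_eq_zero.1 (b1.antisymm (by linarith))).resolve_right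
    (lor_uV_neg (by omega)).ne
  obtain rfl := (mul_eq_zero.1 (c1.antisymm (by linarith))).resolve_right
    (lor_uV_neg (by omega)).ne
  exact hcon (Or.inl (eq_vtx e))

theorem Tri.mV_nonneg {i : ℤ} (h0 : 0 ≤ i) (h1 : i + 2 < n) {v : LV} (h : Tri n i v) :
    0 ≤ lor v (mV n (i + 1)) := by
  obtain ⟨a, b, c, -, hb, -, rfl⟩ := h
  rw [lor_comb, lor_uV_mV_zero, lor_uV_mV_self]
  linarith [mul_nonneg hb (lor_uV_mV_pos (n := n) (j := i + 1) (by omega) le_rfl (by omega)).le]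

theorem Tri.mV_nonpos {i : ℤ} (h0 : 0 ≤ i) (h1 : i + 2 < n) {v : LV} (h : Tri n i v) :
    lor v (mV n i) ≤ 0 := by
  obtain ⟨a, b, c, -, -, hc, rfl⟩ := h
  rw [lor_comb, lor_uV_mV_zero, lor_uV_mV_self]
  linarith [mul_nonpos_of_nonneg_of_nonpos hc
    (lor_uV_mV_neg (n := n) (j := i + 1 + 1) h0 (by omega) (by omega)).le]

theorem Tri.far {i j : ℤ} (h0 : 0 ≤ i) (h1 : i + 1 < j) (h2 : j + 2 < n) {x : KD}
    (h : Tri n i (up x)) (h' : Tri n j (up x)) : x = vtx n 0 := by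
  have h3 := h.mV_nonneg h0 (by omega)
  obtain ⟨a, b, c, -, hb, hc, e⟩ := h'
  rw [e, lor_comb, lor_uV_mV_zero] at h3
  have b1 := lor_uV_mV_neg (n := n) (j := j + 1) (k := i + 1) (by omega) (by omega) (by omega)
  have c1 := lor_uV_mV_neg (n := n) (j := j + 1 + 1) (k := i + 1) (by omega) (by omega) (by omega)
  have b2 := mul_nonpos_of_nonneg_of_nonpos hb b1.le
  have c2 := mul_nonpos_of_nonneg_of_nonpos hc c1.le
  obtain rfl := (mul_eq_zero.1 (b2.antisymm (by linarith))).resolve_right b1.ne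
  obtain rfl := (mul_eq_zero.1 (c2.antisymm (by linarith))).resolve_right c1.ne
  exact eq_vtx e

end Pool.Agent.Lib.MP_66609f_al.DN
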