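import Pool.Agent.Lib.MP_66609f_al.CoxNest

/-! The right-angled Coxeter group of an `n`-gon acting on the Klein disc: definitions. -/

namespace Pool.Agent.Lib.MP_66609f_al.DN

open Real

/-- Minkowski space. -/
abbrev LV : Type := ℝ × ℂ

/-- The Lorentz form. -/
def lor (u v : LV) : ℝ := -(u.1 * v.1) + (u.2.re * v.2.re + u.2.im * v.2.im)

theorem lor_comm (u v : LV) : lor u v = lor v u := by unfold lor; ring

theorem lor_add_left (u u' v : LV) : lor (u + u') v = lor u v + lor u' v := by
  simp only [lor, Prod.fst_add, Prod.snd_add, Complex.add_re, Complex.add_im]; ring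

theorem lor_sub_left (u u' v : LV) : lor (u - u') v = lor u v - lor u' v := by
  simp only [lor, Prod.fst_sub, Prod.snd_sub, Complex.sub_re, Complex.sub_im]; ring

theorem lor_smul_left (c : ℝ) (u v : LV) : lor (c • u) v = c * lor u v := by
  simp only [lor, Prod.smul_fst, Prod.smul_snd, smul_eq_mul, Complex.smul_re, Complex.smul_im]
  ring

theorem lor_neg_left (u v : LV) : lor (-u) v = -lor u v := by
  simp only [lor, Prod.fst_neg, Prod.snd_neg, Complex.neg_re, Complex.neg_im]; ring

theorem lor_add_right (u v v' : LV) : lor u (v + v') = lor u v + lor u v' := by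
  rw [lor_comm, lor_add_left, lor_comm v, lor_comm v']

theorem lor_sub_right (u v v' : LV) : lor u (v - v') = lor u v - lor u v' := by
  rw [lor_comm, lor_sub_left, lor_comm v, lor_comm v']

theorem lor_smul_right (c : ℝ) (u v : LV) : lor u (c • v) = c * lor u v := by
  rw [lor_comm, lor_smul_left, lor_comm v]

theorem lor_neg_right (u v : LV) : lor u (-v) = -lor u v := by
  rw [lor_comm, lor_neg_left, lor_comm v]

/-- Future timelike vectors. -/
def Fut (v : LV) : Prop := 0 < v.1 ∧ lor v v < 0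

/-- The reversed Cauchy-Schwarz inequality, in the weak form. -/
theorem Fut.lor_neg {u v : LV} (hu : Fut u) (h1 : 0 < v.1) (h2 : lor v v ≤ 0) : lor u v < 0 := by
  obtain ⟨h3, h4⟩ := hu
  unfold lor at *
  by_contra h
  push Not at h
  have h5 : u.1 * v.1 ≤ u.2.re * v.2.re + u.2.im * v.2.im := by linarith
  have h6 : (u.1 * v.1) ^ 2 ≤ (u.2.re * v.2.re + u.2.im * v.2.im) ^ 2 :=
    pow_le_pow_left₀ (mul_pos h3 h1).le h5 2
  have h7 : (u.2.re * v.2.re + u.2.im * v.2.im) ^ 2 ≤
      (u.2.re * u.2.re + u.2.im * u.2.im) * (v.2.re * v.2.re + v.2.im * v.2.im) := by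
    nlinarith [sq_nonneg (u.2.re * v.2.im - u.2.im * v.2.re)]
  have h8 : (u.2.re * u.2.re + u.2.im * u.2.im) * (v.2.re * v.2.re + v.2.im * v.2.im) ≤
      (u.2.re * u.2.re + u.2.im * u.2.im) * (v.1 * v.1) :=
    mul_le_mul_of_nonneg_left (by linarith) (by nlinarith)
  have h9 : (u.2.re * u.2.re + u.2.im * u.2.im) * (v.1 * v.1) < (u.1 * u.1) * (v.1 * v.1) :=
    mul_lt_mul_of_pos_right (by linarith) (mul_pos h1 h1)
  nlinarith

theorem Fut.smul {v : LV} (hv : Fut v) {c : ℝ} (hc : 0 < c) : Fut (c • v) :=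
  ⟨mul_pos hc hv.1, by
    rw [lor_smul_left, lor_smul_right]
    exact mul_neg_of_pos_of_neg hc (mul_neg_of_pos_of_neg hc hv.2)⟩

theorem Fut.add {u v : LV} (hu : Fut u) (hv : Fut v) : Fut (u + v) :=
  ⟨add_pos hu.1 hv.1, by
    have h := hu.lor_neg hv.1 hv.2.le
    rw [lor_add_left, lor_add_right, lor_add_right, lor_comm v u]
    linarith [hu.2, hv.2]⟩

theorem Fut.comb {u v : LV} (hu : Fut u) (hv : Fut v) {a b : ℝ} (ha : 0 ≤ a) (hb : 0 ≤ b)
    (hab : 0 < a + b) : Fut (a • u + b • v) := by
  rcases ha.eq_or_lt with rfl | ha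
  · simpa using hv.smul (by simpa using hab)
  rcases hb.eq_or_lt with rfl | hb
  · simpa using hu.smul ha
  exact (hu.smul ha).add (hv.smul hb)

/-- The reflection in a unit spacelike vector. -/
noncomputable def reflL (e : LV) : LV →ₗ[ℝ] LV where
  toFun v := v - (2 * lor v e) • e
  map_add' u v := by rw [lor_add_left, mul_add, add_smul]; abel
  map_smul' c v := by
    rw [lor_smul_left, RingHom.id_apply, smul_sub, smul_smul]
    congr 2
    ring

theorem reflL_apply (e v : LV) : reflL e v = v - (2 * lor v e) • e := rfl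

theorem lor_reflL_self {e : LV} (he : lor e e = 1) (v : LV) : lor (reflL e v) e = -lor v e := by
  rw [reflL_apply, lor_sub_left, lor_smul_left, he]; ring

theorem reflL_reflL {e : LV} (he : lor e e = 1) (v : LV) : reflL e (reflL e v) = v := by
  rw [reflL_apply e (reflL e v), lor_reflL_self he, reflL_apply, mul_neg, neg_smul]; abel

theorem lor_reflL {e : LV} (he : lor e e = 1) (u v : LV) :
    lor (reflL e u) (reflL e v) = lor u v := by
  simp only [reflL_apply, lor_sub_left, lor_sub_right, lor_smul_left, lor_smul_right, he,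
    lor_comm e v]
  ring

theorem Fut.reflL {e v : LV} (he : lor e e = 1) (hv : Fut v) : Fut (reflL e v) := by
  have h1 : lor (DN.reflL e v) (DN.reflL e v) < 0 := by rw [lor_reflL he]; exact hv.2
  refine ⟨?_, h1⟩
  have h2 : lor v (DN.reflL e v) < 0 := by
    rw [reflL_apply, lor_sub_right, lor_smul_right]
    nlinarith [hv.2, sq_nonneg (lor v e)]
  rcases lt_trichotomy (DN.reflL e v).1 0 with h | h | h
  · have h3 := hv.lor_neg (v := -DN.reflL e v) (by simpa using h)
      (by rw [lor_neg_left, lor_neg_right]; linarith)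
    rw [lor_neg_right] at h3
    linarith
  · unfold lor at h1
    rw [h] at h1
    nlinarith [sq_nonneg (DN.reflL e v).2.re, sq_nonneg (DN.reflL e v).2.im]
  · exact h

noncomputable def kb (n : ℕ) : ℝ := (√(1 - cos (2 * π / n)))⁻¹

noncomputable def ka (n : ℕ) : ℝ := kb n * √(cos (2 * π / n))

/-- The outward unit normal of the side `k` of the regular right-angled `n`-gon. -/
noncomputable def rootZ (n : ℕ) (k : ℤ) : LV :=
  (ka n, kb n * Complex.exp ((2 * π * k / n : ℝ) * Complex.I))

/-- The same, indexed by residues. -/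
noncomputable def root {n : ℕ} (i : ZMod n) : LV := rootZ n (i.cast : ℤ)

instance neZero_of_five {n : ℕ} [h : Fact (5 ≤ n)] : NeZero n := ⟨by have := h.1; omega⟩

instance fact_genus {g : ℕ} [h : Fact (2 ≤ g)] : Fact (5 ≤ 2 * g + 2) := ⟨by have := h.1; omega⟩

theorem rootZ_add_mul (n : ℕ) [NeZero n] (k m : ℤ) : rootZ n (k + n * m) = rootZ n k := by
  have hn : (n : ℂ) ≠ 0 := Nat.cast_ne_zero.2 (NeZero.ne n)
  unfold rootZ
  congr 2
  have : (((2 * π * ((k + n * m : ℤ) : ℝ) / n : ℝ) : ℂ) * Complex.I) =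
      (2 * π * k / n : ℝ) * Complex.I + m * (2 * π * Complex.I) := by
    push_cast
    field_simp
  rw [this, Complex.exp_add, Complex.exp_int_mul_two_pi_mul_I, mul_one]

theorem root_intCast {n : ℕ} [NeZero n] (k : ℤ) : root (k : ZMod n) = rootZ n k := by
  have h : (((k : ZMod n).cast : ℤ) : ZMod n) = k := ZMod.intCast_zmod_cast _
  obtain ⟨m, hm⟩ := (ZMod.intCast_eq_intCast_iff_dvd_sub _ _ _).1 h
  rw [root, ← rootZ_add_mul n _ m, ← hm]
  congr 1
  ring

theorem lor_rootZ (n : ℕ) (k l : ℤ) :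
    lor (rootZ n k) (rootZ n l) = -(ka n ^ 2) + kb n ^ 2 * cos (2 * π * (k - l) / n) := by
  have e : 2 * π * ((k : ℝ) - l) / n = 2 * π * k / n - 2 * π * l / n := by ring
  simp only [lor, rootZ, Complex.re_ofReal_mul, Complex.im_ofReal_mul,
    Complex.exp_ofReal_mul_I_re, Complex.exp_ofReal_mul_I_im, e, cos_sub]
  ring

variable {n : ℕ} [hn : Fact (5 ≤ n)]

theorem ang_pos : 0 < 2 * π / n := by
  have : (0 : ℝ) < n := by have := hn.1; positivity
  positivity

theorem ang_lt : 2 * π / n < π / 2 := by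
  have h : (5 : ℝ) ≤ n := by exact_mod_cast hn.1
  rw [div_lt_div_iff₀ (by linarith) two_pos]
  nlinarith [pi_pos]

theorem cos_ang_pos : 0 < cos (2 * π / n) :=
  cos_pos_of_mem_Ioo ⟨by linarith [ang_pos (n := n), pi_pos], ang_lt⟩

theorem cos_ang_lt : cos (2 * π / n) < 1 := by
  rw [← cos_zero]
  exact cos_lt_cos_of_nonneg_of_le_pi le_rfl (by linarith [ang_lt (n := n), pi_pos]) ang_pos

theorem kb_pos : 0 < kb n := inv_pos.2 (sqrt_pos.2 (sub_pos.2 cos_ang_lt))

theorem ka_pos : 0 < ka n := mul_pos kb_pos (sqrt_pos.2 cos_ang_pos)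

theorem kb_sq : kb n ^ 2 * (1 - cos (2 * π / n)) = 1 := by
  have h := sub_pos.2 (cos_ang_lt (n := n))
  rw [kb, inv_pow, sq_sqrt h.le, inv_mul_cancel₀ h.ne']

theorem ka_sq : ka n ^ 2 = kb n ^ 2 * cos (2 * π / n) := by
  rw [ka, mul_pow, sq_sqrt cos_ang_pos.le]

theorem lor_root_self (i : ZMod n) : lor (root i) (root i) = 1 := by
  rw [root, lor_rootZ, sub_self, mul_zero, zero_div, cos_zero, ka_sq]
  linear_combination kb_sq (n := n)

theorem lor_root_succ (i : ZMod n) : lor (root i) (root (i + 1)) = 0 := by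
  obtain ⟨k, rfl⟩ := ZMod.intCast_surjective i
  have e : (k : ZMod n) + 1 = ((k + 1 : ℤ) : ZMod n) := by push_cast; rfl
  rw [e, root_intCast, root_intCast, lor_comm, lor_rootZ, ka_sq]
  push_cast
  rw [add_sub_cancel_left, mul_one]
  ring

/-- The reflection in the side `i`. -/
noncomputable def reflE (i : ZMod n) : LV ≃ₗ[ℝ] LV :=
  LinearEquiv.ofInvolutive (reflL (root i)) (reflL_reflL (lor_root_self i))

theorem reflE_apply (i : ZMod n) (v : LV) : reflE i v = reflL (root i) v := rfl

theorem reflE_comm (i : ZMod n) (v : LV) :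
    reflE i (reflE (i + 1) v) = reflE (i + 1) (reflE i v) := by
  simp only [reflE_apply, reflL_apply, lor_sub_left, lor_smul_left, lor_root_succ,
    lor_comm (root (i + 1)) (root i), mul_zero, sub_zero]
  abel

/-- The geometric representation. -/
noncomputable def rho (n : ℕ) [Fact (5 ≤ n)] : W n →* (LV ≃ₗ[ℝ] LV) :=
  coxLift reflE (fun i => LinearEquiv.ext fun v => reflL_reflL (lor_root_self i) v)
    (fun i => LinearEquiv.ext fun v => by
      change reflE i (reflE (i + 1) (reflE i (reflE (i + 1) v))) = v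
      rw [← reflE_comm i (reflE (i + 1) v)]
      exact (reflL_reflL (lor_root_self i) _).trans (reflL_reflL (lor_root_self (i + 1)) v))

theorem rho_sg (i : ZMod n) (v : LV) : rho n (sg i) v = v - (2 * lor v (root i)) • root i := by
  rw [rho, coxLift_sg]
  rfl

theorem rho_mul (w w' : W n) (v : LV) : rho n (w * w') v = rho n w (rho n w' v) := by
  rw [map_mul]
  rfl

theorem rho_one (v : LV) : rho n 1 v = v := by
  rw [map_one]
  rfl

theorem lor_rho (w : W n) (u v : LV) : lor (rho n w u) (rho n w v) = lor u v := by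
  induction w using cox_induction generalizing u v with
  | h1 => rw [rho_one, rho_one]
  | hs w i ih => rw [rho_mul, rho_mul, ih, rho_sg, rho_sg]; exact lor_reflL (lor_root_self i) u v

theorem lor_rho_left (w : W n) (u v : LV) : lor (rho n w u) v = lor u (rho n w⁻¹ v) := by
  rw [← lor_rho w u, ← rho_mul, mul_inv_cancel, rho_one]

theorem Fut.rho {v : LV} (hv : Fut v) (w : W n) : Fut (rho n w v) := by
  induction w using cox_induction generalizing v with
  | h1 => rwa [rho_one]
  | hs w i ih => rw [rho_mul, rho_sg]; exact ih (hv.reflL (lor_root_self i))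

/-- The Klein disc. -/
abbrev KD : Type := Metric.ball (0 : ℂ) 1

/-- The lift of a point of the plane. -/
def up (z : ℂ) : LV := (1, z)

/-- The central projection. -/
noncomputable def pr (v : LV) : ℂ := v.2 / v.1

theorem lor_up (z : ℂ) : lor (up z) (up z) = ‖z‖ ^ 2 - 1 := by
  rw [Complex.sq_norm, Complex.normSq_apply, lor, up]; ring

theorem fut_up_iff {z : ℂ} : Fut (up z) ↔ ‖z‖ < 1 := by
  rw [Fut, lor_up, sub_neg, sq_lt_one_iff₀ (norm_nonneg z)]
  exact and_iff_right one_pos

theorem fut_up (z : KD) : Fut (up z) := fut_up_iff.2 (mem_ball_zero_iff.1 z.2)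

theorem up_pr {v : LV} (hv : v.1 ≠ 0) : up (pr v) = v.1⁻¹ • v :=
  Prod.ext (by simp [up, hv]) (by simp [up, pr, div_eq_inv_mul])

theorem pr_smul {c : ℝ} (hc : c ≠ 0) (v : LV) : pr (c • v) = pr v := by
  have : (c : ℂ) ≠ 0 := Complex.ofReal_ne_zero.2 hc
  simp only [pr, Prod.smul_fst, Prod.smul_snd, smul_eq_mul, Complex.real_smul, Complex.ofReal_mul]
  rw [mul_div_mul_left _ _ this]

theorem pr_up (z : ℂ) : pr (up z) = z := by simp [pr, up]

/-- The point of the disc defined by a future timelike vector. -/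
noncomputable def Fut.pt {v : LV} (hv : Fut v) : KD :=
  ⟨pr v, mem_ball_zero_iff.2 (fut_up_iff.1 (by rw [up_pr hv.1.ne']; exact hv.smul (inv_pos.2 hv.1)))⟩

theorem Fut.coe_pt {v : LV} (hv : Fut v) : (hv.pt : ℂ) = pr v := rfl

noncomputable instance kdAction : MulAction (W n) KD where
  smul w z := ((fut_up z).rho w).pt
  one_smul z := Subtype.ext (by
    change pr (rho n 1 (up z)) = z
    rw [rho_one, pr_up])
  mul_smul w w' z := Subtype.ext (by
    change pr (rho n (w * w') (up z)) = pr (rho n w (up (pr (rho n w' (up z)))))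
    have h := ((fut_up z).rho w').1.ne'
    rw [up_pr h, map_smul, pr_smul (inv_ne_zero h), rho_mul])

theorem coe_smul (w : W n) (z : KD) : ((w • z : KD) : ℂ) = pr (rho n w (up z)) := rfl

theorem up_smul (w : W n) (z : KD) :
    up (w • z : KD) = (rho n w (up z)).1⁻¹ • rho n w (up z) :=
  up_pr ((fut_up z).rho w).1.ne'

theorem smul_pt (w : W n) {v : LV} (hv : Fut v) : w • hv.pt = (hv.rho w).pt :=
  Subtype.ext (by
    rw [coe_smul, Fut.coe_pt, Fut.coe_pt, up_pr hv.1.ne', map_smul, pr_smul (inv_ne_zero hv.1.ne')])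

/-- The affine function that vanishes on the wall `i` and is negative inside the chamber. -/
noncomputable def ell (i : ZMod n) (z : ℂ) : ℝ := lor (up z) (root i)

/-- The fundamental chamber, a regular right-angled `n`-gon. -/
def chamber (n : ℕ) : Set KD := {z | ∀ i : ZMod n, ell i z ≤ 0}

noncomputable def kr (n : ℕ) : ℝ := √(cos (2 * π / n)) / cos (π / n)

/-- The vertex of the chamber between the sides `k - 1` and `k`. -/
noncomputable def vtxZ (n : ℕ) (k : ℤ) : ℂ :=
  kr n * Complex.exp ((π * (2 * k - 1) / n : ℝ) * Complex.I)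

/-- The lift of a point of the disc to the hyperboloid. -/
noncomputable def nl (z : KD) : LV := (√(1 - ‖(z : ℂ)‖ ^ 2))⁻¹ • up z

theorem fut_nl (z : KD) : Fut (nl z) :=
  (fut_up z).smul (inv_pos.2 (sqrt_pos.2 (by have := (fut_up z).2; rw [lor_up] at this; linarith)))

/-- The geodesic segment from `z` to `z'`, with an equivariant parametrisation. -/
noncomputable def geo (z z' : KD) (t : unitInterval) : KD :=
  ((fut_nl z).comb (fut_nl z') (a := 1 - t) (b := t) (sub_nonneg.2 t.2.2) t.2.1 (by simp)).pt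

/-- The colour of a side: even or odd. -/
def colZ {g : ℕ} (i : ZMod (2 * g + 2)) : ZMod 2 × ZMod 2 :=
  if i.val % 2 = 0 then (1, 0) else (0, 1)

/-- The colouring homomorphism; its kernel is the surface group. -/
def colW (g : ℕ) : W (2 * g + 2) →* Multiplicative (ZMod 2 × ZMod 2) :=
  coxLift (fun i => Multiplicative.ofAdd (colZ i))
    (fun i => by generalize colZ i = x; revert x; decide)
    (fun i => by generalize colZ i = x; generalize colZ (i + 1) = y; revert x y; decide)

theorem colW_sg {g : ℕ} (i : ZMod (2 * g + 2)) : colW g (sg i) = Multiplicative.ofAdd (colZ i) :=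
  coxLift_sg _ _ _ i

end Pool.Agent.Lib.MP_66609f_al.DN
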