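import Pool.Agent.Lib.MP_66609f_al.DN.BTile

/-! Geodesic segments in the Klein disc. -/

namespace Pool.Agent.Lib.MP_66609f_al.DN

open Real unitInterval

variable {n : ℕ} [hn : Fact (5 ≤ n)]

theorem one_sub_sq_pos (z : KD) : 0 < 1 - ‖(z : ℂ)‖ ^ 2 := by
  have := (fut_up z).2
  rw [lor_up] at this
  linarith

theorem nl_coef_pos (z : KD) : 0 < (√(1 - ‖(z : ℂ)‖ ^ 2))⁻¹ :=
  inv_pos.2 (sqrt_pos.2 (one_sub_sq_pos z))

theorem rho_nl (w : W n) (z : KD) : rho n w (nl z) = nl (w • z) := by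
  have h := norm_smul_sq w z
  have h1 := ((fut_up z).rho w).1
  have h2 : √(1 - ‖(z : ℂ)‖ ^ 2) = √(1 - ‖((w • z : KD) : ℂ)‖ ^ 2) * (rho n w (up z)).1 := by
    rw [← h, sqrt_mul (one_sub_sq_pos _).le, sqrt_sq h1.le]
  rw [nl, nl, map_smul, up_smul, smul_smul, h2, mul_inv]

theorem coe_geo (z z' : KD) (t : I) :
    (geo z z' t : ℂ) = pr ((1 - (t : ℝ)) • nl z + (t : ℝ) • nl z') := rfl

theorem smul_geo (w : W n) (z z' : KD) (t : I) : w • geo z z' t = geo (w • z) (w • z') t :=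
  Subtype.ext (by
    rw [geo, smul_pt, Fut.coe_pt, coe_geo, map_add, map_smul, map_smul, rho_nl, rho_nl])

theorem pr_nl (z : KD) : pr (nl z) = z := by rw [nl, pr_smul (nl_coef_pos z).ne', pr_up]

theorem geo_zero (z z' : KD) : geo z z' 0 = z := Subtype.ext (by simp [coe_geo, pr_nl])

theorem geo_one (z z' : KD) : geo z z' 1 = z' := Subtype.ext (by simp [coe_geo, pr_nl])

theorem geo_self (z : KD) (t : I) : geo z z t = z :=
  Subtype.ext (by rw [coe_geo, ← add_smul, sub_add_cancel, one_smul, pr_nl])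

theorem geo_symm (z z' : KD) (t : I) : geo z z' (σ t) = geo z' z t :=
  Subtype.ext (by rw [coe_geo, coe_geo, coe_symm_eq, sub_sub_cancel, add_comm])

theorem continuous_nl : Continuous nl :=
  (Continuous.inv₀ (by fun_prop) fun z => (sqrt_pos.2 (one_sub_sq_pos z)).ne').smul
    (continuous_up.comp continuous_subtype_val)

theorem fut_geo (z z' : KD) (t : I) : Fut ((1 - (t : ℝ)) • nl z + (t : ℝ) • nl z') :=
  (fut_nl z).comb (fut_nl z') (sub_nonneg.2 t.2.2) t.2.1 (by simp)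

theorem continuous_geo {A : Type*} [TopologicalSpace A] {f g : A → KD} {t : A → I}
    (hf : Continuous f) (hg : Continuous g) (ht : Continuous t) :
    Continuous fun a => geo (f a) (g a) (t a) :=
  Continuous.subtype_mk (continuous_pr
    (((continuous_const.sub (continuous_subtype_val.comp ht)).smul (continuous_nl.comp hf)).add
      ((continuous_subtype_val.comp ht).smul (continuous_nl.comp hg)))
    fun a => (fut_geo (f a) (g a) (t a)).1.ne') _

/-- The Euclidean parameter along a geodesic segment. -/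
noncomputable def geoPar (z z' : KD) (t : ℝ) : ℝ :=
  t * (nl z').1 / ((1 - t) * (nl z).1 + t * (nl z').1)

theorem geo_den_pos (z z' : KD) {t : ℝ} (h0 : 0 ≤ t) (h1 : t ≤ 1) :
    0 < (1 - t) * (nl z).1 + t * (nl z').1 := (fut_geo z z' ⟨t, h0, h1⟩).1

theorem nl_snd (z : KD) : (nl z).2 = (nl z).1 * (z : ℂ) := by simp [nl, up]

theorem coe_geo' (z z' : KD) (t : I) :
    (geo z z' t : ℂ) = (1 - geoPar z z' t) • (z : ℂ) + geoPar z z' t • (z' : ℂ) := by
  have h : (((1 - t) * (nl z).1 + t * (nl z').1 : ℝ) : ℂ) ≠ 0 :=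
    Complex.ofReal_ne_zero.2 (geo_den_pos z z' t.2.1 t.2.2).ne'
  simp only [coe_geo, pr, geoPar, Prod.fst_add, Prod.snd_add, Prod.smul_fst, Prod.smul_snd,
    smul_eq_mul, Complex.real_smul, nl_snd]
  push_cast at h ⊢
  field_simp
  ring

theorem geoPar_mem (z z' : KD) (t : I) : geoPar z z' t ∈ I := by
  have h := geo_den_pos z z' t.2.1 t.2.2
  refine ⟨div_nonneg (mul_nonneg t.2.1 (fut_nl z').1.le) h.le, (div_le_one h).2 ?_⟩
  linarith [mul_nonneg (sub_nonneg.2 t.2.2) (fut_nl z).1.le]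

theorem geoPar_lt (z z' : KD) {s t : I} (h : s < t) : geoPar z z' s < geoPar z z' t := by
  have h' : (s : ℝ) < t := h
  rw [geoPar, geoPar, div_lt_div_iff₀ (geo_den_pos z z' s.2.1 s.2.2) (geo_den_pos z z' t.2.1 t.2.2)]
  nlinarith [mul_pos (mul_pos (fut_nl z).1 (fut_nl z').1) (sub_pos.2 h')]

theorem geoPar_zero (z z' : KD) : geoPar z z' 0 = 0 := by simp [geoPar]

theorem geoPar_one (z z' : KD) : geoPar z z' 1 = 1 := by simp [geoPar, (fut_nl z').1.ne']

theorem geoPar_surj (z z' : KD) {s : ℝ} (h0 : 0 ≤ s) (h1 : s ≤ 1) :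
    ∃ t : I, geoPar z z' t = s := by
  have ha := (fut_nl z).1
  have hb := (fut_nl z').1
  have h : 0 < (1 - s) * (nl z').1 + s * (nl z).1 := geo_den_pos z' z h0 h1
  refine ⟨⟨geoPar z' z s, geoPar_mem z' z ⟨s, h0, h1⟩⟩, ?_⟩
  have h2 := geo_den_pos z z' (geoPar_mem z' z ⟨s, h0, h1⟩).1 (geoPar_mem z' z ⟨s, h0, h1⟩).2
  simp only at h2 ⊢
  rw [geoPar, div_eq_iff h2.ne', geoPar]
  field_simp
  ring

theorem geo_injective {z z' : KD} (h : z ≠ z') : Function.Injective (geo z z') := by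
  intro s t e
  have h1 := congrArg Subtype.val e
  rw [coe_geo', coe_geo'] at h1
  have h2 : (geoPar z z' s - geoPar z z' t) • ((z' : ℂ) - z) = 0 := by
    simp only [Complex.real_smul] at h1 ⊢
    push_cast at h1 ⊢
    linear_combination h1
  have h3 := (smul_eq_zero.1 h2).resolve_right fun e => h (Subtype.ext (sub_eq_zero.1 e)).symm
  exact (show StrictMono fun t : I => geoPar z z' t from fun _ _ => geoPar_lt z z').injective
    (sub_eq_zero.1 h3)

theorem mem_segment_iff {z z' x : KD} :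
    (x : ℂ) ∈ segment ℝ (z : ℂ) z' ↔ ∃ t, geo z z' t = x := by
  constructor
  · rintro ⟨a, b, ha, hb, hab, e⟩
    obtain ⟨t, ht⟩ := geoPar_surj z z' hb (by linarith)
    exact ⟨t, Subtype.ext (by rw [coe_geo', ht, ← e, show 1 - b = a by linarith])⟩
  · rintro ⟨t, rfl⟩
    exact ⟨_, _, sub_nonneg.2 (geoPar_mem z z' t).2, (geoPar_mem z z' t).1, by simp,
      (coe_geo' z z' t).symm⟩

theorem up_comb (a : ℝ) (z z' : ℂ) : up ((1 - a) • z + a • z') = (1 - a) • up z + a • up z' :=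
  Prod.ext (by simp [up]) (by simp [up])

theorem lor_up_geo (z z' : KD) (t : I) (e : LV) : lor (up (geo z z' t)) e =
    (1 - geoPar z z' t) * lor (up z) e + geoPar z z' t * lor (up z') e := by
  rw [coe_geo', up_comb, lor_add_left, lor_smul_left, lor_smul_left]

instance : ContractibleSpace KD :=
  (convex_ball (0 : ℂ) 1).contractibleSpace ⟨0, by simp⟩

instance : LocallyPathConnectedSpace KD := Metric.isOpen_ball.locallyPathConnectedSpace

end Pool.Agent.Lib.MP_66609f_al.DN
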