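import Pool.Agent.Lib.MP_66609f_al.DN.BGeo

/-! The vertices of the chamber and its triangulation by the diagonals from one vertex. -/

namespace Pool.Agent.Lib.MP_66609f_al.DN

open Real

theorem exists_coords {a b c α β γ : LV} (h1 : lor a γ = 0) (h2 : lor b γ = 0) (h3 : lor c γ ≠ 0)
    (h4 : lor a β = 0) (h5 : lor b β ≠ 0) (h6 : lor a α ≠ 0) (v : LV) :
    ∃ x y z : ℝ, v = x • a + y • b + z • c := by
  have hli : LinearIndependent ℝ ![a, b, c] := by
    rw [Fintype.linearIndependent_iff]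
    intro f hf
    rw [Fin.sum_univ_three] at hf
    change f 0 • a + f 1 • b + f 2 • c = 0 at hf
    have key : ∀ δ, f 0 * lor a δ + f 1 * lor b δ + f 2 * lor c δ = 0 := fun δ => by
      rw [← lor_smul_left, ← lor_smul_left, ← lor_smul_left, ← lor_add_left, ← lor_add_left, hf]
      simp [lor]
    have k2 : f 2 = 0 := by simpa [h1, h2, h3] using key γ
    have k1 : f 1 = 0 := by simpa [h4, h5, k2] using key β
    have k0 : f 0 = 0 := by simpa [h6, k1, k2] using key α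
    intro i
    fin_cases i <;> assumption
  have hsp := hli.span_eq_top_of_card_eq_finrank' (by simp [Module.finrank_prod])
  obtain ⟨f, hf⟩ := (Submodule.mem_span_range_iff_exists_fun ℝ).1 (hsp ▸ Submodule.mem_top (x := v))
  exact ⟨f 0, f 1, f 2, by rw [← hf, Fin.sum_univ_three]; rfl⟩

noncomputable def sS (n : ℕ) (m : ℤ) : ℝ := sin (m * (π / n))

/-- The lift of the vertex `k`. -/
noncomputable def uV (n : ℕ) (k : ℤ) : LV := up (vtxZ n k)

noncomputable def kap (n : ℕ) : ℝ := 2 * kb n * kr n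

noncomputable def aA (n : ℕ) (k : ℤ) : ℝ := kap n * sS n k * sS n (k + 1)

/-- The normal of the diagonal from the vertex `0` to the vertex `k + 1`. -/
noncomputable def mV (n : ℕ) (k : ℤ) : LV := aA n (k + 1) • rootZ n k - aA n k • rootZ n (k + 1)

theorem sS_zero (n : ℕ) : sS n 0 = 0 := by simp [sS]

theorem sS_neg (n : ℕ) (m : ℤ) : sS n (-m) = -sS n m := by simp [sS]

theorem sS_key (n : ℕ) (j k : ℤ) :
    sS n (k + 1 + 1) * sS n (j - k) - sS n k * sS n (j - (k + 1) - 1) = sS n j * sS n 2 := by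
  unfold sS
  generalize π / n = x
  have e1 : ((k + 1 + 1 : ℤ) : ℝ) * x = k * x + (2 : ℤ) * x := by push_cast; ring
  have e2 : ((j - (k + 1) - 1 : ℤ) : ℝ) * x = (j - k : ℤ) * x - (2 : ℤ) * x := by push_cast; ring
  have e3 : (j : ℝ) * x = k * x + (j - k : ℤ) * x := by push_cast; ring
  rw [e1, e2, e3, sin_add, sin_sub, sin_add]
  ring

variable {n : ℕ} [hn : Fact (5 ≤ n)]

theorem n_pos : (0 : ℝ) < n := by have := hn.1; positivity

theorem sS_n : sS n n = 0 := by
  rw [sS, Int.cast_natCast, mul_div_cancel₀ _ n_pos.ne', sin_pi]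

theorem sS_pos {m : ℤ} (h0 : 0 < m) (h1 : m < n) : 0 < sS n m := by
  have h2 : (0 : ℝ) < m := by exact_mod_cast h0
  have h3 : (m : ℝ) < n := by exact_mod_cast h1
  have h4 := div_pos pi_pos (n_pos (n := n))
  refine sin_pos_of_pos_of_lt_pi (mul_pos h2 h4) ?_
  calc (m : ℝ) * (π / n) < n * (π / n) := mul_lt_mul_of_pos_right h3 h4
    _ = π := mul_div_cancel₀ _ n_pos.ne'

theorem sS_nonneg {m : ℤ} (h0 : 0 ≤ m) (h1 : m ≤ n) : 0 ≤ sS n m := by
  rcases h0.eq_or_lt with rfl | h0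
  · exact (sS_zero n).ge
  rcases h1.eq_or_lt with rfl | h1
  · exact sS_n.ge
  exact (sS_pos h0 h1).le

theorem cos_half_pos : 0 < cos (π / n) :=
  cos_pos_of_mem_Ioo ⟨by linarith [div_pos pi_pos (n_pos (n := n)), pi_pos], by
    have := ang_lt (n := n)
    rw [mul_div_assoc] at this
    linarith [pi_pos]⟩

theorem kr_pos : 0 < kr n := div_pos (sqrt_pos.2 cos_ang_pos) cos_half_pos

theorem kr_lt : kr n < 1 := by
  rw [kr, div_lt_one cos_half_pos, sqrt_lt' cos_half_pos]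
  have h := cos_ang_lt (n := n)
  rw [mul_div_assoc, cos_two_mul] at h ⊢
  linarith

theorem kap_pos : 0 < kap n := mul_pos (mul_pos two_pos kb_pos) kr_pos

theorem norm_vtxZ (k : ℤ) : ‖vtxZ n k‖ = kr n := by
  rw [vtxZ, norm_mul, Complex.norm_exp_ofReal_mul_I, mul_one, Complex.norm_real,
    Real.norm_of_nonneg kr_pos.le]

theorem fut_uV (k : ℤ) : Fut (uV n k) := fut_up_iff.2 (by rw [norm_vtxZ]; exact kr_lt)

theorem lor_uV (j k : ℤ) :
    lor (uV n j) (rootZ n k) = -(kap n * sS n (j - k) * sS n (j - k - 1)) := by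
  have ha : ka n = kb n * kr n * cos (π / n) := by
    rw [ka, kr, mul_assoc, div_mul_cancel₀ _ cos_half_pos.ne']
  have h1 : lor (uV n j) (rootZ n k) =
      -ka n + kb n * kr n * cos (π * (2 * j - 1) / n - 2 * π * k / n) := by
    simp only [lor, uV, up, vtxZ, rootZ, Complex.re_ofReal_mul, Complex.im_ofReal_mul,
      Complex.exp_ofReal_mul_I_re, Complex.exp_ofReal_mul_I_im, cos_sub]
    ring
  have e1 : π * (2 * j - 1) / n - 2 * π * k / n =
      (j - k : ℤ) * (π / n) + (j - k - 1 : ℤ) * (π / n) := by push_cast; ring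
  have e2 : π / n = (j - k : ℤ) * (π / n) - (j - k - 1 : ℤ) * (π / n) := by push_cast; ring
  rw [h1, ha, e1, kap, sS, sS]
  generalize ((j - k : ℤ) : ℝ) * (π / n) = s at e2 ⊢
  generalize ((j - k - 1 : ℤ) : ℝ) * (π / n) = t at e2 ⊢
  rw [e2, cos_add, cos_sub]
  ring

theorem lor_uV_self (k : ℤ) : lor (uV n k) (rootZ n k) = 0 := by simp [lor_uV, sS_zero]

theorem lor_uV_succ (k : ℤ) : lor (uV n (k + 1)) (rootZ n k) = 0 := by simp [lor_uV, sS_zero]

theorem lor_uV_neg {j k : ℤ} (h : (2 ≤ j - k ∧ j - k < n) ∨ (1 ≤ k - j ∧ k - j + 1 < n)) :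
    lor (uV n j) (rootZ n k) < 0 := by
  rw [lor_uV, neg_lt_zero, mul_assoc]
  refine mul_pos kap_pos ?_
  rcases h with h | h
  · exact mul_pos (sS_pos (by omega) (by omega)) (sS_pos (by omega) (by omega))
  · rw [show j - k = -(k - j) by ring, show -(k - j) - 1 = -(k - j + 1) by ring, sS_neg, sS_neg,
      neg_mul_neg]
    exact mul_pos (sS_pos (by omega) (by omega)) (sS_pos (by omega) (by omega))

theorem lor_uV_nonpos {j k : ℤ} (h1 : j - k ≤ n) (h2 : k - j < n) :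
    lor (uV n j) (rootZ n k) ≤ 0 := by
  rw [lor_uV, neg_nonpos, mul_assoc]
  refine mul_nonneg kap_pos.le ?_
  rcases le_or_gt 1 (j - k) with h | h
  · exact mul_nonneg (sS_nonneg (by omega) (by omega)) (sS_nonneg (by omega) (by omega))
  · rw [show j - k = -(k - j) by ring, show -(k - j) - 1 = -(k - j + 1) by ring, sS_neg, sS_neg,
      neg_mul_neg]
    exact mul_nonneg (sS_nonneg (by omega) (by omega)) (sS_nonneg (by omega) (by omega))

theorem lor_uV_zero (k : ℤ) : lor (uV n 0) (rootZ n k) = -aA n k := by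
  rw [lor_uV, zero_sub, show -k - 1 = -(k + 1) by ring, sS_neg, sS_neg, aA]
  ring

theorem aA_pos {k : ℤ} (h0 : 0 < k) (h1 : k + 1 < n) : 0 < aA n k :=
  mul_pos (mul_pos kap_pos (sS_pos h0 (by omega))) (sS_pos (by omega) h1)

theorem aA_nonneg {k : ℤ} (h0 : 0 ≤ k) (h1 : k < n) : 0 ≤ aA n k :=
  mul_nonneg (mul_nonneg kap_pos.le (sS_nonneg h0 (by omega))) (sS_nonneg (by omega) h1)

omit hn in
theorem aA_zero : aA n 0 = 0 := by simp [aA, sS_zero]

theorem aA_last : aA n (n - 1) = 0 := by simp [aA, sS_n]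

omit hn in
theorem lor_mV (v : LV) (k : ℤ) : lor v (mV n k) =
    aA n (k + 1) * lor v (rootZ n k) - aA n k * lor v (rootZ n (k + 1)) := by
  rw [mV, lor_sub_right, lor_smul_right, lor_smul_right]

theorem lor_uV_mV (j k : ℤ) : lor (uV n j) (mV n k) =
    kap n ^ 2 * sS n (k + 1) * sS n 2 * (sS n (k + 1 - j) * sS n j) := by
  have e : sS n (j - k - 1) = -sS n (k + 1 - j) := by rw [← sS_neg]; congr 1; ring
  have e' : sS n (j - (k + 1)) = -sS n (k + 1 - j) := by rw [← sS_neg]; congr 1; ring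
  rw [lor_mV, lor_uV, lor_uV, aA, aA, e, e']
  linear_combination kap n ^ 2 * sS n (k + 1) * sS n (k + 1 - j) * sS_key n j k

theorem lor_uV_mV_zero (k : ℤ) : lor (uV n 0) (mV n k) = 0 := by simp [lor_uV_mV, sS_zero]

theorem lor_uV_mV_self (k : ℤ) : lor (uV n (k + 1)) (mV n k) = 0 := by simp [lor_uV_mV, sS_zero]

theorem mV_coef_pos {k : ℤ} (h0 : 0 ≤ k) (h1 : k + 1 < n) :
    0 < kap n ^ 2 * sS n (k + 1) * sS n 2 :=
  mul_pos (mul_pos (pow_pos kap_pos 2) (sS_pos (by omega) h1))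
    (sS_pos two_pos (by have := hn.1; omega))

theorem lor_uV_mV_pos {j k : ℤ} (h0 : 0 < j) (h1 : j ≤ k) (h2 : k + 1 < n) :
    0 < lor (uV n j) (mV n k) := by
  rw [lor_uV_mV]
  exact mul_pos (mV_coef_pos (by omega) h2)
    (mul_pos (sS_pos (by omega) (by omega)) (sS_pos h0 (by omega)))

theorem lor_uV_mV_neg {j k : ℤ} (h0 : 0 ≤ k) (h1 : k + 1 < j) (h2 : j < n) :
    lor (uV n j) (mV n k) < 0 := by
  rw [lor_uV_mV, show k + 1 - j = -(j - (k + 1)) by ring, sS_neg, neg_mul, mul_neg, neg_lt_zero]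
  exact mul_pos (mV_coef_pos h0 (by omega))
    (mul_pos (sS_pos (by omega) (by omega)) (sS_pos (by omega) h2))

/-- The cone over the triangle with vertices `0`, `i + 1`, `i + 2`. -/
def Tri (n : ℕ) (i : ℤ) (v : LV) : Prop :=
  ∃ x y z : ℝ, 0 ≤ x ∧ 0 ≤ y ∧ 0 ≤ z ∧ v = x • uV n 0 + y • uV n (i + 1) + z • uV n (i + 1 + 1)

omit hn in
theorem lor_comb (x y z : ℝ) (a b c e : LV) :
    lor (x • a + y • b + z • c) e = x * lor a e + y * lor b e + z * lor c e := by
  rw [lor_add_left, lor_add_left, lor_smul_left, lor_smul_left, lor_smul_left]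

theorem tri_of_le {i : ℤ} (h0 : 0 ≤ i) (h1 : i + 2 < n) {v : LV}
    (h2 : lor v (rootZ n (i + 1)) ≤ 0) (h3 : lor v (mV n i) ≤ 0) (h4 : 0 ≤ lor v (mV n (i + 1))) :
    Tri n i v := by
  have a1 : lor (uV n 0) (rootZ n (i + 1)) < 0 := lor_uV_neg (by omega)
  have a2 : 0 < lor (uV n (i + 1)) (mV n (i + 1)) := lor_uV_mV_pos (by omega) le_rfl (by omega)
  have a3 : lor (uV n (i + 1 + 1)) (mV n i) < 0 := lor_uV_mV_neg h0 (by omega) (by omega)
  obtain ⟨x, y, z, rfl⟩ := exists_coords (lor_uV_mV_zero i) (lor_uV_mV_self i) a3.ne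
    (lor_uV_mV_zero (i + 1)) a2.ne' a1.ne v
  rw [lor_comb, lor_uV_self, lor_uV_succ] at h2
  rw [lor_comb, lor_uV_mV_zero, lor_uV_mV_self] at h3
  rw [lor_comb, lor_uV_mV_zero, lor_uV_mV_self] at h4
  exact ⟨x, y, z, by nlinarith, by nlinarith, by nlinarith, rfl⟩

/-- The cone over the chamber. -/
def PC (n : ℕ) (v : LV) : Prop := ∀ k : ℤ, 0 ≤ k → k < n → lor v (rootZ n k) ≤ 0

theorem pc_iff {v : LV} : PC n v ↔ ∀ i : ZMod n, lor v (root i) ≤ 0 := by
  refine ⟨fun h i => ?_, fun h k _ _ => root_intCast (n := n) k ▸ h k⟩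
  have h1 : (i.cast : ℤ) = i.val := (ZMod.natCast_val i).symm
  exact h _ (by omega) (by have := i.val_lt; omega)

theorem Tri.pc {i : ℤ} (h0 : 0 ≤ i) (h1 : i + 2 < n) {v : LV} (h : Tri n i v) : PC n v := by
  obtain ⟨x, y, z, hx, hy, hz, rfl⟩ := h
  intro k k0 k1
  rw [lor_comb]
  have a1 := mul_nonneg hx (neg_nonneg.2 (lor_uV_nonpos (n := n) (j := 0) (k := k) (by omega)
    (by omega)))
  have a2 := mul_nonneg hy (neg_nonneg.2 (lor_uV_nonpos (n := n) (j := i + 1) (k := k) (by omega)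
    (by omega)))
  have a3 := mul_nonneg hz (neg_nonneg.2 (lor_uV_nonpos (n := n) (j := i + 1 + 1) (k := k)
    (by omega) (by omega)))
  linarith

theorem Tri.fut {i : ℤ} {v : LV} (h : Tri n i v) (hv : v ≠ 0) : Fut v := by
  obtain ⟨x, y, z, hx, hy, hz, rfl⟩ := h
  rcases (add_nonneg hx hy).eq_or_lt with h | h
  · obtain rfl : x = 0 := by linarith
    obtain rfl : y = 0 := by linarith
    rcases hz.eq_or_lt with rfl | hz
    · simp at hv
    · simpa using (fut_uV _).smul hz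
  · simpa using ((fut_uV 0).comb (fut_uV (i + 1)) hx hy h).comb (fut_uV (i + 1 + 1)) zero_le_one hz
      (by linarith)

theorem PC.exists_le {v : LV} (h : PC n v) :
    ∃ i : ℤ, 0 ≤ i ∧ i + 2 < n ∧ lor v (mV n i) ≤ 0 ∧ 0 ≤ lor v (mV n (i + 1)) := by
  have h5 := hn.1
  by_contra hc
  push Not at hc
  have h0 : lor v (mV n 0) ≤ 0 := by
    rw [lor_mV, aA_zero, zero_mul, sub_zero]
    exact mul_nonpos_of_nonneg_of_nonpos (aA_nonneg (by omega) (by omega)) (h 0 le_rfl (by omega))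
  have key : ∀ m : ℕ, m + 2 < n → lor v (mV n (m + 1)) < 0 := by
    intro m
    induction m with
    | zero => exact fun _ => hc 0 le_rfl (by omega) h0
    | succ m ih => exact fun hm => hc _ (by omega) (by omega) (ih (by omega)).le
  have h1 := key (n - 3) (by omega)
  rw [lor_mV, show ((n - 3 : ℕ) : ℤ) + 1 + 1 = n - 1 by omega, aA_last, zero_mul, zero_sub] at h1
  have := mul_nonpos_of_nonneg_of_nonpos (aA_nonneg (n := n) (k := ((n - 3 : ℕ) : ℤ) + 1)
    (by omega) (by omega)) (h (n - 1) (by omega) (by omega))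
  linarith

theorem PC.exists_tri {v : LV} (h : PC n v) : ∃ i : ℤ, 0 ≤ i ∧ i + 2 < n ∧ Tri n i v := by
  obtain ⟨i, h0, h1, h2, h3⟩ := h.exists_le
  exact ⟨i, h0, h1, tri_of_le h0 h1 (h _ (by omega) (by omega)) h2 h3⟩

theorem PC.fut {v : LV} (h : PC n v) (hv : v ≠ 0) : Fut v := by
  obtain ⟨i, -, -, h1⟩ := h.exists_tri
  exact h1.fut hv

theorem up_ne_zero (z : ℂ) : up z ≠ 0 := fun h => one_ne_zero (congrArg Prod.fst h)

theorem norm_le_kr {z : ℂ} (h : ∀ i : ZMod n, ell i z ≤ 0) : ‖z‖ ≤ kr n := by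
  obtain ⟨i, -, -, x, y, t, hx, hy, ht, e⟩ := (pc_iff.2 h).exists_tri
  have h1 : 1 = x + y + t := by simpa [up, uV] using congrArg Prod.fst e
  have h2 : z = x • vtxZ n 0 + y • vtxZ n (i + 1) + t • vtxZ n (i + 1 + 1) :=
    congrArg Prod.snd e
  rw [h2]
  refine norm_add₃_le.trans ?_
  rw [norm_smul, norm_smul, norm_smul, norm_vtxZ, norm_vtxZ, norm_vtxZ, Real.norm_of_nonneg hx,
    Real.norm_of_nonneg hy, Real.norm_of_nonneg ht, ← add_mul, ← add_mul, ← h1, one_mul]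

omit hn in
theorem continuous_ell (i : ZMod n) : Continuous (ell i) := by
  unfold ell lor up
  fun_prop

theorem image_chamber : Subtype.val '' chamber n = {z : ℂ | ∀ i : ZMod n, ell i z ≤ 0} := by
  ext z
  constructor
  · rintro ⟨z, hz, rfl⟩
    exact hz
  · exact fun hz => ⟨⟨z, mem_ball_zero_iff.2 ((norm_le_kr hz).trans_lt kr_lt)⟩, hz, rfl⟩

theorem isCompact_chamber : IsCompact (chamber n) := by
  rw [Topology.IsInducing.subtypeVal.isCompact_iff, image_chamber]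
  refine (isCompact_closedBall (0 : ℂ) (kr n)).of_isClosed_subset ?_ fun z hz =>
    mem_closedBall_zero_iff.2 (norm_le_kr hz)
  rw [Set.ofPred_forall]
  exact isClosed_iInter fun i => isClosed_le (continuous_ell i) continuous_const

/-- The vertex `k` as a point of the disc. -/
noncomputable def vtx (n : ℕ) [Fact (5 ≤ n)] (k : ℤ) : KD :=
  ⟨vtxZ n k, mem_ball_zero_iff.2 (by rw [norm_vtxZ]; exact kr_lt)⟩

theorem up_vtx (k : ℤ) : up (vtx n k) = uV n k := rfl

end Pool.Agent.Lib.MP_66609f_al.DN
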