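import Pool.Agent.Lib.MP_66609f_al.DN.BDefs

/-! The chambers tile the Klein disc. -/

namespace Pool.Agent.Lib.MP_66609f_al.DN

open Real

variable {n : ℕ} [hn : Fact (5 ≤ n)]

theorem cos_le_cos_two {d : ℕ} (h1 : 2 ≤ d) (h2 : d + 2 ≤ n) :
    cos (2 * π * d / n) ≤ cos (2 * (2 * π / n)) := by
  have hn0 : (0 : ℝ) < n := by have := hn.1; positivity
  have key : ∀ d : ℕ, 2 ≤ d → 2 * d ≤ n → cos (2 * π * d / n) ≤ cos (2 * (2 * π / n)) := by
    intro d h1 h2
    have h3 : (2 : ℝ) ≤ d := by exact_mod_cast h1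
    have h4 : (2 : ℝ) * d ≤ n := by exact_mod_cast h2
    refine cos_le_cos_of_nonneg_of_le_pi (by linarith [ang_pos (n := n)]) ?_ ?_
    · rw [div_le_iff₀ hn0]; nlinarith [pi_pos]
    · rw [← mul_div_assoc]
      exact div_le_div_of_nonneg_right (by nlinarith [pi_pos]) hn0.le
  rcases le_total (2 * d) n with h | h
  · exact key d h1 h
  · have e : 2 * π * d / n = 2 * π - 2 * π * ((n - d : ℕ) : ℝ) / n := by
      rw [Nat.cast_sub (by omega)]; field_simp; ring
    rw [e, cos_two_pi_sub]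
    exact key _ (by omega) (by omega)

theorem lor_root_nonadj {i j : ZMod n} (h0 : i ≠ j) (h1 : i ≠ j + 1) (h2 : j ≠ i + 1) :
    lor (root i) (root j) ≤ -1 := by
  obtain ⟨k, rfl⟩ := ZMod.intCast_surjective j
  set d := (i - k).val with hd
  have e : i = ((k + d : ℤ) : ZMod n) := by simp [hd]
  have hlt : d < n := ZMod.val_lt _
  have d0 : d ≠ 0 := fun h => h0 (by rw [e, h]; simp)
  have d1 : d ≠ 1 := fun h => h1 (by rw [e, h]; simp)
  have d2 : d + 1 ≠ n := fun h => h2 (by
    have : ((d + 1 : ℕ) : ZMod n) = 0 := by rw [h, ZMod.natCast_self]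
    rw [e]
    push_cast at this ⊢
    linear_combination -this)
  have h3 := cos_le_cos_two (n := n) (d := d) (by omega) (by omega)
  rw [e, root_intCast, root_intCast, lor_rootZ, ka_sq]
  push_cast
  rw [add_sub_cancel_left]
  rw [cos_two_mul] at h3
  have h4 := kb_sq (n := n)
  have h5 := mul_le_mul_of_nonneg_left h3 (sq_nonneg (kb n))
  have h6 := mul_nonneg (sq_nonneg (kb n))
    (mul_pos (cos_ang_pos (n := n)) (sub_pos.2 (cos_ang_lt (n := n)))).le
  nlinarith

omit hn in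
theorem root_fst (i : ZMod n) : (root i).1 = ka n := rfl

theorem Fut.nonadj {v : LV} (hv : Fut v) {i j : ZMod n} (h0 : i ≠ j) (h1 : i ≠ j + 1)
    (h2 : j ≠ i + 1) : lor v (root i) + lor v (root j) < 0 := by
  rw [← lor_add_right]
  refine hv.lor_neg (add_pos ka_pos ka_pos) ?_
  have h := lor_root_nonadj h0 h1 h2
  rw [lor_add_left, lor_add_right, lor_add_right, lor_root_self, lor_root_self,
    lor_comm (root j)]
  linarith

theorem succ_ne (i : ZMod n) : i + 1 ≠ i := by
  have : Fact (1 < n) := ⟨by have := hn.1; omega⟩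
  simp

theorem lor_rho_sg_self (i : ZMod n) (v : LV) :
    lor (rho n (sg i) v) (root i) = -lor v (root i) := by
  rw [rho_sg]; exact lor_reflL_self (lor_root_self i) v

theorem lor_rho_sg_adj {i j : ZMod n} (h : i = j + 1 ∨ j = i + 1) (v : LV) :
    lor (rho n (sg j) v) (root i) = lor v (root i) := by
  have : lor (root j) (root i) = 0 := by
    rcases h with rfl | rfl
    · exact lor_root_succ j
    · rw [lor_comm]; exact lor_root_succ i
  rw [rho_sg, lor_sub_left, lor_smul_left, this, mul_zero, sub_zero]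

theorem side_sg_adj {i j : ZMod n} (h : i = j + 1 ∨ j = i + 1) (w : W n) :
    side (sg i) (sg j * w) = side (sg i) w := by
  have hne : i ≠ j := by
    rcases h with rfl | rfl
    · exact succ_ne j
    · exact (succ_ne i).symm
  have h1 : side (sg i) (sg j) = false := by
    rw [← Bool.not_eq_true, side_sg]
    exact fun e => hne (coxNest_sg_inj e)
  have h2 : Commute (sg i) (sg j) := by
    rcases h with rfl | rfl
    · exact (sg_comm j).symm
    · exact sg_comm i
  rw [side_mul, h1, Bool.false_xor, mul_assoc, h2.eq, inv_mul_cancel_left]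

omit hn in
theorem descent_step {w : W n} (hw : w ≠ 1) : ∃ j w', w = sg j * w' ∧ len w' + 1 = len w ∧
    side (sg j) w = true ∧ side (sg j) w' = false := by
  obtain ⟨j, hj⟩ := exists_descent w hw
  refine ⟨j, sg j * w, by rw [← mul_assoc, sg_mul_self, one_mul], len_sg_mul w j hj, hj, ?_⟩
  rw [side_refl_mul ⟨j, coxNest_refl j⟩, hj]
  rfl

/-- The ping-pong lemma. -/
theorem pingpong {v : LV} (hv : Fut v) {c : ℝ} (hc : 0 ≤ c) (h : ∀ i : ZMod n, lor v (root i) ≤ -c)
    (w : W n) (i : ZMod n) : (side (sg i) w = false → lor (rho n w v) (root i) ≤ -c) ∧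
      (side (sg i) w = true → c ≤ lor (rho n w v) (root i)) := by
  induction hl : len w using Nat.strong_induction_on generalizing w i with
  | _ m ih =>
  by_cases hw : w = 1
  · subst hw
    rw [side_one, rho_one]
    exact ⟨fun _ => h i, fun e => absurd e (by simp)⟩
  obtain ⟨j, w', e, h1, h2, h3⟩ := descent_step hw
  have ih' := fun i => ih (len w') (by omega) w' i rfl
  have h4 : c ≤ lor (rho n w v) (root j) := by
    rw [e, rho_mul, lor_rho_sg_self]
    linarith [(ih' j).1 h3]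
  by_cases hij : i = j
  · subst hij
    exact ⟨fun e => absurd (h2.symm.trans e) (by simp), fun _ => h4⟩
  by_cases hadj : i = j + 1 ∨ j = i + 1
  · rw [e, side_sg_adj hadj, rho_mul, lor_rho_sg_adj hadj]
    exact ih' i
  push Not at hadj
  refine ⟨fun _ => ?_, fun e => absurd ⟨e, h2⟩ (not_side_side hij hadj.1 hadj.2 w)⟩
  linarith [(hv.rho w).nonadj hij hadj.1 hadj.2]

theorem ell_smul (i : ZMod n) (w : W n) (z : KD) :
    ell i (w • z : KD) = (rho n w (up z)).1⁻¹ * lor (rho n w (up z)) (root i) := by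
  rw [ell, up_smul, lor_smul_left]

theorem ell_smul_nonpos {z : KD} (hz : z ∈ chamber n) {w : W n} {i : ZMod n}
    (h : side (sg i) w = false) : ell i (w • z : KD) ≤ 0 := by
  rw [ell_smul]
  exact mul_nonpos_of_nonneg_of_nonpos (inv_pos.2 ((fut_up z).rho w).1).le
    (by simpa using (pingpong (fut_up z) le_rfl (fun i => (hz i).trans_eq neg_zero.symm) w i).1 h)

theorem ell_smul_nonneg {z : KD} (hz : z ∈ chamber n) {w : W n} {i : ZMod n}
    (h : side (sg i) w = true) : 0 ≤ ell i (w • z : KD) := by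
  rw [ell_smul]
  exact mul_nonneg (inv_pos.2 ((fut_up z).rho w).1).le
    ((pingpong (fut_up z) le_rfl (fun i => (hz i).trans_eq neg_zero.symm) w i).2 h)

theorem exists_margin {z : KD} (hz : ∀ i : ZMod n, ell i z < 0) :
    ∃ c : ℝ, 0 < c ∧ ∀ i : ZMod n, lor (up z) (root i) ≤ -c := by
  obtain ⟨i, hi⟩ := Finite.exists_max fun i : ZMod n => ell i z
  exact ⟨-ell i z, neg_pos.2 (hz i), fun j => (hi j).trans_eq (neg_neg _).symm⟩

theorem ell_smul_neg {z : KD} (hz : ∀ i : ZMod n, ell i z < 0) {w : W n} {i : ZMod n}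
    (h : side (sg i) w = false) : ell i (w • z : KD) < 0 := by
  obtain ⟨c, hc, h1⟩ := exists_margin hz
  rw [ell_smul]
  exact mul_neg_of_pos_of_neg (inv_pos.2 ((fut_up z).rho w).1)
    (by linarith [(pingpong (fut_up z) hc.le h1 w i).1 h])

theorem ell_smul_pos {z : KD} (hz : ∀ i : ZMod n, ell i z < 0) {w : W n} {i : ZMod n}
    (h : side (sg i) w = true) : 0 < ell i (w • z : KD) := by
  obtain ⟨c, hc, h1⟩ := exists_margin hz
  rw [ell_smul]
  exact mul_pos (inv_pos.2 ((fut_up z).rho w).1)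
    (by linarith [(pingpong (fut_up z) hc.le h1 w i).2 h])

/-- The closed outer half-planes of two non-adjacent sides are disjoint. -/
theorem ell_nonadj (z : KD) {i j : ZMod n} (h0 : i ≠ j) (h1 : i ≠ j + 1) (h2 : j ≠ i + 1) :
    ell i z + ell j z < 0 := (fut_up z).nonadj h0 h1 h2

theorem sg_smul_eq {i : ZMod n} {z : KD} (h : ell i z = 0) : sg i • z = z :=
  Subtype.ext (by
    rw [coe_smul, rho_sg, show lor (up z) (root i) = 0 from h, mul_zero, zero_smul, sub_zero, pr_up])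

theorem exists_ell_sg (j : ZMod n) (z : KD) : ∃ c : ℝ, 0 < c ∧
    ell j (sg j • z : KD) = -(c * ell j z) ∧
      ∀ i, i = j + 1 ∨ j = i + 1 → ell i (sg j • z : KD) = c * ell i z :=
  ⟨_, inv_pos.2 ((fut_up z).rho (sg j)).1, by rw [ell_smul, lor_rho_sg_self, mul_neg]; rfl,
    fun i h => by rw [ell_smul, lor_rho_sg_adj h]; rfl⟩

theorem sg_smul_eq_iff {i : ZMod n} {z : KD} : sg i • z = z ↔ ell i z = 0 := by
  refine ⟨fun h => ?_, sg_smul_eq⟩
  obtain ⟨c, hc, h1, -⟩ := exists_ell_sg i z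
  rw [h] at h1
  have : (1 + c) * ell i z = 0 := by linarith
  exact (mul_eq_zero.1 this).resolve_left (by linarith)

/-- Two points of the chamber in one orbit are equal. -/
theorem chamber_stab {z : KD} (hz : z ∈ chamber n) {w : W n} (hw : w • z ∈ chamber n) :
    w • z = z ∧ w ∈ WJ {i | ell i z = 0} := by
  induction hl : len w using Nat.strong_induction_on generalizing w with
  | _ m ih =>
  by_cases h1 : w = 1
  · subst h1
    exact ⟨one_smul _ _, one_mem _⟩
  obtain ⟨j, w', e, h1, h2, -⟩ := descent_step h1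
  have h3 : ell j (w • z : KD) = 0 := (hw j).antisymm (ell_smul_nonneg hz h2)
  have h4 : w' • z = w • z := by
    rw [← sg_smul_eq h3, smul_smul, e, ← mul_assoc, sg_mul_self, one_mul]
  obtain ⟨h5, h6⟩ := ih (len w') (by omega) (h4 ▸ hw) rfl
  have h7 : w • z = z := h4.symm.trans h5
  rw [h7] at h3
  exact ⟨h7, e ▸ mul_mem (coxNest_sg_mem h3) h6⟩

theorem lor_up_zero (v : LV) : lor v (up 0) = -v.1 := by simp [lor, up]

theorem time_ge (w : W n) : 1 + 2 * ka n ^ 2 * len w ≤ (rho n w (up 0)).1 := by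
  have h0 : Fut (up 0) := fut_up_iff.2 (by simp)
  induction hl : len w generalizing w with
  | zero => rw [eq_one_of_len w hl, rho_one]; simp [up]
  | succ m ih =>
    have hw : w ≠ 1 := fun e => by rw [e, coxLen2_len_one] at hl; omega
    obtain ⟨j, w', e, h1, -, h3⟩ := descent_step hw
    have h4 := ih w' (by omega)
    have h5 := (pingpong h0 (ka_pos (n := n)).le
      (fun i => by rw [lor_comm, lor_up_zero, root_fst]) w' j).1 h3
    rw [e, rho_mul, rho_sg, Prod.fst_sub, Prod.smul_fst, root_fst, smul_eq_mul]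
    push_cast
    nlinarith [ka_pos (n := n)]

theorem finite_len_le (N : ℕ) : {w : W n | len w ≤ N}.Finite :=
  ((List.finite_length_le (ZMod n) N).image fun l => (l.map sg).prod).subset fun w hw => by
    obtain ⟨l, h1, h2⟩ := exists_word w
    exact ⟨l, h1.le.trans hw, h2⟩

theorem norm_smul_sq (w : W n) (z : KD) :
    (1 - ‖((w • z : KD) : ℂ)‖ ^ 2) * (rho n w (up z)).1 ^ 2 = 1 - ‖(z : ℂ)‖ ^ 2 := by
  have h := lor_up ((w • z : KD) : ℂ)
  have h1 := ((fut_up z).rho w).1.ne'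
  rw [up_smul, lor_smul_left, lor_smul_right, lor_rho, lor_up] at h
  field_simp at h
  linarith

theorem time_ge' (w : W n) (z : KD) :
    (rho n w⁻¹ (up 0)).1 * (1 - ‖(z : ℂ)‖) ≤ (rho n w (up z)).1 := by
  have h0 : Fut (rho n w⁻¹ (up 0)) := (fut_up_iff.2 (by simp)).rho _
  have h1 := lor_rho_left w (up z) (up 0)
  rw [lor_up_zero] at h1
  generalize rho n w⁻¹ (up 0) = m at h0 h1
  have h2 : ‖m.2‖ ≤ m.1 := by
    refine le_of_sq_le_sq ?_ h0.1.le
    have := h0.2
    rw [Complex.sq_norm, Complex.normSq_apply]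
    unfold lor at this
    nlinarith
  have h3 : (z : ℂ).re * m.2.re + (z : ℂ).im * m.2.im ≤ ‖(z : ℂ)‖ * ‖m.2‖ := by
    have := Complex.re_le_norm ((z : ℂ) * (starRingEnd ℂ) m.2)
    rw [norm_mul, Complex.norm_conj] at this
    simpa using this
  have h4 := mul_le_mul_of_nonneg_left h2 (norm_nonneg (z : ℂ))
  generalize rho n w (up z) = T at h1
  simp only [lor, up] at h1
  linarith

theorem finite_return {r : ℝ} (hr : r < 1) :
    {w : W n | ∃ z : KD, ‖(z : ℂ)‖ ≤ r ∧ ‖((w • z : KD) : ℂ)‖ ≤ r}.Finite := by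
  obtain ⟨N, hN⟩ := exists_nat_ge (((1 - r ^ 2) * (1 - r) ^ 2)⁻¹ / (2 * ka n ^ 2))
  refine (finite_len_le N).subset ?_
  rintro w ⟨z, h1, h2⟩
  have h0 : 0 ≤ r := (norm_nonneg _).trans h1
  have h3 := norm_smul_sq w z
  have h4 := time_ge' w z
  have h5 := time_ge w⁻¹
  rw [len_inv] at h5
  have ha : 0 < 2 * ka n ^ 2 := by have := ka_pos (n := n); positivity
  have hl : (0 : ℝ) ≤ 2 * ka n ^ 2 * len w := by positivity
  generalize (rho n w⁻¹ (up 0)).1 = m at h4 h5
  generalize (rho n w (up z)).1 = T at h3 h4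
  have h6 : m * (1 - r) ≤ T := le_trans (mul_le_mul_of_nonneg_left (by linarith) (by linarith)) h4
  have h7 : (m * (1 - r)) ^ 2 ≤ T ^ 2 :=
    pow_le_pow_left₀ (mul_nonneg (by linarith) (by linarith)) h6 2
  have h8 : 0 < 1 - r ^ 2 := by nlinarith
  have h9 : 1 - r ^ 2 ≤ 1 - ‖((w • z : KD) : ℂ)‖ ^ 2 := by
    linarith [pow_le_pow_left₀ (norm_nonneg _) h2 2]
  have h10 : (1 - r ^ 2) * (m * (1 - r)) ^ 2 ≤ 1 :=
    (mul_le_mul h9 h7 (sq_nonneg _) (by linarith)).trans (by
      rw [h3]; linarith [sq_nonneg ‖(z : ℂ)‖])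
  have h11 : 0 < (1 - r ^ 2) * (1 - r) ^ 2 := mul_pos h8 (pow_pos (by linarith) 2)
  have h12 : m ^ 2 ≤ ((1 - r ^ 2) * (1 - r) ^ 2)⁻¹ := by
    rw [← one_div, le_div_iff₀ h11]; linarith
  rw [div_le_iff₀ ha] at hN
  have h13 : 2 * ka n ^ 2 * len w ≤ 2 * ka n ^ 2 * N := by nlinarith
  exact_mod_cast le_of_mul_le_mul_left h13 ha

/-- The chambers cover the disc. -/
theorem exists_chamber (z : KD) : ∃ (w : W n) (z0 : KD), z0 ∈ chamber n ∧ z = w • z0 := by
  have hf : {w : W n | ‖((w • z : KD) : ℂ)‖ ≤ ‖(z : ℂ)‖}.Finite :=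
    (finite_return (mem_ball_zero_iff.1 z.2)).subset fun w hw => ⟨z, le_rfl, hw⟩
  obtain ⟨w, hw, hmin⟩ := Set.exists_min_image _ (fun w : W n => ‖((w • z : KD) : ℂ)‖) hf
    ⟨1, by simp⟩
  refine ⟨w⁻¹, w • z, fun i => ?_, (inv_smul_smul _ _).symm⟩
  by_contra h
  push Not at h
  have h1 := norm_smul_sq (sg i) (w • z)
  have h2 := ((fut_up (w • z)).rho (sg i)).1
  have h3 : (rho n (sg i) (up (w • z : KD))).1 < 1 := by
    rw [rho_sg, Prod.fst_sub, Prod.smul_fst, root_fst, smul_eq_mul]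
    have := mul_pos h (ka_pos (n := n))
    unfold ell at this
    simp only [up] at this ⊢
    linarith
  have h4 := (fut_up (sg i • w • z)).2
  rw [lor_up] at h4
  have h5 : ‖((sg i • w • z : KD) : ℂ)‖ < ‖((w • z : KD) : ℂ)‖ := by
    refine lt_of_pow_lt_pow_left₀ 2 (norm_nonneg _) ?_
    have h6 : (rho n (sg i) (up (w • z : KD))).1 ^ 2 < 1 := by nlinarith
    nlinarith
  rw [smul_smul] at h5
  exact absurd (hmin _ (h5.le.trans hw)) (not_le.2 h5)

theorem continuous_up : Continuous up := continuous_const.prodMk continuous_id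

theorem continuous_pr {A : Type*} [TopologicalSpace A] {f : A → LV} (hf : Continuous f)
    (h : ∀ a, (f a).1 ≠ 0) : Continuous fun a => pr (f a) :=
  hf.snd.div (Complex.continuous_ofReal.comp hf.fst) fun a => Complex.ofReal_ne_zero.2 (h a)

instance kdCont : ContinuousConstSMul (W n) KD :=
  ⟨fun w => Continuous.subtype_mk (continuous_pr
    ((rho n w).toLinearMap.continuous_of_finiteDimensional.comp
      (continuous_up.comp continuous_subtype_val)) fun z => ((fut_up z).rho w).1.ne') _⟩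

theorem exists_norm_le {K : Set KD} (hK : IsCompact K) : ∃ r < 1, ∀ z ∈ K, ‖(z : ℂ)‖ ≤ r := by
  rcases K.eq_empty_or_nonempty with rfl | h
  · exact ⟨0, one_pos, by simp⟩
  obtain ⟨z, -, hz⟩ := hK.exists_isMaxOn h (f := fun z : KD => ‖(z : ℂ)‖) (by fun_prop)
  exact ⟨_, mem_ball_zero_iff.1 z.2, hz⟩

instance kdProp : ProperlyDiscontinuousSMul (W n) KD :=
  ⟨fun {K L} hK hL => by
    obtain ⟨r, hr, h⟩ := exists_norm_le (hK.union hL)
    refine (finite_return hr).subset ?_
    rintro w ⟨_, ⟨z, hz, rfl⟩, hz'⟩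
    exact ⟨z, h _ (Or.inl hz), h _ (Or.inr hz')⟩⟩

omit hn in
theorem mem_WJ_adj {i : ZMod n} {w : W n} (h : w ∈ WJ {i, i + 1}) :
    w = 1 ∨ w = sg i ∨ w = sg (i + 1) ∨ w = sg i * sg (i + 1) := by
  have hc := (sg_comm i).eq
  have h2 : (sg i * sg (i + 1)) ^ (2 : ℤ) = 1 := by
    rw [zpow_two, mul_assoc, ← mul_assoc (sg (i + 1)), ← hc, mul_assoc, sg_mul_self, mul_one,
      sg_mul_self]
  obtain ⟨k, hk⟩ := mem_WJ_pair i (i + 1) w h
  rcases Int.even_or_odd' k with ⟨m, rfl | rfl⟩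
  · rw [zpow_mul, h2, one_zpow, one_mul] at hk
    tauto
  · rw [zpow_add_one, zpow_mul, h2, one_zpow, one_mul, mul_assoc, sg_mul_self, mul_one] at hk
    tauto

omit hn in
theorem natCast_ne_zero {k : ℕ} (h0 : 0 < k) (h4 : k < n) : (k : ZMod n) ≠ 0 := fun h => by
  have := Nat.le_of_dvd h0 ((ZMod.natCast_eq_zero_iff _ _).1 h)
  omega

/-- A point lies on at most two walls of the chamber, and they are adjacent. -/
theorem exists_adj (z : KD) : ∃ i : ZMod n, {j | ell j z = 0} ⊆ {i, i + 1} := by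
  have h5 := hn.1
  have key : ∀ {i j : ZMod n}, ell i z = 0 → ell j z = 0 → i = j ∨ i = j + 1 ∨ j = i + 1 := by
    intro i j hi hj
    by_contra h
    push Not at h
    linarith [ell_nonadj z h.1 h.2.1 h.2.2]
  by_cases h0 : ∃ j : ZMod n, ell j z = 0
  swap
  · exact ⟨0, fun j hj => absurd ⟨j, hj⟩ h0⟩
  obtain ⟨j, hj⟩ := h0
  by_cases h1 : ell (j + 1) z = 0
  · refine ⟨j, fun k hk => ?_⟩
    rcases key hk hj with h | h | h
    · exact Or.inl h
    · exact Or.inr h
    · exfalso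
      subst h
      rcases key hk h1 with h | h | h
      · exact natCast_ne_zero (n := n) (k := 2) (by omega) (by omega)
          (by push_cast; linear_combination -h)
      · exact natCast_ne_zero (n := n) (k := 3) (by omega) (by omega)
          (by push_cast; linear_combination -h)
      · exact succ_ne _ h
  · refine ⟨j - 1, fun k hk => ?_⟩
    rcases key hk hj with h | h | h
    · exact Or.inr (by rw [h]; simp)
    · exact absurd (h ▸ hk) h1
    · exact Or.inl (by rw [h]; simp)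

theorem colZ_cases {g : ℕ} (i : ZMod (2 * g + 2)) : colZ i = (1, 0) ∨ colZ i = (0, 1) := by
  unfold colZ
  split_ifs <;> simp

theorem colZ_succ {g : ℕ} (i : ZMod (2 * g + 2)) : colZ (i + 1) = colZ i + (1, 1) := by
  have : Fact (1 < 2 * g + 2) := ⟨by omega⟩
  have h1 : (i + 1).val = (i.val + 1) % (2 * g + 2) := by rw [ZMod.val_add, ZMod.val_one]
  have h2 : (i + 1).val % 2 = (i.val + 1) % 2 := by
    rw [h1, Nat.mod_mod_of_dvd _ ⟨g + 1, by ring⟩]
  unfold colZ
  by_cases h : i.val % 2 = 0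
  · rw [if_pos h, if_neg (by omega)]; decide
  · rw [if_neg h, if_pos (by omega)]; decide

/-- The kernel of the colouring acts freely. -/
theorem eq_one_of_col {g : ℕ} [Fact (2 ≤ g)] {γ : W (2 * g + 2)} (hγ : colW g γ = 1) {z : KD}
    (h : γ • z = z) : γ = 1 := by
  obtain ⟨w, z0, hz, rfl⟩ := exists_chamber (n := 2 * g + 2) z
  have h1 : (w⁻¹ * γ * w) • z0 = z0 := by rw [mul_smul, mul_smul, h, inv_smul_smul]
  obtain ⟨i, hi⟩ := exists_adj (n := 2 * g + 2) z0
  have h2 : w⁻¹ * γ * w ∈ WJ {i, i + 1} :=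
    Subgroup.closure_mono (Set.image_mono hi) (chamber_stab hz (h1.symm ▸ hz)).2
  have h3 : colW g (w⁻¹ * γ * w) = 1 := by
    rw [map_mul, map_mul, hγ, mul_one, ← map_mul, inv_mul_cancel, map_one]
  rcases mem_WJ_adj h2 with h4 | h4 | h4 | h4
  · rw [← conj_eq_one_iff (a := w⁻¹), inv_inv]; exact h4
  all_goals
    exfalso
    rw [h4] at h3
    simp only [map_mul, colW_sg, colZ_succ] at h3
    rcases colZ_cases i with h5 | h5 <;> rw [h5] at h3 <;> exact absurd h3 (by decide)

end Pool.Agent.Lib.MP_66609f_al.DN
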