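import Pool.Agent.Lib.MP_66609f_al.DN.Geo
import Pool.Agent.Lib.MP_66609f_al.FGMove
import Pool.Agent.Lib.MP_66609f_al.Sch.SMain

/-! Boundary points of the disc, rotations, values of words, darts. -/

namespace Pool.Agent.Lib.MP_66609f_al.DN

open Set unitInterval Real

theorem coe_bd (N : ℕ) (t : ℝ) :
    (bd N t : ℂ) = Complex.exp ((2 * π * t / N : ℝ) * Complex.I) := rfl

theorem norm_bd (N : ℕ) (t : ℝ) : ‖(bd N t : ℂ)‖ = 1 := Complex.norm_exp_ofReal_mul_I _

theorem continuous_bd (N : ℕ) : Continuous (bd N) :=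
  Continuous.subtype_mk (by fun_prop) _

theorem bd_eq_iff {N : ℕ} (hN : N ≠ 0) {s t : ℝ} :
    bd N s = bd N t ↔ ∃ k : ℤ, s = t + k * N := by
  have h1 : (N : ℝ) ≠ 0 := Nat.cast_ne_zero.2 hN
  rw [Subtype.ext_iff, coe_bd, coe_bd, Complex.exp_eq_exp_iff_exists_int]
  refine exists_congr fun k => ⟨fun h => ?_, fun h => ?_⟩
  · have h2 := congrArg Complex.im h
    simp only [Complex.mul_im, Complex.ofReal_re, Complex.I_im, mul_one, Complex.ofReal_im,
      Complex.I_re, mul_zero, add_zero, Complex.add_im, Complex.intCast_re, Complex.mul_re,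
      Complex.re_ofNat, Complex.im_ofNat, sub_zero, Complex.intCast_im, zero_mul] at h2
    field_simp at h2
    linarith
  · have h2 : (N : ℂ) ≠ 0 := Nat.cast_ne_zero.2 hN
    rw [h]
    push_cast
    field_simp

theorem bd_add_self {N : ℕ} (hN : N ≠ 0) (t : ℝ) : bd N (t + N) = bd N t :=
  (bd_eq_iff hN).2 ⟨1, by simp⟩

/-- Two parameters at distance less than `N` give different points. -/
theorem bd_inj {N : ℕ} (hN : N ≠ 0) {s t : ℝ} (h : bd N s = bd N t) (h1 : s < t + N)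
    (h2 : t < s + N) : s = t := by
  obtain ⟨k, hk⟩ := (bd_eq_iff hN).1 h
  have h0 : (0 : ℝ) < N := Nat.cast_pos.2 (Nat.pos_of_ne_zero hN)
  have h3 : (k : ℝ) < 1 := by nlinarith
  have h4 : (-1 : ℝ) < k := by nlinarith
  have h5 : k < 1 := by exact_mod_cast h3
  have h6 : -1 < k := by exact_mod_cast h4
  have h7 : k = 0 := by omega
  rw [hk, h7]
  simp

theorem exists_bd {N : ℕ} (hN : N ≠ 0) (a : ℝ) {z : Disc} (hz : ‖(z : ℂ)‖ = 1) :
    ∃ t, a ≤ t ∧ t < a + N ∧ z = bd N t := by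
  have h0 : (0 : ℝ) < N := Nat.cast_pos.2 (Nat.pos_of_ne_zero hN)
  have h1 : z = bd N (Complex.arg z * N / (2 * π)) := by
    apply Subtype.ext
    have e : 2 * π * (Complex.arg z * N / (2 * π)) / N = Complex.arg z := by
      have := pi_pos
      field_simp
    have h2 := Complex.norm_mul_exp_arg_mul_I (z : ℂ)
    rw [hz, Complex.ofReal_one, one_mul] at h2
    rw [coe_bd, e, h2]
  have h3 := toIcoMod_mem_Ico h0 a (Complex.arg z * N / (2 * π))
  refine ⟨_, h3.1, h3.2, h1.trans ((bd_eq_iff hN).2 ⟨toIcoDiv h0 a (Complex.arg z * N / (2 * π)), ?_⟩)⟩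
  rw [← zsmul_eq_mul, toIcoMod_add_toIcoDiv_zsmul]

theorem norm_le (z : Disc) : ‖(z : ℂ)‖ ≤ 1 := mem_closedBall_zero_iff.1 z.2

/-- The rotation by `s` sides. -/
noncomputable def rotD (N : ℕ) (s : ℝ) : C(Disc, Disc) :=
  ⟨fun z => ⟨bd N s * z, mem_closedBall_zero_iff.2 (by
    rw [norm_mul, norm_bd, one_mul]
    exact norm_le z)⟩, Continuous.subtype_mk (by fun_prop) _⟩

theorem norm_rotD (N : ℕ) (s : ℝ) (z : Disc) : ‖(rotD N s z : ℂ)‖ = ‖(z : ℂ)‖ := by
  change ‖(bd N s : ℂ) * z‖ = _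
  rw [norm_mul, norm_bd, one_mul]

theorem coe_bd_add (N : ℕ) (s t : ℝ) : (bd N (s + t) : ℂ) = bd N s * bd N t := by
  rw [coe_bd, coe_bd, coe_bd, ← Complex.exp_add]
  congr 1
  push_cast
  ring

theorem rotD_bd (N : ℕ) (s t : ℝ) : rotD N s (bd N t) = bd N (s + t) :=
  Subtype.ext (coe_bd_add N s t).symm

theorem rotD_neg (N : ℕ) (s : ℝ) (z : Disc) : rotD N s (rotD N (-s) z) = z := by
  apply Subtype.ext
  change (bd N s : ℂ) * (bd N (-s) * z) = z
  rw [← mul_assoc, ← coe_bd_add, add_neg_cancel, coe_bd]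
  simp

theorem rotD_bijective (N : ℕ) (s : ℝ) : Function.Bijective (rotD N s) :=
  Function.bijective_iff_has_inverse.2 ⟨rotD N (-s), fun z => by
    have := rotD_neg N (-s) z
    rwa [neg_neg] at this, rotD_neg N s⟩

/-- The complex conjugation. -/
noncomputable def cjD : C(Disc, Disc) :=
  ⟨fun z => ⟨(starRingEnd ℂ) z, mem_closedBall_zero_iff.2 (by
    rw [Complex.norm_conj]
    exact norm_le z)⟩, Continuous.subtype_mk (Complex.continuous_conj.comp continuous_subtype_val) _⟩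

theorem norm_cjD (z : Disc) : ‖(cjD z : ℂ)‖ = ‖(z : ℂ)‖ := Complex.norm_conj _

theorem cjD_cjD (z : Disc) : cjD (cjD z) = z := Subtype.ext (Complex.conj_conj _)

theorem cjD_bd (N : ℕ) (t : ℝ) : cjD (bd N t) = bd N (-t) := by
  apply Subtype.ext
  change (starRingEnd ℂ) (bd N t : ℂ) = _
  rw [coe_bd, coe_bd, ← Complex.exp_conj, map_mul, Complex.conj_ofReal, Complex.conj_I]
  congr 1
  push_cast
  ring

/-- The Schoenflies theorem for a curve given on `[0, N]`. -/
theorem schoenflies_bd {N : ℕ} (hN : N ≠ 0) {c : ℝ → ℂ} (hc : ContinuousOn c (Icc 0 N))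
    (h0 : c 0 = c N) (hi : InjOn c (Ico 0 N)) :
    ∃ Ψ : ℂ ≃ₜ ℂ, ∀ t ∈ Icc (0 : ℝ) N, Ψ (bd N t) = c t := by
  have hp : (0 : ℝ) < N := Nat.cast_pos.2 (Nat.pos_of_ne_zero hN)
  have : Fact ((0 : ℝ) < N) := ⟨hp⟩
  let e := AddCircle.homeomorphCircle (T := (N : ℝ)) hp.ne'
  have he : ∀ t : ℝ, (e (t : AddCircle (N : ℝ)) : ℂ) = bd N t := by
    intro t
    rw [AddCircle.homeomorphCircle_apply, AddCircle.toCircle_apply_mk, Circle.coe_exp, coe_bd]
    congr 3
    ring
  have h1 : Continuous (AddCircle.liftIco (N : ℝ) 0 c) :=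
    AddCircle.liftIco_zero_continuous h0 hc
  have h2 : Function.Injective (AddCircle.liftIco (N : ℝ) 0 c) := by
    intro x y hxy
    obtain ⟨s, hs, rfl⟩ := AddCircle.eq_coe_Ico x
    obtain ⟨t, ht, rfl⟩ := AddCircle.eq_coe_Ico y
    rw [AddCircle.liftIco_zero_coe_apply hs, AddCircle.liftIco_zero_coe_apply ht] at hxy
    rw [hi hs ht hxy]
  obtain ⟨Ψ, hΨ⟩ := Sch.schoenflies (h1.comp e.symm.continuous) (h2.comp e.symm.injective)
  refine ⟨Ψ, fun t ht => ?_⟩
  have key : ∀ s ∈ Ico (0 : ℝ) N, Ψ (bd N s) = c s := by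
    intro s hs
    rw [← he, hΨ, Function.comp_apply, e.symm_apply_apply, AddCircle.liftIco_zero_coe_apply hs]
  rcases ht.2.eq_or_lt with rfl | h
  · rw [← h0, ← key 0 ⟨le_rfl, hp⟩, ← bd_add_self hN 0, zero_add]
  · exact key t ⟨ht.1, h⟩

variable {X G Y : Type} [Group G]

theorem val_nil (f : X → G) : val f [] = 1 := map_one (FreeGroup.lift f)

theorem val_append (f : X → G) (l l' : List (X × Bool)) : val f (l ++ l') = val f l * val f l' := by
  rw [val, ← FreeGroup.mul_mk, map_mul]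
  rfl

theorem val_cons (f : X → G) (d : X × Bool) (l : List (X × Bool)) :
    val f (d :: l) = val f [d] * val f l := val_append f [d] l

theorem val_true (f : X → G) (y : X) : val f [(y, true)] = f y := FreeGroup.lift_apply_of

theorem val_invRev (f : X → G) (l : List (X × Bool)) :
    val f (FreeGroup.invRev l) = (val f l)⁻¹ := by
  rw [val, ← FreeGroup.inv_mk, map_inv]
  rfl

theorem val_dinv (f : X → G) (d : X × Bool) : val f [dinv d] = (val f [d])⁻¹ := by
  rw [val, mk_dinv, map_inv]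
  rfl

theorem val_false (f : X → G) (y : X) : val f [(y, false)] = (f y)⁻¹ :=
  (val_dinv f (y, true)).trans (by rw [val_true])

variable [TopologicalSpace Y] [MulAction G Y]

theorem dart_dinv (f : X → G) (e : X → C(I, Y)) (d : X × Bool) (t : I) :
    dart f e (dinv d) t = (val f [d])⁻¹ • dart f e d (σ t) := by
  rcases d with ⟨y, _ | _⟩
  · simp [dart, dinv, val_false]
  · simp [dart, dinv, val_true]

theorem continuous_dart [ContinuousConstSMul G Y] (f : X → G) (e : X → C(I, Y)) (d : X × Bool) :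
    Continuous (dart f e d) := by
  unfold dart
  split_ifs <;> fun_prop

namespace GeoData

variable {Q : List (X × Bool)} {f : X → G} (D : GeoData Y Q f)

theorem dart_zero (d : X × Bool) : dart f D.e d 0 = D.v := by
  rcases d with ⟨y, _ | _⟩
  · simp [dart, D.e_one]
  · simp [dart, D.e_zero]

theorem dart_one (d : X × Bool) : dart f D.e d 1 = val f [d] • D.v := by
  rcases d with ⟨y, _ | _⟩
  · simp [dart, D.e_zero, val_false]
  · simp [dart, D.e_one, val_true]

/-- Open darts are disjoint modulo the group, except for a dart and its inverse. -/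
theorem dart_eq {γ : G} {d d' : X × Bool} {s t : I} (h0 : s ≠ 0) (h1 : s ≠ 1)
    (h : γ • dart f D.e d s = dart f D.e d' t) :
    (d' = d ∧ t = s) ∨ (d' = dinv d ∧ t = σ s) := by
  have h2 : σ s ≠ 0 := fun h => h1 (symm_eq_zero.1 h)
  have h3 : σ s ≠ 1 := fun h => h0 (symm_eq_one.1 h)
  rcases d with ⟨y, _ | _⟩ <;> rcases d' with ⟨y', _ | _⟩ <;>
    simp only [dart, Bool.false_eq_true, if_false, if_true] at h
  · rw [eq_inv_smul_iff, smul_smul, smul_smul] at h
    obtain ⟨rfl, h5⟩ := D.edge _ _ _ _ _ h2 h3 h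
    exact Or.inl ⟨rfl, (symm_bijective.1 h5).symm⟩
  · rw [smul_smul] at h
    obtain ⟨rfl, h5⟩ := D.edge _ _ _ _ _ h2 h3 h
    exact Or.inr ⟨rfl, h5.symm⟩
  · rw [eq_inv_smul_iff, smul_smul] at h
    obtain ⟨rfl, h5⟩ := D.edge _ _ _ _ _ h0 h1 h
    exact Or.inr ⟨rfl, by rw [h5, symm_symm]⟩
  · obtain ⟨rfl, h5⟩ := D.edge _ _ _ _ _ h0 h1 h
    exact Or.inl ⟨rfl, h5.symm⟩

include D in
theorem val_eq_one [IsCancelSMul G Y] : val f Q = 1 := by
  rcases List.eq_nil_or_concat Q with h | ⟨l, d, h⟩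
  · rw [h, val_nil]
  rw [List.concat_eq_append] at h
  have hN : Q.length ≠ 0 := by rw [h]; simp
  have h1 := D.side l d [] h 1
  obtain ⟨d', r, h'⟩ := List.exists_cons_of_ne_nil (l := Q) (by rw [h]; simp)
  have h2 := D.side [] d' r h' 0
  have e : ((l.length : ℝ) + (1 : I)) = ([] : List (X × Bool)).length + (0 : I) + Q.length := by
    rw [h]
    simp
  rw [e, bd_add_self hN, h2, val_nil, one_smul, D.dart_zero, D.dart_one, smul_smul, ← val_append,
    ← h] at h1
  exact IsCancelSMul.eq_one_of_smul h1.symm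

end GeoData

end Pool.Agent.Lib.MP_66609f_al.DN
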