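import Pool.Agent.Lib.MP_66609f_al.FG2

/-! Nielsen's lifting theorem: a lift that sends the relator to a conjugate of the relator, of its
inverse, or to one. -/

namespace Pool.Agent.Lib.MP_66609f_al.DN

/-- The value of `Q` under `f` is conjugate to `R` or `R⁻¹`, or trivial. -/
def ExQ {X : Type} (R Q : List (X × Bool)) (f : X → FreeGroup X) : Prop :=
  IsConj (FreeGroup.mk R) (FreeGroup.lift f (FreeGroup.mk Q)) ∨
    IsConj (FreeGroup.mk R)⁻¹ (FreeGroup.lift f (FreeGroup.mk Q)) ∨
      FreeGroup.lift f (FreeGroup.mk Q) = 1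

theorem cexact_end {X ι V : Type} [DecidableEq ι] [DecidableEq V] [Fintype X] [DecidableEq X]
    {S : FSt X ι V} {R : List (X × Bool)} {f0 : X → FreeGroup X}
    (hR : GoodQ R) (h4 : 4 ≤ Fintype.card X) (h : S.Valid R f0) (hD : S.D = []) :
    ∃ f : X → FreeGroup X, (ExQ R R f ∨ (Fintype.card X = 4 ∧ TwoQ R f)) ∧
      ∀ x, (f0 x)⁻¹ * f x ∈ Subgroup.normalClosure {FreeGroup.mk R} := by
  classical
  have hlen : ∀ r ∈ S.faces, r.2.length = R.length := by
    intro r hr
    have h1 := (h.face_lab r hr).perm.length_eq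
    rw [List.length_map, (FSt.fgCancel_good hR r.1).length_eq] at h1
    rw [h1, hR.length_eq]
  have hE : 2 * S.E.card = S.faces.length * R.length := by
    have h1 : S.darts.toFinset = S.E ×ˢ (Finset.univ : Finset Bool) := by
      ext e
      rw [List.mem_toFinset, h.mem, Finset.mem_product]
      simp
    have h2 := List.toFinset_card_of_nodup h.nodup
    rw [h1, Finset.card_product, Finset.card_univ, Fintype.card_bool, FSt.darts, hD,
      List.nil_append, List.length_flatten, List.map_map] at h2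
    have h3 : S.faces.map (List.length ∘ Prod.snd) = S.faces.map fun _ => R.length :=
      List.map_congr_left hlen
    rw [h3, List.map_const', List.sum_replicate, smul_eq_mul] at h2
    omega
  obtain ⟨x0⟩ : Nonempty X := Fintype.card_pos_iff.1 (by omega)
  have hV : S.verts.card ≤ S.faces.length := by
    let g : Bool × List (ι × Bool) → Option V := fun r =>
      if hr : ∃ e ∈ r.2, S.dl e = (x0, true) then some (S.src hr.choose) else none
    have h1 : S.verts.image some ⊆ (S.faces.map g).toFinset := by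
      intro o ho
      obtain ⟨v, hv, rfl⟩ := Finset.mem_image.1 ho
      obtain ⟨r, hr, e, he, h3, h4⟩ := FSt.fgCancel_label hR h hD hv (x0, true)
      refine List.mem_toFinset.2 (List.mem_map.2 ⟨r, hr, ?_⟩)
      have hex : ∃ e ∈ r.2, S.dl e = (x0, true) := ⟨e, he, h4⟩
      have hnd : (r.2.map S.dl).Nodup :=
        (h.face_lab r hr).perm.nodup_iff.2 (FSt.fgCancel_good hR r.1).1
      have h6 : hex.choose = e := List.inj_on_of_nodup_map hnd hex.choose_spec.1 he
        (hex.choose_spec.2.trans h4.symm)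
      simp only [g, dif_pos hex, h6, h3]
    have h2 := (Finset.card_le_card h1).trans (List.toFinset_card_le _)
    rwa [Finset.card_image_of_injective _ (Option.some_injective V), List.length_map] at h2
  have hm : S.faces.length ≤ 2 := by
    have h1 := h.count'
    rw [hR.length_eq] at hE
    by_contra hc
    have h2 : 3 ≤ S.faces.length := by omega
    nlinarith
  have hm' : Fintype.card X ≠ 4 → S.faces.length ≤ 1 := by
    intro h5
    have h1 := h.count'
    rw [hR.length_eq] at hE
    by_contra hc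
    have h2 : 2 ≤ S.faces.length := by omega
    have h3 : 5 ≤ Fintype.card X := by omega
    nlinarith
  obtain ⟨fh, h1, h2⟩ := h.alg
  refine ⟨fun x => S.labH (fh x), ?_, h1⟩
  have e : FreeGroup.lift (fun x => S.labH (fh x)) = S.labH.comp (FreeGroup.lift fh) := by
    ext x
    simp
  rw [hD] at h2
  obtain ⟨l', hl, hx⟩ := (ConjProd.drop_one h2).map S.labH
  unfold ExQ TwoQ
  rw [e, MonoidHom.comp_apply, ← hx]
  have hl2 := hl.length_eq
  rw [List.length_map, List.length_map, List.length_map] at hl2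
  have hface : ∀ p ∈ l', IsConj (FreeGroup.mk R) (p.1 * p.2 * p.1⁻¹) ∨
      IsConj (FreeGroup.mk R)⁻¹ (p.1 * p.2 * p.1⁻¹) := by
    intro p hp
    have h3 := hl.subset (List.mem_map_of_mem (f := Prod.snd) hp)
    obtain ⟨y, hy, h4⟩ := List.mem_map.1 h3
    obtain ⟨r, hr, rfl⟩ := List.mem_map.1 hy
    have h5 := (isConj_mk_of_isRotated (h.face_lab r hr)).symm
    rw [← S.labH_mk, h4] at h5
    have h6 : IsConj p.2 (p.1 * p.2 * p.1⁻¹) := isConj_iff.2 ⟨p.1, rfl⟩
    cases hr1 : r.1
    · right
      rw [hr1] at h5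
      rw [FreeGroup.inv_mk]
      exact h5.trans h6
    · left
      rw [hr1] at h5
      exact h5.trans h6
  match l', hl2, hface with
  | [], _, _ => exact Or.inl (Or.inr (Or.inr rfl))
  | [p], _, hface =>
    rw [List.map_singleton, List.prod_singleton]
    exact Or.inl ((hface p (by simp)).imp_right Or.inl)
  | [p, q], hl2, hface =>
    refine Or.inr ⟨?_, _, _, hface p (by simp), hface q (by simp), by simp⟩
    by_contra h5
    have := hm' h5
    simp only [List.length_cons] at hl2
    omega
  | _ :: _ :: _ :: _, hl2, _ =>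
    simp only [List.length_cons] at hl2
    omega

theorem cexact_ind {X ι V : Type} [DecidableEq ι] [DecidableEq V] [Fintype X] [DecidableEq X]
    {R : List (X × Bool)} {f0 : X → FreeGroup X} (hR : GoodQ R) (h4 : 4 ≤ Fintype.card X) (n : ℕ) :
    ∀ S : FSt X ι V, S.meas R.length < n → S.Valid R f0 → ∃ f : X → FreeGroup X,
      (ExQ R R f ∨ (Fintype.card X = 4 ∧ TwoQ R f)) ∧
      ∀ x, (f0 x)⁻¹ * f x ∈ Subgroup.normalClosure {FreeGroup.mk R} := by
  induction n with
  | zero => exact fun S hS => absurd hS (Nat.not_lt_zero _)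
  | succ n ih =>
    intro S hS h
    by_cases hD : S.D = []
    · exact cexact_end hR h4 h hD
    · obtain ⟨S', h1, h2⟩ := fgMain_step hR h hD
      exact ih S' (by omega) h1

theorem cexact_lift {X : Type} [Fintype X] [DecidableEq X] {R : List (X × Bool)}
    (hR : GoodQ R) (h4 : 4 ≤ Fintype.card X) (f0 : X → FreeGroup X) (hne : ∀ x, f0 x ≠ 1)
    (h : FreeGroup.lift f0 (FreeGroup.mk R) ∈ Subgroup.normalClosure {FreeGroup.mk R}) :
    ∃ f : X → FreeGroup X, (ExQ R R f ∨ (Fintype.card X = 4 ∧ TwoQ R f)) ∧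
      ∀ x, (f0 x)⁻¹ * f x ∈ Subgroup.normalClosure {FreeGroup.mk R} := by
  obtain ⟨ι, V, S, hS⟩ := exists_init hR f0 hne h
  classical
  exact cexact_ind hR h4 _ S (Nat.lt_succ_self _) hS

theorem exists_exact_lift (g : ℕ) (hg : 2 ≤ g) (φ : MulAut (SurfaceGroup g)) :
    ∃ f : Fin g × Bool → FreeGroup (Fin g × Bool), ExQ (surfWord g) (surfWord g) f ∧
      ∀ y, FreeGroup.lift (PresentedGroup.of : Fin g × Bool → SurfaceGroup g) (f y) =
        φ (PresentedGroup.of y) := by
  have : Nonempty (Fin g × Bool) := ⟨(⟨0, by omega⟩, false)⟩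
  have hR := goodQ_surfWord g
  have hx := fgMain_marking g
  have hcomp : ∀ (φ : MulAut (SurfaceGroup g)) (f0 : Fin g × Bool → FreeGroup (Fin g × Bool)),
      (∀ y, FreeGroup.lift (PresentedGroup.of : Fin g × Bool → SurfaceGroup g) (f0 y) =
        φ (PresentedGroup.of y)) → ∀ w,
      FreeGroup.lift (PresentedGroup.of : Fin g × Bool → SurfaceGroup g)
        (FreeGroup.lift f0 w) = φ (FreeGroup.lift PresentedGroup.of w) := by
    intro φ f0 hf0 w
    have h : (FreeGroup.lift (PresentedGroup.of : Fin g × Bool → SurfaceGroup g)).comp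
        (FreeGroup.lift f0) = φ.toMonoidHom.comp (FreeGroup.lift PresentedGroup.of) := by
      ext y
      simp [hf0]
    exact DFunLike.congr_fun h w
  have hmem : ∀ (φ : MulAut (SurfaceGroup g)) (f0 : Fin g × Bool → FreeGroup (Fin g × Bool)),
      (∀ y, FreeGroup.lift (PresentedGroup.of : Fin g × Bool → SurfaceGroup g) (f0 y) =
        φ (PresentedGroup.of y)) → FreeGroup.lift f0 (FreeGroup.mk (surfWord g)) ∈
      Subgroup.normalClosure {FreeGroup.mk (surfWord g)} := by
    intro φ f0 hf0
    have h1 : FreeGroup.mk (surfWord g) ∈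
        (FreeGroup.lift (PresentedGroup.of : Fin g × Bool → SurfaceGroup g)).ker := by
      rw [hx.2]
      exact Subgroup.subset_normalClosure rfl
    rw [← hx.2, MonoidHom.mem_ker, hcomp φ f0 hf0, MonoidHom.mem_ker.1 h1, map_one]
  choose f0 hf0 using fun y => hx.1 (φ (PresentedGroup.of y))
  choose g0 hg0 using fun y => hx.1 (φ⁻¹ (PresentedGroup.of y))
  have hne : ∀ y, f0 y ≠ 1 := by
    intro y hy
    have h1 := hf0 y
    rw [hy, map_one] at h1
    exact (hx.comp φ).ne_one hR y h1.symm
  have hc : Fintype.card (Fin g × Bool) = g * 2 := by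
    rw [Fintype.card_prod, Fintype.card_fin, Fintype.card_bool]
  obtain ⟨f, h1, h2⟩ := cexact_lift hR (by omega) f0 hne (hmem φ f0 hf0)
  have hf : ∀ y, FreeGroup.lift (PresentedGroup.of : Fin g × Bool → SurfaceGroup g) (f y) =
      φ (PresentedGroup.of y) := by
    intro y
    have h3 := h2 y
    rw [← hx.2, MonoidHom.mem_ker, map_mul, map_inv, hf0, inv_mul_eq_one] at h3
    exact h3.symm
  refine ⟨f, h1.resolve_right ?_, hf⟩
  rintro ⟨h4, h5⟩
  obtain rfl : g = 2 := by omega
  refine fg2_not_two f g0 ?_ (fun y => ?_) h5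
  · have h3 := hmem φ⁻¹ g0 hg0
    rwa [mk_surfWord] at h3
  · rw [← mk_surfWord, ← hx.2, MonoidHom.mem_ker, map_mul, map_inv, hcomp φ f hf, hg0]
    simp

end Pool.Agent.Lib.MP_66609f_al.DN
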