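import Pool.Agent.Lib.MP_66609f_al.DN.CBd

/-! Rotation, inversion, relabelling, conjugation and transport of geometric markings. -/

namespace Pool.Agent.Lib.MP_66609f_al.DN

open Set unitInterval

/-- Relabelling of darts. -/
def relab {X X' : Type} (l : X → X' × Bool) (d : X × Bool) : X' × Bool :=
  if d.2 then l d.1 else dinv (l d.1)

variable {X X' G G' Y : Type} [Group G] [Group G'] [TopologicalSpace Y] [MulAction G Y]
  {Q Q' : List (X × Bool)} {f : X → G}

theorem crot_step [ContinuousConstSMul G Y] [IsCancelSMul G Y] {d : X × Bool} {r : List (X × Bool)}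
    (h : GeoMark Y (d :: r) f) : GeoMark Y (r ++ [d]) f := by
  obtain ⟨D⟩ := h
  have h1 := D.val_eq_one
  have hN : (r ++ [d]).length = (d :: r).length := by simp
  refine ⟨{ D with
    φ := ⟨fun z => (val f [d])⁻¹ • D.φ (rotD (d :: r).length 1 z), by fun_prop⟩
    side := fun l d' r' e t => ?_
    cover := fun x => ?_
    inner := fun γ z z' hz e => ?_ }⟩
  · rw [hN, ContinuousMap.coe_mk, rotD_bd, inv_smul_eq_iff, smul_smul, ← val_cons]
    rcases List.eq_nil_or_concat r' with rfl | ⟨r'', x, rfl⟩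
    · obtain ⟨rfl, h2⟩ := List.append_inj' e rfl
      obtain rfl := (List.cons.inj h2).1
      rw [h1, ← val_nil f, ← D.side [] d r rfl t, ← bd_add_self (by simp) (_ + (t : ℝ))]
      congr 2
      simp only [List.length_cons, List.length_nil]
      push_cast
      ring
    · rw [List.concat_eq_append, ← List.cons_append, ← List.append_assoc] at e
      rw [← D.side (d :: l) d' r'' (by rw [(List.append_inj' e rfl).1]; rfl) t]
      congr 2
      simp only [List.length_cons]
      push_cast
      ring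
  · obtain ⟨γ, z, e⟩ := D.cover x
    obtain ⟨z, rfl⟩ := (rotD_bijective (d :: r).length 1).2 z
    exact ⟨γ * val f [d], z, by rw [ContinuousMap.coe_mk, mul_smul, smul_inv_smul, e]⟩
  · rw [ContinuousMap.coe_mk, eq_inv_smul_iff, smul_smul, smul_smul] at e
    exact (rotD_bijective _ 1).1 (D.inner _ _ _ (by rwa [norm_rotD]) e)

/- One step: `Q = d :: r`, `φ' = (val f [d])⁻¹ • φ ∘ rotD N 1`; uses `val_eq_one`. -/
theorem GeoMark.rotate [ContinuousConstSMul G Y] [IsCancelSMul G Y] (h : GeoMark Y Q f)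
    (hr : Q.IsRotated Q') : GeoMark Y Q' f := by
  obtain ⟨n, rfl⟩ := hr
  induction n generalizing Q with
  | zero => rwa [List.rotate_zero]
  | succ n ih =>
    rcases Q with _ | ⟨d, r⟩
    · rwa [List.rotate_nil]
    · rw [List.rotate_cons_succ]
      exact ih (crot_step h)

/- `φ' = φ ∘ cjD`; uses `val_eq_one`, `dart_dinv`, `bd_add_self`. -/
theorem GeoMark.invRev [IsCancelSMul G Y] (h : GeoMark Y Q f) :
    GeoMark Y (FreeGroup.invRev Q) f := by
  obtain ⟨D⟩ := h
  have h1 := D.val_eq_one
  refine ⟨{ D with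
    φ := D.φ.comp cjD
    side := fun l d r e t => ?_
    cover := fun x => ?_
    inner := fun γ z z' hz e => ?_ }⟩
  · have h2 : Q = FreeGroup.invRev r ++ dinv d :: FreeGroup.invRev l := by
      rw [← FreeGroup.invRev_invRev (L₁ := Q), e, FreeGroup.invRev_append, FreeGroup.invRev_cons,
        List.append_assoc]
      rfl
    have h3 := D.side _ _ _ h2 (σ t)
    have h4 : Q.length = r.length + (l.length + 1) := by rw [h2]; simp
    rw [h2, val_append, val_cons, val_invRev, val_invRev, val_dinv, ← mul_assoc,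
      mul_inv_eq_one] at h1
    rw [dart_dinv, symm_symm, val_invRev, smul_smul, h1] at h3
    rw [← h3, FreeGroup.invRev_length, ContinuousMap.comp_apply, cjD_bd,
      ← bd_add_self (by omega) (-_)]
    congr 2
    rw [FreeGroup.invRev_length, coe_symm_eq, h4]
    push_cast
    ring
  · obtain ⟨γ, z, e⟩ := D.cover x
    exact ⟨γ, cjD z, by rw [ContinuousMap.comp_apply, cjD_cjD, e]⟩
  · rw [← cjD_cjD z, D.inner γ (cjD z) (cjD z') (by rwa [norm_cjD]) e, cjD_cjD]

theorem crot_dinv (l : X → X' × Bool) (d : X × Bool) : relab l (dinv d) = dinv (relab l d) := by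
  rcases d with ⟨y, _ | _⟩ <;> simp [relab, dinv]

theorem crot_val_one (l : X → X' × Bool) (x : X' → G) (d : X × Bool) :
    val x [relab l d] = val (fun y => val x [l y]) [d] := by
  rcases d with ⟨y, _ | _⟩
  · rw [val_false, ← val_dinv]
    rfl
  · rw [val_true]
    rfl

theorem crot_val (l : X → X' × Bool) (x : X' → G) (L : List (X × Bool)) :
    val x (L.map (relab l)) = val (fun y => val x [l y]) L := by
  induction L with
  | nil => rw [List.map_nil, val_nil, val_nil]
  | cons d L ih => rw [List.map_cons, val_cons, val_cons _ d, ih, crot_val_one]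

theorem crot_sec (l : X → X' × Bool) (hl : Function.Bijective fun y => (l y).1) :
    ∃ δ : X' → X × Bool, (∀ y, relab l (δ y) = (y, true)) ∧
      ∀ d, ∃ y, d = δ y ∨ d = dinv (δ y) := by
  obtain ⟨g, h1, h2⟩ := Function.bijective_iff_has_inverse.1 hl
  refine ⟨fun y => (g y, (l (g y)).2), fun y => ?_, fun d => ⟨(l d.1).1, ?_⟩⟩
  · have h3 : (l (g y)).1 = y := h2 y
    rcases h4 : (l (g y)).2 with _ | _ <;> simp [relab, dinv, Prod.ext_iff, h3, h4]
  · have h3 : g (l d.1).1 = d.1 := h1 d.1
    rcases d with ⟨y, b⟩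
    simp only [dinv, h3]
    rcases (l y).2 with _ | _ <;> rcases b with _ | _ <;> simp

/- `e' y'` is the dart `d` with `relab l d = (y', true)`; `edge` from `dart_eq`. -/
theorem GeoMark.relab [ContinuousConstSMul G Y] (l : X → X' × Bool)
    (hl : Function.Bijective fun y => (l y).1) (x : X' → G)
    (h : GeoMark Y Q fun y => val x [l y]) : GeoMark Y (Q.map (relab l)) x := by
  obtain ⟨D⟩ := h
  obtain ⟨δ, h1, h2⟩ := crot_sec l hl
  have h3 : ∀ y, val (fun y => val x [l y]) [δ y] = x y := fun y => by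
    rw [← crot_val_one, h1, val_true]
  refine ⟨{ D with
    e := fun y => ⟨dart (fun y => val x [l y]) D.e (δ y), continuous_dart _ _ _⟩
    e_zero := fun y => D.dart_zero _
    e_one := fun y => (D.dart_one (δ y)).trans (by rw [h3])
    side := fun L d R e t => ?_
    edge := fun γ y y' s t h0 h0' e => ?_ }⟩
  · obtain ⟨L, R', e1, rfl, e2⟩ := List.map_eq_append_iff.1 e
    obtain ⟨d, R, rfl, rfl, -⟩ := List.map_eq_cons_iff.1 e2
    rw [List.length_map, List.length_map, D.side L d R e1 t, crot_val]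
    congr 1
    obtain ⟨y, rfl | rfl⟩ := h2 d
    · rw [h1]
      rfl
    · rw [crot_dinv, h1, dart_dinv, h3]
      rfl
  · rcases D.dart_eq h0 h0' e with ⟨e1, e2⟩ | ⟨e1, -⟩
    · have e3 := congrArg (DN.relab l) e1
      rw [h1, h1] at e3
      exact ⟨(congrArg Prod.fst e3).symm, e2.symm⟩
    · have e3 := congrArg (DN.relab l) e1
      rw [crot_dinv, h1, h1] at e3
      exact absurd (congrArg Prod.snd e3) (by simp [dinv])

theorem crot_val_map (ι : G' →* G) (f' : X → G') (L : List (X × Bool)) :
    val (fun y => ι (f' y)) L = ι (val f' L) := by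
  induction L with
  | nil => rw [val_nil, val_nil, map_one]
  | cons d L ih =>
    rw [val_cons, val_cons f', ih, map_mul]
    rcases d with ⟨y, _ | _⟩
    · rw [val_false, val_false, map_inv]
    · rw [val_true, val_true]

theorem GeoMark.conj [ContinuousConstSMul G Y] (h : GeoMark Y Q f) (c : G) :
    GeoMark Y Q fun y => c * f y * c⁻¹ := by
  obtain ⟨D⟩ := h
  refine ⟨{
    v := c • D.v
    e := fun y => ⟨fun t => c • D.e y t, by fun_prop⟩
    φ := ⟨fun z => c • D.φ z, by fun_prop⟩
    e_zero := fun y => congrArg (c • ·) (D.e_zero y)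
    e_one := fun y => by simp [D.e_one, smul_smul]
    side := fun l d r e t => ?_
    cover := fun x => ?_
    inner := fun γ z z' hz e => ?_
    edge := fun γ y y' s t h0 h1 e => ?_ }⟩
  · have h1 : val (fun y => c * f y * c⁻¹) l = c * val f l * c⁻¹ :=
      crot_val_map (MulAut.conj c).toMonoidHom f l
    rw [ContinuousMap.coe_mk, D.side l d r e t, h1]
    rcases d with ⟨y, _ | _⟩ <;> simp [dart, smul_smul, mul_assoc]
  · obtain ⟨γ, z, e⟩ := D.cover x
    exact ⟨γ * c⁻¹, z, by rw [ContinuousMap.coe_mk, mul_smul, inv_smul_smul, e]⟩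
  · rw [ContinuousMap.coe_mk, ← inv_smul_eq_iff, smul_smul, smul_smul] at e
    exact D.inner _ _ _ hz e
  · simp only [ContinuousMap.coe_mk] at e
    rw [← inv_smul_eq_iff, smul_smul, smul_smul] at e
    exact D.edge _ _ _ _ _ h0 h1 e

theorem GeoMark.transport [MulAction G' Y] (ι : G' ≃* G) (hι : ∀ (c : G') (x : Y), c • x = ι c • x)
    {f' : X → G'} (h : GeoMark Y Q fun y => ι (f' y)) : GeoMark Y Q f' := by
  obtain ⟨D⟩ := h
  refine ⟨{ D with
    e_one := fun y => by rw [hι, D.e_one]
    side := fun l d r e t => ?_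
    cover := fun x => ?_
    inner := fun γ z z' hz e => D.inner (ι γ) z z' hz (by rwa [← hι])
    edge := fun γ y y' s t h0 h1 e => D.edge (ι γ) y y' s t h0 h1 (by rwa [← hι]) }⟩
  · have h1 : val (fun y => ι (f' y)) l = ι (val f' l) := crot_val_map ι.toMonoidHom f' l
    rw [D.side l d r e t, h1, hι]
    rcases d with ⟨y, _ | _⟩ <;> simp [dart, hι]
  · obtain ⟨γ, z, e⟩ := D.cover x
    exact ⟨ι.symm γ, z, by rw [hι, ι.apply_symm_apply, e]⟩

end Pool.Agent.Lib.MP_66609f_al.DN
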