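import Pool.Agent.Lib.MP_66609f_al.DN.CExact
import Pool.Agent.Lib.MP_66609f_al.DN.CRot

/-! Every marking is reached from the standard one by moves. -/

namespace Pool.Agent.Lib.MP_66609f_al.DN

variable {X G H : Type} [DecidableEq X] [Group G] [Group H]

/-- A class of markings closed under the moves. -/
structure Closed (P : List (X × Bool) → (X → G) → Prop) : Prop where
  rot : ∀ Q Q' f, P Q f → Q.IsRotated Q' → P Q' f
  inv : ∀ Q f, P Q f → P (FreeGroup.invRev Q) f
  move : ∀ a b r1 r2 f, GoodQ (a :: b :: (r1 ++ dinv b :: r2)) →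
    P (a :: b :: (r1 ++ dinv b :: r2)) f → P (b :: (r1 ++ dinv b :: a :: r2)) (fMove a b f)
  relab : ∀ Q (l : X → X × Bool) x, (Function.Bijective fun y => (l y).1) →
    P Q (fun y => val x [l y]) → P (Q.map (relab l)) x
  conj : ∀ Q f c, P Q f → P Q fun y => c * f y * c⁻¹

omit [DecidableEq X] in
theorem creach_cyc_iff {L : List (X × Bool)} : FreeGroup.IsCyclicallyReduced L ↔
    ∀ a b, CAdj L a b → a.1 = b.1 → a.2 = b.2 := by
  constructor
  · rintro ⟨h1, h2⟩ a b (⟨l1, l2, e⟩ | ⟨h3, h4⟩)
    · exact List.isChain_iff_forall_rel_of_append_cons_cons.1 h1 e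
    · exact h2 a h3 b h4
  · exact fun h => ⟨List.isChain_iff_forall_rel_of_append_cons_cons.2
      fun a b l1 l2 e => h a b (Or.inl ⟨l1, l2, e⟩), fun a ha b hb => h a b (Or.inr ⟨ha, hb⟩)⟩

omit [DecidableEq X] in
theorem creach_cyc_rot {L L' : List (X × Bool)} (h : FreeGroup.IsCyclicallyReduced L)
    (hr : L.IsRotated L') : FreeGroup.IsCyclicallyReduced L' :=
  creach_cyc_iff.2 fun a b hab => creach_cyc_iff.1 h a b (cadj_of_isRotated hr.symm hab)

theorem creach_eq {L L' : List (X × Bool)} (h : FreeGroup.IsReduced L)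
    (h' : FreeGroup.IsReduced L') (e : FreeGroup.mk L = FreeGroup.mk L') : L = L' := by
  rw [← h.reduce_eq, ← h'.reduce_eq]
  exact FreeGroup.reduce.sound e

omit [DecidableEq X] in
theorem creach_ne {a b : X × Bool} (h : b ≠ dinv a) (e : a.1 = b.1) : a.2 = b.2 := by
  rcases FGMerge_fst e.symm with rfl | h1
  · rfl
  · exact absurd h1 h

/-- Conjugate cyclically reduced words are rotations of each other. -/
theorem isRotated_of_isConj {L L' : List (X × Bool)} (h : FreeGroup.IsCyclicallyReduced L)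
    (h' : FreeGroup.IsCyclicallyReduced L') (hc : IsConj (FreeGroup.mk L) (FreeGroup.mk L')) :
    L.IsRotated L' := by
  obtain ⟨u, hu⟩ := isConj_iff.1 hc
  have hU := FreeGroup.isReduced_toWord (x := u)
  rw [← FreeGroup.mk_toWord (x := u)] at hu
  generalize u.toWord = U at hu hU
  clear hc
  induction U using List.reverseRecOn generalizing L with
  | nil =>
    rw [creach_eq h.1 h'.1 (by rw [← hu, ← FreeGroup.one_eq_mk]; group)]
  | append_singleton U c ih =>
    have hU0 := (List.isChain_append.1 hU).1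
    have e0 : FreeGroup.mk (U ++ [c]) = FreeGroup.mk U * FreeGroup.mk [c] := rfl
    by_cases h1 : L.head? = some (dinv c)
    · obtain ⟨T, rfl⟩ := List.head?_eq_some_iff.1 h1
      have hr : (dinv c :: T).IsRotated (T ++ [dinv c]) := List.isRotated_append (l := [dinv c])
      refine hr.trans (ih (creach_cyc_rot h hr) ?_ hU0)
      rw [← hu, e0, fgMove_cons (dinv c) T, ← FreeGroup.mul_mk, mk_dinv]
      group
    by_cases h2 : L.getLast? = some c
    · obtain ⟨T, rfl⟩ := List.getLast?_eq_some_iff.1 h2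
      have hr : (T ++ [c]).IsRotated (c :: T) := List.isRotated_append
      refine hr.trans (ih (creach_cyc_rot h hr) ?_ hU0)
      rw [← hu, e0, fgMove_cons c T, ← FreeGroup.mul_mk]
      group
    by_cases h3 : L = []
    · rw [h3, creach_eq h'.1 (L' := []) List.isChain_nil
        (by rw [← hu, h3, ← FreeGroup.one_eq_mk]; group)]
    have h4 : FreeGroup.IsReduced (U ++ [c] ++ L ++ FreeGroup.invRev (U ++ [c])) := by
      refine FreeGroup.IsReduced.append_overlap ?_ ?_ h3
      · refine List.isChain_append.2 ⟨hU, h.1, fun a ha b hb => creach_ne ?_⟩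
        rw [List.getLast?_concat] at ha
        obtain rfl : c = a := Option.some.inj ha
        rintro rfl
        exact h1 hb
      · refine List.isChain_append.2 ⟨h.1, fgTerm_red_invRev hU, fun a ha b hb => creach_ne ?_⟩
        rw [fgTerm_invRev_concat] at hb
        obtain rfl : dinv c = b := Option.some.inj hb
        intro e
        rw [fgQuad_dinv_inj e] at h2
        exact h2 ha
    have h5 := creach_eq h4 h'.1 (by
      rw [← hu, FreeGroup.inv_mk, FreeGroup.mul_mk, FreeGroup.mul_mk])
    obtain ⟨a, V, hV⟩ := List.exists_cons_of_ne_nil (l := U ++ [c]) (by simp)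
    have h6 := h'.2 (dinv a) (by
      rw [← h5, hV, fgQuad_invRev, List.map_cons, List.reverse_cons, ← List.append_assoc,
        List.getLast?_concat]
      rfl) a (by rw [← h5, hV]; rfl) rfl
    simp [dinv] at h6

omit [DecidableEq X] in
theorem creach_relab_dinv {X' : Type} (l : X → X' × Bool) (d : X × Bool) :
    relab l (dinv d) = dinv (relab l d) := by
  rcases d with ⟨y, _ | _⟩ <;> simp [relab, dinv]

omit [DecidableEq X] in
theorem creach_relab_fst {X' : Type} (l : X → X' × Bool) (d : X × Bool) :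
    (relab l d).1 = (l d.1).1 := by
  rcases d with ⟨y, _ | _⟩ <;> simp [relab, dinv]

omit [DecidableEq X] in
theorem creach_mk_relab {X' : Type} (l : X → X' × Bool) (Q : List (X × Bool)) :
    FreeGroup.mk (Q.map (relab l)) =
      FreeGroup.lift (fun y => FreeGroup.mk [l y]) (FreeGroup.mk Q) := by
  induction Q with
  | nil => rw [List.map_nil, ← FreeGroup.one_eq_mk, ← FreeGroup.one_eq_mk, map_one]
  | cons d Q ih =>
    rw [List.map_cons, fgMove_cons, fgMove_cons d, map_mul, ih]
    congr 1
    rcases d with ⟨y, _ | _⟩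
    · rw [fgMove_false, map_inv, FreeGroup.lift_apply_of, ← mk_dinv]
      rfl
    · rw [fgMove_true, FreeGroup.lift_apply_of]
      rfl

/-- The exponent sum of a letter in a good word vanishes. -/
theorem creach_expo {R : List (X × Bool)} [Fintype X] (hR : GoodQ R) {A : Type} [CommGroup A]
    (χ : X → A) : FreeGroup.lift χ (FreeGroup.mk R) = 1 := by
  have h1 : R.toFinset = Finset.univ := Finset.eq_univ_of_forall fun d =>
    List.mem_toFinset.2 (hR.2.1 d)
  rw [FreeGroup.lift_mk, ← List.prod_toFinset _ hR.1, h1, Fintype.prod_prod_type]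
  simp

omit [DecidableEq X] in
theorem ExQ.short [Fintype X] [DecidableEq X] {R Q : List (X × Bool)} {f : X → FreeGroup X}
    (hR : GoodQ R) (hQ : GoodQ Q) (h : ExQ R Q f) : ShortQ Q f := by
  have hl : (FreeGroup.mk R).norm ≤ Q.length := by
    rw [hQ.length_eq, ← hR.length_eq]
    exact FreeGroup.norm_mk_le
  rcases h with h | h | h
  · obtain ⟨u, hu⟩ := isConj_iff.1 h
    exact ⟨u, _, hu.symm, hl⟩
  · obtain ⟨u, hu⟩ := isConj_iff.1 h
    exact ⟨u, _, hu.symm, by rwa [FreeGroup.norm_inv_eq]⟩
  · exact ⟨1, 1, by simpa using h, by simp⟩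

omit [DecidableEq X] in
theorem ExQ.of_conj {R Q Q' : List (X × Bool)} {f f' : X → FreeGroup X} (h : ExQ R Q f)
    (hc : IsConj (FreeGroup.lift f (FreeGroup.mk Q)) (FreeGroup.lift f' (FreeGroup.mk Q'))) :
    ExQ R Q' f' := by
  rcases h with h | h | h
  · exact Or.inl (h.trans hc)
  · exact Or.inr (Or.inl (h.trans hc))
  · rw [h] at hc
    exact Or.inr (Or.inr (isConj_one_right.1 hc))

omit [DecidableEq X] in
theorem ExQ.invRev {R Q : List (X × Bool)} {f : X → FreeGroup X} (h : ExQ R Q f) :
    ExQ R (FreeGroup.invRev Q) f := by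
  have key : ∀ {a b : FreeGroup X}, IsConj a b → IsConj a⁻¹ b⁻¹ := fun h => by
    obtain ⟨u, rfl⟩ := isConj_iff.1 h
    exact isConj_iff.2 ⟨u, by group⟩
  unfold ExQ
  rw [← FreeGroup.inv_mk, map_inv]
  rcases h with h | h | h
  · exact Or.inr (Or.inl (key h))
  · exact Or.inl (by simpa using key h)
  · exact Or.inr (Or.inr (by rw [h, inv_one]))

theorem creach_move1 [Fintype X] [Nonempty X] {P : List (X × Bool) → (X → G) → Prop}
    (hP : Closed P) {R Q : List (X × Bool)} (hQ : GoodQ Q) {a b : X × Bool} (hab : CAdj Q a b) :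
    ∃ Q', GoodQ Q' ∧ (∀ f : X → H, IsMarking Q f → IsMarking Q' (fMove a b f)) ∧
      (∀ f, ExQ R Q f → ExQ R Q' (fMove a b f)) ∧ ∀ f, P Q f → P Q' (fMove a b f) := by
  have h2 : 2 ≤ Q.length := by
    have := hQ.length_eq
    have := Fintype.card_pos (α := X)
    omega
  obtain ⟨rest, hr⟩ := exists_rotate_of_cadj hab h2
  have hQ' := hQ.rotate hr
  have hne := hQ.fst_ne hab
  have hm : dinv b ∈ rest := by
    have := hQ'.2.1 (dinv b)
    simp only [List.mem_cons] at this
    rcases this with h | h | h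
    · exact absurd (congrArg Prod.fst h).symm hne
    · exact absurd h (fgQuad_dinv_ne b)
    · exact h
  obtain ⟨r1, r2, rfl⟩ := List.append_of_mem hm
  refine ⟨_, goodQ_move hQ', fun f hf => (hf.rotate hr).move hQ', fun f hf => hf.of_conj ?_,
    fun f hf => hP.move _ _ _ _ _ hQ' (hP.rot _ _ _ hf hr)⟩
  rw [lift_fMove, lift_nuMove_word hQ']
  exact (FreeGroup.lift f).map_isConj (isConj_mk_of_isRotated hr)

theorem Closed.reach [Fintype X] [Nonempty X] {P : List (X × Bool) → (X → G) → Prop}
    (hP : Closed P) {R Q : List (X × Bool)} (hR : GoodQ R) {x0 : X → H} (hx : IsMarking R x0)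
    (hQ : GoodQ Q) (f : X → FreeGroup X) (hm : IsMarking Q fun y => FreeGroup.lift x0 (f y))
    (he : ExQ R Q f) (x : X → G) (h : P Q fun y => FreeGroup.lift x (f y)) : P R x := by
  obtain ⟨μ, hμ⟩ := exists_meas X
  induction f using (InvImage.wf μ wellFounded_lt).induction generalizing Q with
  | _ f ih =>
  by_cases hmv : ∃ a b, (CAdj Q a b ∨ CAdj Q (dinv b) (dinv a)) ∧ μ (fMove a b f) < μ f
  · obtain ⟨a, b, hab, hlt⟩ := hmv
    have key : ∀ Q, GoodQ Q → (IsMarking Q fun y => FreeGroup.lift x0 (f y)) → ExQ R Q f →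
        (P Q fun y => FreeGroup.lift x (f y)) → CAdj Q a b → P R x := by
      intro Q hQ hm he h hab
      obtain ⟨Q', h1, h2, h3, h4⟩ := creach_move1 (H := H) (R := R) hP hQ hab
      refine ih (fMove a b f) hlt h1 ?_ (h3 f he) ?_
      · rw [← funext (fgNielsen_fMove (FreeGroup.lift x0) a b f)]
        exact h2 _ hm
      · rw [← funext (fgNielsen_fMove (FreeGroup.lift x) a b f)]
        exact h4 _ h
    rcases hab with hab | hab
    · exact key Q hQ hm he h hab
    · exact key _ hQ.invRev hm.invRev he.invRev (hP.inv _ _ h) (cadj_invRev.2 hab)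
  have hne : ∀ y, f y ≠ 1 := fun y e => hm.ne_one hQ y (by rw [e, map_one])
  obtain ⟨Lp, xm, hmid, hstop⟩ := hμ f hne
  obtain ⟨p, hp⟩ := terminal_of_mid hQ (he.short hR hQ) hmid fun a b hab => by
    have h1 : ¬ μ (fMove a b f) < μ f := fun h => hmv ⟨a, b, Or.inl hab, h⟩
    have h2 : ¬ μ (fMove (dinv b) (dinv a) f) < μ f := fun h =>
      hmv ⟨dinv b, dinv a, Or.inr (by rwa [dinv_dinv, dinv_dinv]), h⟩
    have h3 := hQ.fst_ne hab
    refine ⟨hstop a b h3 h1 h2, ?_⟩
    have := hstop (dinv b) (dinv a) h3.symm h2 (by rwa [dinv_dinv, dinv_dinv])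
    rwa [dinv_dinv] at this
  choose l hl using hp
  have hs : Function.Surjective fun y => (l y).1 := by
    intro j
    by_contra hj
    push Not at hj
    let χ : FreeGroup X →* Multiplicative ℤ :=
      FreeGroup.lift fun k => Multiplicative.ofAdd (if k = j then 1 else 0)
    have h1 : (FreeGroup.lift x0).ker ≤ χ.ker := by
      rw [hx.2]
      exact Subgroup.normalClosure_le_normal (Set.singleton_subset_iff.2 (creach_expo hR _))
    have h2 : χ.comp (FreeGroup.lift f) = 1 := by
      refine FreeGroup.ext_hom _ _ fun y => ?_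
      have h3 : χ (FreeGroup.mk [l y]) = 1 := by
        rw [FGMerge_lift, if_neg (hj y)]
        simp
      rw [MonoidHom.comp_apply, FreeGroup.lift_apply_of, hl, map_mul,
        map_mul, h3, map_inv, mul_one, mul_inv_cancel]
      rfl
    obtain ⟨w, hw⟩ := hm.1 (FreeGroup.lift x0 (FreeGroup.of j))
    rw [fgNielsen_lift] at hw
    have h3 := h1 (x := (FreeGroup.lift f w)⁻¹ * FreeGroup.of j)
      (by rw [MonoidHom.mem_ker, map_mul, map_inv, hw, inv_mul_cancel])
    rw [MonoidHom.mem_ker, map_mul, map_inv, ← MonoidHom.comp_apply, h2] at h3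
    simp [χ] at h3
  have hb := (Finite.surjective_iff_bijective).1 hs
  have h1 : P (Q.map (DN.relab l)) x := by
    refine hP.relab Q l x hb ?_
    have h2 := hP.conj _ _ (FreeGroup.lift x p)⁻¹ h
    refine (congrArg (P Q) (funext fun y => ?_)).mp h2
    rw [hl, map_mul, map_mul, map_inv, val]
    group
  have hcyc : ∀ {Q : List (X × Bool)}, GoodQ Q → FreeGroup.IsCyclicallyReduced Q :=
    fun hQ => creach_cyc_iff.2 fun a b hab e => absurd e (hQ.fst_ne hab)
  have h2 : FreeGroup.IsCyclicallyReduced (Q.map (DN.relab l)) := creach_cyc_iff.2 (by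
    intro a b hab e
    obtain ⟨a', b', h3, rfl, rfl⟩ := fgFold_cadj_of_map _ hab
    rw [creach_relab_fst, creach_relab_fst] at e
    exact absurd (hb.1 e) (hQ.fst_ne h3))
  have h3 : IsConj (FreeGroup.mk (Q.map (DN.relab l))) (FreeGroup.lift f (FreeGroup.mk Q)) := by
    have h4 := fgNielsen_lift (MulAut.conj p).toMonoidHom (fun y => FreeGroup.mk [l y])
      (FreeGroup.mk Q)
    rw [creach_mk_relab, funext hl]
    exact isConj_iff.2 ⟨p, h4.symm⟩
  rcases he with he | he | he
  · exact hP.rot _ _ _ h1 (isRotated_of_isConj h2 (hcyc hR) (h3.trans he.symm))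
  · rw [FreeGroup.inv_mk] at he
    have h4 := hP.inv _ _
      (hP.rot _ _ _ h1 (isRotated_of_isConj h2 (hcyc hR.invRev) (h3.trans he.symm)))
    rwa [FreeGroup.invRev_invRev] at h4
  · rw [he, FreeGroup.one_eq_mk] at h3
    have h4 := (isRotated_of_isConj h2 FreeGroup.IsCyclicallyReduced.nil h3).perm.length_eq
    have h5 := hQ.length_eq
    have h6 := Fintype.card_pos (α := X)
    rw [List.length_map, List.length_nil] at h4
    omega

end Pool.Agent.Lib.MP_66609f_al.DN
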