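import Pool.Agent.Lib.MP_66609f_al.DN.CBd

/-! The blocks of the standard word. -/

namespace Pool.Agent.Lib.MP_66609f_al.DN

theorem cpref_length {α : Type} (L : List (List α)) (h : ∀ l ∈ L, l.length = 4) :
    L.flatten.length = 4 * L.length := by
  induction L with
  | nil => rfl
  | cons a L ih =>
    rw [List.forall_mem_cons] at h
    rw [List.flatten_cons, List.length_append, h.1, ih h.2, List.length_cons]
    ring

theorem length_surfWord (g : ℕ) : (surfWord g).length = 4 * g := by
  rw [surfWord, cpref_length _ fun l hl => ?_, List.length_ofFn]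
  obtain ⟨k, rfl⟩ := List.mem_ofFn.1 hl
  rfl

/-- The blocks of the word. -/
theorem surfWord_split {g : ℕ} (i : Fin g) : ∃ l r, l.length = 4 * (i : ℕ) ∧ surfWord g =
    l ++ ((i, false), true) :: ((i, true), true) :: ((i, false), false) :: ((i, true), false) :: r := by
  unfold surfWord
  set L := List.ofFn fun i : Fin g =>
    [((i, false), true), ((i, true), true), ((i, false), false), ((i, true), false)] with hL
  have hi : (i : ℕ) < L.length := by simp [hL]
  refine ⟨(L.take i).flatten, (L.drop (i + 1)).flatten, ?_, ?_⟩
  · rw [cpref_length _ fun l hl => ?_, List.length_take, min_eq_left hi.le]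
    obtain ⟨k, rfl⟩ := List.mem_ofFn.1 (List.mem_of_mem_take hl)
    rfl
  · conv_lhs => rw [← List.take_append_drop i L, List.drop_eq_getElem_cons hi]
    simp [hL]

end Pool.Agent.Lib.MP_66609f_al.DN
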