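import Pool.Agent.Lib.MP_66609f_al.DN.CReal
import Pool.Agent.Lib.MP_66609f_al.DN.CPref

/-! A geometric marking with the standard word is a model of the universal cover. -/

namespace Pool.Agent.Lib.MP_66609f_al.DN

open Set unitInterval Topology

variable {g : ℕ} {Y : Type} [TopologicalSpace Y] [MulAction (SurfaceGroup g) Y]

theorem csurf_idx {α : Type} {Q l r l' r' : List α} {d : α} (hn : Q.Nodup) (h : Q = l ++ d :: r)
    (h' : Q = l' ++ d :: r') : l.length = l'.length := by
  rw [h, List.nodup_middle, List.nodup_cons, List.mem_append, not_or] at hn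
  rw [((List.append_cons_inj_of_notMem hn.1.1 hn.1.2).1 (h.symm.trans h')).1]

theorem csurf_a (i : Fin g) {t s s' : ℝ} (ht : t ∈ Icc (0 : ℝ) 1) (h : s = 4 * i + t)
    (h' : s' = 4 * i + 3 - t) :
    (Quot.mk _ (bd (4 * g) s) : Surf g) = Quot.mk _ (bd (4 * g) s') :=
  Quot.sound ⟨i, t, ht, Or.inl ⟨by rw [h], by rw [h']⟩⟩

theorem csurf_b (i : Fin g) {t s s' : ℝ} (ht : t ∈ Icc (0 : ℝ) 1) (h : s = 4 * i + 1 + t)
    (h' : s' = 4 * i + 4 - t) :
    (Quot.mk _ (bd (4 * g) s) : Surf g) = Quot.mk _ (bd (4 * g) s') :=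
  Quot.sound ⟨i, t, ht, Or.inr ⟨by rw [h], by rw [h']⟩⟩

theorem csurf_two (i : Fin g) : (Quot.mk _ (bd (4 * g) (4 * i + 2)) : Surf g) =
    Quot.mk _ (bd (4 * g) (4 * i)) :=
  (csurf_b i (t := 1) (s' := 4 * i + 3) ⟨zero_le_one, le_rfl⟩ (by ring) (by ring)).trans
    (csurf_a i (t := 0) ⟨le_rfl, zero_le_one⟩ (by ring) (by ring)).symm

theorem csurf_one (i : Fin g) : (Quot.mk _ (bd (4 * g) (4 * i + 1)) : Surf g) =
    Quot.mk _ (bd (4 * g) (4 * i)) :=
  (csurf_a i (t := 1) ⟨zero_le_one, le_rfl⟩ rfl (by ring)).trans (csurf_two i)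

theorem csurf_zero {k : ℕ} (hk : k ≤ g) : (Quot.mk _ (bd (4 * g) (4 * k)) : Surf g) =
    Quot.mk _ (bd (4 * g) 0) := by
  induction k with
  | zero => rw [Nat.cast_zero, mul_zero]
  | succ k ih =>
    refine Eq.trans ?_ ((csurf_one ⟨k, hk⟩).trans (ih (Nat.le_of_succ_le hk)))
    refine (csurf_b ⟨k, hk⟩ (t := 0) ⟨le_rfl, zero_le_one⟩ (by ring) ?_).symm
    push_cast
    ring

/-- the positions of the four darts of a block -/
theorem csurf_block (i : Fin g) : ∃ l r1 r2 r3 r4 : List ((Fin g × Bool) × Bool),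
    l.length = 4 * (i : ℕ) ∧ surfWord g = l ++ ((i, false), true) :: r1 ∧
    surfWord g = (l ++ [((i, false), true)]) ++ ((i, true), true) :: r2 ∧
    surfWord g = (l ++ [((i, false), true), ((i, true), true)]) ++ ((i, false), false) :: r3 ∧
    surfWord g = (l ++ [((i, false), true), ((i, true), true), ((i, false), false)]) ++
      ((i, true), false) :: r4 := by
  obtain ⟨l, r, h1, h2⟩ := surfWord_split i
  exact ⟨l, _, _, _, r, h1, h2, h2.trans (List.append_assoc l [_] _).symm,
    h2.trans (List.append_assoc l [_, _] _).symm, h2.trans (List.append_assoc l [_, _, _] _).symm⟩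

/-- The surface itself is a polygon with the trivial group. The vertices are identified. -/
theorem exists_poly_surf (hg : 1 ≤ g) : ∃ (v : Surf g) (e : Fin g × Bool → C(I, Surf g)),
    Poly (G := (⊥ : Subgroup (Equiv.Perm (Surf g)))) (surfWord g) (fun _ => 1) v e
      (Quot.mk _) := by
  have _ := hg
  have one : ∀ (c : (⊥ : Subgroup (Equiv.Perm (Surf g)))) (x : Surf g), c • x = x := fun c x => by
    rw [Subsingleton.elim c 1, one_smul]
  have hc := continuous_bd (4 * g)
  refine ⟨Quot.mk _ (bd (4 * g) 0), fun y => ⟨fun t => Quot.mk _ (bd (4 * g)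
    (4 * y.1 + (if y.2 then 1 else 0) + t)), continuous_quot_mk.comp (by fun_prop)⟩, ?_, ?_, ?_⟩
  · rintro ⟨i, _ | _⟩
    · refine Eq.trans ?_ (csurf_zero i.2.le)
      simp
    · refine Eq.trans ?_ ((csurf_one i).trans (csurf_zero i.2.le))
      simp
  · rintro ⟨i, _ | _⟩
    · rw [one]
      refine Eq.trans ?_ ((csurf_one i).trans (csurf_zero i.2.le))
      simp
    · rw [one]
      refine Eq.trans ?_ ((csurf_two i).trans (csurf_zero i.2.le))
      simp [add_assoc, one_add_one_eq_two]
  · rintro l ⟨⟨i, b⟩, c⟩ r h t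
    obtain ⟨l0, r1, r2, r3, r4, a0, a1, a2, a3, a4⟩ := csurf_block i
    have hn := (goodQ_surfWord g).1
    rw [one, length_surfWord]
    rcases b with _ | _ <;> rcases c with _ | _
    · rw [csurf_idx hn h a3, List.length_append, a0]
      refine ((one _ _).trans ?_).symm
      refine csurf_a i (σ t).2 (by simp) ?_
      simp only [List.length_cons, List.length_nil, coe_symm_eq]
      push_cast
      ring
    · rw [csurf_idx hn h a1, a0]
      simp [dart]
    · rw [csurf_idx hn h a4, List.length_append, a0]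
      refine ((one _ _).trans ?_).symm
      refine csurf_b i (σ t).2 (by simp) ?_
      simp only [List.length_cons, List.length_nil, coe_symm_eq]
      push_cast
      ring
    · rw [csurf_idx hn h a2, List.length_append, a0]
      simp [dart]

theorem csurf_orb
    (D : GeoData Y (surfWord g) (PresentedGroup.of : Fin g × Bool → SurfaceGroup g))
    {l r l' r' : List ((Fin g × Bool) × Bool)} {y : Fin g × Bool}
    (h : surfWord g = l ++ (y, true) :: r) (h' : surfWord g = l' ++ (y, false) :: r') (t : I)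
    {s s' : ℝ} (e : s = l.length + t) (e' : s' = l'.length + σ t) :
    D.φ (bd (4 * g) s) ∈ MulAction.orbit (SurfaceGroup g) (D.φ (bd (4 * g) s')) := by
  rw [e, e', ← length_surfWord, D.side _ _ _ h, D.side _ _ _ h', MulAction.orbit_smul,
    show ((y, false) : (Fin g × Bool) × Bool) = dinv (y, true) from rfl, dart_dinv, symm_symm,
    MulAction.orbit_smul]
  exact MulAction.mem_orbit _ _

theorem csurf_rel
    (D : GeoData Y (surfWord g) (PresentedGroup.of : Fin g × Bool → SurfaceGroup g))
    {z w : Disc} (h : Relation.EqvGen (sideRel g) z w) :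
    MulAction.orbitRel (SurfaceGroup g) Y (D.φ z) (D.φ w) := by
  induction h with
  | rel z w h =>
    obtain ⟨i, t, ht, h⟩ := h
    obtain ⟨l0, r1, r2, r3, r4, a0, a1, a2, a3, a4⟩ := csurf_block i
    rcases h with ⟨rfl, rfl⟩ | ⟨rfl, rfl⟩
    · refine csurf_orb D a1 a3 ⟨t, ht⟩ ?_ ?_
      · rw [a0]
        push_cast
        ring
      · simp only [List.length_append, List.length_cons, List.length_nil, coe_symm_eq, a0]
        push_cast
        ring
    · refine csurf_orb D a2 a4 ⟨t, ht⟩ ?_ ?_
      · simp only [List.length_append, List.length_cons, List.length_nil, a0]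
        push_cast
        ring
      · simp only [List.length_append, List.length_cons, List.length_nil, coe_symm_eq, a0]
        push_cast
        ring
  | refl z => exact Setoid.refl' _ _
  | symm z w _ h => exact Setoid.symm' _ h
  | trans z w u _ _ h h' => exact Setoid.trans' _ h h'

/- `p` from `exists_quot` and `D.isQuotientMap`, `D.rel` with `θ = 1`; `p` is a quotient map since
`p ∘ q = Quot.mk` is one; fibres are orbits by `Quot.eqvGen_exact` and `side`;
`IsQuotientMap.isQuotientCoveringMap_of_properlyDiscontinuousSMul`. -/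
theorem GeoMark.model [T2Space Y] [LocallyCompactSpace Y]
    [ContinuousConstSMul (SurfaceGroup g) Y] [ProperlyDiscontinuousSMul (SurfaceGroup g) Y]
    [IsCancelSMul (SurfaceGroup g) Y] (hg : 1 ≤ g)
    (h : GeoMark Y (surfWord g) (PresentedGroup.of : Fin g × Bool → SurfaceGroup g)) :
    Nonempty (Model g Y) := by
  obtain ⟨D⟩ := h
  obtain ⟨v, e, hP⟩ := exists_poly_surf hg
  have hN : 4 * g ≠ 0 := by omega
  have hQ : surfWord g ≠ [] := fun e => hN (by rw [← length_surfWord, e]; rfl)
  obtain ⟨p, hp⟩ := exists_quot D.isQuotientMap (u := fun u => (Quot.mk _ u.2 : Surf g))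
    (continuous_sigma fun _ => continuous_quot_mk) fun a b hab =>
      (one_smul (⊥ : Subgroup (Equiv.Perm (Surf g))) _).symm.trans
        ((D.rel hQ 1 hP hab).trans (one_smul (⊥ : Subgroup (Equiv.Perm (Surf g))) _))
  have hp' : ∀ (c : SurfaceGroup g) z, p (c • D.φ z) = Quot.mk _ z := fun c z => hp ⟨c, z⟩
  have pq : ∀ z, p (D.φ z) = Quot.mk _ z := fun z => by rw [← hp' 1 z, one_smul]
  have hq : IsQuotientMap p := IsQuotientMap.of_comp D.φ.continuous p.continuous (by
    rw [show p ∘ D.φ = Quot.mk _ from funext pq]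
    exact isQuotientMap_quot_mk)
  have v0 : ∀ k, k < 4 * g → D.φ (bd (4 * g) k) =
      val (G := SurfaceGroup g) PresentedGroup.of ((surfWord g).take k) • D.v := fun k hk => by
    rw [← length_surfWord] at hk
    have := D.side ((surfWord g).take k) (surfWord g)[k] ((surfWord g).drop (k + 1))
      (by rw [List.getElem_cons_drop, List.take_append_drop]) 0
    rwa [D.dart_zero, List.length_take_of_le hk.le, length_surfWord, Icc.coe_zero, add_zero] at this
  refine ⟨⟨p, D.φ, hq.isQuotientCoveringMap_of_properlyDiscontinuousSMul fun {x x'} => ?_,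
    pq, fun k hk => ?_⟩⟩
  · obtain ⟨c, z, rfl⟩ := D.cover x
    obtain ⟨c', z', rfl⟩ := D.cover x'
    rw [hp', hp', MulAction.orbit_smul]
    refine ⟨fun e => MulAction.mem_orbit_of_mem_orbit c (csurf_rel D (Quot.eqvGen_exact e)), ?_⟩
    rintro ⟨γ, e⟩
    exact (hp' c z).symm.trans ((congrArg p e.symm).trans (hp' γ z'))
  · rcases hk.lt_or_eq with hk | rfl
    · have := v0 0 (by omega)
      rw [Nat.cast_zero, List.take_zero, val_nil, one_smul] at this
      rw [v0 k hk, this]
    · rw [List.take_of_length_le (length_surfWord g).le, D.val_eq_one, one_smul,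
        ← bd_add_self hN 0, zero_add]

end Pool.Agent.Lib.MP_66609f_al.DN
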