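import Pool.Agent.Lib.MP_66609f_al.DN.CMove
import Pool.Agent.Lib.MP_66609f_al.DN.CReach
import Pool.Agent.Lib.MP_66609f_al.DN.CSurf
import Pool.Agent.Lib.MP_66609f_al.IsoB

/-! The Dehn-Nielsen theorem: every automorphism is realised by a homeomorphism. -/

namespace Pool.Agent.Lib.MP_66609f_al.DN

variable {g : ℕ} {Y : Type} [TopologicalSpace Y] [T2Space Y]

theorem closed_geoMark {X G : Type} [DecidableEq X] [Group G] [MulAction G Y]
    [ContinuousConstSMul G Y] [IsCancelSMul G Y] :
    Closed (GeoMark Y : List (X × Bool) → (X → G) → Prop) :=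
  ⟨fun _ _ _ h hr => h.rotate hr, fun _ _ h => h.invRev, fun _ _ _ _ _ hQ h => h.move hQ,
    fun _ l x hl h => GeoMark.relab l hl x h, fun _ _ c h => h.conj c⟩

theorem cmain_marking {X X' G : Type} [Group G] {Q : List (X × Bool)} {Q' : List (X' × Bool)}
    {f : X → G} (h : IsMarking Q f) (Θ : FreeGroup X' ≃* FreeGroup X)
    (hΘ : Θ (FreeGroup.mk Q') = FreeGroup.mk Q) :
    IsMarking Q' fun y => FreeGroup.lift f (Θ (FreeGroup.of y)) := by
  have e : (FreeGroup.lift fun y => FreeGroup.lift f (Θ (FreeGroup.of y))) =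
      (FreeGroup.lift f).comp Θ.toMonoidHom := FreeGroup.ext_hom _ _ fun y => by simp
  unfold IsMarking
  rw [e]
  refine ⟨h.1.comp Θ.surjective, ?_⟩
  rw [← MonoidHom.comap_ker, h.2, ← hΘ, ← Set.image_singleton]
  have h1 := Subgroup.map_normalClosure {FreeGroup.mk Q'} Θ.toMonoidHom Θ.surjective
  exact (congrArg _ h1.symm).trans (Subgroup.comap_map_eq_self_of_injective Θ.injective _)

theorem cmain_good {X X' : Type} {Q : List (X × Bool)} (h : GoodQ Q) (e : X ≃ X') :
    GoodQ (Q.map (relab fun y => (e y, true))) := by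
  have h0 : (relab fun y => (e y, true)) = e.prodCongr (Equiv.refl Bool) := by
    funext d
    rcases d with ⟨y, _ | _⟩ <;> rfl
  rw [h0]
  set E := e.prodCongr (Equiv.refl Bool)
  refine ⟨h.1.map E.injective, fun d => List.mem_map.2 ⟨E.symm d, h.2.1 _, E.apply_symm_apply d⟩,
    fun S hS hc => ?_⟩
  have h1 := h.2.2 (E ⁻¹' S) (hS.preimage E.surjective) fun a b ha hab =>
    hc (E a) (E b) ha (cadj_map E hab)
  rwa [Set.preimage_eq_univ_iff, E.range_eq_univ, Set.univ_subset_iff] at h1

theorem mk_oppWord (g : ℕ) : FreeGroup.mk (oppWord g) = oppRel g := by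
  have key : ∀ (b : Bool) (l : List (Fin (2 * g))), FreeGroup.mk (l.map fun i => (i, b)) =
      (l.map fun i => FreeGroup.mk [(i, b)]).prod := by
    intro b l
    induction l with
    | nil => rfl
    | cons i l ih => rw [List.map_cons, fgMove_cons, ih, List.map_cons, List.prod_cons]
  rw [oppWord, oppRel, ← FreeGroup.mul_mk, key, key, List.ofFn_eq_map, List.ofFn_eq_map]
  rfl

/-- From the polygon with opposite sides identified to the standard polygon. -/
theorem exists_iso_geoMark (hg : 1 ≤ g) {G : Type} [Group G] [MulAction G Y]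
    [ContinuousConstSMul G Y] [IsCancelSMul G Y] {f : Fin (2 * g) → G}
    (hQ : GoodQ (oppWord g)) (hm : IsMarking (oppWord g) f) (h : GeoMark Y (oppWord g) f) :
    ∃ ι : SurfaceGroup g ≃* G, GeoMark Y (surfWord g) fun y => ι (PresentedGroup.of y) := by
  have : Nonempty (Fin g × Bool) := ⟨(⟨0, hg⟩, false)⟩
  let e := isoB_idx g
  let Θ := (isoB_aut g).trans (FreeGroup.freeGroupCongr e)
  have hx := cmain_marking (Q' := surfWord g) hm Θ (by
    rw [mk_surfWord, mk_oppWord]
    exact isoB_rel g)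
  set x := fun y => FreeGroup.lift f (Θ (FreeGroup.of y)) with hxd
  have hker : Subgroup.normalClosure {surfRel g} = (FreeGroup.lift x).ker := by
    rw [hx.2, mk_surfWord]
  obtain ⟨ι, e1⟩ : ∃ ι : SurfaceGroup g ≃* G, ∀ y, ι (PresentedGroup.of y) = x y :=
    ⟨QuotientGroup.liftEquiv _ hx.1 hker, fun y => FreeGroup.lift_apply_of⟩
  refine ⟨ι, ?_⟩
  rw [funext e1]
  have e2 : FreeGroup.freeGroupCongr e
      (FreeGroup.mk ((oppWord g).map (relab fun i => (e.symm i, true)))) =
      FreeGroup.mk (oppWord g) := by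
    rw [FreeGroup.freeGroupCongr_apply, FreeGroup.map.mk, List.map_map]
    congr 1
    refine (List.map_congr_left fun d _ => ?_).trans (List.map_id _)
    rcases d with ⟨y, _ | _⟩ <;> simp [relab, dinv]
  have e3 : ∀ y, FreeGroup.lift x ((isoB_aut g).symm (FreeGroup.of y)) =
      FreeGroup.lift f (FreeGroup.freeGroupCongr e (FreeGroup.of y)) := by
    intro y
    have h1 : FreeGroup.lift x = (FreeGroup.lift f).comp Θ.toMonoidHom :=
      FreeGroup.ext_hom _ _ fun y => by simp [hxd]
    rw [h1]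
    simp [Θ]
  refine closed_geoMark.reach (goodQ_surfWord g) hx (cmain_good hQ e.symm)
    (fun y => (isoB_aut g).symm (FreeGroup.of y)) ?_ (Or.inl ?_) x ?_
  · rw [funext e3]
    exact cmain_marking hm _ e2
  · have h1 : (FreeGroup.lift fun y => (isoB_aut g).symm (FreeGroup.of y)) =
        (isoB_aut g).symm.toMonoidHom := FreeGroup.ext_hom _ _ fun y => by simp
    have h2 : FreeGroup.mk ((oppWord g).map (relab fun i => (e.symm i, true))) =
        isoB_aut g (FreeGroup.mk (surfWord g)) := by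
      apply (FreeGroup.freeGroupCongr e).injective
      rw [e2, mk_surfWord, mk_oppWord]
      exact (isoB_rel g).symm
    rw [h1, h2]
    exact isConj_iff.2 ⟨1, by simp⟩
  · refine GeoMark.relab _ e.symm.bijective _ ?_
    refine (congrArg (GeoMark Y (oppWord g)) (funext fun i => ?_)).mp h
    rw [val_true, e3]
    simp

theorem exists_homeo_of_aut (hg : 2 ≤ g) [LocallyCompactSpace Y] [MulAction (SurfaceGroup g) Y]
    [ContinuousConstSMul (SurfaceGroup g) Y] [ProperlyDiscontinuousSMul (SurfaceGroup g) Y]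
    [IsCancelSMul (SurfaceGroup g) Y]
    (h : GeoMark Y (surfWord g) (PresentedGroup.of : Fin g × Bool → SurfaceGroup g))
    (φ : MulAut (SurfaceGroup g)) :
    ∃ F : Y ≃ₜ Y, ∀ (c : SurfaceGroup g) x, F (c • x) = φ c • F x := by
  have : Nonempty (Fin g × Bool) := ⟨(⟨0, by omega⟩, false)⟩
  have hR := goodQ_surfWord g
  have hx := fgMain_marking g
  refine GeoMark.exists_homeo (List.ne_nil_of_mem (hR.2.1 (Classical.arbitrary _, true))) φ h ?_
  obtain ⟨f, h1, h2⟩ := exists_exact_lift g hg φ⁻¹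
  refine closed_geoMark.reach hR hx hR f (by rw [funext h2]; exact hx.comp φ⁻¹) h1 _ ?_
  refine (congrArg (GeoMark Y (surfWord g)) (funext fun y => ?_)).mp h
  have h3 := fgNielsen_lift φ.toMonoidHom (PresentedGroup.of : Fin g × Bool → SurfaceGroup g) (f y)
  refine (h3.trans ?_).symm
  rw [h2]
  exact φ.apply_symm_apply _

end Pool.Agent.Lib.MP_66609f_al.DN
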