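import Pool.Agent.Lib.MP_66609f_al.Defs

/-! Lifts of homeomorphisms to a simply connected regular covering. -/

namespace Pool.Agent.Lib.MP_66609f_al.DN

open Set Topology unitInterval

variable {X S G : Type} [TopologicalSpace X] [TopologicalSpace S] [Group G] [MulAction G X]
  {p : X → S} {f f' : S ≃ₜ S} {F F' : X ≃ₜ X} {φ φ' : MulAut G}

/-- `F` covers `f` and is equivariant along `φ`. -/
structure Lifts (p : X → S) (f : S ≃ₜ S) (F : X ≃ₜ X) (φ : MulAut G) : Prop where
  cov : ∀ x, p (F x) = f (p x)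
  eqv : ∀ (γ : G) x, F (γ • x) = φ γ • F x

theorem Lifts.one (p : X → S) : Lifts p 1 1 (1 : MulAut G) := ⟨fun _ => rfl, fun _ _ => rfl⟩

theorem Lifts.mul (h : Lifts p f F φ) (h' : Lifts p f' F' φ') : Lifts p (f * f') (F * F') (φ * φ') :=
  ⟨fun x => (h.cov _).trans (congrArg f (h'.cov x)), fun γ x => (congrArg F (h'.eqv γ x)).trans
    (h.eqv _ _)⟩

theorem Lifts.inv (h : Lifts p f F φ) : Lifts p f⁻¹ F⁻¹ φ⁻¹ :=
  ⟨fun x => f.injective (by rw [← h.cov]; simp), fun γ x => F.injective (by rw [h.eqv]; simp)⟩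

/-- The deck transformation. -/
def deck (hp : IsQuotientCoveringMap p G) (γ : G) : X ≃ₜ X :=
  haveI := hp.toContinuousConstSMul
  Homeomorph.smul γ

@[simp] theorem deck_apply (hp : IsQuotientCoveringMap p G) (γ : G) (x : X) :
    deck hp γ x = γ • x := rfl

theorem Lifts.deck (hp : IsQuotientCoveringMap p G) (γ : G) :
    Lifts p 1 (deck hp γ) (MulAut.conj γ) :=
  ⟨fun _ => hp.map_smul γ, fun δ x => by simp [smul_smul]⟩

theorem Lifts.smul (hp : IsQuotientCoveringMap p G) (h : Lifts p f F φ) (γ : G) :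
    Lifts p f (DN.deck hp γ * F) (MulAut.conj γ * φ) := by
  simpa using (Lifts.deck hp γ).mul h

/-- Two lifts of one map differ by a deck transformation. -/
theorem exists_smul {A : Type} [TopologicalSpace A] [ConnectedSpace A]
    (hp : IsQuotientCoveringMap p G) {u v : A → X} (hu : Continuous u) (hv : Continuous v)
    (h : ∀ a, p (u a) = p (v a)) : ∃ γ : G, ∀ a, u a = γ • v a := by
  obtain ⟨a⟩ : Nonempty A := inferInstance
  obtain ⟨γ, hγ⟩ := hp.apply_eq_iff_mem_orbit.1 (h a)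
  exact ⟨γ, congrFun (hp.isCoveringMap.eq_of_comp_eq hu ((hp.continuous_const_smul γ).comp hv)
    (funext fun a => (h a).trans (hp.map_smul γ).symm) a hγ.symm)⟩

theorem free (hp : IsQuotientCoveringMap p G) {γ δ : G} {x : X} (h : γ • x = δ • x) : γ = δ :=
  haveI := hp.isCancelSMul
  IsCancelSMul.right_cancel _ _ x h

theorem exists_quot {A B C : Type} [TopologicalSpace A] [TopologicalSpace B] [TopologicalSpace C]
    {q : A → B} (hq : IsQuotientMap q) {u : A → C} (hu : Continuous u)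
    (h : ∀ a b, q a = q b → u a = u b) : ∃ v : C(B, C), ∀ a, v (q a) = u a :=
  ⟨hq.lift (f := ⟨q, hq.continuous⟩) ⟨u, hu⟩ h,
    DFunLike.congr_fun (hq.lift_comp (f := ⟨q, hq.continuous⟩) ⟨u, hu⟩ h)⟩

/-- An equivariant homeomorphism descends. -/
theorem exists_desc (hp : IsQuotientCoveringMap p G) (F : X ≃ₜ X) (φ : MulAut G)
    (h : ∀ (γ : G) x, F (γ • x) = φ γ • F x) : ∃ f, Lifts p f F φ := by
  have key : ∀ (F : X ≃ₜ X) (φ : MulAut G), (∀ (γ : G) x, F (γ • x) = φ γ • F x) →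
      ∃ f : C(S, S), ∀ x, f (p x) = p (F x) := fun F φ h =>
    exists_quot hp.toIsQuotientMap (hp.continuous.comp F.continuous) fun x y e => by
      obtain ⟨γ, rfl⟩ := hp.apply_eq_iff_mem_orbit.1 e
      exact (congrArg p (h γ y)).trans (hp.map_smul _)
  obtain ⟨f, hf⟩ := key F φ h
  obtain ⟨f', hf'⟩ := key F.symm φ⁻¹ fun γ x => F.injective (by rw [h]; simp)
  refine ⟨⟨⟨f, f', hp.surjective.forall.2 fun x => ?_, hp.surjective.forall.2 fun x => ?_⟩,
    f.continuous, f'.continuous⟩, fun x => (hf x).symm, h⟩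
  · rw [hf, hf', F.symm_apply_apply]
  · rw [hf', hf, F.apply_symm_apply]

variable [SimplyConnectedSpace X] [LocallyPathConnectedSpace X]

theorem exists_lifts_at (hp : IsQuotientCoveringMap p G) (f : S ≃ₜ S) {x y : X}
    (e : p y = f (p x)) : ∃ F φ, Lifts p f F (φ : MulAut G) ∧ F x = y := by
  have hc := hp.isCoveringMap
  obtain ⟨F, ⟨h1, h2⟩, -⟩ := hc.existsUnique_continuousMap_lifts
    ⟨f ∘ p, f.continuous.comp hp.continuous⟩ x y e
  obtain ⟨F', ⟨h3, h4⟩, -⟩ := hc.existsUnique_continuousMap_lifts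
    ⟨f.symm ∘ p, f.symm.continuous.comp hp.continuous⟩ y x (by simp [e])
  replace h2 : ∀ x, p (F x) = f (p x) := congrFun h2
  replace h4 : ∀ x, p (F' x) = f.symm (p x) := congrFun h4
  let H : X ≃ₜ X := ⟨⟨F, F', congrFun (hc.eq_of_comp_eq (F'.comp F).continuous continuous_id
    (funext fun x => by simp [h2, h4]) x (by simp [h1, h3])),
    congrFun (hc.eq_of_comp_eq (F.comp F').continuous continuous_id
    (funext fun x => by simp [h2, h4]) y (by simp [h1, h3]))⟩, F.continuous, F'.continuous⟩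
  have key : ∀ (F : X ≃ₜ X) (f : S → S), (∀ x, p (F x) = f (p x)) →
      ∀ γ : G, ∃ δ : G, ∀ x, F (γ • x) = δ • F x := fun F f h γ =>
    exists_smul hp (F.continuous.comp (hp.continuous_const_smul γ)) F.continuous fun x => by
      rw [h, h, hp.map_smul]
  choose a ha using key H f h2
  choose b hb using key H.symm f.symm h4
  refine ⟨H, ⟨⟨a, b, fun γ => free hp (x := H.symm (H x)) ?_, fun γ => free hp
    (x := H (H.symm x)) ?_⟩, fun γ δ => free hp (x := H x) ?_⟩, ⟨h2, ha⟩, h1⟩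
  · rw [← hb, ← ha, H.symm_apply_apply, H.symm_apply_apply]
  · rw [← ha, ← hb, H.apply_symm_apply, H.apply_symm_apply]
  · simp only [mul_smul, ← ha]

theorem exists_lifts (hp : IsQuotientCoveringMap p G) (f : S ≃ₜ S) :
    ∃ F φ, Lifts p f F (φ : MulAut G) := by
  obtain ⟨x⟩ : Nonempty X := inferInstance
  obtain ⟨y, e⟩ := hp.surjective (f (p x))
  exact (exists_lifts_at hp f e).imp fun _ h => h.imp fun _ h => h.1

omit [LocallyPathConnectedSpace X] in
theorem Lifts.unique (hp : IsQuotientCoveringMap p G) (h : Lifts p f F φ) (h' : Lifts p f F' φ') :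
    ∃ γ : G, (∀ x, F' x = γ • F x) ∧ φ' = MulAut.conj γ * φ := by
  obtain ⟨γ, hγ⟩ := exists_smul hp F'.continuous F.continuous fun x => (h'.cov x).trans (h.cov x).symm
  obtain ⟨x⟩ : Nonempty X := inferInstance
  refine ⟨γ, hγ, MulEquiv.ext fun δ => free hp (x := F' x) ?_⟩
  rw [← h'.eqv, hγ, hγ, h.eqv]
  simp [smul_smul]

theorem mk_conj_mul (γ : G) (φ : MulAut G) :
    (QuotientGroup.mk (MulAut.conj γ * φ) : Out G) = QuotientGroup.mk φ := by
  rw [QuotientGroup.mk_mul, (QuotientGroup.eq_one_iff (N := Inn G) _).2 ⟨γ, rfl⟩, one_mul]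

omit [LocallyPathConnectedSpace X] in
theorem Lifts.mk_eq (hp : IsQuotientCoveringMap p G) (h : Lifts p f F φ) (h' : Lifts p f F' φ') :
    (QuotientGroup.mk φ' : Out G) = QuotientGroup.mk φ := by
  obtain ⟨γ, -, rfl⟩ := h.unique hp h'
  exact mk_conj_mul γ φ

/-- The outer action of the homeomorphism group on the deck group. -/
noncomputable def outHom (hp : IsQuotientCoveringMap p G) : (S ≃ₜ S) →* Out G :=
  MonoidHom.mk' (fun f => QuotientGroup.mk (exists_lifts hp f).choose_spec.choose) fun f f' =>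
    ((exists_lifts hp f).choose_spec.choose_spec.mul
      (exists_lifts hp f').choose_spec.choose_spec).mk_eq hp (exists_lifts hp _).choose_spec.choose_spec

theorem Lifts.outHom (hp : IsQuotientCoveringMap p G) (h : Lifts p f F φ) :
    outHom hp f = QuotientGroup.mk φ :=
  h.mk_eq hp (exists_lifts hp _).choose_spec.choose_spec

theorem exists_lifts_of_outHom (hp : IsQuotientCoveringMap p G) (h : outHom hp f = QuotientGroup.mk φ) :
    ∃ F, Lifts p f F φ := by
  obtain ⟨F, ψ, hF⟩ := exists_lifts hp f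
  obtain ⟨γ, hγ⟩ := (QuotientGroup.eq_iff_div_mem (N := Inn G)).1 (h.symm.trans (hF.outHom hp))
  refine ⟨_, (?_ : MulAut.conj γ * ψ = φ) ▸ hF.smul hp γ⟩
  rw [show MulAut.conj γ = φ / ψ from hγ, div_mul_cancel]

theorem outHom_eq_one (hp : IsQuotientCoveringMap p G) :
    outHom hp f = 1 ↔ ∃ F, Lifts p f F (1 : MulAut G) :=
  ⟨fun h => exists_lifts_of_outHom hp h, fun ⟨_, h⟩ => h.outHom hp⟩

/-- Homotopic homeomorphisms have the same outer action. -/
theorem outHom_eq_of_homotopic (hp : IsQuotientCoveringMap p G)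
    (h : ContinuousMap.Homotopic (f : C(S, S)) (f' : C(S, S))) : outHom hp f = outHom hp f' := by
  obtain ⟨H⟩ := h
  obtain ⟨F, φ, hF⟩ := exists_lifts hp f
  obtain ⟨F', φ', hF'⟩ := exists_lifts hp f'
  have hc := hp.isCoveringMap
  let K : C(I × X, S) := ⟨fun u => H (u.1, p u.2), by have := hp.continuous; fun_prop⟩
  have h0 : ∀ x, K (0, x) = p ((F : C(X, X)) x) := fun x => (H.apply_zero _).trans (hF.cov x).symm
  have h1 : ∀ u, p (hc.liftHomotopy K F h0 u) = K u := congrFun (hc.liftHomotopy_lifts K F h0)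
  have h2 := hc.liftHomotopy_zero K F h0
  set L := hc.liftHomotopy K F h0
  have h3 : ∀ (γ : G) x, L (1, γ • x) = φ γ • L (1, x) := fun γ x =>
    congrFun (hc.eq_of_comp_eq (g₁ := fun t => L (t, γ • x)) (g₂ := fun t => φ γ • L (t, x))
      (by fun_prop) ((hp.continuous_const_smul _).comp (by fun_prop))
      (funext fun t => by simp [h1, hp.map_smul, K]) 0 (by simp [h2, hF.eqv])) 1
  obtain ⟨γ, hγ⟩ := exists_smul hp F'.continuous (v := fun x => L (1, x)) (by fun_prop) fun x => by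
    rw [h1, hF'.cov]
    exact (H.apply_one _).symm
  obtain ⟨x⟩ : Nonempty X := inferInstance
  rw [hF.outHom hp, hF'.outHom hp, ← mk_conj_mul γ φ]
  refine congrArg _ (MulEquiv.ext fun δ => free hp (x := F' x) ?_)
  rw [← hF'.eqv, hγ, hγ, h3]
  simp [smul_smul]

/-- With an invariant way to join two points, the outer action determines the homotopy class. -/
theorem homotopic_of_outHom_eq (hp : IsQuotientCoveringMap p G) (m : I → X → X → X)
    (hm : Continuous fun u : I × X × X => m u.1 u.2.1 u.2.2) (h0 : ∀ x y, m 0 x y = x)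
    (h1 : ∀ x y, m 1 x y = y) (he : ∀ (γ : G) t x y, m t (γ • x) (γ • y) = γ • m t x y)
    (h : outHom hp f = outHom hp f') : ContinuousMap.Homotopic (f : C(S, S)) (f' : C(S, S)) := by
  obtain ⟨F, φ, hF⟩ := exists_lifts hp f
  obtain ⟨F', hF'⟩ := exists_lifts_of_outHom hp (h.symm.trans (hF.outHom hp))
  obtain ⟨L, hL⟩ := exists_quot
    ((IsOpenQuotientMap.id (X := I)).prodMap hp.isOpenQuotientMap).isQuotientMap
    (hp.continuous.comp (hm.comp (f := fun u : I × X => (u.1, F u.2, F' u.2)) (by fun_prop))) (by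
      rintro ⟨t, x⟩ ⟨s, y⟩ e
      obtain ⟨rfl, e⟩ := Prod.ext_iff.1 e
      obtain ⟨γ, rfl⟩ := hp.apply_eq_iff_mem_orbit.1 e
      change p (m _ (F (γ • y)) (F' (γ • y))) = _
      rw [hF.eqv, hF'.eqv, he, hp.map_smul]
      rfl)
  exact ⟨⟨L, hp.surjective.forall.2 fun x => (hL (0, x)).trans ((congrArg p (h0 _ _)).trans (hF.cov x)),
    hp.surjective.forall.2 fun x => (hL (1, x)).trans ((congrArg p (h1 _ _)).trans (hF'.cov x))⟩⟩

end Pool.Agent.Lib.MP_66609f_al.DN
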