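import Pool.Agent.Lib.MP_66609f_al.DN.CSplit
import Pool.Agent.Lib.MP_66609f_al.DN.Lift

/-! A Nielsen move on a geometric marking: cut along a diagonal and glue again. -/

namespace Pool.Agent.Lib.MP_66609f_al.DN

open Set unitInterval

variable {X G Y : Type} [DecidableEq X] [Group G] [TopologicalSpace Y] [MulAction G Y]

omit [DecidableEq X] in
theorem cmove_cases {Q : List (X × Bool)} (hN : Q.length ≠ 0) {w : Disc} (hw : ‖(w : ℂ)‖ = 1) :
    ∃ l d r, ∃ s : I, Q = l ++ d :: r ∧ w = bd Q.length (l.length + s) := by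
  obtain ⟨t, t0, t1, rfl⟩ := exists_bd hN 0 hw
  have h : ⌊t⌋₊ < Q.length := (Nat.floor_lt t0).2 (by simpa using t1)
  have h1 := Nat.floor_le t0
  have h2 := Nat.lt_floor_add_one t
  refine ⟨Q.take ⌊t⌋₊, Q[⌊t⌋₊], Q.drop (⌊t⌋₊ + 1), ⟨t - ⌊t⌋₊, by linarith, by linarith⟩,
    by simp, ?_⟩
  rw [List.length_take, min_eq_left h.le, add_sub_cancel]

omit [DecidableEq X] in
theorem cmove_pos {Q l l' r r' : List (X × Bool)} {d : X × Bool} (h : Q.Nodup)
    (e : Q = l ++ d :: r) (e' : Q = l' ++ d :: r') : l = l' := by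
  rw [e, List.nodup_middle, List.nodup_cons, List.mem_append, not_or] at h
  exact ((List.append_cons_inj_of_notMem h.1.1 h.1.2).1 (e.symm.trans e')).1

omit [DecidableEq X] in
/-- A point of an open side is equivalent to itself and to its partner only. -/
theorem cmove_pair {Q l l' r r' : List (X × Bool)} {d : X × Bool} {f : X → G}
    (D : GeoData Y Q f) (h : Q.Nodup) (e : Q = l ++ d :: r) (e' : Q = l' ++ dinv d :: r') {t : I}
    (h0 : t ≠ 0) (h1 : t ≠ 1) {γ : G} {w : Disc}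
    (hw : γ • D.φ (bd Q.length (l.length + t)) = D.φ w) :
    w = bd Q.length (l.length + t) ∨ w = bd Q.length (l'.length + σ t) := by
  rcases (norm_le w).eq_or_lt with h2 | h2
  · obtain ⟨l₀, d₀, r₀, s, e₀, rfl⟩ := cmove_cases (Q := Q) (by rw [e]; simp) h2
    rw [D.side _ _ _ e, D.side _ _ _ e₀, ← inv_smul_eq_iff, smul_smul, smul_smul] at hw
    rcases D.dart_eq h0 h1 hw with ⟨rfl, rfl⟩ | ⟨rfl, rfl⟩
    · exact .inl (by rw [cmove_pos h e₀ e])
    · exact .inr (by rw [cmove_pos h e₀ e'])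
  · exact .inl (D.inner γ⁻¹ _ _ h2 (inv_smul_eq_iff.2 hw.symm))

theorem cmove_edge [ContinuousConstSMul G Y] (f : X → G) (e : X → C(I, Y)) (b : X × Bool)
    (c : C(I, Y)) {v : Y} (h0 : c 0 = v) (h1 : c 1 = val f [b] • v) :
    ∃ e' : X → C(I, Y), (∀ y, y ≠ b.1 → e' y = e y) ∧ (∀ t, dart f e' b t = c t) ∧
      e' b.1 0 = v ∧ e' b.1 1 = f b.1 • v ∧ ∃ (δ : G) (ρ : I → I), Function.Injective ρ ∧
        (∀ s, s ≠ 0 → s ≠ 1 → ρ s ≠ 0 ∧ ρ s ≠ 1) ∧ ∀ t, e' b.1 t = δ • c (ρ t) := by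
  rcases b with ⟨y, _ | _⟩
  · refine ⟨Function.update e y ⟨fun t => f y • c (σ t), by fun_prop⟩,
      fun _ h => Function.update_of_ne h _ _, fun t => by simp [dart], by simp [h1, val_false],
      by simp [h0], f y, σ, symm_bijective.1, fun s s0 s1 => ⟨fun h => s1 (symm_eq_zero.1 h),
        fun h => s0 (symm_eq_one.1 h)⟩, fun t => by simp⟩
  · exact ⟨Function.update e y c, fun _ h => Function.update_of_ne h _ _, fun t => by simp [dart],
      by simp [h0], by simp [h1, val_true], 1, id, fun _ _ h => h, fun _ s0 s1 => ⟨s0, s1⟩,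
      fun t => by simp⟩

theorem cmove_val_self (a b : X × Bool) (f : X → G) :
    val (fMove a b f) [b] = val f [a] * val f [b] := by
  rw [val, lift_fMove, fgMove_self, map_mul]
  rfl

theorem cmove_val_fix (a : X × Bool) {b : X × Bool} (f : X → G) {l : List (X × Bool)}
    (h : ∀ d ∈ l, d.1 ≠ b.1) : val (fMove a b f) l = val f l := by
  rw [val, lift_fMove, fgMove_fix a h]
  rfl

theorem cmove_fix (a : X × Bool) {b : X × Bool} (f : X → G) {y : X} (h : y ≠ b.1) :
    fMove a b f y = f y := by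
  rw [← val_true (fMove a b f), cmove_val_fix a f (by simpa using h), val_true]

omit [DecidableEq X] in
theorem cmove_ne {b d : X × Bool} (h : d ≠ b) (h' : d ≠ dinv b) : d.1 ≠ b.1 := by
  rcases b with ⟨y, _ | _⟩ <;> rcases d with ⟨z, _ | _⟩ <;> simpa [dinv] using And.intro h h'

/-- Interior points of the two pieces and points of the open diagonal. -/
theorem Split.cmove_cases {M : ℕ} {T B : C(Disc, Disc)} (S : Split M T B) (hM : 2 ≤ M) {z : Disc}
    (hz : ‖(z : ℂ)‖ < 1) : (∃ u : Disc, ‖(u : ℂ)‖ < 1 ∧ T u = z) ∨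
      (∃ u : Disc, ‖(u : ℂ)‖ < 1 ∧ B u = z) ∨ ∃ t : I, t ≠ 0 ∧ t ≠ 1 ∧ B (bd M t) = z := by
  have hM' : (2 : ℝ) ≤ M := by exact_mod_cast hM
  have key : ∀ t ∈ Ioo (0 : ℝ) 1, B (bd M t) = z → ∃ t : I, t ≠ 0 ∧ t ≠ 1 ∧ B (bd M t) = z :=
    fun t ht e => ⟨⟨t, Ioo_subset_Icc_self ht⟩, fun h => ht.1.ne' (congrArg Subtype.val h),
      fun h => ht.2.ne (congrArg Subtype.val h), e⟩
  rcases S.cover z with ⟨u, rfl⟩ | ⟨u, rfl⟩
  · rcases (norm_le u).eq_or_lt with h | h
    · obtain ⟨t, t0, t1, rfl⟩ := exists_bd (N := 3) three_ne_zero 0 h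
      have t2 : 2 < t := not_le.1 fun t2 => hz.ne (by rw [S.sT t ⟨t0, t2⟩, norm_bd])
      have t3 : t < 3 := by simpa using t1
      refine .inr (.inr (key (3 - t) ⟨by linarith, by linarith⟩ ?_))
      rw [S.diag _ ⟨by linarith, by linarith⟩, sub_sub_cancel]
    · exact .inl ⟨u, h, rfl⟩
  · rcases (norm_le u).eq_or_lt with h | h
    · obtain ⟨t, t0, t1, rfl⟩ := exists_bd (N := M) (by omega) 1 h
      have t2 : M < t := not_le.1 fun t2 => hz.ne (by rw [S.sB t ⟨t0, t2⟩, norm_bd])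
      refine .inr (.inr (key (t - M) ⟨by linarith, by linarith⟩ ?_))
      rw [← bd_add_self (by omega) (t - M), sub_add_cancel]
    · exact .inr (.inl ⟨u, h, rfl⟩)

theorem GeoMark.move [T2Space Y] [ContinuousConstSMul G Y] [IsCancelSMul G Y]
    {a b : X × Bool} {r1 r2 : List (X × Bool)} {f : X → G}
    (hQ : GoodQ (a :: b :: (r1 ++ dinv b :: r2)))
    (h : GeoMark Y (a :: b :: (r1 ++ dinv b :: r2)) f) :
    GeoMark Y (b :: (r1 ++ dinv b :: a :: r2)) (fMove a b f) := by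
  obtain ⟨D⟩ := h
  obtain ⟨M, hM⟩ : ∃ M, M = r1.length + r2.length + 2 := ⟨_, rfl⟩
  obtain ⟨j, hj⟩ : ∃ j : ℝ, j = r1.length + 1 := ⟨_, rfl⟩
  have hM2 : 2 ≤ M := by omega
  have hM0 : M ≠ 0 := by omega
  have hMj : (M : ℝ) = j + r2.length + 1 := by
    rw [hM, hj]
    push_cast
    ring
  have n1 : (0 : ℝ) ≤ r1.length := Nat.cast_nonneg _
  have n2 : (0 : ℝ) ≤ r2.length := Nat.cast_nonneg _
  have hN : (a :: b :: (r1 ++ dinv b :: r2)).length = M + 1 := by
    simp only [List.length_cons, List.length_append]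
    omega
  have hN' : (b :: (r1 ++ dinv b :: a :: r2)).length = M + 1 := by
    simp only [List.length_cons, List.length_append]
    omega
  obtain ⟨T, B, S⟩ := exists_split hM2
  have side : ∀ l d r, a :: b :: (r1 ++ dinv b :: r2) = l ++ d :: r → ∀ (t : I) (s : ℝ),
      s = l.length + t → D.φ (bd (M + 1) s) = val f l • dart f D.e d t := by
    rintro l d r e t _ rfl
    rw [← hN]
    exact D.side l d r e t
  have nd := hQ.1
  simp only [List.nodup_cons, List.nodup_middle, List.mem_cons, List.mem_append, not_or] at nd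
  have ha : a.1 ≠ b.1 := cmove_ne nd.1.1 nd.1.2.2.1
  have h1 : ∀ d ∈ r1, d.1 ≠ b.1 := fun d hd =>
    cmove_ne (fun e => nd.2.1.1 (e ▸ hd)) fun e => nd.2.2.1.1 (e ▸ hd)
  have h2 : ∀ d ∈ r2, d.1 ≠ b.1 := fun d hd =>
    cmove_ne (fun e => nd.2.1.2.2 (e ▸ hd)) fun e => nd.2.2.1.2 (e ▸ hd)
  obtain ⟨γ, hγ⟩ : ∃ γ, γ = val f (a :: b :: r1) * (val f [a] * val f [b])⁻¹ := ⟨_, rfl⟩
  -- the old sides `b` and `dinv b`
  have sb : ∀ t : I, T (bd 3 (2 - t)) = bd (M + 1) (2 - t) := fun t =>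
    S.sT _ ⟨by linarith [t.2.2], by linarith [t.2.1]⟩
  have sb' : ∀ t : I, B (bd M (j + t)) = bd (M + 1) (j + t + 1) := fun t =>
    S.sB _ ⟨by linarith [t.2.1], by linarith [t.2.2]⟩
  have rb : ∀ t : ℝ, rotD 3 2 (bd 3 (3 - t)) = bd 3 (2 - t) := fun t => by
    rw [rotD_bd, ← bd_add_self three_ne_zero (2 - t)]
    congr 1
    push_cast
    ring
  have glue : ∀ u u', T u = B u' → γ • D.φ (T (rotD 3 2 u)) = D.φ (B (rotD M j u')) := by
    intro u u' e
    obtain ⟨t, ht, rfl, rfl⟩ := S.inter u u' e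
    rw [rb, rotD_bd, sb ⟨t, ht⟩, sb' ⟨t, ht⟩, side [a] b _ rfl (σ ⟨t, ht⟩) _ (by simp; ring),
      side (a :: b :: r1) (dinv b) r2 rfl ⟨t, ht⟩ _ (by simp [hj]; ring), dart_dinv, smul_smul,
      smul_smul, hγ]
    congr 1
    group
  have q1 : Continuous (Sum.elim T B) := T.continuous.sumElim B.continuous
  obtain ⟨ψ, hψ⟩ := exists_quot (q := Sum.elim T B)
    (q1.isClosedMap.isQuotientMap q1 fun z =>
      (S.cover z).elim (fun ⟨u, e⟩ => ⟨.inl u, e⟩) fun ⟨u, e⟩ => ⟨.inr u, e⟩)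
    (u := Sum.elim (fun u => γ • D.φ (T (rotD 3 2 u))) fun u => D.φ (B (rotD M j u)))
    (Continuous.sumElim (by fun_prop) (by fun_prop)) (by
      rintro (u | u) (u' | u') e
      · rw [S.iT e]
      · exact glue _ _ e
      · exact (glue _ _ e.symm).symm
      · rw [S.iB e])
  have pT : ∀ u, ψ (T u) = γ • D.φ (T (rotD 3 2 u)) := fun u => hψ (.inl u)
  have pB : ∀ u, ψ (B u) = D.φ (B (rotD M j u)) := fun u => hψ (.inr u)
  -- the new edge
  let c : C(I, Y) := ⟨fun t => D.φ (B (bd M t)), by have := continuous_bd M; fun_prop⟩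
  have c0 : c 0 = D.v := by
    change D.φ (B (bd M 0)) = _
    rw [S.diag 0 ⟨le_rfl, zero_le_one⟩, sub_zero, show bd 3 3 = bd 3 0 by
      simpa using bd_add_self three_ne_zero 0, S.sT 0 ⟨le_rfl, zero_le_two⟩,
      side [] a _ rfl 0 0 (by simp), val_nil, one_smul, D.dart_zero]
  have c1 : c 1 = val (fMove a b f) [b] • D.v := by
    change D.φ (B (bd M 1)) = _
    rw [S.sB 1 ⟨le_rfl, by linarith⟩, side [a] b _ rfl 1 _ (by simp), D.dart_one, smul_smul,
      cmove_val_self]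
  obtain ⟨e', e1, e2, e3, e4, δ, ρ, e5, e6, e7⟩ := cmove_edge (fMove a b f) D.e b c c0 c1
  have dd : ∀ d : X × Bool, d.1 ≠ b.1 → dart (fMove a b f) e' d = dart f D.e d := fun d hd => by
    funext t
    rw [dart, dart, e1 _ hd, cmove_fix a f hd]
  have cl : ∀ t : I, t ≠ 0 → t ≠ 1 → ‖(B (bd M t) : ℂ)‖ < 1 := fun t t0 t1 =>
    S.ltD t ⟨lt_of_le_of_ne t.2.1 fun e => t0 (Subtype.ext e.symm),
      lt_of_le_of_ne t.2.2 fun e => t1 (Subtype.ext e)⟩
  have k1 : ∀ (g : G) (s t : I), s ≠ 0 → s ≠ 1 → g • c s = c t → s = t := fun g s t s0 s1 e =>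
    Subtype.ext (bd_inj hM0 (S.iB (D.inner g _ _ (cl s s0 s1) e))
      (by linarith [s.2.2, t.2.1]) (by linarith [s.2.1, t.2.2]))
  have k2 : ∀ (g : G) (s t : I) y, s ≠ 0 → s ≠ 1 → g • c s ≠ D.e y t := by
    intro g s t y s0 s1 e
    obtain ⟨l, r, e0⟩ := List.append_of_mem (hQ.2.1 (y, true))
    have e1 := side l _ r e0 t _ rfl
    rw [show dart f D.e (y, true) t = D.e y t from rfl, ← e, smul_smul] at e1
    exact (cl s s0 s1).ne (by rw [D.inner _ _ _ (cl s s0 s1) e1.symm, norm_bd])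
  have k3 : ∀ (g : G) (s t : I) y, s ≠ 0 → s ≠ 1 → g • D.e y s ≠ c t := by
    intro g s t y s0 s1 e
    by_cases t0 : t = 0
    · rw [t0, c0, ← D.e_zero y] at e
      exact s0 (D.edge _ _ _ _ _ s0 s1 e).2
    by_cases t1 : t = 1
    · rw [t1, c1, ← inv_smul_eq_iff, smul_smul, ← D.e_zero y] at e
      exact s0 (D.edge _ _ _ _ _ s0 s1 e).2
    exact k2 g⁻¹ t s y t0 t1 (inv_smul_eq_iff.2 e.symm)
  -- the values on the new boundary
  have f1 : ∀ s, 0 ≤ s → s ≤ j → ψ (rotD (M + 1) (-j) (bd (M + 1) s)) = D.φ (B (bd M s)) := by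
    intro s s0 s1
    rw [rotD_bd, ← bd_add_self (Nat.succ_ne_zero M), show -j + s + (M + 1 : ℕ) = s - j + M + 1 by
      push_cast; ring, ← S.sB _ ⟨by linarith, by linarith⟩, pB, rotD_bd,
      show j + (s - j + M) = s + M by ring, bd_add_self hM0]
  have f2 : ∀ s, 0 ≤ s → s ≤ 2 →
      ψ (rotD (M + 1) (-j) (bd (M + 1) (j + s))) = γ • D.φ (T (bd 3 (2 + s))) := by
    intro s s0 s1
    rw [rotD_bd, neg_add_cancel_left, ← S.sT _ ⟨s0, s1⟩, pT, rotD_bd]
  have f3 : ∀ s, j + 2 ≤ s → s ≤ M + 1 →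
      ψ (rotD (M + 1) (-j) (bd (M + 1) s)) = D.φ (bd (M + 1) s) := by
    intro s s0 s1
    rw [rotD_bd, show -j + s = s - j - 1 + 1 by ring, ← S.sB _ ⟨by linarith, by linarith⟩, pB,
      rotD_bd, S.sB _ ⟨by linarith, by linarith⟩, show j + (s - j - 1) + 1 = s by ring]
  have vb : ∀ l : List (X × Bool), (∀ d ∈ l, d.1 ≠ b.1) →
      val (fMove a b f) (b :: l) = val f (a :: b :: l) := fun l hl => by
    rw [val_cons, cmove_val_self, cmove_val_fix a f hl, val_cons f a (b :: l), val_cons f b l,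
      mul_assoc]
  have vγ : val (fMove a b f) (b :: (r1 ++ [dinv b])) = γ := by
    rw [← List.cons_append, val_append, vb _ h1, val_dinv, cmove_val_self, hγ]
  have inn : ∀ (g : G) (z z' : Disc), ‖(z : ℂ)‖ < 1 → g • ψ z = ψ z' → z = z' := by
    intro g z z' hz e
    rcases S.cmove_cases hM2 hz with ⟨u, hu, rfl⟩ | ⟨u, hu, rfl⟩ | ⟨t, t0, t1, rfl⟩
    · rw [← norm_rotD 3 2] at hu
      rcases S.cover z' with ⟨u', rfl⟩ | ⟨u', rfl⟩
      · rw [pT, pT, ← inv_smul_eq_iff, smul_smul, smul_smul] at e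
        rw [(rotD_bijective 3 2).1 (S.iT (D.inner _ _ _ (S.ltT _ hu) e))]
      · rw [pT, pB, smul_smul] at e
        obtain ⟨t, -, e1, -⟩ := S.inter _ _ (D.inner _ _ _ (S.ltT _ hu) e)
        exact absurd (by rw [e1, norm_bd]) hu.ne
    · rw [← norm_rotD M j] at hu
      rcases S.cover z' with ⟨u', rfl⟩ | ⟨u', rfl⟩
      · rw [pT, pB, ← inv_smul_eq_iff, smul_smul] at e
        obtain ⟨t, -, -, e1⟩ := S.inter _ _ (D.inner _ _ _ (S.ltB _ hu) e).symm
        exact absurd (by rw [e1, norm_bd]) hu.ne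
      · rw [pB, pB] at e
        rw [(rotD_bijective M j).1 (S.iB (D.inner _ _ _ (S.ltB _ hu) e))]
    · have p0 : (0 : ℝ) < t := lt_of_le_of_ne t.2.1 fun e => t0 (Subtype.ext e.symm)
      have p1 : (t : ℝ) < 1 := lt_of_le_of_ne t.2.2 fun e => t1 (Subtype.ext e)
      have key : ∀ (g : G) w, g • ψ (B (bd M t)) = D.φ w →
          w = B (bd M (j + t)) ∨ w = T (bd 3 (2 - t)) := by
        intro g w e
        rw [pB, rotD_bd, sb'] at e
        have g1 : ((a :: b :: r1).length : ℝ) + t = j + t + 1 := by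
          simp only [hj, List.length_cons]
          push_cast
          ring
        have g2 : ([a].length : ℝ) + σ t = 2 - t := by
          simp only [List.length_singleton, coe_symm_eq]
          push_cast
          ring
        have := cmove_pair (γ := g) (w := w) D hQ.1 (l := a :: b :: r1) (l' := [a]) rfl
          (by rw [dinv_dinv]; rfl) t0 t1 (by rw [← e, hN, g1])
        rwa [hN, g1, g2, ← sb, ← sb'] at this
      rcases S.cover z' with ⟨u', rfl⟩ | ⟨u', rfl⟩
      · rw [pT, ← inv_smul_eq_iff, smul_smul] at e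
        rcases key _ _ e with e1 | e1
        · obtain ⟨s, hs, -, e2⟩ := S.inter _ _ e1
          have := bd_inj hM0 e2 (by linarith [hs.1]) (by linarith [hs.2])
          linarith [hs.2]
        · rw [← rb] at e1
          rw [(rotD_bijective 3 2).1 (S.iT e1), S.diag _ t.2]
      · rw [pB u'] at e
        rcases key _ _ e with e1 | e1
        · rw [← rotD_bd] at e1
          rw [(rotD_bijective M j).1 (S.iB e1)]
        · obtain ⟨s, hs, e2, -⟩ := S.inter _ _ e1.symm
          have := bd_inj three_ne_zero e2 (by push_cast; linarith [hs.2])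
            (by push_cast; linarith [hs.1])
          linarith [hs.2]
  refine ⟨⟨D.v, e', ψ.comp (rotD (M + 1) (-j)), fun y => ?_, fun y => ?_, fun l d r e t => ?_,
    fun x => ?_, fun g z z' hz e => (rotD_bijective (M + 1) (-j)).1
      (inn g _ _ (by rwa [norm_rotD]) e), fun g y y' s t s0 s1 e => ?_⟩⟩
  · by_cases h : y = b.1
    · rw [h, e3]
    · rw [e1 y h, D.e_zero]
  · by_cases h : y = b.1
    · rw [h, e4]
    · rw [e1 y h, D.e_one, cmove_fix a f h]
  · have t0 := t.2.1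
    have t1 := t.2.2
    rw [hN', ContinuousMap.comp_apply]
    rcases l with _ | ⟨b', l⟩
    · obtain ⟨rfl, -⟩ := List.cons.inj e
      rw [List.length_nil, Nat.cast_zero, zero_add, f1 _ t0 (by linarith), val_nil, one_smul, e2]
      rfl
    obtain ⟨rfl, g0⟩ := List.cons.inj e
    clear e
    have sd : ψ (rotD (M + 1) (-j) (bd (M + 1) ((b :: r1).length + t))) =
        val (fMove a b f) (b :: r1) • dart (fMove a b f) e' (dinv b) t := by
      rw [List.length_cons, Nat.cast_succ, ← hj, f2 _ t0 (by linarith), dart_dinv, e2, smul_smul,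
        vb _ h1, cmove_val_self, ← hγ, show (2 + t : ℝ) = 3 - σ t by rw [coe_symm_eq]; ring,
        ← S.diag _ (σ t).2]
      rfl
    rcases List.append_eq_append_iff.1 g0 with
      ⟨_ | ⟨_, _ | ⟨_, l'⟩⟩, rfl, e⟩ | ⟨_ | ⟨_, r'⟩, rfl, e⟩
    · obtain ⟨rfl, -⟩ := List.cons.inj e
      rw [List.append_nil, sd]
    · obtain ⟨rfl, g1⟩ := List.cons.inj e
      obtain ⟨rfl, -⟩ := List.cons.inj g1
      rw [show ((b :: (r1 ++ [dinv b])).length + t : ℝ) = j + (1 + t) by simp [hj]; ring,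
        f2 _ (by linarith) (by linarith), vγ, dd a ha, show (2 + (1 + t) : ℝ) = t + (3 : ℕ) by
          push_cast; ring, bd_add_self three_ne_zero, S.sT _ ⟨t0, by linarith⟩,
        side [] a _ rfl t _ (by simp), val_nil, one_smul]
    · obtain ⟨rfl, g1⟩ := List.cons.inj e
      obtain ⟨rfl, rfl⟩ := List.cons.inj g1
      have n3 : (0 : ℝ) ≤ l'.length := Nat.cast_nonneg _
      have n4 : (0 : ℝ) ≤ r.length := Nat.cast_nonneg _
      have g : ((b :: (r1 ++ dinv b :: a :: l')).length : ℝ) = j + 2 + l'.length := by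
        simp [hj]
        ring
      simp only [List.append_eq, List.length_append, List.length_cons, Nat.cast_add,
        Nat.cast_one] at hMj
      rw [g, f3 _ (by linarith) (by linarith),
        side (a :: b :: (r1 ++ dinv b :: l')) d r (by simp) t _ (by simp [hj]; ring),
        dd d (h2 d (by simp)),
        show b :: (r1 ++ dinv b :: a :: l') = b :: (r1 ++ [dinv b]) ++ a :: l' by simp,
        val_append, vγ, cmove_val_fix a f (l := a :: l') (List.forall_mem_cons.2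
          ⟨ha, fun d hd => h2 d (by simp [hd])⟩), hγ,
        show a :: b :: (r1 ++ dinv b :: l') = a :: b :: r1 ++ dinv b :: l' from rfl, val_append,
        val_cons f a l', val_cons f (dinv b) l', val_dinv]
      congr 1
      group
    · obtain ⟨rfl, -⟩ := List.cons.inj e
      rw [List.append_nil] at sd
      exact sd
    · obtain ⟨rfl, rfl⟩ := List.cons.inj e
      have n3 : (0 : ℝ) ≤ l.length := Nat.cast_nonneg _
      have n4 : (0 : ℝ) ≤ r'.length := Nat.cast_nonneg _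
      simp only [List.length_append, List.length_cons, Nat.cast_add, Nat.cast_one] at hj
      rw [List.length_cons, Nat.cast_succ, f1 _ (by linarith) (by linarith),
        S.sB _ ⟨by linarith, by linarith⟩,
        side (a :: b :: l) d (r' ++ dinv b :: r2) (by simp) t _ (by simp; ring),
        dd d (h1 d (by simp)), vb l fun d hd => h1 d (by simp [hd])]
  · obtain ⟨g, z, rfl⟩ := D.cover x
    have sj := (rotD_bijective (M + 1) (-j)).2
    rcases S.cover z with ⟨u, rfl⟩ | ⟨u, rfl⟩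
    · obtain ⟨u, rfl⟩ := (rotD_bijective 3 2).2 u
      obtain ⟨w, hw⟩ := sj (T u)
      exact ⟨g * γ⁻¹, w, by rw [ContinuousMap.comp_apply, hw, pT, smul_smul, inv_mul_cancel_right]⟩
    · obtain ⟨u, rfl⟩ := (rotD_bijective M j).2 u
      obtain ⟨w, hw⟩ := sj (B u)
      exact ⟨g, w, by rw [ContinuousMap.comp_apply, hw, pB]⟩
  · by_cases h : y = b.1 <;> by_cases h' : y' = b.1
    · rw [h, h', e7, e7, ← inv_smul_eq_iff, smul_smul, smul_smul] at e
      exact ⟨h.trans h'.symm, e5 (k1 _ _ _ (e6 s s0 s1).1 (e6 s s0 s1).2 e)⟩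
    · rw [h, e7, e1 _ h', smul_smul] at e
      exact absurd e (k2 _ _ _ _ (e6 s s0 s1).1 (e6 s s0 s1).2)
    · rw [h', e7, e1 _ h, ← inv_smul_eq_iff, smul_smul] at e
      exact absurd e (k3 _ _ _ _ s0 s1)
    · rw [e1 _ h, e1 _ h'] at e
      exact D.edge _ _ _ _ _ s0 s1 e

end Pool.Agent.Lib.MP_66609f_al.DN
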