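import Pool.Agent.Lib.MP_66609f_al.DN.CBd
import Pool.Agent.Lib.MP_66609f_al.DN.Lift

/-! Two polygons with the same word give an equivariant homeomorphism. -/

namespace Pool.Agent.Lib.MP_66609f_al.DN

open Set unitInterval Topology

/-- The boundary conditions of a polygon with word `Q`. -/
structure Poly {X G Y : Type} [Group G] [TopologicalSpace Y] [MulAction G Y]
    (Q : List (X × Bool)) (f : X → G) (v : Y) (e : X → C(I, Y)) (φ : Disc → Y) : Prop where
  e_zero : ∀ y, e y 0 = v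
  e_one : ∀ y, e y 1 = f y • v
  side : ∀ l d r, Q = l ++ d :: r → ∀ t : I,
    φ (bd Q.length (l.length + t)) = val f l • dart f e d t

variable {X G Y : Type} [Group G] [TopologicalSpace Y] [MulAction G Y]
  {Q : List (X × Bool)} {f : X → G}

theorem GeoData.poly (D : GeoData Y Q f) : Poly Q f D.v D.e D.φ := ⟨D.e_zero, D.e_one, D.side⟩

/-- The normal form of a boundary point, the same for all polygons with word `Q`. -/
theorem exists_nf (hQ : Q ≠ []) {z : Disc} (hz : ‖(z : ℂ)‖ = 1) :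
    ∃ (w : List (X × Bool)) (y : X) (s : I), s ≠ 1 ∧ ∀ (G' Y' : Type) [Group G']
      [TopologicalSpace Y'] [MulAction G' Y'] (f' : X → G') (v : Y') (e : X → C(I, Y'))
      (φ : Disc → Y'), Poly Q f' v e φ → φ z = val f' w • e y s := by
  obtain ⟨u, h0, h1, rfl⟩ := exists_bd (List.length_pos_iff.2 hQ).ne' 0 hz
  have hk : ⌊u⌋₊ < Q.length := (Nat.floor_lt h0).2 (by simpa using h1)
  have h2 := Nat.floor_le h0
  have h3 := Nat.lt_floor_add_one u
  obtain ⟨t, ht, e⟩ : ∃ t : I, t ≠ 1 ∧ u = (Q.take ⌊u⌋₊).length + t :=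
    ⟨⟨u - ⌊u⌋₊, by linarith, by linarith⟩, fun h => by
      have := congrArg Subtype.val h
      simp only [Icc.coe_one] at this
      linarith, by simp [hk.le]⟩
  have hs : Q = Q.take ⌊u⌋₊ ++ Q[⌊u⌋₊] :: Q.drop (⌊u⌋₊ + 1) := by simp
  generalize Q.take ⌊u⌋₊ = l, Q[⌊u⌋₊] = d, Q.drop (⌊u⌋₊ + 1) = r at hs e
  subst e
  rcases d with ⟨y, _ | _⟩
  · by_cases h : t = 0
    · refine ⟨l, y, 0, zero_ne_one, fun G' Y' _ _ _ f' v e φ P => ?_⟩
      rw [P.side _ _ _ hs, h]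
      simp [dart, P.e_one, P.e_zero]
    · refine ⟨l ++ [(y, false)], y, σ t, fun e => h (symm_eq_one.1 e),
        fun G' Y' _ _ _ f' v e φ P => ?_⟩
      rw [P.side _ _ _ hs, val_append, val_false, mul_smul]
      rfl
  · exact ⟨l, y, t, ht, fun G' Y' _ _ _ f' v e φ P => P.side _ _ _ hs t⟩

theorem creal_val {G' : Type} [Group G'] (θ : G →* G') (w : List (X × Bool)) :
    val (fun y => θ (f y)) w = θ (val f w) :=
  DFunLike.congr_fun (FreeGroup.ext_hom (FreeGroup.lift _) (θ.comp (FreeGroup.lift f))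
    fun y => by simp) _

/-- A relation between points of the polygon holds for every polygon with the same word. -/
theorem GeoData.rel [IsCancelSMul G Y] (D : GeoData Y Q f) (hQ : Q ≠ []) {G' Y' : Type}
    [Group G'] [TopologicalSpace Y'] [MulAction G' Y'] (θ : G →* G') {v : Y'} {e : X → C(I, Y')}
    {φ : Disc → Y'} (h : Poly Q (fun y => θ (f y)) v e φ) {c c' : G} {z z' : Disc}
    (hz : c • D.φ z = c' • D.φ z') : θ c • φ z = θ c' • φ z' := by
  by_cases hzz : z = z'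
  · subst hzz
    rw [IsCancelSMul.right_cancel _ _ _ hz]
  have h1 := (norm_le z).eq_or_lt.resolve_right fun h => hzz (D.inner (c'⁻¹ * c) z z' h (by
    rw [mul_smul, hz, inv_smul_smul]))
  have h2 := (norm_le z').eq_or_lt.resolve_right fun h => hzz (D.inner (c⁻¹ * c') z' z h (by
    rw [mul_smul, ← hz, inv_smul_smul])).symm
  obtain ⟨w, y, s, hs, H⟩ := exists_nf hQ h1
  obtain ⟨w', y', s', hs', H'⟩ := exists_nf hQ h2
  rw [H _ _ _ _ _ _ D.poly, H' _ _ _ _ _ _ D.poly, smul_smul, smul_smul] at hz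
  rw [H _ _ _ _ _ _ h, H' _ _ _ _ _ _ h, creal_val, creal_val, smul_smul, smul_smul, ← map_mul,
    ← map_mul]
  generalize c * val f w = a, c' * val f w' = a' at hz ⊢
  have key : D.e y s = D.e y' s' ∧ e y s = e y' s' := by
    by_cases h0 : s = 0
    · by_cases h0' : s' = 0
      · simp [h0, h0', D.e_zero, h.e_zero]
      obtain ⟨rfl, rfl⟩ := D.edge (a⁻¹ * a') y' y s' s h0' hs' (by rw [mul_smul, ← hz, inv_smul_smul])
      exact ⟨rfl, rfl⟩
    obtain ⟨rfl, rfl⟩ := D.edge (a'⁻¹ * a) y y' s s' h0 hs (by rw [mul_smul, hz, inv_smul_smul])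
    exact ⟨rfl, rfl⟩
  rw [key.1] at hz
  rw [key.2, IsCancelSMul.right_cancel _ _ _ hz]

/-- The translates of the polygon form a locally finite closed cover. -/
theorem GeoData.isQuotientMap [T2Space Y] [LocallyCompactSpace Y] [ContinuousConstSMul G Y]
    [ProperlyDiscontinuousSMul G Y] (D : GeoData Y Q f) :
    IsQuotientMap fun u : (_ : G) × Disc => u.1 • D.φ u.2 := by
  have hc : ∀ γ : G, Continuous fun z => γ • D.φ z := fun γ => by fun_prop
  refine IsClosedMap.isQuotientMap (fun C hC => ?_) (continuous_sigma hc) fun x =>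
    let ⟨γ, z, h⟩ := D.cover x
    ⟨⟨γ, z⟩, h.symm⟩
  have e : (fun u : (_ : G) × Disc => u.1 • D.φ u.2) '' C =
      ⋃ γ : G, (fun z => γ • D.φ z) '' ((fun z => ⟨γ, z⟩) ⁻¹' C) :=
    Set.ext fun x => ⟨fun ⟨u, hu, e⟩ => mem_iUnion.2 ⟨u.1, u.2, hu, e⟩,
      fun h => let ⟨γ, z, hz, e⟩ := mem_iUnion.1 h; ⟨⟨γ, z⟩, hz, e⟩⟩
  rw [e]
  refine LocallyFinite.isClosed_iUnion (fun x => ?_) fun γ =>
    (hc γ).isClosedMap _ (hC.preimage continuous_sigmaMk)
  obtain ⟨K, hK, hx⟩ := exists_compact_mem_nhds x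
  exact ⟨K, hx, (ProperlyDiscontinuousSMul.finite_disjoint_inter_image
    (isCompact_range D.φ.continuous) hK).subset
    fun γ ⟨y, ⟨z, _, e⟩, hy⟩ => ⟨y, ⟨_, ⟨z, rfl⟩, e⟩, hy⟩⟩

theorem GeoMark.exists_homeo [T2Space Y] [LocallyCompactSpace Y] [ContinuousConstSMul G Y]
    [ProperlyDiscontinuousSMul G Y] [IsCancelSMul G Y] (hQ : Q ≠ []) (θ : MulAut G)
    (h : GeoMark Y Q f) (h' : GeoMark Y Q fun y => θ (f y)) :
    ∃ F : Y ≃ₜ Y, ∀ (c : G) x, F (c • x) = θ c • F x := by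
  have key : ∀ (θ : MulAut G) {f f' : X → G} (D : GeoData Y Q f) (D' : GeoData Y Q f'),
      (f' = fun y => θ (f y)) → ∃ F : C(Y, Y), ∀ (c : G) z, F (c • D.φ z) = θ c • D'.φ z := by
    rintro θ f _ D D' rfl
    obtain ⟨F, hF⟩ := exists_quot D.isQuotientMap (u := fun u => θ u.1 • D'.φ u.2)
      (continuous_sigma fun γ => D'.φ.continuous.const_smul (θ γ))
      fun a b e => D.rel hQ (θ : G →* G) D'.poly e
    exact ⟨F, fun c z => hF ⟨c, z⟩⟩
  obtain ⟨D⟩ := h
  obtain ⟨D'⟩ := h'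
  obtain ⟨F, hF⟩ := key θ D D' rfl
  obtain ⟨F', hF'⟩ := key θ⁻¹ D' D (by simp)
  refine ⟨⟨⟨F, F', fun x => ?_, fun x => ?_⟩, F.continuous, F'.continuous⟩, fun c x => ?_⟩
  · obtain ⟨γ, z, rfl⟩ := D.cover x
    simp [hF, hF']
  · obtain ⟨γ, z, rfl⟩ := D'.cover x
    simp [hF, hF']
  · obtain ⟨γ, z, rfl⟩ := D.cover x
    change F _ = _ • F _
    rw [smul_smul, hF, hF, map_mul, mul_smul]

end Pool.Agent.Lib.MP_66609f_al.DN
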