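import Pool.Agent.Lib.MP_66609f_al.DN.CBd
import Pool.Agent.Lib.MP_66609f_al.Sch.SCut

/-! Cutting a triangle off a polygon. -/

namespace Pool.Agent.Lib.MP_66609f_al.DN

open Set unitInterval

/-- The `(M+1)`-gon is the union of a triangle `T` (sides `0`, `1` and a diagonal) and an `M`-gon
`B` whose side `0` is the diagonal. -/
structure Split (M : ℕ) (T B : C(Disc, Disc)) : Prop where
  iT : Function.Injective T
  iB : Function.Injective B
  sT : ∀ t ∈ Icc (0 : ℝ) 2, T (bd 3 t) = bd (M + 1) t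
  sB : ∀ t ∈ Icc (1 : ℝ) M, B (bd M t) = bd (M + 1) (t + 1)
  diag : ∀ t ∈ Icc (0 : ℝ) 1, B (bd M t) = T (bd 3 (3 - t))
  cover : ∀ z, (∃ u, T u = z) ∨ ∃ u, B u = z
  inter : ∀ u u', T u = B u' → ∃ t ∈ Icc (0 : ℝ) 1, u = bd 3 (3 - t) ∧ u' = bd M t
  ltT : ∀ u : Disc, ‖(u : ℂ)‖ < 1 → ‖(T u : ℂ)‖ < 1
  ltB : ∀ u : Disc, ‖(u : ℂ)‖ < 1 → ‖(B u : ℂ)‖ < 1
  ltD : ∀ t ∈ Ioo (0 : ℝ) 1, ‖(B (bd M t) : ℂ)‖ < 1

theorem csplit_arcs {N : ℕ} {c : ℝ} (h0 : 0 < c) (h1 : c < N) :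
    Sch.Arcs (fun t : I => (bd N (c * t) : ℂ)) fun t : I => (bd N (N - (N - c) * t) : ℂ) := by
  have hN : N ≠ 0 := Nat.cast_ne_zero.1 (h0.trans h1).ne'
  have h2 : 0 < N - c := sub_pos.2 h1
  have hc := continuous_bd N
  have b1 : ∀ t : I, 0 ≤ c * t ∧ c * t ≤ c := fun t =>
    ⟨mul_nonneg h0.le t.2.1, mul_le_of_le_one_right h0.le t.2.2⟩
  have b2 : ∀ t : I, 0 ≤ (N - c) * t ∧ (N - c) * t ≤ N - c := fun t =>
    ⟨mul_nonneg h2.le t.2.1, mul_le_of_le_one_right h2.le t.2.2⟩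
  refine ⟨⟨by fun_prop, by fun_prop, fun s t e => ?_, fun s t e => ?_, ?_, ?_, fun s t e => ?_⟩,
    fun z => ⟨fun hz => ?_, ?_⟩⟩
  · have := bd_inj hN (Subtype.ext e) (by linarith [b1 s, b1 t]) (by linarith [b1 s, b1 t])
    exact Subtype.ext (mul_left_cancel₀ h0.ne' this)
  · have := bd_inj hN (Subtype.ext e) (by linarith [b2 s, b2 t]) (by linarith [b2 s, b2 t])
    exact Subtype.ext (mul_left_cancel₀ h2.ne' (by linarith))
  · simpa using congrArg Subtype.val (bd_add_self hN 0).symm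
  · simp
  · by_contra! H
    have s0 : 0 < c * s := mul_pos h0 (lt_of_le_of_ne s.2.1 fun e => H.1 (Subtype.ext e.symm))
    have s1 : c * s < c :=
      mul_lt_of_lt_one_right h0 (lt_of_le_of_ne s.2.2 fun e => H.2 (Subtype.ext e))
    have := bd_inj hN (Subtype.ext e) (by linarith [b2 t]) (by linarith [b2 t])
    linarith [b2 t]
  · obtain ⟨t, t0, t1, e⟩ := exists_bd hN 0 (z := ⟨z, mem_closedBall_zero_iff.2 hz.le⟩) hz
    replace e : z = bd N t := congrArg Subtype.val e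
    rcases le_total t c with h | h
    · refine .inl ⟨⟨t / c, div_nonneg t0 h0.le, (div_le_one h0).2 h⟩, ?_⟩
      simp only [mul_div_cancel₀ _ h0.ne', e]
    · refine .inr ⟨⟨(N - t) / (N - c), div_nonneg (by linarith) h2.le,
        (div_le_one h2).2 (by linarith)⟩, ?_⟩
      simp only [mul_div_cancel₀ _ h2.ne', e, sub_sub_cancel]
  · rintro (⟨t, rfl⟩ | ⟨t, rfl⟩) <;> exact norm_bd _ _

theorem csplit_half {α β k k' a : I → ℂ} {Φ : ℂ ≃ₜ ℂ} (h : Sch.Arcs α β) (f : Sch.Half k k' a Φ) :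
    ∃ T : C(Disc, Disc), Function.Injective T ∧ (∀ (u : Disc) t, (u : ℂ) = α t → (T u : ℂ) = k t) ∧
      (∀ (u : Disc) t, (u : ℂ) = β t → (T u : ℂ) = a t) ∧
      (∀ z : Disc, (∃ u, T u = z) ↔ ‖Φ.symm z‖ ≤ 1) ∧
      ∀ u : Disc, ‖(u : ℂ)‖ < 1 → ‖(T u : ℂ)‖ < 1 := by
  obtain ⟨Ψ, p1, p2⟩ := h.jor f.two
  have e : Ψ '' Metric.sphere 0 1 = Φ '' Metric.sphere 0 1 := Set.ext fun z => by
    rw [Sch.mem_image_sph, Sch.mem_image_sph, f.bd, h.circ]
    refine or_congr (exists_congr fun t => ?_) (exists_congr fun t => ?_)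
    · rw [← p1, Ψ.eq_symm_apply]
    · rw [← p2, Ψ.eq_symm_apply]
  have e' : ∀ z, ‖Ψ.symm z‖ ≤ 1 ↔ ‖Φ.symm z‖ ≤ 1 := fun z => by
    rw [← Sch.mem_image_cb, Sch.closed_unique e, Sch.mem_image_cb]
  refine ⟨⟨fun u => ⟨Ψ u, mem_closedBall_zero_iff.2 (f.le' ((e' _).1 (by simpa using norm_le u)))⟩,
    Continuous.subtype_mk (by fun_prop) _⟩,
    fun u v h => Subtype.ext (Ψ.injective (congrArg Subtype.val h)),
    fun u t h => (congrArg Ψ h).trans (p1 t), fun u t h => (congrArg Ψ h).trans (p2 t),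
    fun z => ⟨?_, fun hz => ⟨⟨Ψ.symm z, mem_closedBall_zero_iff.2 ((e' _).2 hz)⟩,
      Subtype.ext (Ψ.apply_symm_apply _)⟩⟩, fun u hu => ?_⟩
  · rintro ⟨u, rfl⟩
    exact (e' _).1 (by simpa using norm_le u)
  · exact Sch.in_ball (Φ := Ψ) (fun z hz => f.le' ((e' _).1 hz.le)) (by simpa using hu)

theorem exists_split {M : ℕ} (hM : 2 ≤ M) : ∃ T B, Split M T B := by
  have hM' : (2 : ℝ) ≤ M := by exact_mod_cast hM
  have k := csplit_arcs (N := M + 1) two_pos (by push_cast; linarith)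
  have hT := csplit_arcs (N := 3) two_pos (by norm_num)
  have hB := csplit_arcs (N := M) one_pos (by linarith)
  have hne : (bd (M + 1) (2 * (0 : I)) : ℂ) ≠ bd (M + 1) (2 * (1 : I)) := fun e =>
    zero_ne_one (k.ip e)
  let a : I → ℂ := fun t =>
    AffineMap.lineMap (bd (M + 1) (2 * (0 : I)) : ℂ) (bd (M + 1) (2 * (1 : I)) : ℂ) (t : ℝ)
  have a1 : Continuous a := AffineMap.lineMap_continuous.comp continuous_subtype_val
  have a2 : Function.Injective a :=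
    (AffineMap.lineMap_injective ℝ hne).comp Subtype.val_injective
  have a3 : ∀ t : I, t ≠ 0 → t ≠ 1 → ‖a t‖ < 1 := fun t h0 h1 => by
    have := norm_combo_lt_of_ne (norm_bd _ _).le (norm_bd _ _).le hne
      (sub_pos.2 (lt_of_le_of_ne t.2.2 fun e => h1 (Subtype.ext e)))
      (lt_of_le_of_ne t.2.1 fun e => h0 (Subtype.ext e.symm)) (sub_add_cancel _ _)
    simpa only [a, AffineMap.lineMap_apply_module] using this
  have a4 : a 0 = bd (M + 1) (2 * (0 : I)) := AffineMap.lineMap_apply_zero _ _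
  have a5 : a 1 = bd (M + 1) (2 * (1 : I)) := AffineMap.lineMap_apply_one _ _
  obtain ⟨Φ, f⟩ := Sch.exists_half k a1 a2 a4 a5 a3
  obtain ⟨Ψ, g⟩ := Sch.exists_half k.symm a1 a2 (a4.trans k.e0) (a5.trans k.e1) a3
  obtain ⟨T, t1, t2, t3, t4, t5⟩ := csplit_half hT f
  obtain ⟨B, b1, b2, b3, b4, b5⟩ := csplit_half hB.symm g
  have dT : ∀ t : I, (T (bd 3 (3 - t)) : ℂ) = a t := fun t => t3 _ t (by norm_num)
  have dB : ∀ t : I, (B (bd M t) : ℂ) = a t := fun t => b3 _ t (by simp)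
  refine ⟨T, B, t1, b1, fun t ht => Subtype.ext ?_, fun t ht => Subtype.ext ?_,
    fun t ht => Subtype.ext ((dB ⟨t, ht⟩).trans (dT ⟨t, ht⟩).symm), fun z => ?_, fun u u' e => ?_,
    t5, b5, fun t ht => ?_⟩
  · have := t2 (bd 3 t) ⟨t / 2, by linarith [ht.1], by linarith [ht.2]⟩
      (by simp only [mul_div_cancel₀ _ (two_ne_zero' ℝ)])
    simpa only [mul_div_cancel₀ _ (two_ne_zero' ℝ)] using this
  · have h1 : (0 : ℝ) < M - 1 := by linarith
    have := b2 (bd M t) ⟨(M - t) / (M - 1), div_nonneg (by linarith [ht.2]) h1.le,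
      (div_le_one h1).2 (by linarith [ht.1])⟩
      (by simp only [mul_div_cancel₀ _ h1.ne', sub_sub_cancel])
    rw [this]
    congr 2
    push_cast
    field_simp
    ring
  · rw [t4, b4]
    exact f.cover g (norm_le z)
  · obtain ⟨t, ht⟩ := f.inter g ((t4 _).1 ⟨u, rfl⟩) ((b4 _).1 ⟨u', e.symm⟩)
    exact ⟨t, t.2, t1 (Subtype.ext (ht.symm.trans (dT t).symm)),
      b1 (e.symm.trans (Subtype.ext (ht.symm.trans (dB t).symm)))⟩
  · rw [dB ⟨t, Ioo_subset_Icc_self ht⟩]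
    exact a3 _ (fun e => ht.1.ne' (congrArg Subtype.val e)) fun e => ht.2.ne (congrArg Subtype.val e)

end Pool.Agent.Lib.MP_66609f_al.DN
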