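import Pool.Agent.Lib.MP_66609f_al.DN.BPoly

/-! Fermi coordinates along a wall of the chamber. -/

namespace Pool.Agent.Lib.MP_66609f_al.DN

open Real

theorem lor_nl (z : KD) : lor (nl z) (nl z) = -1 := by
  have h := one_sub_sq_pos z
  rw [nl, lor_smul_left, lor_smul_right, lor_up, ← mul_assoc, ← mul_inv, mul_self_sqrt h.le]
  field_simp
  ring

theorem nl_pt {u : LV} (hu : Fut u) (h : lor u u = -1) : nl hu.pt = u := by
  have h1 := lor_up (hu.pt : ℂ)
  rw [Fut.coe_pt, up_pr hu.1.ne', lor_smul_left, lor_smul_right, h] at h1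
  have h2 : 1 - ‖pr u‖ ^ 2 = u.1⁻¹ ^ 2 := by linarith
  rw [nl, Fut.coe_pt, h2, sqrt_sq (inv_pos.2 hu.1).le, inv_inv, up_pr hu.1.ne', smul_smul,
    mul_inv_cancel₀ hu.1.ne', one_smul]

theorem nl_injective : Function.Injective nl := fun z z' h =>
  Subtype.ext (by rw [← pr_nl z, h, pr_nl])

theorem lor_nl_eq (z : KD) (e : LV) :
    lor (nl z) e = (√(1 - ‖(z : ℂ)‖ ^ 2))⁻¹ * lor (up z) e := by
  rw [nl, lor_smul_left]

theorem lor_nl_neg {z : KD} {e : LV} : lor (nl z) e < 0 ↔ lor (up z) e < 0 := by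
  rw [lor_nl_eq]
  exact ⟨fun h => neg_of_mul_neg_right h (nl_coef_pos z).le,
    fun h => mul_neg_of_pos_of_neg (nl_coef_pos z) h⟩

theorem lor_nl_zero {z : KD} {e : LV} : lor (nl z) e = 0 ↔ lor (up z) e = 0 := by
  rw [lor_nl_eq, mul_eq_zero, or_iff_right (nl_coef_pos z).ne']

/-- An orthonormal basis of Minkowski space. -/
structure Frm where
  p : LV
  v : LV
  m : LV
  fut : Fut p
  pp : lor p p = -1
  vv : lor v v = 1
  mm : lor m m = 1
  pv : lor p v = 0
  pm : lor p m = 0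
  vm : lor v m = 0

namespace Frm

variable (f : Frm)

theorem lor_p (a b c : ℝ) : lor (a • f.p + b • f.v + c • f.m) f.p = -a := by
  rw [lor_comb, f.pp, lor_comm f.v, f.pv, lor_comm f.m, f.pm]; ring

theorem lor_v (a b c : ℝ) : lor (a • f.p + b • f.v + c • f.m) f.v = b := by
  rw [lor_comb, f.pv, f.vv, lor_comm f.m, f.vm]; ring

theorem lor_m (a b c : ℝ) : lor (a • f.p + b • f.v + c • f.m) f.m = c := by
  rw [lor_comb, f.pm, f.vm, f.mm]; ring

theorem lor_lor (a b c a' b' c' : ℝ) :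
    lor (a • f.p + b • f.v + c • f.m) (a' • f.p + b' • f.v + c' • f.m) =
      -(a * a') + b * b' + c * c' := by
  rw [lor_comm, lor_comb, lor_comm f.p, lor_comm f.v, lor_comm f.m, f.lor_p, f.lor_v, f.lor_m]
  ring

theorem expand (x : LV) : x = (-lor x f.p) • f.p + lor x f.v • f.v + lor x f.m • f.m := by
  obtain ⟨a, b, c, rfl⟩ := exists_coords (a := f.p) (b := f.v) (c := f.m) (α := f.p) (β := f.v)
    (γ := f.m) f.pm f.vm (by rw [f.mm]; exact one_ne_zero) f.pv (by rw [f.vv]; exact one_ne_zero)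
    (by rw [f.pp]; norm_num) x
  rw [f.lor_p, f.lor_v, f.lor_m, neg_neg]

theorem fut_of {x : LV} (h : lor x x < 0) (h1 : lor x f.p < 0) : Fut x := by
  refine ⟨?_, h⟩
  rcases lt_trichotomy x.1 0 with h2 | h2 | h2
  · have h3 := f.fut.lor_neg (v := -x) (by simpa using h2)
      (by rw [lor_neg_left, lor_neg_right]; linarith)
    rw [lor_neg_right, lor_comm] at h3
    linarith
  · unfold lor at h
    rw [h2] at h
    nlinarith [sq_nonneg x.2.re, sq_nonneg x.2.im]
  · exact h2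

/-- The point of the hyperboloid with given coordinates. -/
noncomputable def vec (l : ℝ) (w : ℂ) : LV :=
  (√(1 + w.im ^ 2) * cosh (l * w.re)) • f.p + (√(1 + w.im ^ 2) * sinh (l * w.re)) • f.v +
    w.im • f.m

theorem vec_sq (l : ℝ) (w : ℂ) : lor (f.vec l w) (f.vec l w) = -1 := by
  have h : √(1 + w.im ^ 2) * √(1 + w.im ^ 2) = 1 + w.im ^ 2 := mul_self_sqrt (by positivity)
  rw [vec, f.lor_lor]
  linear_combination (-(cosh (l * w.re)) ^ 2 + sinh (l * w.re) ^ 2) * h -
    (1 + w.im ^ 2) * cosh_sq (l * w.re)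

theorem fut_vec (l : ℝ) (w : ℂ) : Fut (f.vec l w) :=
  f.fut_of (by rw [vec_sq]; norm_num) (by
    rw [vec, f.lor_p, neg_lt_zero]
    exact mul_pos (sqrt_pos.2 (by positivity)) (cosh_pos _))

/-- The coordinates of a point. -/
noncomputable def crd (l : ℝ) (z : KD) : ℂ :=
  ⟨arsinh (lor (nl z) f.v / √(1 + lor (nl z) f.m ^ 2)) / l, lor (nl z) f.m⟩

theorem vec_crd {l : ℝ} (hl : l ≠ 0) (z : KD) : f.vec l (f.crd l z) = nl z := by
  have h0 := f.expand (nl z)
  have h1 := lor_nl z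
  have h2 : 0 < -lor (nl z) f.p := by
    rw [lor_comm, neg_pos]
    exact f.fut.lor_neg (fut_nl z).1 (fut_nl z).2.le
  rw [h0, f.lor_lor] at h1
  generalize -lor (nl z) f.p = A at h0 h1 h2
  have h3 : 0 < √(1 + lor (nl z) f.m ^ 2) := sqrt_pos.2 (by positivity)
  have h4 : √(1 + lor (nl z) f.m ^ 2) ^ 2 = 1 + lor (nl z) f.m ^ 2 := sq_sqrt (by positivity)
  rw [vec, crd]
  simp only
  rw [mul_div_cancel₀ _ hl, sinh_arsinh, cosh_arsinh, mul_div_cancel₀ _ h3.ne']
  have h5 : √(1 + lor (nl z) f.m ^ 2) *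
      √(1 + (lor (nl z) f.v / √(1 + lor (nl z) f.m ^ 2)) ^ 2) = A := by
    rw [← sqrt_mul (by positivity), ← sqrt_sq h2.le]
    congr 1
    rw [div_pow, h4]
    field_simp
    linarith
  rw [h5]
  exact h0.symm

/-- Fermi coordinates. -/
noncomputable def fermi {l : ℝ} (hl : l ≠ 0) : ℂ ≃ₜ KD where
  toFun w := (f.fut_vec l w).pt
  invFun := f.crd l
  left_inv w := by
    have h3 : 0 < √(1 + w.im ^ 2) := sqrt_pos.2 (by positivity)
    rw [crd, nl_pt _ (f.vec_sq l w), vec, f.lor_v, f.lor_m, mul_div_cancel_left₀ _ h3.ne',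
      arsinh_sinh, mul_div_cancel_left₀ _ hl]
  right_inv z := nl_injective (by rw [nl_pt _ (f.vec_sq l _), f.vec_crd hl])
  continuous_toFun := Continuous.subtype_mk
    (continuous_pr (by unfold vec; fun_prop) fun w => (f.fut_vec l w).1.ne') _
  continuous_invFun := by
    have h : ∀ e : LV, Continuous fun z => lor (nl z) e := fun e =>
      (show Continuous fun u : LV => lor u e by unfold lor; fun_prop).comp continuous_nl
    refine Complex.equivRealProdCLM.symm.continuous.comp (f := fun z : KD =>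
      (arsinh (lor (nl z) f.v / √(1 + lor (nl z) f.m ^ 2)) / l, lor (nl z) f.m)) ?_
    refine Continuous.prodMk (Continuous.div_const (continuous_arsinh.comp ((h _).div ?_ ?_)) _)
      (h _)
    · exact (continuous_const.add ((h _).pow 2)).sqrt
    · exact fun z => (sqrt_pos.2 (by positivity)).ne'

theorem nl_fermi {l : ℝ} (hl : l ≠ 0) (w : ℂ) : nl (f.fermi hl w) = f.vec l w :=
  nl_pt (f.fut_vec l w) (f.vec_sq l w)

end Frm

variable {n : ℕ} [hn : Fact (5 ≤ n)]

theorem pred_ne_succ (i : ZMod n) : i - 1 ≠ i + 1 ∧ i - 1 ≠ i + 1 + 1 ∧ i + 1 ≠ i - 1 + 1 :=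
  ⟨fun h => natCast_ne_zero (n := n) (k := 2) (by omega) (by have := hn.1; omega)
      (by push_cast; linear_combination -h),
    fun h => natCast_ne_zero (n := n) (k := 3) (by omega) (by have := hn.1; omega)
      (by push_cast; linear_combination -h),
    fun h => succ_ne i (by rw [h, sub_add_cancel])⟩

theorem exists_vertex (i : ZMod n) : ∃ z : KD, ell i z = 0 ∧ ell (i + 1) z = 0 := by
  obtain ⟨k, rfl⟩ := ZMod.intCast_surjective i
  refine ⟨vtx n (k + 1), ?_, ?_⟩
  · rw [ell, root_intCast, up_vtx, lor_uV_succ]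
  · rw [ell, show (k : ZMod n) + 1 = ((k + 1 : ℤ) : ZMod n) by push_cast; rfl, root_intCast,
      up_vtx, lor_uV_self]

theorem exists_frm (i : ZMod n) : ∃ (f : Frm) (a : ℝ), 0 < a ∧ f.v = -root (i + 1) ∧
    f.m = root i ∧ root (i - 1) = sinh a • f.p + cosh a • f.v + (0 : ℝ) • f.m := by
  obtain ⟨z, h1, h2⟩ := exists_vertex i
  let f : Frm :=
    { p := nl z, v := -root (i + 1), m := root i, fut := fut_nl z, pp := lor_nl z
      vv := by rw [lor_neg_left, lor_neg_right, neg_neg, lor_root_self]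
      mm := lor_root_self i
      pv := by rw [lor_neg_right, lor_nl_zero.2 h2, neg_zero]
      pm := lor_nl_zero.2 h1
      vm := by rw [lor_neg_left, lor_comm, lor_root_succ, neg_zero] }
  obtain ⟨a1, a2, a3⟩ := pred_ne_succ i
  have h3 := f.expand (root (i - 1))
  have h4 : lor (root (i - 1)) f.m = 0 := by
    have := lor_root_succ (i - 1)
    rwa [sub_add_cancel] at this
  have h5 : 0 < -lor (root (i - 1)) f.p := by
    have := ell_nonadj z a1 a2 a3
    rw [h2, add_zero] at this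
    rw [neg_pos, lor_comm]
    exact lor_nl_neg.2 this
  have h6 : 0 < lor (root (i - 1)) f.v := by
    have := lor_root_nonadj a1 a2 a3
    change 0 < lor _ (-root (i + 1))
    rw [lor_neg_right]
    linarith
  have h7 := lor_root_self (i - 1)
  rw [h3, f.lor_lor, h4] at h7
  rw [h4] at h3
  refine ⟨f, arsinh (-lor (root (i - 1)) f.p), arsinh_pos_iff.2 h5, rfl, rfl, ?_⟩
  rw [sinh_arsinh, cosh_arsinh,
    show 1 + (-lor (root (i - 1)) f.p) ^ 2 = lor (root (i - 1)) f.v ^ 2 by linarith, sqrt_sq h6.le]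
  exact h3

open ComplexConjugate in
/-- Coordinates along the wall `i`. -/
theorem exists_fermi (i : ZMod n) : ∃ Φ : ℂ ≃ₜ KD, (∀ w, sg i • Φ w = Φ (conj w)) ∧
    (∀ w, sg (i + 1) • Φ w = Φ (-conj w)) ∧ (∀ w, sg (i - 1) • Φ w = Φ (1 - conj w)) ∧
    ∀ t : ℝ, 0 < t → t < 1 / 2 → ell i (Φ t) = 0 ∧ ∀ j, j ≠ i → ell j (Φ t) < 0 := by
  obtain ⟨f, a, ha, hv, hm, he⟩ := exists_frm i
  have hl : 2 * a ≠ 0 := by positivity
  have hv' : root (i + 1) = -f.v := by rw [hv, neg_neg]
  have k1 : ∀ w, lor (f.vec (2 * a) w) (root (i - 1)) =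
      √(1 + w.im ^ 2) * sinh (2 * a * w.re - a) := fun w => by
    rw [he, Frm.vec, f.lor_lor, sinh_sub]; ring
  refine ⟨f.fermi hl, fun w => nl_injective ?_, fun w => nl_injective ?_,
    fun w => nl_injective ?_, fun t h0 h1 => ?_⟩
  · rw [← rho_nl, f.nl_fermi, f.nl_fermi, rho_sg, ← hm, Frm.vec, f.lor_m, Frm.vec]
    simp only [Complex.conj_re, Complex.conj_im, even_two.neg_pow]
    module
  · rw [← rho_nl, f.nl_fermi, f.nl_fermi, rho_sg, hv', lor_neg_right, Frm.vec, f.lor_v, Frm.vec]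
    simp only [Complex.conj_re, Complex.conj_im, Complex.neg_re, Complex.neg_im, neg_neg,
      mul_neg, cosh_neg, sinh_neg]
    module
  · rw [← rho_nl, f.nl_fermi, f.nl_fermi, rho_sg, k1, he, Frm.vec, Frm.vec]
    simp only [Complex.conj_re, Complex.conj_im, Complex.sub_re, Complex.sub_im, Complex.one_re,
      Complex.one_im, zero_sub, neg_neg]
    have e1 : 2 * a * (1 - w.re) = a - (2 * a * w.re - a) := by ring
    have e2 : 2 * a * w.re = a + (2 * a * w.re - a) := by ring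
    rw [e1]
    generalize 2 * a * w.re - a = s at e2
    rw [e2, cosh_add, sinh_add, cosh_sub, sinh_sub]
    module
  · have b0 : ell i (f.fermi hl t) = 0 :=
      lor_nl_zero.1 (by rw [f.nl_fermi, ← hm, Frm.vec, f.lor_m, Complex.ofReal_im])
    refine ⟨b0, fun j hj => ?_⟩
    by_cases c1 : j = i + 1
    · refine lor_nl_neg.1 ?_
      rw [c1, f.nl_fermi, hv', lor_neg_right, Frm.vec, f.lor_v, neg_lt_zero, Complex.ofReal_re]
      exact mul_pos (sqrt_pos.2 (by positivity)) (sinh_pos_iff.2 (by positivity))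
    by_cases c2 : i = j + 1
    · refine lor_nl_neg.1 ?_
      rw [show j = i - 1 by rw [c2, add_sub_cancel_right], f.nl_fermi, k1, Complex.ofReal_re]
      exact mul_neg_of_pos_of_neg (sqrt_pos.2 (by positivity)) (sinh_neg_iff.2 (by nlinarith))
    have := ell_nonadj (f.fermi hl t) hj c1 c2
    rwa [b0, add_zero] at this

end Pool.Agent.Lib.MP_66609f_al.DN
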