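import Mathlib

/-! Equivariant isotopies of a plane with a system of walls: definitions. -/

namespace Pool.Agent.Lib.MP_66609f_al.DN.BE

open Set Metric Topology Function unitInterval
open scoped Pointwise

section General

variable (Γ : Type) {X : Type} [Group Γ] [TopologicalSpace X] [MulAction Γ X]

/-- `F` commutes with the action. -/
def Equi (F : X ≃ₜ X) : Prop := ∀ (g : Γ) (x : X), F (g • x) = g • F x

/-- `F` is isotopic to the identity through homeomorphisms commuting with the action. -/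
def EqIso (F : X ≃ₜ X) : Prop :=
  ∃ h : C(I × X, X), (∀ t, IsHomeomorph fun x => h (t, x)) ∧
    (∀ t (g : Γ) x, h (t, g • x) = g • h (t, x)) ∧ (∀ x, h (0, x) = x) ∧ ∀ x, h (1, x) = F x

omit [TopologicalSpace X] in
/-- The union of the translates of `S`. -/
def Orb (S : Set X) : Set X := {x | ∃ g : Γ, g • x ∈ S}

omit [TopologicalSpace X] in
/-- `S` is disjoint from its translates. -/
def Wand (S : Set X) : Prop := ∀ (g : Γ), ∀ x ∈ S, g • x ∈ S → g = 1

end General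

/-- `T` is contained in no compact set. -/
def Unb {X : Type} [TopologicalSpace X] (T : Set X) : Prop := ∀ C, IsCompact C → ¬ T ⊆ C

/-- `t` lies outside all integer translates of the open interval from `a` to `b`. -/
def Off (a b t : ℝ) : Prop := ∀ k : ℤ, ¬ (a < t + k ∧ t + k < b)

/-- An embedded closed disc whose open part is open. -/
structure Dsc (X : Type) [TopologicalSpace X] where
  j : ℂ → X
  cont : ContinuousOn j (closedBall 0 1)
  inj : InjOn j (closedBall 0 1)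
  opn : IsOpen (j '' ball 0 1)

namespace Dsc

variable {X : Type} [TopologicalSpace X] (E : Dsc X)

def int : Set X := E.j '' ball 0 1

def cl : Set X := E.j '' closedBall 0 1

def bd : Set X := E.j '' sphere 0 1

/-- A crosscut of the disc. -/
def Proper {x y : X} (a : Path x y) : Prop :=
  Injective a ∧ x ∈ E.bd ∧ y ∈ E.bd ∧ ∀ t : I, t ≠ 0 → t ≠ 1 → a t ∈ E.int

/-- The disc given by a homeomorphism from the plane. -/
noncomputable def ofHomeo (Ψ : ℂ ≃ₜ X) : Dsc X where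
  j := Ψ
  cont := Ψ.continuous.continuousOn
  inj := Ψ.injective.injOn
  opn := Ψ.isOpenMap _ isOpen_ball

end Dsc

/-- The part of the curve `c` between the times `a` and `b`. -/
def subArc {X : Type} [TopologicalSpace X] {c : ℝ → X} (hc : Continuous c) (a b : ℝ) :
    Path (c a) (c b) where
  toFun t := c (a + t * (b - a))
  continuous_toFun := hc.comp (by fun_prop)
  source' := by simp
  target' := by simp

/-- The image of a straight segment in a chart. -/
noncomputable def segArc {X : Type} [TopologicalSpace X] (Φ : ℂ ≃ₜ X) (p q : ℂ) : Path (Φ p) (Φ q) where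
  toFun t := Φ (p + (t : ℝ) * (q - p))
  continuous_toFun := Φ.continuous.comp (by fun_prop)
  source' := by simp
  target' := by simp

/-- `x` and `y` lie on the same side of `L`. -/
def Same {X : Type} [TopologicalSpace X] (L : Set X) (x y : X) : Prop :=
  ∃ T, IsPreconnected T ∧ Disjoint T L ∧ x ∈ T ∧ y ∈ T

/-- The image of the real axis. -/
def hor {X : Type} [TopologicalSpace X] (Φ : ℂ ≃ₜ X) : Set X := Φ '' {w | w.im = 0}

/-- The image of a vertical line. -/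
def ver {X : Type} [TopologicalSpace X] (Φ : ℂ ≃ₜ X) (r : ℝ) : Set X := Φ '' {w | w.re = r}

/-- A flat line. -/
def IsLine {X : Type} [TopologicalSpace X] (L : Set X) : Prop := ∃ Φ : ℂ ≃ₜ X, L = hor Φ

/-- The curve `c` passes at time `t` from one side of `L` to the other. -/
def Cross {X : Type} [TopologicalSpace X] (c : ℝ → X) (t : ℝ) (L : Set X) : Prop :=
  ∃ ε > 0, ∀ s s', t - ε < s → s < t → t < s' → s' < t + ε →
    c s ∉ L ∧ c s' ∉ L ∧ ¬ Same L (c s) (c s')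

section Walls

variable {Γ X : Type} [Group Γ] [TopologicalSpace X] [MulAction Γ X]

/-- Coordinates along the wall `L` of colour `κ`. -/
structure Chart (wall : Bool → Set (Set X)) (κ : Bool) (L : Set X) (Φ : ℂ ≃ₜ X) (γ : Γ) :
    Prop where
  axis : L = hor Φ
  per : ∀ w, Φ (w + 1) = γ • Φ w
  stab : ∀ g : Γ, g • L = L → ∃ k : ℤ, g = γ ^ k
  vert : ∀ k : ℤ, ver Φ (k / 2) ∈ wall (!κ)
  meet : ∀ M ∈ wall (!κ), (M ∩ L).Nonempty → ∃ k : ℤ, M = ver Φ (k / 2)

/-- The two double chambers along the wall `M`. -/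
structure Dbl (Γ : Type) [Group Γ] [MulAction Γ X] (wall : Bool → Set (Set X)) (M : Set X)
    (Φ : ℂ ≃ₜ X) (E : Fin 2 → Dsc X) : Prop where
  edge : ∀ (k : Fin 2) (t : ℝ), (k : ℝ) / 2 < t → t < (k + 1 : ℝ) / 2 → Φ t ∈ (E k).int
  miss : ∀ k, ∀ x ∈ (E k).int, ∀ κ, ∀ L ∈ wall κ, x ∈ L → L = M
  bdry : ∀ k, ∀ x ∈ (E k).bd, ∃ κ, ∃ L ∈ wall κ, L ≠ M ∧ x ∈ L
  wand : ∀ k k' (g : Γ), ∀ x ∈ (E k).int, g • x ∈ (E k').int → g = 1 ∧ k = k'

end Walls

/-- Two invariant families of lines in a plane, as the walls of a right-angled tiling. -/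
structure WallSys (Γ X : Type) [Group Γ] [TopologicalSpace X] [MulAction Γ X] where
  wall : Bool → Set (Set X)
  base : ℂ ≃ₜ X
  smul_mem : ∀ κ (g : Γ), ∀ L ∈ wall κ, g • L ∈ wall κ
  fin_orb : ∀ κ, ∃ S : Set (Set X), S.Finite ∧ S ⊆ wall κ ∧ ∀ L ∈ wall κ, ∃ g : Γ, g • L ∈ S
  loc_fin : ∀ κ (C : Set X), IsCompact C → {L | L ∈ wall κ ∧ (L ∩ C).Nonempty}.Finite
  disj : ∀ κ, ∀ L ∈ wall κ, ∀ L' ∈ wall κ, (L ∩ L').Nonempty → L = L'
  chart : ∀ κ, ∀ L ∈ wall κ, ∃ (Φ : ℂ ≃ₜ X) (γ : Γ), Chart wall κ L Φ γ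
  maln : ∀ L ∈ wall false, ∀ L' ∈ wall false, ∀ g : Γ, g • L = L → g • L' = L' → g = 1 ∨ L = L'
  dbl : ∀ M ∈ wall true, ∃ (Φ : ℂ ≃ₜ X) (γ : Γ) (E : Fin 2 → Dsc X),
    Chart wall true M Φ γ ∧ Dbl Γ wall M Φ E
  cover : ∃ (n : ℕ) (E : Fin n → Dsc X), (∀ i, Wand Γ (E i).int) ∧
    (∀ i, ∀ x ∈ (E i).bd, ∃ κ, ∃ L ∈ wall κ, x ∈ L) ∧
    (∀ i, ∃ x ∈ (E i).int, ∃ κ, ∃ L ∈ wall κ, x ∈ L) ∧ ∀ x, ∃ (i : Fin n) (g : Γ), g • x ∈ (E i).cl

section Ctx

variable {Γ X : Type} [Group Γ] [TopologicalSpace X] [MulAction Γ X]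

/-- The union of the walls of colour `κ`. -/
def WallSys.A (W : WallSys Γ X) (κ : Bool) : Set X := ⋃₀ W.wall κ

/-- Sets meeting the walls of colour `κ` in finitely many points, vertically in the charts `ψ`. -/
def WallSys.Nice (W : WallSys Γ X) (κ : Bool) (ψ : Set X → ℂ ≃ₜ X) (S : Set X) : Prop :=
  (S ∩ W.A κ).Finite ∧ ∀ L ∈ W.wall κ, ∀ z ∈ S ∩ L, ∃ V ∈ 𝓝 z, ∀ y ∈ S ∩ V,
    ((ψ L).symm y).re = ((ψ L).symm z).re

/-- A wall `L` to be straightened, and the family `fam` of walls that are already fixed. -/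
structure Ctx (W : WallSys Γ X) where
  κ : Bool
  L : Set X
  hL : L ∈ W.wall κ
  Φ : ℂ ≃ₜ X
  γ : Γ
  ch : Chart W.wall κ L Φ γ
  fam : Set (Set X)
  sub : ∀ N ∈ fam, ∃ κ', N ∈ W.wall κ'
  inv : ∀ (g : Γ), ∀ N ∈ fam, g • N ∈ fam
  notMem : L ∉ fam

namespace Ctx

variable {W : WallSys Γ X} (C : Ctx W)

/-- The union of the fixed walls. -/
def Y : Set X := ⋃₀ C.fam

/-- Equivariant homeomorphisms fixing the fixed walls. -/
def Good (F : X ≃ₜ X) : Prop := Equi Γ F ∧ ∀ y ∈ C.Y, F y = y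

/-- Allowed moves. -/
def Mv (H : X ≃ₜ X) : Prop := EqIso Γ H ∧ ∀ y ∈ C.Y, H y = y

/-- The image of the wall, as a curve. -/
noncomputable def c (F : X ≃ₜ X) (t : ℝ) : X := F (C.Φ t)

/-- The images of all translates of the wall. -/
def K (F : X ≃ₜ X) : Set X := F '' Orb Γ C.L

/-- The times in one period at which the curve meets a wall of its colour. -/
def T (F : X ≃ₜ X) : Set ℝ := {t | t ∈ Ico (0 : ℝ) 1 ∧ C.c F t ∈ W.A C.κ}

/-- The curve meets the walls of its colour finitely often, crossing them away from `Y`. -/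
def Tame (F : X ≃ₜ X) : Prop :=
  (C.T F).Finite ∧ ∀ t, ∀ L' ∈ W.wall C.κ, C.c F t ∈ L' → C.c F t ∉ C.Y → Cross (C.c F) t L'

/-- Two consecutive meetings with the same wall. -/
structure Bigon (F : X ≃ₜ X) (t₁ t₂ : ℝ) (L' : Set X) : Prop where
  lt : t₁ < t₂
  mem : L' ∈ W.wall C.κ
  m₁ : C.c F t₁ ∈ L'
  m₂ : C.c F t₂ ∈ L'
  y₁ : C.c F t₁ ∉ C.Y
  y₂ : C.c F t₂ ∉ C.Y
  free : ∀ t, t₁ < t → t < t₂ → C.c F t ∉ W.A C.κ

/-- An arc starting at `x`, running in `U` and avoiding the walls of the colour. -/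
def Access (U : Set X) (x : X) : Prop :=
  ∃ (p : X) (a : Path x p), Injective a ∧ ∀ t : I, t ≠ 0 → a t ∈ U ∧ a t ∉ W.A C.κ

/-- A disc around the part of the wall between the times `a` and `b`. -/
structure Box (N : Dsc X) (a b : ℝ) : Prop where
  lt : a < b
  wand : Wand Γ N.int
  missY : Disjoint N.int C.Y
  left : C.Φ a ∈ N.bd
  right : C.Φ b ∈ N.bd
  mid : ∀ t : ℝ, a < t → t < b → C.Φ t ∈ N.int
  only : ∀ x ∈ N.int, x ∈ Orb Γ C.L → ∃ t : ℝ, a < t ∧ t < b ∧ x = C.Φ t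

/-- A segment of the transverse wall at the vertex `v`, from the wall to its image. -/
structure Finger (F : X ≃ₜ X) (v t : ℝ) (m : ℂ ≃ₜ X) (g : Γ) (u : ℝ) : Prop where
  ch : Chart W.wall true (ver C.Φ v) m g
  mem : ver C.Φ v ∈ W.wall true
  axis : C.L = ver m 0
  foot : m 0 = C.Φ v
  pos : 0 < u
  lt : u < 1 / 2
  head : m u = C.c F t
  free : ∀ s : ℝ, 0 ≤ s → s < u → m s ∉ C.K F
  side : ∀ s : ℝ, 0 < s → Same C.L (C.c F 0) (m s)

/-- The first stage: the wall and the fixed walls have the first colour. -/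
def Alpha : Prop := C.κ = false ∧ C.fam ⊆ W.wall false

/-- The second stage: the wall has the second colour, all walls of the first colour are fixed. -/
def Beta : Prop := C.κ = true ∧ W.wall false ⊆ C.fam

/-- A bigon with coordinates `p`, `q` of its corners on the wall `L'`. -/
structure Coord (F : X ≃ₜ X) (t₁ t₂ : ℝ) (L' : Set X) (Φ' : ℂ ≃ₜ X) (γ' : Γ) (p q : ℝ) :
    Prop where
  big : C.Bigon F t₁ t₂ L'
  ch : Chart W.wall C.κ L' Φ' γ'
  hp : C.c F t₁ = Φ' p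
  hq : C.c F t₂ = Φ' q

/-- The curve runs along one half of a period of the wall and misses the walls elsewhere. -/
structure Half (F : X ≃ₜ X) (s₁ s₂ : ℝ) : Prop where
  lt : s₁ < s₂
  lt' : s₂ < s₁ + 1
  left : C.c F s₁ = C.Φ 0
  right : C.c F s₂ = C.Φ (1 / 2 : ℝ)
  img : C.c F '' Icc s₁ s₂ = (fun r : ℝ => C.Φ r) '' Icc 0 (1 / 2)
  free : ∀ t, s₂ < t → t < s₁ + 1 → C.c F t ∉ W.A false

end Ctx

end Ctx

end Pool.Agent.Lib.MP_66609f_al.DN.BE
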