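import Pool.Agent.Lib.MP_66609f_al.DN.E0Fer
import Pool.Agent.Lib.MP_66609f_al.DN.EDefs
import Pool.Agent.Lib.MP_66609f_al.CoxCent

/-! The walls of the tiling of the Klein disc. -/

namespace Pool.Agent.Lib.MP_66609f_al.DN

open Set BE
open scoped Pointwise ComplexConjugate

variable {g : ℕ}

/-- The parity of a side. -/
def par (i : ZMod (2 * g + 2)) : Bool := decide (colZ i = (0, 1))

theorem par_succ (i : ZMod (2 * g + 2)) : par (i + 1) = !par i := by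
  unfold par
  rw [colZ_succ]
  rcases colZ_cases i with h | h <;> rw [h] <;> decide

theorem par_pred (i : ZMod (2 * g + 2)) : par (i - 1) = !par i := by
  rw [← sub_add_cancel i 1, par_succ, Bool.not_not, add_sub_cancel_right]

theorem colZ_pred (i : ZMod (2 * g + 2)) : colZ (i - 1) = colZ (i + 1) := by
  have h := colZ_succ (i - 1)
  rw [sub_add_cancel] at h
  rw [colZ_succ, h]
  generalize colZ (i - 1) = x
  revert x
  decide

theorem colW_conj (w t : W (2 * g + 2)) : colW g (w * t * w⁻¹) = colW g t := by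
  rw [map_mul, map_mul, map_inv, mul_comm (colW g w), mul_inv_cancel_right]

theorem colW_refl {i : ZMod (2 * g + 2)} {t : W (2 * g + 2)} (h : IsReflOf i t) :
    colW g t = Multiplicative.ofAdd (colZ i) := by
  obtain ⟨w, rfl⟩ := h
  rw [colW_conj, colW_sg]

theorem colW_ut (i : ZMod (2 * g + 2)) : colW g (ut i) = 1 := by
  rw [ut, map_mul, colW_sg, colW_sg, colZ_pred]
  generalize colZ (i + 1) = x
  revert x
  decide

theorem colZ_ne (i : ZMod (2 * g + 2)) : Multiplicative.ofAdd (colZ i) ≠ 1 := by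
  rcases colZ_cases i with h | h <;> rw [h] <;> decide

theorem exists_rep (i : ZMod (2 * g + 2)) (w : W (2 * g + 2)) :
    colW g w = 1 ∨ colW g w = colW g (sg i) ∨ colW g w = colW g (sg (i - 1)) ∨
      colW g w = colW g (sg (i - 1) * sg i) := by
  rw [map_mul, colW_sg, colW_sg, colZ_pred, colZ_succ]
  generalize colW g w = x
  rcases colZ_cases i with h | h <;> rw [h] <;> revert x <;> decide

variable [Fact (2 ≤ g)]

/-- The wall of a reflection. -/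
def Wl (t : W (2 * g + 2)) : Set KD := {z | t • z = z}

theorem smul_Wl (w t : W (2 * g + 2)) : w • Wl t = Wl (w * t * w⁻¹) := by
  ext z
  rw [mem_smul_set_iff_inv_smul_mem, Wl, Wl, mem_ofPred_eq, mem_ofPred_eq, mul_smul, mul_smul,
    smul_eq_iff_eq_inv_smul w]

theorem refl_fix {j : ZMod (2 * g + 2)} {t : W (2 * g + 2)} (ht : IsReflOf j t) {z : KD}
    (hz : z ∈ chamber (2 * g + 2)) (h : t • z = z) : t = sg j ∧ ell j z = 0 := by
  obtain ⟨i, hi⟩ := exists_adj (n := 2 * g + 2) z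
  have h2 : t ∈ WJ {i, i + 1} :=
    Subgroup.closure_mono (Set.image_mono hi) (chamber_stab hz (h.symm ▸ hz)).2
  have h3 := colW_refl ht
  have key : ∀ k, t = sg k → t = sg j ∧ ell j z = 0 := fun k e => by
    obtain rfl := isReflOf_unique ht (e ▸ coxNest_refl k)
    exact ⟨e, sg_smul_eq_iff.1 (e ▸ h)⟩
  rcases mem_WJ_adj h2 with h4 | h4 | h4 | h4
  · rw [h4, map_one] at h3
    exact absurd h3.symm (colZ_ne j)
  · exact key _ h4
  · exact key _ h4
  · exfalso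
    rw [h4, map_mul, colW_sg, colW_sg, colZ_succ] at h3
    rcases colZ_cases i with h5 | h5 <;> rcases colZ_cases j with h6 | h6 <;>
      rw [h5, h6] at h3 <;> exact absurd h3 (by decide)

theorem refl_fix' {j : ZMod (2 * g + 2)} {t : W (2 * g + 2)} (ht : IsReflOf j t) {z : KD}
    (hz : z ∈ chamber (2 * g + 2)) {w : W (2 * g + 2)} (h : w • z ∈ Wl t) :
    t = w * sg j * w⁻¹ ∧ ell j z = 0 := by
  have h1 : z ∈ Wl (w⁻¹ * t * w⁻¹⁻¹) := by
    rw [← smul_Wl, mem_smul_set_iff_inv_smul_mem, inv_inv]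
    exact h
  obtain ⟨h2, h3⟩ := refl_fix (coxCent_conj ht w⁻¹) hz h1
  exact ⟨by rw [← h2]; group, h3⟩

theorem adj_of_ell {i j : ZMod (2 * g + 2)} {z : KD} (hi : ell i z = 0) (hj : ell j z = 0) :
    i = j ∨ i = j + 1 ∨ j = i + 1 := by
  by_contra h
  push Not at h
  linarith [ell_nonadj z h.1 h.2.1 h.2.2]

theorem Wl_inj {i j : ZMod (2 * g + 2)} {t t' : W (2 * g + 2)} (ht : IsReflOf i t)
    (ht' : IsReflOf j t') (h : Wl t = Wl t') : t = t' := by
  obtain ⟨w, rfl⟩ := ht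
  obtain ⟨Φ, -, -, -, h1⟩ := exists_fermi i
  obtain ⟨h2, h3⟩ := h1 (1 / 4) (by norm_num) (by norm_num)
  have h4 : w • Φ (1 / 4 : ℝ) ∈ Wl t' := by
    rw [← h, ← smul_Wl]
    exact smul_mem_smul_set (sg_smul_eq h2)
  obtain ⟨h5, h6⟩ := refl_fix' ht' (fun k => by
    rcases eq_or_ne k i with rfl | e
    exacts [h2.le, (h3 k e).le]) h4
  rcases eq_or_ne j i with rfl | e
  · exact h5.symm
  · exact absurd h6 (h3 j e).ne

/-- The walls of one parity. -/
def wallF (g : ℕ) [Fact (2 ≤ g)] (κ : Bool) : Set (Set KD) :=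
  {L | ∃ (i : ZMod (2 * g + 2)) (t : W (2 * g + 2)), IsReflOf i t ∧ par i = κ ∧ L = Wl t}

theorem smul_mem_wallF {κ : Bool} (w : W (2 * g + 2)) {L : Set KD} (h : L ∈ wallF g κ) :
    w • L ∈ wallF g κ := by
  obtain ⟨i, t, h1, h2, rfl⟩ := h
  exact ⟨i, _, coxCent_conj h1 w, h2, smul_Wl w t⟩

theorem wallF_disj {κ : Bool} {L L' : Set KD} (h : L ∈ wallF g κ) (h' : L' ∈ wallF g κ)
    (hne : (L ∩ L').Nonempty) : L = L' := by
  obtain ⟨i, t, h1, h2, rfl⟩ := h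
  obtain ⟨j, t', h3, h4, rfl⟩ := h'
  obtain ⟨z, h5, h6⟩ := hne
  obtain ⟨w, z0, hz, rfl⟩ := exists_chamber (n := 2 * g + 2) z
  obtain ⟨rfl, h7⟩ := refl_fix' h1 hz h5
  obtain ⟨rfl, h8⟩ := refl_fix' h3 hz h6
  rcases adj_of_ell h7 h8 with rfl | rfl | rfl
  · rfl
  · rw [par_succ, h4] at h2
    simp at h2
  · rw [par_succ, h2] at h4
    simp at h4

theorem wallF_locfin (κ : Bool) {C : Set KD} (hC : IsCompact C) :
    {L | L ∈ wallF g κ ∧ (L ∩ C).Nonempty}.Finite := by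
  have h := ProperlyDiscontinuousSMul.finite_disjoint_inter_image (Γ := W (2 * g + 2))
    (isCompact_chamber (n := 2 * g + 2)) hC
  refine ((h.prod (finite_univ (α := ZMod (2 * g + 2)))).image
    fun x => Wl (x.1 * sg x.2 * x.1⁻¹)).subset ?_
  rintro _ ⟨⟨j, t, h1, -, rfl⟩, z, h2, h3⟩
  obtain ⟨w, z0, hz, rfl⟩ := exists_chamber (n := 2 * g + 2) z
  exact ⟨(w, j), ⟨⟨_, ⟨z0, hz, rfl⟩, h3⟩, trivial⟩, by rw [(refl_fix' h1 hz h2).1]⟩

theorem wallF_orb (κ : Bool) : ∃ S : Set (Set KD), S.Finite ∧ S ⊆ wallF g κ ∧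
    ∀ L ∈ wallF g κ, ∃ γ : (colW g).ker, γ • L ∈ S := by
  let U : Set (W (2 * g + 2)) := {1, sg 0, sg (0 - 1), sg (0 - 1) * sg 0}
  refine ⟨(fun x => Wl (x.1 * sg x.2 * x.1⁻¹)) '' (U ×ˢ {i | par i = κ}),
    ((toFinite U).prod (toFinite _)).image _, ?_, ?_⟩
  · rintro _ ⟨⟨u, i⟩, ⟨-, hi⟩, rfl⟩
    exact ⟨i, _, ⟨u, rfl⟩, hi, rfl⟩
  · rintro _ ⟨i, _, ⟨w, rfl⟩, hi, rfl⟩
    obtain ⟨u, hu, h⟩ : ∃ u ∈ U, colW g w = colW g u := by
      rcases exists_rep 0 w with h | h | h | h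
      · exact ⟨1, by simp [U], by rw [h, map_one]⟩
      all_goals exact ⟨_, by simp [U], h⟩
    refine ⟨⟨u * w⁻¹, by rw [MonoidHom.mem_ker, map_mul, map_inv, h, mul_inv_cancel]⟩, (u, i),
      ⟨hu, hi⟩, ?_⟩
    change Wl (u * sg i * u⁻¹) = (u * w⁻¹) • Wl (w * sg i * w⁻¹)
    rw [smul_Wl, show u * w⁻¹ * (w * sg i * w⁻¹) * (u * w⁻¹)⁻¹ = u * sg i * u⁻¹ by group]

theorem stab_Wl {i : ZMod (2 * g + 2)} {w : W (2 * g + 2)} (hw : colW g w = 1)
    (h : w • Wl (sg i) = Wl (sg i)) : ∃ k : ℤ, w = ut i ^ k := by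
  rw [smul_Wl] at h
  have h1 := Wl_inj ⟨w, rfl⟩ (coxNest_refl i) h
  obtain ⟨d, hd, h2⟩ := mem_star_cases i w (mem_star_of_commute i w (mul_inv_eq_iff_eq_mul.1 h1))
  obtain ⟨k, h3⟩ := mem_WJ_pair _ _ d hd
  have h4 : colW g ((sg (i - 1) * sg (i + 1)) ^ k) = 1 := by
    rw [map_zpow, show colW g (sg (i - 1) * sg (i + 1)) = 1 from colW_ut i, one_zpow]
  rcases h2 with rfl | rfl <;> rcases h3 with rfl | rfl
  · exact ⟨k, rfl⟩
  all_goals
    exfalso
    simp only [map_mul (colW g) _ (sg _), h4, colW_sg, colZ_succ] at hw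
    rcases colZ_cases i with h5 | h5 <;> rw [h5] at hw <;> exact absurd hw (by decide)

theorem wallF_maln {κ : Bool} {L L' : Set KD} (h : L ∈ wallF g κ) (h' : L' ∈ wallF g κ)
    (γ : (colW g).ker) (h1 : γ • L = L) (h2 : γ • L' = L') : γ = 1 ∨ L = L' := by
  obtain ⟨i, _, ⟨w, rfl⟩, -, rfl⟩ := h
  obtain ⟨j, t, h3, -, rfl⟩ := h'
  change γ.1 • Wl _ = _ at h1 h2
  obtain ⟨k, hk⟩ := stab_Wl (i := i) (w := w⁻¹ * γ * w⁻¹⁻¹) (by rw [colW_conj]; exact γ.2) (by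
    rw [inv_inv, mul_smul, mul_smul, smul_Wl w, h1, ← smul_Wl, inv_smul_smul])
  rcases eq_or_ne k 0 with rfl | hk0
  · exact Or.inl (Subtype.ext (conj_eq_one_iff.1 hk))
  rw [smul_Wl] at h2
  have h4 : Commute γ.1 t := mul_inv_eq_iff_eq_mul.1 (Wl_inj (coxCent_conj h3 _) h3 h2)
  have h5 := refl_eq_of_commute_ut Fact.out i k hk0 _ ⟨j, coxCent_conj h3 w⁻¹⟩
    (hk ▸ h4.conj w⁻¹)
  refine Or.inr (congrArg Wl ?_)
  rw [← h5]
  group

omit [Fact (2 ≤ g)] in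
theorem refl_ut (i : ZMod (2 * g + 2)) (k : ℤ) :
    ∃ j, par j = !par i ∧ IsReflOf j (ut i ^ k * sg (i + 1)) := by
  rcases Int.even_or_odd' k with ⟨m, rfl | rfl⟩
  · refine ⟨_, par_succ i, ut i ^ m, coxCent_dih _ _ ?_ m⟩
    rw [ut, mul_inv_rev, sg_inv, sg_inv, ← mul_assoc, sg_mul_self, mul_assoc, sg_mul_self, one_mul,
      mul_one]
  · refine ⟨_, par_pred i, ut i ^ m, ?_⟩
    rw [← coxCent_dih, zpow_add_one, mul_assoc, ut, mul_assoc, sg_mul_self, mul_one]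
    rw [ut, mul_inv_rev, sg_inv, sg_inv, mul_assoc]

theorem chart_base (i : ZMod (2 * g + 2)) {Φ : ℂ ≃ₜ KD} (h0 : ∀ w, sg i • Φ w = Φ (conj w))
    (h1 : ∀ w, sg (i + 1) • Φ w = Φ (-conj w)) (h2 : ∀ w, sg (i - 1) • Φ w = Φ (1 - conj w)) :
    Chart (wallF g) (par i) (Wl (sg i)) Φ (⟨ut i, colW_ut i⟩ : (colW g).ker) := by
  have per : ∀ w, Φ (w + 1) = ut i • Φ w := fun w => by
    rw [ut, mul_smul, h1, h2]
    simp [add_comm]
  have perz : ∀ (k : ℤ) w, ut i ^ k • Φ w = Φ (w + k) := fun k => by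
    induction k using Int.induction_on with
    | zero => simp
    | succ k ih => intro w; rw [zpow_add_one, mul_smul, ← per, ih]; push_cast; congr 1; ring
    | pred k ih =>
      intro w
      rw [zpow_sub_one, mul_smul, show Φ w = ut i • Φ (w - 1) by rw [← per, sub_add_cancel],
        inv_smul_smul, ih]
      push_cast; congr 1; ring
  have vert : ∀ k : ℤ, ver Φ (k / 2) = Wl (ut i ^ k * sg (i + 1)) := fun k => by
    ext z
    obtain ⟨w, rfl⟩ := Φ.surjective z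
    rw [ver, Φ.injective.mem_set_image, Wl, mem_ofPred_eq, mem_ofPred_eq, mul_smul, h1, perz,
      Φ.injective.eq_iff, Complex.ext_iff]
    simp only [Complex.add_re, Complex.neg_re, Complex.conj_re, Complex.intCast_re,
      Complex.add_im, Complex.neg_im, Complex.conj_im, Complex.intCast_im, neg_neg, add_zero,
      and_true]
    constructor <;> intro h <;> linarith
  refine ⟨?_, per, fun γ h => ?_, fun k => ?_, ?_⟩
  · ext z
    obtain ⟨w, rfl⟩ := Φ.surjective z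
    rw [hor, Φ.injective.mem_set_image, Wl, mem_ofPred_eq, mem_ofPred_eq, h0, Φ.injective.eq_iff,
      Complex.conj_eq_iff_im]
  · obtain ⟨k, hk⟩ := stab_Wl γ.2 h
    exact ⟨k, Subtype.ext hk⟩
  · obtain ⟨j, h3, h4⟩ := refl_ut i k
    exact ⟨j, _, h4, h3, vert k⟩
  · rintro _ ⟨j, t, h3, h4, rfl⟩ ⟨z, h5, h6⟩
    obtain ⟨w, z0, hz, rfl⟩ := exists_chamber (n := 2 * g + 2) z
    obtain ⟨h7, h8⟩ := refl_fix' h3 hz h5
    obtain ⟨h9, h10⟩ := refl_fix' (coxNest_refl i) hz h6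
    obtain ⟨d, hd, h11⟩ := mem_star_cases i w
      (mem_star_of_commute i w (mul_inv_eq_iff_eq_mul.1 h9.symm))
    have hj : j = i - 1 ∨ j = i + 1 := by
      rcases adj_of_ell h8 h10 with rfl | h | rfl
      · simp at h4
      · exact Or.inr h
      · exact Or.inl (add_sub_cancel_right j 1).symm
    have hc : Commute (sg i) (sg j) := by
      rcases hj with rfl | rfl
      exacts [(coxCent_comm_left i).symm, sg_comm i]
    have h12 : t = d * sg j * d⁻¹ := by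
      rcases h11 with rfl | rfl
      · exact h7
      · rw [h7, mul_assoc d, hc.eq]
        group
    have h13 : t ∈ WJ {i - 1, i + 1} :=
      h12 ▸ mul_mem (mul_mem hd (coxNest_sg_mem hj)) (inv_mem hd)
    obtain ⟨k, h14 | h14⟩ := mem_WJ_pair _ _ t h13
    · have h15 := colW_refl h3
      rw [h14, map_zpow, show colW g (sg (i - 1) * sg (i + 1)) = 1 from colW_ut i, one_zpow] at h15
      exact absurd h15.symm (colZ_ne j)
    · exact ⟨k, by rw [vert, h14, ut]⟩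

/-- Conjugation in the surface group. -/
def cj (w : W (2 * g + 2)) (γ : (colW g).ker) : (colW g).ker :=
  ⟨w * γ * w⁻¹, by rw [MonoidHom.mem_ker, colW_conj]; exact γ.2⟩

theorem chart_smul {κ : Bool} {L : Set KD} {Φ : ℂ ≃ₜ KD} {γ : (colW g).ker}
    (h : Chart (wallF g) κ L Φ γ) (w : W (2 * g + 2)) :
    Chart (wallF g) κ (w • L) (Φ.trans (Homeomorph.smul w)) (cj w γ) := by
  have e : ∀ S : Set ℂ, Φ.trans (Homeomorph.smul w) '' S = w • Φ '' S := fun S => by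
    rw [← image_smul, image_image]; rfl
  refine ⟨by rw [hor, e, h.axis, hor], fun z => ?_, fun δ hδ => ?_, fun k => ?_, ?_⟩
  · change w • Φ (z + 1) = (w * γ * w⁻¹) • w • Φ z
    rw [h.per, mul_smul, mul_smul, inv_smul_smul]
    rfl
  · obtain ⟨k, hk⟩ := h.stab (cj w⁻¹ δ) (by
      change δ.1 • w • L = w • L at hδ
      change (w⁻¹ * δ * w⁻¹⁻¹) • L = L
      rw [inv_inv, mul_smul, mul_smul, hδ, inv_smul_smul])
    refine ⟨k, Subtype.ext ?_⟩
    have h1 : w⁻¹ * δ * w⁻¹⁻¹ = γ.1 ^ k := congrArg Subtype.val hk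
    change δ.1 = (w * γ * w⁻¹) ^ k
    rw [conj_zpow, ← h1]
    group
  · rw [ver, e]
    exact smul_mem_wallF w (h.vert k)
  · rintro M hM ⟨z, h1, h2⟩
    obtain ⟨k, hk⟩ := h.meet _ (smul_mem_wallF w⁻¹ hM)
      ⟨w⁻¹ • z, smul_mem_smul_set h1, mem_smul_set_iff_inv_smul_mem.1 h2⟩
    exact ⟨k, by rw [ver, e, ← ver, ← hk, smul_inv_smul]⟩

end Pool.Agent.Lib.MP_66609f_al.DN
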