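import Pool.Agent.Lib.MP_66609f_al.DN.EDefs
import Pool.Agent.Lib.MP_66609f_al.Sch.SCut

/-! Equivariant isotopies of a plane with walls, part 1. -/

namespace Pool.Agent.Lib.MP_66609f_al.DN.BE

open Set Metric Topology Function unitInterval
open scoped Pointwise

set_option linter.unusedSectionVars false

variable {Γ X : Type} [Group Γ] [TopologicalSpace X] [MulAction Γ X] [T2Space X]
  [ContinuousConstSMul Γ X] [ProperlyDiscontinuousSMul Γ X]

theorem crosscut {x y : ℂ} (a b : Path x y) (ha : Injective a) (hb : Injective b)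
    (hx : ‖x‖ = 1) (hy : ‖y‖ = 1) (ha' : ∀ t : I, t ≠ 0 → t ≠ 1 → ‖a t‖ < 1)
    (hb' : ∀ t : I, t ≠ 0 → t ≠ 1 → ‖b t‖ < 1) :
    ∃ h : ℂ ≃ₜ ℂ, (∀ w, 1 ≤ ‖w‖ → h w = w) ∧ ∀ t, h (a t) = b t :=
  Sch.crosscut a b ha hb hx hy ha' hb'

theorem equi_one : Equi Γ (1 : X ≃ₜ X) := fun _ _ => rfl

theorem Equi.mul {F G : X ≃ₜ X} (hF : Equi Γ F) (hG : Equi Γ G) : Equi Γ (F * G) := fun g x => by
  change F (G (g • x)) = g • F (G x)
  rw [hG, hF]

theorem Equi.inv {F : X ≃ₜ X} (hF : Equi Γ F) : Equi Γ F⁻¹ := fun g x => by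
  change F.symm (g • x) = g • F.symm x
  apply F.injective
  rw [hF, F.apply_symm_apply, F.apply_symm_apply]

theorem Equi.symm {F : X ≃ₜ X} (hF : Equi Γ F) : Equi Γ F.symm := hF.inv

theorem Equi.image_smul {F : X ≃ₜ X} (hF : Equi Γ F) (g : Γ) (S : Set X) :
    F '' (g • S) = g • (F '' S) := by
  ext x
  constructor
  · rintro ⟨_, ⟨y, hy, rfl⟩, rfl⟩
    exact ⟨F y, ⟨y, hy, rfl⟩, (hF g y).symm⟩
  · rintro ⟨_, ⟨y, hy, rfl⟩, rfl⟩
    exact ⟨g • y, ⟨y, hy, rfl⟩, hF g y⟩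

theorem EqIso.equi {F : X ≃ₜ X} (hF : EqIso Γ F) : Equi Γ F := by
  obtain ⟨h, -, h2, -, h4⟩ := hF
  intro g x
  rw [← h4, ← h4, h2]

theorem eqIso_one : EqIso Γ (1 : X ≃ₜ X) :=
  ⟨⟨Prod.snd, continuous_snd⟩, fun _ => IsHomeomorph.id, fun _ _ _ => rfl, fun _ => rfl,
    fun _ => rfl⟩

theorem EqIso.mul {F G : X ≃ₜ X} (hF : EqIso Γ F) (hG : EqIso Γ G) : EqIso Γ (F * G) := by
  obtain ⟨h, h1, h2, h3, h4⟩ := hF
  obtain ⟨k, k1, k2, k3, k4⟩ := hG
  refine ⟨⟨fun u => h (u.1, k u), by fun_prop⟩, fun t => (h1 t).comp (k1 t), fun t g x => ?_,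
    fun x => ?_, fun x => ?_⟩
  · change h (t, k (t, g • x)) = g • h (t, k (t, x))
    rw [k2, h2]
  · exact (h3 _).trans (k3 x)
  · exact (h4 _).trans (congrArg F (k4 x))

theorem EqIso.inv {F : X ≃ₜ X} (hF : EqIso Γ F) : EqIso Γ F⁻¹ := by
  have he := hF.equi.symm
  obtain ⟨h, h1, h2, h3, h4⟩ := hF
  refine ⟨⟨fun u => h (unitInterval.symm u.1, F.symm u.2), by fun_prop⟩,
    fun t => (h1 (unitInterval.symm t)).comp F.symm.isHomeomorph, fun t g x => ?_, fun x => ?_,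
    fun x => ?_⟩
  · change h (unitInterval.symm t, F.symm (g • x)) = g • h (unitInterval.symm t, F.symm x)
    rw [he, h2]
  · change h (unitInterval.symm 0, F.symm x) = x
    rw [symm_zero, h4, F.apply_symm_apply]
  · change h (unitInterval.symm 1, F.symm x) = F.symm x
    rw [symm_one, h3]

theorem EqIso.of_mul_left {H F : X ≃ₜ X} (hH : EqIso Γ H) (h : EqIso Γ (H * F)) : EqIso Γ F := by
  have := hH.inv.mul h
  rwa [inv_mul_cancel_left] at this

theorem EqIso.of_mul_right {H F : X ≃ₜ X} (hH : EqIso Γ H) (h : EqIso Γ (F * H)) :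
    EqIso Γ F := by
  have := h.mul hH.inv
  rwa [mul_inv_cancel_right] at this


theorem subset_orb (S : Set X) : S ⊆ Orb Γ S := fun x hx => ⟨1, by rwa [one_smul]⟩

theorem smul_mem_orb {S : Set X} {x : X} (g : Γ) : g • x ∈ Orb Γ S ↔ x ∈ Orb Γ S := by
  constructor
  · rintro ⟨k, hk⟩
    exact ⟨k * g, by rwa [mul_smul]⟩
  · rintro ⟨k, hk⟩
    exact ⟨k * g⁻¹, by rwa [mul_smul, inv_smul_smul]⟩

theorem mem_orb_iff {S : Set X} {x : X} : x ∈ Orb Γ S ↔ ∃ g : Γ, ∃ y ∈ S, x = g • y := by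
  constructor
  · rintro ⟨k, hk⟩
    exact ⟨k⁻¹, k • x, hk, by rw [inv_smul_smul]⟩
  · rintro ⟨k, y, hy, rfl⟩
    exact ⟨k⁻¹, by rwa [inv_smul_smul]⟩

theorem orb_mono {S S' : Set X} (h : S ⊆ S') : Orb Γ S ⊆ Orb Γ S' :=
  fun _ ⟨g, hg⟩ => ⟨g, h hg⟩

theorem Equi.image_orb {F : X ≃ₜ X} (hF : Equi Γ F) (S : Set X) :
    F '' Orb Γ S = Orb Γ (F '' S) := by
  ext x
  constructor
  · rintro ⟨y, ⟨g, hg⟩, rfl⟩
    exact ⟨g, g • y, hg, hF g y⟩
  · rintro ⟨g, y, hy, h⟩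
    refine ⟨g⁻¹ • y, ⟨g, by rwa [smul_inv_smul]⟩, ?_⟩
    rw [hF, h, inv_smul_smul]

theorem t01b_orb_eq (S : Set X) : Orb Γ S = ⋃ g : Γ, g • S := by
  ext x
  rw [mem_orb_iff, mem_iUnion]
  exact exists_congr fun g => ⟨fun ⟨y, hy, h⟩ => ⟨y, hy, h.symm⟩, fun ⟨y, hy, h⟩ => ⟨y, hy, h.symm⟩⟩

theorem isOpen_orb {S : Set X} (h : IsOpen S) : IsOpen (Orb Γ S) := by
  rw [t01b_orb_eq]
  exact isOpen_iUnion fun g => h.smul g

theorem locallyFinite_smul (e : ℂ ≃ₜ X) {S : Set X} (h : IsCompact S) :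
    LocallyFinite fun g : Γ => g • S := by
  have : LocallyCompactSpace X := e.symm.isOpenEmbedding.locallyCompactSpace
  intro x
  obtain ⟨D, hD, hx⟩ := exists_compact_mem_nhds x
  exact ⟨D, hx, ProperlyDiscontinuousSMul.finite_disjoint_inter_image h hD⟩

theorem isClosed_orb (e : ℂ ≃ₜ X) {S : Set X} (h : IsCompact S) : IsClosed (Orb Γ S) := by
  rw [t01b_orb_eq]
  exact (locallyFinite_smul e h).isClosed_iUnion fun g => h.isClosed.smul g

theorem finite_orb_inter {S C : Set X} (hS : S.Finite) (hC : IsCompact C) :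
    (Orb Γ S ∩ C).Finite := by
  have h := ProperlyDiscontinuousSMul.finite_disjoint_inter_image (Γ := Γ) hS.isCompact hC
  refine (h.biUnion fun g _ => hS.image fun x => g • x).subset ?_
  rintro x ⟨hx, hxC⟩
  obtain ⟨g, y, hy, rfl⟩ := mem_orb_iff.1 hx
  exact mem_biUnion (x := g) ⟨_, ⟨y, hy, rfl⟩, hxC⟩ ⟨y, hy, rfl⟩

theorem Wand.mono {S S' : Set X} (h : Wand Γ S') (hS : S ⊆ S') : Wand Γ S :=
  fun g x hx hg => h g x (hS hx) (hS hg)

theorem Wand.image {S : Set X} (h : Wand Γ S) {F : X ≃ₜ X} (hF : Equi Γ F) :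
    Wand Γ (F '' S) := by
  rintro g _ ⟨x, hx, rfl⟩ ⟨y, hy, he⟩
  rw [← hF] at he
  exact h g x hx (F.injective he ▸ hy)

theorem Unb.mono {T T' : Set X} (h : Unb T) (hT : T ⊆ T') : Unb T' :=
  fun C hC h' => h C hC (hT.trans h')

theorem Unb.image {X' : Type} [TopologicalSpace X'] {T : Set X} (h : Unb T) (F : X ≃ₜ X') :
    Unb (F '' T) := fun C hC h' =>
  h (F ⁻¹' C) (F.isCompact_preimage.2 hC) (image_subset_iff.1 h')

theorem Unb.smul {T : Set X} (h : Unb T) (g : Γ) : Unb (g • T) :=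
  h.image (Homeomorph.smul g)

theorem unb_of_not_bounded {s : Set ℂ} (h : ¬ Bornology.IsBounded s) : Unb s :=
  fun _ hC h' => h (hC.isBounded.subset h')

theorem Off.add_int {a b t : ℝ} (h : Off a b t) (k : ℤ) : Off a b (t + k) := fun j => by
  have := h (k + j)
  rwa [Int.cast_add, ← add_assoc] at this

theorem off_of_mem {a b t : ℝ} (h1 : b ≤ t) (h2 : t ≤ a + 1) : Off a b t := by
  rintro k ⟨h3, h4⟩
  have h5 : (k : ℝ) < 0 := by linarith
  have h6 : ((-1 : ℤ) : ℝ) < k := by push_cast; linarith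
  have h7 : k < 0 := by exact_mod_cast h5
  have h8 : -1 < k := by exact_mod_cast h6
  omega

theorem off_of_mem' {a b t : ℝ} (h1 : b - 1 ≤ t) (h2 : t ≤ a) : Off a b t := by
  rintro k ⟨h3, h4⟩
  have h5 : (0 : ℝ) < k := by linarith
  have h6 : (k : ℝ) < 1 := by linarith
  have h7 : 0 < k := by exact_mod_cast h5
  have h8 : k < 1 := by exact_mod_cast h6
  omega

theorem not_off_iff {a b t : ℝ} : ¬ Off a b t ↔ ∃ k : ℤ, a < t + k ∧ t + k < b := by
  simp only [Off, not_forall, not_not]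

namespace Dsc

variable (E : Dsc X)

theorem isOpen_int : IsOpen E.int := E.opn

theorem isCompact_cl : IsCompact E.cl := (isCompact_closedBall 0 1).image_of_continuousOn E.cont

theorem isCompact_bd : IsCompact E.bd :=
  (isCompact_sphere 0 1).image_of_continuousOn (E.cont.mono sphere_subset_closedBall)

theorem int_subset_cl : E.int ⊆ E.cl := image_mono ball_subset_closedBall

theorem bd_subset_cl : E.bd ⊆ E.cl := image_mono sphere_subset_closedBall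

theorem disjoint_int_bd : Disjoint E.int E.bd := disjoint_left.2 (by
  rintro _ ⟨z, hz, rfl⟩ ⟨w, hw, e⟩
  rw [E.inj (sphere_subset_closedBall hw) (ball_subset_closedBall hz) e] at hw
  exact (mem_ball.1 hz).ne (mem_sphere.1 hw))

theorem cl_eq : E.cl = E.int ∪ E.bd := by
  rw [cl, ← ball_union_sphere, image_union, int, bd]

theorem int_nonempty : E.int.Nonempty := ⟨_, 0, mem_ball_self one_pos, rfl⟩

theorem bd_nonempty : E.bd.Nonempty := ⟨_, 1, by simp, rfl⟩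

theorem isPreconnected_int : IsPreconnected E.int :=
  (convex_ball 0 1).isPreconnected.image _ (E.cont.mono ball_subset_closedBall)

theorem isPreconnected_bd : IsPreconnected E.bd :=
  (isPreconnected_sphere (by simp) 0 1).image _ (E.cont.mono sphere_subset_closedBall)

theorem isPreconnected_cl : IsPreconnected E.cl :=
  (convex_closedBall 0 1).isPreconnected.image _ E.cont

theorem closure_int : closure E.int = E.cl := by
  refine (closure_minimal E.int_subset_cl E.isCompact_cl.isClosed).antisymm ?_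
  have h := E.cont
  rw [cl]
  rw [← closure_ball (0 : ℂ) one_ne_zero] at h ⊢
  exact h.image_closure

theorem subset_int {T : Set X} (hT : IsPreconnected T) (hd : Disjoint T E.bd)
    (hne : (T ∩ E.cl).Nonempty) : T ⊆ E.int := by
  have h : ∀ x ∈ T, x ∈ E.cl → x ∈ E.int := fun x hx h =>
    (E.cl_eq.le h).resolve_right (disjoint_left.1 hd hx)
  obtain ⟨x, hx, hx'⟩ := hne
  exact hT.subset_left_of_subset_union E.isOpen_int E.isCompact_cl.isClosed.isOpen_compl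
    (disjoint_compl_right.mono_left E.int_subset_cl)
    (fun y hy => (em (y ∈ E.cl)).imp_left (h y hy)) ⟨x, hx, h x hx hx'⟩

theorem disjoint_cl {T : Set X} (hT : IsPreconnected T) (hd : Disjoint T E.bd) (hu : Unb T) :
    Disjoint T E.cl := by
  by_contra h
  exact hu _ E.isCompact_cl
    ((E.subset_int hT hd (not_disjoint_iff_nonempty_inter.1 h)).trans E.int_subset_cl)

/-- A continuous left inverse of the parametrisation on the closed disc. -/
theorem exists_inv : ∃ i : X → ℂ, ContinuousOn i E.cl ∧ (∀ w ∈ closedBall (0 : ℂ) 1, i (E.j w) = w) := by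
  have := isCompact_iff_compactSpace.1 (isCompact_closedBall (0 : ℂ) 1)
  refine ⟨invFunOn E.j (closedBall 0 1), ?_, E.inj.leftInvOn_invFunOn⟩
  rw [cl, image_eq_range, ← image_univ]
  exact (E.cont.domRestrict.isClosedEmbedding E.inj.injective).isInducing.continuousOn_image_iff.2
    (continuous_subtype_val.congr fun z => (E.inj.leftInvOn_invFunOn z.2).symm).continuousOn

end Dsc

theorem exists_dsc_of_convex (Φ : ℂ ≃ₜ X) {s : Set ℂ} (hc : Convex ℝ s) (ho : IsOpen s)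
    (hne : s.Nonempty) (hb : Bornology.IsBounded s) :
    ∃ E : Dsc X, E.int = Φ '' s ∧ E.cl = Φ '' closure s ∧ E.bd = Φ '' frontier s := by
  obtain ⟨h, h1, h2, h3⟩ := exists_homeomorph_image_interior_closure_frontier_eq_unitBall hc
    (by rwa [ho.interior_eq]) hb
  rw [ho.interior_eq] at h1
  have e : ∀ t : Set ℂ, (h.symm.trans Φ) '' (h '' t) = Φ '' t := fun t => by
    rw [image_image]
    simp
  exact ⟨Dsc.ofHomeo (h.symm.trans Φ), (congrArg _ h1.symm).trans (e _),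
    (congrArg _ h2.symm).trans (e _), (congrArg _ h3.symm).trans (e _)⟩

theorem compl_ofHomeo_int (Ψ : ℂ ≃ₜ X) :
    IsPreconnected (Dsc.ofHomeo Ψ).intᶜ ∧ Unb (Dsc.ofHomeo Ψ).intᶜ := by
  have e : (Dsc.ofHomeo Ψ).intᶜ = Ψ '' (ball 0 1)ᶜ := (image_compl_eq Ψ.bijective).symm
  have h := (Sch.disc_compl (F := id) continuousOn_id (injOn_id _)).closure
  rw [image_id, closure_compl, interior_closedBall _ one_ne_zero] at h
  refine ⟨e ▸ h.image _ Ψ.continuous.continuousOn, fun C hC hs => ?_⟩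
  refine ((Ψ.isCompact_preimage.2 hC).union (isCompact_closedBall (0 : ℂ) 1)).ne_univ
    (eq_univ_of_forall fun w => or_iff_not_imp_right.2 fun hw => hs ?_)
  exact e ▸ ⟨w, fun h1 => hw (ball_subset_closedBall h1), rfl⟩

theorem t03_bound (h : ℂ ≃ₜ ℂ) (hh : ∀ w, 1 ≤ ‖w‖ → h w = w) (w : ℂ) : ‖h w - w‖ ≤ 2 := by
  rcases le_or_gt 1 ‖w‖ with hw | hw
  · rw [hh w hw, sub_self, norm_zero]
    exact zero_le_two
  · have h1 : ‖h w‖ < 1 := by
      by_contra hc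
      have h2 := h.injective (hh (h w) (not_lt.1 hc))
      rw [h2] at hc
      exact hc hw
    have h2 := norm_sub_le (h w) w
    linarith

theorem t03_cont (h : ℂ ≃ₜ ℂ) (hh : ∀ w, 1 ≤ ‖w‖ → h w = w) :
    Continuous fun p : ℂ × ℂ => p.1 * (h (p.2 / p.1) - p.2 / p.1) := by
  rw [continuous_iff_continuousAt]
  intro p
  by_cases hp : p.1 = 0
  · have h0 : Filter.Tendsto (fun q : ℂ × ℂ => ‖q.1‖ * 2) (𝓝 p) (𝓝 0) := by
      have h1 : ContinuousAt (fun q : ℂ × ℂ => ‖q.1‖ * 2) p := by fun_prop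
      have h2 := h1.tendsto
      simpa [hp] using h2
    have h3 : Filter.Tendsto (fun q : ℂ × ℂ => q.1 * (h (q.2 / q.1) - q.2 / q.1)) (𝓝 p) (𝓝 0) := by
      refine squeeze_zero_norm (fun q => ?_) h0
      rw [norm_mul]
      exact mul_le_mul_of_nonneg_left (t03_bound h hh _) (norm_nonneg _)
    rw [ContinuousAt]
    simpa [hp] using h3
  · have h1 : ContinuousAt (fun q : ℂ × ℂ => q.2 / q.1) p :=
      continuousAt_snd.div continuousAt_fst hp
    exact continuousAt_fst.mul ((h.continuous.continuousAt.comp h1).sub h1)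

theorem alexander (h : ℂ ≃ₜ ℂ) (hh : ∀ w, 1 ≤ ‖w‖ → h w = w) :
    ∃ a : C(I × ℂ, ℂ), (∀ t, ∃ e : ℂ ≃ₜ ℂ, ∀ w, e w = a (t, w)) ∧
      (∀ t w, 1 ≤ ‖w‖ → a (t, w) = w) ∧ (∀ w, a (0, w) = w) ∧ ∀ w, a (1, w) = h w := by
  have hc : Continuous fun p : I × ℂ => ((((p.1 : ℝ) : ℂ), p.2) : ℂ × ℂ) := by fun_prop
  let a : C(I × ℂ, ℂ) :=
    ⟨fun p => p.2 + ((p.1 : ℝ) : ℂ) * (h (p.2 / ((p.1 : ℝ) : ℂ)) - p.2 / ((p.1 : ℝ) : ℂ)),
      continuous_snd.add ((t03_cont h hh).comp hc)⟩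
  have ha : ∀ (t : I) w, a (t, w) =
      w + ((t : ℝ) : ℂ) * (h (w / ((t : ℝ) : ℂ)) - w / ((t : ℝ) : ℂ)) := fun _ _ => rfl
  refine ⟨a, fun t => ?_, fun t w hw => ?_, fun w => ?_, fun w => ?_⟩
  · by_cases ht : ((t : ℝ) : ℂ) = 0
    · exact ⟨Homeomorph.refl ℂ, fun w => by simp [ha, ht]⟩
    · refine ⟨(Homeomorph.mulRight₀ _ (inv_ne_zero ht)).trans
        (h.trans (Homeomorph.mulLeft₀ _ ht)), fun w => ?_⟩
      rw [ha, mul_sub, mul_div_cancel₀ _ ht, add_sub_cancel, div_eq_mul_inv]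
      rfl
  · by_cases ht : (t : ℝ) = 0
    · simp [ha, ht]
    · have h0 : 0 < (t : ℝ) := lt_of_le_of_ne t.2.1 (Ne.symm ht)
      rw [ha, hh (w / _), sub_self, mul_zero, add_zero]
      rw [norm_div, Complex.norm_real, Real.norm_of_nonneg h0.le, le_div_iff₀ h0, one_mul]
      exact t.2.2.trans hw
  · simp [ha]
  · simp [ha]

open Classical in
/-- The map of the disc given by `b`, repeated in all translates. -/
noncomputable def t04_glue (Γ : Type) {X : Type} [Group Γ] [TopologicalSpace X] [MulAction Γ X]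
    (E : Dsc X) (i : X → ℂ) (b : ℂ → ℂ) (x : X) : X :=
  if h : ∃ g : Γ, g • x ∈ E.int then h.choose⁻¹ • E.j (b (i (h.choose • x))) else x

theorem t04_out {E : Dsc X} {i : X → ℂ} {b : ℂ → ℂ} {x : X} (hx : x ∉ Orb Γ E.int) :
    t04_glue Γ E i b x = x := dif_neg hx

theorem t04_cases (E : Dsc X) (x : X) :
    x ∉ Orb Γ E.int ∨ ∃ g : Γ, ∃ w ∈ closedBall (0 : ℂ) 1, x = g • E.j w := by
  by_cases hx : x ∈ Orb Γ E.int
  · obtain ⟨g, _, ⟨w, hw, rfl⟩, rfl⟩ := mem_orb_iff.1 hx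
    exact Or.inr ⟨g, w, ball_subset_closedBall hw, rfl⟩
  · exact Or.inl hx

theorem t04_one {E : Dsc X} (hw : Wand Γ E.int) {g : Γ} {x : X} (hx : x ∈ E.cl)
    (hg : g • x ∈ E.int) : g = 1 := by
  rw [← E.closure_int] at hx
  obtain ⟨y, h1, h2⟩ := mem_closure_iff.1 hx _
    (E.isOpen_int.preimage (continuous_const_smul g)) hg
  exact hw g y h2 h1

theorem t04_in {E : Dsc X} (hw : Wand Γ E.int) {i : X → ℂ}
    (hi : ∀ w ∈ closedBall (0 : ℂ) 1, i (E.j w) = w) {b : ℂ → ℂ} (hb : ∀ w, 1 ≤ ‖w‖ → b w = w)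
    (g : Γ) {w : ℂ} (h : w ∈ closedBall (0 : ℂ) 1) :
    t04_glue Γ E i b (g • E.j w) = g • E.j (b w) := by
  by_cases hx : ∃ k : Γ, k • g • E.j w ∈ E.int
  · have h1 : hx.choose * g = 1 :=
      t04_one hw ⟨w, h, rfl⟩ (by rw [mul_smul]; exact hx.choose_spec)
    rw [t04_glue, dif_pos hx, ← mul_smul hx.choose, h1, one_smul, hi w h,
      inv_eq_of_mul_eq_one_right h1]
  · rw [t04_glue, dif_neg hx, hb w]
    by_contra h1
    refine hx ⟨g⁻¹, ?_⟩
    rw [inv_smul_smul]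
    exact ⟨w, mem_ball_zero_iff.2 (not_le.1 h1), rfl⟩

theorem t04_maps {b : ℂ → ℂ} (hi : Injective b) (hb : ∀ w, 1 ≤ ‖w‖ → b w = w) {w : ℂ}
    (h : w ∈ closedBall (0 : ℂ) 1) : b w ∈ closedBall (0 : ℂ) 1 := by
  by_contra h1
  rw [mem_closedBall_zero_iff, not_le] at h1
  rw [hi (hb _ h1.le)] at h1
  exact h1.not_ge (mem_closedBall_zero_iff.1 h)

theorem t04_equi {E : Dsc X} (hw : Wand Γ E.int) {i : X → ℂ}
    (hi : ∀ w ∈ closedBall (0 : ℂ) 1, i (E.j w) = w) {b : ℂ → ℂ} (hb : ∀ w, 1 ≤ ‖w‖ → b w = w)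
    (g : Γ) (x : X) : t04_glue Γ E i b (g • x) = g • t04_glue Γ E i b x := by
  rcases t04_cases (Γ := Γ) E x with hx | ⟨k, w, h, rfl⟩
  · rw [t04_out hx, t04_out (mt (smul_mem_orb g).1 hx)]
  · rw [← mul_smul, t04_in hw hi hb _ h, t04_in hw hi hb _ h, mul_smul]

theorem t04_inv {E : Dsc X} (hw : Wand Γ E.int) {i : X → ℂ}
    (hi : ∀ w ∈ closedBall (0 : ℂ) 1, i (E.j w) = w) (f : ℂ ≃ₜ ℂ) (hb : ∀ w, 1 ≤ ‖w‖ → f w = w)
    (hb' : ∀ w, 1 ≤ ‖w‖ → f.symm w = w) (x : X) :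
    t04_glue Γ E i f.symm (t04_glue Γ E i f x) = x := by
  rcases t04_cases (Γ := Γ) E x with hx | ⟨k, w, h, rfl⟩
  · rw [t04_out hx, t04_out hx]
  · rw [t04_in hw hi hb _ h, t04_in hw hi hb' _ (t04_maps f.injective hb h), f.symm_apply_apply]

theorem t04_cont (e : ℂ ≃ₜ X) {E : Dsc X} (hw : Wand Γ E.int) {i : X → ℂ}
    (hc : ContinuousOn i E.cl) (hi : ∀ w ∈ closedBall (0 : ℂ) 1, i (E.j w) = w) {Z : Type}
    [TopologicalSpace Z] {b : Z × ℂ → ℂ} (h0 : Continuous b)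
    (h1 : ∀ z, Injective fun w => b (z, w)) (hb : ∀ z w, 1 ≤ ‖w‖ → b (z, w) = w) :
    Continuous fun p : Z × X => t04_glue Γ E i (fun w => b (p.1, w)) p.2 := by
  have hl := (locallyFinite_smul (Γ := Γ) e E.isCompact_cl).preimage_continuous
    (continuous_snd : Continuous (Prod.snd : Z × X → X))
  have hcl : ∀ g : Γ, IsClosed ((Prod.snd : Z × X → X) ⁻¹' (g • E.cl)) := fun g =>
    (E.isCompact_cl.smul g).isClosed.preimage continuous_snd
  have hon : ∀ g : Γ, ContinuousOn (fun p : Z × X => t04_glue Γ E i (fun w => b (p.1, w)) p.2)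
      ((Prod.snd : Z × X → X) ⁻¹' (g • E.cl)) := fun g => by
    have k1 : ContinuousOn (fun p : Z × X => i (g⁻¹ • p.2))
        ((Prod.snd : Z × X → X) ⁻¹' (g • E.cl)) :=
      hc.comp (continuous_snd.const_smul g⁻¹).continuousOn fun p hp =>
        mem_smul_set_iff_inv_smul_mem.1 hp
    have k2 : ContinuousOn (fun p : Z × X => g • E.j (b (p.1, i (g⁻¹ • p.2))))
        ((Prod.snd : Z × X → X) ⁻¹' (g • E.cl)) := by
      refine ContinuousOn.const_smul (E.cont.comp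
        (h0.comp_continuousOn (continuousOn_fst.prodMk k1)) ?_) g
      rintro ⟨z, _⟩ ⟨_, ⟨w, h, rfl⟩, rfl⟩
      refine t04_maps (h1 z) (hb z) ?_
      change i (g⁻¹ • g • E.j w) ∈ _
      rwa [inv_smul_smul, hi w h]
    refine k2.congr ?_
    rintro ⟨z, _⟩ ⟨_, ⟨w, h, rfl⟩, rfl⟩
    change t04_glue Γ E i (fun w => b (z, w)) (g • E.j w) = g • E.j (b (z, i (g⁻¹ • g • E.j w)))
    rw [inv_smul_smul, hi w h, t04_in hw hi (hb z) g h]
  have h2 : ContinuousOn (fun p : Z × X => t04_glue Γ E i (fun w => b (p.1, w)) p.2)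
      ((Prod.snd : Z × X → X) ⁻¹' (Orb Γ E.int)ᶜ) :=
    continuousOn_snd.congr fun p hp => t04_out hp
  have h3 := (hl.continuousOn_iUnion hcl hon).union_of_isClosed h2 (hl.isClosed_iUnion hcl)
    ((isOpen_orb E.isOpen_int).isClosed_compl.preimage continuous_snd)
  rw [← continuousOn_univ]
  refine h3.mono fun p _ => ?_
  rcases t04_cases (Γ := Γ) E p.2 with hx | ⟨k, w, h, hx⟩
  · exact Or.inr hx
  · exact Or.inl (mem_iUnion.2 ⟨k, E.j w, ⟨w, h, rfl⟩, hx.symm⟩)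

theorem t04_homeo (e : ℂ ≃ₜ X) {E : Dsc X} (hw : Wand Γ E.int) {i : X → ℂ}
    (hc : ContinuousOn i E.cl) (hi : ∀ w ∈ closedBall (0 : ℂ) 1, i (E.j w) = w) (f : ℂ ≃ₜ ℂ)
    (hb : ∀ w, 1 ≤ ‖w‖ → f w = w) : ∃ H : X ≃ₜ X, ∀ x, H x = t04_glue Γ E i f x := by
  have hb' : ∀ w, 1 ≤ ‖w‖ → f.symm w = w := fun w h => f.symm_apply_eq.2 (hb w h).symm
  have c : ∀ k : ℂ ≃ₜ ℂ, (∀ w, 1 ≤ ‖w‖ → k w = w) → Continuous (t04_glue Γ E i k) := fun k hk =>
    (t04_cont e hw hc hi (Z := Unit) (b := fun p => k p.2) (k.continuous.comp continuous_snd)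
      (fun _ => k.injective) fun _ => hk).comp (Continuous.prodMk_right ())
  exact ⟨⟨⟨t04_glue Γ E i f, t04_glue Γ E i f.symm, t04_inv hw hi f hb hb',
    t04_inv hw hi f.symm hb' hb⟩, c f hb, c f.symm hb'⟩, fun _ => rfl⟩

theorem disc_glue (e : ℂ ≃ₜ X) (E : Dsc X) (hw : Wand Γ E.int) (h : ℂ ≃ₜ ℂ)
    (hh : ∀ w, 1 ≤ ‖w‖ → h w = w) :
    ∃ H : X ≃ₜ X, EqIso Γ H ∧ (∀ w ∈ closedBall (0 : ℂ) 1, H (E.j w) = E.j (h w)) ∧
      ∀ x, x ∉ Orb Γ E.int → H x = x := by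
  obtain ⟨i, hc, hi⟩ := E.exists_inv
  obtain ⟨a, h1, h2, h3, h4⟩ := alexander h hh
  obtain ⟨H, hH⟩ := t04_homeo e hw hc hi h hh
  have hinj : ∀ t, Injective fun w => a (t, w) := fun t => by
    obtain ⟨f, hf⟩ := h1 t
    rw [← funext hf]
    exact f.injective
  refine ⟨H, ⟨⟨_, t04_cont e hw hc hi a.continuous hinj h2⟩, fun t => ?_,
    fun t g x => t04_equi hw hi (h2 t) g x, fun x => ?_, fun x => ?_⟩, fun w hw' => ?_,
    fun x hx => (hH x).trans (t04_out hx)⟩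
  · obtain ⟨f, hf⟩ := h1 t
    obtain ⟨G, hG⟩ := t04_homeo e hw hc hi f fun w k => (hf w).trans (h2 t w k)
    change IsHomeomorph (t04_glue Γ E i fun w => a (t, w))
    rw [← funext hf, ← funext hG]
    exact G.isHomeomorph
  · change t04_glue Γ E i (fun w => a (0, w)) x = x
    rcases t04_cases (Γ := Γ) E x with hx | ⟨k, w, hw', rfl⟩
    · exact t04_out hx
    · rw [t04_in hw hi (h2 0) k hw', h3]
  · change t04_glue Γ E i (fun w => a (1, w)) x = H x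
    rw [funext h4, hH]
  · have k := t04_in hw hi hh (1 : Γ) hw'
    rwa [one_smul, one_smul, ← hH] at k

theorem t05_int (E : Dsc X) (F : X ≃ₜ X) (hb : ∀ x ∈ E.bd, F x = x) (hi : ∃ x ∈ E.int, F x = x) :
    F '' E.int ⊆ E.int := by
  refine E.subset_int (E.isPreconnected_int.image F F.continuous.continuousOn) ?_ ?_
  · rw [Set.disjoint_left]
    rintro _ ⟨x, hx, rfl⟩ hy
    have h1 : F x = x := F.injective (hb _ hy)
    rw [h1] at hy
    exact Set.disjoint_left.1 E.disjoint_int_bd hx hy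
  · obtain ⟨x, hx, h⟩ := hi
    exact ⟨x, ⟨x, hx, h⟩, E.int_subset_cl hx⟩

theorem t05_cl (E : Dsc X) (F : X ≃ₜ X) (hb : ∀ x ∈ E.bd, F x = x) (hi : F '' E.int ⊆ E.int)
    {w : ℂ} (hw : ‖w‖ ≤ 1) : ∃ w' : ℂ, ‖w'‖ ≤ 1 ∧ E.j w' = F (E.j w) := by
  have h1 : E.j w ∈ E.cl := ⟨w, mem_closedBall_zero_iff.2 hw, rfl⟩
  have h2 : F (E.j w) ∈ E.cl := by
    rw [E.cl_eq] at h1
    rcases h1 with h | h
    · exact E.int_subset_cl (hi ⟨_, h, rfl⟩)
    · rw [hb _ h]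
      exact E.bd_subset_cl h
  obtain ⟨w', h3, h4⟩ := h2
  exact ⟨w', mem_closedBall_zero_iff.1 h3, h4⟩

theorem t05_cont (E : Dsc X) {i : X → ℂ} (h1 : ContinuousOn i E.cl)
    (h2 : ∀ w ∈ closedBall (0 : ℂ) 1, i (E.j w) = w) (F : X ≃ₜ X) (hb : ∀ x ∈ E.bd, F x = x)
    (hi : F '' E.int ⊆ E.int) :
    Continuous fun w : ℂ => if ‖w‖ ≤ 1 then i (F (E.j w)) else w := by
  refine continuous_if_le continuous_norm continuous_const ?_ continuousOn_id fun w hw => ?_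
  · refine h1.comp (F.continuous.comp_continuousOn
      (E.cont.mono fun w hw => mem_closedBall_zero_iff.2 hw)) fun w hw => ?_
    obtain ⟨w', h3, h4⟩ := t05_cl E F hb hi hw
    exact ⟨w', mem_closedBall_zero_iff.2 h3, h4⟩
  · rw [hb _ ⟨w, mem_sphere_zero_iff_norm.2 hw, rfl⟩, h2 w (mem_closedBall_zero_iff.2 hw.le)]

theorem t05_inv (E : Dsc X) {i : X → ℂ} (h2 : ∀ w ∈ closedBall (0 : ℂ) 1, i (E.j w) = w)
    (F : X ≃ₜ X) (hb : ∀ x ∈ E.bd, F x = x) (hi : F '' E.int ⊆ E.int) :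
    LeftInverse (fun w : ℂ => if ‖w‖ ≤ 1 then i (F.symm (E.j w)) else w)
      fun w : ℂ => if ‖w‖ ≤ 1 then i (F (E.j w)) else w := by
  intro w
  by_cases hw : ‖w‖ ≤ 1
  · obtain ⟨w', h3, h4⟩ := t05_cl E F hb hi hw
    simp only [if_pos hw]
    rw [← h4, h2 w' (mem_closedBall_zero_iff.2 h3), if_pos h3, h4, F.symm_apply_apply,
      h2 w (mem_closedBall_zero_iff.2 hw)]
  · simp only [if_neg hw]

theorem disc_alex (e : ℂ ≃ₜ X) (E : Dsc X) (hw : Wand Γ E.int) (F : X ≃ₜ X)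
    (hb : ∀ x ∈ E.bd, F x = x) (hi : ∃ x ∈ E.int, F x = x) :
    ∃ H : X ≃ₜ X, EqIso Γ H ∧ (∀ x ∈ E.cl, H x = F x) ∧ F '' E.int = E.int ∧
      ∀ x, x ∉ Orb Γ E.int → H x = x := by
  have hb' : ∀ x ∈ E.bd, F.symm x = x := fun x hx => F.symm_apply_eq.2 (hb x hx).symm
  have hi' : ∃ x ∈ E.int, F.symm x = x := hi.imp fun x hx => ⟨hx.1, F.symm_apply_eq.2 hx.2.symm⟩
  have hF := t05_int E F hb hi
  have hF' := t05_int E F.symm hb' hi'
  obtain ⟨i, h1, h2⟩ := E.exists_inv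
  let h : ℂ ≃ₜ ℂ :=
    { toFun := fun w => if ‖w‖ ≤ 1 then i (F (E.j w)) else w
      invFun := fun w => if ‖w‖ ≤ 1 then i (F.symm (E.j w)) else w
      left_inv := t05_inv E h2 F hb hF
      right_inv := t05_inv E h2 F.symm hb' hF'
      continuous_toFun := t05_cont E h1 h2 F hb hF
      continuous_invFun := t05_cont E h1 h2 F.symm hb' hF' }
  have hh : ∀ w, h w = if ‖w‖ ≤ 1 then i (F (E.j w)) else w := fun _ => rfl
  obtain ⟨H, h3, h4, h5⟩ := disc_glue e E hw h fun w hw => by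
    rw [hh]
    split_ifs with h6
    · rw [hb _ ⟨w, mem_sphere_zero_iff_norm.2 (le_antisymm h6 hw), rfl⟩,
        h2 w (mem_closedBall_zero_iff.2 h6)]
    · rfl
  refine ⟨H, h3, ?_, Subset.antisymm hF fun x hx =>
    ⟨F.symm x, hF' ⟨x, hx, rfl⟩, F.apply_symm_apply x⟩, h5⟩
  rintro _ ⟨w, hw, rfl⟩
  have h6 := mem_closedBall_zero_iff.1 hw
  obtain ⟨w', h7, h8⟩ := t05_cl E F hb hF h6
  rw [h4 w hw, hh, if_pos h6, ← h8, h2 w' (mem_closedBall_zero_iff.2 h7)]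

theorem t05_pull (E : Dsc X) {i : X → ℂ} (h1 : ContinuousOn i E.cl)
    (h2 : ∀ w ∈ closedBall (0 : ℂ) 1, i (E.j w) = w) {x y : X} (a : Path x y) (ha : E.Proper a) :
    ∃ a' : Path (i x) (i y), Injective a' ∧ (∀ t : I, t ≠ 0 → t ≠ 1 → ‖a' t‖ < 1) ∧
      ∀ t, a' t ∈ closedBall (0 : ℂ) 1 ∧ E.j (a' t) = a t := by
  have h3 : ∀ t, a t ∈ E.cl := fun t => by
    by_cases h0 : t = 0
    · rw [h0, a.source]
      exact E.bd_subset_cl ha.2.1
    by_cases h4 : t = 1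
    · rw [h4, a.target]
      exact E.bd_subset_cl ha.2.2.1
    exact E.int_subset_cl (ha.2.2.2 t h0 h4)
  have h5 : ∀ t, i (a t) ∈ closedBall (0 : ℂ) 1 ∧ E.j (i (a t)) = a t := fun t => by
    obtain ⟨w, hw, h6⟩ := h3 t
    rw [← h6, h2 w hw]
    exact ⟨hw, rfl⟩
  refine ⟨⟨⟨fun t => i (a t), h1.comp_continuous a.continuous h3⟩, by simp, by simp⟩,
    fun t t' h => ha.1 ?_, fun t h0 h4 => ?_, h5⟩
  · have h7 : i (a t) = i (a t') := h
    rw [← (h5 t).2, h7, (h5 t').2]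
  · obtain ⟨w, hw, h6⟩ := ha.2.2.2 t h0 h4
    show ‖i (a t)‖ < 1
    rw [← h6, h2 w (ball_subset_closedBall hw)]
    exact mem_ball_zero_iff.1 hw

theorem kmove (e : ℂ ≃ₜ X) (E : Dsc X) (hw : Wand Γ E.int) {x y : X} (a b : Path x y)
    (ha : E.Proper a) (hb : E.Proper b) :
    ∃ H : X ≃ₜ X, EqIso Γ H ∧ (∀ t, H (a t) = b t) ∧ ∀ z, z ∉ Orb Γ E.int → H z = z := by
  obtain ⟨i, h1, h2⟩ := E.exists_inv
  obtain ⟨a', a1, a2, a3⟩ := t05_pull E h1 h2 a ha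
  obtain ⟨b', b1, b2, b3⟩ := t05_pull E h1 h2 b hb
  have h3 : ∀ z ∈ E.bd, ‖i z‖ = 1 := by
    rintro _ ⟨w, hw, rfl⟩
    rw [h2 w (sphere_subset_closedBall hw)]
    exact mem_sphere_zero_iff_norm.1 hw
  obtain ⟨h, h4, h5⟩ := crosscut a' b' a1 b1 (h3 x ha.2.1) (h3 y ha.2.2.1) a2 b2
  obtain ⟨H, h6, h7, h8⟩ := disc_glue e E hw h h4
  refine ⟨H, h6, fun t => ?_, h8⟩
  rw [← (a3 t).2, h7 _ (a3 t).1, h5, (b3 t).2]

theorem subArc_apply {c : ℝ → X} (hc : Continuous c) (a b : ℝ) (t : I) :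
    subArc hc a b t = c (a + t * (b - a)) := rfl

theorem range_subArc {c : ℝ → X} (hc : Continuous c) (a b : ℝ) :
    range (subArc hc a b) = c '' uIcc a b := by
  rw [← segment_eq_uIcc, segment_eq_image', image_image, image_eq_range]
  rfl

theorem subArc_injective {c : ℝ → X} (hc : Continuous c) {a b : ℝ} (hi : InjOn c (uIcc a b))
    (hab : a ≠ b) : Injective (subArc hc a b) := fun s t h =>
  Subtype.ext (mul_right_cancel₀ (sub_ne_zero.2 hab.symm) (add_left_cancel (hi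
    ((convex_uIcc a b).add_smul_sub_mem left_mem_uIcc right_mem_uIcc s.2)
    ((convex_uIcc a b).add_smul_sub_mem left_mem_uIcc right_mem_uIcc t.2) h)))

theorem param_mem_Icc {a b : ℝ} (hab : a ≤ b) (t : I) : a + t * (b - a) ∈ Icc a b :=
  (convex_Icc a b).add_smul_sub_mem (left_mem_Icc.2 hab) (right_mem_Icc.2 hab) t.2

theorem param_mem_Ioo {a b : ℝ} (hab : a < b) {t : I} (h0 : t ≠ 0) (h1 : t ≠ 1) :
    a + t * (b - a) ∈ Ioo a b := by
  have h2 : (0 : ℝ) < t := unitInterval.pos_iff_ne_zero.2 h0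
  have h3 : (t : ℝ) < 1 := unitInterval.lt_one_iff_ne_one.2 h1
  constructor <;> nlinarith

theorem exists_param {a b r : ℝ} (hab : a < b) (hr : r ∈ Icc a b) :
    ∃ t : I, r = a + t * (b - a) := by
  rw [← segment_eq_Icc hab.le, segment_eq_image'] at hr
  obtain ⟨t, ht, rfl⟩ := hr
  exact ⟨⟨t, ht⟩, rfl⟩

theorem range_segArc (Φ : ℂ ≃ₜ X) (p q : ℂ) : range (segArc Φ p q) = Φ '' segment ℝ p q := by
  rw [segment_eq_image', image_image, image_eq_range]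
  rfl

theorem segArc_injective (Φ : ℂ ≃ₜ X) {p q : ℂ} (h : p ≠ q) : Injective (segArc Φ p q) :=
  fun _ _ e => Subtype.ext (Complex.ofReal_injective (mul_right_cancel₀ (sub_ne_zero.2 h.symm)
    (add_left_cancel (Φ.injective e))))

theorem segArc_mem_open (Φ : ℂ ≃ₜ X) (p q : ℂ) {t : I} (h0 : t ≠ 0) (h1 : t ≠ 1) :
    segArc Φ p q t ∈ Φ '' openSegment ℝ p q := by
  rw [openSegment_eq_image']
  exact ⟨_, ⟨t, ⟨unitInterval.pos_iff_ne_zero.2 h0, unitInterval.lt_one_iff_ne_one.2 h1⟩, rfl⟩, rfl⟩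


theorem symm_injective {x y : X} {a : Path x y} (ha : Injective a) : Injective a.symm :=
  ha.comp unitInterval.symm_bijective.injective

theorem trans_injective {x y z : X} {a : Path x y} {b : Path y z} (ha : Injective a)
    (hb : Injective b) (h : range a ∩ range b ⊆ {y}) : Injective (a.trans b) := by
  have key : ∀ s t, a s = b t → (t : ℝ) = 0 := fun s t e =>
    congrArg Subtype.val (hb ((h ⟨⟨s, e⟩, t, rfl⟩).trans b.source.symm))
  intro s t e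
  rw [Path.trans_apply, Path.trans_apply] at e
  split_ifs at e with h1 h2 h2
  · exact Subtype.ext (by simpa using congrArg Subtype.val (ha e))
  · exact absurd (by linarith [key _ _ e]) h2
  · exact absurd (by linarith [key _ _ e.symm]) h1
  · exact Subtype.ext (by simpa using congrArg Subtype.val (hb e))

theorem t06b_sub {x y p q : X} {a : Path x y} (ha : Injective a) {s t : I} (hst : s ≠ t)
    (hp : p = a s) (hq : q = a t) : ∃ d : Path p q, Injective d ∧ range d = a '' uIcc s t := by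
  subst hp hq
  refine ⟨a.subpath s t, ha.comp fun u v e => Subtype.ext ?_, a.range_subpath s t⟩
  have h1 : (1 - u : ℝ) * s + u * t = (1 - v) * s + v * t := congrArg Subtype.val e
  exact mul_right_cancel₀ (sub_ne_zero.2 (Subtype.coe_ne_coe.2 hst.symm)) (by linarith)

theorem arc_trans {x y z : X} {a : Path x y} {b : Path y z} (ha : Injective a)
    (hb : Injective b) (hxz : x ≠ z) :
    ∃ d : Path x z, Injective d ∧ range d ⊆ range a ∪ range b := by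
  obtain ⟨s, ⟨t, e⟩, hs⟩ := ((isCompact_range b.continuous).isClosed.preimage
    a.continuous).isCompact.exists_isLeast ⟨1, 0, b.source.trans a.target.symm⟩
  by_cases ht : t = 1
  · obtain ⟨d, h1, h2⟩ := t06b_sub ha (s := 0) (t := s) (p := x) (q := z)
      (fun h => hxz (by rw [← a.source, h, ← e, ht, b.target])) a.source.symm
      (by rw [← e, ht, b.target])
    exact ⟨d, h1, h2 ▸ (image_subset_range _ _).trans subset_union_left⟩
  by_cases h0 : 0 = s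
  · obtain ⟨d, h1, h2⟩ := t06b_sub hb ht (p := x) (by rw [e, ← h0, a.source]) b.target.symm
    exact ⟨d, h1, h2 ▸ (image_subset_range _ _).trans subset_union_right⟩
  obtain ⟨d, h1, h2⟩ := t06b_sub ha h0 a.source.symm rfl
  obtain ⟨d', h3, h4⟩ := t06b_sub hb ht e.symm b.target.symm
  refine ⟨d.trans d', trans_injective h1 h3 ?_, ?_⟩
  · rw [h2, h4, uIcc_of_le unitInterval.nonneg']
    rintro _ ⟨⟨r, hr, rfl⟩, h⟩
    exact congrArg a (le_antisymm hr.2 (hs (image_subset_range _ _ h)))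
  · rw [Path.trans_range, h2, h4]
    exact union_subset_union (image_subset_range _ _) (image_subset_range _ _)

theorem exists_shortcut {c : ℝ → X} (hc : Continuous c) {C₁ C₂ : Set X} (h₁ : IsClosed C₁)
    (h₂ : IsClosed C₂) (hd : Disjoint C₁ C₂) (h0 : c 0 ∈ C₁) (h1 : c 1 ∈ C₂) :
    ∃ s t, 0 ≤ s ∧ s < t ∧ t ≤ 1 ∧ c s ∈ C₁ ∧ c t ∈ C₂ ∧
      ∀ r, s < r → r < t → c r ∉ C₁ ∧ c r ∉ C₂ := by
  obtain ⟨s, hs, hs'⟩ := (isCompact_Icc.inter_right (h₁.preimage hc)).exists_isGreatest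
    ⟨0, left_mem_Icc.2 zero_le_one, h0⟩
  obtain ⟨t, ht, ht'⟩ := (isCompact_Icc.inter_right (h₂.preimage hc)).exists_isLeast
    ⟨1, right_mem_Icc.2 hs.1.2, h1⟩
  exact ⟨s, t, hs.1.1, ht.1.1.lt_of_ne fun e => disjoint_left.1 hd hs.2 (e ▸ ht.2), ht.1.2, hs.2,
    ht.2, fun r h3 h4 => ⟨fun h => not_le.2 h3 (hs' ⟨⟨hs.1.1.trans h3.le, h4.le.trans ht.1.2⟩, h⟩),
      fun h => not_le.2 h4 (ht' ⟨⟨h3.le, h4.le.trans ht.1.2⟩, h⟩)⟩⟩

theorem jordan2 (e : ℂ ≃ₜ X) {x y : X} {a b : Path x y} (ha : Injective a) (hb : Injective b)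
    (h : range a ∩ range b ⊆ {x, y}) :
    ∃ Ψ : ℂ ≃ₜ X, (Dsc.ofHomeo Ψ).bd = range a ∪ range b := by
  obtain ⟨α, β, h1, -, -⟩ := Sch.exists_arcs (x := 1) (y := -1) (by simp) (by simp) (by norm_num)
  have h2 : Sch.Two (fun t => e.symm (a t)) fun t => e.symm (b t) :=
    ⟨by fun_prop, by fun_prop, e.symm.injective.comp ha, e.symm.injective.comp hb, by simp, by simp,
      fun s t e1 => (h ⟨⟨s, rfl⟩, t, (e.symm.injective e1).symm⟩).imp
        (fun e2 => ha (e2.trans a.source.symm)) fun e2 => ha (e2.trans a.target.symm)⟩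
  obtain ⟨Φ, f1, f2⟩ := h1.jor h2
  refine ⟨Φ.trans e, subset_antisymm ?_ ?_⟩
  · rintro _ ⟨z, hz, rfl⟩
    rcases (h1.circ z).1 (mem_sphere_zero_iff_norm.1 hz) with ⟨t, rfl⟩ | ⟨t, rfl⟩
    · exact .inl ⟨t, ((congrArg e (f1 t)).trans (e.apply_symm_apply _)).symm⟩
    · exact .inr ⟨t, ((congrArg e (f2 t)).trans (e.apply_symm_apply _)).symm⟩
  · rintro _ (⟨t, rfl⟩ | ⟨t, rfl⟩)
    · exact ⟨α t, mem_sphere_zero_iff_norm.2 (h1.n1 t),
        (congrArg e (f1 t)).trans (e.apply_symm_apply _)⟩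
    · exact ⟨β t, mem_sphere_zero_iff_norm.2 (h1.symm.n1 t),
        (congrArg e (f2 t)).trans (e.apply_symm_apply _)⟩

theorem t07_sep {C : Set X} (hC : IsCompact C) (hw : Wand Γ C) (g : Γ) :
    ∃ V, IsOpen V ∧ C ⊆ V ∧ ∀ x ∈ V, g • x ∈ V → g = 1 := by
  by_cases hg : g = 1
  · exact ⟨univ, isOpen_univ, subset_univ _, fun _ _ _ => hg⟩
  obtain ⟨U, U', h1, h2, h3, h4, h5⟩ := SeparatedNhds.of_isCompact_isCompact hC
    (hC.image (continuous_const_smul g)) (disjoint_left.2 (by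
      rintro _ hx ⟨z, hz, rfl⟩
      exact hg (hw g z hz hx)))
  exact ⟨U ∩ (fun x => g • x) ⁻¹' U', h1.inter (h2.preimage (continuous_const_smul g)),
    fun x hx => ⟨h3 hx, h4 ⟨x, hx, rfl⟩⟩, fun x hx hx' => (disjoint_left.1 h5 hx'.1 hx.2).elim⟩

theorem exists_nhds_wand (e : ℂ ≃ₜ X) {C : Set X} (hC : IsCompact C) (hw : Wand Γ C) :
    ∃ U, IsOpen U ∧ C ⊆ U ∧ Wand Γ U := by
  have := e.symm.isOpenEmbedding.locallyCompactSpace
  obtain ⟨D, hD, hCD⟩ := exists_compact_superset hC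
  choose V h1 h2 h3 using t07_sep hC hw
  have hf := ProperlyDiscontinuousSMul.finite_disjoint_inter_image (Γ := Γ) hD hD
  refine ⟨interior D ∩ ⋂ g ∈ {g : Γ | ((g • ·) '' D ∩ D).Nonempty}, V g,
    isOpen_interior.inter (hf.isOpen_biInter fun g _ => h1 g),
    subset_inter hCD (subset_iInter₂ fun g _ => h2 g), fun g x hx hx' => ?_⟩
  have hg : g ∈ {g : Γ | ((g • ·) '' D ∩ D).Nonempty} :=
    ⟨g • x, ⟨x, interior_subset hx.1, rfl⟩, interior_subset hx'.1⟩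
  exact h3 g x (mem_iInter₂.1 hx.2 g hg) (mem_iInter₂.1 hx'.2 g hg)

theorem wand_of_boundary (Ψ : ℂ ≃ₜ X) (hw : Wand Γ (Dsc.ofHomeo Ψ).bd) :
    Wand Γ (Dsc.ofHomeo Ψ).cl := by
  set E := Dsc.ofHomeo Ψ
  let D := fun g : Γ => Dsc.ofHomeo (Ψ.trans (Homeomorph.smul g))
  have eb : ∀ g, (D g).bd = (g • ·) '' E.bd := fun g => (image_image (g • ·) Ψ _).symm
  have ec : ∀ g, (D g).cl = (g • ·) '' E.cl := fun g => (image_image (g • ·) Ψ _).symm
  obtain ⟨y, hy⟩ := E.bd_nonempty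
  have K : ∀ g : Γ, g ≠ 1 → Disjoint (D g).bd E.cl := fun g hg => by
    refine not_not.1 fun h => ?_
    have h1 := E.subset_int (D g).isPreconnected_bd (disjoint_left.2 (by
      rw [eb]
      rintro _ ⟨x, hx, rfl⟩ hx'
      exact hg (hw g x hx hx'))) (not_disjoint_iff_nonempty_inter.1 h)
    have h2 : (g • ·) '' E.cl ⊆ E.int := ec g ▸ disjoint_compl_left_iff_subset.1
      ((D g).disjoint_cl (compl_ofHomeo_int Ψ).1 (disjoint_compl_left_iff_subset.2 h1)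
        (compl_ofHomeo_int Ψ).2)
    have h3 : ∀ n : ℕ, g ^ n • y ∈ E.cl := fun n => by
      induction n with
      | zero => simpa using E.bd_subset_cl hy
      | succ n ih => exact E.int_subset_cl (h2 ⟨_, ih, by rw [pow_succ', mul_smul]⟩)
    obtain ⟨n, hn, e⟩ := (isOfFinOrder_iff_pow_eq_one (x := g)).1 (not_not.1 fun hf =>
      (ProperlyDiscontinuousSMul.finite_disjoint_inter_image (Γ := Γ) E.isCompact_cl
        E.isCompact_cl).not_infinite (infinite_of_injective_forall_mem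
        (injective_pow_iff_not_isOfFinOrder.2 hf) fun n => ⟨_, ⟨y, E.bd_subset_cl hy, rfl⟩, h3 n⟩))
    obtain ⟨n, rfl⟩ := Nat.exists_eq_succ_of_ne_zero hn.ne'
    exact disjoint_left.1 E.disjoint_int_bd (h2 ⟨_, h3 n, by
      simp only [← mul_smul, ← pow_succ', e, one_smul]⟩) hy
  intro g x hx hx'
  refine not_not.1 fun hg => ?_
  have h := (D g).int_subset_cl ((D g).subset_int E.isPreconnected_cl (K g hg).symm
    ⟨_, hx', ec g ▸ ⟨x, hx, rfl⟩⟩ (E.bd_subset_cl hy))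
  obtain ⟨z, hz, e⟩ := ec g ▸ h
  exact disjoint_left.1 (K g⁻¹ (inv_ne_one.2 hg)) (eb g⁻¹ ▸ ⟨y, hy, by
    simp only [← e, inv_smul_smul]⟩) hz


end Pool.Agent.Lib.MP_66609f_al.DN.BE
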