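import Pool.Agent.Lib.MP_66609f_al.DN.E1

/-! Equivariant isotopies of a plane with walls, part 2. -/

namespace Pool.Agent.Lib.MP_66609f_al.DN.BE

open Set Metric Topology Function unitInterval
open scoped Pointwise

set_option linter.unusedSectionVars false

variable {Γ X : Type} [Group Γ] [TopologicalSpace X] [MulAction Γ X] [T2Space X]
  [ContinuousConstSMul Γ X] [ProperlyDiscontinuousSMul Γ X]

theorem t09_cont {f : ℂ → ℝ} (hc : ContinuousOn f {0}ᶜ) (hb : ∀ w, |f w| ≤ 2) :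
    Continuous fun w => f w • w := by
  refine continuous_iff_continuousAt.2 fun w => ?_
  by_cases hw : w = 0
  · subst hw
    have h2 : Filter.Tendsto (fun w : ℂ => 2 * ‖w‖) (𝓝 0) (𝓝 0) := by
      have : Continuous fun w : ℂ => 2 * ‖w‖ := by fun_prop
      simpa using this.tendsto 0
    rw [ContinuousAt, smul_zero]
    refine squeeze_zero_norm (fun w => ?_) h2
    rw [norm_smul, Real.norm_eq_abs]
    exact mul_le_mul_of_nonneg_right (hb w) (norm_nonneg _)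
  · exact (hc.continuousAt (isOpen_compl_singleton.mem_nhds hw)).smul continuousAt_id

/-- The radial homeomorphism with factor `ρ`. -/
noncomputable def t09_rad (ρ : ℂ → ℝ) (hc : ContinuousOn ρ {0}ᶜ) (h1 : ∀ w, 1 ≤ ρ w)
    (h2 : ∀ w, ρ w ≤ 2) (hr : ∀ (r : ℝ) w, 0 < r → ρ (r • w) = ρ w) : ℂ ≃ₜ ℂ where
  toFun w := ρ w • w
  invFun w := (ρ w)⁻¹ • w
  left_inv w := by
    have h0 : 0 < ρ w := one_pos.trans_le (h1 w)
    simp only [hr _ _ h0, smul_smul, inv_mul_cancel₀ h0.ne', one_smul]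
  right_inv w := by
    have h0 : 0 < ρ w := one_pos.trans_le (h1 w)
    simp only [hr _ _ (inv_pos.2 h0), smul_smul, mul_inv_cancel₀ h0.ne', one_smul]
  continuous_toFun := t09_cont hc fun w => by
    rw [abs_of_nonneg (zero_le_one.trans (h1 w))]
    exact h2 w
  continuous_invFun := t09_cont (hc.inv₀ fun w _ => (one_pos.trans_le (h1 w)).ne') fun w => by
    rw [abs_of_nonneg (inv_nonneg.2 (zero_le_one.trans (h1 w)))]
    exact (inv_le_one_of_one_le₀ (h1 w)).trans one_le_two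

theorem lens {x y : ℂ} (hx : ‖x‖ = 1) (hy : ‖y‖ = 1) {U : Set ℂ} (hU : IsOpen U)
    (hs : closedBall (0 : ℂ) 1 \ {x, y} ⊆ U) :
    ∃ θ : ℂ ≃ₜ ℂ, θ x = x ∧ θ y = y ∧ θ '' ball 0 1 ⊆ U ∧
      closedBall (0 : ℂ) 1 \ {x, y} ⊆ θ '' ball 0 1 := by
  let S : Set ℂ := Uᶜ ∪ {x, y}
  have hS : IsClosed S := hU.isClosed_compl.union (toFinite _).isClosed
  have hne : S.Nonempty := ⟨x, Or.inr (Or.inl rfl)⟩
  let ρ : ℂ → ℝ := fun w => 1 + min 1 (infDist (‖w‖⁻¹ • w) S / 2)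
  have hc : ContinuousOn ρ {0}ᶜ :=
    continuousOn_const.add (continuousOn_const.inf (((continuous_infDist_pt S).comp_continuousOn
      ((continuous_norm.continuousOn.inv₀ fun w hw => norm_ne_zero_iff.2 hw).smul
        continuousOn_id)).div_const 2))
  have h1 : ∀ w, 1 ≤ ρ w := fun w =>
    le_add_of_nonneg_right (le_min zero_le_one (div_nonneg infDist_nonneg zero_le_two))
  have h2 : ∀ w, ρ w ≤ 2 := fun w => by
    have := min_le_left 1 (infDist (‖w‖⁻¹ • w) S / 2)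
    simp only [ρ]
    linarith
  have hr : ∀ (r : ℝ) w, 0 < r → ρ (r • w) = ρ w := fun r w hr => by
    have : ‖r • w‖⁻¹ • r • w = ‖w‖⁻¹ • w := by
      rw [norm_smul, Real.norm_of_nonneg hr.le, smul_smul, mul_inv_rev, mul_assoc,
        inv_mul_cancel₀ hr.ne', mul_one]
    simp only [ρ, this]
  have hxy : ∀ z ∈ ({x, y} : Set ℂ), ‖z‖ = 1 ∧ ρ z = 1 := fun z hz => by
    have hz1 : ‖z‖ = 1 := by
      rcases hz with rfl | rfl
      · exact hx
      · exact hy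
    refine ⟨hz1, ?_⟩
    simp only [ρ, hz1, inv_one, one_smul, infDist_zero_of_mem (show z ∈ S from Or.inr hz)]
    simp
  refine ⟨t09_rad ρ hc h1 h2 hr, ?_, ?_, ?_, fun w hw => ?_⟩
  · change ρ x • x = x
    rw [(hxy x (Or.inl rfl)).2, one_smul]
  · change ρ y • y = y
    rw [(hxy y (Or.inr rfl)).2, one_smul]
  · rintro _ ⟨w, hw, rfl⟩
    change ρ w • w ∈ U
    rw [mem_ball_zero_iff] at hw
    have h0 : 0 < ρ w := one_pos.trans_le (h1 w)
    have hn : ‖ρ w • w‖ = ρ w * ‖w‖ := by rw [norm_smul, Real.norm_of_nonneg h0.le]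
    rcases le_or_gt ‖ρ w • w‖ 1 with h | h
    · refine hs ⟨mem_closedBall_zero_iff.2 h, fun hz => ?_⟩
      obtain ⟨h3, h4⟩ := hxy _ hz
      rw [hr _ _ h0] at h4
      rw [h4, one_smul] at h3
      exact hw.ne h3
    · by_contra hnU
      have hw0 : 0 < ‖w‖ := by
        rw [hn] at h
        exact pos_of_mul_pos_right (one_pos.trans h) h0.le
      have h3 : infDist (‖w‖⁻¹ • w) S ≤ dist (‖w‖⁻¹ • w) (ρ w • w) :=
        infDist_le_dist_of_mem (Or.inl hnU)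
      have h4 : dist (‖w‖⁻¹ • w) (ρ w • w) = ρ w * ‖w‖ - 1 := by
        rw [dist_comm, dist_eq_norm, ← sub_smul, norm_smul, Real.norm_eq_abs,
          ← abs_of_pos hw0, ← abs_mul, abs_of_pos hw0, sub_mul, inv_mul_cancel₀ hw0.ne']
        exact abs_of_pos (by rw [hn] at h; linarith)
      have h5 : ρ w ≤ 1 + infDist (‖w‖⁻¹ • w) S / 2 := add_le_add_right (min_le_right _ _) 1
      have h6 : 0 ≤ infDist (‖w‖⁻¹ • w) S := infDist_nonneg
      have h7 : ρ w * ‖w‖ < ρ w := mul_lt_of_lt_one_right h0 hw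
      linarith
  · refine ⟨(ρ w)⁻¹ • w, ?_, (t09_rad ρ hc h1 h2 hr).right_inv w⟩
    have h0 : 0 < ρ w := one_pos.trans_le (h1 w)
    rw [mem_ball_zero_iff, norm_smul, Real.norm_of_nonneg (inv_nonneg.2 h0.le), inv_mul_lt_iff₀ h0,
      mul_one]
    rcases (mem_closedBall_zero_iff.1 hw.1).lt_or_eq with h | h
    · exact h.trans_le (h1 w)
    · have h3 : w ∉ S := fun h3 => h3.elim (fun h4 => h4 (hs hw)) hw.2
      have h4 := (hS.notMem_iff_infDist_pos hne).1 h3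
      simp only [ρ, h, inv_one, one_smul]
      exact lt_add_of_pos_right _ (lt_min one_pos (half_pos h4))

theorem bigon_move (e : ℂ ≃ₜ X) {x y : X} {a b : Path x y} (ha : Injective a) (hb : Injective b)
    (h : range a ∩ range b ⊆ {x, y}) (hw : Wand Γ (range a ∪ range b)) {Z : Set X}
    (hZ : IsClosed Z) (hinv : ∀ (g : Γ), ∀ z ∈ Z, g • z ∈ Z)
    (hZJ : Z ∩ (range a ∪ range b) ⊆ {x, y})
    (hu : ∀ z ∈ Z, z ∉ range a ∪ range b →
      ∃ T, IsPreconnected T ∧ z ∈ T ∧ Disjoint T (range a ∪ range b) ∧ Unb T) :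
    ∃ H : X ≃ₜ X, EqIso Γ H ∧ (∀ t, H (a t) = b t) ∧ ∀ z ∈ Z, H z = z := by
  obtain ⟨Ψ, hΨ⟩ := jordan2 e ha hb h
  obtain ⟨U, Uo, hU, Uw⟩ := exists_nhds_wand e (Dsc.isCompact_cl _)
    (wand_of_boundary Ψ (hΨ ▸ hw))
  have sp : ∀ z ∈ range a ∪ range b, ‖Ψ.symm z‖ = 1 := fun z hz => by
    obtain ⟨w, hw, rfl⟩ := hΨ.ge hz
    exact (congrArg _ (Ψ.symm_apply_apply w)).trans (mem_sphere_zero_iff_norm.1 hw)
  have hx := sp x (Or.inl a.source_mem_range)
  have hy := sp y (Or.inl a.target_mem_range)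
  have pr : ∀ {w}, w ∉ ({Ψ.symm x, Ψ.symm y} : Set ℂ) ↔ Ψ w ∉ ({x, y} : Set X) := by
    simp [Ψ.eq_symm_apply]
  obtain ⟨θ, tx, ty, t1, t2⟩ := lens hx hy ((Uo.sdiff hZ).preimage Ψ.continuous) fun w hw =>
    ⟨hU ⟨w, hw.1, rfl⟩, fun hz => by
      by_cases hJ : Ψ w ∈ range a ∪ range b
      · exact pr.1 hw.2 (hZJ ⟨hz, hJ⟩)
      · obtain ⟨T, h1, h2, h3, h4⟩ := hu _ hz hJ
        exact disjoint_left.1 ((Dsc.ofHomeo Ψ).disjoint_cl h1 (hΨ ▸ h3) h4) h2 ⟨w, hw.1, rfl⟩⟩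
  have hi : (Dsc.ofHomeo (θ.trans Ψ)).int ⊆ U \ Z := forall_mem_image.2 fun w hw => t1 ⟨w, hw, rfl⟩
  have pp : ∀ d : Path x y, Injective d → range d ⊆ range a ∪ range b →
      (Dsc.ofHomeo (θ.trans Ψ)).Proper d := fun d hd hr => by
    refine ⟨hd, ⟨_, mem_sphere_zero_iff_norm.2 hx, (congrArg Ψ tx).trans (Ψ.apply_symm_apply x)⟩,
      ⟨_, mem_sphere_zero_iff_norm.2 hy, (congrArg Ψ ty).trans (Ψ.apply_symm_apply y)⟩,
      fun t t0 t1 => ?_⟩
    obtain ⟨w, hw, ew⟩ := t2 (a := Ψ.symm (d t))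
      ⟨mem_closedBall_zero_iff.2 (sp _ (hr ⟨t, rfl⟩)).le, pr.2 (by
        rw [Ψ.apply_symm_apply]
        rintro (e | e)
        · exact t0 (hd (e.trans d.source.symm))
        · exact t1 (hd (e.trans d.target.symm)))⟩
    exact ⟨w, hw, (congrArg Ψ ew).trans (Ψ.apply_symm_apply _)⟩
  obtain ⟨H, h1, h2, h3⟩ := kmove e _ (Uw.mono (hi.trans sdiff_subset)) a b
    (pp a ha subset_union_left) (pp b hb subset_union_right)
  exact ⟨H, h1, h2, fun z hz => h3 z fun ⟨g, hg⟩ => (hi hg).2 (hinv g z hz)⟩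

theorem exists_thin {a b : ℝ} (hab : a < b) {U : Set ℂ} (hU : IsOpen U)
    (hs : ∀ t ∈ Icc a b, (t : ℂ) ∈ U) :
    ∃ s : Set ℂ, Convex ℝ s ∧ IsOpen s ∧ Bornology.IsBounded s ∧ s ⊆ U ∧
      (a : ℂ) ∈ frontier s ∧ (b : ℂ) ∈ frontier s ∧ ∀ t : ℝ, (t : ℂ) ∈ s ↔ a < t ∧ t < b := by
  have hc : IsCompact (Complex.ofRealCLM '' Icc a b) :=
    isCompact_Icc.image Complex.ofRealCLM.continuous
  obtain ⟨ε, hε, h⟩ := hc.exists_thickening_subset_open hU (forall_mem_image.2 hs)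
  have ho : IsOpen (thickening ε (Complex.ofRealCLM '' Icc a b) ∩ Complex.reCLM ⁻¹' Ioo a b) :=
    isOpen_thickening.inter (isOpen_Ioo.preimage Complex.reCLM.continuous)
  have hm : ∀ t : ℝ, (t : ℂ) ∈ thickening ε (Complex.ofRealCLM '' Icc a b) ∩
      Complex.reCLM ⁻¹' Ioo a b ↔ a < t ∧ t < b := fun t =>
    ⟨fun h => h.2, fun h => ⟨self_subset_thickening hε _ ⟨t, Ioo_subset_Icc_self h, rfl⟩, h⟩⟩
  have hcl : ∀ t ∈ Icc a b, (t : ℂ) ∈ closure (thickening ε (Complex.ofRealCLM '' Icc a b) ∩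
      Complex.reCLM ⁻¹' Ioo a b) := fun t ht =>
    closure_mono (forall_mem_image.2 fun t => (hm t).2)
      (image_closure_subset_closure_image Complex.continuous_ofReal
        ⟨t, (closure_Ioo hab.ne).ge ht, rfl⟩)
  refine ⟨_, (((convex_Icc a b).linear_image Complex.ofRealCLM.toLinearMap).thickening ε).inter
    ((convex_Ioo a b).linear_preimage Complex.reCLM.toLinearMap), ho,
    hc.isBounded.thickening.subset inter_subset_left, inter_subset_left.trans h, ?_, ?_, hm⟩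
  · exact ho.frontier_eq.ge ⟨hcl a ⟨le_rfl, hab.le⟩, fun h => ((hm a).1 h).1.false⟩
  · exact ho.frontier_eq.ge ⟨hcl b ⟨hab.le, le_rfl⟩, fun h => ((hm b).1 h).2.false⟩

theorem Same.symm {L : Set X} {x y : X} (h : Same L x y) : Same L y x := by
  obtain ⟨T, h1, h2, h3, h4⟩ := h
  exact ⟨T, h1, h2, h4, h3⟩

theorem Same.trans {L : Set X} {x y z : X} (h : Same L x y) (h' : Same L y z) : Same L x z := by
  obtain ⟨T, h1, h2, h3, h4⟩ := h
  obtain ⟨T', h5, h6, h7, h8⟩ := h'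
  exact ⟨T ∪ T', h1.union y h4 h7 h5, disjoint_union_left.2 ⟨h2, h6⟩, .inl h3, .inr h8⟩

theorem Same.left_notMem {L : Set X} {x y : X} (h : Same L x y) : x ∉ L := by
  obtain ⟨T, -, h2, h3, -⟩ := h
  exact disjoint_left.1 h2 h3

theorem Same.right_notMem {L : Set X} {x y : X} (h : Same L x y) : y ∉ L :=
  h.symm.left_notMem

theorem same_refl {L : Set X} {x : X} (h : x ∉ L) : Same L x x :=
  ⟨{x}, isPreconnected_singleton, disjoint_singleton_left.2 h, rfl, rfl⟩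

theorem same_of_preconnected {L T : Set X} (hT : IsPreconnected T) (hd : Disjoint T L) {x y : X}
    (hx : x ∈ T) (hy : y ∈ T) : Same L x y := ⟨T, hT, hd, hx, hy⟩

theorem t11a_image {Y Y' : Type} [TopologicalSpace Y] [TopologicalSpace Y'] (F : Y ≃ₜ Y')
    {L : Set Y} {x y : Y} (h : Same L x y) : Same (F '' L) (F x) (F y) := by
  obtain ⟨T, h1, h2, h3, h4⟩ := h
  exact ⟨F '' T, h1.image F F.continuous.continuousOn, (disjoint_image_iff F.injective).2 h2,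
    mem_image_of_mem F h3, mem_image_of_mem F h4⟩

theorem t11a_image_iff {Y Y' : Type} [TopologicalSpace Y] [TopologicalSpace Y'] (F : Y ≃ₜ Y')
    {L : Set Y} {x y : Y} : Same (F '' L) (F x) (F y) ↔ Same L x y :=
  ⟨fun h => by simpa [image_image] using t11a_image F.symm h, t11a_image F⟩

theorem same_image {X' : Type} [TopologicalSpace X'] (F : X ≃ₜ X') {L : Set X} {x y : X} :
    Same (F '' L) (F x) (F y) ↔ Same L x y := t11a_image_iff F

theorem same_smul (g : Γ) {L : Set X} {x y : X} :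
    Same (g • L) (g • x) (g • y) ↔ Same L x y := same_image (Homeomorph.smul g)

theorem mem_hor {Φ : ℂ ≃ₜ X} {w : ℂ} : Φ w ∈ hor Φ ↔ w.im = 0 :=
  Φ.injective.mem_set_image

theorem mem_ver {Φ : ℂ ≃ₜ X} {r : ℝ} {w : ℂ} : Φ w ∈ ver Φ r ↔ w.re = r :=
  Φ.injective.mem_set_image

theorem mem_hor_iff {Φ : ℂ ≃ₜ X} {x : X} : x ∈ hor Φ ↔ ∃ t : ℝ, x = Φ t := by
  refine ⟨?_, ?_⟩
  · rintro ⟨w, hw, rfl⟩
    exact ⟨w.re, congrArg Φ (Complex.ext (by simp) (by simpa using hw))⟩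
  · rintro ⟨t, rfl⟩
    exact mem_hor.2 (by simp)

theorem same_hor {Φ : ℂ ≃ₜ X} {w w' : ℂ} : Same (hor Φ) (Φ w) (Φ w') ↔ 0 < w.im * w'.im := by
  refine (t11a_image_iff Φ).trans ⟨?_, fun h => ?_⟩
  · rintro ⟨T, h1, h2, h3, h4⟩
    by_contra h
    have h5 : (0 : ℝ) ∈ uIcc w.im w'.im := by
      rcases mul_nonpos_iff.1 (not_lt.1 h) with h | h
      exacts [mem_uIcc.2 (.inr ⟨h.2, h.1⟩), mem_uIcc.2 (.inl ⟨h.1, h.2⟩)]
    obtain ⟨v, hv, e⟩ := (h1.image _ Complex.continuous_im.continuousOn).ordConnected.uIcc_subset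
      (mem_image_of_mem _ h3) (mem_image_of_mem _ h4) h5
    exact disjoint_left.1 h2 hv e
  · rcases mul_pos_iff.1 h with h | h
    · exact ⟨_, (convex_halfSpace_im_gt 0).isPreconnected,
        disjoint_left.2 fun v h1 h2 => (ne_of_gt h1) h2, h.1, h.2⟩
    · exact ⟨_, (convex_halfSpace_im_lt 0).isPreconnected,
        disjoint_left.2 fun v h1 h2 => (ne_of_lt h1) h2, h.1, h.2⟩

/-- The chart `w ↦ r - i w`. -/
noncomputable def t11a_rot (r : ℝ) : ℂ ≃ₜ ℂ :=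
  (Homeomorph.mulLeft₀ (-Complex.I) (by simp)).trans (Homeomorph.addLeft (r : ℂ))

theorem t11a_rot_re (r : ℝ) (w : ℂ) : (t11a_rot r w).re - r = w.im := by simp [t11a_rot]

theorem t11a_ver (Φ : ℂ ≃ₜ X) (r : ℝ) : ver Φ r = hor ((t11a_rot r).trans Φ) := by
  ext x
  obtain ⟨w, rfl⟩ := ((t11a_rot r).trans Φ).surjective x
  rw [mem_hor, Homeomorph.trans_apply, mem_ver, ← t11a_rot_re r w, sub_eq_zero]

theorem same_ver {Φ : ℂ ≃ₜ X} {r : ℝ} {w w' : ℂ} :
    Same (ver Φ r) (Φ w) (Φ w') ↔ 0 < (w.re - r) * (w'.re - r) := by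
  obtain ⟨v, rfl⟩ := (t11a_rot r).surjective w
  obtain ⟨v', rfl⟩ := (t11a_rot r).surjective w'
  rw [t11a_ver, t11a_rot_re, t11a_rot_re]
  exact same_hor (Φ := (t11a_rot r).trans Φ)

theorem isLine_ver (Φ : ℂ ≃ₜ X) (r : ℝ) : IsLine (ver Φ r) := ⟨_, t11a_ver Φ r⟩


theorem t11b_side (Φ : ℂ ≃ₜ X) (w : ℂ) :
    {y | Same (hor Φ) (Φ w) y} = Φ '' {w' | 0 < w.im * w'.im} := by
  ext y
  obtain ⟨w', rfl⟩ := Φ.surjective y
  rw [mem_ofPred_eq, same_hor, Φ.injective.mem_set_image, mem_ofPred_eq]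

theorem t11b_convex (c : ℝ) : Convex ℝ {w' : ℂ | 0 < c * w'.im} := by
  intro x (hx : 0 < c * x.im) y (hy : 0 < c * y.im) a b ha hb hab
  change 0 < c * (a • x + b • y).im
  simp only [Complex.add_im, Complex.smul_im, smul_eq_mul]
  rcases ha.eq_or_lt with rfl | ha'
  · rw [zero_add] at hab
    rw [hab]
    simpa using hy
  · nlinarith [mul_pos ha' hx, mul_nonneg hb hy.le]

theorem t11b_convex' (c : ℝ) : Convex ℝ {w' : ℂ | 0 ≤ c * w'.im} := by
  intro x (hx : 0 ≤ c * x.im) y (hy : 0 ≤ c * y.im) a b ha hb _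
  change 0 ≤ c * (a • x + b • y).im
  simp only [Complex.add_im, Complex.smul_im, smul_eq_mul]
  nlinarith [mul_nonneg ha hx, mul_nonneg hb hy]

theorem t11b_union {c : ℝ} (hc : c ≠ 0) :
    {w : ℂ | w.im = 0} ∪ {w' : ℂ | 0 < c * w'.im} = {w' : ℂ | 0 ≤ c * w'.im} := by
  ext w
  simp only [mem_union, mem_ofPred_eq]
  constructor
  · rintro (h | h)
    · rw [h, mul_zero]
    · exact h.le
  · intro h
    rcases h.eq_or_lt with h | h
    · exact Or.inl ((mul_eq_zero.1 h.symm).resolve_left hc)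
    · exact Or.inr h

theorem t11b_closure {c : ℝ} (hc : c ≠ 0) :
    closure {w' : ℂ | 0 < c * w'.im} = {w' : ℂ | 0 ≤ c * w'.im} := by
  rcases hc.lt_or_gt with h | h
  · have e1 : {w' : ℂ | 0 < c * w'.im} = {w' : ℂ | w'.im < 0} := by
      ext w
      simp only [mem_ofPred_eq]
      exact ⟨fun h1 => by nlinarith, fun h1 => mul_pos_of_neg_of_neg h h1⟩
    have e2 : {w' : ℂ | 0 ≤ c * w'.im} = {w' : ℂ | w'.im ≤ 0} := by
      ext w
      simp only [mem_ofPred_eq]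
      exact ⟨fun h1 => by nlinarith, fun h1 => mul_nonneg_of_nonpos_of_nonpos h.le h1⟩
    rw [e1, e2, Complex.closure_setOfPred_im_lt]
  · have e1 : {w' : ℂ | 0 < c * w'.im} = {w' : ℂ | 0 < w'.im} := by
      ext w
      simp only [mem_ofPred_eq]
      exact mul_pos_iff_of_pos_left h
    have e2 : {w' : ℂ | 0 ≤ c * w'.im} = {w' : ℂ | 0 ≤ w'.im} := by
      ext w
      simp only [mem_ofPred_eq]
      exact mul_nonneg_iff_of_pos_left h
    rw [e1, e2, Complex.closure_setOfPred_lt_im]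

theorem t11b_unb {s : Set ℂ} {c : ℝ} (h : ∀ t : ℝ, (t : ℂ) + c * Complex.I ∈ s) : Unb s := by
  refine unb_of_not_bounded fun hb => ?_
  obtain ⟨R, hR⟩ := hb.exists_norm_le
  have h1 := (Complex.re_le_norm _).trans (hR _ (h (R + 1)))
  simp only [Complex.add_re, Complex.ofReal_re, Complex.mul_re, Complex.I_re, mul_zero,
    Complex.ofReal_im, Complex.I_im, sub_self, add_zero, mul_one] at h1
  linarith

theorem t11b_image {X' : Type} [TopologicalSpace X'] (Φ : ℂ ≃ₜ X) (F : X ≃ₜ X') :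
    F '' hor Φ = hor (Φ.trans F) := by
  rw [hor, hor, image_image]
  rfl

namespace IsLine

variable {L : Set X} (hL : IsLine L)
include hL

theorem isClosed : IsClosed L := by
  obtain ⟨Φ, rfl⟩ := hL
  exact Φ.isClosedMap _ (isClosed_eq Complex.continuous_im continuous_const)

theorem isPreconnected : IsPreconnected L := by
  obtain ⟨Φ, rfl⟩ := hL
  refine IsPreconnected.image (Convex.isPreconnected ?_) _ Φ.continuous.continuousOn
  intro x (hx : x.im = 0) y (hy : y.im = 0) a b _ _ _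
  change (a • x + b • y).im = 0
  simp [hx, hy]

theorem unb : Unb L := by
  obtain ⟨Φ, rfl⟩ := hL
  exact (t11b_unb (c := 0) fun t => by simp).image Φ

theorem nonempty : L.Nonempty := by
  obtain ⟨Φ, rfl⟩ := hL
  exact ⟨Φ 0, mem_hor.2 rfl⟩

theorem image (F : X ≃ₜ X) : IsLine (F '' L) := by
  obtain ⟨Φ, rfl⟩ := hL
  exact ⟨_, t11b_image Φ F⟩

theorem smul (g : Γ) : IsLine (g • L) := hL.image (Homeomorph.smul g)

theorem dense_compl : Dense Lᶜ := by
  obtain ⟨Φ, rfl⟩ := hL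
  have h1 : Dense {w : ℂ | w.im = 0}ᶜ := by
    rw [← interior_eq_empty_iff_dense_compl]
    have := Complex.interior_preimage_im {0}
    rw [interior_singleton, preimage_empty] at this
    exact this
  rw [hor, ← image_compl_eq Φ.bijective]
  exact Φ.surjective.denseRange.dense_image Φ.continuous h1

theorem two_sides {x y z : X} (hx : x ∉ L) (hy : y ∉ L) (hz : z ∉ L) (h1 : ¬ Same L x y)
    (h2 : ¬ Same L x z) : Same L y z := by
  obtain ⟨Φ, rfl⟩ := hL
  obtain ⟨x, rfl⟩ := Φ.surjective x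
  obtain ⟨y, rfl⟩ := Φ.surjective y
  obtain ⟨z, rfl⟩ := Φ.surjective z
  rw [mem_hor] at hx hy hz
  rw [same_hor, not_lt] at h1 h2
  rw [same_hor]
  have h3 := lt_of_le_of_ne h1 (mul_ne_zero hx hy)
  have h4 := lt_of_le_of_ne h2 (mul_ne_zero hx hz)
  have h5 := mul_pos_of_neg_of_neg h3 h4
  have h6 : 0 < x.im * x.im := mul_self_pos.2 hx
  refine (mul_pos_iff_of_pos_left h6).1 ?_
  linarith

theorem exists_other {x : X} (hx : x ∉ L) : ∃ y, y ∉ L ∧ ¬ Same L x y := by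
  obtain ⟨Φ, rfl⟩ := hL
  obtain ⟨x, rfl⟩ := Φ.surjective x
  rw [mem_hor] at hx
  refine ⟨Φ (-x), by rwa [mem_hor, Complex.neg_im, neg_eq_zero], ?_⟩
  rw [same_hor, Complex.neg_im, not_lt]
  nlinarith [mul_self_nonneg x.im]

theorem isOpen_side (x : X) : IsOpen {y | Same L x y} := by
  obtain ⟨Φ, rfl⟩ := hL
  obtain ⟨x, rfl⟩ := Φ.surjective x
  rw [t11b_side]
  exact Φ.isOpenMap _ (isOpen_lt continuous_const (continuous_const.mul Complex.continuous_im))

theorem isPreconnected_side (x : X) : IsPreconnected {y | Same L x y} := by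
  obtain ⟨Φ, rfl⟩ := hL
  obtain ⟨x, rfl⟩ := Φ.surjective x
  rw [t11b_side]
  exact (t11b_convex _).isPreconnected.image _ Φ.continuous.continuousOn

theorem unb_side {x : X} (hx : x ∉ L) : Unb {y | Same L x y} := by
  obtain ⟨Φ, rfl⟩ := hL
  obtain ⟨x, rfl⟩ := Φ.surjective x
  rw [mem_hor] at hx
  rw [t11b_side]
  exact (t11b_unb (c := x.im) fun t => by simpa using hx).image Φ

theorem closure_side {x : X} (hx : x ∉ L) : closure {y | Same L x y} = L ∪ {y | Same L x y} := by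
  obtain ⟨Φ, rfl⟩ := hL
  obtain ⟨x, rfl⟩ := Φ.surjective x
  rw [mem_hor] at hx
  rw [t11b_side, ← Φ.image_closure, t11b_closure hx, hor, ← image_union, t11b_union hx]

theorem isPreconnected_cside {x : X} (hx : x ∉ L) :
    IsPreconnected (L ∪ {y | Same L x y}) := by
  rw [← hL.closure_side hx]
  exact (hL.isPreconnected_side x).closure

end IsLine

theorem t12_side {L₁ L₂ T : Set X} (h₂ : IsPreconnected L₂) (hd : Disjoint L₂ L₁)
    (hT : IsPreconnected T) (hT₁ : Disjoint T L₁) (hc : (closure T ∩ L₂).Nonempty) {x : X}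
    (hx : x ∈ T) {y : X} (hy : y ∈ L₂) : Same L₁ x y := by
  obtain ⟨p, hp, hp₂⟩ := hc
  exact (same_of_preconnected (hT.subset_closure (subset_insert p T)
    (insert_subset hp subset_closure)) (disjoint_insert_left.2 ⟨disjoint_left.1 hd hp₂, hT₁⟩)
    (mem_insert_of_mem _ hx) (mem_insert _ _)).trans (same_of_preconnected h₂ hd hp₂ hy)

theorem nested {L₁ L₂ S T : Set X} (h₁ : IsLine L₁) (h₂ : IsLine L₂)
    (hd : (L₁ ∩ L₂).Nonempty → L₁ = L₂) (hT : IsPreconnected T) (hT₁ : Disjoint T L₁)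
    (hT₂ : Disjoint T L₂) (hc₁ : (closure T ∩ L₁).Nonempty) (hc₂ : (closure T ∩ L₂).Nonempty)
    {x : X} (hx : x ∈ T) (hS : S.Nonempty) (hs₁ : ∀ y ∈ S, ¬ Same L₁ x y)
    (hs₂ : ∀ y ∈ S, ¬ Same L₂ x y) : L₁ = L₂ := by
  by_contra hne
  have hdis : Disjoint L₁ L₂ := not_not.1 fun h => hne (hd (not_disjoint_iff_nonempty_inter.1 h))
  have hx₁ := disjoint_left.1 hT₁ hx
  obtain ⟨y, hy⟩ := hS
  obtain ⟨p, hp⟩ := h₁.nonempty
  obtain ⟨x', hx', hxx⟩ := h₁.exists_other hx₁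
  refine hs₂ y hy ((t12_side h₁.isPreconnected hdis hT hT₂ hc₁ hx hp).trans
    (same_of_preconnected (h₁.isPreconnected_cside hx') (disjoint_left.2 fun q hq hq₂ => ?_)
      (Or.inl hp) ?_))
  · have h := t12_side h₂.isPreconnected hdis.symm hT hT₁ hc₂ hx hq₂
    exact hq.elim h.right_notMem fun h' => hxx (h.trans (Same.symm h'))
  · exact or_iff_not_imp_left.2 fun hy₁ => h₁.two_sides hx₁ hx' hy₁ hxx (hs₁ y hy)

theorem local_inside (E : Dsc X) {L : Set X} (hL : IsLine L) {x z : X} (hx : x ∉ L)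
    (hb : E.bd ⊆ L ∪ {y | Same L x y}) (hz : z ∈ E.bd) (hzL : z ∈ L)
    (hloc : ∃ V ∈ 𝓝 z, E.bd ∩ V ⊆ L) : ∃ V ∈ 𝓝 z, ∀ y ∈ V, Same L x y → y ∈ E.int := by
  obtain ⟨V, hV, hVL⟩ := hloc
  obtain ⟨x', hx', hxx⟩ := hL.exists_other hx
  have hfar := E.disjoint_cl (hL.isPreconnected_side x') (disjoint_left.2 fun q hq hq' =>
    (hb hq').elim (Same.right_notMem hq) fun h => hxx (Same.trans h (Same.symm hq)))
    (hL.unb_side hx')
  obtain ⟨Φ, hΦ⟩ := id hL
  obtain ⟨a, rfl⟩ := Φ.surjective x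
  obtain ⟨b, rfl⟩ := Φ.surjective z
  obtain ⟨ε, hε, hB⟩ := Metric.mem_nhds_iff.1 (Φ.continuous.continuousAt.preimage_mem_nhds hV)
  have hO := Φ.isOpenMap _ (isOpen_ball (x := b) (ε := ε))
  have hbO : Φ b ∈ Φ '' ball b ε := mem_image_of_mem _ (mem_ball_self hε)
  have key : ∀ y ∈ Φ '' ball b ε, Same L (Φ a) y →
      y ∈ Φ '' (ball b ε ∩ {w | 0 < a.im * w.im}) := by
    rintro _ ⟨w, hw, rfl⟩ h
    exact ⟨w, ⟨hw, same_hor.1 (hΦ ▸ h)⟩, rfl⟩
  refine ⟨_, hO.mem_nhds hbO, fun y hy h => E.subset_int (((convex_ball b ε).inter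
    (convex_halfSpace_gt (f := fun w : ℂ => a.im * w.im) ⟨fun _ _ => by simp [mul_add],
      fun _ _ => by simp [mul_left_comm]⟩ 0)).isPreconnected.image _ Φ.continuous.continuousOn)
    (disjoint_left.2 ?_) ?_ (key y hy h)⟩
  · rintro _ ⟨w, ⟨hw, hw'⟩, rfl⟩ hq
    have h0 : w.im = 0 := mem_hor.1 (hΦ ▸ hVL ⟨hq, hB hw⟩)
    simp [h0] at hw'
  · obtain ⟨q, ⟨hq, hq'⟩, hqL⟩ := hL.dense_compl.inter_open_nonempty _ (hO.inter E.isOpen_int)
      (mem_closure_iff.1 (E.closure_int ▸ E.bd_subset_cl hz) _ hO hbO)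
    refine ⟨q, key q hq (not_not.1 fun h' => ?_), E.int_subset_cl hq'⟩
    exact disjoint_left.1 hfar (hL.two_sides hx hx' hqL hxx h') (E.int_subset_cl hq')

theorem Cross.congr {c c' : ℝ → X} {t : ℝ} {L : Set X} (h : Cross c t L) (he : c =ᶠ[𝓝 t] c') :
    Cross c' t L := by
  obtain ⟨ε, hε, h⟩ := h
  obtain ⟨δ, hδ, hB⟩ := Metric.eventually_nhds_iff.1 he
  refine ⟨min ε δ, lt_min hε hδ, fun s s' h1 h2 h3 h4 => ?_⟩
  have e1 := min_le_left ε δ
  have e2 := min_le_right ε δ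
  rw [← hB (y := s) (abs_lt.2 ⟨by linarith, by linarith⟩),
    ← hB (y := s') (abs_lt.2 ⟨by linarith, by linarith⟩)]
  exact h s s' (by linarith) h2 h3 (by linarith)

theorem Cross.shift {c : ℝ → X} {t k : ℝ} {L : Set X} (h : Cross c t L) (g : Γ)
    (he : ∀ s, c (s + k) = g • c s) : Cross c (t + k) (g • L) := by
  obtain ⟨ε, hε, h⟩ := h
  refine ⟨ε, hε, fun s s' h1 h2 h3 h4 => ?_⟩
  rw [← sub_add_cancel s k, ← sub_add_cancel s' k, he, he, smul_mem_smul_set_iff,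
    smul_mem_smul_set_iff, same_smul]
  exact h _ _ (by linarith) (by linarith) (by linarith) (by linarith)

theorem sides_pres {m : ℂ ≃ₜ X} {g : Γ} (hper : ∀ w, m (w + 1) = g • m w) {F : X ≃ₜ X}
    (hF : Equi Γ F) {r : ℝ} (hfix : F '' ver m r = ver m r) (w : ℂ) :
    (r < w.re → r < (m.symm (F (m w))).re) ∧ (w.re < r → (m.symm (F (m w))).re < r) := by
  have hn : ∀ (n : ℕ) (u : ℂ), m (u + n) = g ^ n • m u := fun n u => by
    induction n with
    | zero => simp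
    | succ n ih => rw [Nat.cast_succ, ← add_assoc, hper, ih, pow_succ', mul_smul]
  have h1 : ∀ (n : ℕ) (u v : ℂ), F (m (u + n)) = m (v + n) ↔ F (m u) = m v := fun n u v => by
    rw [hn, hn, hF, smul_left_cancel_iff]
  have key : ∀ u u' v v' : ℂ, F (m u) = m v → F (m u') = m v' →
      0 < (u.re - r) * (u'.re - r) → 0 < (v.re - r) * (v'.re - r) := fun u u' v v' e e' h => by
    rw [← same_ver (Φ := m), ← same_image F, hfix, e, e'] at h
    exact same_ver.1 h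
  obtain ⟨v, hv⟩ := m.surjective (F (m w))
  rw [← hv, m.symm_apply_apply]
  obtain ⟨n, hn'⟩ := exists_nat_gt |v.re - r|
  obtain ⟨n1, n2⟩ := abs_lt.1 hn'
  have n0 : (0 : ℝ) ≤ n := n.cast_nonneg
  refine ⟨fun h => ?_, fun h => ?_⟩
  · have := key _ _ _ _ hv.symm ((h1 n _ _).2 hv.symm)
    simp only [Complex.add_re, Complex.natCast_re] at this
    have h2 := this (mul_pos (by linarith) (by linarith))
    by_contra h3
    exact absurd h2 (not_lt.2 (mul_nonpos_of_nonpos_of_nonneg (by linarith) (by linarith)))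
  · have := key _ _ _ _ hv.symm ((h1 n (w - n) (v - n)).1 (by simpa using hv.symm))
    simp only [Complex.sub_re, Complex.natCast_re] at this
    have h2 := this (mul_pos_of_neg_of_neg (by linarith) (by linarith))
    by_contra h3
    exact absurd h2 (not_lt.2 (mul_nonpos_of_nonneg_of_nonpos (by linarith) (by linarith)))


end Pool.Agent.Lib.MP_66609f_al.DN.BE
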