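import Pool.Agent.Lib.MP_66609f_al.DN.E2

/-! Equivariant isotopies of a plane with walls, part 3. -/

namespace Pool.Agent.Lib.MP_66609f_al.DN.BE

open Set Metric Topology Function unitInterval
open scoped Pointwise

set_option linter.unusedSectionVars false

variable {Γ X : Type} [Group Γ] [TopologicalSpace X] [MulAction Γ X] [T2Space X]
  [ContinuousConstSMul Γ X] [ProperlyDiscontinuousSMul Γ X]

theorem t13a_ver_shift {Φ Φ' : ℂ ≃ₜ X} {c : ℝ} (e : ∀ w, Φ' w = Φ (w + c)) (r : ℝ) :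
    ver Φ' r = ver Φ (r + c) := by
  ext x
  obtain ⟨w, rfl⟩ := Φ'.surjective x
  rw [mem_ver, e, mem_ver]
  simp

theorem t13a_ver_neg {Φ Φ' : ℂ ≃ₜ X} (e : ∀ w, Φ' w = Φ (-w)) (r : ℝ) :
    ver Φ' r = ver Φ (-r) := by
  ext x
  obtain ⟨w, rfl⟩ := Φ'.surjective x
  rw [mem_ver, e, mem_ver]
  simp

theorem t13a_ver_smul {Φ Φ' : ℂ ≃ₜ X} {g : Γ} (e : ∀ w, Φ' w = g • Φ w) (r : ℝ) :
    ver Φ' r = g • ver Φ r := by
  ext x
  obtain ⟨w, rfl⟩ := Φ'.surjective x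
  rw [mem_ver, e, smul_mem_smul_set_iff, mem_ver]

namespace Chart

variable {wall : Bool → Set (Set X)} {κ : Bool} {L : Set X} {Φ : ℂ ≃ₜ X} {γ : Γ}
  (h : Chart wall κ L Φ γ)
include h

theorem isLine : IsLine L := ⟨Φ, h.axis⟩

theorem mem (t : ℝ) : Φ t ∈ L := by
  rw [h.axis, mem_hor]
  simp

theorem per_int (k : ℤ) (w : ℂ) : Φ (w + k) = γ ^ k • Φ w := by
  induction k using Int.induction_on with
  | zero => simp
  | succ n ih =>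
    rw [add_comm (n : ℤ) 1, zpow_add, zpow_one, mul_smul, ← ih, ← h.per]
    congr 1
    push_cast
    ring
  | pred n ih =>
    have e : Φ (w + ((-(n : ℤ) : ℤ) : ℂ)) = γ • Φ (w + ((-(n : ℤ) - 1 : ℤ) : ℂ)) := by
      rw [← h.per]
      congr 1
      push_cast
      ring
    rw [sub_eq_neg_add (-(n : ℤ)) 1, zpow_add, zpow_neg_one, mul_smul, ← ih, e, inv_smul_smul,
      ← sub_eq_neg_add]

theorem per_real (k : ℤ) (t : ℝ) : Φ ((t + k : ℝ) : ℂ) = γ ^ k • Φ t := by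
  rw [← h.per_int]
  congr 1
  push_cast
  ring

theorem zpow_eq_one {k : ℤ} (hk : γ ^ k = 1) : k = 0 := by
  have e := h.per_int k 0
  rw [hk, one_smul, zero_add] at e
  exact_mod_cast Φ.injective e

theorem zpow_smul (k : ℤ) : γ ^ k • L = L := by
  ext x
  obtain ⟨w, rfl⟩ := Φ.surjective x
  have e : Φ w = γ ^ k • Φ (w - k) := by
    rw [← h.per_int, sub_add_cancel]
  constructor
  · intro hx
    rw [e, smul_mem_smul_set_iff, h.axis, mem_hor] at hx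
    rw [h.axis, mem_hor]
    simpa using hx
  · intro hx
    rw [h.axis, mem_hor] at hx
    rw [e, smul_mem_smul_set_iff, h.axis, mem_hor]
    simpa using hx

theorem zpow_smul_ver (k : ℤ) (r : ℝ) : γ ^ k • ver Φ r = ver Φ (r + k) := by
  ext x
  obtain ⟨w, rfl⟩ := Φ.surjective x
  have e : Φ w = γ ^ k • Φ (w - k) := by
    rw [← h.per_int, sub_add_cancel]
  rw [mem_ver, e, smul_mem_smul_set_iff, mem_ver]
  simp [sub_eq_iff_eq_add]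

theorem same_of_stab {g : Γ} (hg : g • L = L) {x : X} (hx : x ∉ L) : Same L x (g • x) := by
  obtain ⟨k, rfl⟩ := h.stab g hg
  obtain ⟨w, rfl⟩ := Φ.surjective x
  rw [h.axis, mem_hor] at hx
  rw [← h.per_int, h.axis, same_hor]
  simpa using mul_self_pos.2 hx

theorem shift (k : ℤ) :
    ∃ Φ' : ℂ ≃ₜ X, Chart wall κ L Φ' γ ∧ ∀ w, Φ' w = Φ (w + ((k / 2 : ℝ) : ℂ)) := by
  obtain ⟨Φ', e⟩ : ∃ Φ' : ℂ ≃ₜ X, ∀ w, Φ' w = Φ (w + ((k / 2 : ℝ) : ℂ)) :=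
    ⟨(Homeomorph.addRight _).trans Φ, fun _ => rfl⟩
  refine ⟨Φ', ⟨?_, fun w => ?_, h.stab, fun j => ?_, fun M hM hne => ?_⟩, e⟩
  · ext x
    obtain ⟨w, rfl⟩ := Φ'.surjective x
    rw [mem_hor, e, h.axis, mem_hor, Complex.add_im, Complex.ofReal_im, add_zero]
  · rw [e, e, ← h.per, add_right_comm]
  · have := h.vert (j + k)
    rw [t13a_ver_shift e, ← add_div]
    exact_mod_cast this
  · obtain ⟨j, hj⟩ := h.meet M hM hne
    refine ⟨j - k, ?_⟩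
    rw [t13a_ver_shift e, hj]
    congr 1
    push_cast
    ring

theorem neg : ∃ Φ' : ℂ ≃ₜ X, Chart wall κ L Φ' γ⁻¹ ∧ ∀ w, Φ' w = Φ (-w) := by
  obtain ⟨Φ', e⟩ : ∃ Φ' : ℂ ≃ₜ X, ∀ w, Φ' w = Φ (-w) :=
    ⟨(Homeomorph.neg ℂ).trans Φ, fun _ => rfl⟩
  refine ⟨Φ', ⟨?_, fun w => ?_, fun g hg => ?_, fun j => ?_, fun M hM hne => ?_⟩, e⟩
  · ext x
    obtain ⟨w, rfl⟩ := Φ'.surjective x
    rw [mem_hor, e, h.axis, mem_hor, Complex.neg_im, neg_eq_zero]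
  · rw [e, e, eq_inv_smul_iff, ← h.per]
    congr 1
    ring
  · obtain ⟨k, rfl⟩ := h.stab g hg
    exact ⟨-k, by simp⟩
  · have := h.vert (-j)
    rw [t13a_ver_neg e, ← neg_div]
    exact_mod_cast this
  · obtain ⟨j, hj⟩ := h.meet M hM hne
    refine ⟨-j, ?_⟩
    rw [t13a_ver_neg e, hj]
    congr 1
    push_cast
    ring

theorem smul (hw : ∀ κ (g : Γ), ∀ L ∈ wall κ, g • L ∈ wall κ) (g : Γ) :
    ∃ Φ' : ℂ ≃ₜ X, Chart wall κ (g • L) Φ' (g * γ * g⁻¹) ∧ ∀ w, Φ' w = g • Φ w := by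
  obtain ⟨Φ', e⟩ : ∃ Φ' : ℂ ≃ₜ X, ∀ w, Φ' w = g • Φ w :=
    ⟨Φ.trans (Homeomorph.smul g), fun _ => rfl⟩
  refine ⟨Φ', ⟨?_, fun w => ?_, fun a ha => ?_, fun j => ?_, fun M hM hne => ?_⟩, e⟩
  · ext x
    obtain ⟨w, rfl⟩ := Φ'.surjective x
    rw [mem_hor, e, smul_mem_smul_set_iff, h.axis, mem_hor]
  · rw [e, e, h.per, mul_smul, mul_smul, inv_smul_smul]
  · obtain ⟨k, hk⟩ := h.stab (g⁻¹ * a * g) (by rw [mul_smul, mul_smul, ha, inv_smul_smul])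
    refine ⟨k, ?_⟩
    rw [conj_zpow, ← hk]
    group
  · rw [t13a_ver_smul e]
    exact hw _ _ _ (h.vert j)
  · obtain ⟨x, hx, hx'⟩ := hne
    obtain ⟨j, hj⟩ := h.meet (g⁻¹ • M) (hw _ _ _ hM)
      ⟨g⁻¹ • x, smul_mem_smul_set hx, mem_smul_set_iff_inv_smul_mem.1 hx'⟩
    refine ⟨j, ?_⟩
    rw [t13a_ver_smul e, ← hj, smul_inv_smul]

end Chart


namespace WallSys

variable (W : WallSys Γ X)

theorem isLine {κ : Bool} {L : Set X} (hL : L ∈ W.wall κ) : IsLine L :=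
  (W.chart κ L hL).elim fun _ h => h.elim fun _ h => h.isLine

theorem isClosed_sUnion {fam : Set (Set X)} (h : ∀ N ∈ fam, ∃ κ, N ∈ W.wall κ) :
    IsClosed (⋃₀ fam) := by
  have := W.base.locallyCompactSpace_iff.1 inferInstance
  rw [sUnion_eq_iUnion]
  refine LocallyFinite.isClosed_iUnion (fun x => ?_) fun N =>
    (h N N.2).elim fun _ hN => (W.isLine hN).isClosed
  obtain ⟨C, hC, hx⟩ := exists_compact_mem_nhds x
  refine ⟨C, hx, (((W.loc_fin false C hC).union (W.loc_fin true C hC)).preimage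
    Subtype.val_injective.injOn).subset fun N hN => ?_⟩
  obtain ⟨_ | _, h1⟩ := h N N.2
  exacts [.inl ⟨h1, hN⟩, .inr ⟨h1, hN⟩]

theorem isClosed_A (κ : Bool) : IsClosed (W.A κ) := W.isClosed_sUnion fun _ h => ⟨κ, h⟩

theorem smul_mem_A {κ : Bool} (g : Γ) {x : X} : g • x ∈ W.A κ ↔ x ∈ W.A κ := by
  have key : ∀ (g : Γ) (x : X), x ∈ W.A κ → g • x ∈ W.A κ := fun g x ⟨L, h1, h2⟩ =>
    ⟨g • L, W.smul_mem κ g L h1, smul_mem_smul_set h2⟩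
  exact ⟨fun h => inv_smul_smul g x ▸ key g⁻¹ _ h, key g x⟩

theorem dense_compl_A (κ : Bool) : Dense (W.A κ)ᶜ := by
  have := W.base.locallyCompactSpace_iff.1 inferInstance
  refine dense_iff_inter_open.2 fun U hU ⟨x, hx⟩ => ?_
  obtain ⟨C, hC, h1⟩ := exists_compact_mem_nhds x
  obtain ⟨y, h2, h3⟩ := (dense_biInter_of_isOpen (f := fun L : Set X => Lᶜ)
    (S := {L | L ∈ W.wall κ ∧ (L ∩ C).Nonempty})
    (fun L h => (W.isLine h.1).isClosed.isOpen_compl) (W.loc_fin κ C hC).countable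
    fun L h => (W.isLine h.1).dense_compl).inter_open_nonempty _ (hU.inter isOpen_interior)
      ⟨x, hx, mem_interior_iff_mem_nhds.2 h1⟩
  exact ⟨y, h2.1, fun ⟨L, h4, h5⟩ => mem_iInter₂.1 h3 L ⟨h4, y, h5, interior_subset h2.2⟩ h5⟩

theorem not_both {L : Set X} (h : L ∈ W.wall false) (h' : L ∈ W.wall true) : False := by
  obtain ⟨Φ, γ, c⟩ := W.chart false L h
  obtain ⟨k, hk⟩ := c.meet L h' ((inter_self L).symm ▸ c.isLine.nonempty)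
  have h1 := c.mem (k / 2 + 1)
  rw [hk, mem_ver, Complex.ofReal_re] at h1
  linarith

theorem smul_eq {κ : Bool} {L : Set X} (hL : L ∈ W.wall κ) {g : Γ} {x : X} (hx : x ∈ L)
    (hgx : g • x ∈ L) : g • L = L :=
  W.disj κ _ (W.smul_mem κ g L hL) L hL ⟨g • x, smul_mem_smul_set hx, hgx⟩

theorem smul_chart {κ : Bool} {L : Set X} (hL : L ∈ W.wall κ) {Φ : ℂ ≃ₜ X} {γ : Γ}
    (h : Chart W.wall κ L Φ γ) {g : Γ} {s t : ℝ} (hg : g • Φ s = Φ t) :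
    ∃ k : ℤ, g = γ ^ k ∧ t = s + k := by
  obtain ⟨k, rfl⟩ := h.stab g (W.smul_eq hL (h.mem s) (hg ▸ h.mem t))
  rw [← h.per_real] at hg
  exact ⟨k, rfl, (Complex.ofReal_injective (Φ.injective hg)).symm⟩

theorem wand_seg {κ : Bool} {L : Set X} (hL : L ∈ W.wall κ) {Φ : ℂ ≃ₜ X} {γ : Γ}
    (h : Chart W.wall κ L Φ γ) {a b : ℝ} (hab : |b - a| < 1) :
    Wand Γ ((fun t : ℝ => Φ t) '' uIcc a b) := by
  rintro g _ ⟨s, hs, rfl⟩ ⟨t, ht, e⟩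
  obtain ⟨k, rfl, rfl⟩ := W.smul_chart hL h e.symm
  have h1 := (abs_sub_le_of_uIcc_subset_uIcc (uIcc_subset_uIcc hs ht)).trans_lt hab
  rw [add_sub_cancel_left, ← Int.cast_abs, ← Int.cast_one, Int.cast_lt, Int.abs_lt_one_iff] at h1
  rw [h1, zpow_zero]

theorem mem_other {κ : Bool} {L : Set X} {Φ : ℂ ≃ₜ X} {γ : Γ} (h : Chart W.wall κ L Φ γ) {t : ℝ} :
    Φ t ∈ W.A (!κ) ↔ ∃ k : ℤ, t = k / 2 := by
  refine ⟨fun ⟨M, h1, h2⟩ => ?_, fun ⟨k, hk⟩ =>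
    ⟨_, h.vert k, mem_ver.2 ((Complex.ofReal_re t).trans hk)⟩⟩
  obtain ⟨k, rfl⟩ := h.meet M h1 ⟨_, h2, h.mem t⟩
  exact ⟨k, (Complex.ofReal_re t).symm.trans (mem_ver.1 h2)⟩

end WallSys

theorem WallSys.Nice.mono {W : WallSys Γ X} {κ : Bool} {ψ : Set X → ℂ ≃ₜ X} {S S' : Set X}
    (h : W.Nice κ ψ S') (hS : S ⊆ S') : W.Nice κ ψ S :=
  ⟨h.1.subset (inter_subset_inter_left _ hS), fun L hL z hz =>
    (h.2 L hL z ⟨hS hz.1, hz.2⟩).imp fun _ hV => ⟨hV.1, fun y hy => hV.2 y ⟨hS hy.1, hy.2⟩⟩⟩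

theorem t14_near {W : WallSys Γ X} {κ : Bool} {ψ : Set X → ℂ ≃ₜ X} {S : Set X}
    (h : W.Nice κ ψ S) (hc : IsClosed S) {L : Set X} (hL : L ∈ W.wall κ) {z : X} (hz : z ∈ L) :
    ∃ V ∈ 𝓝 z, ∀ y ∈ S ∩ V, ((ψ L).symm y).re = ((ψ L).symm z).re := by
  by_cases hs : z ∈ S
  · exact h.2 L hL z ⟨hs, hz⟩
  · exact ⟨Sᶜ, hc.isOpen_compl.mem_nhds hs, fun y hy => absurd hy.1 hy.2⟩

theorem WallSys.Nice.union {W : WallSys Γ X} {κ : Bool} {ψ : Set X → ℂ ≃ₜ X} {S S' : Set X}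
    (h : W.Nice κ ψ S) (h' : W.Nice κ ψ S') (hc : IsClosed S) (hc' : IsClosed S') :
    W.Nice κ ψ (S ∪ S') := by
  refine ⟨by rw [union_inter_distrib_right]; exact h.1.union h'.1, fun L hL z hz => ?_⟩
  obtain ⟨V, hV, h1⟩ := t14_near h hc hL hz.2
  obtain ⟨V', hV', h2⟩ := t14_near h' hc' hL hz.2
  exact ⟨V ∩ V', Filter.inter_mem hV hV', fun y hy =>
    hy.1.elim (fun k => h1 y ⟨k, hy.2.1⟩) fun k => h2 y ⟨k, hy.2.2⟩⟩

theorem t14_off {W : WallSys Γ X} {κ : Bool} {ψ : Set X → ℂ ≃ₜ X} {S : Set X}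
    (h : ∀ x ∈ S, x ∉ W.A κ) : W.Nice κ ψ S :=
  ⟨finite_empty.subset fun x hx => h x hx.1 hx.2, fun L hL z hz =>
    absurd ⟨L, hL, hz.2⟩ (h z hz.1)⟩

theorem t14_ball (Φ : ℂ ≃ₜ X) {O : Set X} (hO : IsOpen O) {w : ℂ} (hw : Φ w ∈ O) :
    ∃ ε, Φ '' ball w ε ∈ 𝓝 (Φ w) ∧ ∀ u ∈ ball w ε, Φ u ∈ O := by
  obtain ⟨ε, h0, h1⟩ := Metric.isOpen_iff.1 (hO.preimage Φ.continuous) w hw
  exact ⟨ε, Φ.isOpenMap.image_mem_nhds (ball_mem_nhds w h0), h1⟩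

theorem t14_seg {W : WallSys Γ X} {κ : Bool} {ψ : Set X → ℂ ≃ₜ X} (Φ : ℂ ≃ₜ X) {U : Set X}
    {p q : ℂ} (hpq : p ≠ q) (h : ∀ u ∈ segment ℝ p q, Φ u ∈ U ∧ Φ u ∉ W.A κ) :
    ∃ a : Path (Φ p) (Φ q), Injective a ∧ range a ⊆ U ∧ W.Nice κ ψ (range a) := by
  refine ⟨segArc Φ p q, segArc_injective Φ hpq, ?_, t14_off ?_⟩ <;> rw [range_segArc] <;>
    rintro _ ⟨u, hu, rfl⟩
  exacts [(h u hu).1, (h u hu).2]

theorem t14_sign {p q u : ℂ} (h : 0 < p.im * q.im) (hu : u ∈ segment ℝ p q) : u.im ≠ 0 := by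
  obtain ⟨a, b, ha, hb, hab, rfl⟩ := hu
  rw [Complex.add_im, Complex.smul_im, Complex.smul_im, smul_eq_mul, smul_eq_mul]
  intro h0
  have h1 : 0 < p.im * p.im := mul_self_pos.2 (left_ne_zero_of_mul h.ne')
  have h2 : a * (p.im * p.im) + b * (p.im * q.im) = 0 := by linear_combination p.im * h0
  rcases ha.eq_or_lt with rfl | ha'
  · rw [zero_add] at hab
    rw [hab] at h2
    linarith
  · linarith [mul_pos ha' h1, mul_nonneg hb h.le]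

theorem t14_vert {W : WallSys Γ X} {κ : Bool} {ψ : Set X → ℂ ≃ₜ X} {L U : Set X}
    (hL : L = hor (ψ L)) {p q : ℂ} (hpq : p ≠ q) (hre : q.re = p.re)
    (h : ∀ u ∈ segment ℝ p q, ψ L u ∈ U ∧ ∀ L' ∈ W.wall κ, ψ L u ∈ L' → L' = L) :
    ∃ a : Path (ψ L p) (ψ L q), Injective a ∧ range a ⊆ U ∧ W.Nice κ ψ (range a) := by
  have e : ∀ u ∈ segment ℝ p q, u.re = p.re := by
    rintro _ ⟨a, b, -, -, hab, rfl⟩
    rw [Complex.add_re, Complex.smul_re, Complex.smul_re, smul_eq_mul, smul_eq_mul, hre]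
    linear_combination p.re * hab
  refine ⟨segArc (ψ L) p q, segArc_injective _ hpq, ?_, ?_⟩ <;> rw [range_segArc]
  · rintro _ ⟨u, hu, rfl⟩
    exact (h u hu).1
  · refine ⟨(finite_singleton (ψ L p.re)).subset ?_, ?_⟩
    · rintro _ ⟨⟨u, hu, rfl⟩, L', h1, h2⟩
      rw [(h u hu).2 L' h1 h2] at h2
      have h3 : u.im = 0 := mem_hor.1 (hL.subset h2)
      exact congrArg (ψ L) (Complex.ext (e u hu) h3)
    · rintro L' h1 _ ⟨⟨u, hu, rfl⟩, h2⟩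
      refine ⟨univ, Filter.univ_mem, ?_⟩
      rintro _ ⟨⟨v, hv, rfl⟩, -⟩
      rw [(h u hu).2 L' h1 h2, Homeomorph.symm_apply_apply, Homeomorph.symm_apply_apply, e u hu,
        e v hv]

theorem nice_local (W : WallSys Γ X) (κ : Bool) (ψ : Set X → ℂ ≃ₜ X)
    (hψ : ∀ L ∈ W.wall κ, L = hor (ψ L)) {U : Set X} (hU : IsOpen U) {z : X} (hz : z ∈ U) :
    ∃ V ∈ 𝓝 z, ∀ x ∈ V, ∀ y ∈ V, x ∉ W.A κ → y ∉ W.A κ → x ≠ y →
      ∃ a : Path x y, Injective a ∧ range a ⊆ U ∧ W.Nice κ ψ (range a) := by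
  by_cases hA : z ∈ W.A κ
  · obtain ⟨L, hL, hzL⟩ := hA
    have hh := hψ L hL
    obtain ⟨w, rfl⟩ := (ψ L).surjective z
    have hw : w.im = 0 := mem_hor.1 (hh.subset hzL)
    have hc : IsClosed (⋃₀ (W.wall κ \ {L})) := W.isClosed_sUnion fun N hN => ⟨κ, hN.1⟩
    obtain ⟨ε, h1, h2⟩ := t14_ball (ψ L) (hU.sdiff hc) (w := w)
      ⟨hz, fun ⟨N, hN, k⟩ => hN.2 (W.disj κ N hN.1 L hL ⟨_, k, hzL⟩)⟩
    have h3 : ∀ u ∈ ball w ε, ψ L u ∈ U ∧ ∀ L' ∈ W.wall κ, ψ L u ∈ L' → L' = L := fun u hu =>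
      ⟨(h2 u hu).1, fun L' k1 k2 => by_contra fun k3 => (h2 u hu).2 ⟨L', ⟨k1, k3⟩, k2⟩⟩
    have h4 : ∀ u, ψ L u ∉ W.A κ → u.im ≠ 0 := fun u hu k =>
      hu ⟨L, hL, hh.superset (mem_hor.2 k)⟩
    have h5 : ∀ p ∈ ball w ε, ∀ q ∈ ball w ε, p ≠ q → 0 < p.im * q.im →
        ∃ a : Path (ψ L p) (ψ L q), Injective a ∧ range a ⊆ U ∧ W.Nice κ ψ (range a) :=
      fun p hp q hq hne hs => t14_seg (ψ L) hne fun u hu => by
        have k := h3 u ((convex_ball w ε).segment_subset hp hq hu)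
        refine ⟨k.1, fun ⟨L', k1, k2⟩ => t14_sign hs hu ?_⟩
        rw [k.2 L' k1 k2] at k2
        exact mem_hor.1 (hh.subset k2)
    refine ⟨_, h1, ?_⟩
    rintro _ ⟨p, hp, rfl⟩ _ ⟨q, hq, rfl⟩ hx hy hne
    have hp0 := h4 p hx
    have hq0 := h4 q hy
    rcases (mul_ne_zero hp0 hq0).lt_or_gt with hs | hs
    · have hp' : starRingEnd ℂ p ∈ ball w ε := by
        rw [mem_ball, ← Complex.conj_eq_iff_im.2 hw, Complex.dist_conj_conj]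
        exact hp
      obtain ⟨a, a1, a2, a3⟩ := t14_vert (W := W) (κ := κ) (U := U) hh (p := p)
        (q := starRingEnd ℂ p) (fun k => hp0 (Complex.conj_eq_iff_im.1 k.symm)) (Complex.conj_re p)
        fun u hu => h3 u ((convex_ball w ε).segment_subset hp hp' hu)
      by_cases hq' : starRingEnd ℂ p = q
      · subst hq'
        exact ⟨a, a1, a2, a3⟩
      · obtain ⟨b, b1, b2, b3⟩ := h5 _ hp' q hq hq' (by rw [Complex.conj_im]; linarith)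
        obtain ⟨d, d1, d2⟩ := arc_trans a1 b1 hne
        exact ⟨d, d1, d2.trans (union_subset a2 b2),
          (a3.union b3 (isCompact_range a.continuous).isClosed
            (isCompact_range b.continuous).isClosed).mono d2⟩
    · exact h5 p hp q hq (fun k => hne (congrArg _ k)) hs
  · obtain ⟨w, rfl⟩ := W.base.surjective z
    obtain ⟨ε, h1, h2⟩ := t14_ball W.base (hU.sdiff (W.isClosed_A κ)) (w := w) ⟨hz, hA⟩
    refine ⟨_, h1, ?_⟩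
    rintro _ ⟨p, hp, rfl⟩ _ ⟨q, hq, rfl⟩ - - hne
    exact t14_seg W.base (fun k => hne (congrArg _ k)) fun u hu =>
      h2 u ((convex_ball w ε).segment_subset hp hq hu)

theorem nice_global (W : WallSys Γ X) (κ : Bool) (ψ : Set X → ℂ ≃ₜ X)
    (hψ : ∀ L ∈ W.wall κ, L = hor (ψ L)) {U : Set X} (hU : IsOpen U) (hc : IsPreconnected U)
    {x y : X} (hx : x ∈ U) (hy : y ∈ U) (hx' : x ∉ W.A κ) (hy' : y ∉ W.A κ) (hxy : x ≠ y) :
    ∃ a : Path x y, Injective a ∧ range a ⊆ U ∧ W.Nice κ ψ (range a) := by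
  obtain ⟨R, hR⟩ : ∃ R : X → Prop, ∀ y, R y ↔
      x = y ∨ ∃ a : Path x y, Injective a ∧ range a ⊆ U ∧ W.Nice κ ψ (range a) :=
    ⟨_, fun _ => Iff.rfl⟩
  have loc : ∀ z ∈ U, ∃ V ∈ 𝓝 z, ∀ y ∈ V, y ∉ W.A κ → R y → ∀ y' ∈ V, y' ∉ W.A κ → R y' := by
    intro z hz
    obtain ⟨V, hV, h⟩ := nice_local W κ ψ hψ hU hz
    refine ⟨V, hV, fun y a b r y' a' b' => ?_⟩
    rcases eq_or_ne y y' with rfl | e
    · exact r
    rcases eq_or_ne x y' with e' | e'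
    · exact (hR _).2 (Or.inl e')
    obtain ⟨d, d1, d2, d3⟩ := h y a y' a' b b' e
    rcases (hR _).1 r with rfl | ⟨f, f1, f2, f3⟩
    · exact (hR _).2 (Or.inr ⟨d, d1, d2, d3⟩)
    · obtain ⟨k, k1, k2⟩ := arc_trans f1 d1 e'
      exact (hR _).2 (Or.inr ⟨k, k1, k2.trans (union_subset f2 d2), (f3.union d3
        (isCompact_range f.continuous).isClosed (isCompact_range d.continuous).isClosed).mono k2⟩)
  have key : U ⊆ {z | ∀ᶠ y in 𝓝 z, y ∉ W.A κ → R y} := by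
    refine hc.subset_left_of_subset_union isOpen_setOfPred_eventually_nhds
      (isOpen_setOfPred_eventually_nhds (p := fun y => y ∉ W.A κ → ¬ R y))
      (disjoint_left.2 fun z a b => ?_) (fun z hz => ?_) ⟨x, hx, ?_⟩
    · obtain ⟨y, h1, h2⟩ := (W.dense_compl_A κ).inter_nhds_nonempty (Filter.Eventually.and a b)
      exact h2.2 h1 (h2.1 h1)
    · obtain ⟨V, hV, h⟩ := loc z hz
      by_cases e : ∃ y ∈ V, y ∉ W.A κ ∧ R y
      · obtain ⟨y, a, b, r⟩ := e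
        exact Or.inl (Filter.mem_of_superset hV (h y a b r))
      · exact Or.inr (Filter.mem_of_superset hV fun y a b r => e ⟨y, a, b, r⟩)
    · obtain ⟨V, hV, h⟩ := loc x hx
      exact Filter.mem_of_superset hV (h x (mem_of_mem_nhds hV) hx' ((hR _).2 (Or.inl rfl)))
  exact ((hR _).1 (Filter.Eventually.self_of_nhds (key hy) hy')).resolve_left hxy

theorem cross_of_vertical {Φ : ℂ ≃ₜ X} {c : ℝ → X} (hc : Continuous c) (hi : Injective c) {t : ℝ}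
    (ht : c t ∈ hor Φ) (hv : ∀ᶠ s in 𝓝 t, (Φ.symm (c s)).re = (Φ.symm (c t)).re) :
    Cross c t (hor Φ) := by
  obtain ⟨ε, hε, h⟩ := Metric.eventually_nhds_iff_ball.1 hv
  rw [Real.ball_eq_Ioo] at h
  have mh : ∀ s, c s ∈ hor Φ ↔ (Φ.symm (c s)).im = 0 := fun s => by
    rw [← mem_hor (Φ := Φ), Φ.apply_symm_apply]
  have h0 := (mh t).1 ht
  have hm := ContinuousOn.strictMonoOn_of_injOn_Ioo (a := t - ε) (b := t + ε) (by linarith)
    (f := fun s => (Φ.symm (c s)).im) (by fun_prop) fun s a s' a' e =>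
      hi (Φ.symm.injective (Complex.ext ((h s a).trans (h s' a').symm) e))
  refine ⟨ε, hε, fun s s' a b a' b' => ?_⟩
  have m0 : t ∈ Ioo (t - ε) (t + ε) := ⟨by linarith, by linarith⟩
  have m1 : s ∈ Ioo (t - ε) (t + ε) := ⟨a, by linarith⟩
  have m2 : s' ∈ Ioo (t - ε) (t + ε) := ⟨by linarith, b'⟩
  have hn : (Φ.symm (c s)).im * (Φ.symm (c s')).im < 0 := by
    rcases hm with hm | hm
    · exact mul_neg_of_neg_of_pos ((hm m1 m0 b).trans_eq h0) (h0.symm.trans_lt (hm m0 m2 a'))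
    · exact mul_neg_of_pos_of_neg (h0.symm.trans_lt (hm m1 m0 b)) ((hm m0 m2 a').trans_eq h0)
  refine ⟨fun e => ?_, fun e => ?_, fun e => ?_⟩
  · simp [(mh _).1 e] at hn
  · simp [(mh _).1 e] at hn
  · rw [← Φ.apply_symm_apply (c s), ← Φ.apply_symm_apply (c s'), same_hor] at e
    exact hn.not_gt e

namespace Ctx

variable {W : WallSys Γ X} (C : Ctx W)

theorem continuous_c (F : X ≃ₜ X) : Continuous (C.c F) :=
  F.continuous.comp (C.Φ.continuous.comp Complex.continuous_ofReal)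

theorem injective_c (F : X ≃ₜ X) : Injective (C.c F) :=
  F.injective.comp (C.Φ.injective.comp Complex.ofReal_injective)

theorem c_mul (H F : X ≃ₜ X) (t : ℝ) : C.c (H * F) t = H (C.c F t) := rfl

theorem c_mul' (F H : X ≃ₜ X) (t : ℝ) : C.c (F * H) t = F (H (C.Φ t)) := rfl

theorem range_c (F : X ≃ₜ X) : range (C.c F) = F '' C.L := by
  ext x
  constructor
  · rintro ⟨t, rfl⟩
    exact ⟨_, C.ch.mem t, rfl⟩
  · rintro ⟨y, hy, rfl⟩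
    rw [C.ch.axis] at hy
    obtain ⟨t, rfl⟩ := mem_hor_iff.1 hy
    exact ⟨t, rfl⟩

theorem c_add_int {F : X ≃ₜ X} (hF : Equi Γ F) (t : ℝ) (k : ℤ) :
    C.c F (t + k) = C.γ ^ k • C.c F t := by
  unfold c
  rw [C.ch.per_real, hF]

theorem smul_c_eq {F : X ≃ₜ X} (hF : Equi Γ F) {g : Γ} {s t : ℝ} (h : g • C.c F s = C.c F t) :
    ∃ k : ℤ, g = C.γ ^ k ∧ t = s + k := by
  unfold c at h
  rw [← hF] at h
  exact W.smul_chart C.hL C.ch (F.injective h)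

theorem mem_K_iff {F : X ≃ₜ X} (hF : Equi Γ F) {x : X} :
    x ∈ C.K F ↔ ∃ (g : Γ) (t : ℝ), x = g • C.c F t := by
  unfold K
  rw [hF.image_orb, ← C.range_c, mem_orb_iff]
  constructor
  · rintro ⟨g, _, ⟨t, rfl⟩, h⟩
    exact ⟨g, t, h⟩
  · rintro ⟨g, t, h⟩
    exact ⟨g, _, ⟨t, rfl⟩, h⟩

theorem c_mem_K (F : X ≃ₜ X) (t : ℝ) : C.c F t ∈ C.K F :=
  ⟨_, subset_orb _ (C.ch.mem t), rfl⟩

theorem smul_mem_K {F : X ≃ₜ X} (hF : Equi Γ F) (g : Γ) {x : X} :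
    g • x ∈ C.K F ↔ x ∈ C.K F := by
  unfold K
  rw [hF.image_orb, smul_mem_orb]

theorem L_subset_A : C.L ⊆ W.A C.κ := subset_sUnion_of_mem C.hL

theorem orb_subset_A : Orb Γ C.L ⊆ W.A C.κ :=
  fun _ ⟨g, hg⟩ => (W.smul_mem_A g).1 (C.L_subset_A hg)

theorem isClosed_Y : IsClosed C.Y := W.isClosed_sUnion C.sub

theorem smul_mem_Y (g : Γ) {x : X} : g • x ∈ C.Y ↔ x ∈ C.Y := by
  have h : ∀ (g : Γ) (x : X), x ∈ C.Y → g • x ∈ C.Y := fun g x ⟨N, hN, hx⟩ =>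
    ⟨g • N, C.inv g N hN, smul_mem_smul_set hx⟩
  exact ⟨fun hx => by simpa using h g⁻¹ _ hx, h g x⟩


theorem t16b_orb_eq : Orb Γ C.L = ⋃₀ {N | ∃ g : Γ, N = g • C.L} := by
  ext x
  rw [mem_orb_iff]
  constructor
  · rintro ⟨g, y, hy, rfl⟩
    exact ⟨g • C.L, ⟨g, rfl⟩, smul_mem_smul_set hy⟩
  · rintro ⟨N, ⟨g, rfl⟩, y, hy, rfl⟩
    exact ⟨g, y, hy, rfl⟩

theorem isClosed_K (F : X ≃ₜ X) : IsClosed (C.K F) := by
  unfold K
  rw [F.isClosed_image, t16b_orb_eq]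
  refine W.isClosed_sUnion ?_
  rintro N ⟨g, rfl⟩
  exact ⟨C.κ, W.smul_mem _ g _ C.hL⟩

theorem t16b_diff_eq (F : X ≃ₜ X) (a b : ℝ) : C.K F \ C.c F '' Ioo a b =
    F '' (⋃₀ {N | (∃ g : Γ, N = g • C.L) ∧ N ≠ C.L} ∪
      C.Φ '' {w : ℂ | w.im = 0 ∧ (w.re ≤ a ∨ b ≤ w.re)}) := by
  ext x
  constructor
  · rintro ⟨⟨z, hz, rfl⟩, hx⟩
    refine ⟨z, ?_, rfl⟩
    obtain ⟨g, y, hy, rfl⟩ := mem_orb_iff.1 hz
    by_cases hg : g • C.L = C.L
    · right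
      have h1 : g • y ∈ hor C.Φ := by
        rw [← C.ch.axis, ← hg]
        exact smul_mem_smul_set hy
      obtain ⟨t, ht⟩ := mem_hor_iff.1 h1
      refine ⟨t, ⟨by simp, ?_⟩, ht.symm⟩
      by_contra hc
      simp only [Complex.ofReal_re, not_or, not_le] at hc
      exact hx ⟨t, ⟨hc.1, hc.2⟩, by rw [ht]; rfl⟩
    · left
      exact ⟨g • C.L, ⟨⟨g, rfl⟩, hg⟩, smul_mem_smul_set hy⟩
  · rintro ⟨z, hz, rfl⟩
    rcases hz with ⟨N, ⟨⟨g, rfl⟩, hne⟩, hz⟩ | ⟨w, ⟨hw, hw'⟩, rfl⟩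
    · refine ⟨⟨z, ?_, rfl⟩, ?_⟩
      · rw [t16b_orb_eq]
        exact ⟨_, ⟨g, rfl⟩, hz⟩
      · rintro ⟨t, -, ht⟩
        have h1 : C.Φ t = z := F.injective ht
        exact hne (W.disj _ _ (W.smul_mem _ g _ C.hL) _ C.hL ⟨z, hz, h1 ▸ C.ch.mem t⟩)
    · refine ⟨⟨C.Φ w, subset_orb _ ?_, rfl⟩, ?_⟩
      · rw [C.ch.axis]
        exact mem_hor.2 hw
      · rintro ⟨t, ht, h⟩
        have h1 : (t : ℂ) = w := C.Φ.injective (F.injective h)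
        rw [← h1, Complex.ofReal_re] at hw'
        rcases hw' with h2 | h2
        · exact absurd ht.1 (not_lt.2 h2)
        · exact absurd ht.2 (not_lt.2 h2)

theorem isClosed_K_diff (F : X ≃ₜ X) (a b : ℝ) : IsClosed (C.K F \ C.c F '' Ioo a b) := by
  rw [t16b_diff_eq, F.isClosed_image]
  refine IsClosed.union (W.isClosed_sUnion ?_) ?_
  · rintro N ⟨⟨g, rfl⟩, -⟩
    exact ⟨C.κ, W.smul_mem _ g _ C.hL⟩
  · rw [C.Φ.isClosed_image]
    exact (isClosed_eq Complex.continuous_im continuous_const).inter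
      ((isClosed_le Complex.continuous_re continuous_const).union
        (isClosed_le continuous_const Complex.continuous_re))

theorem isClosed_K_off {F : X ≃ₜ X} (hF : Equi Γ F) (a b : ℝ) :
    IsClosed {x | ∃ (g : Γ) (t : ℝ), Off a b t ∧ x = g • C.c F t} := by
  have key : {x | ∃ (g : Γ) (t : ℝ), Off a b t ∧ x = g • C.c F t} =
      ⋂ h : Γ, (fun x => h • x) ⁻¹' (C.K F \ C.c F '' Ioo a b) := by
    ext x
    simp only [mem_iInter, mem_preimage, mem_ofPred_eq]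
    constructor
    · rintro ⟨g, t, ht, rfl⟩ h
      refine ⟨(C.smul_mem_K hF h).2 ((C.smul_mem_K hF g).2 (C.c_mem_K F t)), ?_⟩
      rintro ⟨s, hs, he⟩
      rw [smul_smul] at he
      obtain ⟨k, -, hk⟩ := C.smul_c_eq hF he.symm
      exact ht k (by rw [← hk]; exact hs)
    · intro h
      have h1 : x ∈ C.K F := by simpa using (h 1).1
      obtain ⟨g, t, rfl⟩ := (C.mem_K_iff hF).1 h1
      refine ⟨g, t, ?_, rfl⟩
      intro k hk
      refine (h (C.γ ^ k * g⁻¹)).2 ⟨t + k, hk, ?_⟩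
      rw [C.c_add_int hF, smul_smul, inv_mul_cancel_right]
  rw [key]
  exact isClosed_iInter fun h => (C.isClosed_K_diff F a b).preimage (continuous_const_smul h)

theorem t16b_unb (F : X ≃ₜ X) {S : Set ℝ} (hS : ∀ r : ℝ, ∃ t ∈ S, r < |t|) :
    Unb (C.c F '' S) := by
  have h1 : C.c F '' S = F '' (C.Φ '' ((fun t : ℝ => (t : ℂ)) '' S)) := by
    rw [image_image, image_image]
    rfl
  rw [h1]
  refine ((unb_of_not_bounded ?_).image C.Φ).image F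
  intro hb
  obtain ⟨r, hr⟩ := hb.exists_norm_le
  obtain ⟨t, ht, h⟩ := hS r
  have h2 := hr _ ⟨t, ht, rfl⟩
  rw [Complex.norm_real, Real.norm_eq_abs] at h2
  exact absurd h (not_lt.2 h2)

theorem unb_c_Iio (F : X ≃ₜ X) (a : ℝ) : Unb (C.c F '' Iio a) := by
  refine C.t16b_unb F fun r => ⟨min a (-r) - 1, ?_, ?_⟩
  · have := min_le_left a (-r)
    show min a (-r) - 1 < a
    linarith
  · have := min_le_right a (-r)
    have h2 := neg_le_abs (min a (-r) - 1)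
    linarith

theorem unb_c_Ioi (F : X ≃ₜ X) (a : ℝ) : Unb (C.c F '' Ioi a) := by
  refine C.t16b_unb F fun r => ⟨max a r + 1, ?_, ?_⟩
  · have := le_max_left a r
    show a < max a r + 1
    linarith
  · have := le_max_right a r
    have h2 := le_abs_self (max a r + 1)
    linarith


theorem mv_one : C.Mv 1 := ⟨eqIso_one, fun _ _ => rfl⟩

variable {C}

theorem Mv.mul {H H' : X ≃ₜ X} (h : C.Mv H) (h' : C.Mv H') : C.Mv (H * H') :=
  ⟨h.1.mul h'.1, fun y hy => by rw [Homeomorph.mul_apply, h'.2 y hy, h.2 y hy]⟩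

theorem Mv.inv {H : X ≃ₜ X} (h : C.Mv H) : C.Mv H⁻¹ :=
  ⟨h.1.inv, fun y hy => H.symm_apply_eq.2 (h.2 y hy).symm⟩

theorem Mv.good {H : X ≃ₜ X} (h : C.Mv H) : C.Good H := ⟨h.1.equi, h.2⟩

theorem Good.mul {F G : X ≃ₜ X} (h : C.Good F) (h' : C.Good G) : C.Good (F * G) :=
  ⟨h.1.mul h'.1, fun y hy => by rw [Homeomorph.mul_apply, h'.2 y hy, h.2 y hy]⟩

theorem Good.mem_Y {F : X ≃ₜ X} (h : C.Good F) {x : X} : F x ∈ C.Y ↔ x ∈ C.Y :=
  ⟨fun hx => F.injective (h.2 _ hx) ▸ hx, fun hx => (h.2 x hx).symm ▸ hx⟩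

theorem Good.c_mem_Y {F : X ≃ₜ X} (h : C.Good F) {t : ℝ} (ht : C.c F t ∈ C.Y) :
    C.c F t = C.Φ t := h.2 _ (h.mem_Y.1 ht)

theorem Good.notMem_Y {F : X ≃ₜ X} (h : C.Good F) {t : ℝ} {L' : Set X} (hL : L' ∈ W.wall C.κ)
    (hne : L' ≠ C.L) (ht : C.c F t ∈ L') : C.c F t ∉ C.Y := fun hY =>
  hne (W.disj _ _ hL _ C.hL ⟨_, ht, h.c_mem_Y hY ▸ C.ch.mem t⟩)

theorem Alpha.disjoint (h : C.Alpha) : Disjoint C.L C.Y :=
  disjoint_left.2 fun x hx ⟨_, hN, hx'⟩ =>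
    C.notMem (W.disj false _ (h.2 hN) _ (h.1 ▸ C.hL) ⟨x, hx', hx⟩ ▸ hN)

theorem Alpha.c_notMem_Y (h : C.Alpha) {F : X ≃ₜ X} (hF : C.Good F) (t : ℝ) :
    C.c F t ∉ C.Y := fun hY => disjoint_left.1 h.disjoint (C.ch.mem t) (hF.mem_Y.1 hY)

theorem Alpha.Y_subset (h : C.Alpha) : C.Y ⊆ W.A false := sUnion_subset_sUnion h.2


end Ctx

end Pool.Agent.Lib.MP_66609f_al.DN.BE
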