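import Pool.Agent.Lib.MP_66609f_al.DN.E3

/-! Equivariant isotopies of a plane with walls, part 4. -/

namespace Pool.Agent.Lib.MP_66609f_al.DN.BE

open Set Metric Topology Function unitInterval
open scoped Pointwise

set_option linter.unusedSectionVars false

variable {Γ X : Type} [Group Γ] [TopologicalSpace X] [MulAction Γ X] [T2Space X]
  [ContinuousConstSMul Γ X] [ProperlyDiscontinuousSMul Γ X]

namespace Ctx

variable {W : WallSys Γ X} {C : Ctx W}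

theorem t17_dec (t : ℝ) : ∃ s ∈ Ico (0 : ℝ) 1, t = s + ⌊t⌋ :=
  ⟨Int.fract t, ⟨Int.fract_nonneg t, Int.fract_lt_one t⟩, (Int.fract_add_floor t).symm⟩

theorem hit_add_int {F : X ≃ₜ X} (hF : Equi Γ F) {κ : Bool} (t : ℝ) (k : ℤ) :
    C.c F (t + k) ∈ W.A κ ↔ C.c F t ∈ W.A κ := by
  rw [C.c_add_int hF, W.smul_mem_A]

theorem tame_of_period {F : X ≃ₜ X} (hF : Equi Γ F) (hT : (C.T F).Finite)
    (h : ∀ t ∈ Ico (0 : ℝ) 1, ∀ L' ∈ W.wall C.κ, C.c F t ∈ L' → C.c F t ∉ C.Y →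
      Cross (C.c F) t L') : C.Tame F := by
  refine ⟨hT, fun t L' hL ht hY => ?_⟩
  obtain ⟨s, hs, e⟩ := t17_dec t
  generalize ⌊t⌋ = k at e
  subst e
  rw [C.c_add_int hF] at ht hY
  have := (h s hs _ (W.smul_mem _ (C.γ ^ k)⁻¹ L' hL) (mem_inv_smul_set_iff.2 ht)
    fun h => hY ((C.smul_mem_Y _).2 h)).shift (C.γ ^ k) fun r => C.c_add_int hF r k
  rwa [smul_inv_smul] at this

theorem Tame.finite_hits {F : X ≃ₜ X} (hF : Equi Γ F) (h : C.Tame F) (a b : ℝ) :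
    {t | t ∈ Icc a b ∧ C.c F t ∈ W.A C.κ}.Finite := by
  refine (h.1.image2 (fun (s : ℝ) (k : ℤ) => s + k) (finite_Icc ⌊a⌋ ⌊b⌋)).subset fun t ht => ?_
  obtain ⟨s, hs, e⟩ := t17_dec t
  exact ⟨s, ⟨hs, (hit_add_int hF s _).1 (e ▸ ht.2)⟩, _,
    ⟨Int.floor_mono ht.1.1, Int.floor_mono ht.1.2⟩, e.symm⟩

theorem Tame.finite_K {F : X ≃ₜ X} (hF : Equi Γ F) (h : C.Tame F) {D : Set X}
    (hD : IsCompact D) : (C.K F ∩ W.A C.κ ∩ D).Finite := by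
  refine (finite_orb_inter (Γ := Γ) (h.1.image (C.c F)) hD).subset fun x hx => ⟨?_, hx.2⟩
  obtain ⟨g, t, rfl⟩ := (C.mem_K_iff hF).1 hx.1.1
  obtain ⟨s, hs, e⟩ := t17_dec t
  have h1 := (W.smul_mem_A g).1 hx.1.2
  rw [smul_mem_orb, e, C.c_add_int hF, smul_mem_orb]
  exact subset_orb _ ⟨s, ⟨hs, (hit_add_int hF s _).1 (e ▸ h1)⟩, rfl⟩

theorem Tame.isolated {F : X ≃ₜ X} (hF : Equi Γ F) (h : C.Tame F) (t : ℝ) :
    ∃ ε > 0, ∀ s, t - ε < s → s < t + ε → s ≠ t → C.c F s ∉ W.A C.κ := by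
  obtain ⟨ε, h0, hε⟩ := Metric.mem_nhds_iff.1 (Filter.inter_mem
    (((h.finite_hits hF (t - 1) (t + 1)).sdiff (t := {t})).isClosed.compl_mem_nhds
      fun h => h.2 rfl) (Icc_mem_nhds (sub_one_lt t) (lt_add_one t)))
  rw [Real.ball_eq_Ioo] at hε
  exact ⟨ε, h0, fun s h1 h2 h3 h4 => (hε ⟨h1, h2⟩).1 ⟨⟨(hε ⟨h1, h2⟩).2, h4⟩, h3⟩⟩

theorem Tame.next {F : X ≃ₜ X} (hF : Equi Γ F) (h : C.Tame F) {t₀ : ℝ}
    (h₀ : C.c F t₀ ∈ W.A C.κ) (s : ℝ) :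
    ∃ t, s < t ∧ C.c F t ∈ W.A C.κ ∧ ∀ r, s < r → r < t → C.c F r ∉ W.A C.κ := by
  obtain ⟨k, hk⟩ := exists_int_gt (s - t₀)
  have h1 : s < t₀ + k := by linarith
  obtain ⟨t, ht, h2⟩ := exists_min_image _ id ((h.finite_hits hF s (t₀ + k)).inter_of_left (Ioi s))
    ⟨_, ⟨⟨h1.le, le_rfl⟩, (hit_add_int hF t₀ k).2 h₀⟩, h1⟩
  exact ⟨t, ht.2, ht.1.2, fun r h3 h4 h5 =>
    not_le.2 h4 (h2 r ⟨⟨⟨h3.le, h4.le.trans ht.1.1.2⟩, h5⟩, h3⟩)⟩

theorem Tame.prev {F : X ≃ₜ X} (hF : Equi Γ F) (h : C.Tame F) {t₀ : ℝ}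
    (h₀ : C.c F t₀ ∈ W.A C.κ) (s : ℝ) :
    ∃ t, t < s ∧ C.c F t ∈ W.A C.κ ∧ ∀ r, t < r → r < s → C.c F r ∉ W.A C.κ := by
  obtain ⟨k, hk⟩ := exists_int_lt (s - t₀)
  have h1 : t₀ + k < s := by linarith
  obtain ⟨t, ht, h2⟩ := exists_max_image _ id ((h.finite_hits hF (t₀ + k) s).inter_of_left (Iio s))
    ⟨_, ⟨⟨le_rfl, h1.le⟩, (hit_add_int hF t₀ k).2 h₀⟩, h1⟩
  exact ⟨t, ht.2, ht.1.2, fun r h3 h4 h5 =>
    not_le.2 h3 (h2 r ⟨⟨⟨ht.1.1.1.trans h3.le, h4.le⟩, h5⟩, h4⟩)⟩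

theorem tame_after {F H : X ≃ₜ X} (hF : Equi Γ F) (hH : Equi Γ H) (h : C.Tame F) {s₁ s₂ t₁ : ℝ}
    (h₁ : s₁ < t₁) (h₂ : t₁ < s₂) (ht : C.c F t₁ ∈ W.A C.κ)
    (hin : ∀ t ∈ Icc s₁ s₂, H (C.c F t) ∉ W.A C.κ)
    (hoff : ∀ t, Off s₁ s₂ t → H (C.c F t) = C.c F t) :
    C.Tame (H * F) ∧ C.T (H * F) ⊂ C.T F := by
  have k₁ : ∀ t, C.c (H * F) t ∈ W.A C.κ → ∀ k : ℤ, t + k ∉ Icc s₁ s₂ := fun t ht k hk =>
    hin _ hk (C.c_mul H F _ ▸ (hit_add_int (hH.mul hF) t k).2 ht)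
  have k₂ : ∀ t, C.c (H * F) t ∈ W.A C.κ → C.c F =ᶠ[𝓝 t] C.c (H * F) := fun t ht => by
    obtain ⟨a, ha⟩ := exists_int_lt (s₁ - t - 1)
    obtain ⟨b, hb⟩ := exists_int_gt (s₂ - t + 1)
    filter_upwards [Icc_mem_nhds (sub_one_lt t) (lt_add_one t),
      (Filter.eventually_all_finite (finite_Icc a b)).2 fun k _ =>
        (continuous_add_const (k : ℝ)).continuousAt.eventually_mem
          (isClosed_Icc.compl_mem_nhds (k₁ t ht k))] with r hr hr'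
    refine ((C.c_mul H F r).trans (hoff r fun k hk => hr' k ⟨?_, ?_⟩ (Ioo_subset_Icc_self hk))).symm
    · exact_mod_cast (by linarith [hr.2, hk.1] : (a : ℝ) ≤ k)
    · exact_mod_cast (by linarith [hr.1, hk.2] : (k : ℝ) ≤ b)
  have k₃ : C.T (H * F) ⊆ C.T F := fun t ht => ⟨ht.1, (k₂ t ht.2).eq_of_nhds ▸ ht.2⟩
  obtain ⟨s, hs, e⟩ := t17_dec t₁
  refine ⟨⟨h.1.subset k₃, fun t L' hL ht hY => ?_⟩, k₃, fun h3 => ?_⟩
  · have h3 := k₂ t ⟨L', hL, ht⟩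
    exact (h.2 t L' hL (h3.eq_of_nhds ▸ ht) (h3.eq_of_nhds ▸ hY)).congr h3
  · exact k₁ s (h3 ⟨hs, (hit_add_int hF s _).1 (e ▸ ht)⟩).2 ⌊t₁⌋
      ⟨h₁.le.trans_eq e, e.symm.trans_le h₂.le⟩

theorem Box.proper {N : Dsc X} {a b : ℝ} (hN : C.Box N a b) :
    N.Proper (subArc (C.continuous_c 1) a b) :=
  ⟨subArc_injective _ (C.injective_c 1).injOn hN.lt.ne, hN.left, hN.right, fun _ h0 h1 =>
    hN.mid _ (param_mem_Ioo hN.lt h0 h1).1 (param_mem_Ioo hN.lt h0 h1).2⟩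

theorem box_move {N : Dsc X} {a b : ℝ} (hN : C.Box N a b) (η : Path (C.Φ a) (C.Φ b))
    (hη : N.Proper η) :
    ∃ H, C.Mv H ∧ (∀ τ : I, H (C.Φ ((a + τ * (b - a) : ℝ) : ℂ)) = η τ) ∧
      ∀ t : ℝ, Off a b t → H (C.Φ t) = C.Φ t := by
  obtain ⟨H, h1, h2, h3⟩ := kmove W.base N hN.wand (subArc (C.continuous_c 1) a b) η hN.proper hη
  refine ⟨H, ⟨h1, fun y hy => h3 y fun ⟨g, hg⟩ =>
    disjoint_left.1 hN.missY hg ((C.smul_mem_Y g).2 hy)⟩, h2, fun t ht => h3 _ fun ⟨g, hg⟩ => ?_⟩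
  obtain ⟨r, h4, h5, e⟩ := hN.only _ hg ((smul_mem_orb g).2 (subset_orb _ (C.ch.mem t)))
  obtain ⟨k, -, rfl⟩ := W.smul_chart C.hL C.ch e
  exact ht k ⟨h4, h5⟩

theorem alpha_box (hC : C.Alpha) {a b : ℝ} (hab : a < b) (hb : b < a + 1) :
    ∃ (N : Dsc X) (s : Set ℂ), C.Box N a b ∧ Convex ℝ s ∧ IsOpen s ∧ N.int = C.Φ '' s ∧
      (a : ℂ) ∈ closure s ∧ (b : ℂ) ∈ closure s := by
  obtain ⟨U, hU, h1, h2⟩ := exists_nhds_wand W.base
    (isCompact_uIcc.image (C.Φ.continuous.comp Complex.continuous_ofReal))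
    (W.wand_seg C.hL C.ch (a := a) (b := b) (abs_lt.2 ⟨by linarith, by linarith⟩))
  obtain ⟨s, h3, h4, h5, h6, h7, h8, h9⟩ := exists_thin hab
    ((hU.sdiff (W.isClosed_sUnion (fam := {N | N ∈ W.wall C.κ ∧ N ≠ C.L})
      fun N hN => ⟨_, hN.1⟩)).preimage C.Φ.continuous)
    fun t ht => ⟨h1 ⟨t, Icc_subset_uIcc ht, rfl⟩, fun ⟨N, hN, h⟩ =>
      hN.2 (W.disj _ N hN.1 _ C.hL ⟨_, h, C.ch.mem t⟩)⟩
  obtain ⟨E, e1, -, e3⟩ := exists_dsc_of_convex C.Φ h3 h4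
    ⟨_, (h9 ((a + b) / 2)).2 ⟨by linarith, by linarith⟩⟩ h5
  have hs := image_subset_iff.2 h6
  rw [← e1] at hs
  refine ⟨E, s, ⟨hab, h2.mono fun x hx => (hs hx).1, disjoint_left.2 fun x hx ⟨N, hN, h⟩ =>
    (hs hx).2 ⟨N, ⟨hC.1 ▸ hC.2 hN, fun e => C.notMem (e ▸ hN)⟩, h⟩, e3 ▸ mem_image_of_mem _ h7,
    e3 ▸ mem_image_of_mem _ h8, fun t h h' => e1 ▸ mem_image_of_mem _ ((h9 t).2 ⟨h, h'⟩),
    fun x hx ⟨g, hg⟩ => ?_⟩, h3, h4, e1, frontier_subset_closure h7, frontier_subset_closure h8⟩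
  have hx' := mem_inv_smul_set_iff.2 hg
  rw [not_not.1 fun e => (hs hx).2 ⟨_, ⟨W.smul_mem _ g⁻¹ _ C.hL, e⟩, hx'⟩, C.ch.axis] at hx'
  obtain ⟨t, rfl⟩ := mem_hor_iff.1 hx'
  rw [e1, C.Φ.injective.mem_set_image, h9] at hx
  exact ⟨t, hx.1, hx.2, rfl⟩

theorem t18_acc {F : X ≃ₜ X} {N : Dsc X} {a b : ℝ} (hN : C.Box N a b) {x y : ℝ} (hxy : x ≠ y)
    (h : ∀ r ∈ uIcc x y, C.c F r ∉ W.A C.κ ∧ (r ≠ x → r ∈ Ioo a b)) :
    C.Access (F '' N.int) (C.c F x) := by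
  refine ⟨_, subArc (C.continuous_c F) x y, subArc_injective _ (C.injective_c F).injOn hxy,
    fun t ht => ?_⟩
  have h1 := h _ ((convex_uIcc x y).add_smul_sub_mem left_mem_uIcc right_mem_uIcc t.2)
  have h2 := h1.2 (add_ne_left.2 (mul_ne_zero (fun e => ht (Subtype.ext e)) (sub_ne_zero.2 hxy.symm)))
  exact ⟨mem_image_of_mem F (hN.mid _ h2.1 h2.2), h1.1⟩

theorem access_alpha {F : X ≃ₜ X} {N : Dsc X} {a b : ℝ} (hN : C.Box N a b) :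
    (C.c F a ∉ W.A C.κ → C.Access (F '' N.int) (C.c F a)) ∧
      (C.c F b ∉ W.A C.κ → C.Access (F '' N.int) (C.c F b)) := by
  have key := fun t (h : C.c F t ∉ W.A C.κ) => (C.continuous_c F).continuousAt.eventually_mem
    ((W.isClosed_A _).compl_mem_nhds h)
  refine ⟨fun h => ?_, fun h => ?_⟩
  · obtain ⟨u, h1, h2⟩ := mem_nhdsGE_iff_exists_Icc_subset.1
      (mem_nhdsWithin_of_mem_nhds ((key a h).and (Iio_mem_nhds hN.lt)))
    refine t18_acc hN h1.ne fun r hr => ?_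
    rw [uIcc_of_le h1.le] at hr
    exact ⟨(h2 hr).1, fun e => ⟨hr.1.lt_of_ne e.symm, (h2 hr).2⟩⟩
  · obtain ⟨u, h1, h2⟩ := mem_nhdsLE_iff_exists_Icc_subset.1
      (mem_nhdsWithin_of_mem_nhds ((key b h).and (Ioi_mem_nhds hN.lt)))
    refine t18_acc hN h1.ne' fun r hr => ?_
    rw [uIcc_of_ge h1.le] at hr
    exact ⟨(h2 hr).1, fun e => ⟨(h2 hr).2, hr.2.lt_of_ne e⟩⟩

theorem t19_arc {U : Set X} (hU : IsOpen U) (hc : IsPreconnected U) (ψ : Set X → ℂ ≃ₜ X)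
    (hψ : ∀ L ∈ W.wall C.κ, L = hor (ψ L)) {x y : X} (hx : x ∉ U) (hxy : x ≠ y)
    (h₁ : C.Access U x) (h₂ : C.Access U y) :
    ∃ (d : Path x y) (R S : Set X), Injective d ∧ IsClosed R ∧ W.Nice C.κ ψ S ∧ S ⊆ U ∧
      range d ⊆ R ∪ S ∧ ∀ z ∈ R, z ≠ x → z ≠ y → z ∈ U ∧ z ∉ W.A C.κ := by
  obtain ⟨p, al, hal, hal'⟩ := h₁
  obtain ⟨q, be, hbe, hbe'⟩ := h₂
  have hp := hal' 1 one_ne_zero
  have hq := hbe' 1 one_ne_zero
  rw [al.target] at hp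
  rw [be.target] at hq
  have hR : IsClosed (range al ∪ range be) :=
    (isCompact_range al.continuous).isClosed.union (isCompact_range be.continuous).isClosed
  have hR' : ∀ z ∈ range al ∪ range be, z ≠ x → z ≠ y → z ∈ U ∧ z ∉ W.A C.κ := by
    rintro z (⟨s, rfl⟩ | ⟨s, rfl⟩) hzx hzy
    · exact hal' s fun h => hzx (by rw [h, al.source])
    · exact hbe' s fun h => hzy (by rw [h, be.source])
  by_cases hpq : p = q
  · subst hpq
    obtain ⟨d, hd, hd'⟩ := arc_trans hal (symm_injective hbe) hxy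
    rw [Path.symm_range] at hd'
    refine ⟨d, range al ∪ range be, ∅, hd, hR, ⟨by simp, ?_⟩, empty_subset _,
      hd'.trans subset_union_left, hR'⟩
    intro L _ z hz
    exact absurd hz.1 (notMem_empty z)
  · obtain ⟨nu, hnu, hnuU, hnice⟩ := nice_global W C.κ ψ hψ hU hc hp.1 hq.1 hp.2 hq.2 hpq
    obtain ⟨d₁, hd₁, hd₁'⟩ := arc_trans hal hnu fun h : x = q => hx (h ▸ hq.1)
    obtain ⟨d, hd, hd'⟩ := arc_trans hd₁ (symm_injective hbe) hxy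
    rw [Path.symm_range] at hd'
    refine ⟨d, range al ∪ range be, range nu, hd, hR, hnice, hnuU, ?_, hR'⟩
    intro z hz
    rcases hd' hz with h | h
    · rcases hd₁' h with h | h
      · exact Or.inl (Or.inl h)
      · exact Or.inr h
    · exact Or.inl (Or.inr h)

theorem tame_box {F : X ≃ₜ X} (hF : C.Good F) {N : Dsc X} {a b : ℝ} (hN : C.Box N a b)
    (h₁ : C.Access (F '' N.int) (C.c F a)) (h₂ : C.Access (F '' N.int) (C.c F b)) :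
    ∃ H, C.Mv H ∧ (∀ t, Off a b t → C.c (F * H) t = C.c F t) ∧
      {t | a < t ∧ t < b ∧ C.c (F * H) t ∈ W.A C.κ}.Finite ∧
      ∀ t, a < t → t < b → ∀ L' ∈ W.wall C.κ, C.c (F * H) t ∈ L' →
        Cross (C.c (F * H)) t L' := by
  have hex : ∀ L : Set X, ∃ Φ : ℂ ≃ₜ X, L ∈ W.wall C.κ → L = hor Φ := by
    intro L
    by_cases hL : L ∈ W.wall C.κ
    · obtain ⟨Φ, hΦ⟩ := W.isLine hL
      exact ⟨Φ, fun _ => hΦ⟩
    · exact ⟨W.base, fun h => absurd h hL⟩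
  choose ψ hψ using hex
  have hU : IsOpen (F '' N.int) := F.isOpenMap _ N.isOpen_int
  have hc : IsPreconnected (F '' N.int) :=
    N.isPreconnected_int.image _ F.continuous.continuousOn
  have hx : C.c F a ∉ F '' N.int := by
    rintro ⟨w, hw, hw'⟩
    have h1 : w = C.Φ a := F.injective hw'
    exact Set.disjoint_left.1 N.disjoint_int_bd hw (h1 ▸ hN.left)
  have hxy : C.c F a ≠ C.c F b := fun h => hN.lt.ne (C.injective_c F h)
  obtain ⟨d, R, S, hd, hR, hS, hSU, hdR, hR'⟩ := t19_arc hU hc ψ hψ hx hxy h₁ h₂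
  have hne : ∀ τ : I, τ ≠ 0 → τ ≠ 1 → d τ ≠ C.c F a ∧ d τ ≠ C.c F b := fun τ h0 h1 =>
    ⟨fun h => h0 (hd (h.trans d.source.symm)), fun h => h1 (hd (h.trans d.target.symm))⟩
  let η : Path (C.Φ a) (C.Φ b) :=
    { toFun := fun τ => F.symm (d τ)
      continuous_toFun := F.symm.continuous.comp d.continuous
      source' := by
        rw [d.source]
        exact F.symm_apply_apply _
      target' := by
        rw [d.target]
        exact F.symm_apply_apply _ }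
  have hη : ∀ τ, η τ = F.symm (d τ) := fun _ => rfl
  have hprop : N.Proper η := by
    refine ⟨F.symm.injective.comp hd, hN.left, hN.right, fun τ h0 h1 => ?_⟩
    have hm : d τ ∈ F '' N.int := by
      rcases hdR (mem_range_self τ) with h | h
      · exact (hR' _ h (hne τ h0 h1).1 (hne τ h0 h1).2).1
      · exact hSU h
    obtain ⟨w, hw, hw'⟩ := hm
    rw [hη, ← hw', F.symm_apply_apply]
    exact hw
  obtain ⟨H, hH, hH₁, hH₂⟩ := box_move hN η hprop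
  have hpar : ∀ t, a < t → t < b → ∃ τ : I, τ ≠ 0 ∧ τ ≠ 1 ∧ C.c (F * H) t = d τ := by
    intro t ha hb
    obtain ⟨τ, rfl⟩ := exists_param hN.lt ⟨ha.le, hb.le⟩
    refine ⟨τ, ?_, ?_, ?_⟩
    · rintro rfl
      simp at ha
    · rintro rfl
      simp at hb
    · rw [C.c_mul', hH₁, hη, F.apply_symm_apply]
  have hhit : ∀ t, a < t → t < b → C.c (F * H) t ∈ W.A C.κ → C.c (F * H) t ∉ R := by
    intro t ha hb ht hr
    obtain ⟨τ, h0, h1, h⟩ := hpar t ha hb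
    rw [h] at ht hr
    exact (hR' _ hr (hne τ h0 h1).1 (hne τ h0 h1).2).2 ht
  have hin : ∀ t, a < t → t < b → C.c (F * H) t ∉ R → C.c (F * H) t ∈ S := by
    intro t ha hb hr
    obtain ⟨τ, -, -, h⟩ := hpar t ha hb
    rw [h] at hr ⊢
    exact (hdR (mem_range_self τ)).resolve_left hr
  refine ⟨H, hH, fun t ht => ?_, ?_, fun t ha hb L' hL' ht => ?_⟩
  · rw [C.c_mul', hH₂ t ht]
    rfl
  · refine (hS.1.preimage (C.injective_c (F * H)).injOn).subset ?_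
    rintro t ⟨ha, hb, ht⟩
    exact ⟨hin t ha hb (hhit t ha hb ht), ht⟩
  · have hA : C.c (F * H) t ∈ W.A C.κ := ⟨L', hL', ht⟩
    have hr := hhit t ha hb hA
    obtain ⟨V, hV, hV'⟩ := hS.2 L' hL' _ ⟨hin t ha hb hr, ht⟩
    have hcont := (C.continuous_c (F * H)).continuousAt (x := t)
    have key : Cross (C.c (F * H)) t (hor (ψ L')) := by
      refine cross_of_vertical (C.continuous_c _) (C.injective_c _) (hψ L' hL' ▸ ht) ?_
      filter_upwards [hcont hV, hcont (hR.isOpen_compl.mem_nhds hr), Ioo_mem_nhds ha hb]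
        with s h1 h2 h3
      exact hV' _ ⟨hin s h3.1 h3.2 h2, h1⟩
    rw [hψ L' hL']
    exact key

theorem t20_seg {a b : ℝ} (hab : a ≠ b) {u w : ℂ} (hu : u.im ≠ 0) (h1 : w ∈ segment ℝ (a : ℂ) u)
    (h2 : w ∈ segment ℝ u (b : ℂ)) : w = u := by
  obtain ⟨p, q, -, -, hpq, rfl⟩ := h1
  obtain ⟨p', q', -, -, hpq', h⟩ := h2
  have h3 := congrArg Complex.im h
  have h4 := congrArg Complex.re h
  simp only [Complex.add_im, Complex.smul_im, Complex.ofReal_im, smul_eq_mul, mul_zero, add_zero,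
    zero_add] at h3
  simp only [Complex.add_re, Complex.smul_re, Complex.ofReal_re, smul_eq_mul] at h4
  have h5 : p' = q := mul_right_cancel₀ hu h3
  have h6 : q' = p := by linarith
  rw [h5, h6] at h4
  have h7 : p * (a - b) = 0 := by linarith
  have h8 : p = 0 := (mul_eq_zero.1 h7).resolve_right (sub_ne_zero.2 hab)
  have h9 : q = 1 := by linarith
  rw [h8, h9, zero_smul, one_smul, zero_add]

theorem t20_mem {s : Set ℂ} (hc : Convex ℝ s) (ho : IsOpen s) {a u w : ℂ} (ha : a ∈ closure s)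
    (hu : u ∈ s) (h : w ∈ segment ℝ a u) (hw : a ≠ w) : w ∈ s := by
  by_cases h1 : u = w
  · exact h1 ▸ hu
  exact interior_subset (hc.openSegment_closure_interior_subset_interior ha
    (ho.interior_eq.symm ▸ hu) (mem_openSegment_of_ne_left_right hw h1 h))

theorem premove (hC : C.Alpha) (F : X ≃ₜ X) (v : ℝ) :
    ∃ H, C.Mv H ∧ C.c (F * H) v ∉ W.A C.κ ∧
      ∀ t, Off (v - 1 / 4) (v + 1 / 4) t → C.c (F * H) t = C.c F t := by
  have hab : v - 1 / 4 < v + 1 / 4 := by linarith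
  obtain ⟨N, s, hN, hc, ho, hs, ha, hb⟩ := alpha_box hC hab (by linarith)
  have h1 : (N.int ∩ C.Lᶜ).Nonempty :=
    C.ch.isLine.dense_compl.inter_open_nonempty _ N.isOpen_int N.int_nonempty
  obtain ⟨_, ⟨x, ⟨hx, hxL⟩, rfl⟩, hxA⟩ := (W.dense_compl_A C.κ).inter_open_nonempty _
    (F.isOpenMap _ (N.isOpen_int.inter C.ch.isLine.isClosed.isOpen_compl)) (h1.image F)
  rw [hs] at hx
  obtain ⟨u, hu, rfl⟩ := hx
  have hi : u.im ≠ 0 := fun h => hxL (by rw [C.ch.axis]; exact mem_hor.2 h)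
  have hre : ∀ r : ℝ, (r : ℂ) ≠ u := fun r h => hi (by rw [← h, Complex.ofReal_im])
  let η := (segArc C.Φ ((v - 1 / 4 : ℝ) : ℂ) u).trans (segArc C.Φ u ((v + 1 / 4 : ℝ) : ℂ))
  have hη : Injective η := by
    refine trans_injective (segArc_injective _ (hre _)) (segArc_injective _ (hre _).symm) ?_
    rw [range_segArc, range_segArc]
    rintro _ ⟨⟨w, hw, rfl⟩, w', hw', h⟩
    rw [C.Φ.injective h] at hw'
    rw [t20_seg hab.ne hi hw hw']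
    rfl
  obtain ⟨H, m, h2, h3⟩ := box_move hN η ⟨hη, hN.left, hN.right, fun t h0 h4 => by
    have h5 : η t ∈ range η := mem_range_self t
    rw [Path.trans_range, range_segArc, range_segArc] at h5
    rw [hs]
    rcases h5 with ⟨w, hw, h6⟩ | ⟨w, hw, h6⟩
    · refine ⟨w, t20_mem hc ho ha hu hw fun h => h0 (hη ?_), h6⟩
      rw [← h6, ← h, η.source]
    · rw [segment_symm] at hw
      refine ⟨w, t20_mem hc ho hb hu hw fun h => h4 (hη ?_), h6⟩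
      rw [← h6, ← h, η.target]⟩
  refine ⟨H, m, ?_, fun t ht => ?_⟩
  · have h4 := h2 ⟨1 / 2, by norm_num, by norm_num⟩
    have h5 : v - 1 / 4 + (1 / 2 : ℝ) * (v + 1 / 4 - (v - 1 / 4)) = v := by ring
    have h6 : η ⟨1 / 2, by norm_num, by norm_num⟩ = C.Φ u := by
      rw [Path.trans_apply, dif_pos le_rfl]
      refine congrArg C.Φ ?_
      show ((v - 1 / 4 : ℝ) : ℂ) + ((2 * (1 / 2) : ℝ) : ℂ) * (u - ((v - 1 / 4 : ℝ) : ℂ)) = u
      push_cast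
      ring
    simp only [h5] at h4
    rw [C.c_mul', h4, h6]
    exact hxA
  · rw [C.c_mul', h3 t ht]
    rfl

theorem tame_two {F : X ≃ₜ X} (hF : C.Good F) {N₀ N₁ : Dsc X} (h₀ : C.Box N₀ 0 (1 / 2))
    (h₁ : C.Box N₁ (1 / 2) 1)
    (hacc : ∀ F', C.Good F' → C.c F' 0 = C.c F 0 → C.c F' (1 / 2) = C.c F (1 / 2) →
      C.Access (F' '' N₀.int) (C.c F' 0) ∧ C.Access (F' '' N₀.int) (C.c F' (1 / 2)) ∧
      C.Access (F' '' N₁.int) (C.c F' (1 / 2)) ∧ C.Access (F' '' N₁.int) (C.c F' 1))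
    (hv₀ : C.c F 0 ∈ W.A C.κ → C.c F 0 ∈ C.Y)
    (hv₁ : C.c F (1 / 2) ∈ W.A C.κ → C.c F (1 / 2) ∈ C.Y) :
    ∃ H, C.Mv H ∧ C.Tame (F * H) := by
  obtain ⟨H₀, m₀, o₀, f₀, x₀⟩ := tame_box hF h₀ (hacc F hF rfl rfl).1 (hacc F hF rfl rfl).2.1
  have hF₁ := hF.mul m₀.good
  have e₀ := o₀ 0 (off_of_mem' (by norm_num) le_rfl)
  have e₁ := o₀ (1 / 2) (off_of_mem le_rfl (by norm_num))
  obtain ⟨H₁, m₁, o₁, f₁, x₁⟩ := tame_box hF₁ h₁ (hacc _ hF₁ e₀ e₁).2.2.1 (hacc _ hF₁ e₀ e₁).2.2.2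
  have e : ∀ t, 0 ≤ t → t ≤ 1 / 2 → C.c (F * H₀ * H₁) t = C.c (F * H₀) t := fun t h h' =>
    o₁ t (off_of_mem' (by linarith) h')
  refine ⟨H₀ * H₁, m₀.mul m₁, ?_⟩
  rw [← mul_assoc]
  refine tame_of_period (hF₁.mul m₁.good).1
    (((f₀.union f₁).union (Set.toFinite {0, 1 / 2})).subset ?_) ?_
  · rintro t ⟨⟨h1, h2⟩, h3⟩
    rcases h1.eq_or_lt with h4 | h4
    · exact Or.inr (Or.inl h4.symm)
    rcases lt_trichotomy t (1 / 2) with h5 | h5 | h5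
    · exact Or.inl (Or.inl ⟨h4, h5, e t h1 h5.le ▸ h3⟩)
    · exact Or.inr (Or.inr h5)
    · exact Or.inl (Or.inr ⟨h5, h2, h3⟩)
  · rintro t ⟨h1, h2⟩ L' hL h3 h6
    rcases h1.eq_or_lt with h4 | h4
    · rw [← h4, e 0 le_rfl (by norm_num), e₀] at h3 h6
      exact absurd (hv₀ ⟨L', hL, h3⟩) h6
    rcases lt_trichotomy t (1 / 2) with h5 | h5 | h5
    · rw [e t h1 h5.le] at h3
      refine (x₀ t h4 h5 L' hL h3).congr ?_
      filter_upwards [Ioo_mem_nhds h4 h5] with r hr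
      exact (e r hr.1.le hr.2.le).symm
    · rw [h5, e _ (by norm_num) le_rfl, e₁] at h3 h6
      exact absurd (hv₁ ⟨L', hL, h3⟩) h6
    · exact x₁ t h5 h2 L' hL h3

theorem tame_alpha (hC : C.Alpha) {F : X ≃ₜ X} (hF : C.Good F) :
    ∃ H, C.Mv H ∧ C.Tame (F * H) := by
  obtain ⟨H₀, m₀, a₀, -⟩ := premove hC F 0
  obtain ⟨H₁, m₁, a₁, o₁⟩ := premove hC (F * H₀) (1 / 2)
  rw [← o₁ 0 (off_of_mem' (by norm_num) (by norm_num))] at a₀
  obtain ⟨N₀, -, h₀, -⟩ := alpha_box hC (a := 0) (b := 1 / 2) (by norm_num) (by norm_num)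
  obtain ⟨N₁, -, h₁, -⟩ := alpha_box hC (a := 1 / 2) (b := 1) (by norm_num) (by norm_num)
  obtain ⟨H, m, h⟩ := tame_two ((hF.mul m₀.good).mul m₁.good) h₀ h₁ (fun F' hF' e₀ e₁ => by
    rw [← e₀] at a₀
    rw [← e₁] at a₁
    refine ⟨(access_alpha h₀).1 a₀, (access_alpha h₀).2 a₁, (access_alpha h₁).1 a₁,
      (access_alpha h₁).2 fun h => a₀ ((hit_add_int hF'.1 0 1).1 ?_)⟩
    rwa [Int.cast_one, zero_add]) (fun h => absurd h a₀) fun h => absurd h a₁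
  refine ⟨H₀ * H₁ * H, (m₀.mul m₁).mul m, ?_⟩
  rwa [← mul_assoc, ← mul_assoc]

theorem half_ball (k : ℤ) {ε : ℝ} (hε : ε = 1 ∨ ε = -1) (E : Dsc X)
    (hb : ∀ x ∈ E.bd, ∃ κ, ∃ N ∈ W.wall κ, N ≠ C.L ∧ x ∈ N)
    (he : ∀ t : ℝ, 0 < t → t < 1 / 2 → C.Φ ((k / 2 + ε * t : ℝ) : ℂ) ∈ E.int) :
    ∃ r > 0, ∀ w : ℂ, dist w ((k / 2 : ℝ) : ℂ) < r → 0 < ε * (w.re - k / 2) →
      C.Φ w ∈ E.int ∧ ∀ κ, ∀ N ∈ W.wall κ, C.Φ w ∈ N → N = C.L := by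
  have hZ := W.isClosed_sUnion
    (fam := {N | (∃ κ, N ∈ W.wall κ) ∧ N ≠ C.L ∧ N ≠ ver C.Φ (k / 2)}) fun N h => h.1
  obtain ⟨r, hr, h⟩ := Metric.isOpen_iff.1 (hZ.isOpen_compl.preimage C.Φ.continuous)
    ((k / 2 : ℝ) : ℂ) (by
      rintro ⟨N, ⟨⟨κ, hN⟩, h1, h2⟩, hx⟩
      by_cases hκ : κ = C.κ
      · exact h1 (W.disj _ _ (hκ ▸ hN) _ C.hL ⟨_, hx, C.ch.mem _⟩)
      · exact h2 (W.disj _ _ (Bool.eq_not_iff.2 hκ ▸ hN) _ (C.ch.vert k)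
          ⟨_, hx, mem_ver.2 (Complex.ofReal_re _)⟩))
  have key : ∀ w : ℂ, dist w ((k / 2 : ℝ) : ℂ) < r → 0 < ε * (w.re - k / 2) →
      ∀ κ, ∀ N ∈ W.wall κ, C.Φ w ∈ N → N = C.L := fun w h1 h2 κ N hN hw => by
    by_contra h3
    refine h h1 ⟨N, ⟨⟨κ, hN⟩, h3, ?_⟩, hw⟩
    rintro rfl
    rw [mem_ver.1 hw, sub_self, mul_zero] at h2
    exact h2.false
  have hc : Convex ℝ (ball ((k / 2 : ℝ) : ℂ) r ∩ {w | 0 < ε * (w.re - k / 2)}) :=
    (convex_ball _ _).inter (by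
      rcases hε with rfl | rfl
      · simpa using convex_halfSpace_re_gt (k / 2 : ℝ)
      · simpa using convex_halfSpace_re_lt (k / 2 : ℝ))
  have h0 : 0 < min r (1 / 2) := lt_min hr (by norm_num)
  have h1 := E.subset_int (hc.isPreconnected.image _ C.Φ.continuous.continuousOn)
    (disjoint_left.2 (by
      rintro _ ⟨w, hw, rfl⟩ hx
      obtain ⟨κ, N, hN, h1, h2⟩ := hb _ hx
      exact h1 (key w hw.1 hw.2 κ N hN h2)))
    ⟨_, ⟨_, ⟨?_, ?_⟩, rfl⟩, E.int_subset_cl (he (min r (1 / 2) / 2) (half_pos h0)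
      ((half_lt_self h0).trans_le (min_le_right _ _)))⟩
  · exact ⟨r, hr, fun w h2 h3 => ⟨h1 ⟨w, ⟨h2, h3⟩, rfl⟩, key w h2 h3⟩⟩
  · rw [mem_ball, Complex.dist_of_im_eq (by simp), Complex.ofReal_re, Complex.ofReal_re,
      Real.dist_eq, add_sub_cancel_left, abs_mul, abs_of_pos (half_pos h0),
      show |ε| = 1 by rcases hε with rfl | rfl <;> simp, one_mul]
    exact (half_lt_self h0).trans_le (min_le_left _ _)
  · rw [mem_ofPred_eq, Complex.ofReal_re]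
    rcases hε with rfl | rfl <;> linarith

theorem Beta.vertex (hC : C.Beta) (k : ℤ) : ver C.Φ (k / 2) ⊆ C.Y :=
  subset_sUnion_of_mem (hC.2 (by simpa only [hC.1, Bool.not_true] using C.ch.vert k))

theorem access_beta (hC : C.Beta) {F : X ≃ₜ X} (hF : C.Good F) (k : ℤ) {ε : ℝ}
    (hε : ε = 1 ∨ ε = -1) (E : Dsc X)
    (hb : ∀ x ∈ E.bd, ∃ κ, ∃ N ∈ W.wall κ, N ≠ C.L ∧ x ∈ N)
    (he : ∀ t : ℝ, 0 < t → t < 1 / 2 → C.Φ ((k / 2 + ε * t : ℝ) : ℂ) ∈ E.int) :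
    C.Access (F '' E.int) (C.c F (k / 2)) := by
  obtain ⟨r, hr, h⟩ := half_ball k hε E hb he
  have hfix : ∀ x ∈ ver C.Φ (k / 2), F.symm x = x := fun x hx =>
    F.symm_apply_eq.2 (hF.2 x (hC.vertex k hx)).symm
  have hv : C.Φ ((k / 2 : ℝ) : ℂ) ∈ ver C.Φ (k / 2) := mem_ver.2 (Complex.ofReal_re _)
  have hx : C.c F (k / 2) = C.Φ ((k / 2 : ℝ) : ℂ) := hF.2 _ (hC.vertex k hv)
  have hs := sides_pres C.ch.per hF.1.symm (r := k / 2) ((image_congr hfix).trans (image_id' _))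
  obtain ⟨δ, hδ, h1⟩ := Metric.continuousAt_iff.1
    (show ContinuousAt (fun w => C.Φ.symm (F.symm (C.Φ w))) ((k / 2 : ℝ) : ℂ) by fun_prop) r hr
  simp only [hfix _ hv, Homeomorph.symm_apply_apply] at h1
  obtain ⟨η, h0, h2, h3⟩ : ∃ η : ℝ, 0 < η ∧ η * 2 < r ∧ η * 2 < δ :=
    ⟨min r δ / 3, by positivity, by linarith [min_le_left r δ, lt_min hr hδ],
      by linarith [min_le_right r δ, lt_min hr hδ]⟩
  rw [hx]
  refine ⟨_, segArc C.Φ ((k / 2 : ℝ) : ℂ) ((k / 2 : ℝ) + η * (ε + Complex.I)),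
    segArc_injective _ fun e => h0.ne (by simpa using congrArg Complex.im e), fun t ht => ?_⟩
  have ht0 : (0 : ℝ) < t := lt_of_le_of_ne t.2.1 fun e => ht (Subtype.ext e.symm)
  obtain ⟨w, hw, e⟩ : ∃ w : ℂ, w = (k / 2 : ℝ) + (t * η : ℝ) * (ε + Complex.I) ∧
      segArc C.Φ ((k / 2 : ℝ) : ℂ) ((k / 2 : ℝ) + η * (ε + Complex.I)) t = C.Φ w :=
    ⟨_, rfl, congrArg C.Φ (by push_cast; ring)⟩
  have h4 := mul_pos ht0 h0
  have h5 : dist w ((k / 2 : ℝ) : ℂ) ≤ η * 2 := by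
    rw [hw, dist_self_add_left, norm_mul, Complex.norm_real, Real.norm_of_nonneg h4.le]
    refine mul_le_mul (mul_le_of_le_one_left h0.le t.2.2) ((norm_add_le _ _).trans ?_)
      (norm_nonneg _) h0.le
    rcases hε with rfl | rfl <;> norm_num
  have h6 : w.re = k / 2 + t * η * ε := by simp [hw]
  have h7 : w.im = t * η := by simp [hw]
  rw [e]
  refine ⟨⟨F.symm (C.Φ w), ?_, F.apply_symm_apply _⟩, fun ⟨N, hN, hw⟩ => ?_⟩
  · have h8 := (h _ (h1 (h5.trans_lt h3)) ?_).1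
    · rwa [Homeomorph.apply_symm_apply] at h8
    rcases hε with rfl | rfl
    · linarith [(hs w).1 (by linarith)]
    · linarith [(hs w).2 (by linarith)]
  · obtain rfl := (h w (h5.trans_lt h2) (by rcases hε with rfl | rfl <;> linarith)).2 _ N hN hw
    rw [C.ch.axis, mem_hor] at hw
    linarith

theorem t22_box (hC : C.Beta) {E : Fin 2 → Dsc X} (hE : Dbl Γ W.wall C.L C.Φ E) (k : Fin 2)
    {a b : ℝ} (ha : a = (k : ℝ) / 2) (hb : b = (k + 1 : ℝ) / 2) : C.Box (E k) a b := by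
  have hab : a < b := by rw [ha, hb]; linarith
  have hY : Disjoint (E k).int C.Y := disjoint_left.mpr fun x hx ⟨N, hN, hxN⟩ => by
    obtain ⟨κ', h⟩ := C.sub N hN
    exact C.notMem (hE.miss k x hx κ' N h hxN ▸ hN)
  have hmid : ∀ t : ℝ, a < t → t < b → C.Φ t ∈ (E k).int := fun t h1 h2 =>
    hE.edge k t (ha ▸ h1) (hb ▸ h2)
  have hva : ver C.Φ a ⊆ C.Y := by simpa [ha] using hC.vertex ((k : ℕ) : ℤ)
  have hvb : ver C.Φ b ⊆ C.Y := by simpa [hb] using hC.vertex (((k : ℕ) : ℤ) + 1)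
  have hbd : ∀ t ∈ Icc a b, ver C.Φ t ⊆ C.Y → C.Φ t ∈ (E k).bd := fun t ht hv => by
    have h1 : C.Φ t ∈ closure (E k).int :=
      map_mem_closure (f := fun s : ℝ => C.Φ s) (C.Φ.continuous.comp Complex.continuous_ofReal)
        (closure_Ioo hab.ne ▸ ht) fun s hs => hmid s hs.1 hs.2
    rw [Dsc.closure_int, Dsc.cl_eq] at h1
    exact h1.resolve_left fun h2 => disjoint_left.mp hY h2 (hv (mem_ver.mpr (Complex.ofReal_re t)))
  refine ⟨hab, fun g x hx hg => (hE.wand k k g x hx hg).1, hY,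
    hbd a (left_mem_Icc.mpr hab.le) hva, hbd b (right_mem_Icc.mpr hab.le) hvb, hmid, ?_⟩
  rintro x hx ⟨g, hg⟩
  have h1 : x ∈ C.L := by
    rw [← hE.miss k x hx C.κ _ (W.smul_mem _ g⁻¹ _ C.hL) (mem_inv_smul_set_iff.mpr hg)]
    exact mem_inv_smul_set_iff.mpr hg
  rw [C.ch.axis] at h1
  obtain ⟨t, rfl⟩ := mem_hor_iff.mp h1
  have hm := hmid ((a + b) / 2) (by linarith) (by linarith)
  have h2 := same_ver.mp (same_of_preconnected (E k).isPreconnected_int (hY.mono_right hva) hx hm)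
  have h3 := same_ver.mp (same_of_preconnected (E k).isPreconnected_int (hY.mono_right hvb) hx hm)
  rw [Complex.ofReal_re, Complex.ofReal_re] at h2 h3
  exact ⟨t, by nlinarith, by nlinarith, rfl⟩

theorem dbl_box (hC : C.Beta) {E : Fin 2 → Dsc X} (hE : Dbl Γ W.wall C.L C.Φ E) :
    C.Box (E 0) 0 (1 / 2) ∧ C.Box (E 1) (1 / 2) 1 :=
  ⟨t22_box hC hE 0 (by simp) (by simp), t22_box hC hE 1 (by simp) (by norm_num)⟩

theorem tame_beta (hC : C.Beta) {E : Fin 2 → Dsc X} (hE : Dbl Γ W.wall C.L C.Φ E) {F : X ≃ₜ X}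
    (hF : C.Good F) : ∃ H, C.Mv H ∧ C.Tame (F * H) := by
  obtain ⟨h₀, h₁⟩ := dbl_box hC hE
  have hv : ∀ k : ℤ, C.c F (k / 2) ∈ C.Y := fun k =>
    hF.mem_Y.mpr (hC.vertex k (mem_ver.mpr (Complex.ofReal_re _)))
  refine tame_two hF h₀ h₁ (fun F' hF' _ _ => ⟨?_, ?_, ?_, ?_⟩) (fun _ => by simpa using hv 0)
    fun _ => by simpa using hv 1
  · simpa using access_beta hC hF' 0 (Or.inl rfl) (E 0) (hE.bdry 0) fun t h1 h2 =>
      h₀.mid _ (by push_cast; linarith) (by push_cast; linarith)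
  · simpa using access_beta hC hF' 1 (Or.inr rfl) (E 0) (hE.bdry 0) fun t h1 h2 =>
      h₀.mid _ (by push_cast; linarith) (by push_cast; linarith)
  · simpa using access_beta hC hF' 1 (Or.inl rfl) (E 1) (hE.bdry 1) fun t h1 h2 =>
      h₁.mid _ (by push_cast; linarith) (by push_cast; linarith)
  · simpa using access_beta hC hF' 2 (Or.inr rfl) (E 1) (hE.bdry 1) fun t h1 h2 =>
      h₁.mid _ (by push_cast; linarith) (by push_cast; linarith)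


end Ctx

end Pool.Agent.Lib.MP_66609f_al.DN.BE
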