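import Pool.Agent.Lib.MP_66609f_al.DN.E4

/-! Equivariant isotopies of a plane with walls, part 5. -/

namespace Pool.Agent.Lib.MP_66609f_al.DN.BE

open Set Metric Topology Function unitInterval
open scoped Pointwise

set_option linter.unusedSectionVars false

variable {Γ X : Type} [Group Γ] [TopologicalSpace X] [MulAction Γ X] [T2Space X]
  [ContinuousConstSMul Γ X] [ProperlyDiscontinuousSMul Γ X]

namespace Ctx

variable {W : WallSys Γ X} {C : Ctx W}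

theorem t23_arc (F : X ≃ₜ X) {N : Set X} {a b : ℝ} (h : ∀ r ∈ uIcc a b, C.c F r ∉ N) :
    Same N (C.c F a) (C.c F b) :=
  same_of_preconnected (isPreconnected_uIcc.image _ (C.continuous_c F).continuousOn)
    (disjoint_left.2 <| forall_mem_image.2 h) (mem_image_of_mem _ left_mem_uIcc)
    (mem_image_of_mem _ right_mem_uIcc)

theorem t23_same {N : Set X} (hN : N ∈ W.wall C.κ) (hne : N ≠ C.L) {y y' : X} (hy : y ∈ C.L)
    (hy' : y' ∈ C.L) : Same N y y' :=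
  same_of_preconnected (W.isLine C.hL).isPreconnected
    (disjoint_left.2 fun z h h' => hne (W.disj _ _ hN _ C.hL ⟨z, h', h⟩)) hy hy'

theorem t23_bound {F : X ≃ₜ X} (hF : Equi Γ F) : ∃ n : ℕ, ∀ s : ℝ,
    {N | N ∈ W.wall C.κ ∧ N ≠ C.L ∧ ¬ Same N (C.c F s) (C.Φ (0 : ℝ))}.Finite ∧
    {N | N ∈ W.wall C.κ ∧ N ≠ C.L ∧ ¬ Same N (C.c F s) (C.Φ (0 : ℝ))}.ncard ≤ n := by
  have : PathConnectedSpace X := W.base.surjective.pathConnectedSpace W.base.continuous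
  have a := PathConnectedSpace.somePath (C.c F 0) (C.Φ (0 : ℝ))
  have hc := C.continuous_c F
  have h1 := W.loc_fin C.κ _ ((isCompact_Icc (a := 0) (b := 1)).image hc |>.union
    (isCompact_range a.continuous))
  have h2 : IsPreconnected (C.c F '' Icc 0 1 ∪ range a) :=
    (isPreconnected_Icc.image _ hc.continuousOn).union _
      (mem_image_of_mem _ (left_mem_Icc.2 zero_le_one)) a.source_mem_range
      (isPreconnected_range a.continuous)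
  refine ⟨{L | L ∈ W.wall C.κ ∧ (L ∩ (C.c F '' Icc 0 1 ∪ range a)).Nonempty}.ncard, fun s => ?_⟩
  have key : {N | N ∈ W.wall C.κ ∧ N ≠ C.L ∧ ¬ Same N (C.c F s) (C.Φ (0 : ℝ))} ⊆
      (fun N => C.γ ^ ⌊s⌋ • N) ''
        {L | L ∈ W.wall C.κ ∧ (L ∩ (C.c F '' Icc 0 1 ∪ range a)).Nonempty} := by
    rintro N ⟨hN, hne, hs⟩
    refine ⟨(C.γ ^ ⌊s⌋)⁻¹ • N, ⟨W.smul_mem _ _ _ hN, ?_⟩, smul_inv_smul _ _⟩
    by_contra h0
    have h3 := (same_smul (C.γ ^ ⌊s⌋)).2 (same_of_preconnected h2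
      (disjoint_iff_inter_eq_empty.2 (not_nonempty_iff_eq_empty.1 h0)).symm
      (.inl (mem_image_of_mem _ ⟨Int.fract_nonneg s, (Int.fract_lt_one s).le⟩))
      (.inr a.target_mem_range))
    rw [smul_inv_smul, ← c_add_int C hF, Int.fract_add_floor, ← C.ch.per_real] at h3
    exact hs (h3.trans (t23_same hN hne (C.ch.mem _) (C.ch.mem _)))
  exact ⟨(h1.image _).subset key, (ncard_le_ncard key (h1.image _)).trans (ncard_image_le h1)⟩

theorem t23_across {F : X ≃ₜ X} (hF : C.Good F) (hT : C.Tame F) {τ s : ℝ} {N : Set X}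
    (hN : N ∈ W.wall C.κ) (hne : N ≠ C.L) (hτ : C.c F τ ∈ N) (hs : s ≠ τ)
    (hf : ∀ r ∈ uIcc s τ, r ≠ τ → C.c F r ∉ W.A C.κ) :
    ∃ s', s' ≠ τ ∧ ¬ Same N (C.c F s') (C.c F s) ∧
      ∀ r ∈ uIcc s' s, r ≠ τ → C.c F r ∉ W.A C.κ := by
  obtain ⟨ε, hε, h1⟩ := hT.2 τ N hN hτ (hF.notMem_Y hN hne hτ)
  obtain ⟨ε', hε', h2⟩ := hT.isolated hF.1 τ
  obtain ⟨δ, h0, d1, d2⟩ : ∃ δ, 0 < δ ∧ δ < ε ∧ δ < ε' :=
    ⟨min ε ε' / 2, by positivity, by linarith [min_le_left ε ε', lt_min hε hε'],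
      by linarith [min_le_right ε ε', lt_min hε hε']⟩
  have h3 := (h1 (τ - δ) (τ + δ) (by linarith) (by linarith) (by linarith) (by linarith)).2.2
  have h4 : ∀ a, τ - δ ≤ a → a ≤ τ + δ → ∀ r ∈ uIcc a s, r ≠ τ → C.c F r ∉ W.A C.κ := by
    intro a a1 a2 r hr hne
    by_cases h : r ∈ uIcc s τ
    · exact hf r h hne
    · rw [mem_uIcc] at h hr
      refine h2 r ?_ ?_ hne <;> by_contra h' <;> refine h ?_ <;> rcases hr with hr | hr
      · linarith [hr.1]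
      · exact .inl ⟨hr.1, by linarith⟩
      · exact .inr ⟨by linarith, hr.2⟩
      · linarith [hr.2]
  rcases hs.lt_or_gt with h | h
  · refine ⟨τ + δ, by linarith, fun h5 => h3 (Same.trans ?_ h5.symm), h4 _ (by linarith) le_rfl⟩
    refine t23_arc F fun r hr h6 => h4 _ le_rfl (by linarith) r hr ?_ ⟨N, hN, h6⟩
    rcases mem_uIcc.1 hr with hr | hr <;> linarith [hr.2]
  · refine ⟨τ - δ, by linarith, fun h5 => h3 (h5.trans (Same.symm ?_)), h4 _ le_rfl (by linarith)⟩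
    refine t23_arc F fun r hr h6 => h4 _ (by linarith) le_rfl r hr ?_ ⟨N, hN, h6⟩
    rcases mem_uIcc.1 hr with hr | hr <;> linarith [hr.1]

theorem exists_bigon_far {F : X ≃ₜ X} (hF : C.Good F) (hT : C.Tame F) {t : ℝ} {L' : Set X}
    (hL : L' ∈ W.wall C.κ) (hne : L' ≠ C.L) (ht : C.c F t ∈ L') :
    ∃ t₁ t₂ L'', C.Bigon F t₁ t₂ L'' := by
  obtain ⟨n, hn⟩ := t23_bound (C := C) hF.1
  set Sep : ℝ → Set (Set X) := fun s =>
    {N | N ∈ W.wall C.κ ∧ N ≠ C.L ∧ ¬ Same N (C.c F s) (C.Φ (0 : ℝ))} with hSep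
  have hA : C.c F t ∈ W.A C.κ := ⟨L', hL, ht⟩
  obtain ⟨s₀, hs₀, N₀, hN₀⟩ : ∃ s, C.c F s ∉ W.A C.κ ∧ (Sep s).Nonempty := by
    obtain ⟨ε, hε, h⟩ := hT.isolated hF.1 t
    obtain ⟨s', h1, h2, h3⟩ := t23_across hF hT (s := t + ε / 2) hL hne ht (by linarith)
      fun r hr hr' => by
        rw [uIcc_of_ge (by linarith)] at hr
        exact h r (by linarith [hr.1]) (by linarith [hr.2]) hr'
    by_cases h4 : Same L' (C.c F s') (C.Φ (0 : ℝ))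
    · exact ⟨_, h3 _ right_mem_uIcc (by linarith), L', hL, hne, fun h5 => h2 (h4.trans h5.symm)⟩
    · exact ⟨_, h3 _ left_mem_uIcc h1, L', hL, hne, h4⟩
  obtain ⟨s, hs, hmax⟩ := (InvImage.wf (fun s => n - (Sep s).ncard) wellFounded_lt).has_min
    {s | C.c F s ∉ W.A C.κ} ⟨s₀, hs₀⟩
  have hle : ∀ s', C.c F s' ∉ W.A C.κ → (Sep s').ncard ≤ (Sep s).ncard := fun s' h => by
    have h1 : ¬ n - (Sep s').ncard < n - (Sep s).ncard := hmax s' h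
    have h2 : (Sep s').ncard ≤ n := (hn s').2
    omega
  have key : ∀ τ N, N ∈ W.wall C.κ → C.c F τ ∈ N →
      (∀ r ∈ uIcc s τ, r ≠ τ → C.c F r ∉ W.A C.κ) →
      N ≠ C.L ∧ ¬ Same N (C.c F s) (C.Φ (0 : ℝ)) := by
    intro τ N hN hτ hf
    have hsτ : s ≠ τ := fun e => hs ⟨N, hN, e ▸ hτ⟩
    have hNL : N ≠ C.L := by
      rintro rfl
      obtain ⟨M, hM, hML, hMs⟩ : (Sep s).Nonempty := (ncard_pos (hn s).1).1
        (((ncard_pos (hn s₀).1).2 ⟨N₀, hN₀⟩).trans_le (hle s₀ hs₀))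
      refine hMs ((t23_arc F fun r hr h => ?_).trans (t23_same hM hML hτ (C.ch.mem _)))
      by_cases e : r = τ
      · exact hML (W.disj _ _ hM _ hN ⟨_, h, e ▸ hτ⟩)
      · exact hf r hr e ⟨M, hM, h⟩
    refine ⟨hNL, fun h0 => ?_⟩
    obtain ⟨s', h1, h2, h3⟩ := t23_across hF hT hN hNL hτ hsτ hf
    have h4 : N ∉ Sep s := fun h => h.2.2 h0
    have h5 : insert N (Sep s) ⊆ Sep s' := by
      rintro M (rfl | hM)
      · exact ⟨hN, hNL, fun h => h2 (h.trans h0.symm)⟩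
      refine ⟨hM.1, hM.2.1, fun h => hM.2.2 ((t23_arc F fun r hr h' => ?_).symm.trans h)⟩
      by_cases e : r = τ
      · exact h4 (W.disj _ _ hM.1 _ hN ⟨_, h', e ▸ hτ⟩ ▸ hM)
      · exact h3 r hr e ⟨M, hM.1, h'⟩
    have h6 := ncard_le_ncard h5 (hn s').1
    rw [ncard_insert_of_notMem h4 (hn s).1] at h6
    exact (h6.trans (hle s' (h3 _ left_mem_uIcc h1))).not_gt (Nat.lt_succ_self _)
  obtain ⟨t₁, a1, ⟨L₁, m1, n1⟩, f1⟩ := hT.prev hF.1 hA s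
  obtain ⟨t₂, a2, ⟨L₂, m2, n2⟩, f2⟩ := hT.next hF.1 hA s
  have free : ∀ r, t₁ < r → r < t₂ → C.c F r ∉ W.A C.κ := fun r r1 r2 => by
    rcases lt_trichotomy r s with h | rfl | h
    exacts [f1 r r1 h, hs, f2 r h r2]
  obtain ⟨k1, k1'⟩ := key t₁ L₁ m1 n1 fun r hr h => by
    rw [uIcc_of_ge a1.le] at hr
    exact free r (hr.1.lt_of_ne' h) (hr.2.trans_lt a2)
  obtain ⟨k2, k2'⟩ := key t₂ L₂ m2 n2 fun r hr h => by
    rw [uIcc_of_le a2.le] at hr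
    exact free r (a1.trans_le hr.1) (hr.2.lt_of_ne h)
  have hcl : C.c F '' Icc t₁ t₂ ⊆ closure (C.c F '' Ioo t₁ t₂) := by
    rw [← closure_Ioo (a1.trans a2).ne]
    exact image_closure_subset_closure_image (C.continuous_c F)
  have hd : ∀ M ∈ W.wall C.κ, Disjoint (C.c F '' Ioo t₁ t₂) M := fun M hM =>
    disjoint_left.2 <| forall_mem_image.2 fun r hr h => free r hr.1 hr.2 ⟨M, hM, h⟩
  obtain rfl : L₁ = L₂ := nested (S := {C.Φ (0 : ℝ)}) (W.isLine m1) (W.isLine m2)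
    (W.disj _ _ m1 _ m2) (isPreconnected_Ioo.image _ (C.continuous_c F).continuousOn) (hd _ m1)
    (hd _ m2) ⟨_, hcl (mem_image_of_mem _ (left_mem_Icc.2 (a1.trans a2).le)), n1⟩
    ⟨_, hcl (mem_image_of_mem _ (right_mem_Icc.2 (a1.trans a2).le)), n2⟩
    (mem_image_of_mem _ ⟨a1, a2⟩) (singleton_nonempty _) (fun _ e => e ▸ k1')
    fun _ e => e ▸ k2'
  exact ⟨t₁, t₂, L₁, a1.trans a2, m1, n1, n2, hF.notMem_Y m1 k1 n1, hF.notMem_Y m1 k1 n2, free⟩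

theorem t24_mem_A {κ : Bool} {L' : Set X} (hL : L' ∈ W.wall κ) {x : X} (hx : x ∈ L') :
    x ∈ W.A κ := ⟨L', hL, hx⟩

theorem exists_bigon_hit (hC : C.Alpha) {F : X ≃ₜ X} (hF : C.Good F) (hT : C.Tame F) {t : ℝ}
    (ht : C.c F t ∈ W.A C.κ) : ∃ t₁ t₂ L'', C.Bigon F t₁ t₂ L'' := by
  obtain ⟨t', hlt, ht', hfree⟩ := hT.next hF.1 ht t
  obtain ⟨L₁, hL₁, h₁⟩ := ht
  obtain ⟨L₂, hL₂, h₂⟩ := ht'
  by_cases e₁ : L₁ = C.L
  · by_cases e₂ : L₂ = C.L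
    · exact ⟨t, t', C.L, hlt, C.hL, e₁ ▸ h₁, e₂ ▸ h₂, hC.c_notMem_Y hF t, hC.c_notMem_Y hF t',
        hfree⟩
    · exact exists_bigon_far hF hT hL₂ e₂ h₂
  · exact exists_bigon_far hF hT hL₁ e₁ h₁

theorem Bigon.short {F : X ≃ₜ X} (hF : C.Good F) (hT : C.Tame F) {t₁ t₂ : ℝ} {L' : Set X}
    (h : C.Bigon F t₁ t₂ L') : t₂ < t₁ + 1 := by
  by_contra hn
  have hn : t₁ + 1 ≤ t₂ := not_lt.1 hn
  have hit : C.c F (t₁ + ((1 : ℤ) : ℝ)) ∈ W.A C.κ :=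
    (hit_add_int hF.1 t₁ 1).2 (t24_mem_A h.mem h.m₁)
  rw [Int.cast_one] at hit
  have e : t₂ = t₁ + 1 := by
    by_contra hne
    exact h.free _ (by linarith) (lt_of_le_of_ne hn (Ne.symm hne)) hit
  have hadd : ∀ s, C.c F (s + 1) = C.γ • C.c F s := fun s => by
    have := C.c_add_int hF.1 s 1
    rwa [Int.cast_one, zpow_one] at this
  have hst : C.γ • L' = L' := W.smul_eq h.mem h.m₁ (by rw [← hadd, ← e]; exact h.m₂)
  obtain ⟨Φ', γ', hch⟩ := W.chart _ _ h.mem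
  obtain ⟨ε, hε, hcr⟩ := hT.2 t₂ L' h.mem h.m₂ h.y₂
  have hδ0 : 0 < min ε 1 / 2 := by positivity
  have hδ1 : min ε 1 / 2 < ε := by have := min_le_left ε 1; linarith [lt_min hε one_pos]
  have hδ2 : min ε 1 / 2 < 1 := by have := min_le_right ε 1; linarith
  generalize min ε 1 / 2 = δ at hδ0 hδ1 hδ2
  have hdis : Disjoint (C.c F '' Ioo t₁ t₂) L' := by
    rw [Set.disjoint_left]
    rintro _ ⟨s, hs, rfl⟩ hx
    exact h.free s hs.1 hs.2 (t24_mem_A h.mem hx)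
  have hpre : IsPreconnected (C.c F '' Ioo t₁ t₂) :=
    isPreconnected_Ioo.image _ (C.continuous_c F).continuousOn
  have hs₁ : Same L' (C.c F (t₂ - δ)) (C.c F (t₁ + δ)) :=
    same_of_preconnected hpre hdis ⟨_, ⟨by linarith, by linarith⟩, rfl⟩
      ⟨_, ⟨by linarith, by linarith⟩, rfl⟩
  have hs₂ := hch.same_of_stab hst hs₁.right_notMem
  rw [← hadd] at hs₂
  exact (hcr (t₂ - δ) (t₁ + δ + 1) (by linarith) (by linarith) (by linarith) (by linarith)).2.2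
    (hs₁.trans hs₂)

theorem Bigon.notMem_Y {F : X ≃ₜ X} (hF : C.Good F) {t₁ t₂ : ℝ} {L' : Set X}
    (h : C.Bigon F t₁ t₂ L') : ∀ t ∈ Icc t₁ t₂, C.c F t ∉ C.Y := by
  intro t ht hY
  rcases ht.1.eq_or_lt with rfl | h₁
  · exact h.y₁ hY
  rcases ht.2.eq_or_lt with rfl | h₂
  · exact h.y₂ hY
  refine h.free t h₁ h₂ ?_
  rw [hF.c_mem_Y hY]
  exact C.L_subset_A (C.ch.mem t)

theorem Bigon.coord {F : X ≃ₜ X} {t₁ t₂ : ℝ} {L' : Set X} (h : C.Bigon F t₁ t₂ L') :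
    ∃ Φ' γ' p q, C.Coord F t₁ t₂ L' Φ' γ' p q := by
  obtain ⟨Φ', γ', hch⟩ := W.chart _ _ h.mem
  obtain ⟨p, hp⟩ := mem_hor_iff.1 (hch.axis ▸ h.m₁ : C.c F t₁ ∈ hor Φ')
  obtain ⟨q, hq⟩ := mem_hor_iff.1 (hch.axis ▸ h.m₂ : C.c F t₂ ∈ hor Φ')
  exact ⟨Φ', γ', p, q, h, hch, hp, hq⟩

theorem Coord.seg {F : X ≃ₜ X} (hF : C.Good F) {t₁ t₂ : ℝ} {L' : Set X} {Φ' : ℂ ≃ₜ X} {γ' : Γ}
    {p q : ℝ} (h : C.Coord F t₁ t₂ L' Φ' γ' p q) : ∀ r ∈ uIcc p q, Φ' (r : ℝ) ∉ C.Y := by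
  rintro r hr ⟨N, hN, hx⟩
  obtain ⟨κ', hκ⟩ := C.sub N hN
  have hm : Φ' (r : ℝ) ∈ L' := h.ch.mem r
  by_cases e : κ' = C.κ
  · subst e
    have := W.disj _ N hκ L' h.big.mem ⟨_, hx, hm⟩
    exact h.big.y₁ ⟨N, hN, this ▸ h.big.m₁⟩
  · have e' : κ' = !C.κ := by
      revert e
      cases κ' <;> cases C.κ <;> simp
    subst e'
    obtain ⟨k, rfl⟩ := h.ch.meet N hκ ⟨_, hx, hm⟩
    have hr' : r = k / 2 := by simpa using mem_ver.1 hx
    have hdis : Disjoint (C.c F '' Icc t₁ t₂) (ver Φ' (k / 2)) := by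
      rw [Set.disjoint_left]
      rintro _ ⟨s, hs, rfl⟩ hx
      exact h.big.notMem_Y hF s hs ⟨_, hN, hx⟩
    have hpre : IsPreconnected (C.c F '' Icc t₁ t₂) :=
      isPreconnected_Icc.image _ (C.continuous_c F).continuousOn
    have hs : Same (ver Φ' (k / 2)) (C.c F t₁) (C.c F t₂) :=
      same_of_preconnected hpre hdis ⟨_, left_mem_Icc.2 h.big.lt.le, rfl⟩
        ⟨_, right_mem_Icc.2 h.big.lt.le, rfl⟩
    rw [h.hp, h.hq, same_ver, Complex.ofReal_re, Complex.ofReal_re, ← hr'] at hs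
    rcases mem_uIcc.1 hr with h' | h' <;> nlinarith [h'.1, h'.2]

theorem Coord.short {F : X ≃ₜ X} (hF : C.Good F) (hT : C.Tame F) {t₁ t₂ : ℝ} {L' : Set X}
    {Φ' : ℂ ≃ₜ X} {γ' : Γ} {p q : ℝ} (h : C.Coord F t₁ t₂ L' Φ' γ' p q)
    (hin : ∀ r ∈ uIoo p q, Φ' (r : ℝ) ∉ C.K F) : |q - p| < 1 := by
  have key : ∀ k : ℤ, Φ' ((p + k : ℝ) : ℂ) ∈ C.K F ∧ q ≠ p + k := fun k => by
    have e := h.ch.per_real k p
    rw [← h.hp] at e
    refine ⟨e ▸ (C.smul_mem_K hF.1 _).2 (C.c_mem_K F t₁), fun hq => ?_⟩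
    rw [← hq, ← h.hq] at e
    obtain ⟨n, -, hn⟩ := C.smul_c_eq hF.1 e.symm
    have h₁ := h.big.lt
    have h₂ := h.big.short hF hT
    have h₃ : (0 : ℝ) < n := by linarith
    have h₄ : (n : ℝ) < 1 := by linarith
    have h₅ : 0 < n := by exact_mod_cast h₃
    have h₆ : n < 1 := by exact_mod_cast h₄
    omega
  rw [abs_lt]
  constructor
  · by_contra hn
    obtain ⟨h₁, h₂⟩ := key (-1)
    push_cast at h₂
    have h₃ : q < p + -1 := lt_of_le_of_ne (by linarith) h₂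
    refine hin _ ?_ h₁
    rw [uIoo_of_ge (by linarith)]
    push_cast
    constructor <;> linarith
  · by_contra hn
    obtain ⟨h₁, h₂⟩ := key 1
    push_cast at h₂
    have h₃ : p + 1 < q := lt_of_le_of_ne (by linarith) h₂.symm
    refine hin _ ?_ h₁
    rw [uIoo_of_le (by linarith)]
    push_cast
    constructor <;> linarith

theorem t25_mem {a b x : ℝ} : x ∈ uIoo a b ↔ (a < x ∧ x < b) ∨ (b < x ∧ x < a) := by
  rw [uIoo, mem_Ioo, min_lt_iff, lt_max_iff]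
  constructor
  · rintro ⟨h | h, h' | h'⟩
    · exact absurd (h.trans h') (lt_irrefl _)
    · exact Or.inl ⟨h, h'⟩
    · exact Or.inr ⟨h, h'⟩
    · exact absurd (h.trans h') (lt_irrefl _)
  · rintro (h | h)
    · exact ⟨Or.inl h.1, Or.inr h.2⟩
    · exact ⟨Or.inr h.1, Or.inl h.2⟩

theorem t25_unb (Φ : ℂ ≃ₜ X) {S : Set ℝ} (hS : ∀ R : ℝ, ∃ x ∈ S, R < |x|) :
    Unb ((fun x : ℝ => Φ x) '' S) := by
  have h1 : Unb ((fun x : ℝ => (x : ℂ)) '' S) := unb_of_not_bounded fun hb => by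
    obtain ⟨R, hR⟩ := hb.exists_norm_le
    obtain ⟨x, hx, h⟩ := hS R
    have := hR _ (mem_image_of_mem _ hx)
    rw [Complex.norm_real, Real.norm_eq_abs] at this
    linarith
  have h2 := h1.image Φ
  rwa [image_image] at h2

theorem Coord.step {F : X ≃ₜ X} (hF : C.Good F) (hT : C.Tame F) {t₁ t₂ : ℝ} {L' : Set X}
    {Φ' : ℂ ≃ₜ X} {γ' : Γ} {p q r : ℝ} (h : C.Coord F t₁ t₂ L' Φ' γ' p q) (hr : r ∈ uIoo p q)
    (hK : Φ' r ∈ C.K F) :
    ∃ (g : Γ) (s₁ s₂ p' q' : ℝ), C.Bigon F s₁ s₂ (g • L') ∧ p' ∈ uIoo p q ∧ q' ∈ uIoo p q ∧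
      C.c F s₁ = g • Φ' p' ∧ C.c F s₂ = g • Φ' q' := by
  have hc := C.continuous_c F
  have hi := C.injective_c F
  have hlt := h.big.lt
  have hL := h.ch.isLine
  have hLA : ∀ {x}, x ∈ L' → x ∈ W.A C.κ := fun hx => ⟨L', h.big.mem, hx⟩
  have hΦ : ∀ {x y : ℝ}, Φ' x = Φ' y → x = y := fun e => Complex.ofReal_injective (Φ'.injective e)
  have hpq : p ≠ q := by
    rintro rfl
    exact hlt.ne (hi (h.hp.trans h.hq.symm))
  have hrp : r ≠ p ∧ r ≠ q := by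
    rcases t25_mem.1 hr with h1 | h1
    · exact ⟨h1.1.ne', h1.2.ne⟩
    · exact ⟨h1.2.ne, h1.1.ne'⟩
  let a := subArc hc t₁ t₂
  let b : Path (C.c F t₁) (C.c F t₂) := (segArc Φ' p q).cast h.hp h.hq
  have ra : range a = C.c F '' Icc t₁ t₂ := by rw [range_subArc, uIcc_of_le hlt.le]
  have rb : range b = (fun x : ℝ => Φ' x) '' uIcc p q := by
    change range (segArc Φ' p q) = _
    rw [range_segArc, ← segment_eq_uIcc, ← image_image Φ' (fun x : ℝ => (x : ℂ))]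
    congr 1
    exact (image_segment ℝ Complex.ofRealAm.toLinearMap.toAffineMap p q).symm
  have hbL : range b ⊆ L' := by
    rw [rb]
    rintro _ ⟨x, -, rfl⟩
    exact h.ch.mem x
  have haA : ∀ x ∈ range a, x ∈ W.A C.κ → x = C.c F t₁ ∨ x = C.c F t₂ := by
    rw [ra]
    rintro _ ⟨s, hs, rfl⟩ hA
    rcases hs.1.eq_or_lt with rfl | h1
    · exact Or.inl rfl
    rcases hs.2.eq_or_lt with rfl | h2
    · exact Or.inr rfl
    exact absurd hA (h.big.free s h1 h2)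
  obtain ⟨Ψ, hΨ⟩ := jordan2 W.base (a := a) (b := b) (subArc_injective hc hi.injOn hlt.ne)
    (segArc_injective Φ' fun e => hpq (Complex.ofReal_injective e))
    fun x hx => haA x hx.1 (hLA (hbL hx.2))
  set E := Dsc.ofHomeo Ψ
  set x₀ := C.c F ((t₁ + t₂) / 2)
  have hsame : ∀ s, t₁ < s → s < t₂ → Same L' x₀ (C.c F s) := fun s h1 h2 =>
    same_of_preconnected (isPreconnected_Ioo.image _ hc.continuousOn : IsPreconnected
      (C.c F '' Ioo t₁ t₂)) (disjoint_left.2 (by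
        rintro _ ⟨s, hs, rfl⟩ hx
        exact h.big.free s hs.1 hs.2 (hLA hx)))
      ⟨_, ⟨by linarith, by linarith⟩, rfl⟩ ⟨s, ⟨h1, h2⟩, rfl⟩
  have hx₀ : x₀ ∉ L' := (hsame ((t₁ + t₂) / 2) (by linarith) (by linarith)).left_notMem
  obtain ⟨V, hV, hVi⟩ := local_inside E hL hx₀ (z := Φ' r) (by
      rw [hΨ, ra]
      rintro x (⟨s, hs, rfl⟩ | hx)
      · rcases hs.1.eq_or_lt with rfl | h1
        · exact Or.inl h.big.m₁
        rcases hs.2.eq_or_lt with rfl | h2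
        · exact Or.inl h.big.m₂
        exact Or.inr (hsame s h1 h2)
      · exact Or.inl (hbL hx))
    (by rw [hΨ, rb]; exact Or.inr ⟨r, uIoo_subset_uIcc_self hr, rfl⟩) (h.ch.mem r)
    ⟨(range a)ᶜ, (isCompact_range a.continuous).isClosed.isOpen_compl.mem_nhds (fun hx => by
      rcases haA _ hx (hLA (h.ch.mem r)) with e | e
      · exact hrp.1 (hΦ (e.trans h.hp))
      · exact hrp.2 (hΦ (e.trans h.hq))), by
      rw [hΨ]
      rintro x ⟨hx | hx, hx'⟩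
      · exact absurd hx hx'
      · exact hbL hx⟩
  obtain ⟨g, t, ht⟩ := (C.mem_K_iff hF.1).1 hK
  have hA : ∀ s, g • C.c F s ∈ W.A C.κ ↔ C.c F s ∈ W.A C.κ := fun s => W.smul_mem_A g
  have htA : C.c F t ∈ W.A C.κ := (hA t).1 (ht ▸ hLA (h.ch.mem r))
  have hY : ∀ x ∈ uIoo p q, ∀ s, g • C.c F s = Φ' x → C.c F s ∉ C.Y := fun x hx s e hy =>
    Coord.seg hF h x (uIoo_subset_uIcc_self hx) (e ▸ (C.smul_mem_Y g).2 hy)
  have hmem : ∀ {s : ℝ} {x : ℝ}, g • C.c F s = Φ' x → C.c F s = g⁻¹ • Φ' x := fun e => by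
    rw [← e, inv_smul_smul]
  have hmem' : ∀ {s : ℝ} {x : ℝ}, g • C.c F s = Φ' x → C.c F s ∈ g⁻¹ • L' := fun e =>
    hmem e ▸ smul_mem_smul_set (h.ch.mem _)
  have aux : ∀ e, C.c F e ∈ W.A C.κ → (∀ s ∈ uIoo t e, C.c F s ∉ W.A C.κ) →
      ∀ m ∈ uIoo t e, g • C.c F m ∈ V → Same L' x₀ (g • C.c F m) →
      ∃ r' ∈ uIoo p q, g • C.c F e = Φ' r' := by
    intro e heA hfree m hm hmV hmS
    have key : ∀ k : ℤ, g = C.γ ^ k → ∀ s ∈ uIoo t e, t₁ < s + k → s + k < t₂ → False := by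
      intro k hk s hs h1 h2
      have e1 : C.c F (t + k) = Φ' r := by rw [C.c_add_int hF.1, ← hk, ht]
      have hh : ∀ u, C.c F u ∈ W.A C.κ → u - k ∉ uIoo t e := fun u hu hu' =>
        hfree _ hu' ((C.hit_add_int hF.1 _ k).1 (by rwa [sub_add_cancel]))
      have h3 := hh t₁ (hLA h.big.m₁)
      have h4 := hh t₂ (hLA h.big.m₂)
      have h5 : t + k ≠ t₁ := fun e => hrp.1 (hΦ (e1.symm.trans (e ▸ h.hp)))
      have h6 : t + k ≠ t₂ := fun e => hrp.2 (hΦ (e1.symm.trans (e ▸ h.hq)))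
      rw [t25_mem] at hs h3 h4
      rcases h5.lt_or_gt with h5 | h5
      · exact h3 (hs.imp (fun hs => ⟨by linarith, by linarith [hs.2]⟩)
          fun hs => absurd hs.2 (by linarith))
      rcases h6.lt_or_gt with h6 | h6
      · exact h.big.free _ h5 h6 (e1 ▸ hLA (h.ch.mem r))
      · exact h4 (hs.imp (fun hs => absurd hs.1 (by linarith))
          fun hs => ⟨by linarith [hs.1], by linarith⟩)
    have hc' : Continuous fun s => g • C.c F s := hc.const_smul g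
    have hTp : IsPreconnected ((fun s => g • C.c F s) '' uIoo t e) :=
      isPreconnected_Ioo.image _ hc'.continuousOn
    have hTi : (fun s => g • C.c F s) '' uIoo t e ⊆ E.int := by
      refine E.subset_int hTp (disjoint_left.2 ?_) ⟨_, ⟨m, hm, rfl⟩, E.int_subset_cl (hVi _ hmV hmS)⟩
      rintro _ ⟨s, hs, rfl⟩ hx
      have h1 := fun h => hfree s hs ((hA s).1 h)
      rw [hΨ, ra] at hx
      rcases hx with ⟨s', hs', e1⟩ | hx
      · obtain ⟨k, hk, rfl⟩ := C.smul_c_eq hF.1 e1.symm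
        refine key k hk s hs (hs'.1.lt_of_ne fun e2 => h1 ?_) (hs'.2.lt_of_ne fun e2 => h1 ?_)
        · exact mem_of_eq_of_mem (e1.symm.trans (congrArg _ e2.symm)) (hLA h.big.m₁)
        · exact mem_of_eq_of_mem (e1.symm.trans (congrArg _ e2)) (hLA h.big.m₂)
      · exact h1 (hLA (hbL hx))
    have hTs : ∀ s ∈ uIoo t e, Same L' x₀ (g • C.c F s) := fun s hs =>
      hmS.trans (same_of_preconnected hTp (disjoint_left.2 (by
        rintro _ ⟨s, hs, rfl⟩ hx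
        exact hfree s hs ((hA s).1 (hLA hx)))) ⟨m, hm, rfl⟩ ⟨s, hs, rfl⟩)
    have hte : t ≠ e := by
      rintro rfl
      simp at hm
    have hcl : g • C.c F e ∈ E.cl := by
      rw [← E.closure_int]
      refine closure_mono hTi (image_closure_subset_closure_image hc' ⟨e, ?_, rfl⟩)
      rw [uIoo, closure_Ioo (min_lt_max.2 hte).ne]
      exact right_mem_uIcc
    obtain ⟨L'', hL'', hx⟩ := (hA e).2 heA
    obtain rfl : L'' = L' := by
      by_contra hne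
      have h1 := W.isLine hL''
      refine disjoint_left.1 (E.disjoint_cl h1.isPreconnected (disjoint_left.2 fun y hy hy' => ?_)
        h1.unb) hx hcl
      refine hne (W.disj _ _ hL'' _ h.big.mem ⟨y, hy, ?_⟩)
      rw [hΨ] at hy'
      rcases hy' with hy' | hy'
      · rcases haA y hy' ⟨_, hL'', hy⟩ with rfl | rfl
        · exact h.big.m₁
        · exact h.big.m₂
      · exact hbL hy'
    rw [h.ch.axis, mem_hor_iff] at hx
    obtain ⟨r', hr'⟩ := hx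
    have ray : ∀ S : Set ℝ, IsPreconnected S → Disjoint S (uIcc p q) →
        (∀ R : ℝ, ∃ x ∈ S, R < |x|) → r' ∉ S := by
      intro S h1 h2 h3 h4
      refine disjoint_left.1 (E.disjoint_cl (h1.image (fun x : ℝ => Φ' x) (by fun_prop))
        (disjoint_left.2 ?_) (t25_unb Φ' h3)) ⟨r', h4, hr'.symm⟩ hcl
      rintro _ ⟨x, hx, rfl⟩ hy
      refine disjoint_left.1 h2 hx ?_
      rw [hΨ, rb] at hy
      rcases hy with hy | ⟨y, hy, e1⟩
      · rcases haA _ hy (hLA (h.ch.mem x)) with e1 | e1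
        · exact hΦ (e1.trans h.hp) ▸ left_mem_uIcc
        · exact hΦ (e1.trans h.hq) ▸ right_mem_uIcc
      · exact hΦ e1 ▸ hy
    have h1 := ray (Iio (min p q)) isPreconnected_Iio
      (disjoint_left.2 fun x hx hx' => absurd hx'.1 (not_le.2 hx)) fun R =>
        ⟨min (min p q - 1) (-R - 1), mem_Iio.2 ((min_le_left _ _).trans_lt (sub_one_lt _)),
          lt_abs.2 (Or.inr (by linarith [min_le_right (min p q - 1) (-R - 1)]))⟩
    have h2 := ray (Ioi (max p q)) isPreconnected_Ioi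
      (disjoint_left.2 fun x hx hx' => absurd hx'.2 (not_le.2 hx)) fun R =>
        ⟨max (max p q + 1) (R + 1), mem_Ioi.2 ((lt_add_one _).trans_le (le_max_left _ _)),
          lt_abs.2 (Or.inl (by linarith [le_max_right (max p q + 1) (R + 1)]))⟩
    have ends : ∀ u, u = t₁ ∨ u = t₂ → Φ' r' ≠ C.c F u := by
      intro u hu e1
      obtain ⟨k, hk, rfl⟩ := C.smul_c_eq hF.1 (hr'.trans e1)
      obtain ⟨ε, hε, hcr⟩ : Cross (C.c F) (e + k) L'' := hT.2 _ _ h.big.mem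
        (e1 ▸ h.ch.mem r') (by rcases hu with hu | hu <;> rw [hu]; exacts [h.big.y₁, h.big.y₂])
      have hsh : ∀ s ∈ uIoo t e, Same L'' x₀ (C.c F (s + k)) := fun s hs => by
        rw [C.c_add_int hF.1, ← hk]
        exact hTs s hs
      obtain ⟨δ, hδ, hδ1, hδ2, hδ3⟩ : ∃ δ > 0, δ < ε ∧ δ < t₂ - t₁ ∧ δ < |t - e| := by
        have h3 := abs_pos.2 (sub_ne_zero.2 hte)
        obtain ⟨δ, h4, h5⟩ := exists_between (lt_min hε (lt_min (sub_pos.2 hlt) h3))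
        rw [lt_min_iff, lt_min_iff] at h5
        exact ⟨δ, h4, h5⟩
      have h3 := (hcr (e + k - δ) (e + k + δ) (by linarith) (by linarith) (by linarith)
        (by linarith)).2.2
      rcases lt_abs.1 hδ3 with h4 | h4
      · have h5 : e + δ ∈ uIoo t e := t25_mem.2 (Or.inr ⟨by linarith, by linarith⟩)
        rcases hu with hu | hu
        · exact key k hk _ h5 (by linarith) (by linarith)
        · have h6 := hsh _ h5
          rw [add_right_comm] at h6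
          exact h3 ((hsame _ (by linarith) (by linarith)).symm.trans h6)
      · have h5 : e - δ ∈ uIoo t e := t25_mem.2 (Or.inl ⟨by linarith, by linarith⟩)
        rcases hu with hu | hu
        · have h6 := hsh _ h5
          rw [sub_add_eq_add_sub] at h6
          exact h3 (h6.symm.trans (hsame _ (by linarith) (by linarith)))
        · exact key k hk _ h5 (by linarith) (by linarith)
    have h3 : r' ≠ p := fun e1 => ends t₁ (Or.inl rfl) (e1 ▸ h.hp.symm)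
    have h4 : r' ≠ q := fun e1 => ends t₂ (Or.inr rfl) (e1 ▸ h.hq.symm)
    refine ⟨r', ⟨(not_lt.1 h1).lt_of_ne ?_, (not_lt.1 h2).lt_of_ne ?_⟩, hr'⟩
    · rcases min_choice p q with e1 | e1 <;> rw [e1]
      exacts [h3.symm, h4.symm]
    · rcases max_choice p q with e1 | e1 <;> rw [e1]
      exacts [h3, h4]
  have hw := W.smul_mem _ g⁻¹ _ h.big.mem
  obtain ⟨ε, hε, hcr⟩ := hT.2 t _ hw (hmem' ht.symm) (hY r hr t ht.symm)
  obtain ⟨s₂, h₂, h₂A, h₂f⟩ := Tame.next hF.1 hT htA t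
  obtain ⟨s₁, h₁, h₁A, h₁f⟩ := Tame.prev hF.1 hT htA t
  have hev : ∀ᶠ s in 𝓝 t, g • C.c F s ∈ V := 
    (hc.const_smul g).continuousAt (show V ∈ 𝓝 (g • C.c F t) from ht ▸ hV)
  obtain ⟨m₂, hm₂V, hm₂⟩ := ((hev.filter_mono nhdsWithin_le_nhds).and
    (Ioo_mem_nhdsGT (lt_min h₂ (lt_add_of_pos_right t hε)))).exists
  obtain ⟨m₁, hm₁V, hm₁⟩ := ((hev.filter_mono nhdsWithin_le_nhds).and
    (Ioo_mem_nhdsLT (max_lt h₁ (sub_lt_self t hε)))).exists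
  rw [lt_min_iff] at hm₂
  rw [max_lt_iff] at hm₁
  obtain ⟨n₁, n₂, n₃⟩ := hcr m₁ m₂ hm₁.1.2 hm₁.2 hm₂.1 hm₂.2.2
  rw [mem_inv_smul_set_iff] at n₁ n₂
  rw [← same_smul g, smul_inv_smul] at n₃
  by_cases hs : Same L' x₀ (g • C.c F m₂)
  · obtain ⟨r', h1, h2⟩ := aux s₂ h₂A (fun s hs => by
      rw [uIoo_of_lt h₂] at hs
      exact h₂f s hs.1 hs.2) m₂ (t25_mem.2 (Or.inl ⟨hm₂.1, hm₂.2.1⟩)) hm₂V hs
    exact ⟨g⁻¹, t, s₂, r, r', ⟨h₂, hw, hmem' ht.symm, hmem' h2, hY r hr t ht.symm, hY r' h1 _ h2,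
      h₂f⟩, hr, h1, hmem ht.symm, hmem h2⟩
  · have hs' : Same L' x₀ (g • C.c F m₁) := by
      by_contra hs'
      exact n₃ (hL.two_sides hx₀ n₁ n₂ hs' hs)
    obtain ⟨r', h1, h2⟩ := aux s₁ h₁A (fun s hs => by
      rw [uIoo_of_gt h₁] at hs
      exact h₁f s hs.1 hs.2) m₁ (t25_mem.2 (Or.inr ⟨hm₁.1.1, hm₁.2⟩)) hm₁V hs'
    exact ⟨g⁻¹, s₁, t, r', r, ⟨h₁, hw, hmem' h2, hmem' ht.symm, hY r' h1 _ h2, hY r hr t ht.symm,
      h₁f⟩, h1, hr, hmem h2, hmem ht.symm⟩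

theorem t26_finite {F : X ≃ₜ X} (hF : C.Good F) (hT : C.Tame F) {t₁ t₂ : ℝ} {L' : Set X}
    {Φ' : ℂ ≃ₜ X} {γ' : Γ} {p q : ℝ} (h : C.Coord F t₁ t₂ L' Φ' γ' p q) :
    {r : ℝ | r ∈ uIoo p q ∧ Φ' r ∈ C.K F}.Finite := by
  have hc : Continuous fun r : ℝ => Φ' r := Φ'.continuous.comp Complex.continuous_ofReal
  have hi : Injective fun r : ℝ => Φ' r := Φ'.injective.comp Complex.ofReal_injective
  have hD : IsCompact ((fun r : ℝ => Φ' r) '' uIcc p q) := isCompact_uIcc.image hc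
  refine ((hT.finite_K hF.1 hD).preimage hi.injOn).subset ?_
  rintro r ⟨hr, hK⟩
  exact ⟨⟨hK, L', h.big.mem, h.ch.mem r⟩, r, uIoo_subset_uIcc_self hr, rfl⟩

theorem t26_sub {p q p' q' : ℝ} (hp : p' ∈ uIoo p q) (hq : q' ∈ uIoo p q) :
    uIoo p' q' ⊆ uIoo p q := fun _ hr =>
  ⟨(lt_min hp.1 hq.1).trans hr.1, hr.2.trans (max_lt hp.2 hq.2)⟩

theorem t26_ind {F : X ≃ₜ X} (hF : C.Good F) (hT : C.Tame F) (n : ℕ) :
    ∀ {t₁ t₂ : ℝ} {L' : Set X} {Φ' : ℂ ≃ₜ X} {γ' : Γ} {p q : ℝ},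
      C.Coord F t₁ t₂ L' Φ' γ' p q → {r : ℝ | r ∈ uIoo p q ∧ Φ' r ∈ C.K F}.ncard < n →
      ∃ s₁ s₂ L'' Φ' γ' p q, C.Coord F s₁ s₂ L'' Φ' γ' p q ∧
        ∀ r ∈ uIoo p q, Φ' (r : ℝ) ∉ C.K F := by
  induction n with
  | zero => exact fun _ h => absurd h (Nat.not_lt_zero _)
  | succ n ih =>
    intro t₁ t₂ L' Φ' γ' p q h hn
    by_cases he : ∀ r ∈ uIoo p q, Φ' (r : ℝ) ∉ C.K F
    · exact ⟨t₁, t₂, L', Φ', γ', p, q, h, he⟩
    · push Not at he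
      obtain ⟨r, hr, hK⟩ := he
      obtain ⟨g, s₁, s₂, p', q', hb, hp, hq, h₁, h₂⟩ := h.step hF hT hr hK
      obtain ⟨Ψ, hΨ, hΨ'⟩ := h.ch.smul W.smul_mem g
      refine ih (⟨hb, hΨ, h₁.trans (hΨ' _).symm, h₂.trans (hΨ' _).symm⟩ :
        C.Coord F s₁ s₂ (g • L') Ψ (g * γ' * g⁻¹) p' q') ?_
      refine lt_of_lt_of_le (ncard_lt_ncard ⟨?_, fun hs => ?_⟩ (t26_finite hF hT h))
        (Nat.lt_succ_iff.1 hn)
      · rintro s ⟨hs, hsK⟩
        rw [hΨ', C.smul_mem_K hF.1] at hsK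
        exact ⟨t26_sub hp hq hs, hsK⟩
      · have h3 : Φ' p' ∈ C.K F := by
          rw [← C.smul_mem_K hF.1 g, ← h₁]
          exact C.c_mem_K F s₁
        have h4 := (hs ⟨hp, h3⟩).1
        rcases le_total p' q' with h5 | h5
        · exact absurd h4.1 (not_lt.2 (le_min le_rfl h5))
        · exact absurd h4.2 (not_lt.2 (max_le le_rfl h5))

theorem exists_inner {F : X ≃ₜ X} (hF : C.Good F) (hT : C.Tame F) {t₁ t₂ : ℝ} {L' : Set X}
    (h : C.Bigon F t₁ t₂ L') :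
    ∃ s₁ s₂ L'' Φ' γ' p q, C.Coord F s₁ s₂ L'' Φ' γ' p q ∧
      ∀ r ∈ uIoo p q, Φ' (r : ℝ) ∉ C.K F := by
  obtain ⟨Φ', γ', p, q, hc⟩ := h.coord
  exact t26_ind hF hT _ hc (Nat.lt_succ_self _)

theorem arc_move {F : X ≃ₜ X} (hF : C.Good F) {s₁ s₂ : ℝ} (h₁ : s₁ < s₂) (h₂ : s₂ < s₁ + 1)
    (d : Path (C.c F s₁) (C.c F s₂)) (hi : Injective d)
    (hK : ∀ τ, d τ ∈ C.K F → τ = 0 ∨ τ = 1) (hY : Disjoint (range d) C.Y)
    (hY' : ∀ t ∈ Icc s₁ s₂, C.c F t ∉ C.Y) (hw : Wand Γ (range d)) :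
    ∃ H, C.Mv H ∧ (∀ τ : I, H (C.c F (s₁ + τ * (s₂ - s₁))) = d τ) ∧
      ∀ t, Off s₁ s₂ t → H (C.c F t) = C.c F t := by
  have hc := C.continuous_c F
  have hr : range (subArc hc s₁ s₂) = C.c F '' Icc s₁ s₂ := by
    rw [range_subArc, uIcc_of_le h₁.le]
  have hd : ∀ z ∈ range d, z ∈ C.K F → z ∈ ({C.c F s₁, C.c F s₂} : Set X) := by
    rintro _ ⟨τ, rfl⟩ hz
    rcases hK τ hz with rfl | rfl
    exacts [Or.inl d.source, Or.inr d.target]
  have ha : ∀ z ∈ range (subArc hc s₁ s₂), z ∈ C.K F := by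
    rw [hr]
    rintro _ ⟨s, -, rfl⟩
    exact C.c_mem_K F s
  have hJ : ∀ z ∈ range (subArc hc s₁ s₂) ∪ range d, z ∈ C.K F →
      ∃ s ∈ Icc s₁ s₂, C.c F s = z := by
    rintro z (hz | hz) hz'
    · exact hr.subset hz
    · rcases hd z hz hz' with rfl | rfl
      exacts [⟨s₁, left_mem_Icc.2 h₁.le, rfl⟩, ⟨s₂, right_mem_Icc.2 h₁.le, rfl⟩]
  have hJY : Disjoint C.Y (range (subArc hc s₁ s₂) ∪ range d) := by
    rw [disjoint_union_right, hr]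
    exact ⟨disjoint_right.2 (forall_mem_image.2 hY'), hY.symm⟩
  obtain ⟨H, h1, h2, h3⟩ := bigon_move (Γ := Γ) W.base
    (subArc_injective hc (C.injective_c F).injOn h₁.ne) hi (fun z hz => hd z hz.2 (ha z hz.1))
    (fun g x hx hg => by
      by_cases hxK : x ∈ C.K F
      · obtain ⟨s, hs, rfl⟩ := hJ x hx hxK
        obtain ⟨t, ht, e⟩ := hJ _ hg ((C.smul_mem_K hF.1 g).2 hxK)
        obtain ⟨k, rfl, rfl⟩ := C.smul_c_eq hF.1 e.symm
        have k₁ : k < 1 := by exact_mod_cast (by linarith [hs.1, ht.2] : (k : ℝ) < 1)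
        have k₂ : -1 < k := by exact_mod_cast (by linarith [hs.2, ht.1] : (-1 : ℝ) < k)
        rw [show k = 0 by omega, zpow_zero]
      · exact hw g x (hx.resolve_left fun h => hxK (ha x h)) (hg.resolve_left fun h =>
          hxK ((C.smul_mem_K hF.1 g).1 (ha _ h))))
    (C.isClosed_Y.union (C.isClosed_K_off hF.1 s₁ s₂))
    (by
      rintro g z (hz | ⟨g', t, ht, rfl⟩)
      exacts [Or.inl ((C.smul_mem_Y g).2 hz), Or.inr ⟨g * g', t, ht, smul_smul _ _ _⟩])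
    (by
      rintro z ⟨hz | ⟨g, t, ht, rfl⟩, hz'⟩
      · exact absurd hz' (disjoint_left.1 hJY hz)
      · obtain ⟨s, hs, e⟩ := hJ _ hz' ((C.smul_mem_K hF.1 g).2 (C.c_mem_K F t))
        obtain ⟨k, -, rfl⟩ := C.smul_c_eq hF.1 e.symm
        rw [← e]
        rcases not_and_or.1 (ht k) with h | h
        exacts [Or.inl (congrArg _ (le_antisymm (not_lt.1 h) hs.1)),
          Or.inr (congrArg _ (le_antisymm hs.2 (not_lt.1 h)))])
    (by
      rintro z (⟨N, hN, hz⟩ | ⟨g, t, -, rfl⟩) hz'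
      · obtain ⟨κ, hκ⟩ := C.sub N hN
        exact ⟨N, (W.isLine hκ).isPreconnected, hz, hJY.mono_left (subset_sUnion_of_mem hN),
          (W.isLine hκ).unb⟩
      by_cases hg : ∃ k : ℤ, g = C.γ ^ k
      · obtain ⟨k, rfl⟩ := hg
        rw [← C.c_add_int hF.1] at hz' ⊢
        have key : ∀ S : Set ℝ, Disjoint S (Icc s₁ s₂) →
            Disjoint (C.c F '' S) (range (subArc hc s₁ s₂) ∪ range d) := fun S hS =>
          disjoint_left.2 (forall_mem_image.2 fun r hr' h => by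
            obtain ⟨s, hs, e⟩ := hJ _ h (C.c_mem_K F r)
            exact disjoint_left.1 hS hr' (C.injective_c F e ▸ hs))
        have h4 : t + k ∉ Icc s₁ s₂ := fun h => hz' (Or.inl (hr ▸ mem_image_of_mem _ h))
        rcases not_and_or.1 h4 with h | h
        · exact ⟨_, isPreconnected_Iio.image _ hc.continuousOn, mem_image_of_mem _ (not_le.1 h),
            key _ (disjoint_left.2 fun r h h' => not_le.2 h h'.1), C.unb_c_Iio F s₁⟩
        · exact ⟨_, isPreconnected_Ioi.image _ hc.continuousOn, mem_image_of_mem _ (not_le.1 h),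
            key _ (disjoint_left.2 fun r h h' => not_le.2 h h'.2), C.unb_c_Ioi F s₂⟩
      · have hl := (C.ch.isLine.image F).smul g
        rw [← C.range_c] at hl
        refine ⟨_, hl.isPreconnected, smul_mem_smul_set ⟨t, rfl⟩, disjoint_left.2 ?_, hl.unb⟩
        rintro _ ⟨_, ⟨r, rfl⟩, rfl⟩ h
        obtain ⟨s, -, e⟩ := hJ _ h ((C.smul_mem_K hF.1 g).2 (C.c_mem_K F r))
        obtain ⟨k, hk, -⟩ := C.smul_c_eq hF.1 e.symm
        exact hg ⟨k, hk⟩)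
  exact ⟨H, ⟨h1, fun y hy => h3 y (Or.inl hy)⟩, h2,
    fun t ht => h3 _ (Or.inr ⟨1, t, ht, (one_smul _ _).symm⟩)⟩

theorem t28_mid {F : X ≃ₜ X} {t₁ t₂ : ℝ} {L' : Set X} (h : C.Bigon F t₁ t₂ L') {s s' : ℝ}
    (hs : s ∈ Ioo t₁ t₂) (hs' : s' ∈ Ioo t₁ t₂) : Same L' (C.c F s) (C.c F s') := by
  refine same_of_preconnected (isPreconnected_Ioo.image _ (C.continuous_c F).continuousOn)
    (disjoint_left.2 ?_) (mem_image_of_mem _ hs) (mem_image_of_mem _ hs')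
  rintro _ ⟨t, ht, rfl⟩ hL
  exact h.free t ht.1 ht.2 ⟨L', h.mem, hL⟩

theorem t28_side {F : X ≃ₜ X} (hF : C.Good F) (hT : C.Tame F) {t₁ t₂ : ℝ} {L' : Set X}
    (h : C.Bigon F t₁ t₂ L') : ∃ t₀ t₃, t₀ < t₁ ∧ t₂ < t₃ ∧ t₃ < t₀ + 1 ∧
      ∀ s ∈ Icc t₀ t₃, s < t₁ ∨ t₂ < s →
        C.c F s ∉ W.A C.κ ∧ ¬ Same L' (C.c F ((t₁ + t₂) / 2)) (C.c F s) := by
  have h0 := h.lt
  have h1 := h.short hF hT
  have hm : (t₁ + t₂) / 2 ∈ Ioo t₁ t₂ := ⟨by linarith, by linarith⟩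
  obtain ⟨a, ha, ha'⟩ := hT.isolated hF.1 t₁
  obtain ⟨b, hb, hb'⟩ := hT.isolated hF.1 t₂
  obtain ⟨c, hc, hc'⟩ := hT.2 t₁ L' h.mem h.m₁ h.y₁
  obtain ⟨d, hd, hd'⟩ := hT.2 t₂ L' h.mem h.m₂ h.y₂
  obtain ⟨δ, h2, h3⟩ := exists_between (show 0 < min (min (min a b) (min c d))
    (min (t₂ - t₁) ((t₁ + 1 - t₂) / 2)) by
      simp only [lt_min_iff]
      exact ⟨⟨⟨ha, hb⟩, hc, hd⟩, by linarith, by linarith⟩)
  simp only [lt_min_iff] at h3
  obtain ⟨⟨⟨e1, e2⟩, e3, e4⟩, e5, e6⟩ := h3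
  refine ⟨t₁ - δ, t₂ + δ, by linarith, by linarith, by linarith, ?_⟩
  rintro s ⟨h4, h5⟩ (h6 | h6)
  · exact ⟨ha' s (by linarith) (by linarith) h6.ne, fun e =>
      (hc' s (t₁ + δ) (by linarith) h6 (by linarith) (by linarith)).2.2
        (e.symm.trans (t28_mid h hm ⟨by linarith, by linarith⟩))⟩
  · exact ⟨hb' s (by linarith) (by linarith) h6.ne', fun e =>
      (hd' (t₂ - δ) s (by linarith) (by linarith) h6 (by linarith)).2.2
        ((t28_mid h ⟨by linarith, by linarith⟩ hm).trans e)⟩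

theorem t28_nhd {F : X ≃ₜ X} (hF : C.Good F) (hT : C.Tame F) {t₀ t₁ t₂ t₃ : ℝ} {L' : Set X}
    {Φ' : ℂ ≃ₜ X} {γ' : Γ} {p q : ℝ} (h : C.Coord F t₁ t₂ L' Φ' γ' p q)
    (hin : ∀ r ∈ uIoo p q, Φ' (r : ℝ) ∉ C.K F) (h0 : t₀ < t₁) (h3 : t₂ < t₃) :
    ∃ V : Set ℂ, IsOpen V ∧ Convex ℝ V ∧ (p : ℂ) ∈ V ∧ (q : ℂ) ∈ V ∧ Wand Γ (Φ' '' V) ∧
      ∀ w ∈ V, Φ' w ∉ C.Y ∧ (Φ' w ∈ W.A C.κ → Φ' w ∈ L') ∧
        (Φ' w ∈ C.K F → Φ' w ∈ C.c F '' Ioo t₀ t₃) := by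
  have h1 := h.big.lt
  obtain ⟨U, hU, hU1, hU2⟩ := exists_nhds_wand W.base (isCompact_uIcc.image (by fun_prop))
    (W.wand_seg h.big.mem h.ch (h.short hF hT hin))
  have hZ : IsClosed (C.Y ∪ ⋃₀ {N | N ∈ W.wall C.κ ∧ N ≠ L'} ∪ (C.K F \ C.c F '' Ioo t₀ t₃)) :=
    (C.isClosed_Y.union (W.isClosed_sUnion fun N hN => ⟨_, hN.1⟩)).union (C.isClosed_K_diff F _ _)
  have hS : IsCompact ((fun r : ℝ => (r : ℂ)) '' uIcc p q) := isCompact_uIcc.image (by fun_prop)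
  obtain ⟨η, hη, hV⟩ := hS.exists_thickening_subset_open
    ((hU.sdiff hZ).preimage Φ'.continuous) (by
      rintro _ ⟨r, hr, rfl⟩
      refine ⟨hU1 ⟨r, hr, rfl⟩, ?_⟩
      rintro ((e | ⟨N, hN, e⟩) | ⟨e, e'⟩)
      · exact h.seg hF r hr e
      · exact hN.2 (W.disj _ _ hN.1 _ h.big.mem ⟨_, e, h.ch.mem r⟩)
      · by_cases e1 : r = p
        · exact e' ⟨t₁, ⟨h0, h1.trans h3⟩, e1 ▸ h.hp⟩
        by_cases e2 : r = q
        · exact e' ⟨t₂, ⟨h0.trans h1, h3⟩, e2 ▸ h.hq⟩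
        refine hin r ?_ e
        rcases le_total p q with e3 | e3
        · rw [uIcc_of_le e3] at hr
          rw [uIoo_of_le e3]
          exact ⟨hr.1.lt_of_ne' e1, hr.2.lt_of_ne e2⟩
        · rw [uIcc_of_ge e3] at hr
          rw [uIoo_of_ge e3]
          exact ⟨hr.1.lt_of_ne' e2, hr.2.lt_of_ne e1⟩)
  refine ⟨_, isOpen_thickening, ((convex_uIcc p q).linear_image
    Complex.ofRealCLM.toLinearMap).thickening η,
    self_subset_thickening hη _ ⟨p, left_mem_uIcc, rfl⟩,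
    self_subset_thickening hη _ ⟨q, right_mem_uIcc, rfl⟩,
    hU2.mono (image_subset_iff.2 fun w hw => (hV hw).1), fun w hw => ⟨fun e => ?_, ?_, ?_⟩⟩
  · exact (hV hw).2 (.inl (.inl e))
  · rintro ⟨N, hN, e⟩
    by_contra e'
    exact (hV hw).2 (.inl (.inr ⟨N, ⟨hN, fun e'' => e' (e'' ▸ e)⟩, e⟩))
  · exact fun e => by_contra fun e' => (hV hw).2 (.inr ⟨e, e'⟩)

theorem exists_chord {F : X ≃ₜ X} (hF : C.Good F) (hT : C.Tame F) {t₁ t₂ : ℝ} {L' : Set X}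
    {Φ' : ℂ ≃ₜ X} {γ' : Γ} {p q : ℝ} (h : C.Coord F t₁ t₂ L' Φ' γ' p q)
    (hin : ∀ r ∈ uIoo p q, Φ' (r : ℝ) ∉ C.K F) :
    ∃ s₁ s₂, s₁ < t₁ ∧ t₂ < s₂ ∧ s₂ < s₁ + 1 ∧ (∀ t ∈ Icc s₁ s₂, C.c F t ∉ C.Y) ∧
      ∃ d : Path (C.c F s₁) (C.c F s₂), Injective d ∧ (∀ τ, d τ ∈ C.K F → τ = 0 ∨ τ = 1) ∧
        Disjoint (range d) C.Y ∧ Disjoint (range d) (W.A C.κ) ∧ Wand Γ (range d) := by
  have h12 := h.big.lt
  have hm : (t₁ + t₂) / 2 ∈ Ioo t₁ t₂ := ⟨by linarith, by linarith⟩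
  have hc := C.continuous_c F
  obtain ⟨t₀, t₃, h0, h3, h03, hs⟩ := t28_side hF hT h.big
  obtain ⟨V, hV, hVc, hp, hq, hw, hV'⟩ := t28_nhd hF hT h hin h0 h3
  have hn : ∀ t, Φ'.symm (C.c F t) ∈ V → ∀ᶠ s in 𝓝 t, Φ'.symm (C.c F s) ∈ V := fun t ht =>
    (Φ'.symm.continuous.comp hc).continuousAt.eventually_mem (hV.mem_nhds ht)
  obtain ⟨u₁, a1, a2⟩ := (((hn t₁ (by rwa [h.hp, Φ'.symm_apply_apply])).filter_mono
    nhdsWithin_le_nhds).and (Ioo_mem_nhdsLT h0)).exists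
  obtain ⟨u₂, b1, b2⟩ := (((hn t₂ (by rwa [h.hq, Φ'.symm_apply_apply])).filter_mono
    nhdsWithin_le_nhds).and (Ioo_mem_nhdsGT h3)).exists
  obtain ⟨w₀, e0⟩ := Φ'.surjective (C.c F ((t₁ + t₂) / 2))
  obtain ⟨w₁, e1⟩ := Φ'.surjective (C.c F u₁)
  obtain ⟨w₂, e2⟩ := Φ'.surjective (C.c F u₂)
  rw [← e1, Φ'.symm_apply_apply] at a1
  rw [← e2, Φ'.symm_apply_apply] at b1
  have hneg : ∀ w u, Φ' w = C.c F u → u ∈ Icc t₀ t₃ → u < t₁ ∨ t₂ < u → w₀.im * w.im < 0 := by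
    intro w u e c1 c2
    obtain ⟨c3, c4⟩ := hs u c1 c2
    rw [← e0, ← e, h.ch.axis, same_hor] at c4
    refine (not_lt.1 c4).lt_of_ne (mul_ne_zero (fun c5 => ?_) fun c5 => ?_)
    · exact h.big.free _ hm.1 hm.2 ⟨L', h.big.mem, by rwa [← e0, h.ch.axis, mem_hor]⟩
    · exact c3 ⟨L', h.big.mem, by rwa [← e, h.ch.axis, mem_hor]⟩
  have n1 := hneg w₁ u₁ e1 ⟨a2.1.le, by linarith [a2.2]⟩ (.inl a2.2)
  have n2 := hneg w₂ u₂ e2 ⟨by linarith [b2.1], b2.2.le⟩ (.inr b2.1)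
  have hne : w₂ - w₁ ≠ 0 := sub_ne_zero.2 fun e => by
    have := C.injective_c F (e2.symm.trans (e ▸ e1))
    linarith [a2.2, b2.1]
  obtain ⟨e, he⟩ : ∃ e : ℝ → X, e = fun r : ℝ => Φ' (w₁ + r • (w₂ - w₁)) := ⟨_, rfl⟩
  have hec : Continuous e := by
    rw [he]
    fun_prop
  have hei : Injective e := fun r r' c1 => by
    rw [he] at c1
    exact smul_left_injective ℝ hne (add_left_cancel (Φ'.injective c1))
  have key : ∀ r ∈ Icc (0 : ℝ) 1, ∃ w ∈ V, e r = Φ' w ∧ e r ∉ L' ∧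
      ¬ Same L' (C.c F ((t₁ + t₂) / 2)) (e r) := fun r hr => by
    have c1 : w₀.im * (w₁ + r • (w₂ - w₁)).im < 0 := by
      rw [Complex.add_im, Complex.smul_im, Complex.sub_im, smul_eq_mul]
      rcases le_total (w₀.im * w₁.im) (w₀.im * w₂.im) with c | c <;> nlinarith [hr.1, hr.2]
    refine ⟨_, hVc.add_smul_sub_mem a1 b1 hr, by rw [he], ?_, ?_⟩
    · rw [he, h.ch.axis, mem_hor]
      exact right_ne_zero_of_mul c1.ne
    · rw [he, ← e0, h.ch.axis, same_hor]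
      exact c1.not_gt
  obtain ⟨a, b, ha, hab, hb, ⟨s₁, c1, c2⟩, ⟨s₂, c3, c4⟩, hab'⟩ := exists_shortcut hec
    ((isCompact_Icc (a := t₀) (b := t₁)).image hc).isClosed
    ((isCompact_Icc (a := t₂) (b := t₃)).image hc).isClosed
    ((disjoint_image_iff (C.injective_c F)).2 (disjoint_left.2 fun t c1 c2 => by
      linarith [c1.2, c2.1]))
    ⟨u₁, Ioo_subset_Icc_self a2, by simp [he, e1]⟩ ⟨u₂, Ioo_subset_Icc_self b2, by simp [he, e2]⟩
  have d1 : s₁ < t₁ := c1.2.lt_of_ne fun c => by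
    obtain ⟨-, -, -, c5, -⟩ := key a ⟨ha, hab.le.trans hb⟩
    exact c5 (by rw [← c2, c]; exact h.big.m₁)
  have d2 : t₂ < s₂ := c3.1.lt_of_ne fun c => by
    obtain ⟨-, -, -, c5, -⟩ := key b ⟨ha.trans hab.le, hb⟩
    exact c5 (by rw [← c4, ← c]; exact h.big.m₂)
  have hd : ∀ τ : I, (subArc hec a b).cast c2 c4 τ = e (a + τ * (b - a)) := fun τ => rfl
  have hk := fun τ : I => key _ (Icc_subset_Icc ha hb (param_mem_Icc hab.le τ))
  refine ⟨s₁, s₂, d1, d2, by linarith [c1.1, c3.2], fun t ht hY => ?_, (subArc hec a b).cast c2 c4,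
    subArc_injective hec hei.injOn hab.ne, fun τ hK => ?_, disjoint_left.2 ?_, disjoint_left.2 ?_,
    hw.mono ?_⟩
  · by_cases c : t < t₁ ∨ t₂ < t
    · exact (hs t ⟨c1.1.trans ht.1, ht.2.trans c3.2⟩ c).1
        (C.L_subset_A (hF.c_mem_Y hY ▸ C.ch.mem t))
    · rw [not_or, not_lt, not_lt] at c
      exact h.big.notMem_Y hF t c hY
  · by_contra c
    rw [not_or] at c
    have c5 := param_mem_Ioo hab c.1 c.2
    obtain ⟨w, c6, c7, -, c8⟩ := hk τ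
    rw [hd, c7] at hK
    obtain ⟨t, c9, c10⟩ := (hV' w c6).2.2 hK
    rw [← c7] at c10
    by_cases f1 : t ≤ t₁
    · exact (hab' _ c5.1 c5.2).1 ⟨t, ⟨c9.1.le, f1⟩, c10⟩
    by_cases f2 : t₂ ≤ t
    · exact (hab' _ c5.1 c5.2).2 ⟨t, ⟨f2, c9.2.le⟩, c10⟩
    exact c8 (c10 ▸ t28_mid h.big hm ⟨not_le.1 f1, not_le.1 f2⟩)
  · rintro _ ⟨τ, rfl⟩
    obtain ⟨w, c6, c7, -⟩ := hk τ
    rw [hd, c7]
    exact (hV' w c6).1
  · rintro _ ⟨τ, rfl⟩
    obtain ⟨w, c6, c7, c8, -⟩ := hk τ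
    rw [hd, c7]
    exact fun c => c8 (c7 ▸ (hV' w c6).2.1 c)
  · rintro _ ⟨τ, rfl⟩
    obtain ⟨w, c6, c7, -⟩ := hk τ
    exact ⟨w, c6, c7.symm⟩

theorem no_bigon {F : X ≃ₜ X} (hF : C.Good F) (hT : C.Tame F) :
    ∃ H, C.Mv H ∧ C.Tame (H * F) ∧ ∀ t₁ t₂ L', ¬ C.Bigon (H * F) t₁ t₂ L' := by
  induction hn : (C.T F).ncard using Nat.strong_induction_on generalizing F with
  | _ n ih =>
  by_cases hb : ∃ t₁ t₂ L', C.Bigon F t₁ t₂ L'
  · obtain ⟨_, _, _, hb⟩ := hb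
    obtain ⟨t₁, t₂, L', Φ', γ', p, q, h, hin⟩ := exists_inner hF hT hb
    obtain ⟨s₁, s₂, h1, h2, h3, hY', d, hi, hK, hY, hA, hw⟩ := exists_chord hF hT h hin
    have h4 := h.big.lt.trans h2
    obtain ⟨H, hH, hd, hoff⟩ := arc_move hF (h1.trans h4) h3 d hi hK hY hY' hw
    obtain ⟨a, b⟩ := tame_after hF.1 hH.good.1 hT h1 h4 ⟨L', h.big.mem, h.big.m₁⟩ (fun t ht => by
      obtain ⟨τ, rfl⟩ := exists_param (h1.trans h4) ht
      rw [hd]
      exact disjoint_left.1 hA ⟨τ, rfl⟩) hoff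
    obtain ⟨H', k1, k2, k3⟩ := ih _ (hn ▸ ncard_lt_ncard b hT.1) (hH.good.mul hF) a rfl
    exact ⟨H' * H, k1.mul hH, by rwa [mul_assoc], by rwa [mul_assoc]⟩
  · exact ⟨1, C.mv_one, by rwa [one_mul], fun t₁ t₂ L' h => hb ⟨t₁, t₂, L', by rwa [one_mul] at h⟩⟩

theorem no_sep (hC : C.Alpha) {F : X ≃ₜ X} (hF : Equi Γ F) (hc : ∀ t, C.c F t ∉ W.A false)
    {L' : Set X} (hL : L' ∈ W.wall false) (hne : L' ≠ C.L) (s t : ℝ) :
    Same L' (C.Φ s) (C.c F t) := by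
  have hL0 : C.L ∈ W.wall false := hC.1 ▸ C.hL
  by_contra hs
  have h1 : ∀ s' t' : ℝ, ¬ Same L' (C.Φ s') (C.c F t') := fun s' t' h =>
    hs ((same_of_preconnected C.ch.isLine.isPreconnected (disjoint_left.2 fun x a b =>
      hne (W.disj _ _ hL _ hL0 ⟨x, b, a⟩)) (C.ch.mem s) (C.ch.mem s')).trans (h.trans
        (same_of_preconnected (isPreconnected_range (C.continuous_c F)) (disjoint_left.2
          (forall_mem_range.2 fun r a => hc r ⟨_, hL, a⟩)) ⟨t', rfl⟩ ⟨t, rfl⟩)))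
  have := C.Φ.surjective.pathConnectedSpace C.Φ.continuous
  obtain ⟨a⟩ := PathConnectedSpace.joined (C.Φ (0 : ℝ)) (C.c F 0)
  obtain ⟨n, -, m, -, hnm, e⟩ := infinite_univ.exists_ne_map_eq_of_mapsTo
    (f := fun n : ℤ => C.γ ^ n • L') (t := {N | N ∈ W.wall false ∧ (N ∩ range a).Nonempty})
    (fun n _ => ⟨W.smul_mem _ _ _ hL, by
      by_contra hn
      have b := same_of_preconnected (isPreconnected_range a.continuous)
        (disjoint_iff_inter_eq_empty.2 (not_nonempty_iff_eq_empty.1 hn)).symm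
        a.source_mem_range a.target_mem_range
      rw [← neg_add_cancel (n : ℝ), C.ch.per_real, C.c_add_int hF, same_smul] at b
      exact h1 _ _ b⟩) (W.loc_fin false _ (isCompact_range a.continuous))
  rcases W.maln _ hL0 _ hL (C.γ ^ (-m + n)) (C.ch.zpow_smul _)
    (by rw [zpow_add, mul_smul, e, zpow_neg, inv_smul_smul]) with h | h
  · exact hnm (by linarith [C.ch.zpow_eq_one h])
  · exact hne h.symm


end Ctx

end Pool.Agent.Lib.MP_66609f_al.DN.BE
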