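import Pool.Agent.Lib.MP_66609f_al.DN.Lift
import Pool.Agent.Lib.MP_66609f_al.Orient2

/-! Equivariant gluing, logarithms, and the sign of an automorphism. -/

namespace Pool.Agent.Lib.MP_66609f_al.DN

open Set Topology Complex Matrix

section glue

variable {X S G D : Type} [TopologicalSpace X] [TopologicalSpace S] [TopologicalSpace D] [Group G]
  [MulAction G X] {p : X → S} {mk : D → S} {q : D → X}

theorem isQuotientMap_tiles (hp : IsQuotientCoveringMap p G) (hmk : IsQuotientMap mk)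
    (hq : Continuous q) (pq : ∀ z, p (q z) = mk z) :
    IsQuotientMap fun u : Σ _ : G, D => u.1 • q u.2 := by
  have hc : ∀ γ : G, Continuous fun z => γ • q z := fun γ => (hp.continuous_const_smul γ).comp hq
  refine (isQuotientMap_iff _).2 ⟨isCoinducing_iff.2 fun U => ⟨fun h => isOpen_iff_mem_nhds.2
    fun x hx => ?_, fun h => h.preimage (continuous_sigma hc)⟩, fun x => ?_⟩
  swap
  · obtain ⟨z, hz⟩ := hmk.surjective (p x)
    obtain ⟨γ, e⟩ := hp.apply_eq_iff_mem_orbit.1 (hz.symm.trans (pq z).symm)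
    exact ⟨⟨γ, z⟩, e⟩
  obtain ⟨N, hN, hd⟩ := hp.disjoint x
  have h1 : IsOpen (p '' (U ∩ interior N)) := by
    rw [← hmk.isOpen_preimage]
    have e : mk ⁻¹' (p '' (U ∩ interior N)) = ⋃ γ : G, {z | γ • q z ∈ U} ∩
        (fun z => γ • q z) ⁻¹' interior N := by
      ext z
      simp only [mem_preimage, mem_image, mem_iUnion, ← pq, hp.apply_eq_iff_mem_orbit]
      exact ⟨fun ⟨y, hy, γ, e⟩ => ⟨γ, by subst e; exact hy⟩, fun ⟨γ, h⟩ => ⟨_, h, γ, rfl⟩⟩
    rw [e]
    exact isOpen_iUnion fun γ => (isOpen_sigma_iff.1 h γ).inter (isOpen_interior.preimage (hc γ))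
  filter_upwards [(h1.preimage hp.continuous).mem_nhds ⟨x, ⟨hx, mem_interior_iff_mem_nhds.2 hN⟩, rfl⟩,
    hN] with y ⟨u, hu, e⟩ hy
  obtain ⟨γ, rfl⟩ := hp.apply_eq_iff_mem_orbit.1 e
  obtain rfl := hd γ ⟨_, ⟨y, hy, rfl⟩, interior_subset hu.2⟩
  simpa using hu.1

/-- A map on the polygon that respects the side pairings extends to an equivariant map. -/
theorem glue (hp : IsQuotientCoveringMap p G) (hmk : IsQuotientMap mk) (hq : Continuous q)
    (pq : ∀ z, p (q z) = mk z) {R : D → D → Prop}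
    (rel : ∀ z z', mk z = mk z' → Relation.EqvGen R z z') {Y : Type} [TopologicalSpace Y]
    (a : G →* Equiv.Perm Y) (ha : ∀ γ, Continuous (a γ)) {ψ : D → Y} (hψ : Continuous ψ)
    (h : ∀ z z', R z z' → ∃ γ : G, q z' = γ • q z ∧ ψ z' = a γ (ψ z)) :
    ∃ Ψ : X → Y, Continuous Ψ ∧ ∀ (γ : G) z, Ψ (γ • q z) = a γ (ψ z) := by
  have key : ∀ z z', Relation.EqvGen R z z' → ∃ γ : G, q z' = γ • q z ∧ ψ z' = a γ (ψ z) := by
    intro z z' h'
    induction h' with
    | rel z z' h' => exact h z z' h'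
    | refl z => exact ⟨1, by simp⟩
    | symm z z' _ ih =>
      obtain ⟨γ, h1, h2⟩ := ih
      exact ⟨γ⁻¹, by simp [h1, h2]⟩
    | trans z z' z'' _ _ ih ih' =>
      obtain ⟨γ, h1, h2⟩ := ih
      obtain ⟨δ, h3, h4⟩ := ih'
      exact ⟨δ * γ, by simp [h1, h2, h3, h4, mul_smul]⟩
  obtain ⟨Ψ, hΨ⟩ := exists_quot (isQuotientMap_tiles hp hmk hq pq)
    (u := fun u => a u.1 (ψ u.2)) (continuous_sigma fun γ => (ha γ).comp hψ) (by
      rintro ⟨γ, z⟩ ⟨δ, z'⟩ e
      have e' : γ • q z = δ • q z' := e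
      obtain ⟨ε, h1, h2⟩ := key z z' (rel _ _ (by
        rw [← pq, ← pq, ← hp.map_smul γ, e', hp.map_smul]))
      rw [h1, smul_smul] at e'
      simp [free hp e', h2])
  exact ⟨Ψ, Ψ.continuous, fun γ z => hΨ ⟨γ, z⟩⟩

end glue

theorem exp_const {A : Type} [TopologicalSpace A] [PreconnectedSpace A] {u v : A → ℂ}
    (hu : Continuous u) (hv : Continuous v) (h : ∀ a, exp (u a) = exp (v a)) (a b : A) :
    u a - v a = u b - v b := by
  have h1 := congrFun (isCoveringMap_exp.eq_of_comp_eq hu (hv.add_const (u a - v a))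
    (funext fun c => Subtype.ext (by
      simp only [Function.comp_apply, exp_add, exp_sub, h, div_self (exp_ne_zero _), mul_one]))
    a (by simp)) b
  rw [h1]
  ring

theorem exists_log {u : ℝ × ℝ → ℂ} (hu : Continuous u) (h : ∀ a, u a ≠ 0) :
    ∃ L : ℝ × ℝ → ℂ, Continuous L ∧ ∀ a, exp (L a) = u a := by
  obtain ⟨L, ⟨-, hL⟩, -⟩ := isCoveringMap_exp.existsUnique_continuousMap_lifts
    ⟨fun a => ⟨u a, h a⟩, hu.subtype_mk _⟩ 0 (log (u 0)) (Subtype.ext (exp_log (h 0)))
  exact ⟨L, L.continuous, fun a => congrArg Subtype.val (congrFun hL a)⟩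

theorem exists_ext {T : ℝ} (hT : 0 < T) {h : ℝ → ℝ} (hc : Continuous h) (e : h 0 = h T) :
    ∃ H : ℂ → ℝ, Continuous H ∧ ∀ u ∈ Icc 0 T, H (exp ((2 * Real.pi * u / T : ℝ) * I)) = h u := by
  have : Fact (0 < T) := ⟨hT⟩
  have he : IsClosedEmbedding fun x : AddCircle T => (AddCircle.homeomorphCircle hT.ne' x : ℂ) :=
    (Continuous.isClosedEmbedding (by fun_prop)
      (Circle.coe_injective.comp (AddCircle.homeomorphCircle hT.ne').injective))
  obtain ⟨H, hH⟩ := ContinuousMap.exists_extension' he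
    ⟨_, AddCircle.liftIco_zero_continuous e hc.continuousOn⟩
  have key : ∀ u ∈ Ico 0 T, H (exp ((2 * Real.pi * u / T : ℝ) * I)) = h u := fun u hu => by
    have h1 := congrFun hH (u : AddCircle T)
    simp only [Function.comp_apply, ContinuousMap.coe_mk, AddCircle.liftIco_zero_coe_apply hu,
      AddCircle.homeomorphCircle_apply, AddCircle.toCircle_apply_mk, Circle.coe_exp] at h1
    rw [← h1]
    congr 4
    ring
  refine ⟨H, H.continuous, fun u hu => hu.2.lt_or_eq.elim (fun h1 => key u ⟨hu.1, h1⟩) ?_⟩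
  rintro rfl
  rw [← e, ← key 0 ⟨le_rfl, hT⟩, mul_div_cancel_right₀ _ hT.ne']
  simp

theorem sign_sum {g : ℕ} (i0 : Fin g) (φ : MulAut (SurfaceGroup g)) :
    ∑ i : Fin g, (orient2_ex (φ (.of (i, false))) (i0, false) *
      orient2_ex (φ (.of (i, true))) (i0, true) - orient2_ex (φ (.of (i, true))) (i0, false) *
      orient2_ex (φ (.of (i, false))) (i0, true)) =
      interForm g (φ (.of (i0, false))) (φ (.of (i0, true))) := by
  obtain ⟨e, he⟩ := orient2_AJA i0 φ
  have h1 : orient2_J g (i0, false) (i0, true) = 1 := by simp [orient2_J]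
  have h2 := orient2_conj (orient2_A φ) (i0, false) (i0, true)
  rw [he, Matrix.smul_apply, h1, smul_eq_mul, mul_one] at h2
  refine h2.symm.trans ?_
  have hA := orient2_A_inv φ
  have hJ2 : orient2_J g * orient2_J g = -1 := orient2_J_sq
  have h3 : (orient2_A φ)ᵀ * orient2_J g * orient2_A φ = e • orient2_J g := by
    set A := orient2_A φ
    set A' := orient2_A φ⁻¹
    set J := orient2_J g
    have h3 : J * Aᵀ = e • (A' * J) := by
      rw [← Matrix.mul_smul, ← he, ← Matrix.mul_assoc, ← Matrix.mul_assoc, hA, Matrix.one_mul]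
    have h5 : J * (J * Aᵀ) * J * A = J * (e • (A' * J)) * J * A := by rw [h3]
    rw [← Matrix.mul_assoc, hJ2, Matrix.mul_smul, Matrix.smul_mul, Matrix.smul_mul,
      Matrix.mul_assoc J, Matrix.mul_assoc A', hJ2] at h5
    simpa [Matrix.mul_assoc, hA] using h5
  rw [orient2_form, orient2_ex_map, orient2_ex_map, ← Matrix.vecMul_transpose,
    ← Matrix.dotProduct_mulVec, Matrix.mulVec_mulVec, Matrix.mulVec_mulVec, h3, orient2_ex_of,
    orient2_ex_of]
  simp [h1, -zsmul_eq_mul]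

end Pool.Agent.Lib.MP_66609f_al.DN
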