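import Pool.Agent.Lib.MP_66609f_al.DN.Sign1
import Pool.Agent.Lib.MP_66609f_al.DN.CPref

/-! The local winding number of a homeomorphism equals the sign of its outer class. -/

namespace Pool.Agent.Lib.MP_66609f_al.DN

open Set Topology Complex

theorem take_surfWord {g : ℕ} (i : Fin g) : ∃ l, ∀ j ≤ 4, (surfWord g).take (4 * i + j) = l ++
    [((i, false), true), ((i, true), true), ((i, false), false), ((i, true), false)].take j := by
  obtain ⟨l, r, h1, h2⟩ := surfWord_split i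
  refine ⟨l, fun j hj => ?_⟩
  rw [h2, ← h1, List.take_length_add_append]
  exact congrArg _ (List.take_append_of_le_length (l₁ := [_, _, _, _]) hj)

/-- Clamp to the unit interval. -/
def cl (t : ℝ) : ℝ := max 0 (min 1 t)

@[fun_prop] theorem continuous_cl : Continuous cl := by
  unfold cl
  fun_prop

theorem cl_zero {t : ℝ} (h : t ≤ 0) : cl t = 0 := max_eq_left ((min_le_right _ _).trans h)

theorem cl_one {t : ℝ} (h : 1 ≤ t) : cl t = 1 := by simp [cl, h]

theorem cl_self {t : ℝ} (h : 0 ≤ t) (h' : t ≤ 1) : cl t = t := by simp [cl, h, h']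

/-- The twisted action on a trivial line bundle over the real line. -/
noncomputable def act {G : Type} [Group G] (α β : G →* Multiplicative ℤ) :
    G →* Equiv.Perm (ℝ × ℂ) :=
  @MulAction.toPermHom G (ℝ × ℂ) _
    { smul := fun γ y => (y.1 + (α γ).toAdd, exp (-(2 * Real.pi * I) * (β γ).toAdd * y.1) * y.2)
      one_smul := fun y => by
        change (_, _) = y
        simp
      mul_smul := fun γ δ y => by
        change (_, _) = (_, _)
        refine Prod.ext ?_ ?_
        · change _ = y.1 + (α δ).toAdd + (α γ).toAdd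
          simp only [map_mul, toAdd_mul]
          push_cast
          ring
        · change exp _ * _ = exp (-(2 * Real.pi * I) * (β γ).toAdd * (y.1 + (α δ).toAdd : ℝ)) *
            (exp (-(2 * Real.pi * I) * (β δ).toAdd * y.1) * y.2)
          rw [← mul_assoc, ← exp_add]
          congr 1
          refine exp_eq_exp_iff_exists_int.2 ⟨(β γ).toAdd * (α δ).toAdd, ?_⟩
          simp only [map_mul, toAdd_mul]
          push_cast
          ring }

theorem act_apply {G : Type} [Group G] (α β : G →* Multiplicative ℤ) (γ : G) (y : ℝ × ℂ) :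
    act α β γ y = (y.1 + (α γ).toAdd, exp (-(2 * Real.pi * I) * (β γ).toAdd * y.1) * y.2) := rfl

theorem eq_of_lt {g : ℕ} {z z' : Disc} (hz : ‖(z : ℂ)‖ < 1)
    (h : Quot.mk (sideRel g) z = Quot.mk _ z') : z = z' := by
  have key : ∀ a b, Relation.EqvGen (sideRel g) a b → a = b ∨ ‖(a : ℂ)‖ = 1 ∧ ‖(b : ℂ)‖ = 1 := by
    intro a b h
    induction h with
    | rel a b h =>
      obtain ⟨i, t, -, ⟨rfl, rfl⟩ | ⟨rfl, rfl⟩⟩ := h <;> exact .inr ⟨norm_bd _ _, norm_bd _ _⟩
    | refl a => exact .inl rfl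
    | symm a b _ ih => exact ih.imp Eq.symm And.symm
    | trans a b c _ _ ih ih' =>
      rcases ih with rfl | ih
      · exact ih'
      rcases ih' with rfl | ih'
      exacts [.inr ih, .inr ⟨ih.1, ih'.2⟩]
  exact (key z z' (Quot.eqvGen_exact h)).resolve_right fun h => hz.ne h.1

variable {g : ℕ} {X : Type} [TopologicalSpace X] [MulAction (SurfaceGroup g) X] (M : Model g X)

theorem Model.pair (i : Fin g) : ∃ γ δ : SurfaceGroup g,
    orient2_ex γ = orient2_ex (.of (i, true)) ∧ orient2_ex δ = -orient2_ex (.of (i, false)) ∧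
    ∀ t ∈ Icc (0 : ℝ) 1, M.q (bd (4 * g) (4 * i + 3 - t)) = γ • M.q (bd (4 * g) (4 * i + t)) ∧
      M.q (bd (4 * g) (4 * i + 4 - t)) = δ • M.q (bd (4 * g) (4 * i + 1 + t)) := by
  have hb := continuous_bd (4 * g)
  obtain ⟨γ, hγ⟩ := exists_smul M.cov
    (u := fun t : Icc (0 : ℝ) 1 => M.q (bd (4 * g) (4 * i + 3 - t)))
    (v := fun t => M.q (bd (4 * g) (4 * i + t))) (by fun_prop) (by fun_prop) fun t => by
      rw [M.pq, M.pq]
      exact (Quot.sound ⟨i, t, t.2, .inl ⟨rfl, rfl⟩⟩).symm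
  obtain ⟨δ, hδ⟩ := exists_smul M.cov
    (u := fun t : Icc (0 : ℝ) 1 => M.q (bd (4 * g) (4 * i + 4 - t)))
    (v := fun t => M.q (bd (4 * g) (4 * i + 1 + t))) (by fun_prop) (by fun_prop) fun t => by
      rw [M.pq, M.pq]
      exact (Quot.sound ⟨i, t, t.2, .inr ⟨rfl, rfl⟩⟩).symm
  obtain ⟨l, hl⟩ := take_surfWord i
  have h := fun (j : ℕ) (hj : j ≤ 4) => M.vtx (4 * i + j) (by omega)
  have e1 := hγ 0
  have e2 := hδ 0
  have h0 := h 0 (by norm_num)
  have h1 := h 1 (by norm_num)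
  have h3 := h 3 (by norm_num)
  have h4 := h 4 (by norm_num)
  rw [hl _ (by norm_num), val, ← FreeGroup.mul_mk, map_mul] at h0 h1 h3 h4
  push_cast at h0 h1 h3 h4
  rw [add_zero] at h0
  simp only [Icc.coe_zero, sub_zero, add_zero, h0, h1, h3, h4, smul_smul] at e1 e2
  have e3 := congrArg orient2_ex (free M.cov e1)
  have e4 := congrArg orient2_ex (free M.cov e2)
  simp [orient2_ex_mul, orient2_ex_inv] at e3 e4
  exact ⟨γ, δ, by linear_combination -e3, by linear_combination -e4,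
    fun t ht => ⟨hγ ⟨t, ht⟩, hδ ⟨t, ht⟩⟩⟩

/-- An equivariant section that vanishes exactly on one orbit. -/
theorem Model.exists_sec (hg : 0 < g) {w : ℂ} (hw : ‖w‖ < 1) :
    ∃ (Ψ : X → ℝ × ℂ) (ξ : Disc → ℝ) (Θ : Disc → ℂ), Continuous Ψ ∧ Continuous ξ ∧ Continuous Θ ∧
      ∀ (γ : SurfaceGroup g) z, Ψ (γ • M.q z) = act (expo g (⟨0, hg⟩, false))
        (expo g (⟨0, hg⟩, true)) γ (ξ z, exp (Θ z) * (z - w)) := by
  have hg1 : (1 : ℝ) ≤ g := by exact_mod_cast hg
  have hT : (0 : ℝ) < 4 * g := by linarith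
  obtain ⟨ξ, hξ, eξ⟩ := exists_ext hT (h := fun u => cl u - cl (u - 2)) (by fun_prop) (by
    rw [cl_zero le_rfl, cl_zero (by norm_num), cl_one (by linarith), cl_one (by linarith)]
    simp)
  obtain ⟨θ, hθ, eθ⟩ := exists_ext hT (h := fun u => cl (u - 2) - u / (4 * g)) (by fun_prop) (by
    rw [cl_zero (by norm_num), cl_one (by linarith), div_self hT.ne']
    simp)
  have hs : ∀ z : Disc, 1 - w * (starRingEnd ℂ) z ∈ slitPlane := fun z => by
    rw [sub_eq_add_neg]
    refine mem_slitPlane_of_norm_lt_one ?_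
    have := mem_closedBall_zero_iff.1 z.2
    rw [norm_neg, norm_mul, norm_conj]
    nlinarith [norm_nonneg w]
  let Θ : Disc → ℂ := fun z => 2 * Real.pi * I * θ z - log (1 - w * (starRingEnd ℂ) z)
  have hΘ : Continuous Θ := Continuous.sub (by fun_prop) (Continuous.clog (by fun_prop) hs)
  have hb : ∀ u ∈ Icc (0 : ℝ) (4 * g), (ξ (bd (4 * g) u), exp (Θ (bd (4 * g) u)) * (bd (4 * g) u - w)) =
      (cl u - cl (u - 2), exp (2 * Real.pi * I * cl (u - 2))) := fun u hu => by
    have h0 : (bd (4 * g) u : ℂ) = exp ((2 * Real.pi * u / (4 * g) : ℝ) * I) := by simp [bd]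
    refine Prod.ext (h0 ▸ eξ u hu) ?_
    have h1 : θ (bd (4 * g) u) = _ := h0 ▸ eθ u hu
    have h2 : (bd (4 * g) u : ℂ) * (starRingEnd ℂ) (bd (4 * g) u) = 1 := by
      rw [mul_conj, normSq_eq_norm_sq, norm_bd]
      simp
    have h3 : (bd (4 * g) u : ℂ) - w = bd (4 * g) u * (1 - w * (starRingEnd ℂ) (bd (4 * g) u)) := by
      linear_combination w * h2
    simp only [Θ, exp_sub, exp_log (slitPlane_ne_zero (hs _))]
    rw [h1, h3, mul_comm (bd (4 * g) u : ℂ), ← mul_assoc,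
      div_mul_cancel₀ _ (slitPlane_ne_zero (hs _)), h0, ← exp_add]
    congr 1
    push_cast
    ring
  obtain ⟨Ψ, h1, h2⟩ := glue M.cov isQuotientMap_quot_mk M.q.continuous M.pq
    (fun _ _ => Quot.eqvGen_exact)
    (act (expo g (⟨0, hg⟩, false)) (expo g (⟨0, hg⟩, true)))
    (fun γ => by simp only [funext (act_apply _ _ γ)]; fun_prop)
    (ψ := fun z => (ξ z, exp (Θ z) * (z - w))) (by fun_prop) (by
      rintro z z' ⟨i, t, ⟨t0, t1⟩, h⟩
      obtain ⟨γ, δ, e1, e2, e⟩ := M.pair i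
      have hi : (i : ℝ) + 1 ≤ g := by exact_mod_cast i.2
      have a1 := congrFun e1 (⟨0, hg⟩, false)
      have a2 := congrFun e1 (⟨0, hg⟩, true)
      have a3 := congrFun e2 (⟨0, hg⟩, false)
      have a4 := congrFun e2 (⟨0, hg⟩, true)
      rw [orient2_ex_of] at a1 a2 a3 a4
      unfold orient2_ex at a1 a2 a3 a4
      have h0 : (0 : ℝ) ≤ i := by positivity
      rcases h with ⟨rfl, rfl⟩ | ⟨rfl, rfl⟩
      · refine ⟨γ, (e t ⟨t0, t1⟩).1, ?_⟩
        rw [hb _ ⟨by linarith, by linarith⟩, hb _ ⟨by linarith, by linarith⟩, act_apply, a1, a2]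
        by_cases h : i = ⟨0, hg⟩
        · subst h
          simp only [Nat.cast_zero, mul_zero, zero_add]
          rw [cl_one (by linarith), cl_self (by linarith) (by linarith), cl_self t0 t1,
            cl_zero (by linarith), ← exp_add]
          exact Prod.ext (by simp; ring) (exp_eq_exp_iff_exists_int.2 ⟨1, by simp; ring⟩)
        · have h1 : (1 : ℝ) ≤ i := by exact_mod_cast Nat.pos_of_ne_zero fun e => h (Fin.ext e)
          rw [cl_one (by linarith), cl_one (by linarith), cl_one (by linarith), cl_one (by linarith)]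
          simp [Ne.symm h]
      · refine ⟨δ, (e t ⟨t0, t1⟩).2, ?_⟩
        rw [hb _ ⟨by linarith, by linarith⟩, hb _ ⟨by linarith, by linarith⟩, act_apply, a3, a4]
        by_cases h : i = ⟨0, hg⟩
        · subst h
          simp only [Nat.cast_zero, mul_zero, zero_add]
          rw [cl_one (by linarith), cl_one (by linarith), cl_one (by linarith),
            cl_zero (by linarith)]
          simp
        · have h1 : (1 : ℝ) ≤ i := by exact_mod_cast Nat.pos_of_ne_zero fun e => h (Fin.ext e)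
          rw [cl_one (by linarith), cl_one (by linarith), cl_one (by linarith), cl_one (by linarith)]
          simp [Ne.symm h])
  exact ⟨Ψ, fun z => ξ z, Θ, h1, by fun_prop, hΘ, h2⟩

/-- The variation of the logarithm along the four sides of one handle. -/
theorem block {Λ : ℝ → ℂ} {x : ℝ → ℝ} (hΛ : Continuous Λ) (hx : Continuous x) (k : ℝ)
    {a b a' b' : ℤ}
    (h1 : ∀ t ∈ Icc (0 : ℝ) 1, (x (k + 3 - t), exp (Λ (k + 3 - t))) =
      (x (k + t) + a', exp (-(2 * Real.pi * I) * b' * x (k + t)) * exp (Λ (k + t))))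
    (h2 : ∀ t ∈ Icc (0 : ℝ) 1, (x (k + 4 - t), exp (Λ (k + 4 - t))) = (x (k + 1 + t) + (-a : ℤ),
      exp (-(2 * Real.pi * I) * (-b : ℤ) * x (k + 1 + t)) * exp (Λ (k + 1 + t)))) :
    Λ (k + 4) - Λ k = (a * b' - a' * b : ℤ) * (2 * Real.pi * I) := by
  have e1 := exp_const (u := fun t : Icc (0 : ℝ) 1 => Λ (k + 3 - t))
    (v := fun t => -(2 * Real.pi * I) * b' * x (k + t) + Λ (k + t)) (by fun_prop) (by fun_prop)
    (fun t => (congrArg Prod.snd (h1 t t.2)).trans (exp_add _ _).symm) 0 1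
  have e2 := exp_const (u := fun t : Icc (0 : ℝ) 1 => Λ (k + 4 - t))
    (v := fun t => -(2 * Real.pi * I) * (-b : ℤ) * x (k + 1 + t) + Λ (k + 1 + t)) (by fun_prop)
    (by fun_prop) (fun t => (congrArg Prod.snd (h2 t t.2)).trans (exp_add _ _).symm) 0 1
  have e3 := congrArg (fun y => (y.1 : ℂ)) (h1 0 (by simp))
  have e4 := congrArg (fun y => (y.1 : ℂ)) (h1 1 (by simp))
  have e5 := congrArg (fun y => (y.1 : ℂ)) (h2 1 (by simp))
  simp only [Icc.coe_zero, Icc.coe_one, sub_zero, add_zero, show k + 3 - 1 = k + 2 by ring,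
    show k + 4 - 1 = k + 3 by ring, show k + 1 + 1 = k + 2 by ring] at e1 e2 e3 e4 e5
  push_cast at *
  linear_combination e1 + e2 + 2 * Real.pi * I * (b' * (e3 - e4 - e5) - b * e4)

/-- The local winding number of `f` is the factor by which `φ` scales the intersection form. -/
theorem Model.wind_eq (hg : 0 < g) {f : Surf g ≃ₜ Surf g} {F : X ≃ₜ X}
    {φ : MulAut (SurfaceGroup g)} (h : Lifts M.p f F φ) {z w : Disc} (hz : ‖(z : ℂ)‖ < 1)
    (hw : ‖(w : ℂ)‖ < 1) (e : f (Quot.mk _ z) = Quot.mk _ w) {r : ℝ} (hr : 0 < r)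
    {d c : ℝ → Disc} (hd : ∀ t : ℝ, (d t : ℂ) = z + r * exp (t * I)) (hc : Continuous c)
    (hc1 : c (2 * Real.pi) = c 0) (ec : ∀ t, f (Quot.mk _ (d t)) = Quot.mk _ (c t)) :
    ∃ L : ℝ → ℂ, Continuous L ∧ (∀ t, exp (L t) = c t - w) ∧ L (2 * Real.pi) - L 0 =
      interForm g (φ (.of (⟨0, hg⟩, false))) (φ (.of (⟨0, hg⟩, true))) * (2 * Real.pi * I) := by
  obtain ⟨Ψ, ξ, Θ, hΨ, hξ, hΘ, eΨ⟩ := M.exists_sec hg hw
  have hb := continuous_bd (4 * g)
  have sur : ∀ x, ∃ (γ : SurfaceGroup g) (y : Disc), γ • M.q y = x := fun x =>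
    let ⟨u, hu⟩ := (isQuotientMap_tiles M.cov isQuotientMap_quot_mk M.q.continuous M.pq).surjective x
    ⟨u.1, u.2, hu⟩
  have eqv : ∀ (γ : SurfaceGroup g) x, Ψ (γ • x) = act (expo g (⟨0, hg⟩, false))
      (expo g (⟨0, hg⟩, true)) γ (Ψ x) := fun γ x => by
    obtain ⟨δ, y, rfl⟩ := sur x
    rw [smul_smul, eΨ, eΨ, map_mul, Equiv.Perm.mul_apply]
  have ne : ∀ y, y ≠ z → (Ψ (F (M.q y))).2 ≠ 0 := fun y hy h0 => by
    obtain ⟨δ, y', e'⟩ := sur (F (M.q y))
    rw [← e', eΨ, act_apply] at h0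
    obtain rfl : y' = w := Subtype.ext (by simpa [sub_eq_zero] using h0)
    have e1 := congrArg M.p e'
    rw [M.cov.map_smul, M.pq, h.cov, M.pq, ← e] at e1
    exact hy (eq_of_lt hz (f.injective e1)).symm
  have c0 : ∀ t, 0 ≤ cl t := fun t => le_max_left _ _
  have c1 : ∀ t, cl t ≤ 1 := fun t => max_le zero_le_one (min_le_left _ _)
  let H : ℝ × ℝ → Disc := fun u => ⟨(1 - cl u.1) • exp (u.2 * I) + cl u.1 • (z + r * exp (u.2 * I)),
    convex_closedBall _ _ (mem_closedBall_zero_iff.2 (norm_exp_ofReal_mul_I _).le)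
      (hd u.2 ▸ (d u.2).2) (sub_nonneg.2 (c1 _)) (c0 _) (sub_add_cancel _ _)⟩
  have hH : Continuous H := Continuous.subtype_mk (by fun_prop) _
  obtain ⟨Λ, hΛ, eΛ⟩ := exists_log (u := fun u => (Ψ (F (M.q (H u)))).2) (by fun_prop) fun u =>
    ne _ fun e => by
      have e1 : ((1 - cl u.1 + cl u.1 * r : ℝ) : ℂ) * exp (u.2 * I) = (1 - cl u.1 : ℝ) * z := by
        have := congrArg Subtype.val e
        simp only [H, real_smul] at this
        push_cast at this ⊢
        linear_combination this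
      have e2 := congrArg norm e1
      have e3 := mul_nonneg (c0 u.1) hr.le
      have e4 := sub_nonneg.2 (c1 u.1)
      rw [norm_mul, norm_mul, norm_real, norm_real, norm_exp_ofReal_mul_I, Real.norm_of_nonneg e4,
        Real.norm_of_nonneg (add_nonneg e4 e3)] at e2
      rcases (c0 u.1).eq_or_lt with h0 | h0
      · rw [← h0] at e2
        linarith
      nlinarith [mul_pos h0 hr]
  have e1 := exp_const (u := fun s : ℝ => Λ (s, 2 * Real.pi)) (v := fun s => Λ (s, 0))
    (by fun_prop) (by fun_prop)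
    (fun s => by rw [eΛ, eΛ, show H (s, 2 * Real.pi) = H (s, 0) by simp [H]]) 1 0
  have H0 : ∀ u, H (0, 2 * Real.pi * u / (4 * g)) = bd (4 * g) u := fun u =>
    Subtype.ext (by simp [H, bd, cl])
  have H1 : ∀ t, H (1, t) = d t := fun t => Subtype.ext (by simp [H, hd, cl])
  have e2 : ∀ i : Fin g, Λ (0, 2 * Real.pi * (4 * i + 4) / (4 * g)) -
      Λ (0, 2 * Real.pi * (4 * i) / (4 * g)) = _ := fun i => by
    obtain ⟨γ, δ, a1, a2, a⟩ := M.pair i
    have a3 : orient2_ex (φ γ) = orient2_ex (φ (.of (i, true))) := by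
      rw [orient2_ex_map, orient2_ex_map, a1]
    have a4 : orient2_ex (φ δ) = -orient2_ex (φ (.of (i, false))) := by
      rw [orient2_ex_map, orient2_ex_map, a2, Matrix.mulVec_neg]
    refine block (Λ := fun u => Λ (0, 2 * Real.pi * u / (4 * g)))
      (x := fun u => (Ψ (F (M.q (bd (4 * g) u)))).1)
      (a := orient2_ex (φ (.of (i, false))) (⟨0, hg⟩, false))
      (b := orient2_ex (φ (.of (i, false))) (⟨0, hg⟩, true))
      (a' := orient2_ex (φ (.of (i, true))) (⟨0, hg⟩, false))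
      (b' := orient2_ex (φ (.of (i, true))) (⟨0, hg⟩, true))
      (by fun_prop) (by fun_prop) (4 * i) (fun t ht => ?_) fun t ht => ?_
    · rw [eΛ, eΛ, H0, H0, (a t ht).1, h.eqv, eqv, act_apply, ← a3]
      rfl
    · rw [eΛ, eΛ, H0, H0, (a t ht).2, h.eqv, eqv, act_apply, ← Pi.neg_apply (orient2_ex _),
        ← Pi.neg_apply (orient2_ex _), ← a4]
      rfl
  have e3 := Finset.sum_range_sub (fun k : ℕ => Λ (0, 2 * Real.pi * (4 * k) / (4 * g))) g
  rw [Finset.sum_range] at e3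
  simp only [Nat.cast_add, Nat.cast_one, mul_add (4 : ℝ), mul_one, e2] at e3
  rw [← Finset.sum_mul, ← Int.cast_sum, sign_sum, mul_div_cancel_right₀ _ (by positivity)] at e3
  obtain ⟨γ, hγ⟩ := exists_smul M.cov (u := fun t => F (M.q (H (1, t)))) (v := fun t => M.q (c t))
    (by fun_prop) (by fun_prop) fun t => by rw [h.cov, M.pq, M.pq, H1, ec]
  refine ⟨fun t => Λ (1, t) - (-(2 * Real.pi * I) * (expo g (⟨0, hg⟩, true) γ).toAdd * ξ (c t) +
    Θ (c t)), by fun_prop, fun t => ?_, ?_⟩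
  · rw [exp_sub, eΛ, hγ, eΨ, act_apply, exp_add, ← mul_assoc, mul_div_cancel_left₀]
    exact mul_ne_zero (exp_ne_zero _) (exp_ne_zero _)
  · simp only [hc1, Nat.cast_zero, mul_zero, zero_div] at e3 ⊢
    linear_combination e1 - e3

end Pool.Agent.Lib.MP_66609f_al.DN
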