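import Pool.Agent.Lib.MP_66609f_al.DN.Sign2

/-! A homeomorphism preserves the orientation iff its outer class preserves the intersection form. -/

namespace Pool.Agent.Lib.MP_66609f_al.DN

open Set Topology Complex

variable {g : ℕ}

theorem isOpenEmbedding_mk :
    IsOpenEmbedding fun z : {z : Disc | ‖(z : ℂ)‖ < 1} => Quot.mk (sideRel g) z := by
  have ho : IsOpen {z : Disc | ‖(z : ℂ)‖ < 1} := isOpen_lt (by fun_prop) continuous_const
  refine .of_continuous_injective_isOpenMap (continuous_quot_mk.comp continuous_subtype_val)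
    (fun z z' e => Subtype.ext (eq_of_lt z.2 e)) fun U hU => ?_
  rw [← isQuotientMap_quot_mk.isOpen_preimage]
  convert ho.isOpenMap_subtype_val U hU
  exact Set.ext fun y => ⟨fun ⟨z, hz, e⟩ => ⟨z, hz, eq_of_lt z.2 e⟩,
    fun ⟨z, hz, e⟩ => ⟨z, hz, congrArg _ e⟩⟩

theorem exists_chart (f : Surf g ≃ₜ Surf g) : ∃ (h : ℂ → ℂ) (z : ℂ) (r : ℝ), 0 < r ∧
    ContinuousOn h (Metric.closedBall z r) ∧ ∀ u ∈ Metric.closedBall z r, ∃ a b : Disc,
      (a : ℂ) = u ∧ (b : ℂ) = h u ∧ ‖u‖ < 1 ∧ ‖h u‖ < 1 ∧ f (Quot.mk _ a) = Quot.mk _ b := by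
  have hj := isOpenEmbedding_mk (g := g)
  have hd : Dense {z : Disc | ‖(z : ℂ)‖ < 1} :=
    Subtype.dense_iff.2 ((closure_ball _ one_ne_zero).ge.trans (closure_mono fun z hz =>
      ⟨⟨z, Metric.ball_subset_closedBall hz⟩, by simpa using hz, rfl⟩))
  obtain ⟨_, ⟨z, hz, rfl⟩, e⟩ := (Quot.mk_surjective.denseRange.dense_image continuous_quot_mk
    hd).exists_mem_open (hj.isOpen_range.preimage f.continuous)
    ⟨_, ⟨⟨0, by simp⟩, by simp⟩, (f.apply_symm_apply _).symm⟩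
  obtain ⟨ε, h0, hε⟩ := Metric.isOpen_iff.1 (hj.isOpen_range.preimage
    (f.continuous.comp continuous_quot_mk)) z e
  have h1 := lt_min h0 (sub_pos.2 (show ‖(z : ℂ)‖ < 1 from hz))
  have h2 := fun u : Metric.closedBall (z : ℂ) (min ε (1 - ‖(z : ℂ)‖) / 2) =>
    lt_min_iff.1 ((mem_closedBall_iff_norm.1 u.2).trans_lt (half_lt_self h1))
  have h3 := fun u => (norm_le_norm_sub_add _ _).trans_lt (lt_sub_iff_add_lt.1 (h2 u).2)
  choose c hc using fun u => hε (a := ⟨_, mem_closedBall_zero_iff.2 (h3 u).le⟩)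
    (mem_ball_iff_norm.2 (h2 u).1 : u.1 ∈ Metric.ball z.1 ε)
  have h4 : Continuous c := hj.continuous_iff.2 ((f.continuous.comp (continuous_quot_mk.comp
    (continuous_subtype_val.subtype_mk _))).congr fun t => (hc t).symm)
  have h5 := Subtype.val_injective.extend_apply (fun u => ((c u : Disc) : ℂ)) 0
  refine ⟨Subtype.val.extend (fun u => ((c u : Disc) : ℂ)) 0, z, _, half_pos h1,
    continuousOn_iff_continuous_domRestrict.2 ((continuous_subtype_val.comp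
      (continuous_subtype_val.comp h4)).congr fun u => (h5 u).symm), fun u hu => ?_⟩
  rw [h5 ⟨u, hu⟩]
  exact ⟨_, _, rfl, rfl, h3 ⟨u, hu⟩, (c _).2, (hc ⟨u, hu⟩).symm⟩

theorem mem_autPlus (hg : 0 < g) (φ : MulAut (SurfaceGroup g)) : φ ∈ AutPlus g ↔
    interForm g (φ (.of (⟨0, hg⟩, false))) (φ (.of (⟨0, hg⟩, true))) = 1 := by
  have h1 : interForm g (.of (⟨0, hg⟩, false)) (.of (⟨0, hg⟩, true)) = 1 := by
    rw [orient2_form_of, orient2_ex_of]
    simp
  obtain ⟨e, he⟩ := orient2_scale ⟨0, hg⟩ φ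
  refine ⟨fun h => (h _ _).trans h1, fun h x y => ?_⟩
  rw [he, h1, mul_one] at h
  rw [he, h, one_mul]

variable {X : Type} [TopologicalSpace X] [MulAction (SurfaceGroup g) X] (M : Model g X)

theorem Model.orPres_iff (hg : 0 < g) {f : Surf g ≃ₜ Surf g} {F : X ≃ₜ X}
    {φ : MulAut (SurfaceGroup g)} (hF : Lifts M.p f F φ) : OrPres g f ↔ φ ∈ AutPlus g := by
  have key : ∀ (h : ℂ → ℂ) (z : ℂ) (r : ℝ), 0 < r → ContinuousOn h (Metric.closedBall z r) →
      (∀ u ∈ Metric.closedBall z r, ∃ a b : Disc, (a : ℂ) = u ∧ (b : ℂ) = h u ∧ ‖u‖ < 1 ∧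
        ‖h u‖ < 1 ∧ f (Quot.mk _ a) = Quot.mk _ b) → ∃ L : ℝ → ℂ, Continuous L ∧
      (∀ t : ℝ, exp (L t) = h (z + r * exp (t * I)) - h z) ∧ L (2 * Real.pi) - L 0 =
      interForm g (φ (.of (⟨0, hg⟩, false))) (φ (.of (⟨0, hg⟩, true))) * (2 * Real.pi * I) := by
    intro h z r hr hc H
    obtain ⟨z, w, rfl, hw, h1, h2, e⟩ := H z (Metric.mem_closedBall_self hr.le)
    have hm : ∀ t : ℝ, (z : ℂ) + r * exp (t * I) ∈ Metric.closedBall (z : ℂ) r := fun t => by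
      simp [abs_of_pos hr]
    choose d c h3 h4 h5 using fun t => H _ (hm t)
    simpa only [h4, hw] using M.wind_eq hg hF h1 (hw ▸ h2) e hr h3 (continuous_induced_rng.2
      ((hc.comp_continuous (by fun_prop) hm).congr fun t => (h4 t).symm))
      (Subtype.ext (by simp [h4])) fun t => (h5 t).2.2
  rw [mem_autPlus hg]
  refine ⟨fun H => ?_, fun H h z r hr hc h1 => by simpa [H] using key h z r hr hc h1⟩
  obtain ⟨h, z, r, hr, hc, h1⟩ := exists_chart f
  obtain ⟨L, a1, a2, a3⟩ := H h z r hr hc h1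
  obtain ⟨L', b1, b2, b3⟩ := key h z r hr hc h1
  have e := exp_const a1 b1 (fun t => (a2 t).trans (b2 t).symm) (2 * Real.pi) 0
  exact Int.cast_injective (α := ℂ) (mul_right_cancel₀ two_pi_I_ne_zero (by
    push_cast
    linear_combination a3 - b3 - e))

theorem mk_mem_mod (hg : 0 < g) (φ : MulAut (SurfaceGroup g)) :
    (QuotientGroup.mk φ : Out (SurfaceGroup g)) ∈ Mod g ↔ φ ∈ AutPlus g := by
  refine ⟨fun ⟨ψ, h, e⟩ => ?_, fun h => ⟨φ, h, rfl⟩⟩
  obtain ⟨γ, hγ⟩ := (QuotientGroup.eq (s := Inn (SurfaceGroup g))).1 e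
  rw [← mul_inv_cancel_left ψ φ, ← hγ]
  refine mul_mem h ((mem_autPlus hg _).2 (((mem_autPlus hg 1).1 (one_mem _)).symm ▸ ?_))
  simp [orient2_form, orient2_ex_mul, orient2_ex_inv]

theorem Model.orPres_iff_mem [SimplyConnectedSpace X] [LocallyPathConnectedSpace X] (hg : 0 < g)
    (f : Surf g ≃ₜ Surf g) : OrPres g f ↔ outHom M.cov f ∈ Mod g := by
  obtain ⟨F, φ, h⟩ := exists_lifts M.cov f
  rw [M.orPres_iff hg h, h.outHom M.cov, mk_mem_mod hg]

end Pool.Agent.Lib.MP_66609f_al.DN
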