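import Pool.Agent.Lib.MP_66609f_al.DN.Asm

/-! The mapping class group. -/

namespace Pool.Agent.Lib.MP_66609f_al.DN

/-- The group of orientation-preserving homeomorphisms of the surface of genus `g`. -/
def HomeoPlus (g : ℕ) (hg : 2 ≤ g) : Subgroup (Surf g ≃ₜ Surf g) where
  carrier := {f | OrPres g f}
  one_mem' := orPres_one hg
  mul_mem' := orPres_mul hg
  inv_mem' := orPres_inv hg

/-- The mapping class group: orientation-preserving homeomorphisms modulo isotopy. -/
def MCGtop (g : ℕ) (hg : 2 ≤ g) : Type :=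
  HomeoPlus g hg ⧸ (Homeo0 (Surf g)).subgroupOf (HomeoPlus g hg)

/-- The quotient group structure. -/
noncomputable instance mcgTopGroup (g : ℕ) (hg : 2 ≤ g) : Group (MCGtop g hg) :=
  QuotientGroup.Quotient.group ((Homeo0 (Surf g)).subgroupOf (HomeoPlus g hg))

end Pool.Agent.Lib.MP_66609f_al.DN
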